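import Pool.Agent.MST.Defs2

namespace Pool.Agent.MST

open MeasureTheory Set Pool.Agent.MP_6cbfb8_an
open scoped ENNReal Real

/-
ROW RM (0.6 h). lintegral_polar (m-1) (E ((m-1)+1) = E m): ∫_{‖y‖≤R} ‖y‖^(η-m) dy = sm univ ∫_0^R ρ^(η-m) ρ^(m-1) dρ < ∞ for η > 0.
Then the triple integral is a product (Tonelli): w over a ball, y and z.
-/
theorem radial_m (m : ℕ) (hm : 1 ≤ m) (η R : ℝ) (hη : 0 < η) :
    ∫⁻ y in Metric.closedBall (0 : E m) R, ENNReal.ofReal ‖y‖ ^ (η - m) < ∞ := by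
  obtain ⟨k, rfl⟩ : ∃ k, m = k + 1 := ⟨m - 1, by omega⟩
  have h1 : IntegrableOn (fun y : E (k + 1) => ‖y‖ ^ (η - ((k + 1 : ℕ) : ℝ)))
      (Metric.ball (0 : E (k + 1)) (|R| + 1)) := by
    rw [integrableOn_fun_norm_addHaar (μ := (volume : Measure (E (k + 1))))
      (f := fun t : ℝ => t ^ (η - ((k + 1 : ℕ) : ℝ)))]
    have h2 : IntegrableOn (fun t : ℝ => t ^ (η - 1)) (Ioo 0 (|R| + 1)) := by
      rw [intervalIntegral.integrableOn_Ioo_rpow_iff (by positivity)]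
      linarith
    refine h2.congr_fun (fun t ht => ?_) measurableSet_Ioo
    have h3 : Module.finrank ℝ (E (k + 1)) - 1 = k := by simp
    change t ^ (η - 1) = t ^ (Module.finrank ℝ (E (k + 1)) - 1) • t ^ (η - ((k + 1 : ℕ) : ℝ))
    rw [h3, smul_eq_mul, ← Real.rpow_natCast, ← Real.rpow_add ht.1]
    congr 1
    push_cast
    ring
  have h2 := h1.lintegral_lt_top
  refine lt_of_le_of_lt ?_ h2
  have hsub : Metric.closedBall (0 : E (k + 1)) R ⊆ Metric.ball 0 (|R| + 1) := by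
    refine Metric.closedBall_subset_ball ?_
    linarith [le_abs_self R]
  refine (lintegral_mono_set hsub).trans (le_of_eq ?_)
  refine lintegral_congr_ae (ae_restrict_of_ae ?_)
  have h0 : ∀ᵐ y : E (k + 1), y ≠ 0 := by
    rw [ae_iff]
    simp
  filter_upwards [h0] with y hy
  rw [ENNReal.ofReal_rpow_of_pos (norm_pos_iff.2 hy)]

theorem triple_m (m : ℕ) (hm : 1 ≤ m) (η R : ℝ) (hη : 0 < η) :
    ∫⁻ q in {q : E m × E m × E m | ‖q.1‖ ≤ R ∧ ‖q.2.1‖ ≤ R ∧ ‖q.2.2‖ ≤ R},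
      ENNReal.ofReal (‖q.2.1‖ * ‖q.2.2‖) ^ (η - m) < ∞ := by
  obtain ⟨s, hs⟩ : ∃ s : Set (E m), s = Metric.closedBall (0 : E m) R := ⟨_, rfl⟩
  have hset : {q : E m × E m × E m | ‖q.1‖ ≤ R ∧ ‖q.2.1‖ ≤ R ∧ ‖q.2.2‖ ≤ R}
      = s ×ˢ (s ×ˢ s) := by
    ext q
    rw [hs]
    simp
  have hI := radial_m m hm η R hη
  rw [← hs] at hI
  have hV : volume s < ∞ := by
    rw [hs]
    exact measure_closedBall_lt_top
  have hg : Measurable fun y : E m => ENNReal.ofReal ‖y‖ ^ (η - m) := by fun_prop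
  have hmeas : (volume : Measure (E m × E m × E m)).restrict (s ×ˢ (s ×ˢ s))
      = (volume.restrict s).prod ((volume.restrict s).prod (volume.restrict s)) := by
    rw [Measure.prod_restrict, Measure.prod_restrict]
    rfl
  rw [hset, hmeas]
  obtain ⟨g, hgd⟩ : ∃ g : E m → ℝ≥0∞, g = fun y : E m => ENNReal.ofReal ‖y‖ ^ (η - m) := ⟨_, rfl⟩
  have hI' : ∫⁻ y in s, g y < ∞ := by rw [hgd]; exact hI
  rw [← hgd] at hg
  have e1 : ∀ q : E m × E m × E m, ENNReal.ofReal (‖q.2.1‖ * ‖q.2.2‖) ^ (η - m)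
      = g q.2.1 * g q.2.2 := by
    intro q
    rw [hgd, ENNReal.ofReal_mul (norm_nonneg _),
      ENNReal.mul_rpow_of_ne_top ENNReal.ofReal_ne_top ENNReal.ofReal_ne_top]
  have e2 := lintegral_prod_mul (μ := volume.restrict s)
    (ν := (volume.restrict s).prod (volume.restrict s)) (f := fun _ : E m => (1 : ℝ≥0∞))
    (g := fun p : E m × E m => g p.1 * g p.2) aemeasurable_const (by fun_prop)
  have e3 := lintegral_prod_mul (μ := volume.restrict s) (ν := volume.restrict s)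
    (f := g) (g := g) hg.aemeasurable hg.aemeasurable
  rw [lintegral_congr e1]
  simp only [one_mul] at e2
  rw [e2, e3, lintegral_one, Measure.restrict_apply_univ]
  exact ENNReal.mul_lt_top hV (ENNReal.mul_lt_top hI' hI')

end Pool.Agent.MST
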