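import Pool.Agent.MST.Defs

namespace Pool.Agent.MST

open MeasureTheory Set Pool.Agent.MP_6cbfb8_an
open scoped ENNReal Real

open Complex in
theorem hkf_ker (v y : ℝ) : ex (v * y) = Complex.exp (((-2 * π * v * y : ℝ) : ℂ) * Complex.I) := by
  unfold ex
  congr 3
  ring

/-- `x ^ n * exp (-π x^2)` is integrable, real version -/
theorem hkf_int_real (n : ℕ) : Integrable fun v : ℝ => v ^ n * Real.exp (-(π * v ^ 2)) := by
  have h := integrable_rpow_mul_exp_neg_mul_sq Real.pi_pos (s := (n : ℝ))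
    (lt_of_lt_of_le (by norm_num) (Nat.cast_nonneg n))
  simpa only [Real.rpow_natCast, neg_mul] using h

/-- the Gaussian -/
noncomputable def hkf_g (x : ℝ) : ℂ := Complex.exp (-π * x ^ 2)

theorem hkf_g_eq (x : ℝ) : hkf_g x = ((Real.exp (-(π * x ^ 2)) : ℝ) : ℂ) := by
  unfold hkf_g
  push_cast
  congr 1
  ring

theorem hkf_int (n : ℕ) : Integrable fun v : ℝ => ((v : ℂ) ^ n) * hkf_g v := by
  have h := (hkf_int_real n).ofReal (𝕜 := ℂ)
  refine h.congr (Filter.Eventually.of_forall fun v => ?_)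
  simp only [hkf_g_eq]
  exact Complex.ofReal_mul _ _ |>.trans (by rw [Complex.ofReal_pow])

theorem hkf_fourier_zero :
    FourierTransform.fourier (fun x : ℝ => hkf_g x) = fun t : ℝ => hkf_g t := by
  have h := fourier_gaussian_pi (b := 1) (by simp)
  simp only [mul_one, div_one, Complex.one_cpow, one_mul] at h
  unfold hkf_g
  exact h

theorem hkf_hasDeriv (w : ℝ) : HasDerivAt hkf_g ((-2 * π * w) * hkf_g w) w := by
  unfold hkf_g
  have h1 : HasDerivAt (fun x : ℝ => (-π * (x : ℂ) ^ 2 : ℂ)) (-2 * π * w) w := by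
    have h2 : HasDerivAt (fun x : ℝ => (x : ℂ)) 1 w := Complex.ofRealCLM.hasDerivAt
    have h3 := (h2.pow 2).const_mul (-π : ℂ)
    refine h3.congr_deriv ?_
    push_cast
    ring
  have h4 := h1.cexp
  refine h4.congr_deriv ?_
  ring

theorem gauss_two (y : ℝ) :
    ∫ v : ℝ, ((v ^ 2 * Real.exp (-(π * v ^ 2)) : ℝ) : ℂ) * ex (v * y) = ((HH y : ℝ) : ℂ) := by
  have hf0 : Integrable (fun x : ℝ => hkf_g x) := by simpa using hkf_int 0
  have hf1 : Integrable (fun x : ℝ => x • hkf_g x) := by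
    refine (hkf_int 1).congr (Filter.Eventually.of_forall fun v => ?_)
    simp
  -- first derivative
  have h1 : FourierTransform.fourier (fun x : ℝ => (-2 * π * Complex.I * x) • hkf_g x)
      = fun w : ℝ => (-2 * π * w) * hkf_g w := by
    funext w
    have ha := Real.hasDerivAt_fourier hf0 hf1 w
    rw [hkf_fourier_zero] at ha
    exact ha.unique (hkf_hasDeriv w)
  have hg0 : Integrable (fun x : ℝ => (-2 * π * Complex.I * x) • hkf_g x) := by
    refine ((hkf_int 1).const_mul (-2 * π * Complex.I)).congr (Filter.Eventually.of_forall fun v => ?_)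
    simp only [smul_eq_mul, pow_one]
    ring
  have hg1 : Integrable (fun x : ℝ => x • ((-2 * π * Complex.I * x) • hkf_g x)) := by
    refine ((hkf_int 2).const_mul (-2 * π * Complex.I)).congr (Filter.Eventually.of_forall fun v => ?_)
    simp only [smul_eq_mul, Complex.real_smul]
    ring
  have h2 := Real.hasDerivAt_fourier hg0 hg1 y
  rw [h1] at h2
  have h3 : HasDerivAt (fun w : ℝ => (-2 * π * (w : ℂ)) * hkf_g w)
      (-2 * π * hkf_g y + (-2 * π * y) * ((-2 * π * y) * hkf_g y)) y := by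
    have h4 : HasDerivAt (fun x : ℝ => (x : ℂ)) 1 y := Complex.ofRealCLM.hasDerivAt
    have h5 := (h4.const_mul (-2 * π : ℂ)).mul (hkf_hasDeriv y)
    refine h5.congr_deriv ?_
    ring
  have h6 := h2.unique h3
  rw [Real.fourier_real_eq_integral_exp_smul] at h6
  have hpi : (π : ℂ) ≠ 0 := Complex.ofReal_ne_zero.2 Real.pi_ne_zero
  have h7 : ∫ v : ℝ, Complex.exp (((-2 * π * v * y : ℝ) : ℂ) * Complex.I) •
        ((-2 * π * Complex.I * v) • ((-2 * π * Complex.I * v) • hkf_g v))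
      = (-4 * π ^ 2 : ℂ) * ∫ v : ℝ, ((v ^ 2 * Real.exp (-(π * v ^ 2)) : ℝ) : ℂ) * ex (v * y) := by
    rw [← integral_const_mul]
    refine integral_congr_ae (Filter.Eventually.of_forall fun v => ?_)
    simp only [smul_eq_mul, hkf_ker, hkf_g_eq]
    push_cast
    linear_combination (4 * (π : ℂ) ^ 2 * v ^ 2 * Complex.exp (-(π * v ^ 2)) *
      Complex.exp (-2 * π * v * y * Complex.I)) * Complex.I_sq
  rw [h7] at h6
  have h8 : ((HH y : ℝ) : ℂ) = (1 / (2 * π) - y ^ 2) * hkf_g y := by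
    unfold HH
    rw [hkf_g_eq]
    push_cast
    rfl
  rw [h8]
  have h9 : (-4 * π ^ 2 : ℂ) ≠ 0 := by
    apply mul_ne_zero (by norm_num) (pow_ne_zero _ hpi)
  apply mul_left_cancel₀ h9
  rw [h6]
  field_simp
  ring

instance finite_muS (s0 s1 : ℝ) : IsFiniteMeasure (muS s0 s1) := by
  unfold muS
  apply isFiniteMeasure_withDensity_ofReal
  have hc : Continuous (fun s => bmp s0 s1 s) := by
    unfold bmp
    fun_prop
  exact (hc.continuousOn.integrableOn_Icc (μ := volume)).2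

theorem hkf_intT (T : ℝ) (hT : 0 < T) :
    Integrable fun t : ℝ => (t / T) ^ 2 * Real.exp (-(π * (t / T) ^ 2)) :=
  (hkf_int_real 2).comp_div hT.ne'

theorem finite_muT (T : ℝ) (hT : 0 < T) : IsFiniteMeasure (muT T) := by
  unfold muT
  exact isFiniteMeasure_withDensity_ofReal (hkf_intT T hT).2

theorem hkf_conj_ex (a : ℝ) : (starRingEnd ℂ) (ex a) = ex (-a) := by
  unfold ex
  rw [← Complex.exp_conj, map_mul, Complex.conj_ofReal, Complex.conj_I]
  congr 1
  push_cast
  ring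

theorem hkf_ex_add (a b : ℝ) : ex (a + b) = ex a * ex b := by
  unfold ex
  rw [← Complex.exp_add]
  congr 1
  push_cast
  ring

theorem hkf_norm_ex (a : ℝ) : ‖ex a‖ = 1 := by
  unfold ex
  exact Complex.norm_exp_ofReal_mul_I _

theorem hkf_cont_ex : Continuous ex := by
  unfold ex
  fun_prop

theorem hkf_inner (T : ℝ) (hT : 0 < T) (z : ℝ) :
    ∫ t : ℝ, ex (t * z) ∂(muT T) = ((T * HH (T * z) : ℝ) : ℂ) := by
  unfold muT
  rw [integral_withDensity_eq_integral_toReal_smul (by fun_prop)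
    (Filter.Eventually.of_forall fun _ => ENNReal.ofReal_lt_top)]
  have h1 := Measure.integral_comp_div
    (fun v : ℝ => ((v ^ 2 * Real.exp (-(π * v ^ 2)) : ℝ) : ℂ) * ex (v * (T * z))) T
  rw [gauss_two, abs_of_pos hT] at h1
  rw [Complex.real_smul] at h1
  push_cast at h1 ⊢
  rw [← h1]
  refine integral_congr_ae (Filter.Eventually.of_forall fun t => ?_)
  simp only
  rw [ENNReal.toReal_ofReal (by positivity), Complex.real_smul]
  have h2 : t / T * (T * z) = t * z := by field_simp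
  rw [h2]
  push_cast
  rfl

theorem hkf_cut_bdd (a : ℝ → ℝ) (ha : Cut a) : ∃ C : ℝ, ∀ v, |a v| ≤ C := by
  have hc : ContinuousOn a (Icc (1 / 4) 4) := ha.1.continuous.continuousOn
  obtain ⟨C, hC⟩ := (isCompact_Icc (a := (1 / 4 : ℝ)) (b := 4)).exists_bound_of_continuousOn hc
  refine ⟨C, fun v => ?_⟩
  by_cases hv : v ≤ 1 / 4 ∨ 4 ≤ v
  · rw [ha.2 v hv, abs_zero]
    have h1 := hC 1 ⟨by norm_num, by norm_num⟩
    exact le_trans (norm_nonneg _) h1
  · push Not at hv
    exact hC v ⟨hv.1.le, hv.2.le⟩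

theorem kernel_formula (a : ℝ → ℝ) (ha : Cut a) (κ : ℝ) (hκ : 0 < κ) (s0 s1 : ℝ) (h : s0 < s1)
    (T : ℝ) (hT : 0 < T) (r1 r2 r3 r4 : ℝ) :
    ∫ l : ℝ × ℝ, amp a κ l.1 l.2 r1 * amp a κ l.1 l.2 r2 *
      (starRingEnd ℂ) (amp a κ l.1 l.2 r3) * (starRingEnd ℂ) (amp a κ l.1 l.2 r4)
        ∂((muS s0 s1).prod (muT T)) =
      ((T * KI a κ s0 s1 (T * κ) r1 r2 r3 r4 : ℝ) : ℂ) := by
  have := finite_muT T hT
  have hac : Continuous a := ha.1.continuous
  obtain ⟨C, hC⟩ := hkf_cut_bdd a ha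
  have hvc : ∀ ρ : ℝ, Continuous fun s => vv κ s ρ := by
    intro ρ
    unfold vv
    fun_prop
  have hav : ∀ ρ : ℝ, Continuous fun s => a (vv κ s ρ) := fun ρ => hac.comp (hvc ρ)
  have hsv : ∀ ρ : ℝ, Continuous fun s => √(vv κ s ρ) := fun ρ =>
    Real.continuous_sqrt.comp (hvc ρ)
  -- product of the amplitudes
  have hprod : ∀ l : ℝ × ℝ, amp a κ l.1 l.2 r1 * amp a κ l.1 l.2 r2 *
      (starRingEnd ℂ) (amp a κ l.1 l.2 r3) * (starRingEnd ℂ) (amp a κ l.1 l.2 r4) =
      ((a (vv κ l.1 r1) * a (vv κ l.1 r2) * a (vv κ l.1 r3) * a (vv κ l.1 r4) : ℝ) : ℂ) *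
      ex (l.2 * (κ * (√(vv κ l.1 r1) + √(vv κ l.1 r2) - √(vv κ l.1 r3) - √(vv κ l.1 r4)))) := by
    intro l
    have he : ex (l.2 * (κ * (√(vv κ l.1 r1) + √(vv κ l.1 r2) - √(vv κ l.1 r3) - √(vv κ l.1 r4))))
        = ex (l.2 * (κ * √(vv κ l.1 r1))) * ex (l.2 * (κ * √(vv κ l.1 r2))) *
          ex (-(l.2 * (κ * √(vv κ l.1 r3)))) * ex (-(l.2 * (κ * √(vv κ l.1 r4)))) := by
      rw [← hkf_ex_add, ← hkf_ex_add, ← hkf_ex_add]
      congr 1
      ring
    rw [he]
    unfold amp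
    rw [map_mul, map_mul, Complex.conj_ofReal, Complex.conj_ofReal, hkf_conj_ex, hkf_conj_ex]
    push_cast
    ring
  simp_rw [hprod]
  have hAc : Continuous fun s => a (vv κ s r1) * a (vv κ s r2) * a (vv κ s r3) * a (vv κ s r4) :=
    (((hav r1).mul (hav r2)).mul (hav r3)).mul (hav r4)
  have hfc : Continuous fun s => √(vv κ s r1) + √(vv κ s r2) - √(vv κ s r3) - √(vv κ s r4) :=
    (((hsv r1).add (hsv r2)).sub (hsv r3)).sub (hsv r4)
  have hC0 : 0 ≤ C := le_trans (abs_nonneg _) (hC 0)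
  have hint : Integrable (fun l : ℝ × ℝ =>
      ((a (vv κ l.1 r1) * a (vv κ l.1 r2) * a (vv κ l.1 r3) * a (vv κ l.1 r4) : ℝ) : ℂ) *
      ex (l.2 * (κ * (√(vv κ l.1 r1) + √(vv κ l.1 r2) - √(vv κ l.1 r3) - √(vv κ l.1 r4)))))
      ((muS s0 s1).prod (muT T)) := by
    apply Integrable.of_bound (C := C * C * C * C)
    · apply Continuous.aestronglyMeasurable
      apply Continuous.mul
      · exact Complex.continuous_ofReal.comp (hAc.comp continuous_fst)
      · exact hkf_cont_ex.comp (continuous_snd.mul (continuous_const.mul (hfc.comp continuous_fst)))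
    · refine Filter.Eventually.of_forall fun l => ?_
      rw [norm_mul, hkf_norm_ex, mul_one, Complex.norm_real, Real.norm_eq_abs, abs_mul, abs_mul,
        abs_mul]
      have h1 := hC (vv κ l.1 r1)
      have h2 := hC (vv κ l.1 r2)
      have h3 := hC (vv κ l.1 r3)
      have h4 := hC (vv κ l.1 r4)
      gcongr
  rw [integral_prod _ hint]
  simp only
  simp_rw [integral_const_mul, hkf_inner T hT]
  unfold muS
  rw [integral_withDensity_eq_integral_toReal_smul]
  rotate_left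
  · unfold bmp
    fun_prop
  · exact Filter.Eventually.of_forall fun _ => ENNReal.ofReal_lt_top
  unfold KI
  rw [intervalIntegral.integral_of_le h.le, ← integral_Icc_eq_integral_Ioc, ← integral_const_mul,
    ← integral_complex_ofReal]
  refine setIntegral_congr_fun measurableSet_Icc fun s hs => ?_
  have hb : 0 ≤ bmp s0 s1 s := by
    unfold bmp
    exact pow_nonneg (mul_nonneg (sub_nonneg.2 hs.1) (sub_nonneg.2 hs.2)) 3
  rw [ENNReal.toReal_ofReal hb, Complex.real_smul, mul_assoc T κ]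
  push_cast
  ring

end Pool.Agent.MST
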