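import Pool.Agent.MST.Defs2

namespace Pool.Agent.MST

open MeasureTheory Set Pool.Agent.MP_6cbfb8_an
open scoped ENNReal Real

theorem continuous_mv {m : ℕ} : Continuous fun q : Mat m × E m => mv q.1 q.2 := by
  unfold mv
  refine (PiLp.continuous_toLp 2 _).comp (continuous_pi fun i => ?_)
  refine continuous_finsetSum _ fun j _ => ?_
  refine Continuous.mul ?_ ?_
  · exact (continuous_apply j).comp ((continuous_apply i).comp continuous_fst)
  · exact (EuclideanSpace.proj (𝕜 := ℝ) j).continuous.comp continuous_snd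

theorem ho2_vN_cont {m : ℕ} : Continuous fun q : Mat m × E m => vN q.1 q.2 := by
  unfold vN
  exact continuous_const.sub (continuous_mv.norm.pow 2)

theorem ho2_vN_meas {m : ℕ} (N : Mat m) : Measurable fun w : E m => vN N w :=
  (ho2_vN_cont.comp (Continuous.prodMk_right N)).measurable

theorem ho2_bdd (c0 : ℝ) (a : ℝ → ℝ) (ha : Cut2 c0 a) : ∃ A : ℝ, 0 < A ∧ ∀ v ≤ 1, |a v| ≤ A := by
  obtain ⟨C, hC⟩ := (isCompact_Icc (a := c0) (b := 1)).exists_bound_of_continuousOn
    (f := a) (ha.1 0).continuous.continuousOn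
  refine ⟨|C| + 1, by positivity, fun v hv => ?_⟩
  by_cases h1 : v ≤ c0
  · rw [ha.2 v h1, abs_zero]
    positivity
  · have h3 := hC v ⟨by linarith, hv⟩
    rw [Real.norm_eq_abs] at h3
    have := le_abs_self C
    linarith

theorem ho2_ex (b : ℝ) : ‖ex b‖ = 1 := by
  unfold ex
  rw [Complex.norm_exp_ofReal_mul_I]

theorem ho2_vN_le {m : ℕ} (N : Mat m) (w : E m) : vN N w ≤ 1 := by
  unfold vN
  have : 0 ≤ ‖mv N w‖ ^ 2 := by positivity
  linarith

theorem ho2_norm {m : ℕ} (A : ℝ) (hA : 0 < A) (a : ℝ → ℝ) (hb : ∀ v ≤ 1, |a v| ≤ A) (R : ℝ)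
    (N : Mat m) (hR : ∀ w : E m, a (vN N w) ≠ 0 → ‖w‖ ≤ R) (t : ℝ)
    (G : E m → ℂ) (hG : ∀ w, ‖G w‖ ≤ 1) (w : E m) :
    ‖G w * amp2 a N t w‖ ≤ (Metric.closedBall (0 : E m) R).indicator (fun _ => A) w := by
  by_cases hw : a (vN N w) = 0
  · have h0 : G w * amp2 a N t w = 0 := by
      unfold amp2
      rw [hw]
      simp
    rw [h0, norm_zero]
    exact indicator_nonneg (fun _ _ => hA.le) w
  · have hm : w ∈ Metric.closedBall (0 : E m) R := by
      rw [mem_closedBall_zero_iff]
      exact hR w hw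
    rw [indicator_of_mem hm, norm_mul]
    unfold amp2
    rw [norm_mul, ho2_ex, mul_one, Complex.norm_real, Real.norm_eq_abs]
    calc ‖G w‖ * |a (vN N w)| ≤ 1 * A :=
          mul_le_mul (hG w) (hb _ (ho2_vN_le N w)) (abs_nonneg _) zero_le_one
      _ = A := one_mul A

theorem ho2_meas_amp {m : ℕ} (c0 : ℝ) (a : ℝ → ℝ) (ha : Cut2 c0 a) (N : Mat m) (t : ℝ) :
    Measurable fun w : E m => amp2 a N t w := by
  have hm := ho2_vN_meas N
  have hac : Measurable a := (ha.1 0).continuous.measurable
  unfold amp2 ex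
  have h1 : Measurable fun w : E m => ((a (vN N w) : ℝ) : ℂ) :=
    Complex.measurable_ofReal.comp (hac.comp hm)
  have h2 : Measurable fun w : E m => √(vN N w) := hm.sqrt
  fun_prop

theorem op2_bounds (m : ℕ) (c0 : ℝ) (hc : 0 < c0) (a : ℝ → ℝ) (ha : Cut2 c0 a) (R : ℝ) :
    ∃ C : ℝ, 0 < C ∧ ∀ N : Mat m, (∀ w : E m, a (vN N w) ≠ 0 → ‖w‖ ≤ R) → ∀ (t : ℝ)
      (G : E m → ℂ), Measurable G → (∀ w, ‖G w‖ ≤ 1) →
      (∀ x, ‖op2 a N t G x‖ ≤ C) ∧ ∫⁻ x, ‖op2 a N t G x‖ₑ ^ (2:ℝ) ≤ ENNReal.ofReal C := by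
  obtain ⟨A, hA, hb⟩ := ho2_bdd c0 a ha
  have hBm : MeasurableSet (Metric.closedBall (0 : E m) R) := measurableSet_closedBall
  have hfin : volume (Metric.closedBall (0 : E m) R) ≠ ∞ := measure_closedBall_lt_top.ne
  set V : ℝ := volume.real (Metric.closedBall (0 : E m) R) with hV
  have hV0 : 0 ≤ V := measureReal_nonneg
  refine ⟨A * V + A ^ 2 * V + 1, by positivity, fun N hR t G hGm hG => ?_⟩
  have hint : Integrable ((Metric.closedBall (0 : E m) R).indicator (fun _ => A)) :=
    (integrable_indicator_iff hBm).2 (integrableOn_const hfin)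
  have hn := ho2_norm A hA a hb R N hR t G hG
  constructor
  · intro x
    unfold op2
    refine (norm_integral_le_of_norm_le hint (Filter.Eventually.of_forall fun w => ?_)).trans ?_
    · rw [norm_mul, ho2_ex, mul_one]
      exact hn w
    · rw [integral_indicator hBm, setIntegral_const, smul_eq_mul]
      have : 0 ≤ A ^ 2 * V := by positivity
      rw [← hV]
      linarith [mul_comm A V]
  · have hF : Integrable (fun w : E m => G w * amp2 a N t w) :=
      hint.mono' ((hGm.mul (ho2_meas_amp c0 a ha N t)).aestronglyMeasurable)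
        (Filter.Eventually.of_forall fun w => hn w)
    have hB := bessel (volume : Measure (E m)) (fun w : E m => w) measurable_id 1
      ENNReal.one_ne_top (fun φ _ => by simp) (fun w : E m => G w * amp2 a N t w) hF
    rw [one_mul] at hB
    refine le_trans (le_of_eq ?_) (hB.trans ?_)
    · rfl
    · calc ∫⁻ w : E m, ‖G w * amp2 a N t w‖ₑ ^ (2:ℝ)
          ≤ ∫⁻ w : E m, (Metric.closedBall (0 : E m) R).indicator
              (fun _ => ENNReal.ofReal (A ^ 2)) w := by
            refine lintegral_mono fun w => ?_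
            have hnw := hn w
            by_cases hw : w ∈ Metric.closedBall (0 : E m) R
            · rw [indicator_of_mem hw] at hnw
              simp only [indicator_of_mem hw]
              rw [ENNReal.ofReal_pow hA.le, ← ENNReal.rpow_natCast]
              simp only [Nat.cast_ofNat]
              refine ENNReal.rpow_le_rpow ?_ (by norm_num)
              rw [← ofReal_norm]
              exact ENNReal.ofReal_le_ofReal hnw
            · rw [indicator_of_notMem hw] at hnw
              simp only [indicator_of_notMem hw]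
              have h0' : G w * amp2 a N t w = 0 := by
                rw [← norm_le_zero_iff]
                exact hnw
              rw [h0']
              simp
        _ = ENNReal.ofReal (A ^ 2) * volume (Metric.closedBall (0 : E m) R) := by
            rw [lintegral_indicator hBm, setLIntegral_const]
        _ = ENNReal.ofReal (A ^ 2 * V) := by
            rw [ENNReal.ofReal_mul (by positivity), hV, ofReal_measureReal hfin]
        _ ≤ ENNReal.ofReal (A * V + A ^ 2 * V + 1) := by
            apply ENNReal.ofReal_le_ofReal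
            have : 0 ≤ A * V := by positivity
            linarith

theorem ho2_vN_meas2 {m : ℕ} : Measurable fun q : Mat m × E m => vN q.1 q.2 :=
  ho2_vN_cont.measurable

theorem ho2_pair {m : ℕ} :
    Measurable fun p : (Mat m × ℝ × E m) × E m => (p.1.1, p.2) :=
  (measurable_fst.comp measurable_fst).prodMk measurable_snd

theorem ho2_vN_meas3 {m : ℕ} :
    Measurable fun p : (Mat m × ℝ × E m) × E m => vN p.1.1 p.2 := by
  have h := Measurable.comp (g := fun q : Mat m × E m => vN q.1 q.2)
    (f := fun p : (Mat m × ℝ × E m) × E m => (p.1.1, p.2)) ho2_vN_meas2 ho2_pair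
  exact h

theorem ho2_ex_meas : Measurable ex := by
  unfold ex
  fun_prop

theorem ho2_m1 {m : ℕ} (c0 : ℝ) (a : ℝ → ℝ) (ha : Cut2 c0 a) (G : E m → ℂ)
    (hG : Measurable G) :
    Measurable fun p : (Mat m × ℝ × E m) × E m =>
      G p.2 * amp2 a p.1.1 p.1.2.1 p.2 := by
  have hac : Measurable a := (ha.1 0).continuous.measurable
  have hm : Measurable fun p : (Mat m × ℝ × E m) × E m => vN p.1.1 p.2 := ho2_vN_meas3
  have h1 : Measurable fun p : (Mat m × ℝ × E m) × E m => ((a (vN p.1.1 p.2) : ℝ) : ℂ) :=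
    Complex.measurable_ofReal.comp (hac.comp hm)
  have h2 : Measurable fun p : (Mat m × ℝ × E m) × E m => √(vN p.1.1 p.2) := hm.sqrt
  have h4 : Measurable fun p : (Mat m × ℝ × E m) × E m => G p.2 := hG.comp measurable_snd
  have ht : Measurable fun p : (Mat m × ℝ × E m) × E m => p.1.2.1 :=
    measurable_fst.comp (measurable_snd.comp measurable_fst)
  have h5 : Measurable fun p : (Mat m × ℝ × E m) × E m => p.1.2.1 * √(vN p.1.1 p.2) := ht.mul h2
  have h6 : Measurable fun p : (Mat m × ℝ × E m) × E m => ex (p.1.2.1 * √(vN p.1.1 p.2)) :=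
    ho2_ex_meas.comp h5
  exact h4.mul (h1.mul h6)

theorem ho2_m2 {m : ℕ} :
    Measurable fun p : (Mat m × ℝ × E m) × E m => ex (inner ℝ p.2 p.1.2.2) := by
  have h3 : Measurable fun p : (Mat m × ℝ × E m) × E m => (inner ℝ p.2 p.1.2.2 : ℝ) :=
    measurable_snd.inner (measurable_snd.comp (measurable_snd.comp measurable_fst))
  exact ho2_ex_meas.comp h3

theorem measurable_op2 {m : ℕ} (c0 : ℝ) (a : ℝ → ℝ) (ha : Cut2 c0 a) (G : E m → ℂ)
    (hG : Measurable G) :
    Measurable fun q : Mat m × ℝ × E m => op2 a q.1 q.2.1 G q.2.2 := by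
  have h5 : Measurable fun p : (Mat m × ℝ × E m) × E m =>
      G p.2 * amp2 a p.1.1 p.1.2.1 p.2 * ex (inner ℝ p.2 p.1.2.2) :=
    (ho2_m1 c0 a ha G hG).mul ho2_m2
  have h6 := h5.stronglyMeasurable.integral_prod_right' (ν := (volume : Measure (E m)))
  exact h6.measurable

end Pool.Agent.MST
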