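import Pool.Agent.MST.Defs

/-!
Definitions for the theorem on almost every linear image, in all dimensions.
-/

namespace Pool.Agent.MST

open MeasureTheory Set Pool.Agent.MP_6cbfb8_an
open scoped ENNReal Real

/-- Real `m × m` matrices (with product Lebesgue measure). -/
abbrev Mat (m : ℕ) : Type := Fin m → Fin m → ℝ

/-- The product of a matrix and a vector. -/
noncomputable def mv {m : ℕ} (N : Mat m) (w : E m) : E m :=
  WithLp.toLp 2 fun i => ∑ j, N i j * w j

/-- The square of the height of the point of the sphere over `N w`. -/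
noncomputable def vN {m : ℕ} (N : Mat m) (w : E m) : ℝ := 1 - ‖mv N w‖ ^ 2

/-- Amplitude and phase. -/
noncomputable def amp2 {m : ℕ} (a : ℝ → ℝ) (N : Mat m) (t : ℝ) (w : E m) : ℂ :=
  ((a (vN N w) : ℝ) : ℂ) * ex (t * √(vN N w))

/-- The extension operator in linear coordinates. -/
noncomputable def op2 {m : ℕ} (a : ℝ → ℝ) (N : Mat m) (t : ℝ) (G : E m → ℂ) (x : E m) : ℂ :=
  ∫ w : E m, G w * amp2 a N t w * ex (inner ℝ w x)

/-- Smooth cut-off functions vanishing below `c0`. -/
def Cut2 (c0 : ℝ) (a : ℝ → ℝ) : Prop := (∀ n : ℕ, ContDiff ℝ n a) ∧ ∀ v, v ≤ c0 → a v = 0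

/-- The matrix with a single entry `1`. -/
def em {m : ℕ} (k l : Fin m) : Mat m := fun i j => if i = k ∧ j = l then 1 else 0

/-- The weight `v ^ (2 J) exp (-π v²)`. -/
noncomputable def etaJ (J : ℕ) (v : ℝ) : ℝ := v ^ (2 * J) * Real.exp (-(π * v ^ 2))

/-- The weight in the time variable. -/
noncomputable def muJ (J : ℕ) (T : ℝ) : Measure ℝ :=
  (volume : Measure ℝ).withDensity fun t => ENNReal.ofReal (etaJ J (t / T))

/-- The four-term difference of a function at the four points `w, w - y - z, w - y, w - z`. -/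
def fd {m : ℕ} (Φ : E m → ℝ) (w y z : E m) : ℝ :=
  Φ w + Φ (w - y - z) - Φ (w - y) - Φ (w - z)

/-- The kernel of the four-linear form. -/
noncomputable def K2 {m : ℕ} (a : ℝ → ℝ) (φ : Mat m → ℝ) (T : ℝ) (w y z : E m) : ℂ :=
  ∫ l : Mat m × ℝ, amp2 a l.1 l.2 w * amp2 a l.1 l.2 (w - y - z) *
    (starRingEnd ℂ) (amp2 a l.1 l.2 (w - y)) * (starRingEnd ℂ) (amp2 a l.1 l.2 (w - z))
    ∂(((volume : Measure (Mat m)).withDensity fun N => ENNReal.ofReal (φ N)).prod (muJ m T))

end Pool.Agent.MST
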