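import Pool.Agent.MST.Defs

namespace Pool.Agent.MST

open MeasureTheory Set Pool.Agent.MP_6cbfb8_an
open scoped ENNReal Real

lemma hch_image_sin : Real.sin '' Ioo 0 (π / 2) = Ioo 0 1 := by
  ext y
  constructor
  · rintro ⟨θ, ⟨h0, h1⟩, rfl⟩
    refine ⟨Real.sin_pos_of_pos_of_lt_pi h0 (by linarith [Real.pi_pos]), ?_⟩
    have h2 := Real.sin_lt_sin_of_lt_of_le_pi_div_two (by linarith [Real.pi_pos]) le_rfl h1
    rwa [Real.sin_pi_div_two] at h2
  · rintro ⟨h0, h1⟩
    refine ⟨Real.arcsin y, ⟨Real.arcsin_pos.mpr h0, ?_⟩, Real.sin_arcsin (by linarith) h1.le⟩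
    rw [Real.arcsin_lt_pi_div_two]
    exact h1

lemma hch_measurable_graph (n : ℕ) :
    Measurable fun u : E (n + 1) => (join u √(1 - ‖u‖ ^ 2) : E (n + 2)) := by
  exact measurable_join.comp (f := fun u : E (n + 1) => (u, √(1 - ‖u‖ ^ 2))) (by fun_prop)

theorem chart_lintegral (n : ℕ) (φ : E (n + 2) → ℝ≥0∞) (hφ : Measurable φ) :
    ∫⁻ x : S (n + 2), (if 0 < (x : E (n + 2)) (Fin.last (n + 1)) then φ x else 0) ∂(sm (n + 2)) =
      ∫⁻ u in Metric.ball (0 : E (n + 1)) 1, φ (join u √(1 - ‖u‖ ^ 2)) *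
        ENNReal.ofReal (1 / √(1 - ‖u‖ ^ 2)) := by
  classical
  -- left side
  have hms : MeasurableSet {x : E (n + 2) | 0 < x (Fin.last (n + 1))} :=
    measurableSet_lt measurable_const (by fun_prop)
  have hΦ : Measurable fun x : E (n + 2) => if 0 < x (Fin.last (n + 1)) then φ x else 0 :=
    Measurable.ite hms hφ measurable_const
  have hL := lintegral_slice n (fun x : E (n + 2) => if 0 < x (Fin.last (n + 1)) then φ x else 0) hΦ
  rw [hL]
  have hpt : Measurable fun q : ℝ × S (n + 1) => φ (pt q.1 (q.2 : E (n + 1))) := by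
    refine hφ.comp (measurable_pt.comp (f := fun q : ℝ × S (n + 1) => (q.1, (q.2 : E (n + 1)))) ?_)
    fun_prop
  have hA : ∫⁻ θ in Ioo 0 π, ENNReal.ofReal (Real.sin θ ^ n) *
        (∫⁻ ω : S (n + 1), (if 0 < (pt θ (ω : E (n + 1))) (Fin.last (n + 1)) then
          φ (pt θ (ω : E (n + 1))) else 0) ∂(sm (n + 1))) =
      ∫⁻ θ in Ioo 0 (π / 2), ENNReal.ofReal (Real.sin θ ^ n) *
        (∫⁻ ω : S (n + 1), φ (pt θ (ω : E (n + 1))) ∂(sm (n + 1))) := by
    rw [← lintegral_indicator measurableSet_Ioo, ← lintegral_indicator measurableSet_Ioo]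
    refine lintegral_congr fun θ => ?_
    have hlast : ∀ ω : S (n + 1), (pt θ (ω : E (n + 1))) (Fin.last (n + 1)) = Real.cos θ := by
      intro ω
      unfold pt
      exact join_last _ _
    by_cases h1 : θ ∈ Ioo 0 (π / 2)
    · have h2 : θ ∈ Ioo 0 π := ⟨h1.1, by linarith [h1.2, Real.pi_pos]⟩
      have hc : 0 < Real.cos θ := Real.cos_pos_of_mem_Ioo ⟨by linarith [h1.1, Real.pi_pos], h1.2⟩
      rw [indicator_of_mem h2, indicator_of_mem h1]
      congr 1
      refine lintegral_congr fun ω => ?_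
      rw [hlast, if_pos hc]
    · rw [indicator_of_notMem h1]
      by_cases h2 : θ ∈ Ioo 0 π
      · rw [indicator_of_mem h2]
        have h3 : π / 2 ≤ θ := by
          by_contra hcon
          exact h1 ⟨h2.1, not_le.mp hcon⟩
        have hc : ¬ 0 < Real.cos θ :=
          not_lt.mpr (Real.cos_nonpos_of_pi_div_two_le_of_le h3 (by linarith [h2.2, Real.pi_pos]))
        have h4 : ∫⁻ ω : S (n + 1), (if 0 < (pt θ (ω : E (n + 1))) (Fin.last (n + 1)) then
          φ (pt θ (ω : E (n + 1))) else 0) ∂(sm (n + 1)) = 0 := by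
          refine (lintegral_congr fun ω => ?_).trans lintegral_zero
          rw [hlast, if_neg hc]
        rw [h4, mul_zero]
      · rw [indicator_of_notMem h2]
  refine Eq.trans hA ?_
  -- right side
  have hψ : Measurable fun u : E (n + 1) => φ (join u √(1 - ‖u‖ ^ 2)) *
      ENNReal.ofReal (1 / √(1 - ‖u‖ ^ 2)) :=
    (hφ.comp (hch_measurable_graph n)).mul (by fun_prop)
  rw [← lintegral_indicator Metric.isOpen_ball.measurableSet,
    lintegral_polar n _ (hψ.indicator Metric.isOpen_ball.measurableSet)]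
  have hB : ∀ ω : S (n + 1), ∫⁻ ρ in Ioi (0:ℝ),
      (Metric.ball (0 : E (n + 1)) 1).indicator (fun u : E (n + 1) => φ (join u √(1 - ‖u‖ ^ 2)) *
        ENNReal.ofReal (1 / √(1 - ‖u‖ ^ 2))) (ρ • (ω : E (n + 1))) * ENNReal.ofReal (ρ ^ n) =
      ∫⁻ θ in Ioo 0 (π / 2), ENNReal.ofReal (Real.sin θ ^ n) * φ (pt θ (ω : E (n + 1))) := by
    intro ω
    have hω : ‖(ω : E (n + 1))‖ = 1 := mem_sphere_zero_iff_norm.mp ω.2
    have h1 : ∫⁻ ρ in Ioi (0:ℝ),
      (Metric.ball (0 : E (n + 1)) 1).indicator (fun u : E (n + 1) => φ (join u √(1 - ‖u‖ ^ 2)) *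
        ENNReal.ofReal (1 / √(1 - ‖u‖ ^ 2))) (ρ • (ω : E (n + 1))) * ENNReal.ofReal (ρ ^ n) =
        ∫⁻ ρ in Ioo (0:ℝ) 1, φ (join (ρ • (ω : E (n + 1))) √(1 - ρ ^ 2)) *
          ENNReal.ofReal (1 / √(1 - ρ ^ 2)) * ENNReal.ofReal (ρ ^ n) := by
      rw [← lintegral_indicator measurableSet_Ioi, ← lintegral_indicator measurableSet_Ioo]
      refine lintegral_congr fun ρ => ?_
      by_cases h0 : 0 < ρ
      · have hn : ‖ρ • (ω : E (n + 1))‖ = ρ := by
          rw [norm_smul, hω, mul_one, Real.norm_of_nonneg h0.le]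
        rw [indicator_of_mem (show ρ ∈ Ioi (0:ℝ) from h0)]
        by_cases h2 : ρ < 1
        · rw [indicator_of_mem (show ρ ∈ Ioo (0:ℝ) 1 from ⟨h0, h2⟩), indicator_of_mem]
          · rw [hn]
          · rw [mem_ball_zero_iff, hn]; exact h2
        · rw [indicator_of_notMem (show ρ ∉ Ioo (0:ℝ) 1 from fun h => h2 h.2),
            indicator_of_notMem, zero_mul]
          rw [mem_ball_zero_iff, hn]; exact h2
      · rw [indicator_of_notMem (show ρ ∉ Ioi (0:ℝ) from h0),
          indicator_of_notMem (show ρ ∉ Ioo (0:ℝ) 1 from fun h => h0 h.1)]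
    rw [h1, ← hch_image_sin, lintegral_image_eq_lintegral_abs_deriv_mul measurableSet_Ioo
      (f := Real.sin) (f' := Real.cos) (fun x _ => (Real.hasDerivAt_sin x).hasDerivWithinAt)]
    · refine setLIntegral_congr_fun measurableSet_Ioo fun θ hθ => ?_
      have hc : 0 < Real.cos θ := Real.cos_pos_of_mem_Ioo ⟨by linarith [hθ.1, Real.pi_pos], hθ.2⟩
      have hs : √(1 - Real.sin θ ^ 2) = Real.cos θ := by
        rw [← Real.cos_sq', Real.sqrt_sq hc.le]
      simp only [hs]
      rw [abs_of_pos hc]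
      have h5 : ENNReal.ofReal (Real.cos θ) * ENNReal.ofReal (1 / Real.cos θ) = 1 := by
        rw [← ENNReal.ofReal_mul hc.le, mul_one_div_cancel hc.ne', ENNReal.ofReal_one]
      have h6 : (join (Real.sin θ • (ω : E (n + 1))) (Real.cos θ) : E (n + 2)) =
        pt θ (ω : E (n + 1)) := rfl
      rw [h6]
      calc ENNReal.ofReal (Real.cos θ) * (φ (pt θ (ω : E (n + 1))) *
          ENNReal.ofReal (1 / Real.cos θ) * ENNReal.ofReal (Real.sin θ ^ n))
          = (ENNReal.ofReal (Real.cos θ) * ENNReal.ofReal (1 / Real.cos θ)) *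
            (ENNReal.ofReal (Real.sin θ ^ n) * φ (pt θ (ω : E (n + 1)))) := by ring
        _ = _ := by rw [h5, one_mul]
    · intro x hx y hy hxy
      exact Real.injOn_sin ⟨by linarith [hx.1, Real.pi_pos], hx.2.le⟩
        ⟨by linarith [hy.1, Real.pi_pos], hy.2.le⟩ hxy
  have hptθ : ∀ θ : ℝ, Measurable fun ω : S (n + 1) => φ (pt θ (ω : E (n + 1))) := fun θ =>
    hφ.comp (measurable_pt.comp (f := fun ω : S (n + 1) => (θ, (ω : E (n + 1)))) (by fun_prop))
  have hm2 : Measurable (Function.uncurry fun (θ : ℝ) (ω : S (n + 1)) =>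
      ENNReal.ofReal (Real.sin θ ^ n) * φ (pt θ (ω : E (n + 1)))) := by
    refine Measurable.mul ?_ hpt
    fun_prop
  rw [lintegral_congr hB]
  calc ∫⁻ θ in Ioo 0 (π / 2), ENNReal.ofReal (Real.sin θ ^ n) *
        (∫⁻ ω : S (n + 1), φ (pt θ (ω : E (n + 1))) ∂(sm (n + 1)))
      = ∫⁻ θ in Ioo 0 (π / 2), (∫⁻ ω : S (n + 1), ENNReal.ofReal (Real.sin θ ^ n) *
          φ (pt θ (ω : E (n + 1))) ∂(sm (n + 1))) := by
        refine lintegral_congr fun θ => ?_
        exact (lintegral_const_mul _ (hptθ θ)).symm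
    _ = ∫⁻ ω : S (n + 1), (∫⁻ θ in Ioo 0 (π / 2), ENNReal.ofReal (Real.sin θ ^ n) *
          φ (pt θ (ω : E (n + 1)))) ∂(sm (n + 1)) :=
        lintegral_lintegral_swap hm2.aemeasurable

theorem integrable_height (n : ℕ) :
    IntegrableOn (fun u : E (n + 1) => 1 / √(1 - ‖u‖ ^ 2)) (Metric.ball 0 1) := by
  have h := chart_lintegral n (fun _ => 1) measurable_const
  simp only [one_mul] at h
  have h1 : ∫⁻ u in Metric.ball (0 : E (n + 1)) 1, ENNReal.ofReal (1 / √(1 - ‖u‖ ^ 2)) < ∞ := by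
    rw [← h]
    calc ∫⁻ x : S (n + 2), (if 0 < (x : E (n + 2)) (Fin.last (n + 1)) then (1 : ℝ≥0∞) else 0)
          ∂(sm (n + 2)) ≤ ∫⁻ _ : S (n + 2), 1 ∂(sm (n + 2)) := by
          refine lintegral_mono fun x => ?_
          split_ifs
          · exact le_rfl
          · exact bot_le
      _ < ∞ := by
        rw [lintegral_one]
        exact measure_lt_top _ _
  refine ⟨?_, ?_⟩
  · have : Measurable fun u : E (n + 1) => 1 / √(1 - ‖u‖ ^ 2) := by fun_prop
    exact this.aestronglyMeasurable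
  · rw [hasFiniteIntegral_iff_ofReal]
    · exact h1
    · exact Filter.Eventually.of_forall fun u => by positivity

theorem hch_measure_eq (n : ℕ) :
    ((sm (n + 2)).restrict {x : S (n + 2) | 0 < (x : E (n + 2)) (Fin.last (n + 1))}).map
      (fun x : S (n + 2) => (x : E (n + 2))) =
    (((volume : Measure (E (n + 1))).restrict (Metric.ball 0 1)).withDensity
      (fun u => ENNReal.ofReal (1 / √(1 - ‖u‖ ^ 2)))).map
      (fun u : E (n + 1) => (join u √(1 - ‖u‖ ^ 2) : E (n + 2))) := by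
  classical
  have hms : MeasurableSet {x : S (n + 2) | 0 < (x : E (n + 2)) (Fin.last (n + 1))} := by
    have : Measurable fun x : S (n + 2) => (x : E (n + 2)) (Fin.last (n + 1)) := by
      have h1 : Measurable fun x : E (n + 2) => x (Fin.last (n + 1)) := by fun_prop
      exact h1.comp measurable_subtype_coe
    exact measurableSet_lt measurable_const this
  refine Measure.ext fun s hs => ?_
  have h := chart_lintegral n (s.indicator 1) (measurable_one.indicator hs)
  have h1 : ((sm (n + 2)).restrict {x : S (n + 2) | 0 < (x : E (n + 2)) (Fin.last (n + 1))}).map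
      (fun x : S (n + 2) => (x : E (n + 2))) s = ∫⁻ x : S (n + 2),
        (if 0 < (x : E (n + 2)) (Fin.last (n + 1)) then (s.indicator 1 (x : E (n + 2))) else 0)
          ∂(sm (n + 2)) := by
    rw [← lintegral_indicator_one hs, lintegral_map (measurable_one.indicator hs)
      measurable_subtype_coe, ← lintegral_indicator hms]
    refine lintegral_congr fun x => ?_
    by_cases hx : 0 < (x : E (n + 2)) (Fin.last (n + 1))
    · rw [if_pos hx, indicator_of_mem (show x ∈ {x : S (n + 2) | 0 < (x : E (n + 2)) (Fin.last (n + 1))} from hx)]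
    · rw [if_neg hx, indicator_of_notMem (show x ∉ {x : S (n + 2) | 0 < (x : E (n + 2)) (Fin.last (n + 1))} from hx)]
  have hm : Measurable fun u : E (n + 1) => s.indicator (1 : E (n + 2) → ℝ≥0∞) (join u √(1 - ‖u‖ ^ 2)) :=
    (measurable_one.indicator hs).comp (hch_measurable_graph n)
  rw [h1, h, ← lintegral_indicator_one hs, lintegral_map (measurable_one.indicator hs)
      (hch_measurable_graph n), lintegral_withDensity_eq_lintegral_mul _ (by fun_prop) hm]
  refine lintegral_congr fun u => ?_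
  simp only [Pi.mul_apply]
  rw [mul_comm]

theorem chart (n : ℕ) (g : E (n + 2) → ℂ) (hg : Measurable g) (hb : ∀ x, ‖g x‖ ≤ 1)
    (X : E (n + 1)) (t : ℝ) :
    extn (fun x : E (n + 2) => if 0 < x (Fin.last (n + 1)) then g x else 0) (join X t) =
      ∫ u in Metric.ball (0 : E (n + 1)) 1, g (join u √(1 - ‖u‖ ^ 2)) *
        ((1 / √(1 - ‖u‖ ^ 2) : ℝ) : ℂ) * ex (inner ℝ u X + √(1 - ‖u‖ ^ 2) * t) := by
  classical
  have hms : MeasurableSet {x : S (n + 2) | 0 < (x : E (n + 2)) (Fin.last (n + 1))} := by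
    have : Measurable fun x : S (n + 2) => (x : E (n + 2)) (Fin.last (n + 1)) := by
      have h1 : Measurable fun x : E (n + 2) => x (Fin.last (n + 1)) := by fun_prop
      exact h1.comp measurable_subtype_coe
    exact measurableSet_lt measurable_const this
  have hexm : Measurable ex := by
    unfold ex
    fun_prop
  have hf : Measurable fun z : E (n + 2) => g z * ex (inner ℝ z (join X t)) := by
    refine hg.mul (hexm.comp ?_)
    fun_prop
  have h1 : extn (fun x : E (n + 2) => if 0 < x (Fin.last (n + 1)) then g x else 0) (join X t) =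
      ∫ x in {x : S (n + 2) | 0 < (x : E (n + 2)) (Fin.last (n + 1))},
        g (x : E (n + 2)) * ex (inner ℝ (x : E (n + 2)) (join X t)) ∂(sm (n + 2)) := by
    unfold extn
    rw [← integral_indicator hms]
    refine integral_congr_ae (Filter.Eventually.of_forall fun x => ?_)
    by_cases hx : 0 < (x : E (n + 2)) (Fin.last (n + 1))
    · simp only [hx, if_true]
      rw [indicator_of_mem (show x ∈ {x : S (n + 2) | 0 < (x : E (n + 2)) (Fin.last (n + 1))} from hx)]
      rfl
    · simp only [hx, if_false, zero_mul]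
      rw [indicator_of_notMem (show x ∉ {x : S (n + 2) | 0 < (x : E (n + 2)) (Fin.last (n + 1))} from hx)]
  have h2 : ∫ x in {x : S (n + 2) | 0 < (x : E (n + 2)) (Fin.last (n + 1))},
        g (x : E (n + 2)) * ex (inner ℝ (x : E (n + 2)) (join X t)) ∂(sm (n + 2)) =
      ∫ z : E (n + 2), g z * ex (inner ℝ z (join X t))
        ∂(((sm (n + 2)).restrict {x : S (n + 2) | 0 < (x : E (n + 2)) (Fin.last (n + 1))}).map
      (fun x : S (n + 2) => (x : E (n + 2)))) := by
    rw [integral_map measurable_subtype_coe.aemeasurable hf.aestronglyMeasurable]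
  rw [h1, h2, hch_measure_eq, integral_map (hch_measurable_graph n).aemeasurable
    hf.aestronglyMeasurable, integral_withDensity_eq_integral_toReal_smul₀]
  · refine integral_congr_ae (Filter.Eventually.of_forall fun u => ?_)
    have h3 : 0 ≤ 1 / √(1 - ‖u‖ ^ 2) := by positivity
    simp only
    rw [ENNReal.toReal_ofReal h3, inner_join, Complex.real_smul]
    ring
  · fun_prop
  · exact Filter.Eventually.of_forall fun u => ENNReal.ofReal_lt_top

end Pool.Agent.MST
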