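import Pool.Agent.MP_6cbfb8_an.LiftF

/-!
Definitions for the almost-everywhere restriction theorem: dilated densities on the sphere.
-/

namespace Pool.Agent.MST

open MeasureTheory Set Pool.Agent.MP_6cbfb8_an
open scoped ENNReal Real

/-- `exp (-2 π i a)`. -/
noncomputable def ex (a : ℝ) : ℂ := Complex.exp (((-(2 * π * a) : ℝ) : ℂ) * Complex.I)

/-- The square of the scaled height over a point `w` with `‖w‖ ^ 2 = ρ`. -/
noncomputable def vv (κ s ρ : ℝ) : ℝ := (1 - s * ρ) / κ ^ 2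

/-- Amplitude and phase of a strip. -/
noncomputable def amp (a : ℝ → ℝ) (κ s t ρ : ℝ) : ℂ :=
  ((a (vv κ s ρ) : ℝ) : ℂ) * ex (t * (κ * √(vv κ s ρ)))

/-- The extension operator of a strip. -/
noncomputable def op (a : ℝ → ℝ) (κ s t : ℝ) (G : E 2 → ℂ) (x : E 2) : ℂ :=
  ∫ w : E 2, G w * amp a κ s t (‖w‖ ^ 2) * ex (inner ℝ w x)

/-- A polynomial bump function (used on `[s0, s1]` only). -/
def bmp (s0 s1 s : ℝ) : ℝ := ((s - s0) * (s1 - s)) ^ 3

/-- The Fourier transform of `v ^ 2 * exp (-π v ^ 2)`. -/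
noncomputable def HH (y : ℝ) : ℝ := (1 / (2 * π) - y ^ 2) * Real.exp (-(π * y ^ 2))

/-- The weight in the dilation parameter. -/
noncomputable def muS (s0 s1 : ℝ) : Measure ℝ :=
  ((volume : Measure ℝ).restrict (Icc s0 s1)).withDensity fun s => ENNReal.ofReal (bmp s0 s1 s)

/-- The weight in the time variable. -/
noncomputable def muT (T : ℝ) : Measure ℝ :=
  (volume : Measure ℝ).withDensity fun t =>
    ENNReal.ofReal ((t / T) ^ 2 * Real.exp (-(π * (t / T) ^ 2)))

/-- The size of the phase of the four-linear form. -/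
noncomputable def DD (κ r1 r2 r3 r4 : ℝ) : ℝ :=
  |r1 + r2 - r3 - r4| / κ ^ 2 + |r1 - r3| * |r1 - r4| / κ ^ 4

/-- The one-dimensional oscillatory integral in the dilation parameter. -/
noncomputable def KI (a : ℝ → ℝ) (κ s0 s1 lam r1 r2 r3 r4 : ℝ) : ℝ :=
  ∫ s in s0..s1, bmp s0 s1 s *
    (a (vv κ s r1) * a (vv κ s r2) * a (vv κ s r3) * a (vv κ s r4)) *
    HH (lam * (√(vv κ s r1) + √(vv κ s r2) - √(vv κ s r3) - √(vv κ s r4)))

/-- Strip cut-off functions: twice continuously differentiable, supported in `[1/4, 4]`. -/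
def Cut (a : ℝ → ℝ) : Prop := ContDiff ℝ 2 a ∧ ∀ v, v ≤ 1 / 4 ∨ 4 ≤ v → a v = 0

/-- The part on the upper hemisphere of the density `G (r x_1, r x_2)`. -/
noncomputable def up (r : ℝ) (G : E 2 → ℂ) (x : E 3) : ℂ :=
  if 0 < x (Fin.last 2) then G (r • (fstE (k := 2) (l := 1) x : E 2)) else 0

/-- The density `G (r x_1, r x_2)`. -/
noncomputable def dens (r : ℝ) (G : E 2 → ℂ) (x : E 3) : ℂ :=
  G (r • (fstE (k := 2) (l := 1) x : E 2))

end Pool.Agent.MST
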