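import Pool.Agent.MST.LF

namespace Pool.Agent.MST

open MeasureTheory Set Pool.Agent.MP_6cbfb8_an
open scoped ENNReal Real

/-- the four-linear form -/
noncomputable def hlp_F {m : ℕ} (f : E m → ℂ) (q : E m × E m × E m) : ℂ :=
  f q.1 * f (q.1 - q.2.1 - q.2.2) *
        (starRingEnd ℂ) (f (q.1 - q.2.1)) * (starRingEnd ℂ) (f (q.1 - q.2.2))

/-- a set containing the support of the four-linear form -/
def hlp_S (m : ℕ) (R : ℝ) : Set (E m × E m × E m) :=
  Metric.closedBall 0 R ×ˢ (Metric.closedBall 0 (2 * R) ×ˢ Metric.closedBall 0 (2 * R))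

theorem hlp_S_fin (m : ℕ) (R : ℝ) : (volume : Measure (E m × E m × E m)) (hlp_S m R) < ⊤ :=
  ((isCompact_closedBall _ _).prod ((isCompact_closedBall _ _).prod
    (isCompact_closedBall _ _))).measure_lt_top

theorem hlp_zero {m : ℕ} (f : E m → ℂ) (R : ℝ) (hR : ∀ w, R < ‖w‖ → f w = 0)
    (q : E m × E m × E m) (hq : q ∉ hlp_S m R) : hlp_F f q = 0 := by
  by_contra h
  apply hq
  have h' : ∀ w, f w ≠ 0 → ‖w‖ ≤ R := fun w hw => by
    by_contra h1
    exact hw (hR w (not_le.1 h1))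
  unfold hlp_F at h
  obtain ⟨h1, h4⟩ := mul_ne_zero_iff.1 h
  obtain ⟨h2, h3⟩ := mul_ne_zero_iff.1 h1
  obtain ⟨h5, h6⟩ := mul_ne_zero_iff.1 h2
  have a1 := h' _ h5
  have a3 := h' _ ((map_ne_zero (starRingEnd ℂ)).1 h3)
  have a4 := h' _ ((map_ne_zero (starRingEnd ℂ)).1 h4)
  refine ⟨?_, ?_, ?_⟩
  · simpa using a1
  · have h7 : ‖q.2.1‖ ≤ 2 * R := by
      have : q.2.1 = q.1 - (q.1 - q.2.1) := by abel
      rw [this]
      refine (norm_sub_le _ _).trans ?_
      linarith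
    simpa using h7
  · have h7 : ‖q.2.2‖ ≤ 2 * R := by
      have : q.2.2 = q.1 - (q.1 - q.2.2) := by abel
      rw [this]
      refine (norm_sub_le _ _).trans ?_
      linarith
    simpa using h7

theorem hlp_norm {m : ℕ} (f : E m → ℂ) (B : ℝ) (hB : ∀ w, ‖f w‖ ≤ B)
    (q : E m × E m × E m) : ‖hlp_F f q‖ ≤ B * B * B * B := by
  have hB0 : 0 ≤ B := (norm_nonneg _).trans (hB 0)
  unfold hlp_F
  rw [norm_mul, norm_mul, norm_mul, RCLike.norm_conj, RCLike.norm_conj]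
  gcongr
  · exact hB _
  · exact hB _
  · exact hB _
  · exact hB _

theorem hlp_meas {m : ℕ} (f : E m → ℂ) (hf : Measurable f) : Measurable (hlp_F f) := by
  unfold hlp_F
  have h1 : Measurable fun q : E m × E m × E m => f q.1 := hf.comp measurable_fst
  have h2 : Measurable fun q : E m × E m × E m => f (q.1 - q.2.1 - q.2.2) :=
    hf.comp (by fun_prop)
  have h3 : Measurable fun q : E m × E m × E m => (starRingEnd ℂ) (f (q.1 - q.2.1)) :=
    Complex.continuous_conj.measurable.comp (hf.comp (by fun_prop))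
  have h4 : Measurable fun q : E m × E m × E m => (starRingEnd ℂ) (f (q.1 - q.2.2)) :=
    Complex.continuous_conj.measurable.comp (hf.comp (by fun_prop))
  exact ((h1.mul h2).mul h3).mul h4

theorem hlp_int {α : Type*} [MeasurableSpace α] {ν : Measure α} {S : Set α} (hν : ν S < ⊤)
    (F : α → ℂ) (hF : Measurable F) (C : ℝ) (hC : ∀ x, ‖F x‖ ≤ C) (h0 : ∀ x, x ∉ S → F x = 0) :
    Integrable F ν :=
  (IntegrableOn.of_bound hν hF.aestronglyMeasurable C
    (Filter.Eventually.of_forall hC)).integrable_of_forall_notMem_eq_zero h0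

theorem hlp_F_int {m : ℕ} (f : E m → ℂ) (hf : Measurable f) (B R : ℝ)
    (hB : ∀ w, ‖f w‖ ≤ B) (hR : ∀ w, R < ‖w‖ → f w = 0) : Integrable (hlp_F f) :=
  hlp_int (hlp_S_fin m R) _ (hlp_meas f hf) _ (hlp_norm f B hB) (hlp_zero f R hR)

theorem hlp_eq {m : ℕ} (f : E m → ℂ) (hf : Measurable f) (B R : ℝ)
    (hB : ∀ w, ‖f w‖ ≤ B) (hR : ∀ w, R < ‖w‖ → f w = 0) :
    ∫ q : E m × E m × E m, hlp_F f q =
      ∫ y : E m, ((‖∫ w : E m, f w * (starRingEnd ℂ) (f (w - y))‖ ^ 2 : ℝ) : ℂ) := by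
  have hI := hlp_F_int f hf B R hB hR
  have hmp := volume_preserving_prodAssoc (α₁ := E m) (β₁ := E m) (γ₁ := E m)
  have h1 : ∫ q : E m × E m × E m, hlp_F f q =
      ∫ p : (E m × E m) × E m, hlp_F f (p.1.1, p.1.2, p.2) := by
    rw [← hmp.integral_comp' (g := hlp_F f)]
    rfl
  have hI2 : Integrable (fun p : (E m × E m) × E m => hlp_F f (p.1.1, p.1.2, p.2)) :=
    hmp.integrable_comp_of_integrable hI
  have hI3 := hI2.integral_prod_left
  rw [h1]
  change ∫ p : (E m × E m) × E m, hlp_F f (p.1.1, p.1.2, p.2) ∂(volume.prod volume) = _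
  rw [integral_prod _ hI2]
  change ∫ p : E m × E m, (∫ z : E m, hlp_F f (p.1, p.2, z)) ∂(volume.prod volume) = _
  rw [integral_prod_symm _ hI3]
  refine integral_congr_ae (Filter.Eventually.of_forall fun y => ?_)
  change ∫ w : E m, (∫ z : E m, hlp_F f (w, y, z)) = _
  set c : ℂ := ∫ w : E m, f w * (starRingEnd ℂ) (f (w - y)) with hc
  have h2 : ∀ w : E m, (∫ z : E m, hlp_F f (w, y, z)) =
      (f w * (starRingEnd ℂ) (f (w - y))) * (starRingEnd ℂ) c := by
    intro w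
    have h3 : ∀ z : E m, hlp_F f (w, y, z) = (f w * (starRingEnd ℂ) (f (w - y))) *
        (starRingEnd ℂ) ((fun v => f v * (starRingEnd ℂ) (f (v - y))) (w - z)) := by
      intro z
      unfold hlp_F
      simp only [map_mul, Complex.conj_conj]
      rw [show w - y - z = w - z - y by abel]
      ring
    rw [integral_congr_ae (Filter.Eventually.of_forall h3), integral_const_mul, integral_conj,
      integral_sub_left_eq_self (fun v => f v * (starRingEnd ℂ) (f (v - y))) volume w]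
  rw [integral_congr_ae (Filter.Eventually.of_forall h2), integral_mul_const, ← hc,
    Complex.mul_conj, Complex.normSq_eq_norm_sq]

/-
ROW LP (1 h). Parameter version of four_linear.
Apply four_linear to f = G * A l for each l; the four-linear integral over q is integrable in (l, q)
(bounded by B^4, supported in ‖q.1‖ ≤ R, ‖q.2.1‖ ≤ 2R, ‖q.2.2‖ ≤ 2R, μ finite; wlog R ≥ 0), it is
nonnegative for each l up to ofReal of its real part:  by four_linear the left side is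
≤ ∫⁻ l, ofReal (Re I(l)) ∂μ. Careful: Re I(l) ≥ 0 is needed to pass to the integral: either note
I(l) = ∫ ‖h‖² ≥ 0, or simply bound as follows: if the real parts could be negative then
∫⁻ ofReal (Re I) is not ofReal ∫ Re I. So first prove 0 ≤ Re I(l) (it is the integral of ‖h u‖²,
see the proof of four_linear; a separate lemma four_linear_nonneg below).
Then ∫⁻ l, ofReal (Re I l) = ofReal (∫ l, Re I l) = ofReal (Re ∫ l ∫ q ...) = ofReal Re (∫ q, G G conj G conj G *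
(∫ l, A A conj A conj A)) ≤ ∫⁻ q, ‖∫ l, ...‖ₑ by Fubini and ‖G G conj G conj G‖ ≤ 1.
-/
theorem four_linear_nonneg {m : ℕ} (f : E m → ℂ) (hf : Measurable f) (B R : ℝ)
    (hB : ∀ w, ‖f w‖ ≤ B) (hR : ∀ w, R < ‖w‖ → f w = 0) :
    0 ≤ (∫ q : E m × E m × E m, f q.1 * f (q.1 - q.2.1 - q.2.2) *
        (starRingEnd ℂ) (f (q.1 - q.2.1)) * (starRingEnd ℂ) (f (q.1 - q.2.2))).re := by
  have h1 := hlp_eq f hf B R hB hR
  unfold hlp_F at h1
  rw [h1, integral_complex_ofReal, Complex.ofReal_re]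
  exact integral_nonneg fun y => by positivity

theorem four_linear_param {m : ℕ} {Λ : Type*} [MeasurableSpace Λ] (μ : Measure Λ)
    [IsFiniteMeasure μ] (A : Λ → E m → ℂ) (hA : Measurable (Function.uncurry A)) (B R : ℝ)
    (hB : ∀ l w, ‖A l w‖ ≤ B) (hR : ∀ l w, R < ‖w‖ → A l w = 0)
    (G : E m → ℂ) (hG : Measurable G) (hb : ∀ w, ‖G w‖ ≤ 1) :
    ∫⁻ l, (∫⁻ x : E m, ‖∫ w : E m, G w * A l w * ex (inner ℝ w x)‖ₑ ^ (4:ℝ)) ∂μ ≤
      ∫⁻ q : E m × E m × E m, ‖∫ l, A l q.1 * A l (q.1 - q.2.1 - q.2.2) *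
        (starRingEnd ℂ) (A l (q.1 - q.2.1)) * (starRingEnd ℂ) (A l (q.1 - q.2.2)) ∂μ‖ₑ := by
  have hAl : ∀ l, Measurable (A l) := fun l => hA.comp measurable_prodMk_left
  have hfm : ∀ l, Measurable fun w => G w * A l w := fun l => hG.mul (hAl l)
  have hfB : ∀ l w, ‖G w * A l w‖ ≤ B := fun l w => by
    rw [norm_mul]
    calc ‖G w‖ * ‖A l w‖ ≤ 1 * ‖A l w‖ := mul_le_mul_of_nonneg_right (hb w) (norm_nonneg _)
      _ ≤ B := by rw [one_mul]; exact hB l w
  have hfR : ∀ l w, R < ‖w‖ → G w * A l w = 0 := fun l w hw => by rw [hR l w hw, mul_zero]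
  -- the integrand on the product
  let Φ : Λ → (E m × E m × E m) → ℂ := fun l q => hlp_F (fun w => G w * A l w) q
  have hΦm : Measurable (Function.uncurry Φ) := by
    have hf2 : Measurable fun p : Λ × E m => G p.2 * A p.1 p.2 :=
      (hG.comp measurable_snd).mul hA
    have h1 : Measurable fun p : Λ × (E m × E m × E m) => G p.2.1 * A p.1 p.2.1 :=
      hf2.comp (measurable_fst.prodMk (by fun_prop))
    have h2 : Measurable fun p : Λ × (E m × E m × E m) =>
        G (p.2.1 - p.2.2.1 - p.2.2.2) * A p.1 (p.2.1 - p.2.2.1 - p.2.2.2) :=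
      hf2.comp (measurable_fst.prodMk (by fun_prop))
    have h3 : Measurable fun p : Λ × (E m × E m × E m) =>
        (starRingEnd ℂ) (G (p.2.1 - p.2.2.1) * A p.1 (p.2.1 - p.2.2.1)) :=
      Complex.continuous_conj.measurable.comp (hf2.comp (measurable_fst.prodMk (by fun_prop)))
    have h4 : Measurable fun p : Λ × (E m × E m × E m) =>
        (starRingEnd ℂ) (G (p.2.1 - p.2.2.2) * A p.1 (p.2.1 - p.2.2.2)) :=
      Complex.continuous_conj.measurable.comp (hf2.comp (measurable_fst.prodMk (by fun_prop)))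
    exact ((h1.mul h2).mul h3).mul h4
  have hΦI : Integrable (Function.uncurry Φ) (μ.prod volume) := by
    refine hlp_int (S := Set.univ ×ˢ hlp_S m R) ?_ _ hΦm (B * B * B * B) ?_ ?_
    · rw [Measure.prod_prod]
      exact ENNReal.mul_lt_top (measure_lt_top _ _) (hlp_S_fin m R)
    · rintro ⟨l, q⟩
      exact hlp_norm _ B (hfB l) q
    · rintro ⟨l, q⟩ hq
      refine hlp_zero _ R (hfR l) q fun h => hq ⟨Set.mem_univ _, h⟩
  have h1 : ∀ l, ∫⁻ x : E m, ‖∫ w : E m, G w * A l w * ex (inner ℝ w x)‖ₑ ^ (4:ℝ) ≤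
      ENNReal.ofReal (∫ q, Φ l q).re := fun l =>
    four_linear (fun w => G w * A l w) (hfm l) B R (hfB l) (hfR l)
  have h2 : ∀ l, 0 ≤ (∫ q, Φ l q).re := fun l =>
    four_linear_nonneg (fun w => G w * A l w) (hfm l) B R (hfB l) (hfR l)
  have h3 : Integrable (fun l => ∫ q, Φ l q) μ := hΦI.integral_prod_left
  have h4 : ∫⁻ l, ENNReal.ofReal (∫ q, Φ l q).re ∂μ =
      ENNReal.ofReal (∫ l, (∫ q, Φ l q).re ∂μ) :=
    (ofReal_integral_eq_lintegral_ofReal h3.re (Filter.Eventually.of_forall h2)).symm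
  have h5 : ∫ l, (∫ q, Φ l q).re ∂μ = (∫ l, (∫ q, Φ l q) ∂μ).re := integral_re h3
  have h6 : ∫ l, (∫ q, Φ l q) ∂μ = ∫ q, (∫ l, Φ l q ∂μ) := integral_integral_swap hΦI
  have h7 : ∀ q : E m × E m × E m, ‖∫ l, Φ l q ∂μ‖ₑ ≤ ‖∫ l, A l q.1 * A l (q.1 - q.2.1 - q.2.2) *
        (starRingEnd ℂ) (A l (q.1 - q.2.1)) * (starRingEnd ℂ) (A l (q.1 - q.2.2)) ∂μ‖ₑ := by
    intro q
    have h8 : ∀ l, Φ l q = hlp_F G q * (A l q.1 * A l (q.1 - q.2.1 - q.2.2) *
        (starRingEnd ℂ) (A l (q.1 - q.2.1)) * (starRingEnd ℂ) (A l (q.1 - q.2.2))) := by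
      intro l
      simp only [Φ, hlp_F, map_mul]
      ring
    rw [integral_congr_ae (Filter.Eventually.of_forall h8), integral_const_mul, enorm_mul]
    have h9 : ‖hlp_F G q‖ₑ ≤ 1 := by
      have h10 := hlp_norm G 1 hb q
      rw [← ofReal_norm]
      refine ENNReal.ofReal_le_one.2 ?_
      linarith
    calc _ ≤ 1 * _ := mul_le_mul_left h9 _
      _ = _ := one_mul _
  calc ∫⁻ l, (∫⁻ x : E m, ‖∫ w : E m, G w * A l w * ex (inner ℝ w x)‖ₑ ^ (4:ℝ)) ∂μ
      ≤ ∫⁻ l, ENNReal.ofReal (∫ q, Φ l q).re ∂μ := lintegral_mono h1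
    _ = ENNReal.ofReal (∫ q, (∫ l, Φ l q ∂μ)).re := by rw [h4, h5, h6]
    _ ≤ ENNReal.ofReal ‖∫ q, (∫ l, Φ l q ∂μ)‖ := ENNReal.ofReal_le_ofReal (Complex.re_le_norm _)
    _ = ‖∫ q, (∫ l, Φ l q ∂μ)‖ₑ := ofReal_norm _
    _ ≤ ∫⁻ q, ‖∫ l, Φ l q ∂μ‖ₑ := enorm_integral_le_lintegral_enorm _
    _ ≤ _ := lintegral_mono h7

end Pool.Agent.MST
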