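import Pool.Agent.MST.Defs

namespace Pool.Agent.MST

open MeasureTheory Set Pool.Agent.MP_6cbfb8_an
open scoped ENNReal Real

/-- reflection in the last coordinate. -/
noncomputable def hde_R : E 3 ≃ₗᵢ[ℝ] E 3 :=
  LinearIsometryEquiv.piLpCongrRight 2
    (fun i : Fin 3 => if i = Fin.last 2 then LinearIsometryEquiv.neg ℝ
      else LinearIsometryEquiv.refl ℝ ℝ)

lemma hde_R_last (x : E 3) : hde_R x (Fin.last 2) = - x (Fin.last 2) := by
  simp [hde_R]

lemma hde_R_fst (x : E 3) : (fstE (k := 2) (l := 1) (hde_R x) : E 2) = fstE (k := 2) (l := 1) x := by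
  ext i
  have h : Fin.castAdd 1 i ≠ Fin.last 2 := (Fin.castSucc_lt_last i).ne
  simp only [fstE, hde_R, LinearIsometryEquiv.piLpCongrRight_apply]
  rw [if_neg h]
  rfl

lemma hde_fst_meas : Measurable fun x : E 3 => (fstE (k := 2) (l := 1) x : E 2) := by
  unfold fstE
  refine (WithLp.measurable_toLp 2 _).comp ?_
  exact measurable_pi_lambda _ fun i => by fun_prop

lemma hde_up_meas (r : ℝ) (G : E 2 → ℂ) (hG : Measurable G) : Measurable (up r G) := by
  unfold up
  refine Measurable.ite ?_ ?_ measurable_const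
  · exact measurableSet_lt measurable_const (by fun_prop)
  · exact hG.comp (hde_fst_meas.const_smul r)

lemma hde_null : (sm 3) {x : S 3 | (x : E 3) (Fin.last 2) = 0} = 0 := by
  have hm : MeasurableSet {x : E 3 | x (Fin.last 2) = 0} :=
    measurableSet_eq_fun (by fun_prop) measurable_const
  have h := lintegral_slice 1 ({x : E 3 | x (Fin.last 2) = 0}.indicator 1)
    (measurable_const.indicator hm)
  have h1 : ∫⁻ x : S 3, ({x : E 3 | x (Fin.last 2) = 0}.indicator (1 : E 3 → ℝ≥0∞)) x ∂(sm 3) =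
      (sm 3) {x : S 3 | (x : E 3) (Fin.last 2) = 0} := by
    have hm' : MeasurableSet {x : S 3 | (x : E 3) (Fin.last 2) = 0} :=
      hm.preimage measurable_subtype_coe
    rw [← lintegral_indicator_one hm']
    rfl
  rw [← h1, h]
  rw [lintegral_eq_zero_iff']
  swap
  · refine Measurable.aemeasurable ?_
    refine Measurable.mul (by fun_prop) ?_
    have hm2 : Measurable fun q : ℝ × S 2 =>
        ({x : E 3 | x (Fin.last 2) = 0}.indicator (1 : E 3 → ℝ≥0∞)) (pt q.1 (q.2 : E 2)) := by
      refine (measurable_const.indicator hm).comp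
        (measurable_pt.comp (f := fun q : ℝ × S 2 => (q.1, (q.2 : E 2))) ?_)
      fun_prop
    exact hm2.lintegral_prod_right' (ν := sm 2)
  have h2 : ∀ᵐ θ : ℝ ∂(volume.restrict (Ioo 0 π)), θ ≠ π / 2 := by
    refine ae_restrict_of_ae ?_
    rw [ae_iff]
    simp
  filter_upwards [h2, ae_restrict_mem measurableSet_Ioo] with θ hθ hθ'
  simp only [Pi.zero_apply]
  have h3 : ∀ ω : S 2, ({x : E 3 | x (Fin.last 2) = 0}.indicator (1 : E 3 → ℝ≥0∞))
      (pt θ (ω : E 2)) = 0 := by
    intro ω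
    rw [indicator_of_notMem]
    simp only [mem_ofPred_eq]
    unfold pt
    rw [join_last]
    intro hc
    apply hθ
    exact (Real.injOn_cos.eq_iff ⟨hθ'.1.le, hθ'.2.le⟩ ⟨by positivity, by linarith [Real.pi_pos]⟩).mp
      (by rw [hc, Real.cos_pi_div_two])
  rw [lintegral_congr h3]
  simp

theorem dens_le (p : ℝ) (hp : 1 ≤ p) (r : ℝ) (G : E 2 → ℂ) (hG : Measurable G)
    (hb : ∀ w, ‖G w‖ ≤ 1) :
    ∫⁻ ξ : E 3, ‖extn (dens r G) ξ‖ₑ ^ p ≤ 2 ^ (p + 1) * ∫⁻ ξ : E 3, ‖extn (up r G) ξ‖ₑ ^ p := by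
  have hp0 : 0 ≤ p := by linarith
  have hum := hde_up_meas r G hG
  have hub : ∀ x, ‖up r G x‖ ≤ 1 := by
    intro x
    unfold up
    split_ifs
    · exact hb _
    · simp
  have key : ∀ ξ : E 3, extn (dens r G) ξ = extn (up r G) ξ + extn (up r G) (hde_R ξ) := by
    intro ξ
    have hiso := extn_isometry (up r G) hde_R ξ
    rw [← hiso]
    unfold extn
    have hphase : ∀ x : S 3, ‖Complex.exp (((-(2 * π * inner ℝ (x : E 3) ξ) : ℝ) : ℂ) *
        Complex.I)‖ = 1 := fun x => Complex.norm_exp_ofReal_mul_I _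
    have hem : Measurable fun x : S 3 =>
        Complex.exp (((-(2 * π * inner ℝ (x : E 3) ξ) : ℝ) : ℂ) * Complex.I) := by
      have : Measurable fun x : S 3 => (inner ℝ (x : E 3) ξ : ℝ) := by
        have h4 : Measurable fun x : S 3 => (x : E 3) := measurable_subtype_coe
        exact h4.inner measurable_const
      fun_prop
    rw [← integral_add]
    · refine integral_congr_ae ?_
      have hnull : ∀ᵐ x : S 3 ∂(sm 3), (x : E 3) (Fin.last 2) ≠ 0 := by
        rw [ae_iff]
        simpa using hde_null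
      filter_upwards [hnull] with x hx
      rw [← add_mul]
      congr 1
      unfold up dens
      rw [hde_R_last, hde_R_fst]
      rcases lt_or_gt_of_ne hx with h | h
      · rw [if_neg (by linarith), if_pos (by linarith), zero_add]
      · rw [if_pos h, if_neg (by linarith), add_zero]
    · refine Integrable.of_bound
        ((hum.comp measurable_subtype_coe).mul hem).aestronglyMeasurable 1
        (Filter.Eventually.of_forall fun x => ?_)
      rw [norm_mul, hphase, mul_one]
      exact hub _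
    · refine Integrable.of_bound
        (((hum.comp hde_R.continuous.measurable).comp measurable_subtype_coe).mul
          hem).aestronglyMeasurable 1 (Filter.Eventually.of_forall fun x => ?_)
      rw [norm_mul, hphase, mul_one]
      exact hub _
  have hme : Measurable fun ξ : E 3 => ‖extn (up r G) ξ‖ₑ ^ p :=
    (measurable_extn _ hum).enorm.pow_const p
  have hRint : ∫⁻ ξ : E 3, ‖extn (up r G) (hde_R ξ)‖ₑ ^ p = ∫⁻ ξ : E 3, ‖extn (up r G) ξ‖ₑ ^ p :=
    hde_R.measurePreserving.lintegral_comp hme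
  calc ∫⁻ ξ : E 3, ‖extn (dens r G) ξ‖ₑ ^ p
      ≤ ∫⁻ ξ : E 3, 2 ^ p * (‖extn (up r G) ξ‖ₑ ^ p + ‖extn (up r G) (hde_R ξ)‖ₑ ^ p) := by
        refine lintegral_mono fun ξ => ?_
        simp only
        rw [key ξ]
        have h1 : ‖extn (up r G) ξ + extn (up r G) (hde_R ξ)‖ₑ ≤
            2 * max ‖extn (up r G) ξ‖ₑ ‖extn (up r G) (hde_R ξ)‖ₑ := by
          refine (enorm_add_le _ _).trans ?_
          rw [two_mul]
          exact add_le_add (le_max_left _ _) (le_max_right _ _)
        calc ‖extn (up r G) ξ + extn (up r G) (hde_R ξ)‖ₑ ^ p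
            ≤ (2 * max ‖extn (up r G) ξ‖ₑ ‖extn (up r G) (hde_R ξ)‖ₑ) ^ p :=
              ENNReal.rpow_le_rpow h1 hp0
          _ = 2 ^ p * (max ‖extn (up r G) ξ‖ₑ ‖extn (up r G) (hde_R ξ)‖ₑ) ^ p :=
              ENNReal.mul_rpow_of_nonneg _ _ hp0
          _ ≤ _ := by
              gcongr
              rcases le_total ‖extn (up r G) ξ‖ₑ ‖extn (up r G) (hde_R ξ)‖ₑ with h | h
              · rw [max_eq_right h]; exact le_add_self
              · rw [max_eq_left h]; exact le_self_add
    _ = 2 ^ p * ((∫⁻ ξ : E 3, ‖extn (up r G) ξ‖ₑ ^ p) +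
        ∫⁻ ξ : E 3, ‖extn (up r G) (hde_R ξ)‖ₑ ^ p) := by
        rw [lintegral_const_mul _ (by
          exact hme.add ((hme.comp hde_R.continuous.measurable))), lintegral_add_left hme]
    _ = 2 ^ (p + 1) * ∫⁻ ξ : E 3, ‖extn (up r G) ξ‖ₑ ^ p := by
        rw [hRint, ← two_mul, ← mul_assoc, ENNReal.rpow_add _ _ (by norm_num) (by norm_num),
          ENNReal.rpow_one]

end Pool.Agent.MST
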