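import Pool.Agent.MST.CO
import Pool.Agent.MST.DE

namespace Pool.Agent.MST

open MeasureTheory Set Pool.Agent.MP_6cbfb8_an
open scoped ENNReal Real

theorem hae_measurable (G : E 2 → ℂ) (hG : Measurable G) :
    Measurable (Function.uncurry fun (r : ℝ) (x : E 3) => dens r G x) := by
  have h1 : Continuous fun x : E (2 + 1) => (fstE x : E 2) := by
    unfold fstE
    refine (PiLp.continuous_toLp 2 _).comp ?_
    fun_prop
  have h2 : Continuous fun q : ℝ × E 3 => q.1 • (fstE (k := 2) (l := 1) q.2 : E 2) :=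
    continuous_fst.smul (h1.comp continuous_snd)
  exact hG.comp h2.measurable

theorem hae_measurable' (G : E 2 → ℂ) (hG : Measurable G) (r : ℝ) : Measurable (dens r G) :=
  (hae_measurable G hG).comp (measurable_const.prodMk measurable_id)

theorem hae_param (G : E 2 → ℂ) (hG : Measurable G) (p : ℝ) :
    Measurable fun r : ℝ => ∫⁻ ξ : E 3, ‖extn (dens r G) ξ‖ₑ ^ p := by
  have h1 := measurable_extn_param (fun (r : ℝ) (x : E 3) => dens r G x) (hae_measurable G hG)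
  have h2 : Measurable fun q : ℝ × E 3 => ‖extn (dens q.1 G) q.2‖ₑ ^ p := h1.enorm.pow_const p
  exact h2.lintegral_prod_right'

theorem hae_interval (G : E 2 → ℂ) (hG : Measurable G) (hb : ∀ w, ‖G w‖ ≤ 1) (p : ℝ) (hp : 3 < p)
    (ra rb : ℝ) (h0 : 0 < ra) (h1 : ra < rb) :
    ∀ᵐ r : ℝ, r ∈ Icc ra rb → ∫⁻ ξ : E 3, ‖extn (dens r G) ξ‖ₑ ^ p < ∞ := by
  rw [← ae_restrict_iff' measurableSet_Icc]
  obtain ⟨C, hC, hC'⟩ := core ra rb p h0 h1 hp
  refine ae_lt_top (hae_param G hG p) (ne_of_lt ?_)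
  have hc : (2 : ℝ≥0∞) ^ (p + 1) ≠ ∞ :=
    ENNReal.rpow_ne_top_of_nonneg (by linarith) ENNReal.ofNat_ne_top
  calc ∫⁻ r in Icc ra rb, ∫⁻ ξ : E 3, ‖extn (dens r G) ξ‖ₑ ^ p
      ≤ ∫⁻ r in Icc ra rb, 2 ^ (p + 1) * ∫⁻ ξ : E 3, ‖extn (up r G) ξ‖ₑ ^ p :=
        lintegral_mono fun r => dens_le p (by linarith) r G hG hb
    _ = 2 ^ (p + 1) * ∫⁻ r in Icc ra rb, ∫⁻ ξ : E 3, ‖extn (up r G) ξ‖ₑ ^ p :=
        lintegral_const_mul' _ _ hc
    _ ≤ 2 ^ (p + 1) * C := mul_le_mul' le_rfl (hC' G hG hb)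
    _ < ∞ := ENNReal.mul_lt_top (lt_top_iff_ne_top.2 hc) (lt_top_iff_ne_top.2 hC)

/-
ROW AE (0.8 h). For fixed G and p > 3 and n ∈ ℕ, `core` on [1/(n+2), n+2] and dens_le give
∫⁻ r in Icc (1/(n+2)) (n+2), N_p(r) < ∞, N_p(r) = ∫⁻ ξ ‖extn (dens r G) ξ‖^p. r ↦ N_p(r) is measurable
(`measurable_extn_param` for h r x = dens r G x, then Measurable.lintegral_prod_right'), so N_p(r) < ∞ for a.e. r in the interval
(ae_lt_top), hence for a.e. r > 0 (countable union), simultaneously for all p = 3 + 1/(j+1), j ∈ ℕ. For arbitrary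
p > 3 take j with 3 + 1/(j+1) ≤ p and use `lintegral_rpow_le_sup` (Tools.lean) with M = sm 3 univ (‖extn‖ₑ ≤ sm univ:
liftE2_enorm_extn_le).
-/
theorem ae_dens (G : E 2 → ℂ) (hG : Measurable G) (hb : ∀ w, ‖G w‖ ≤ 1) :
    ∀ᵐ r ∂((volume : Measure ℝ).restrict (Ioi 0)), ∀ p : ℝ, 3 < p →
      ∫⁻ ξ : E 3, ‖extn (dens r G) ξ‖ₑ ^ p < ∞ := by
  rw [ae_restrict_iff' measurableSet_Ioi]
  have h1 : ∀ᵐ r : ℝ, ∀ n j : ℕ, r ∈ Icc (1 / ((n : ℝ) + 2)) ((n : ℝ) + 2) →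
      ∫⁻ ξ : E 3, ‖extn (dens r G) ξ‖ₑ ^ (3 + 1 / ((j : ℝ) + 1)) < ∞ := by
    rw [ae_all_iff]
    intro n
    rw [ae_all_iff]
    intro j
    have hn : (0 : ℝ) ≤ n := Nat.cast_nonneg n
    have hj : (0 : ℝ) < 1 / ((j : ℝ) + 1) := by positivity
    refine hae_interval G hG hb _ (by linarith) _ _ (by positivity) ?_
    rw [div_lt_iff₀ (by positivity)]
    nlinarith
  filter_upwards [h1] with r hr hr0 p hp
  have hr0' : 0 < r := hr0
  obtain ⟨n, hn⟩ := exists_nat_ge (max (1 / r) r)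
  obtain ⟨j, hj⟩ := exists_nat_one_div_lt (sub_pos.2 hp)
  have h2 : r ∈ Icc (1 / ((n : ℝ) + 2)) ((n : ℝ) + 2) := by
    have h3 := (le_max_left (1 / r) r).trans hn
    have h4 := (le_max_right (1 / r) r).trans hn
    refine ⟨?_, by linarith⟩
    rw [div_le_iff₀ (by positivity)]
    rw [div_le_iff₀ hr0'] at h3
    nlinarith
  have h3 := hr n j h2
  have hj0 : (0 : ℝ) < 1 / ((j : ℝ) + 1) := by positivity
  refine lt_of_le_of_lt (lintegral_rpow_le_sup (p := p) (p' := 3 + 1 / ((j : ℝ) + 1))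
    (fun ξ : E 3 => ‖extn (dens r G) ξ‖ₑ)
    (measurable_extn _ (hae_measurable' G hG r)).enorm (by linarith) (by linarith) (sm 3 univ)
    (fun ξ => liftE2_enorm_extn_le _ (fun x => hb _) ξ)) ?_
  exact ENNReal.mul_lt_top (lt_top_iff_ne_top.2
    (ENNReal.rpow_ne_top_of_nonneg (by linarith) (sm_univ_ne_top _))) h3

end Pool.Agent.MST
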