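import Pool.Agent.MST.Defs

namespace Pool.Agent.MST

open MeasureTheory Set Pool.Agent.MP_6cbfb8_an
open scoped ENNReal Real

theorem hal_e1 (κ s p : ℝ) (hp : p ≠ 0) (hs : s ≠ 0) :
    (1 - κ ^ 2 * p ^ 2) / s / p = (p⁻¹ - κ ^ 2 * p) / s := by
  field_simp

theorem hal_l1 (k s p : ℝ) (hp : p ≠ 0) (hs : s ≠ 0) :
    ((1 - k * p ^ 2) / s) ^ 1 * p / p ^ (2 * 1) = (1 / s) * (p⁻¹ - k * p) := by
  field_simp
  ring

theorem hal_l2 (k s p : ℝ) (hp : p ≠ 0) (hs : s ≠ 0) :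
    ((1 - k * p ^ 2) / s) ^ 2 * p / p ^ (2 * 2)
      = (1 / s) ^ 2 * (p⁻¹ ^ 3 - 2 * (k * p⁻¹) + k ^ 2 * p) := by
  field_simp
  ring

theorem hal_l3 (k s p : ℝ) (hp : p ≠ 0) (hs : s ≠ 0) :
    ((1 - k * p ^ 2) / s) ^ 3 * p / p ^ (2 * 3)
      = (1 / s) ^ 3 * (p⁻¹ ^ 5 - 3 * (k * p⁻¹ ^ 3) + 3 * (k ^ 2 * p⁻¹) - k ^ 3 * p) := by
  field_simp
  ring

/-- cubes -/
theorem hal_cube (a b c d W : ℝ) (ha : 0 ≤ a) (ha2 : a ≤ 2) (hb : 0 ≤ b) (hb2 : b ≤ 2)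
    (hc : 0 ≤ c) (hc2 : c ≤ 2) (hd : 0 ≤ d) (hd2 : d ≤ 2)
    (hS : |a + b - c - d| ≤ 64 * W) (hT : |a * b - c * d| ≤ 16 * W) :
    |a ^ 3 + b ^ 3 - c ^ 3 - d ^ 3| ≤ 4032 * W := by
  have hW : 0 ≤ W := by
    have := (abs_nonneg _).trans hT
    linarith
  obtain ⟨e, he⟩ : ∃ e : ℝ, e = a + b := ⟨_, rfl⟩
  obtain ⟨e', he'⟩ : ∃ e' : ℝ, e' = c + d := ⟨_, rfl⟩
  obtain ⟨f, hf⟩ : ∃ f : ℝ, f = a * b := ⟨_, rfl⟩
  obtain ⟨f', hf'⟩ : ∃ f' : ℝ, f' = c * d := ⟨_, rfl⟩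
  have e0 : 0 ≤ e := by rw [he]; linarith
  have e4 : e ≤ 4 := by rw [he]; linarith
  have e0' : 0 ≤ e' := by rw [he']; linarith
  have e4' : e' ≤ 4 := by rw [he']; linarith
  have f0 : 0 ≤ f := by rw [hf]; positivity
  have f4 : f ≤ 4 := by rw [hf]; nlinarith
  have hid : a ^ 3 + b ^ 3 - c ^ 3 - d ^ 3 = (a + b - c - d) * (e ^ 2 + e * e' + e' ^ 2 - 3 * f)
      + (a * b - c * d) * (-3 * e') := by
    rw [he, he', hf]; ring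
  have hA : |e ^ 2 + e * e' + e' ^ 2 - 3 * f| ≤ 60 := by
    have h1 : e ^ 2 + e * e' + e' ^ 2 ≤ 48 := by
      calc _ ≤ (4 : ℝ) ^ 2 + 4 * 4 + 4 ^ 2 := by gcongr
        _ = 48 := by norm_num
    have h2 : 0 ≤ e ^ 2 + e * e' + e' ^ 2 := by positivity
    rw [abs_le]
    constructor <;> linarith
  have hB : |-3 * e'| ≤ 12 := by
    rw [abs_le]
    constructor <;> linarith
  rw [hid]
  calc _ ≤ |(a + b - c - d) * (e ^ 2 + e * e' + e' ^ 2 - 3 * f)|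
        + |(a * b - c * d) * (-3 * e')| := abs_add_le _ _
    _ ≤ 64 * W * 60 + 16 * W * 12 := by
        rw [abs_mul, abs_mul]
        gcongr
    _ = 4032 * W := by ring

/-- fifth powers -/
theorem hal_fifth (a b c d W : ℝ) (ha : 0 ≤ a) (ha2 : a ≤ 2) (hb : 0 ≤ b) (hb2 : b ≤ 2)
    (hc : 0 ≤ c) (hc2 : c ≤ 2) (hd : 0 ≤ d) (hd2 : d ≤ 2)
    (hS : |a + b - c - d| ≤ 64 * W) (hT : |a * b - c * d| ≤ 16 * W) :
    |a ^ 5 + b ^ 5 - c ^ 5 - d ^ 5| ≤ 156160 * W := by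
  have hW : 0 ≤ W := by
    have := (abs_nonneg _).trans hT
    linarith
  obtain ⟨e, he⟩ : ∃ e : ℝ, e = a + b := ⟨_, rfl⟩
  obtain ⟨e', he'⟩ : ∃ e' : ℝ, e' = c + d := ⟨_, rfl⟩
  obtain ⟨f, hf⟩ : ∃ f : ℝ, f = a * b := ⟨_, rfl⟩
  obtain ⟨f', hf'⟩ : ∃ f' : ℝ, f' = c * d := ⟨_, rfl⟩
  have e0 : 0 ≤ e := by rw [he]; linarith
  have e4 : e ≤ 4 := by rw [he]; linarith
  have e0' : 0 ≤ e' := by rw [he']; linarith
  have e4' : e' ≤ 4 := by rw [he']; linarith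
  have f0 : 0 ≤ f := by rw [hf]; positivity
  have f4 : f ≤ 4 := by rw [hf]; nlinarith
  have f0' : 0 ≤ f' := by rw [hf']; positivity
  have f4' : f' ≤ 4 := by rw [hf']; nlinarith
  have hid : a ^ 5 + b ^ 5 - c ^ 5 - d ^ 5 = (a + b - c - d) * (e ^ 4 + e ^ 3 * e'
      + e ^ 2 * e' ^ 2 + e * e' ^ 3 + e' ^ 4 - 5 * (e ^ 2 + e * e' + e' ^ 2) * f + 5 * f ^ 2)
      + (a * b - c * d) * (-5 * e' ^ 3 + 5 * e' * (f + f')) := by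
    rw [he, he', hf, hf']; ring
  have hA : |e ^ 4 + e ^ 3 * e' + e ^ 2 * e' ^ 2 + e * e' ^ 3 + e' ^ 4
      - 5 * (e ^ 2 + e * e' + e' ^ 2) * f + 5 * f ^ 2| ≤ 2320 := by
    have h1 : e ^ 4 + e ^ 3 * e' + e ^ 2 * e' ^ 2 + e * e' ^ 3 + e' ^ 4 ≤ 1280 := by
      calc _ ≤ (4 : ℝ) ^ 4 + 4 ^ 3 * 4 + 4 ^ 2 * 4 ^ 2 + 4 * 4 ^ 3 + 4 ^ 4 := by gcongr
        _ = 1280 := by norm_num
    have h2 : 5 * (e ^ 2 + e * e' + e' ^ 2) * f ≤ 960 := by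
      calc _ ≤ 5 * ((4 : ℝ) ^ 2 + 4 * 4 + 4 ^ 2) * 4 := by gcongr
        _ = 960 := by norm_num
    have h3 : 5 * f ^ 2 ≤ 80 := by
      calc _ ≤ 5 * (4 : ℝ) ^ 2 := by gcongr
        _ = 80 := by norm_num
    have h4 : 0 ≤ e ^ 4 + e ^ 3 * e' + e ^ 2 * e' ^ 2 + e * e' ^ 3 + e' ^ 4 := by positivity
    have h5 : 0 ≤ 5 * (e ^ 2 + e * e' + e' ^ 2) * f := by positivity
    have h6 : 0 ≤ 5 * f ^ 2 := by positivity
    rw [abs_le]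
    constructor <;> linarith
  have hB : |-5 * e' ^ 3 + 5 * e' * (f + f')| ≤ 480 := by
    have h1 : 5 * e' ^ 3 ≤ 320 := by
      calc _ ≤ 5 * (4 : ℝ) ^ 3 := by gcongr
        _ = 320 := by norm_num
    have h2 : 5 * e' * (f + f') ≤ 160 := by
      calc _ ≤ 5 * (4 : ℝ) * (4 + 4) := by gcongr
        _ = 160 := by norm_num
    have h3 : 0 ≤ 5 * e' ^ 3 := by positivity
    have h4 : 0 ≤ 5 * e' * (f + f') := by positivity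
    rw [abs_le]
    constructor <;> linarith
  rw [hid]
  calc _ ≤ |(a + b - c - d) * (e ^ 4 + e ^ 3 * e'
      + e ^ 2 * e' ^ 2 + e * e' ^ 3 + e' ^ 4 - 5 * (e ^ 2 + e * e' + e' ^ 2) * f + 5 * f ^ 2)|
        + |(a * b - c * d) * (-5 * e' ^ 3 + 5 * e' * (f + f'))| := abs_add_le _ _
    _ ≤ 64 * W * 2320 + 16 * W * 480 := by
        rw [abs_mul, abs_mul]
        gcongr
    _ = 156160 * W := by ring

/-- sums and products of the inverses -/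
theorem hal_inv (a b c d : ℝ) (ha : 1 / 2 ≤ a) (hb : 1 / 2 ≤ b)
    (hc : 1 / 2 ≤ c) (hc2 : c ≤ 2) (hd : 1 / 2 ≤ d) (hd2 : d ≤ 2) :
    |a⁻¹ + b⁻¹ - c⁻¹ - d⁻¹| ≤ 64 * (|a + b - c - d| + |a * b - c * d|) ∧
    |a⁻¹ * b⁻¹ - c⁻¹ * d⁻¹| ≤ 16 * (|a + b - c - d| + |a * b - c * d|) := by
  have ha0 : 0 < a := by linarith
  have hb0 : 0 < b := by linarith
  have hc0 : 0 < c := by linarith
  have hd0 : 0 < d := by linarith
  have h1 : (a * b)⁻¹ ≤ 4 := by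
    rw [inv_le_comm₀ (by positivity) (by norm_num)]
    nlinarith
  have h2 : (c * d)⁻¹ ≤ 4 := by
    rw [inv_le_comm₀ (by positivity) (by norm_num)]
    nlinarith
  have h3 : (a * b)⁻¹ * (c * d)⁻¹ ≤ 16 := by
    calc _ ≤ (4 : ℝ) * 4 := by gcongr
      _ = 16 := by norm_num
  have h0 : 0 ≤ (a * b)⁻¹ * (c * d)⁻¹ := by positivity
  have hcd : c * d ≤ 4 := by
    calc _ ≤ (2 : ℝ) * 2 := by gcongr
      _ = 4 := by norm_num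
  have hcd1 : c + d ≤ 4 := by linarith
  constructor
  · have hid : a⁻¹ + b⁻¹ - c⁻¹ - d⁻¹ = ((a * b)⁻¹ * (c * d)⁻¹)
        * ((a + b - c - d) * (c * d) - (a * b - c * d) * (c + d)) := by
      field_simp
      ring
    rw [hid, abs_mul, abs_of_nonneg h0]
    calc _ ≤ 16 * (|(a + b - c - d) * (c * d)| + |(a * b - c * d) * (c + d)|) := by
          gcongr
          exact abs_sub _ _
      _ ≤ 16 * (|a + b - c - d| * 4 + |a * b - c * d| * 4) := by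
          rw [abs_mul (a + b - c - d) (c * d), abs_mul (a * b - c * d) (c + d),
            abs_of_pos (show 0 < c * d by positivity),
            abs_of_pos (show 0 < c + d by positivity)]
          gcongr
      _ = _ := by ring
  · have hid : a⁻¹ * b⁻¹ - c⁻¹ * d⁻¹ = ((a * b)⁻¹ * (c * d)⁻¹) * -(a * b - c * d) := by
      field_simp
      ring
    rw [hid, abs_mul, abs_of_nonneg h0, abs_neg]
    calc _ ≤ 16 * |a * b - c * d| := by gcongr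
      _ ≤ _ := by
          have := abs_nonneg (a + b - c - d)
          linarith

/-- the sum and the product are controlled by the left side of `alg_lower` -/
theorem hal_FE (a b c d : ℝ) (ha : 1 / 2 ≤ a) (ha2 : a ≤ 2) (hb : 1 / 2 ≤ b) (hb2 : b ≤ 2)
    (hc : 1 / 2 ≤ c) (hd : 1 / 2 ≤ d) :
    |a + b - c - d| + |a * b - c * d| ≤ 7 * (|a ^ 2 + b ^ 2 - c ^ 2 - d ^ 2|
      + |a ^ 2 - c ^ 2| * |a ^ 2 - d ^ 2| + |b ^ 2 - c ^ 2| * |b ^ 2 - d ^ 2|) := by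
  have hX : ∀ x : ℝ, 1 / 2 ≤ x → |(x - c) * (x - d)| ≤ |x ^ 2 - c ^ 2| * |x ^ 2 - d ^ 2| := by
    intro x hx
    rw [abs_mul]
    have h1 : |x - c| ≤ |x ^ 2 - c ^ 2| := by
      have : x ^ 2 - c ^ 2 = (x - c) * (x + c) := by ring
      rw [this, abs_mul]
      have h2 : 1 ≤ |x + c| := by
        rw [abs_of_nonneg (by linarith)]
        linarith
      exact le_mul_of_one_le_right (abs_nonneg _) h2
    have h2 : |x - d| ≤ |x ^ 2 - d ^ 2| := by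
      have : x ^ 2 - d ^ 2 = (x - d) * (x + d) := by ring
      rw [this, abs_mul]
      have h2 : 1 ≤ |x + d| := by
        rw [abs_of_nonneg (by linarith)]
        linarith
      exact le_mul_of_one_le_right (abs_nonneg _) h2
    gcongr
  have hX1 := hX a ha
  have hX2 := hX b hb
  obtain ⟨D, hD⟩ : ∃ D : ℝ, D = |a ^ 2 + b ^ 2 - c ^ 2 - d ^ 2|
      + |a ^ 2 - c ^ 2| * |a ^ 2 - d ^ 2| + |b ^ 2 - c ^ 2| * |b ^ 2 - d ^ 2| := ⟨_, rfl⟩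
  have hY0 := abs_nonneg (a ^ 2 + b ^ 2 - c ^ 2 - d ^ 2)
  have h10 := abs_nonneg ((a - c) * (a - d))
  have h20 := abs_nonneg ((b - c) * (b - d))
  have hF : |a + b - c - d| ≤ 2 * D := by
    rcases le_total a b with h | h
    · have hid : (b - a + c + d) * (a + b - c - d)
          = (a ^ 2 + b ^ 2 - c ^ 2 - d ^ 2) - 2 * ((a - c) * (a - d)) := by ring
      have h1 : 1 ≤ b - a + c + d := by linarith
      have h2 : |a + b - c - d| ≤ |(b - a + c + d) * (a + b - c - d)| := by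
        rw [abs_mul, abs_of_nonneg (by linarith : 0 ≤ b - a + c + d)]
        exact le_mul_of_one_le_left (abs_nonneg _) h1
      have h3 := abs_sub (a ^ 2 + b ^ 2 - c ^ 2 - d ^ 2) (2 * ((a - c) * (a - d)))
      rw [abs_mul, abs_two] at h3
      rw [hid] at h2
      linarith
    · have hid : (a - b + c + d) * (a + b - c - d)
          = (a ^ 2 + b ^ 2 - c ^ 2 - d ^ 2) - 2 * ((b - c) * (b - d)) := by ring
      have h1 : 1 ≤ a - b + c + d := by linarith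
      have h2 : |a + b - c - d| ≤ |(a - b + c + d) * (a + b - c - d)| := by
        rw [abs_mul, abs_of_nonneg (by linarith : 0 ≤ a - b + c + d)]
        exact le_mul_of_one_le_left (abs_nonneg _) h1
      have h3 := abs_sub (a ^ 2 + b ^ 2 - c ^ 2 - d ^ 2) (2 * ((b - c) * (b - d)))
      rw [abs_mul, abs_two] at h3
      rw [hid] at h2
      linarith
  have hE : |a * b - c * d| ≤ 2 * |a + b - c - d| + |(a - c) * (a - d)| := by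
    have hid : a * b - c * d = a * (a + b - c - d) - (a - c) * (a - d) := by ring
    rw [hid]
    refine (abs_sub _ _).trans ?_
    rw [abs_mul, abs_of_nonneg (by linarith : 0 ≤ a)]
    gcongr
  rw [← hD]
  linarith

/-
ROW AL (1.2 h). Algebra of four heights p_i ∈ [1/2, 2] (pairs {1,2} and {3,4}).
Notation e1 = p1+p2, e2 = p1 p2, e1' = p3+p4, e2' = p3 p4, F = e1 - e1', E = e2 - e2',
P = 1/p1+1/p2-1/p3-1/p4, X1 = (p1-p3)(p1-p4), X2 = (p2-p3)(p2-p4), Y = p1²+p2²-p3²-p4².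
Identities: E = (F e2' - P e2 e2')/e1' ;  X1 = p1 F - E ;  X2 = p2 F - E ;  Y = F (e1+e1') - 2 E.
Also ((1-κ²p²)/s)/p = (1/s)(1/p - κ² p), so the second quantity on the right of `alg_lower` is
(1/s)|P - κ² F|.
alg_lower: |P| ≤ s|P/s - κ²F/s| + |F| ; then |E| ≤ C(|F|+|P|), and |p_i² - p_j²| = |p_i-p_j|(p_i+p_j) ≤ 4|p_i-p_j|.
alg_upper: (a) |F|, |E| ≤ C D where D is the left side of alg_lower: if p1 ≤ p2 then
Y - 2 X1 = (p2 - p1 + p3 + p4) F with p2-p1+p3+p4 ≥ 1, so |F| ≤ |Y|+2|X1|; if p2 ≤ p1 the same with X2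
(Y - 2 X2 = (p1 - p2 + p3 + p4) F); |E| ≤ |p1 F| + |X1|; and |X1| ≤ |p1²-p3²||p1²-p4²| as p_i+p_j ≥ 1.
(b) for n ∈ {1, -1, -3, -5} the difference N_n = p1^n+p2^n-p3^n-p4^n satisfies |N_n| ≤ C(|F|+|E|):
with r = 1/p, ε1 = r1+r2 = e1/e2, ε2 = r1 r2 = 1/e2: r1³+r2³ = ε1³-3ε1ε2,
r1⁵+r2⁵ = ε1⁵-5ε1³ε2+5ε1ε2²; differences of polynomials in (ε1, ε2) on a bounded set, and
|ε1-ε1'|, |ε2-ε2'| ≤ C(|F|+|E|).
(c) expand ((1-κ²p²)/s)^l p/p^(2l) for l = 0,1,2,3 into a combination of p^n, n ∈ {1,-1,-3,-5} with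
coefficients bounded by 3/s^l (0 < κ ≤ 1).
-/
theorem alg_lower (s0 s1 : ℝ) (h0 : 0 < s0) (h1 : s0 ≤ s1) : ∃ C : ℝ, 0 < C ∧
    ∀ κ s p1 p2 p3 p4 : ℝ, 0 < κ → κ ≤ 1 → s0 ≤ s → s ≤ s1 →
    1 / 2 ≤ p1 → p1 ≤ 2 → 1 / 2 ≤ p2 → p2 ≤ 2 → 1 / 2 ≤ p3 → p3 ≤ 2 → 1 / 2 ≤ p4 → p4 ≤ 2 →
    |p1 ^ 2 + p2 ^ 2 - p3 ^ 2 - p4 ^ 2| + |p1 ^ 2 - p3 ^ 2| * |p1 ^ 2 - p4 ^ 2| +
        |p2 ^ 2 - p3 ^ 2| * |p2 ^ 2 - p4 ^ 2| ≤
      C * (|p1 + p2 - p3 - p4| + |(1 - κ ^ 2 * p1 ^ 2) / s / p1 + (1 - κ ^ 2 * p2 ^ 2) / s / p2 -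
        (1 - κ ^ 2 * p3 ^ 2) / s / p3 - (1 - κ ^ 2 * p4 ^ 2) / s / p4|) := by
  refine ⟨752 + 544 * s1, by linarith [h0.trans_le h1], ?_⟩
  intro κ s p1 p2 p3 p4 hκ hκ1 hs0 hs1 ha ha2 hb hb2 hc hc2 hd hd2
  have hs : 0 < s := h0.trans_le hs0
  have hp1 : 0 < p1 := by linarith
  have hp2 : 0 < p2 := by linarith
  have hp3 : 0 < p3 := by linarith
  have hp4 : 0 < p4 := by linarith
  obtain ⟨F, hF⟩ : ∃ F : ℝ, F = p1 + p2 - p3 - p4 := ⟨_, rfl⟩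
  obtain ⟨E, hE⟩ : ∃ E : ℝ, E = p1 * p2 - p3 * p4 := ⟨_, rfl⟩
  obtain ⟨P, hP⟩ : ∃ P : ℝ, P = p1⁻¹ + p2⁻¹ - p3⁻¹ - p4⁻¹ := ⟨_, rfl⟩
  have hQ : (1 - κ ^ 2 * p1 ^ 2) / s / p1 + (1 - κ ^ 2 * p2 ^ 2) / s / p2 -
        (1 - κ ^ 2 * p3 ^ 2) / s / p3 - (1 - κ ^ 2 * p4 ^ 2) / s / p4 = (P - κ ^ 2 * F) / s := by
    rw [hal_e1 _ _ _ hp1.ne' hs.ne', hal_e1 _ _ _ hp2.ne' hs.ne', hal_e1 _ _ _ hp3.ne' hs.ne',
      hal_e1 _ _ _ hp4.ne' hs.ne', hP, hF]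
    ring
  rw [hQ, ← hF]
  have hPb : |P| ≤ s1 * |(P - κ ^ 2 * F) / s| + |F| := by
    have hid : P = s * ((P - κ ^ 2 * F) / s) + κ ^ 2 * F := by
      field_simp
      ring
    have hk : κ ^ 2 ≤ 1 := pow_le_one₀ hκ.le hκ1
    calc |P| = |s * ((P - κ ^ 2 * F) / s) + κ ^ 2 * F| := by rw [← hid]
      _ ≤ |s * ((P - κ ^ 2 * F) / s)| + |κ ^ 2 * F| := abs_add_le _ _
      _ = s * |(P - κ ^ 2 * F) / s| + κ ^ 2 * |F| := by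
          rw [abs_mul, abs_mul, abs_of_pos hs, abs_of_nonneg (sq_nonneg κ)]
      _ ≤ s1 * |(P - κ ^ 2 * F) / s| + 1 * |F| := by gcongr
      _ = _ := by ring
  have hEb : |E| ≤ 4 * |F| + 16 * |P| := by
    have hid : (p3 + p4) * E = F * (p3 * p4) - P * ((p1 * p2) * (p3 * p4)) := by
      rw [hE, hF, hP]
      field_simp
      ring
    have h34 : p3 * p4 ≤ 4 := by
      calc _ ≤ (2 : ℝ) * 2 := by gcongr
        _ = 4 := by norm_num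
    have h12 : p1 * p2 ≤ 4 := by
      calc _ ≤ (2 : ℝ) * 2 := by gcongr
        _ = 4 := by norm_num
    have h1 : |E| ≤ |(p3 + p4) * E| := by
      rw [abs_mul, abs_of_nonneg (by linarith : 0 ≤ p3 + p4)]
      exact le_mul_of_one_le_left (abs_nonneg _) (by linarith)
    rw [hid] at h1
    calc |E| ≤ _ := h1
      _ ≤ |F * (p3 * p4)| + |P * ((p1 * p2) * (p3 * p4))| := abs_sub _ _
      _ = |F| * (p3 * p4) + |P| * ((p1 * p2) * (p3 * p4)) := by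
          rw [abs_mul F (p3 * p4), abs_mul P ((p1 * p2) * (p3 * p4)),
            abs_of_pos (show 0 < p3 * p4 by positivity),
            abs_of_pos (show 0 < (p1 * p2) * (p3 * p4) by positivity)]
      _ ≤ |F| * 4 + |P| * (4 * 4) := by gcongr
      _ = _ := by ring
  have hX : ∀ x : ℝ, 1 / 2 ≤ x → x ≤ 2 → (x - p3) * (x - p4) = x * F - E →
      |x ^ 2 - p3 ^ 2| * |x ^ 2 - p4 ^ 2| ≤ 16 * (2 * |F| + |E|) := by
    intro x hx hx2 hid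
    have h1 : (x ^ 2 - p3 ^ 2) * (x ^ 2 - p4 ^ 2) = (x * F - E) * ((x + p3) * (x + p4)) := by
      rw [← hid]
      ring
    have hxF : |x * F - E| ≤ 2 * |F| + |E| := by
      refine (abs_sub _ _).trans ?_
      rw [abs_mul, abs_of_nonneg (by linarith : 0 ≤ x)]
      gcongr
    rw [← abs_mul, h1, abs_mul]
    have h2 : |(x + p3) * (x + p4)| ≤ 16 := by
      rw [abs_of_nonneg (by positivity)]
      calc _ ≤ (2 + 2 : ℝ) * (2 + 2) := by gcongr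
        _ = 16 := by norm_num
    calc _ ≤ (2 * |F| + |E|) * 16 := by gcongr
      _ = _ := by ring
  have hX1 := hX p1 ha ha2 (by rw [hF, hE]; ring)
  have hX2 := hX p2 hb hb2 (by rw [hF, hE]; ring)
  have hY : |p1 ^ 2 + p2 ^ 2 - p3 ^ 2 - p4 ^ 2| ≤ 8 * |F| + 2 * |E| := by
    have hid : p1 ^ 2 + p2 ^ 2 - p3 ^ 2 - p4 ^ 2 = (p1 + p2 + p3 + p4) * F - 2 * E := by
      rw [hF, hE]
      ring
    rw [hid]
    refine (abs_sub _ _).trans ?_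
    rw [abs_mul, abs_mul, abs_two, abs_of_nonneg (by positivity : 0 ≤ p1 + p2 + p3 + p4)]
    have : p1 + p2 + p3 + p4 ≤ 8 := by linarith
    gcongr
  have hQ0 := abs_nonneg ((P - κ ^ 2 * F) / s)
  have hF0 := abs_nonneg F
  have hs1' : 0 < s1 := h0.trans_le h1
  calc _ ≤ 8 * |F| + 2 * |E| + 16 * (2 * |F| + |E|) + 16 * (2 * |F| + |E|) :=
        add_le_add (add_le_add hY hX1) hX2
    _ ≤ 208 * |F| + 544 * |P| := by linarith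
    _ ≤ 752 * |F| + 544 * (s1 * |(P - κ ^ 2 * F) / s|) := by linarith
    _ ≤ _ := by
        have e1 : 0 ≤ s1 * |F| := by positivity
        linarith

theorem alg_upper (s0 s1 : ℝ) (h0 : 0 < s0) (h1 : s0 ≤ s1) : ∃ C : ℝ, 0 < C ∧
    ∀ κ s p1 p2 p3 p4 : ℝ, 0 < κ → κ ≤ 1 → s0 ≤ s → s ≤ s1 →
    1 / 2 ≤ p1 → p1 ≤ 2 → 1 / 2 ≤ p2 → p2 ≤ 2 → 1 / 2 ≤ p3 → p3 ≤ 2 → 1 / 2 ≤ p4 → p4 ≤ 2 →
    ∀ l : ℕ, l ≤ 3 →
    |((1 - κ ^ 2 * p1 ^ 2) / s) ^ l * p1 / p1 ^ (2 * l) +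
      ((1 - κ ^ 2 * p2 ^ 2) / s) ^ l * p2 / p2 ^ (2 * l) -
      ((1 - κ ^ 2 * p3 ^ 2) / s) ^ l * p3 / p3 ^ (2 * l) -
      ((1 - κ ^ 2 * p4 ^ 2) / s) ^ l * p4 / p4 ^ (2 * l)| ≤
    C * (|p1 ^ 2 + p2 ^ 2 - p3 ^ 2 - p4 ^ 2| + |p1 ^ 2 - p3 ^ 2| * |p1 ^ 2 - p4 ^ 2| +
        |p2 ^ 2 - p3 ^ 2| * |p2 ^ 2 - p4 ^ 2|) := by
  refine ⟨7 * 700000 * (1 + 1 / s0) ^ 3, by positivity, ?_⟩
  intro κ s p1 p2 p3 p4 hκ hκ1 hs0 hs1 ha ha2 hb hb2 hc hc2 hd hd2 l hl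
  have hs : 0 < s := h0.trans_le hs0
  have hp1 : 0 < p1 := by linarith
  have hp2 : 0 < p2 := by linarith
  have hp3 : 0 < p3 := by linarith
  have hp4 : 0 < p4 := by linarith
  obtain ⟨W, hW⟩ : ∃ W : ℝ, W = |p1 + p2 - p3 - p4| + |p1 * p2 - p3 * p4| := ⟨_, rfl⟩
  have hW0 : 0 ≤ W := by rw [hW]; positivity
  have hFE := hal_FE p1 p2 p3 p4 ha ha2 hb hb2 hc hd
  rw [← hW] at hFE
  obtain ⟨hS, hT⟩ := hal_inv p1 p2 p3 p4 ha hb hc hc2 hd hd2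
  rw [← hW] at hS hT
  have hi : ∀ x : ℝ, 1 / 2 ≤ x → 0 ≤ x⁻¹ ∧ x⁻¹ ≤ 2 := by
    intro x hx
    have hx0 : 0 < x := by linarith
    refine ⟨by positivity, ?_⟩
    rw [inv_le_comm₀ hx0 (by norm_num)]
    linarith
  have h3 := hal_cube p1⁻¹ p2⁻¹ p3⁻¹ p4⁻¹ W (hi _ ha).1 (hi _ ha).2 (hi _ hb).1 (hi _ hb).2
    (hi _ hc).1 (hi _ hc).2 (hi _ hd).1 (hi _ hd).2 hS hT
  have h5 := hal_fifth p1⁻¹ p2⁻¹ p3⁻¹ p4⁻¹ W (hi _ ha).1 (hi _ ha).2 (hi _ hb).1 (hi _ hb).2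
    (hi _ hc).1 (hi _ hc).2 (hi _ hd).1 (hi _ hd).2 hS hT
  have hF : |p1 + p2 - p3 - p4| ≤ W := by
    rw [hW]
    linarith [abs_nonneg (p1 * p2 - p3 * p4)]
  obtain ⟨F, hF'⟩ : ∃ F : ℝ, F = p1 + p2 - p3 - p4 := ⟨_, rfl⟩
  obtain ⟨P, hP'⟩ : ∃ P : ℝ, P = p1⁻¹ + p2⁻¹ - p3⁻¹ - p4⁻¹ := ⟨_, rfl⟩
  obtain ⟨T3, hT3⟩ : ∃ T : ℝ, T = p1⁻¹ ^ 3 + p2⁻¹ ^ 3 - p3⁻¹ ^ 3 - p4⁻¹ ^ 3 := ⟨_, rfl⟩
  obtain ⟨T5, hT5⟩ : ∃ T : ℝ, T = p1⁻¹ ^ 5 + p2⁻¹ ^ 5 - p3⁻¹ ^ 5 - p4⁻¹ ^ 5 := ⟨_, rfl⟩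
  rw [← hF'] at hF
  rw [← hP'] at hS
  rw [← hT3] at h3
  rw [← hT5] at h5
  obtain ⟨k, hk⟩ : ∃ k : ℝ, k = κ ^ 2 := ⟨_, rfl⟩
  have hk0 : 0 ≤ k := by rw [hk]; positivity
  have hk1 : k ≤ 1 := by rw [hk]; exact pow_le_one₀ hκ.le hκ1
  obtain ⟨A, hA⟩ : ∃ A : ℝ, A = 1 + 1 / s0 := ⟨_, rfl⟩
  have hA1 : 1 ≤ A := by
    rw [hA]
    have : 0 < 1 / s0 := by positivity
    linarith
  have hsA : 1 / s ≤ A := by
    rw [hA]
    have : 1 / s ≤ 1 / s0 := one_div_le_one_div_of_le h0 hs0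
    linarith
  have hsi : 0 < 1 / s := by positivity
  have hfin : |((1 - κ ^ 2 * p1 ^ 2) / s) ^ l * p1 / p1 ^ (2 * l) +
      ((1 - κ ^ 2 * p2 ^ 2) / s) ^ l * p2 / p2 ^ (2 * l) -
      ((1 - κ ^ 2 * p3 ^ 2) / s) ^ l * p3 / p3 ^ (2 * l) -
      ((1 - κ ^ 2 * p4 ^ 2) / s) ^ l * p4 / p4 ^ (2 * l)| ≤ 700000 * A ^ 3 * W := by
    rw [← hk]
    have habs : ∀ c x b : ℝ, 0 ≤ c → |x| ≤ b → |c * x| ≤ c * b := by
      intro c x b hc hx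
      rw [abs_mul, abs_of_nonneg hc]
      gcongr
    have hk2 : 0 ≤ k ^ 2 ∧ k ^ 2 ≤ 1 := ⟨by positivity, pow_le_one₀ hk0 hk1⟩
    have hk3 : 0 ≤ k ^ 3 ∧ k ^ 3 ≤ 1 := ⟨by positivity, pow_le_one₀ hk0 hk1⟩
    have hA3 : 0 < A ^ 3 := by positivity
    have hl' : l = 0 ∨ l = 1 ∨ l = 2 ∨ l = 3 := by omega
    rcases hl' with rfl | rfl | rfl | rfl
    · have hid : ((1 - k * p1 ^ 2) / s) ^ 0 * p1 / p1 ^ (2 * 0) +
          ((1 - k * p2 ^ 2) / s) ^ 0 * p2 / p2 ^ (2 * 0) -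
          ((1 - k * p3 ^ 2) / s) ^ 0 * p3 / p3 ^ (2 * 0) -
          ((1 - k * p4 ^ 2) / s) ^ 0 * p4 / p4 ^ (2 * 0) = F := by
        rw [hF']
        simp
      rw [hid]
      have h1 : 1 ≤ A ^ 3 := one_le_pow₀ hA1
      exact hF.trans (le_mul_of_one_le_left hW0 (by linarith))
    · have hid : ((1 - k * p1 ^ 2) / s) ^ 1 * p1 / p1 ^ (2 * 1) +
          ((1 - k * p2 ^ 2) / s) ^ 1 * p2 / p2 ^ (2 * 1) -
          ((1 - k * p3 ^ 2) / s) ^ 1 * p3 / p3 ^ (2 * 1) -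
          ((1 - k * p4 ^ 2) / s) ^ 1 * p4 / p4 ^ (2 * 1) = (1 / s) * (P - k * F) := by
        rw [hal_l1 _ _ _ hp1.ne' hs.ne', hal_l1 _ _ _ hp2.ne' hs.ne', hal_l1 _ _ _ hp3.ne' hs.ne',
          hal_l1 _ _ _ hp4.ne' hs.ne', hF', hP']
        ring
      rw [hid]
      have h1 : |P - k * F| ≤ 65 * W := by
        have e1 := habs k F W hk0 hF
        have e2 := abs_sub P (k * F)
        have e3 : k * W ≤ W := mul_le_of_le_one_left hW0 hk1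
        linarith
      have h2 : |(1 / s) * (P - k * F)| ≤ A ^ 3 * (65 * W) := by
        rw [abs_mul, abs_of_pos hsi]
        have : 1 / s ≤ A ^ 3 := hsA.trans (le_self_pow₀ hA1 (by norm_num))
        gcongr
      linarith [mul_nonneg hA3.le hW0]
    · have hid : ((1 - k * p1 ^ 2) / s) ^ 2 * p1 / p1 ^ (2 * 2) +
          ((1 - k * p2 ^ 2) / s) ^ 2 * p2 / p2 ^ (2 * 2) -
          ((1 - k * p3 ^ 2) / s) ^ 2 * p3 / p3 ^ (2 * 2) -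
          ((1 - k * p4 ^ 2) / s) ^ 2 * p4 / p4 ^ (2 * 2)
          = (1 / s) ^ 2 * (T3 - 2 * (k * P) + k ^ 2 * F) := by
        rw [hal_l2 _ _ _ hp1.ne' hs.ne', hal_l2 _ _ _ hp2.ne' hs.ne', hal_l2 _ _ _ hp3.ne' hs.ne',
          hal_l2 _ _ _ hp4.ne' hs.ne', hF', hP', hT3]
        ring
      rw [hid]
      have h1 : |T3 - 2 * (k * P) + k ^ 2 * F| ≤ 5000 * W := by
        have e1 := habs k P _ hk0 hS
        have e2 := habs (k ^ 2) F W hk2.1 hF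
        have e3 : k * (64 * W) ≤ 64 * W := mul_le_of_le_one_left (by positivity) hk1
        have e4 : k ^ 2 * W ≤ W := mul_le_of_le_one_left hW0 hk2.2
        rw [abs_le] at e1 e2 h3 ⊢
        constructor <;> linarith
      have h2 : |(1 / s) ^ 2 * (T3 - 2 * (k * P) + k ^ 2 * F)| ≤ A ^ 3 * (5000 * W) := by
        rw [abs_mul, abs_of_pos (by positivity : 0 < (1 / s) ^ 2)]
        have : (1 / s) ^ 2 ≤ A ^ 3 := by
          calc (1 / s) ^ 2 ≤ A ^ 2 := by gcongr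
            _ ≤ A ^ 3 := pow_le_pow_right₀ hA1 (by norm_num)
        gcongr
      linarith [mul_nonneg hA3.le hW0]
    · have hid : ((1 - k * p1 ^ 2) / s) ^ 3 * p1 / p1 ^ (2 * 3) +
          ((1 - k * p2 ^ 2) / s) ^ 3 * p2 / p2 ^ (2 * 3) -
          ((1 - k * p3 ^ 2) / s) ^ 3 * p3 / p3 ^ (2 * 3) -
          ((1 - k * p4 ^ 2) / s) ^ 3 * p4 / p4 ^ (2 * 3)
          = (1 / s) ^ 3 * (T5 - 3 * (k * T3) + 3 * (k ^ 2 * P) - k ^ 3 * F) := by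
        rw [hal_l3 _ _ _ hp1.ne' hs.ne', hal_l3 _ _ _ hp2.ne' hs.ne', hal_l3 _ _ _ hp3.ne' hs.ne',
          hal_l3 _ _ _ hp4.ne' hs.ne', hF', hP', hT3, hT5]
        ring
      rw [hid]
      have h1 : |T5 - 3 * (k * T3) + 3 * (k ^ 2 * P) - k ^ 3 * F| ≤ 700000 * W := by
        have e1 := habs k T3 _ hk0 h3
        have e2 := habs (k ^ 2) P _ hk2.1 hS
        have e3 := habs (k ^ 3) F W hk3.1 hF
        have e4 : k * (4032 * W) ≤ 4032 * W := mul_le_of_le_one_left (by positivity) hk1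
        have e5 : k ^ 2 * (64 * W) ≤ 64 * W := mul_le_of_le_one_left (by positivity) hk2.2
        have e6 : k ^ 3 * W ≤ W := mul_le_of_le_one_left hW0 hk3.2
        rw [abs_le] at e1 e2 e3 h5 ⊢
        constructor <;> linarith
      have h2 : |(1 / s) ^ 3 * (T5 - 3 * (k * T3) + 3 * (k ^ 2 * P) - k ^ 3 * F)|
          ≤ A ^ 3 * (700000 * W) := by
        rw [abs_mul, abs_of_pos (by positivity : 0 < (1 / s) ^ 3)]
        have : (1 / s) ^ 3 ≤ A ^ 3 := by gcongr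
        gcongr
      linarith
  refine hfin.trans ?_
  rw [← hA]
  have hA3 : 0 ≤ 700000 * A ^ 3 := by positivity
  calc 700000 * A ^ 3 * W ≤ 700000 * A ^ 3 * (7 * _) := mul_le_mul_of_nonneg_left hFE hA3
    _ = _ := by ring

end Pool.Agent.MST
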