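import Pool.Agent.MST.Defs

namespace Pool.Agent.MST

open MeasureTheory Set Pool.Agent.MP_6cbfb8_an
open scoped ENNReal Real

/-- The transition function. -/
noncomputable def hdy_th (v : ℝ) : ℝ := Real.smoothTransition ((4 * v - 1) / 3)

theorem hdy_th_zero {v : ℝ} (h : v ≤ 1 / 4) : hdy_th v = 0 :=
  Real.smoothTransition.zero_of_nonpos (by linarith)

theorem hdy_th_one {v : ℝ} (h : 1 ≤ v) : hdy_th v = 1 :=
  Real.smoothTransition.one_of_one_le (by linarith)

theorem hdy_th_contDiff : ContDiff ℝ 2 hdy_th := by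
  have h : ContDiff ℝ ((2 : ℕ∞) : WithTop ℕ∞) Real.smoothTransition :=
    Real.smoothTransition.contDiff
  have h2 : ContDiff ℝ ((2 : ℕ∞) : WithTop ℕ∞) (fun v : ℝ => (4 * v - 1) / 3) := by fun_prop
  exact h.comp h2

/-- The cut-off function. -/
noncomputable def hdy_a (v : ℝ) : ℝ := (hdy_th v - hdy_th (v / 4)) / √v

theorem hdy_a_zero {v : ℝ} (h : v ≤ 1 / 4 ∨ 4 ≤ v) : hdy_a v = 0 := by
  unfold hdy_a
  rcases h with h | h
  · rw [hdy_th_zero h, hdy_th_zero (v := v / 4) (by linarith), sub_zero, zero_div]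
  · rw [hdy_th_one (v := v) (by linarith), hdy_th_one (v := v / 4) (by linarith), sub_self,
      zero_div]

theorem hdy_a_contDiff : ContDiff ℝ 2 hdy_a := by
  rw [contDiff_iff_contDiffAt]
  intro v
  rcases lt_or_ge v (1 / 4) with h | h
  · have h1 : hdy_a =ᶠ[nhds v] fun _ => (0 : ℝ) := by
      filter_upwards [Iio_mem_nhds h] with w hw
      exact hdy_a_zero (Or.inl (le_of_lt hw))
    exact contDiffAt_const.congr_of_eventuallyEq h1
  · have hv : (0 : ℝ) < v := by linarith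
    have h1 : ContDiffAt ℝ 2 (fun w : ℝ => hdy_th w - hdy_th (w / 4)) v := by
      have h2 : ContDiff ℝ 2 (fun w : ℝ => w / 4) := by fun_prop
      exact (hdy_th_contDiff.sub (hdy_th_contDiff.comp h2)).contDiffAt
    have h3 : ContDiffAt ℝ 2 (fun w : ℝ => √w) v := Real.contDiffAt_sqrt hv.ne'
    exact h1.div h3 (Real.sqrt_ne_zero'.2 hv)

theorem hdy_term {v : ℝ} (k : ℕ) :
    (2 : ℝ) ^ k * hdy_a (4 ^ k * v) =
      hdy_th (4 ^ (k + 1) * v / 4) / √v - hdy_th (4 ^ k * v / 4) / √v := by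
  have h2 : √((4 : ℝ) ^ k * v) = 2 ^ k * √v := by
    rw [Real.sqrt_mul (by positivity)]
    congr 1
    have h3 : ((4 : ℝ) ^ k) = (2 ^ k) ^ 2 := by
      rw [← pow_mul, mul_comm, pow_mul]
      norm_num
    rw [h3, Real.sqrt_sq (by positivity)]
  have h4 : (4 : ℝ) ^ (k + 1) * v / 4 = 4 ^ k * v := by
    rw [pow_succ]
    ring
  have h5 : ((2 : ℝ) ^ k) ≠ 0 := by positivity
  unfold hdy_a
  rw [h4, h2, ← sub_div, mul_div_assoc', mul_div_mul_left _ _ h5]

/-
ROW DY (0.5 h). Dyadic decomposition of 1/sqrt v.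
theta v := Real.smoothTransition ((4 v - 1)/3): C^infinity, 0 for v <= 1/4, 1 for v >= 1.
chi v := theta v - theta (v/4): 0 for v <= 1/4 and for v >= 4 (then v/4 >= 1). a v := chi v / sqrt v.
ContDiff: on {v < 1/4} a is 0 (locally); on {v > 0} a is a quotient of smooth functions, sqrt v ≠ 0
(Real.contDiffAt_sqrt); every point lies in one of the two open sets; 2 ≤ ∞.
HasSum: 2^k a(4^k v) = chi(4^k v)/sqrt v as sqrt(4^k v) = 2^k sqrt v. Partial sums telescope:
sum_{k<K} chi(4^k v) = theta(4^(K-1) v) - theta(v/4) and theta(v/4) = 0 for v ≤ 1; only finitely many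
terms are nonzero (4^k v ≥ 4 for large k), so use hasSum_sum_of_ne_finset_zero, or
the partial sums are eventually constant = 1 and the terms are eventually zero.
-/
theorem dyadic : ∃ a : ℝ → ℝ, Cut a ∧ ∀ v, 0 < v → v ≤ 1 →
    HasSum (fun k : ℕ => (2:ℝ) ^ k * a (4 ^ k * v)) (1 / √v) := by
  refine ⟨hdy_a, ⟨hdy_a_contDiff, fun v hv => hdy_a_zero hv⟩, ?_⟩
  intro v hv hv1
  obtain ⟨N, hN⟩ := pow_unbounded_of_one_lt (4 / v) (show (1 : ℝ) < 4 by norm_num)
  have hN' : ∀ k : ℕ, N ≤ k → 4 ≤ (4 : ℝ) ^ k * v := by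
    intro k hk
    have h1 : (4 : ℝ) ^ N ≤ 4 ^ k := pow_le_pow_right₀ (by norm_num) hk
    have h2 : 4 / v ≤ (4 : ℝ) ^ k := hN.le.trans h1
    exact (div_le_iff₀ hv).1 h2
  have hsum : ∑ k ∈ Finset.range N, (2 : ℝ) ^ k * hdy_a (4 ^ k * v) = 1 / √v := by
    rw [Finset.sum_congr rfl (fun k _ => hdy_term (v := v) k),
      Finset.sum_range_sub (fun k : ℕ => hdy_th (4 ^ k * v / 4) / √v) N]
    have h1 : hdy_th ((4 : ℝ) ^ N * v / 4) = 1 := hdy_th_one (by linarith [hN' N le_rfl])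
    have h2 : hdy_th ((4 : ℝ) ^ 0 * v / 4) = 0 := by
      rw [pow_zero, one_mul]
      exact hdy_th_zero (by linarith)
    simp only [h1, h2]
    rw [zero_div, sub_zero]
  rw [← hsum]
  apply hasSum_sum_of_ne_finset_zero
  intro k hk
  have hk' : N ≤ k := by
    rw [Finset.mem_range] at hk
    omega
  rw [hdy_a_zero (Or.inr (hN' k hk')), mul_zero]

end Pool.Agent.MST
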