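import Pool.Agent.MST.CH
import Pool.Agent.MST.DY

namespace Pool.Agent.MST

open MeasureTheory Set Pool.Agent.MP_6cbfb8_an
open scoped ENNReal Real

theorem hss_ex_add (b c : ℝ) : ex (b + c) = ex b * ex c := by
  unfold ex
  rw [← Complex.exp_add]
  congr 1
  push_cast
  ring

theorem hss_norm_ex (b : ℝ) : ‖ex b‖ = 1 := by
  unfold ex
  exact Complex.norm_exp_ofReal_mul_I _

theorem hss_cont_ex : Continuous ex := by
  unfold ex
  fun_prop

theorem hss_fst (u : E 2) (h : ℝ) : (fstE (k := 2) (l := 1) (join u h) : E 2) = u := by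
  ext i
  exact join_castSucc u h i

theorem hss_cont_fst : Continuous fun x : E 3 => (fstE (k := 2) (l := 1) x : E 2) := by
  unfold fstE
  refine (PiLp.continuous_toLp 2 _).comp ?_
  fun_prop

theorem hss_bdd (a : ℝ → ℝ) (ha : Cut a) : ∃ A : ℝ, 0 ≤ A ∧ ∀ v, |a v| ≤ A := by
  obtain ⟨A, hA⟩ := (isCompact_Icc (a := (1 / 4 : ℝ)) (b := 4)).exists_bound_of_continuousOn
    (ha.1.continuous.continuousOn)
  refine ⟨max A 0, le_max_right _ _, fun v => ?_⟩
  by_cases h1 : v ≤ 1 / 4 ∨ 4 ≤ v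
  · rw [ha.2 v h1, abs_zero]
    exact le_max_right _ _
  · rw [not_or, not_le, not_le] at h1
    exact (hA v ⟨h1.1.le, h1.2.le⟩).trans (le_max_left _ _)

/-- at most two dyadic scales contribute -/
theorem hss_count (a : ℝ → ℝ) (ha : Cut a) {A : ℝ} (hA0 : 0 ≤ A) (hA : ∀ v, |a v| ≤ A) {v : ℝ}
    (hv : 0 < v) (s : Finset ℕ) : ∑ k ∈ s, (2:ℝ) ^ k * |a (4 ^ k * v)| ≤ 4 * A * (1 / √v) := by
  have hsv : 0 < √v := Real.sqrt_pos.2 hv
  have hex : ∃ n : ℕ, 1 / 4 < (4:ℝ) ^ n * v := by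
    obtain ⟨n, hn⟩ := pow_unbounded_of_one_lt (1 / 4 / v) (by norm_num : (1:ℝ) < 4)
    exact ⟨n, by rwa [div_lt_iff₀ hv] at hn⟩
  obtain ⟨N, hN1, hN2⟩ : ∃ N : ℕ, 1 / 4 < (4:ℝ) ^ N * v ∧ ∀ k < N, (4:ℝ) ^ k * v ≤ 1 / 4 :=
    ⟨Nat.find hex, Nat.find_spec hex, fun k hk => not_lt.1 (Nat.find_min hex hk)⟩
  have hterm : ∀ k : ℕ, (2:ℝ) ^ k * |a (4 ^ k * v)| ≤
      if k ∈ ({N, N + 1} : Finset ℕ) then 2 * A * (1 / √v) else 0 := by
    intro k
    by_cases h0 : a (4 ^ k * v) = 0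
    · rw [h0, abs_zero, mul_zero]
      split_ifs
      · positivity
      · exact le_rfl
    have h1 : ¬ ((4:ℝ) ^ k * v ≤ 1 / 4 ∨ 4 ≤ (4:ℝ) ^ k * v) := fun h => h0 (ha.2 _ h)
    rw [not_or, not_le, not_le] at h1
    have h2 : k ∈ ({N, N + 1} : Finset ℕ) := by
      rw [Finset.mem_insert, Finset.mem_singleton]
      by_contra h3
      rw [not_or] at h3
      rcases lt_or_ge k N with h4 | h4
      · exact absurd (hN2 k h4) (not_le.2 h1.1)
      · have h5 : N + 2 ≤ k := by omega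
        have h6 : (4:ℝ) ^ (N + 2) ≤ 4 ^ k := pow_le_pow_right₀ (by norm_num) h5
        have h7 : (4:ℝ) ^ (N + 2) * v ≤ 4 ^ k * v := by gcongr
        have h8 : (4:ℝ) ^ (N + 2) * v = 16 * (4 ^ N * v) := by ring
        linarith [h1.2]
    rw [if_pos h2]
    have h3 : (2:ℝ) ^ k ≤ 2 * (1 / √v) := by
      have h4 : ((2:ℝ) ^ k * √v) ^ 2 ≤ 2 ^ 2 := by
        rw [mul_pow, Real.sq_sqrt hv.le, ← pow_mul, mul_comm k 2, pow_mul]
        norm_num
        linarith [h1.2]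
      have h5 := abs_le_of_sq_le_sq h4 (by norm_num)
      rw [mul_one_div, le_div_iff₀ hsv]
      exact (le_abs_self _).trans h5
    calc (2:ℝ) ^ k * |a (4 ^ k * v)| ≤ 2 * (1 / √v) * A :=
          mul_le_mul h3 (hA _) (abs_nonneg _) (by positivity)
      _ = 2 * A * (1 / √v) := by ring
  calc ∑ k ∈ s, (2:ℝ) ^ k * |a (4 ^ k * v)|
      ≤ ∑ k ∈ s, if k ∈ ({N, N + 1} : Finset ℕ) then 2 * A * (1 / √v) else 0 :=
        Finset.sum_le_sum fun k _ => hterm k
    _ = ∑ k ∈ s.filter (fun k => k ∈ ({N, N + 1} : Finset ℕ)), 2 * A * (1 / √v) := by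
        rw [Finset.sum_filter]
    _ ≤ ∑ k ∈ ({N, N + 1} : Finset ℕ), 2 * A * (1 / √v) := by
        refine Finset.sum_le_sum_of_subset_of_nonneg ?_ fun _ _ _ => by positivity
        intro k hk
        exact (Finset.mem_filter.1 hk).2
    _ ≤ 4 * A * (1 / √v) := by
        rw [Finset.sum_const, nsmul_eq_mul]
        have h1 : ((({N, N + 1} : Finset ℕ).card : ℕ) : ℝ) ≤ 2 := by
          exact_mod_cast Finset.card_le_two
        calc ((({N, N + 1} : Finset ℕ).card : ℕ) : ℝ) * (2 * A * (1 / √v)) ≤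
            2 * (2 * A * (1 / √v)) := by gcongr
          _ = 4 * A * (1 / √v) := by ring

/-- the strip integrand, pointwise -/
theorem hss_term (a : ℝ → ℝ) (s t ρ : ℝ) (k : ℕ) : (2:ℂ) ^ k * amp a ((1 / 2) ^ k) s t ρ =
    (((2:ℝ) ^ k * a (4 ^ k * (1 - s * ρ)) : ℝ) : ℂ) * ex (t * √(1 - s * ρ)) := by
  have h1 : vv ((1 / 2) ^ k) s ρ = 4 ^ k * (1 - s * ρ) := by
    unfold vv
    have h2 : (((1:ℝ) / 2) ^ k) ^ 2 = (4 ^ k)⁻¹ := by
      rw [← pow_mul, mul_comm k 2, pow_mul, ← inv_pow]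
      norm_num
    rw [h2, div_inv_eq_mul, mul_comm]
  have h3 : ((1:ℝ) / 2) ^ k * √(4 ^ k * (1 - s * ρ)) = √(1 - s * ρ) := by
    rw [Real.sqrt_mul (by positivity)]
    have h4 : √((4:ℝ) ^ k) = 2 ^ k := by
      rw [show (4:ℝ) ^ k = (2 ^ k) ^ 2 by rw [← pow_mul, mul_comm k 2, pow_mul]; norm_num]
      exact Real.sqrt_sq (by positivity)
    rw [h4, ← mul_assoc, ← mul_pow]
    norm_num
  unfold amp
  rw [h1, h3]
  push_cast
  ring

/-
ROW SS (1.5 h). The Fourier transform as a sum over strips.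
`chart` with n = 1, g x = G (r • fstE x) (fstE (join u h) = u) gives
extn (up r G) (join X t) = ∫ u in ball 0 1, G (r•u) * (1/√(1-‖u‖²)) * ex (inner u X + √(1-‖u‖²) t).
Substitute u = r⁻¹ • w (Measure.setIntegral_comp_smul / integral_comp_inv_smul, finrank (E 2) = 2): with s = (r²)⁻¹,
= (r²)⁻¹ ∫ w in {s‖w‖² < 1}, G w (1/√(1-s‖w‖²)) ex (inner w (r⁻¹•X) + √(1-s‖w‖²) t).
For s‖w‖² < 1, v = 1-s‖w‖² ∈ (0,1]: 1/√v = Σ_k 2^k a(4^k v), with κ = (1/2)^k: vv κ s ρ = 4^k v, κ √(vv κ s ρ) = √v.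
For s‖w‖² ≥ 1: vv ≤ 0 and a = 0. So the integrand is Σ_k 2^k G w amp a κ_k s t (‖w‖²) ex (inner w x), x = r⁻¹•X.
|a| ≤ A and supp give Σ_k |2^k a(4^k v)| ≤ A' /√v (at most two or three k contribute, with 2^k ≤ 2/√v), so
Σ ∫ ‖·‖ < ∞ by integrable_height (n = 1) rescaled: hasSum_integral_of_summable_integral_norm (or
integral_tsum). Then enorm of the sum ≤ tsum of enorms.
-/
theorem strip_sum (a : ℝ → ℝ) (ha : Cut a)
    (hs : ∀ v, 0 < v → v ≤ 1 → HasSum (fun k : ℕ => (2:ℝ) ^ k * a (4 ^ k * v)) (1 / √v))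
    (r : ℝ) (hr : 0 < r) (G : E 2 → ℂ) (hG : Measurable G) (hb : ∀ w, ‖G w‖ ≤ 1) (X : E 2)
    (t : ℝ) :
    ‖extn (up r G) (join X t)‖ₑ ≤ ENNReal.ofReal (r ^ 2)⁻¹ *
      ∑' k : ℕ, 2 ^ k * ‖op a ((1 / 2) ^ k) (r ^ 2)⁻¹ t G (r⁻¹ • X)‖ₑ := by
  obtain ⟨A, hA0, hA⟩ := hss_bdd a ha
  obtain ⟨s, hs'⟩ : ∃ s, s = (r ^ 2)⁻¹ := ⟨_, rfl⟩
  have hs0 : 0 < s := by rw [hs']; positivity
  obtain ⟨x, hx⟩ : ∃ x : E 2, x = r⁻¹ • X := ⟨_, rfl⟩
  have hr2 : r⁻¹ ^ 2 = s := by rw [hs', inv_pow]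
  -- the integrand over the unit ball
  obtain ⟨f, hf⟩ : ∃ f : E 2 → ℂ, f = (Metric.ball (0 : E 2) 1).indicator
      (fun u => G (r • u) * ((1 / √(1 - ‖u‖ ^ 2) : ℝ) : ℂ) *
        ex (inner ℝ u X + √(1 - ‖u‖ ^ 2) * t)) := ⟨_, rfl⟩
  have hchart : extn (up r G) (join X t) = ∫ u, f u := by
    have h1 := chart 1 (fun y => G (r • (fstE (k := 2) (l := 1) y : E 2)))
      (hG.comp (hss_cont_fst.const_smul r).measurable) (fun y => hb _) X t
    have h2 : extn (up r G) (join X t) = _ := h1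
    rw [h2, hf, integral_indicator measurableSet_ball]
    refine setIntegral_congr_fun measurableSet_ball fun u _ => ?_
    simp only [hss_fst]
  have hscale : ∫ u, f u = ((s : ℝ) : ℂ) * ∫ w, f (r⁻¹ • w) := by
    have h1 := Measure.integral_comp_inv_smul_of_nonneg (volume : Measure (E 2)) f hr.le
    rw [finrank_euclideanSpace_fin] at h1
    rw [h1, hs', Complex.real_smul, ← mul_assoc, ← Complex.ofReal_mul, inv_mul_cancel₀ (by positivity),
      Complex.ofReal_one, one_mul]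
  -- the terms
  obtain ⟨h, hh⟩ : ∃ h : ℕ → E 2 → ℂ, h = fun k w =>
      (2:ℂ) ^ k * (G w * amp a ((1 / 2) ^ k) s t (‖w‖ ^ 2) * ex (inner ℝ w x)) := ⟨_, rfl⟩
  have hterm : ∀ k w, h k w = (((2:ℝ) ^ k * a (4 ^ k * (1 - s * ‖w‖ ^ 2)) : ℝ) : ℂ) *
      (G w * ex (t * √(1 - s * ‖w‖ ^ 2)) * ex (inner ℝ w x)) := by
    intro k w
    have h1 := hss_term a s t (‖w‖ ^ 2) k
    have h2 : h k w = (2:ℂ) ^ k * (G w * amp a ((1 / 2) ^ k) s t (‖w‖ ^ 2) * ex (inner ℝ w x)) := by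
      rw [hh]
    rw [h2]
    linear_combination (G w * ex (inner ℝ w x)) * h1
  have hnormsq : ∀ w : E 2, ‖r⁻¹ • w‖ ^ 2 = s * ‖w‖ ^ 2 := by
    intro w
    rw [norm_smul, mul_pow, ← hr2]
    congr 1
    rw [Real.norm_eq_abs, sq_abs]
  have hball : ∀ w : E 2, r⁻¹ • w ∈ Metric.ball (0 : E 2) 1 ↔ s * ‖w‖ ^ 2 < 1 := by
    intro w
    rw [mem_ball_zero_iff, ← hnormsq]
    constructor
    · intro h1
      exact pow_lt_one₀ (norm_nonneg _) h1 two_ne_zero
    · intro h1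
      by_contra h2
      rw [not_lt] at h2
      exact absurd (one_le_pow₀ h2 (n := 2)) (not_le.2 h1)
  have hpt : ∀ w, HasSum (fun k => h k w) (f (r⁻¹ • w)) := by
    intro w
    by_cases hw : s * ‖w‖ ^ 2 < 1
    · have h1 : f (r⁻¹ • w) = ((1 / √(1 - s * ‖w‖ ^ 2) : ℝ) : ℂ) *
          (G w * ex (t * √(1 - s * ‖w‖ ^ 2)) * ex (inner ℝ w x)) := by
        rw [hf, indicator_of_mem ((hball w).2 hw), hnormsq, smul_smul, mul_inv_cancel₀ hr.ne',
          one_smul, hss_ex_add, hx, inner_smul_left, inner_smul_right]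
        simp only [map_inv₀, conj_trivial]
        rw [mul_comm (√(1 - s * ‖w‖ ^ 2)) t]
        ring
      rw [h1]
      have h2 := hs (1 - s * ‖w‖ ^ 2) (by linarith)
        (by have : 0 ≤ s * ‖w‖ ^ 2 := by positivity
            linarith)
      have h3 : HasSum (fun k : ℕ => (((2:ℝ) ^ k * a (4 ^ k * (1 - s * ‖w‖ ^ 2)) : ℝ) : ℂ))
          ((1 / √(1 - s * ‖w‖ ^ 2) : ℝ) : ℂ) := Complex.hasSum_ofReal.2 h2
      have h4 := h3.mul_right (G w * ex (t * √(1 - s * ‖w‖ ^ 2)) * ex (inner ℝ w x))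
      refine h4.congr_fun ?_
      intro k
      exact hterm k w
    · have h1 : f (r⁻¹ • w) = 0 := by
        rw [hf]
        exact indicator_of_notMem (fun h2 => hw ((hball w).1 h2)) _
      rw [h1]
      have h2 : ∀ k, h k w = 0 := by
        intro k
        rw [hterm, ha.2 _ (Or.inl ?_)]
        · simp
        · have h3 : 1 - s * ‖w‖ ^ 2 ≤ 0 := by linarith [not_lt.1 hw]
          have h4 : (4:ℝ) ^ k * (1 - s * ‖w‖ ^ 2) ≤ 0 :=
            mul_nonpos_of_nonneg_of_nonpos (by positivity) h3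
          linarith
      have h3 : (fun k => h k w) = fun _ => 0 := funext h2
      rw [h3]
      exact hasSum_zero
  -- the majorant
  obtain ⟨D, hD⟩ : ∃ D : E 2 → ℝ, D = fun w => (Metric.ball (0 : E 2) 1).indicator
      (fun u => 1 / √(1 - ‖u‖ ^ 2)) (r⁻¹ • w) := ⟨_, rfl⟩
  have hDint : Integrable D := by
    have h1 : Integrable ((Metric.ball (0 : E 2) 1).indicator
      (fun u : E 2 => 1 / √(1 - ‖u‖ ^ 2))) :=
      (integrable_height 1).integrable_indicator measurableSet_ball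
    rw [hD]
    exact h1.comp_smul (inv_ne_zero hr.ne')
  have hnorm : ∀ k w, ‖h k w‖ ≤ (2:ℝ) ^ k * |a (4 ^ k * (1 - s * ‖w‖ ^ 2))| := by
    intro k w
    rw [hterm, norm_mul, norm_mul, norm_mul, hss_norm_ex, hss_norm_ex, mul_one, mul_one,
      Complex.norm_real, Real.norm_eq_abs, abs_mul, abs_of_nonneg (by positivity : (0:ℝ) ≤ 2 ^ k)]
    exact mul_le_of_le_one_right (by positivity) (hb w)
  have hmaj : ∀ (S : Finset ℕ) (w : E 2), ∑ k ∈ S, ‖h k w‖ ≤ 4 * A * D w := by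
    intro S w
    by_cases hw : s * ‖w‖ ^ 2 < 1
    · have h1 : D w = 1 / √(1 - s * ‖w‖ ^ 2) := by
        rw [hD]
        simp only
        rw [indicator_of_mem ((hball w).2 hw), hnormsq]
      rw [h1]
      exact (Finset.sum_le_sum fun k _ => hnorm k w).trans
        (hss_count a ha hA0 hA (by linarith) S)
    · have h2 : ∀ k ∈ S, ‖h k w‖ ≤ 0 := by
        intro k _
        refine (hnorm k w).trans ?_
        rw [ha.2 _ (Or.inl ?_)]
        · simp
        · have h3 : 1 - s * ‖w‖ ^ 2 ≤ 0 := by linarith [not_lt.1 hw]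
          have h4 : (4:ℝ) ^ k * (1 - s * ‖w‖ ^ 2) ≤ 0 :=
            mul_nonpos_of_nonneg_of_nonpos (by positivity) h3
          linarith
      have h3 : 0 ≤ D w := by
        rw [hD]
        exact indicator_nonneg (fun u _ => by positivity) _
      exact (Finset.sum_nonpos h2).trans (by positivity)
  have hmeas : ∀ k, AEStronglyMeasurable (h k) volume := by
    intro k
    have h1 : h k = fun w => (((2:ℝ) ^ k * a (4 ^ k * (1 - s * ‖w‖ ^ 2)) : ℝ) : ℂ) *
      (G w * ex (t * √(1 - s * ‖w‖ ^ 2)) * ex (inner ℝ w x)) := funext (hterm k)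
    rw [h1]
    have hac := ha.1.continuous
    have hex := hss_cont_ex
    have c1 : Continuous fun w : E 2 => (((2:ℝ) ^ k * a (4 ^ k * (1 - s * ‖w‖ ^ 2)) : ℝ) : ℂ) := by
      fun_prop
    have c2 : Continuous fun w : E 2 => ex (t * √(1 - s * ‖w‖ ^ 2)) := by
      fun_prop
    have c3 : Continuous fun w : E 2 => ex (inner ℝ w x) := by
      fun_prop
    exact (c1.measurable.mul ((hG.mul c2.measurable).mul c3.measurable)).aestronglyMeasurable
  have hint : ∀ k, Integrable (h k) := by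
    intro k
    refine Integrable.mono' (hDint.const_mul (4 * A)) (hmeas k) (Filter.Eventually.of_forall fun w => ?_)
    have := hmaj {k} w
    rwa [Finset.sum_singleton] at this
  have hsumm : Summable fun k => ∫ w, ‖h k w‖ := by
    refine summable_of_sum_le (c := ∫ w, 4 * A * D w)
      (fun k => integral_nonneg fun w => norm_nonneg _) fun S => ?_
    rw [← integral_finsetSum S fun k _ => (hint k).norm]
    exact integral_mono (integrable_finsetSum S fun k _ => (hint k).norm) (hDint.const_mul (4 * A))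
      (hmaj S)
  have hsum := hasSum_integral_of_summable_integral_norm hint hsumm
  have htot : ∫ w, f (r⁻¹ • w) = ∑' k, ∫ w, h k w := by
    rw [hsum.tsum_eq]
    exact integral_congr_ae (Filter.Eventually.of_forall fun w => (hpt w).tsum_eq.symm)
  have hop : ∀ k : ℕ, ∫ w, h k w = (2:ℂ) ^ k * op a ((1 / 2) ^ k) s t G x := by
    intro k
    unfold op
    rw [hh, ← integral_const_mul]
  have hsn : Summable fun k => ‖∫ w, h k w‖ :=
    Summable.of_nonneg_of_le (fun k => norm_nonneg _) (fun k => norm_integral_le_integral_norm _) hsumm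
  have hfin : ‖∑' k, ∫ w, h k w‖ₑ ≤ ∑' k : ℕ, 2 ^ k * ‖op a ((1 / 2) ^ k) s t G x‖ₑ := by
    have h1 : ‖∑' k, ∫ w, h k w‖ₑ ≤ ∑' k, ‖∫ w, h k w‖ₑ := by
      rw [← ofReal_norm]
      refine (ENNReal.ofReal_le_ofReal (norm_tsum_le_tsum_norm hsn)).trans ?_
      rw [ENNReal.ofReal_tsum_of_nonneg (fun k => norm_nonneg _) hsn]
      exact le_of_eq (tsum_congr fun k => ofReal_norm _)
    refine h1.trans (le_of_eq (tsum_congr fun k => ?_))
    rw [hop, enorm_mul, enorm_pow]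
    congr 2
    rw [← ofReal_norm]
    simp
  rw [hchart, hscale, enorm_mul, htot, ← hs', ← hx]
  refine mul_le_mul' (le_of_eq ?_) hfin
  rw [← ofReal_norm, Complex.norm_real, Real.norm_of_nonneg hs0.le]

end Pool.Agent.MST
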