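import Pool.Agent.MST.SL
import Pool.Agent.MST.SS

namespace Pool.Agent.MST

open MeasureTheory Set Pool.Agent.MP_6cbfb8_an
open scoped ENNReal Real

/-
ROW CO (1.5 h). Sum over the strips and change of variables r ↦ s = r⁻².
∫⁻ ξ ‖extn (up r G) ξ‖^p = ∫⁻ X ∫⁻ t ‖extn (up r G) (join X t)‖^p (`lintegral_join`). Insert strip_sum (a from `dyadic`)
and `tsum_rpow_le` (Planar.lean) with weights w_k = ofReal (2^(-η k)), η = ε/(2p):
 ‖·‖^p ≤ r^(-2p) (Σ w)^p Σ_k (2^k ‖op ... (r⁻¹X)‖)^p / w_k^p. Tonelli for the sum; X = r•x (factor r²: Measure.lintegral_comp_smul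
or lintegral_map with addHaar scaling). For fixed k:
 ∫⁻ r in Icc ra rb, Ψ((r²)⁻¹) ≤ C ∫⁻ s in Icc rb⁻² ra⁻², Ψ s (s = r⁻² is injective on [ra, rb], |ds/dr| = 2 r⁻³ ≥ 2 rb⁻³:
lintegral_image_eq_lintegral_abs_deriv_mul), Ψ s = ∫⁻ t ∫⁻ x ‖op a κ_k s t G x‖^p, and strip_Lp bounds it by
C κ_k^(p+ε); (2^k)^p κ_k^(p+ε) w_k^(-p) = 2^(-εk) 2^(ηkp) = 2^(-εk/2): geometric series.
-/

/-- the change of variables `s = r⁻²` -/
theorem hco_cov (Ψ : ℝ → ℝ≥0∞) (ra rb : ℝ) (h0 : 0 < ra) (h1 : ra < rb) :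
    ∫⁻ r in Icc ra rb, Ψ ((r ^ 2)⁻¹) ≤
      ENNReal.ofReal (rb ^ 3 / 2) * ∫⁻ s in Icc (rb ^ 2)⁻¹ (ra ^ 2)⁻¹, Ψ s := by
  set f : ℝ → ℝ := fun r => (r ^ 2)⁻¹ with hf
  set f' : ℝ → ℝ := fun r => -(2 * r) / (r ^ 2) ^ 2 with hf'
  have hd : ∀ x ∈ Icc ra rb, HasDerivWithinAt f (f' x) (Icc ra rb) x := by
    intro x hx
    have hx0 : x ≠ 0 := by linarith [hx.1]
    have h2 : HasDerivAt (fun r : ℝ => r ^ 2) (2 * x) x := by
      simpa using hasDerivAt_pow 2 x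
    exact (h2.inv (pow_ne_zero 2 hx0)).hasDerivWithinAt
  have hinj : InjOn f (Icc ra rb) := by
    intro x hx y hy hxy
    have hx0 : 0 < x := by linarith [hx.1]
    have hy0 : 0 < y := by linarith [hy.1]
    have h3 : x ^ 2 = y ^ 2 := inv_injective hxy
    exact (pow_left_inj₀ hx0.le hy0.le two_ne_zero).1 h3
  have himg : f '' Icc ra rb ⊆ Icc (rb ^ 2)⁻¹ (ra ^ 2)⁻¹ := by
    rintro _ ⟨x, hx, rfl⟩
    have hx0 : 0 < x := by linarith [hx.1]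
    have hrb : 0 < rb := h0.trans h1
    refine ⟨?_, ?_⟩
    · exact inv_anti₀ (by positivity) (pow_le_pow_left₀ hx0.le hx.2 2)
    · exact inv_anti₀ (by positivity) (pow_le_pow_left₀ h0.le hx.1 2)
  have hcv := lintegral_image_eq_lintegral_abs_deriv_mul measurableSet_Icc hd hinj Ψ
  calc ∫⁻ r in Icc ra rb, Ψ ((r ^ 2)⁻¹)
      ≤ ∫⁻ r in Icc ra rb, ENNReal.ofReal (rb ^ 3 / 2) *
          (ENNReal.ofReal |f' r| * Ψ (f r)) := by
        refine setLIntegral_mono' measurableSet_Icc fun r hr => ?_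
        have hr0 : 0 < r := by linarith [hr.1]
        have hrb : 0 < rb := h0.trans h1
        rw [← mul_assoc, ← ENNReal.ofReal_mul (by positivity)]
        have h4 : 1 ≤ rb ^ 3 / 2 * |f' r| := by
          have h5 : |f' r| = 2 / r ^ 3 := by
            rw [hf']
            simp only
            rw [abs_div, abs_neg, abs_of_pos (by positivity : (0:ℝ) < 2 * r),
              abs_of_pos (by positivity : (0:ℝ) < (r ^ 2) ^ 2)]
            field_simp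
          rw [h5]
          have h6 : r ^ 3 ≤ rb ^ 3 := pow_le_pow_left₀ hr0.le hr.2 3
          rw [div_mul_div_comm, le_div_iff₀ (by positivity)]
          linarith
        calc Ψ ((r ^ 2)⁻¹) = 1 * Ψ (f r) := by rw [one_mul]
          _ ≤ _ := by
              gcongr
              rw [← ENNReal.ofReal_one]
              exact ENNReal.ofReal_le_ofReal h4
    _ = ENNReal.ofReal (rb ^ 3 / 2) * ∫⁻ s in f '' Icc ra rb, Ψ s := by
        rw [lintegral_const_mul' _ _ ENNReal.ofReal_ne_top, ← hcv]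
    _ ≤ _ := by
        gcongr

/-- scaling in the plane -/
theorem hco_scale (F : E 2 → ℝ≥0∞) (hF : Measurable F) (r : ℝ) (hr : 0 < r) :
    ∫⁻ X : E 2, F (r⁻¹ • X) = ENNReal.ofReal (r ^ 2) * ∫⁻ x : E 2, F x := by
  have h1 : Measurable fun X : E 2 => r⁻¹ • X := measurable_const_smul _
  have h2 := Measure.map_addHaar_smul (volume : Measure (E 2)) (inv_ne_zero hr.ne')
  have h3 : ∫⁻ X : E 2, F (r⁻¹ • X) = ∫⁻ x, F x ∂(Measure.map (fun X : E 2 => r⁻¹ • X) volume) :=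
    (lintegral_map hF h1).symm
  rw [h3]
  have h4 : Measure.map (fun X : E 2 => r⁻¹ • X) volume =
      ENNReal.ofReal (r ^ 2) • (volume : Measure (E 2)) := by
    rw [h2, finrank_euclideanSpace_fin, inv_pow, inv_inv, abs_of_pos (by positivity)]
  rw [h4, lintegral_smul_measure, smul_eq_mul]

theorem hco_meas_up (r : ℝ) (G : E 2 → ℂ) (hG : Measurable G) : Measurable (up r G) := by
  unfold up
  have h1 : Continuous fun x : E 3 => (fstE (k := 2) (l := 1) x : E 2) := by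
    unfold fstE
    refine (PiLp.continuous_toLp 2 _).comp ?_
    fun_prop
  have h2 : Continuous fun x : E 3 => x (Fin.last 2) := by fun_prop
  refine Measurable.ite ?_ ?_ measurable_const
  · exact measurableSet_lt measurable_const h2.measurable
  · exact hG.comp (h1.const_smul r).measurable

/-- Tonelli and scaling -/
theorem hco_tonelli (Φ : ℕ → ℝ × E 2 → ℝ≥0∞) (hΦ : ∀ k, Measurable (Φ k)) (c : ℕ → ℝ≥0∞)
    (B : ℝ≥0∞) (r : ℝ) (hr : 0 < r) :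
    ∫⁻ X : E 2, ∫⁻ t : ℝ, B * ∑' k : ℕ, c k * Φ k (t, r⁻¹ • X) =
      B * ENNReal.ofReal (r ^ 2) * ∑' k : ℕ, c k * ∫⁻ t : ℝ, ∫⁻ x : E 2, Φ k (t, x) := by
  have hm1 : ∀ k : ℕ, Measurable fun q : E 2 × ℝ => Φ k (q.2, q.1) := fun k =>
    (hΦ k).comp measurable_swap
  have hms : ∀ k : ℕ, Measurable fun q : E 2 × ℝ => Φ k (q.2, r⁻¹ • q.1) := by
    intro k
    have h2 : Measurable fun q : E 2 × ℝ => (q.2, r⁻¹ • q.1) := by fun_prop
    exact (hΦ k).comp h2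
  have e1 : ∀ X : E 2, ∫⁻ t : ℝ, B * ∑' k : ℕ, c k * Φ k (t, r⁻¹ • X) =
      B * ∑' k : ℕ, c k * ∫⁻ t : ℝ, Φ k (t, r⁻¹ • X) := by
    intro X
    have hmX : ∀ k : ℕ, Measurable fun t : ℝ => Φ k (t, r⁻¹ • X) := fun k =>
      (hΦ k).comp measurable_prodMk_right
    rw [lintegral_const_mul _ (Measurable.tsum fun k => (hmX k).const_mul _),
      lintegral_tsum fun k => ((hmX k).const_mul _).aemeasurable]
    congr 2
    funext k
    rw [lintegral_const_mul _ (hmX k)]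
  simp_rw [e1]
  have hmi : ∀ k : ℕ, Measurable fun X : E 2 => ∫⁻ t : ℝ, Φ k (t, r⁻¹ • X) := fun k =>
    (hms k).lintegral_prod_right'
  rw [lintegral_const_mul _ (Measurable.tsum fun k => (hmi k).const_mul _),
    lintegral_tsum fun k => ((hmi k).const_mul _).aemeasurable, mul_assoc B,
    ← ENNReal.tsum_mul_left (a := ENNReal.ofReal (r ^ 2))]
  congr 1
  refine tsum_congr fun k => ?_
  rw [lintegral_const_mul _ (hmi k)]
  have h5 := hco_scale (fun x : E 2 => ∫⁻ t : ℝ, Φ k (t, x)) (hm1 k).lintegral_prod_right' r hr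
  rw [h5, lintegral_lintegral_swap (hm1 k).aemeasurable]
  ring

theorem hco_meas2 (Φ : ℝ × ℝ × E 2 → ℝ≥0∞) (hΦ : Measurable Φ) :
    Measurable fun s : ℝ => ∫⁻ t : ℝ, ∫⁻ x : E 2, Φ (s, t, x) := by
  have h4 : Measurable fun q : (ℝ × ℝ) × E 2 => (q.1.1, q.1.2, q.2) := by fun_prop
  have h3 : Measurable fun q : (ℝ × ℝ) × E 2 => Φ (q.1.1, q.1.2, q.2) := hΦ.comp h4
  have h5 : Measurable fun q : ℝ × ℝ => ∫⁻ x : E 2, Φ (q.1, q.2, x) := h3.lintegral_prod_right'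
  exact h5.lintegral_prod_right'

theorem hco_meas1 (Φ : ℝ × ℝ × E 2 → ℝ≥0∞) (hΦ : Measurable Φ) (s : ℝ) :
    Measurable fun q : ℝ × E 2 => Φ (s, q) :=
  hΦ.comp measurable_prodMk_left

/-- the estimate for fixed `r` -/
theorem hco_point (a : ℝ → ℝ) (ha : Cut a)
    (hs : ∀ v, 0 < v → v ≤ 1 → HasSum (fun k : ℕ => (2:ℝ) ^ k * a (4 ^ k * v)) (1 / √v))
    (p : ℝ) (hp : 0 < p) (w : ℕ → ℝ≥0∞) (hw0 : ∀ k, w k ≠ 0) (hwt : ∀ k, w k ≠ ∞)
    (r : ℝ) (hr : 0 < r) (G : E 2 → ℂ) (hG : Measurable G) (hb : ∀ v, ‖G v‖ ≤ 1) :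
    ∫⁻ ξ : E 3, ‖extn (up r G) ξ‖ₑ ^ p ≤
      ENNReal.ofReal (r ^ 2)⁻¹ ^ p * (∑' k, w k) ^ p * ENNReal.ofReal (r ^ 2) *
        ∑' k : ℕ, (2 ^ k) ^ p / w k ^ p *
          ∫⁻ t : ℝ, ∫⁻ x : E 2, ‖op a ((1 / 2) ^ k) (r ^ 2)⁻¹ t G x‖ₑ ^ p := by
  have hmop : ∀ k : ℕ, Measurable fun q : ℝ × E 2 =>
      ‖op a ((1 / 2) ^ k) (r ^ 2)⁻¹ q.1 G q.2‖ₑ ^ p := fun k =>
    hco_meas1 (fun q => ‖op a ((1 / 2) ^ k) q.1 q.2.1 G q.2.2‖ₑ ^ p)
      ((measurable_op a ha ((1 / 2) ^ k) G hG).enorm.pow_const p) (r ^ 2)⁻¹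
  have hmex : Measurable fun ξ : E (2 + 1) => ‖extn (up r G) ξ‖ₑ ^ p :=
    (measurable_extn _ (hco_meas_up r G hG)).enorm.pow_const p
  have key := hco_tonelli (fun k q => ‖op a ((1 / 2) ^ k) (r ^ 2)⁻¹ q.1 G q.2‖ₑ ^ p) hmop
    (fun k => (2 ^ k) ^ p / w k ^ p) (ENNReal.ofReal (r ^ 2)⁻¹ ^ p * (∑' k, w k) ^ p) r hr
  rw [← key]
  rw [show (∫⁻ ξ : E 3, ‖extn (up r G) ξ‖ₑ ^ p) =
    ∫⁻ X : E 2, ∫⁻ t : ℝ, ‖extn (up r G) (join X t)‖ₑ ^ p from lintegral_join 2 _ hmex]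
  refine lintegral_mono fun X => lintegral_mono fun t => ?_
  have h1 := strip_sum a ha hs r hr G hG hb X t
  clear key
  generalize op a = O at h1
  calc ‖extn (up r G) (join X t)‖ₑ ^ p
      ≤ (ENNReal.ofReal (r ^ 2)⁻¹ * ∑' k : ℕ, 2 ^ k * ‖O ((1 / 2) ^ k) (r ^ 2)⁻¹ t G (r⁻¹ • X)‖ₑ) ^ p :=
        ENNReal.rpow_le_rpow h1 hp.le
    _ = ENNReal.ofReal (r ^ 2)⁻¹ ^ p *
          (∑' k : ℕ, 2 ^ k * ‖O ((1 / 2) ^ k) (r ^ 2)⁻¹ t G (r⁻¹ • X)‖ₑ) ^ p :=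
        ENNReal.mul_rpow_of_nonneg _ _ hp.le
    _ ≤ ENNReal.ofReal (r ^ 2)⁻¹ ^ p * ((∑' k, w k) ^ p * ∑' k : ℕ,
          (2 ^ k * ‖O ((1 / 2) ^ k) (r ^ 2)⁻¹ t G (r⁻¹ • X)‖ₑ) ^ p / w k ^ p) := by
        gcongr
        exact tsum_rpow_le _ w hw0 hwt hp
    _ = _ := by
        rw [mul_assoc]
        congr 2
        apply tsum_congr
        intro k
        rw [ENNReal.mul_rpow_of_nonneg _ _ hp.le, ENNReal.div_eq_inv_mul, ENNReal.div_eq_inv_mul,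
          mul_assoc]

theorem core (ra rb p : ℝ) (h0 : 0 < ra) (h1 : ra < rb) (hp : 3 < p) : ∃ C : ℝ≥0∞, C ≠ ∞ ∧
    ∀ G : E 2 → ℂ, Measurable G → (∀ w, ‖G w‖ ≤ 1) →
    ∫⁻ r in Icc ra rb, ∫⁻ ξ : E 3, ‖extn (up r G) ξ‖ₑ ^ p ≤ C := by
  obtain ⟨a, ha, hs⟩ := dyadic
  have hrb : 0 < rb := h0.trans h1
  have hp0 : 0 < p := by linarith
  have hs01 : (rb ^ 2)⁻¹ < (ra ^ 2)⁻¹ := by
    apply inv_strictAnti₀ (by positivity)
    exact pow_lt_pow_left₀ h1 h0.le two_ne_zero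
  obtain ⟨C0, hC0, ε, hε, hstrip⟩ := strip_Lp a ha (rb ^ 2)⁻¹ (ra ^ 2)⁻¹ (by positivity) hs01 p hp
  -- the weights
  set ρ : ℝ := (1 / 2) ^ (ε / (2 * p)) with hρ
  have hρ0 : 0 < ρ := by positivity
  have hρ1 : ρ < 1 := Real.rpow_lt_one (by norm_num) (by norm_num) (by positivity)
  set w : ℕ → ℝ≥0∞ := fun k => ENNReal.ofReal ρ ^ k with hw
  have hwne : ENNReal.ofReal ρ ≠ 0 := (ENNReal.ofReal_pos.2 hρ0).ne'
  have hw0 : ∀ k, w k ≠ 0 := fun k => pow_ne_zero k hwne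
  have hwt : ∀ k, w k ≠ ∞ := fun k => ENNReal.pow_ne_top ENNReal.ofReal_ne_top
  have hWt : ∑' k, w k ≠ ∞ := by
    rw [hw, ENNReal.tsum_geometric]
    refine ENNReal.inv_ne_top.2 ?_
    rw [Ne, tsub_eq_zero_iff_le, not_le, ← ENNReal.ofReal_one]
    exact (ENNReal.ofReal_lt_ofReal_iff one_pos).2 hρ1
  -- the ratio
  set θ : ℝ≥0∞ := 2 ^ p / ENNReal.ofReal ρ ^ p * ENNReal.ofReal ((1 / 2) ^ (p + ε)) with hθ
  have hθ1 : θ < 1 := by
    have e2 : (2 : ℝ≥0∞) ^ p = ENNReal.ofReal (2 ^ p) := by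
      rw [← ENNReal.ofReal_rpow_of_pos (by norm_num : (0:ℝ) < 2)]
      norm_num
    rw [hθ, e2, ENNReal.ofReal_rpow_of_pos hρ0, ← ENNReal.ofReal_div_of_pos (by positivity),
      ← ENNReal.ofReal_mul (by positivity), ← ENNReal.ofReal_one]
    refine (ENNReal.ofReal_lt_ofReal_iff one_pos).2 ?_
    have e3 : (2:ℝ) ^ p / ρ ^ p * (1 / 2) ^ (p + ε) = (1 / 2) ^ (ε / 2) := by
      have e4 : ρ ^ p = (1 / 2) ^ (ε / 2) := by
        rw [hρ, ← Real.rpow_mul (by norm_num)]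
        congr 1
        field_simp
      have e5 : (2:ℝ) ^ p = ((1 / 2 : ℝ) ^ p)⁻¹ := by
        rw [← Real.inv_rpow (by norm_num)]
        norm_num
      rw [e4, e5, Real.rpow_add (by norm_num) p ε]
      have e6 : (1 / 2 : ℝ) ^ ε = (1 / 2) ^ (ε / 2) * (1 / 2) ^ (ε / 2) := by
        rw [← Real.rpow_add (by norm_num)]
        congr 1
        ring
      rw [e6]
      have e7 : (0:ℝ) < (1 / 2) ^ p := by positivity
      have e8 : (0:ℝ) < (1 / 2) ^ (ε / 2) := by positivity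
      field_simp
    rw [e3]
    exact Real.rpow_lt_one (by norm_num) (by norm_num) (by positivity)
  have hck : ∀ k : ℕ, (2 ^ k : ℝ≥0∞) ^ p / w k ^ p *
      ENNReal.ofReal (((1 / 2 : ℝ) ^ k) ^ (p + ε)) = θ ^ k := by
    intro k
    have e1 : ∀ (x : ℝ≥0∞), (x ^ k) ^ p = (x ^ p) ^ k := by
      intro x
      rw [← ENNReal.rpow_natCast, ← ENNReal.rpow_mul, ← ENNReal.rpow_natCast, ← ENNReal.rpow_mul,
        mul_comm]
    have e2 : ((1 / 2 : ℝ) ^ k) ^ (p + ε) = ((1 / 2) ^ (p + ε)) ^ k := by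
      rw [← Real.rpow_natCast, ← Real.rpow_mul (by norm_num), ← Real.rpow_natCast,
        ← Real.rpow_mul (by norm_num), mul_comm]
    rw [e2, ENNReal.ofReal_pow (by positivity), hw]
    simp only
    rw [e1, e1, hθ, mul_pow, ENNReal.div_eq_inv_mul, ENNReal.div_eq_inv_mul, mul_pow,
      ENNReal.inv_pow]
  -- the constant
  set D : ℝ≥0∞ := ENNReal.ofReal (ra ^ 2)⁻¹ ^ p * (∑' k, w k) ^ p * ENNReal.ofReal (rb ^ 2) with hD
  have hDt : D ≠ ∞ := by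
    refine ENNReal.mul_ne_top (ENNReal.mul_ne_top ?_ ?_) ENNReal.ofReal_ne_top
    · exact ENNReal.rpow_ne_top_of_nonneg hp0.le ENNReal.ofReal_ne_top
    · exact ENNReal.rpow_ne_top_of_nonneg hp0.le hWt
  refine ⟨D * (ENNReal.ofReal (rb ^ 3 / 2) * C0 * (1 - θ)⁻¹), ?_, ?_⟩
  · refine ENNReal.mul_ne_top hDt (ENNReal.mul_ne_top
      (ENNReal.mul_ne_top ENNReal.ofReal_ne_top hC0) ?_)
    refine ENNReal.inv_ne_top.2 ?_
    rw [Ne, tsub_eq_zero_iff_le, not_le]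
    exact hθ1
  intro G hG hb
  set Ψ : ℕ → ℝ → ℝ≥0∞ := fun k s => ∫⁻ t : ℝ, ∫⁻ x : E 2, ‖op a ((1 / 2) ^ k) s t G x‖ₑ ^ p with hΨ
  have hmΨ : ∀ k, Measurable (Ψ k) := by
    exact fun k => hco_meas2 (fun q => ‖op a ((1 / 2) ^ k) q.1 q.2.1 G q.2.2‖ₑ ^ p)
      ((measurable_op a ha ((1 / 2) ^ k) G hG).enorm.pow_const p)
  have hsq : Measurable fun r : ℝ => (r ^ 2)⁻¹ := by fun_prop
  calc ∫⁻ r in Icc ra rb, ∫⁻ ξ : E 3, ‖extn (up r G) ξ‖ₑ ^ p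
      ≤ ∫⁻ r in Icc ra rb, D * ∑' k : ℕ, (2 ^ k) ^ p / w k ^ p * Ψ k (r ^ 2)⁻¹ := by
        refine setLIntegral_mono' measurableSet_Icc fun r hr => ?_
        have hr0 : 0 < r := by linarith [hr.1]
        refine (hco_point a ha hs p hp0 w hw0 hwt r hr0 G hG hb).trans ?_
        have e1 : (r ^ 2)⁻¹ ≤ (ra ^ 2)⁻¹ :=
          inv_anti₀ (by positivity) (pow_le_pow_left₀ h0.le hr.1 2)
        have e2 : r ^ 2 ≤ rb ^ 2 := pow_le_pow_left₀ hr0.le hr.2 2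
        rw [hD]
        gcongr
    _ = D * ∑' k : ℕ, (2 ^ k) ^ p / w k ^ p * ∫⁻ r in Icc ra rb, Ψ k (r ^ 2)⁻¹ := by
        have hm : ∀ k : ℕ, Measurable fun r : ℝ => Ψ k (r ^ 2)⁻¹ := fun k => (hmΨ k).comp hsq
        rw [lintegral_const_mul _ (Measurable.tsum fun k => (hm k).const_mul _),
          lintegral_tsum fun k => ((hm k).const_mul _).aemeasurable]
        congr 2
        funext k
        rw [lintegral_const_mul _ (hm k)]
    _ ≤ D * ∑' k : ℕ, ENNReal.ofReal (rb ^ 3 / 2) * C0 * θ ^ k := by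
        refine mul_le_mul_right (ENNReal.tsum_le_tsum fun k => ?_) D
        calc (2 ^ k) ^ p / w k ^ p * ∫⁻ r in Icc ra rb, Ψ k (r ^ 2)⁻¹
            ≤ (2 ^ k) ^ p / w k ^ p * (ENNReal.ofReal (rb ^ 3 / 2) *
                (C0 * ENNReal.ofReal (((1 / 2 : ℝ) ^ k) ^ (p + ε)))) := by
              gcongr
              refine (hco_cov (Ψ k) ra rb h0 h1).trans ?_
              gcongr
              exact hstrip ((1 / 2) ^ k) (by positivity)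
                (pow_le_one₀ (by norm_num) (by norm_num)) G hG hb
          _ = _ := by
              rw [← hck k]
              ring
    _ = _ := by
        rw [ENNReal.tsum_mul_left, ENNReal.tsum_geometric]

end Pool.Agent.MST
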