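import Pool.Agent.MST.CH
import Pool.Agent.MST.Defs2

namespace Pool.Agent.MST

open MeasureTheory Set Pool.Agent.MP_6cbfb8_an
open scoped ENNReal Real

theorem hct_mv_add {m : ℕ} (N : Mat m) (x y : E m) : mv N (x + y) = mv N x + mv N y := by
  ext i
  simp [mv, mul_add, Finset.sum_add_distrib]

theorem hct_mv_smul {m : ℕ} (N : Mat m) (c : ℝ) (x : E m) : mv N (c • x) = c • mv N x := by
  ext i
  simp only [mv, PiLp.smul_apply, smul_eq_mul, Finset.mul_sum]
  exact Finset.sum_congr rfl fun j _ => by ring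

/-- the linear equivalence of an invertible matrix -/
noncomputable def hct_L {m : ℕ} (N M : Mat m) (h1 : ∀ w : E m, mv M (mv N w) = w)
    (h2 : ∀ w : E m, mv N (mv M w) = w) : E m ≃ₗ[ℝ] E m where
  toFun := mv N
  map_add' := hct_mv_add N
  map_smul' := fun c x => hct_mv_smul N c x
  invFun := mv M
  left_inv := h1
  right_inv := h2

theorem hct_inner {m : ℕ} (N : Mat m) (w X : E m) :
    (inner ℝ (mv N w) X : ℝ) = inner ℝ w (mv (fun i j => N j i) X) := by
  rw [PiLp.inner_apply, PiLp.inner_apply]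
  simp only [mv, RCLike.inner_apply, conj_trivial, Finset.mul_sum, Finset.sum_mul]
  rw [Finset.sum_comm]
  exact Finset.sum_congr rfl fun j _ => Finset.sum_congr rfl fun i _ => by ring

theorem hct_trans {m : ℕ} (N M : Mat m) (h : ∀ w : E m, mv M (mv N w) = w) (w : E m) :
    mv (fun i j => N j i) (mv (fun i j => M j i) w) = w := by
  refine ext_inner_left ℝ fun v => ?_
  rw [← hct_inner, ← hct_inner, h]

/-- the measurable equivalence of a linear equivalence -/
noncomputable def hct_me {m : ℕ} (L : E m ≃ₗ[ℝ] E m) : E m ≃ᵐ E m :=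
  L.toContinuousLinearEquiv.toHomeomorph.toMeasurableEquiv

theorem hct_me_apply {m : ℕ} (L : E m ≃ₗ[ℝ] E m) (x : E m) : hct_me L x = L x := rfl

theorem hct_det {m : ℕ} (L : E m ≃ₗ[ℝ] E m) : LinearMap.det (L : E m →ₗ[ℝ] E m) ≠ 0 :=
  (LinearEquiv.isUnit_det' L).ne_zero

theorem hct_map {m : ℕ} (L : E m ≃ₗ[ℝ] E m) : Measure.map (hct_me L) (volume : Measure (E m)) =
    ENNReal.ofReal |(LinearMap.det (L : E m →ₗ[ℝ] E m))⁻¹| • volume :=
  Measure.map_linearMap_addHaar_eq_smul_addHaar volume (hct_det L)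

theorem hct_lint {m : ℕ} (L : E m ≃ₗ[ℝ] E m) (φ : E m → ℝ≥0∞) :
    ∫⁻ x, φ (L x) = ENNReal.ofReal |(LinearMap.det (L : E m →ₗ[ℝ] E m))⁻¹| * ∫⁻ x, φ x := by
  have h := lintegral_map_equiv (μ := (volume : Measure (E m))) φ (hct_me L)
  rw [hct_map, lintegral_smul_measure] at h
  exact h.symm

theorem hct_int {m : ℕ} (L : E m ≃ₗ[ℝ] E m) (F : E m → ℂ) :
    ∫ u, F u = ((|LinearMap.det (L : E m →ₗ[ℝ] E m)| : ℝ) : ℂ) * ∫ w, F (L w) := by
  have h := integral_map_equiv (μ := (volume : Measure (E m))) (hct_me L) F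
  rw [hct_map, integral_smul_measure, ENNReal.toReal_ofReal (abs_nonneg _)] at h
  have h' : ∫ w, F (L w) = |(LinearMap.det (L : E m →ₗ[ℝ] E m))⁻¹| • ∫ x, F x := h.symm
  rw [h', Complex.real_smul, ← mul_assoc, ← Complex.ofReal_mul, ← abs_mul, mul_inv_cancel₀ (hct_det L)]
  simp

theorem hct_ex_add (x y : ℝ) : ex (x + y) = ex x * ex y := by
  unfold ex
  rw [← Complex.exp_add]
  congr 1
  push_cast
  ring

theorem hct_fst_join {n : ℕ} (u : E n) (q : ℝ) : fstE (k := n) (l := 1) (join u q) = u := by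
  ext i
  unfold fstE
  exact join_castSucc _ _ _

theorem hct_chart (n : ℕ) (g : E (n + 2) → ℂ) (hg : Measurable g)
    (X : E (n + 1)) (t : ℝ) :
    extn (fun x : E (n + 2) => if 0 < x (Fin.last (n + 1)) then g x else 0) (join X t) =
      ∫ u in Metric.ball (0 : E (n + 1)) 1, g (join u √(1 - ‖u‖ ^ 2)) *
        ((1 / √(1 - ‖u‖ ^ 2) : ℝ) : ℂ) * ex (inner ℝ u X + √(1 - ‖u‖ ^ 2) * t) := by
  classical
  have hms : MeasurableSet {x : S (n + 2) | 0 < (x : E (n + 2)) (Fin.last (n + 1))} := by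
    have : Measurable fun x : S (n + 2) => (x : E (n + 2)) (Fin.last (n + 1)) := by
      have h1 : Measurable fun x : E (n + 2) => x (Fin.last (n + 1)) := by fun_prop
      exact h1.comp measurable_subtype_coe
    exact measurableSet_lt measurable_const this
  have hexm : Measurable ex := by
    unfold ex
    fun_prop
  have hf : Measurable fun z : E (n + 2) => g z * ex (inner ℝ z (join X t)) := by
    refine hg.mul (hexm.comp ?_)
    fun_prop
  have h1 : extn (fun x : E (n + 2) => if 0 < x (Fin.last (n + 1)) then g x else 0) (join X t) =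
      ∫ x in {x : S (n + 2) | 0 < (x : E (n + 2)) (Fin.last (n + 1))},
        g (x : E (n + 2)) * ex (inner ℝ (x : E (n + 2)) (join X t)) ∂(sm (n + 2)) := by
    unfold extn
    rw [← integral_indicator hms]
    refine integral_congr_ae (Filter.Eventually.of_forall fun x => ?_)
    by_cases hx : 0 < (x : E (n + 2)) (Fin.last (n + 1))
    · simp only [hx, if_true]
      rw [indicator_of_mem (show x ∈ {x : S (n + 2) | 0 < (x : E (n + 2)) (Fin.last (n + 1))} from hx)]
      rfl
    · simp only [hx, if_false, zero_mul]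
      rw [indicator_of_notMem (show x ∉ {x : S (n + 2) | 0 < (x : E (n + 2)) (Fin.last (n + 1))} from hx)]
  have h2 : ∫ x in {x : S (n + 2) | 0 < (x : E (n + 2)) (Fin.last (n + 1))},
        g (x : E (n + 2)) * ex (inner ℝ (x : E (n + 2)) (join X t)) ∂(sm (n + 2)) =
      ∫ z : E (n + 2), g z * ex (inner ℝ z (join X t))
        ∂(((sm (n + 2)).restrict {x : S (n + 2) | 0 < (x : E (n + 2)) (Fin.last (n + 1))}).map
      (fun x : S (n + 2) => (x : E (n + 2)))) := by
    rw [integral_map measurable_subtype_coe.aemeasurable hf.aestronglyMeasurable]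
  rw [h1, h2, hch_measure_eq, integral_map (hch_measurable_graph n).aemeasurable
    hf.aestronglyMeasurable, integral_withDensity_eq_integral_toReal_smul₀]
  · refine integral_congr_ae (Filter.Eventually.of_forall fun u => ?_)
    have h3 : 0 ≤ 1 / √(1 - ‖u‖ ^ 2) := by positivity
    simp only
    rw [ENNReal.toReal_ofReal h3, inner_join, Complex.real_smul]
    ring
  · fun_prop
  · exact Filter.Eventually.of_forall fun u => ENNReal.ofReal_lt_top

/-
ROW CT (1.2 h). Chart in linear coordinates. M and N are inverse to each other. Let D x = if 0 < x_last then G (mv M (fstE x)) * β x_last else 0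
(x : E (m+1), fstE with k = m, l = 1). By `chart` (n+1 = m) with g x = G (mv M (fstE x)) * β(x_last) (bounded by a constant B: β is bounded on [0,1];
scale to use the hypothesis ‖g‖ ≤ 1, or cut off β outside [-1,1])
extn D (join X t) = ∫ u in ball 0 1, G (mv M u) (β(q)/q) ex (inner u X + q t), q = √(1-‖u‖²); substitute u = mv N w (linear, |det|,
MeasureTheory.integral_comp / addHaar for linear maps: Measure.integral_comp... use
MeasureTheory.Measure.addHaar_preimage_linearMap or integral_map with the linear equivalence): = |det N| ∫ w, G w a(vN N w) ex (inner w (Nᵀ X)) ex(t √(vN N w))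
= |det N| op2 a N t G (Nᵀ X) since a v = β(√v)/√v for 0 < v and a v = 0 for v ≤ 0 (c0 > 0), and ‖u‖ < 1 iff vN > 0. Then lintegral_join and the
substitution x = Nᵀ X (invertible): ∫⁻ ‖extn D‖^p = |det N|^(p-1) ∫⁻ t ∫⁻ x ‖op2‖^p; only finiteness of the constant is claimed.
-/
theorem chart_two (m : ℕ) (hm : 1 ≤ m) (M N : Mat m) (h1 : ∀ w : E m, mv M (mv N w) = w)
    (h2 : ∀ w : E m, mv N (mv M w) = w) (c0 : ℝ) (hc : 0 < c0) (a β : ℝ → ℝ) (ha : Cut2 c0 a)
    (hβ : Measurable β) (hab : ∀ v, 0 < v → v ≤ 1 → a v = β √v / √v) (p : ℝ) (hp : 1 ≤ p) :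
    ∃ C : ℝ≥0∞, C ≠ ∞ ∧ ∀ G : E m → ℂ, Measurable G → (∀ w, ‖G w‖ ≤ 1) →
    ∫⁻ ξ : E (m + 1), ‖extn (fun x : E (m + 1) => if 0 < x (Fin.last m) then
        G (mv M (fstE (k := m) (l := 1) x)) * ((β (x (Fin.last m)) : ℝ) : ℂ) else 0) ξ‖ₑ ^ p ≤
      C * ∫⁻ t : ℝ, ∫⁻ x : E m, ‖op2 a N t G x‖ₑ ^ p := by
  obtain ⟨n, rfl⟩ : ∃ n, m = n + 1 := ⟨m - 1, by omega⟩
  set Nt : Mat (n + 1) := fun i j => N j i with hNt
  set Mt : Mat (n + 1) := fun i j => M j i with hMt
  have h3 : ∀ w, mv Mt (mv Nt w) = w := hct_trans M N h2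
  have h4 : ∀ w, mv Nt (mv Mt w) = w := hct_trans N M h1
  set L := hct_L N M h1 h2 with hL
  set Lt := hct_L Nt Mt h3 h4 with hLt
  refine ⟨ENNReal.ofReal |LinearMap.det (L : E (n + 1) →ₗ[ℝ] E (n + 1))| ^ p *
    ENNReal.ofReal |(LinearMap.det (Lt : E (n + 1) →ₗ[ℝ] E (n + 1)))⁻¹|,
    ENNReal.mul_ne_top (ENNReal.rpow_ne_top_of_nonneg (by linarith) ENNReal.ofReal_ne_top)
      ENNReal.ofReal_ne_top, ?_⟩
  intro G hG hGb
  have hmvm : ∀ K : Mat (n + 1), Measurable (mv K) := by
    intro K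
    unfold mv
    fun_prop
  have hfst : Measurable fun x : E (n + 1 + 1) => (fstE (k := n + 1) (l := 1) x : E (n + 1)) := by
    unfold fstE
    fun_prop
  set g : E (n + 2) → ℂ := fun x => G (mv M (fstE (k := n + 1) (l := 1) x)) *
    ((β (x (Fin.last (n + 1))) : ℝ) : ℂ) with hg
  have hgm : Measurable g := by
    refine Measurable.mul ?_ ?_
    · exact hG.comp ((hmvm M).comp hfst)
    · refine Complex.measurable_ofReal.comp (hβ.comp ?_)
      fun_prop
  have hDm : Measurable fun x : E (n + 2) => if 0 < x (Fin.last (n + 1)) then g x else 0 :=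
    Measurable.ite (measurableSet_lt measurable_const (by fun_prop)) hgm measurable_const
  have key : ∀ (X : E (n + 1)) (t : ℝ),
      extn (fun x : E (n + 2) => if 0 < x (Fin.last (n + 1)) then g x else 0) (join X t) =
      ((|LinearMap.det (L : E (n + 1) →ₗ[ℝ] E (n + 1))| : ℝ) : ℂ) * op2 a N t G (Lt X) := by
    intro X t
    rw [hct_chart n g hgm X t]
    have e1 : ∫ u in Metric.ball (0 : E (n + 1)) 1, g (join u √(1 - ‖u‖ ^ 2)) *
        ((1 / √(1 - ‖u‖ ^ 2) : ℝ) : ℂ) * ex (inner ℝ u X + √(1 - ‖u‖ ^ 2) * t) =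
        ∫ u : E (n + 1), G (mv M u) * ((a (1 - ‖u‖ ^ 2) : ℝ) : ℂ) * ex (inner ℝ u X + √(1 - ‖u‖ ^ 2) * t) := by
      rw [← setIntegral_eq_integral_of_forall_compl_eq_zero (s := Metric.ball (0 : E (n + 1)) 1)
        (f := fun u : E (n + 1) => G (mv M u) * ((a (1 - ‖u‖ ^ 2) : ℝ) : ℂ) * ex (inner ℝ u X + √(1 - ‖u‖ ^ 2) * t))]
      · refine setIntegral_congr_fun Metric.isOpen_ball.measurableSet fun u hu => ?_
        rw [mem_ball_zero_iff] at hu
        have hv0 : 0 < 1 - ‖u‖ ^ 2 := by nlinarith [norm_nonneg u]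
        have hv1 : 1 - ‖u‖ ^ 2 ≤ 1 := by nlinarith [norm_nonneg u]
        simp only [hg]
        rw [hct_fst_join, join_last, hab _ hv0 hv1]
        push_cast
        ring
      · intro u hu
        rw [mem_ball_zero_iff, not_lt] at hu
        have : 1 - ‖u‖ ^ 2 ≤ c0 := by nlinarith
        rw [ha.2 _ this]
        simp
    rw [e1, hct_int L]
    congr 1
    unfold op2
    refine integral_congr_ae (Filter.Eventually.of_forall fun w => ?_)
    have e2 : L w = mv N w := rfl
    have e3 : Lt X = mv Nt X := rfl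
    simp only
    rw [e2, e3, h1, hct_inner, hct_ex_add, mul_comm _ t]
    unfold amp2 vN
    ring
  change ∫⁻ ξ : E (n + 2), ‖extn (fun x : E (n + 2) => if 0 < x (Fin.last (n + 1)) then g x else 0) ξ‖ₑ ^ p ≤ _
  have hem : Measurable fun ξ : E (n + 2) =>
      ‖extn (fun x : E (n + 2) => if 0 < x (Fin.last (n + 1)) then g x else 0) ξ‖ₑ ^ p :=
    (measurable_extn _ hDm).enorm.pow_const _
  rw [lintegral_join (n + 1) _ hem, lintegral_lintegral_swap]
  · have e5 : ∀ z : ℝ, ∫⁻ y : E (n + 1),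
        ‖extn (fun x : E (n + 2) => if 0 < x (Fin.last (n + 1)) then g x else 0) (join y z)‖ₑ ^ p =
        ENNReal.ofReal |LinearMap.det (L : E (n + 1) →ₗ[ℝ] E (n + 1))| ^ p *
          ENNReal.ofReal |(LinearMap.det (Lt : E (n + 1) →ₗ[ℝ] E (n + 1)))⁻¹| *
          ∫⁻ x : E (n + 1), ‖op2 a N z G x‖ₑ ^ p := by
      intro z
      have e6 : ∀ y : E (n + 1),
          ‖extn (fun x : E (n + 2) => if 0 < x (Fin.last (n + 1)) then g x else 0) (join y z)‖ₑ ^ p =
          ENNReal.ofReal |LinearMap.det (L : E (n + 1) →ₗ[ℝ] E (n + 1))| ^ p * ‖op2 a N z G (Lt y)‖ₑ ^ p := by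
        intro y
        rw [key, enorm_mul, ENNReal.mul_rpow_of_nonneg _ _ (by linarith), ← ofReal_norm, Complex.norm_real,
          Real.norm_eq_abs, abs_abs]
      simp only [e6]
      rw [lintegral_const_mul' _ _ (ENNReal.rpow_ne_top_of_nonneg (by linarith) ENNReal.ofReal_ne_top),
        hct_lint Lt (fun x => ‖op2 a N z G x‖ₑ ^ p), mul_assoc]
    simp only [e5]
    rw [lintegral_const_mul' _ _ (ENNReal.mul_ne_top (ENNReal.rpow_ne_top_of_nonneg (by linarith) ENNReal.ofReal_ne_top)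
      ENNReal.ofReal_ne_top)]
  · exact (hem.comp measurable_join).aemeasurable

end Pool.Agent.MST
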