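import Pool.Agent.MST.DY

namespace Pool.Agent.MST

open MeasureTheory Set Pool.Agent.MP_6cbfb8_an
open scoped ENNReal Real

/-- Strip cut-off functions of class `C³`, supported in `[1/4, 4]`. -/
def Cut3 (a : ℝ → ℝ) : Prop := ContDiff ℝ 3 a ∧ ∀ v, v ≤ 1 / 4 ∨ 4 ≤ v → a v = 0

/-- The cut-off function `a v / √v`. -/
noncomputable def divs (a : ℝ → ℝ) (v : ℝ) : ℝ := a v / √v

theorem hed1_th_contDiff : ContDiff ℝ 3 hdy_th := by
  have h : ContDiff ℝ ((3 : ℕ∞) : WithTop ℕ∞) Real.smoothTransition :=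
    Real.smoothTransition.contDiff
  have h2 : ContDiff ℝ ((3 : ℕ∞) : WithTop ℕ∞) (fun v : ℝ => (4 * v - 1) / 3) := by fun_prop
  exact h.comp h2

theorem hed1_a_contDiff : ContDiff ℝ 3 hdy_a := by
  rw [contDiff_iff_contDiffAt]
  intro v
  rcases lt_or_ge v (1 / 4) with h | h
  · have h1 : hdy_a =ᶠ[nhds v] fun _ => (0 : ℝ) := by
      filter_upwards [Iio_mem_nhds h] with w hw
      exact hdy_a_zero (Or.inl (le_of_lt hw))
    exact contDiffAt_const.congr_of_eventuallyEq h1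
  · have hv : (0 : ℝ) < v := by linarith
    have h1 : ContDiffAt ℝ 3 (fun w : ℝ => hdy_th w - hdy_th (w / 4)) v := by
      have h2 : ContDiff ℝ 3 (fun w : ℝ => w / 4) := by fun_prop
      exact (hed1_th_contDiff.sub (hed1_th_contDiff.comp h2)).contDiffAt
    have h3 : ContDiffAt ℝ 3 (fun w : ℝ => √w) v := Real.contDiffAt_sqrt hv.ne'
    exact h1.div h3 (Real.sqrt_ne_zero'.2 hv)

/-
ROW ED1 (0.7 h). Cut-off functions of class C^3.
cut3_cut: ContDiff.of_le.
cut_deriv: deriv of a C^3 function is C^2 (contDiff_succ_iff_deriv, 3 = 2 + 1); deriv a v = 0 for v < 1/4 or v > 4 (a is locally 0: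
EventuallyEq.deriv_eq / Filter.EventuallyEq), at v = 1/4 and v = 4 by continuity of deriv a (closure of the open half line), or because a has a
local one-sided derivative 0.
cut_divs: as `hdy_a_contDiff` in DY.lean: on {v < 1/4} it is locally 0; on {v > 0} it is a quotient of C^2 functions (Real.contDiffAt_sqrt).
dyadic3: copy the proof of `dyadic` (DY.lean) with the same function hdy_a; ContDiff ℝ 3 hdy_a exactly as hdy_th_contDiff, hdy_a_contDiff.
-/
theorem cut3_cut (a : ℝ → ℝ) (ha : Cut3 a) : Cut a := by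
  exact ⟨ha.1.of_le (by norm_num), ha.2⟩

theorem cut_deriv (a : ℝ → ℝ) (ha : Cut3 a) : Cut (deriv a) := by
  have h3 : ContDiff ℝ (2 + 1) a := by
    have : (3 : WithTop ℕ∞) = 2 + 1 := by norm_num
    rw [← this]
    exact ha.1
  have h2 : ContDiff ℝ 2 (deriv a) := (contDiff_succ_iff_deriv.1 h3).2.2
  refine ⟨h2, ?_⟩
  have hc : IsClosed {v : ℝ | deriv a v = 0} := isClosed_eq h2.continuous continuous_const
  rintro v (hv | hv)
  · have hs : Iio (1 / 4 : ℝ) ⊆ {v : ℝ | deriv a v = 0} := by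
      intro w hw
      have h1 : a =ᶠ[nhds w] fun _ => (0 : ℝ) := by
        filter_upwards [Iio_mem_nhds hw] with u hu
        exact ha.2 u (Or.inl (le_of_lt hu))
      change deriv a w = 0
      rw [h1.deriv_eq]
      simp
    have h4 := closure_minimal hs hc
    rw [closure_Iio] at h4
    exact h4 hv
  · have hs : Ioi (4 : ℝ) ⊆ {v : ℝ | deriv a v = 0} := by
      intro w hw
      have h1 : a =ᶠ[nhds w] fun _ => (0 : ℝ) := by
        filter_upwards [Ioi_mem_nhds hw] with u hu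
        exact ha.2 u (Or.inr (le_of_lt hu))
      change deriv a w = 0
      rw [h1.deriv_eq]
      simp
    have h4 := closure_minimal hs hc
    rw [closure_Ioi] at h4
    exact h4 hv

theorem cut_divs (a : ℝ → ℝ) (ha : Cut a) : Cut (divs a) := by
  refine ⟨?_, ?_⟩
  · rw [contDiff_iff_contDiffAt]
    intro v
    rcases lt_or_ge v (1 / 4) with h | h
    · have h1 : divs a =ᶠ[nhds v] fun _ => (0 : ℝ) := by
        filter_upwards [Iio_mem_nhds h] with w hw
        unfold divs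
        rw [ha.2 w (Or.inl (le_of_lt hw)), zero_div]
      exact contDiffAt_const.congr_of_eventuallyEq h1
    · have hv : (0 : ℝ) < v := by linarith
      have h3 : ContDiffAt ℝ 2 (fun w : ℝ => √w) v := Real.contDiffAt_sqrt hv.ne'
      exact ha.1.contDiffAt.div h3 (Real.sqrt_ne_zero'.2 hv)
  · intro v hv
    unfold divs
    rw [ha.2 v hv, zero_div]

theorem dyadic3 : ∃ a : ℝ → ℝ, Cut3 a ∧ ∀ v, 0 < v → v ≤ 1 →
    HasSum (fun k : ℕ => (2:ℝ) ^ k * a (4 ^ k * v)) (1 / √v) := by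
  refine ⟨hdy_a, ⟨hed1_a_contDiff, fun v hv => hdy_a_zero hv⟩, ?_⟩
  intro v hv hv1
  obtain ⟨N, hN⟩ := pow_unbounded_of_one_lt (4 / v) (show (1 : ℝ) < 4 by norm_num)
  have hN' : ∀ k : ℕ, N ≤ k → 4 ≤ (4 : ℝ) ^ k * v := by
    intro k hk
    have h1 : (4 : ℝ) ^ N ≤ 4 ^ k := pow_le_pow_right₀ (by norm_num) hk
    have h2 : 4 / v ≤ (4 : ℝ) ^ k := hN.le.trans h1
    exact (div_le_iff₀ hv).1 h2
  have hsum : ∑ k ∈ Finset.range N, (2 : ℝ) ^ k * hdy_a (4 ^ k * v) = 1 / √v := by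
    rw [Finset.sum_congr rfl (fun k _ => hdy_term (v := v) k),
      Finset.sum_range_sub (fun k : ℕ => hdy_th (4 ^ k * v / 4) / √v) N]
    have h1 : hdy_th ((4 : ℝ) ^ N * v / 4) = 1 := hdy_th_one (by linarith [hN' N le_rfl])
    have h2 : hdy_th ((4 : ℝ) ^ 0 * v / 4) = 0 := by
      rw [pow_zero, one_mul]
      exact hdy_th_zero (by linarith)
    simp only [h1, h2]
    rw [zero_div, sub_zero]
  rw [← hsum]
  apply hasSum_sum_of_ne_finset_zero
  intro k hk
  have hk' : N ≤ k := by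
    rw [Finset.mem_range] at hk
    omega
  rw [hdy_a_zero (Or.inr (hN' k hk')), mul_zero]

end Pool.Agent.MST
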