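import Pool.Agent.MST.Defs

namespace Pool.Agent.MST

open MeasureTheory Set Pool.Agent.MP_6cbfb8_an
open scoped ENNReal Real

theorem cut_bdd (a : ℝ → ℝ) (ha : Cut a) : ∃ A : ℝ, 0 < A ∧ ∀ v, |a v| ≤ A := by
  obtain ⟨C, hC⟩ := (isCompact_Icc (a := (1/4 : ℝ)) (b := 4)).exists_bound_of_continuousOn
    (f := a) ha.1.continuous.continuousOn
  refine ⟨|C| + 1, by positivity, fun v => ?_⟩
  by_cases h1 : v ≤ 1 / 4
  · rw [ha.2 v (Or.inl h1)]
    simp
    positivity
  by_cases h2 : 4 ≤ v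
  · rw [ha.2 v (Or.inr h2)]
    simp
    positivity
  have h3 := hC v ⟨by linarith, by linarith⟩
  rw [Real.norm_eq_abs] at h3
  have := le_abs_self C
  linarith

/-- The support of a strip. -/
def hobS (κ s : ℝ) : Set (E 2) := {w : E 2 | 1 / 4 < vv κ s (‖w‖ ^ 2) ∧ vv κ s (‖w‖ ^ 2) < 4}

theorem hob_measS (κ s : ℝ) : MeasurableSet (hobS κ s) := by
  have hm : Measurable fun w : E 2 => vv κ s (‖w‖ ^ 2) := by
    unfold vv
    fun_prop
  exact (measurableSet_lt measurable_const hm).inter (measurableSet_lt hm measurable_const)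

theorem hob_volS (κ s s0 : ℝ) (hκ : 0 < κ) (hκ1 : κ ≤ 1) (h0 : 0 < s0) (hs : s0 ≤ s) :
    volume (hobS κ s) ≤ ENNReal.ofReal (4 * π / s0 * κ ^ 2) := by
  have hs' : 0 < s := lt_of_lt_of_le h0 hs
  have hκ2 : 0 < κ ^ 2 := by positivity
  have hκ3 : κ ^ 2 ≤ 1 := by nlinarith
  have e1 : ∀ w : E 2, w ∈ hobS κ s → ‖w‖ ^ 2 < (1 - κ ^ 2 / 4) / s ∧
      (1 - 4 * κ ^ 2) / s < ‖w‖ ^ 2 := by
    intro w hw
    obtain ⟨h1, h2⟩ := hw
    unfold vv at h1 h2
    rw [lt_div_iff₀ hκ2] at h1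
    rw [div_lt_iff₀ hκ2] at h2
    constructor
    · rw [lt_div_iff₀ hs']
      nlinarith
    · rw [div_lt_iff₀ hs']
      nlinarith
  have hR2 : 0 < (1 - κ ^ 2 / 4) / s := div_pos (by linarith) hs'
  have hpi := Real.pi_pos
  have e2 : π * ((1 - κ ^ 2 / 4) / s) - π * ((1 - 4 * κ ^ 2) / s) ≤ 4 * π / s0 * κ ^ 2 := by
    have : π * ((1 - κ ^ 2 / 4) / s) - π * ((1 - 4 * κ ^ 2) / s) = (15 / 4 * (π * κ ^ 2)) / s := by
      field_simp
      ring
    rw [this]
    have h5 : 4 * π / s0 * κ ^ 2 = (4 * (π * κ ^ 2)) / s0 := by ring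
    rw [h5]
    apply div_le_div₀ (by positivity) _ h0 hs
    have : 0 < π * κ ^ 2 := by positivity
    linarith
  have vb : ∀ r : ℝ, 0 ≤ r → volume (Metric.ball (0 : E 2) (√r)) = ENNReal.ofReal (π * r) := by
    intro r hr
    rw [EuclideanSpace.volume_ball_fin_two]
    rw [← ENNReal.ofReal_pow (Real.sqrt_nonneg _), Real.sq_sqrt hr, mul_comm,
      ← NNReal.coe_real_pi, ENNReal.ofReal_mul (by positivity)]
  have vc : ∀ r : ℝ, 0 ≤ r →
      volume (Metric.closedBall (0 : E 2) (√r)) = ENNReal.ofReal (π * r) := by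
    intro r hr
    rw [EuclideanSpace.volume_closedBall_fin_two]
    rw [← ENNReal.ofReal_pow (Real.sqrt_nonneg _), Real.sq_sqrt hr, mul_comm,
      ← NNReal.coe_real_pi, ENNReal.ofReal_mul (by positivity)]
  by_cases hR1 : 0 ≤ (1 - 4 * κ ^ 2) / s
  · have hsub : hobS κ s ⊆ Metric.ball (0 : E 2) (√((1 - κ ^ 2 / 4) / s)) \
        Metric.closedBall (0 : E 2) (√((1 - 4 * κ ^ 2) / s)) := by
      intro w hw
      obtain ⟨h1, h2⟩ := e1 w hw
      refine ⟨?_, ?_⟩
      · rw [mem_ball_zero_iff]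
        exact Real.lt_sqrt_of_sq_lt h1
      · rw [mem_closedBall_zero_iff, not_le]
        rw [Real.sqrt_lt' ]
        · exact h2
        · rcases (norm_nonneg w).lt_or_eq with h | h
          · exact h
          · rw [← h] at h2
            simp at h2
            linarith
    refine (measure_mono hsub).trans ?_
    have hsub2 : Metric.closedBall (0 : E 2) (√((1 - 4 * κ ^ 2) / s)) ⊆
        Metric.ball (0 : E 2) (√((1 - κ ^ 2 / 4) / s)) := by
      apply Metric.closedBall_subset_ball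
      apply Real.sqrt_lt_sqrt hR1
      apply div_lt_div_of_pos_right _ hs'
      linarith
    rw [measure_sdiff hsub2 measurableSet_closedBall.nullMeasurableSet
      (by rw [vc _ hR1]; exact ENNReal.ofReal_ne_top)]
    rw [vb _ hR2.le, vc _ hR1, ← ENNReal.ofReal_sub _ (by positivity)]
    exact ENNReal.ofReal_le_ofReal e2
  · have hsub : hobS κ s ⊆ Metric.ball (0 : E 2) (√((1 - κ ^ 2 / 4) / s)) := by
      intro w hw
      obtain ⟨h1, h2⟩ := e1 w hw
      rw [mem_ball_zero_iff]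
      exact Real.lt_sqrt_of_sq_lt h1
    refine (measure_mono hsub).trans ?_
    rw [vb _ hR2.le]
    apply ENNReal.ofReal_le_ofReal
    push Not at hR1
    nlinarith

theorem hob_norm (A : ℝ) (hA : 0 < A) (a : ℝ → ℝ) (ha : Cut a) (hb : ∀ v, |a v| ≤ A)
    (κ s t : ℝ) (G : E 2 → ℂ) (hG : ∀ w, ‖G w‖ ≤ 1) (w : E 2) :
    ‖G w * amp a κ s t (‖w‖ ^ 2)‖ ≤ (hobS κ s).indicator (fun _ => A) w := by
  have hex : ∀ b : ℝ, ‖ex b‖ = 1 := by
    intro b
    unfold ex
    rw [Complex.norm_exp_ofReal_mul_I]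
  by_cases hw : w ∈ hobS κ s
  · rw [indicator_of_mem hw, norm_mul]
    unfold amp
    rw [norm_mul, hex, mul_one, Complex.norm_real, Real.norm_eq_abs]
    calc ‖G w‖ * |a (vv κ s (‖w‖ ^ 2))| ≤ 1 * A :=
          mul_le_mul (hG w) (hb _) (abs_nonneg _) zero_le_one
      _ = A := one_mul A
  · rw [indicator_of_notMem hw]
    have h0 : a (vv κ s (‖w‖ ^ 2)) = 0 := by
      apply ha.2
      by_contra hcon
      push Not at hcon
      exact hw hcon
    unfold amp
    rw [h0]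
    simp

theorem hob_meas_amp (a : ℝ → ℝ) (ha : Cut a) (κ s t : ℝ) :
    Measurable fun w : E 2 => amp a κ s t (‖w‖ ^ 2) := by
  have hm : Measurable fun w : E 2 => vv κ s (‖w‖ ^ 2) := by
    unfold vv
    fun_prop
  have hac : Measurable a := ha.1.continuous.measurable
  unfold amp ex
  have h1 : Measurable fun w : E 2 => ((a (vv κ s (‖w‖ ^ 2)) : ℝ) : ℂ) :=
    Complex.measurable_ofReal.comp (hac.comp hm)
  have h2 : Measurable fun w : E 2 => √(vv κ s (‖w‖ ^ 2)) := hm.sqrt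
  fun_prop

theorem strip_sup (a : ℝ → ℝ) (ha : Cut a) (s0 : ℝ) (h0 : 0 < s0) : ∃ C : ℝ, 0 < C ∧
    ∀ κ s t : ℝ, 0 < κ → κ ≤ 1 → s0 ≤ s → ∀ G : E 2 → ℂ, Measurable G → (∀ w, ‖G w‖ ≤ 1) →
    ∀ x, ‖op a κ s t G x‖ ≤ C * κ ^ 2 := by
  obtain ⟨A, hA, hb⟩ := cut_bdd a ha
  have hpi := Real.pi_pos
  refine ⟨A * (4 * π / s0), by positivity, fun κ s t hκ hκ1 hs G hGm hG x => ?_⟩
  have hvol := hob_volS κ s s0 hκ hκ1 h0 hs
  have hfin : volume (hobS κ s) ≠ ∞ := ne_top_of_le_ne_top ENNReal.ofReal_ne_top hvol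
  have hint : Integrable ((hobS κ s).indicator (fun _ => A)) :=
    (integrable_indicator_iff (hob_measS κ s)).2 (integrableOn_const hfin)
  unfold op
  refine (norm_integral_le_of_norm_le hint (Filter.Eventually.of_forall fun w => ?_)).trans ?_
  · rw [norm_mul]
    have hex : ‖ex (inner ℝ w x)‖ = 1 := by
      unfold ex
      rw [Complex.norm_exp_ofReal_mul_I]
    rw [hex, mul_one]
    exact hob_norm A hA a ha hb κ s t G hG w
  · rw [integral_indicator (hob_measS κ s), setIntegral_const, smul_eq_mul]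
    have h1 : volume.real (hobS κ s) ≤ 4 * π / s0 * κ ^ 2 := by
      rw [Measure.real]
      exact ENNReal.toReal_le_of_le_ofReal (by positivity) hvol
    calc volume.real (hobS κ s) * A ≤ (4 * π / s0 * κ ^ 2) * A := by
          apply mul_le_mul_of_nonneg_right h1 hA.le
      _ = A * (4 * π / s0) * κ ^ 2 := by ring

theorem strip_L2 (a : ℝ → ℝ) (ha : Cut a) (s0 : ℝ) (h0 : 0 < s0) : ∃ C : ℝ, 0 < C ∧
    ∀ κ s t : ℝ, 0 < κ → κ ≤ 1 → s0 ≤ s → ∀ G : E 2 → ℂ, Measurable G → (∀ w, ‖G w‖ ≤ 1) →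
    ∫⁻ x, ‖op a κ s t G x‖ₑ ^ (2:ℝ) ≤ ENNReal.ofReal (C * κ ^ 2) := by
  obtain ⟨A, hA, hb⟩ := cut_bdd a ha
  have hpi := Real.pi_pos
  refine ⟨A ^ 2 * (4 * π / s0), by positivity, fun κ s t hκ hκ1 hs G hGm hG => ?_⟩
  have hvol := hob_volS κ s s0 hκ hκ1 h0 hs
  have hfin : volume (hobS κ s) ≠ ∞ := ne_top_of_le_ne_top ENNReal.ofReal_ne_top hvol
  have hint : Integrable ((hobS κ s).indicator (fun _ => A)) :=
    (integrable_indicator_iff (hob_measS κ s)).2 (integrableOn_const hfin)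
  have hF : Integrable (fun w : E 2 => G w * amp a κ s t (‖w‖ ^ 2)) :=
    hint.mono' ((hGm.mul (hob_meas_amp a ha κ s t)).aestronglyMeasurable)
      (Filter.Eventually.of_forall fun w => hob_norm A hA a ha hb κ s t G hG w)
  have hB := bessel (volume : Measure (E 2)) (fun w : E 2 => w) measurable_id 1 ENNReal.one_ne_top
    (fun φ _ => by simp) (fun w : E 2 => G w * amp a κ s t (‖w‖ ^ 2)) hF
  rw [one_mul] at hB
  refine le_trans (le_of_eq ?_) (hB.trans ?_)
  · rfl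
  · calc ∫⁻ w : E 2, ‖G w * amp a κ s t (‖w‖ ^ 2)‖ₑ ^ (2:ℝ)
        ≤ ∫⁻ w : E 2, (hobS κ s).indicator (fun _ => ENNReal.ofReal (A ^ 2)) w := by
          refine lintegral_mono fun w => ?_
          have hn := hob_norm A hA a ha hb κ s t G hG w
          by_cases hw : w ∈ hobS κ s
          · rw [indicator_of_mem hw] at hn
            simp only [indicator_of_mem hw]
            rw [ENNReal.ofReal_pow hA.le, ← ENNReal.rpow_natCast]
            simp only [Nat.cast_ofNat]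
            refine ENNReal.rpow_le_rpow ?_ (by norm_num)
            rw [← ofReal_norm]
            exact ENNReal.ofReal_le_ofReal hn
          · rw [indicator_of_notMem hw] at hn
            simp only [indicator_of_notMem hw]
            have h0' : G w * amp a κ s t (‖w‖ ^ 2) = 0 := by
              rw [← norm_le_zero_iff]
              exact hn
            rw [h0']
            simp
      _ = ENNReal.ofReal (A ^ 2) * volume (hobS κ s) := by
          rw [lintegral_indicator (hob_measS κ s), setLIntegral_const]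
      _ ≤ ENNReal.ofReal (A ^ 2) * ENNReal.ofReal (4 * π / s0 * κ ^ 2) := by gcongr
      _ = ENNReal.ofReal (A ^ 2 * (4 * π / s0) * κ ^ 2) := by
          rw [← ENNReal.ofReal_mul (by positivity)]
          congr 1
          ring

theorem measurable_op (a : ℝ → ℝ) (ha : Cut a) (κ : ℝ) (G : E 2 → ℂ) (hG : Measurable G) :
    Measurable fun q : ℝ × ℝ × E 2 => op a κ q.1 q.2.1 G q.2.2 := by
  have hac : Measurable a := ha.1.continuous.measurable
  have hm : Measurable fun p : (ℝ × ℝ × E 2) × E 2 => vv κ p.1.1 (‖p.2‖ ^ 2) := by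
    unfold vv
    fun_prop
  have h1 : Measurable fun p : (ℝ × ℝ × E 2) × E 2 =>
      ((a (vv κ p.1.1 (‖p.2‖ ^ 2)) : ℝ) : ℂ) :=
    Complex.measurable_ofReal.comp (hac.comp hm)
  have h2 : Measurable fun p : (ℝ × ℝ × E 2) × E 2 => √(vv κ p.1.1 (‖p.2‖ ^ 2)) := hm.sqrt
  have h3 : Measurable fun p : (ℝ × ℝ × E 2) × E 2 => (inner ℝ p.2 p.1.2.2 : ℝ) :=
    measurable_snd.inner (measurable_snd.comp (measurable_snd.comp measurable_fst))
  have h4 : Measurable fun p : (ℝ × ℝ × E 2) × E 2 => G p.2 := hG.comp measurable_snd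
  have h5 : Measurable fun p : (ℝ × ℝ × E 2) × E 2 =>
      G p.2 * amp a κ p.1.1 p.1.2.1 (‖p.2‖ ^ 2) * ex (inner ℝ p.2 p.1.2.2) := by
    unfold amp ex
    fun_prop
  have h6 := h5.stronglyMeasurable.integral_prod_right' (ν := (volume : Measure (E 2)))
  exact h6.measurable

end Pool.Agent.MST
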