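import Pool.Agent.MST.ED1
import Pool.Agent.MST.OB

namespace Pool.Agent.MST

open MeasureTheory Set Pool.Agent.MP_6cbfb8_an
open scoped ENNReal Real

/-- The density `s0 ‖w‖² G w`, cut off outside the disc `s0 ‖w‖² ≤ 1`. -/
noncomputable def rg (s0 : ℝ) (G : E 2 → ℂ) (w : E 2) : ℂ :=
  if s0 * ‖w‖ ^ 2 ≤ 1 then ((s0 * ‖w‖ ^ 2 : ℝ) : ℂ) * G w else 0

/-
ROW ED2 (1.3 h). The derivative of `op` in the dilation parameter `s`.
measurable_rg, norm_rg_le: clear.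
hasDerivAt_amp: v = (1 - s ρ)/κ², v' = -ρ/κ². If v < 1/4, amp, amp (deriv a), amp (divs a) vanish in a neighbourhood of s, resp. at s. If v ≥ 1/4
then v > 0 and √v is differentiable: (exp(-2πi t κ √v))' = -2πi t κ (1/(2√v)) (-ρ/κ²) exp = (πi t ρ/(κ √v)) exp.
op_le: for fixed x, F σ = op a κ σ t G x has the derivative
 D σ = -(s0 κ²)⁻¹ op (deriv a) κ σ t (rg s0 G) x + (π t/(s0 κ)) i op (divs a) κ σ t (rg s0 G) x at every σ > s0/2, say at σ ≥ s0
(hasDerivAt_integral_of_dominated_loc_of_deriv_le on σ' > s0/2; the integrand vanishes for ‖w‖² ≥ 2/s0 since v ≤ 0 there; bound by constants times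
the indicator of the ball; at σ ≥ s0 the integrand of the derivative vanishes unless s0 ‖w‖² ≤ σ ‖w‖² < 1, so ‖w‖² G w = s0⁻¹ rg s0 G w).
D is measurable and bounded in σ on [α, β] (measurable_op, strip_sup for the Cut functions deriv a, divs a), so
F s - F u = ∫ σ in u..s, D σ (intervalIntegral.integral_eq_sub_of_hasDerivAt) and the norm is at most ∫ over [α, β] of ‖D‖.
-/
theorem measurable_rg (s0 : ℝ) (G : E 2 → ℂ) (hG : Measurable G) : Measurable (rg s0 G) := by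
  unfold rg
  refine Measurable.ite ?_ ?_ measurable_const
  · exact measurableSet_le (by fun_prop) measurable_const
  · have h1 : Measurable fun w : E 2 => ((s0 * ‖w‖ ^ 2 : ℝ) : ℂ) :=
      Complex.measurable_ofReal.comp (by fun_prop)
    exact h1.mul hG

theorem norm_rg_le (s0 : ℝ) (h0 : 0 < s0) (G : E 2 → ℂ) (hb : ∀ w, ‖G w‖ ≤ 1) (w : E 2) :
    ‖rg s0 G w‖ ≤ 1 := by
  unfold rg
  split_ifs with h
  · rw [norm_mul, Complex.norm_real, Real.norm_eq_abs, abs_of_nonneg (by positivity)]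
    exact mul_le_one₀ h (norm_nonneg _) (hb w)
  · simp

theorem hed2_deriv_zero (a : ℝ → ℝ) (ha : Cut3 a) {v : ℝ} (hv : v < 1 / 4) : deriv a v = 0 := by
  have h : a =ᶠ[nhds v] fun _ => 0 := by
    filter_upwards [Iio_mem_nhds hv] with w hw
    exact ha.2 w (Or.inl (le_of_lt hw))
  rw [h.deriv_eq]
  simp

theorem hasDerivAt_amp (a : ℝ → ℝ) (ha : Cut3 a) (κ : ℝ) (hκ : 0 < κ) (s t ρ : ℝ) :
    HasDerivAt (fun s => amp a κ s t ρ)
      (-((ρ / κ ^ 2 : ℝ) : ℂ) * amp (deriv a) κ s t ρ +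
        ((π * t * ρ / κ : ℝ) : ℂ) * Complex.I * amp (divs a) κ s t ρ) s := by
  have hv' : HasDerivAt (fun s => vv κ s ρ) (-ρ / κ ^ 2) s := by
    unfold vv
    have h1 : HasDerivAt (fun s : ℝ => 1 - s * ρ) (-ρ) s := by
      have := ((hasDerivAt_id s).mul_const ρ).const_sub 1
      simpa using this
    exact h1.div_const _
  rcases lt_or_ge (vv κ s ρ) (1 / 4) with hv | hv
  · have h0 : (fun s => amp a κ s t ρ) =ᶠ[nhds s] fun _ => 0 := by
      have h1 := hv'.continuousAt.eventually (Iio_mem_nhds hv)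
      filter_upwards [h1] with σ hσ
      unfold amp
      rw [ha.2 _ (Or.inl (le_of_lt hσ))]
      simp
    have e : (-((ρ / κ ^ 2 : ℝ) : ℂ) * amp (deriv a) κ s t ρ +
        ((π * t * ρ / κ : ℝ) : ℂ) * Complex.I * amp (divs a) κ s t ρ) = 0 := by
      unfold amp divs
      rw [hed2_deriv_zero a ha hv, ha.2 _ (Or.inl hv.le)]
      simp
    rw [e]
    exact (hasDerivAt_const s (0 : ℂ)).congr_of_eventuallyEq h0
  · have hv0 : 0 < vv κ s ρ := by linarith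
    have hsq : 0 < √(vv κ s ρ) := Real.sqrt_pos.2 hv0
    have ha1 : HasDerivAt a (deriv a (vv κ s ρ)) (vv κ s ρ) :=
      (ha.1.differentiable (by norm_num)).differentiableAt.hasDerivAt
    have h1 : HasDerivAt (fun s => ((a (vv κ s ρ) : ℝ) : ℂ))
        ((deriv a (vv κ s ρ) * (-ρ / κ ^ 2) : ℝ) : ℂ) s := (ha1.comp s hv').ofReal_comp
    have h2 : HasDerivAt (fun s => √(vv κ s ρ)) (-ρ / κ ^ 2 / (2 * √(vv κ s ρ))) s :=
      hv'.sqrt hv0.ne'
    have h3 : HasDerivAt (fun s => -(2 * π * (t * (κ * √(vv κ s ρ)))))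
        (-(2 * π * (t * (κ * (-ρ / κ ^ 2 / (2 * √(vv κ s ρ))))))) s :=
      (((h2.const_mul κ).const_mul t).const_mul (2 * π)).neg
    have h4 : HasDerivAt (fun s => ex (t * (κ * √(vv κ s ρ))))
        (ex (t * (κ * √(vv κ s ρ))) *
          ((-(2 * π * (t * (κ * (-ρ / κ ^ 2 / (2 * √(vv κ s ρ)))))) : ℝ) * Complex.I)) s := by
      unfold ex
      exact (h3.ofReal_comp.mul_const Complex.I).cexp
    have h5 := h1.mul h4
    unfold amp divs
    refine h5.congr_deriv ?_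
    have hκc : (κ : ℂ) ≠ 0 := by exact_mod_cast hκ.ne'
    have hsc : ((√(vv κ s ρ) : ℝ) : ℂ) ≠ 0 := by exact_mod_cast hsq.ne'
    push_cast
    field_simp

theorem hed2_int (a : ℝ → ℝ) (ha : Cut a) (s0 : ℝ) (h0 : 0 < s0) (κ s t : ℝ) (hκ : 0 < κ)
    (hκ1 : κ ≤ 1) (hs : s0 ≤ s) (G : E 2 → ℂ) (hG : Measurable G) (hb : ∀ w, ‖G w‖ ≤ 1)
    (x : E 2) : Integrable fun w : E 2 => G w * amp a κ s t (‖w‖ ^ 2) * ex (inner ℝ w x) := by
  obtain ⟨A, hA, hb'⟩ := cut_bdd a ha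
  have hvol := hob_volS κ s s0 hκ hκ1 h0 hs
  have hfin : volume (hobS κ s) ≠ ∞ := ne_top_of_le_ne_top ENNReal.ofReal_ne_top hvol
  have hint : Integrable ((hobS κ s).indicator (fun _ => A)) :=
    (integrable_indicator_iff (hob_measS κ s)).2 (integrableOn_const hfin)
  have hm : Measurable fun w : E 2 => G w * amp a κ s t (‖w‖ ^ 2) * ex (inner ℝ w x) := by
    have h1 : Measurable fun w : E 2 => ex (inner ℝ w x) := by
      unfold ex
      have : Measurable fun w : E 2 => (inner ℝ w x : ℝ) := measurable_id.inner measurable_const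
      fun_prop
    exact (hG.mul (hob_meas_amp a ha κ s t)).mul h1
  refine hint.mono' hm.aestronglyMeasurable (Filter.Eventually.of_forall fun w => ?_)
  rw [norm_mul]
  have hex : ‖ex (inner ℝ w x)‖ = 1 := by
    unfold ex
    rw [Complex.norm_exp_ofReal_mul_I]
  rw [hex, mul_one]
  exact hob_norm A hA a ha hb' κ s t G hb w

theorem hed2_meas (a : ℝ → ℝ) (ha : Cut a) (κ s t : ℝ) (G : E 2 → ℂ) (hG : Measurable G)
    (x : E 2) : Measurable fun w : E 2 => G w * amp a κ s t (‖w‖ ^ 2) * ex (inner ℝ w x) := by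
  have h1 : Measurable fun w : E 2 => ex (inner ℝ w x) := by
    unfold ex
    have : Measurable fun w : E 2 => (inner ℝ w x : ℝ) := measurable_id.inner measurable_const
    fun_prop
  exact (hG.mul (hob_meas_amp a ha κ s t)).mul h1

/-- the integrand of the derivative -/
noncomputable def hed2_F (a : ℝ → ℝ) (κ t : ℝ) (G : E 2 → ℂ) (x : E 2) (σ : ℝ) (w : E 2) : ℂ :=
  G w * (-((‖w‖ ^ 2 / κ ^ 2 : ℝ) : ℂ) * amp (deriv a) κ σ t (‖w‖ ^ 2) +
        ((π * t * ‖w‖ ^ 2 / κ : ℝ) : ℂ) * Complex.I * amp (divs a) κ σ t (‖w‖ ^ 2)) *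
    ex (inner ℝ w x)

theorem hed2_F_eq (a : ℝ → ℝ) (ha : Cut3 a) (s0 : ℝ) (h0 : 0 < s0) (κ t : ℝ) (hκ : 0 < κ)
    (G : E 2 → ℂ) (x : E 2) (σ : ℝ) (hσ : s0 ≤ σ) (w : E 2) :
    hed2_F a κ t G x σ w =
      (-((s0 * κ ^ 2)⁻¹ : ℝ) : ℂ) *
        (rg s0 G w * amp (deriv a) κ σ t (‖w‖ ^ 2) * ex (inner ℝ w x)) +
      ((π * t / (s0 * κ) : ℝ) : ℂ) * Complex.I *
        (rg s0 G w * amp (divs a) κ σ t (‖w‖ ^ 2) * ex (inner ℝ w x)) := by
  unfold hed2_F rg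
  have hκc : (κ : ℂ) ≠ 0 := by exact_mod_cast hκ.ne'
  have h0c : (s0 : ℂ) ≠ 0 := by exact_mod_cast h0.ne'
  split_ifs with h
  · push_cast
    field_simp
  · have hv : vv κ σ (‖w‖ ^ 2) < 1 / 4 := by
      have h1 : 1 < σ * ‖w‖ ^ 2 := by
        have := mul_le_mul_of_nonneg_right hσ (sq_nonneg ‖w‖)
        linarith
      have h2 : vv κ σ (‖w‖ ^ 2) < 0 := by
        unfold vv
        exact div_neg_of_neg_of_pos (by linarith) (by positivity)
      linarith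
    have e1 : amp (deriv a) κ σ t (‖w‖ ^ 2) = 0 := by
      unfold amp
      rw [hed2_deriv_zero a ha hv]
      simp
    have e2 : amp (divs a) κ σ t (‖w‖ ^ 2) = 0 := by
      unfold amp divs
      rw [ha.2 _ (Or.inl hv.le)]
      simp
    rw [e1, e2]
    simp

theorem hed2_bound (a : ℝ → ℝ) (ha : Cut3 a) (s0 : ℝ) (h0 : 0 < s0) (κ t : ℝ) (hκ : 0 < κ)
    (G : E 2 → ℂ) (hb : ∀ w, ‖G w‖ ≤ 1) (x : E 2) : ∃ C : ℝ, 0 ≤ C ∧ ∀ σ ∈ Ioi (s0 / 2),
      ∀ w : E 2, ‖hed2_F a κ t G x σ w‖ ≤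
        (Metric.closedBall (0 : E 2) (√(2 / s0))).indicator (fun _ => C) w := by
  obtain ⟨A1, hA1, hb1⟩ := cut_bdd _ (cut_deriv a ha)
  obtain ⟨A2, hA2, hb2⟩ := cut_bdd _ (cut_divs a (cut3_cut a ha))
  have hpi := Real.pi_pos
  refine ⟨2 / s0 / κ ^ 2 * A1 + π * |t| * (2 / s0) / κ * A2, by positivity, ?_⟩
  intro σ hσ w
  have hσ' : s0 / 2 < σ := hσ
  have hex : ∀ b : ℝ, ‖ex b‖ = 1 := by
    intro b
    unfold ex
    rw [Complex.norm_exp_ofReal_mul_I]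
  by_cases hw : w ∈ Metric.closedBall (0 : E 2) (√(2 / s0))
  · rw [indicator_of_mem hw]
    rw [mem_closedBall_zero_iff] at hw
    have hw2 : ‖w‖ ^ 2 ≤ 2 / s0 := by
      have := pow_le_pow_left₀ (norm_nonneg w) hw 2
      rwa [Real.sq_sqrt (by positivity)] at this
    unfold hed2_F
    rw [norm_mul, norm_mul, hex, mul_one]
    have e1 : ‖-((‖w‖ ^ 2 / κ ^ 2 : ℝ) : ℂ) * amp (deriv a) κ σ t (‖w‖ ^ 2)‖ ≤
        2 / s0 / κ ^ 2 * A1 := by
      unfold amp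
      rw [norm_mul, norm_neg, Complex.norm_real, Real.norm_eq_abs, norm_mul, hex, mul_one,
        Complex.norm_real, Real.norm_eq_abs, abs_of_nonneg (by positivity)]
      refine mul_le_mul ?_ (hb1 _) (abs_nonneg _) (by positivity)
      gcongr
    have e2 : ‖((π * t * ‖w‖ ^ 2 / κ : ℝ) : ℂ) * Complex.I * amp (divs a) κ σ t (‖w‖ ^ 2)‖ ≤
        π * |t| * (2 / s0) / κ * A2 := by
      unfold amp
      rw [norm_mul, norm_mul, Complex.norm_I, mul_one, Complex.norm_real, Real.norm_eq_abs,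
        norm_mul, hex, mul_one, Complex.norm_real, Real.norm_eq_abs, abs_div, abs_mul, abs_mul,
        abs_of_pos hpi, abs_of_nonneg (sq_nonneg ‖w‖), abs_of_pos hκ]
      refine mul_le_mul ?_ (hb2 _) (abs_nonneg _) (by positivity)
      gcongr
    calc ‖G w‖ * ‖-((‖w‖ ^ 2 / κ ^ 2 : ℝ) : ℂ) * amp (deriv a) κ σ t (‖w‖ ^ 2) +
          ((π * t * ‖w‖ ^ 2 / κ : ℝ) : ℂ) * Complex.I * amp (divs a) κ σ t (‖w‖ ^ 2)‖
        ≤ 1 * (2 / s0 / κ ^ 2 * A1 + π * |t| * (2 / s0) / κ * A2) := by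
          refine mul_le_mul (hb w) ((norm_add_le _ _).trans (add_le_add e1 e2)) (norm_nonneg _)
            zero_le_one
      _ = _ := one_mul _
  · rw [indicator_of_notMem hw]
    rw [mem_closedBall_zero_iff, not_le] at hw
    have hw0 : 0 < ‖w‖ := lt_of_le_of_lt (Real.sqrt_nonneg _) hw
    rw [Real.sqrt_lt' hw0] at hw
    have hv : vv κ σ (‖w‖ ^ 2) < 1 / 4 := by
      have h1 : 1 < σ * ‖w‖ ^ 2 := by
        rw [div_lt_iff₀ h0] at hw
        have h2 : 0 < ‖w‖ ^ 2 := by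
          by_contra h
          have : ‖w‖ ^ 2 = 0 := le_antisymm (not_lt.1 h) (sq_nonneg _)
          rw [this] at hw
          linarith
        nlinarith
      have h2 : vv κ σ (‖w‖ ^ 2) < 0 := by
        unfold vv
        exact div_neg_of_neg_of_pos (by linarith) (by positivity)
      linarith
    have e1 : amp (deriv a) κ σ t (‖w‖ ^ 2) = 0 := by
      unfold amp
      rw [hed2_deriv_zero a ha hv]
      simp
    have e2 : amp (divs a) κ σ t (‖w‖ ^ 2) = 0 := by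
      unfold amp divs
      rw [ha.2 _ (Or.inl hv.le)]
      simp
    unfold hed2_F
    rw [e1, e2]
    simp

theorem hed2_hasDeriv (a : ℝ → ℝ) (ha : Cut3 a) (s0 : ℝ) (h0 : 0 < s0) (κ t : ℝ) (hκ : 0 < κ)
    (hκ1 : κ ≤ 1) (G : E 2 → ℂ) (hG : Measurable G) (hb : ∀ w, ‖G w‖ ≤ 1) (σ : ℝ)
    (hσ : s0 ≤ σ) (x : E 2) :
    HasDerivAt (fun σ => op a κ σ t G x)
      ((-((s0 * κ ^ 2)⁻¹ : ℝ) : ℂ) * op (deriv a) κ σ t (rg s0 G) x +
        ((π * t / (s0 * κ) : ℝ) : ℂ) * Complex.I * op (divs a) κ σ t (rg s0 G) x) σ := by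
  have hc := cut3_cut a ha
  have hc1 := cut_deriv a ha
  have hc2 := cut_divs a hc
  obtain ⟨C, hC, hbd⟩ := hed2_bound a ha s0 h0 κ t hκ G hb x
  have hfin : volume (Metric.closedBall (0 : E 2) (√(2 / s0))) ≠ ∞ :=
    measure_closedBall_lt_top.ne
  have hbi : Integrable ((Metric.closedBall (0 : E 2) (√(2 / s0))).indicator (fun _ => C)) :=
    (integrable_indicator_iff measurableSet_closedBall).2 (integrableOn_const hfin)
  have hrm := measurable_rg s0 G hG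
  have hrb := norm_rg_le s0 h0 G hb
  have hi1 := hed2_int _ hc1 s0 h0 κ σ t hκ hκ1 hσ (rg s0 G) hrm hrb x
  have hi2 := hed2_int _ hc2 s0 h0 κ σ t hκ hκ1 hσ (rg s0 G) hrm hrb x
  have hFi : Integrable (hed2_F a κ t G x σ) := by
    have h1 : hed2_F a κ t G x σ = fun w => (-((s0 * κ ^ 2)⁻¹ : ℝ) : ℂ) *
        (rg s0 G w * amp (deriv a) κ σ t (‖w‖ ^ 2) * ex (inner ℝ w x)) +
      ((π * t / (s0 * κ) : ℝ) : ℂ) * Complex.I *
        (rg s0 G w * amp (divs a) κ σ t (‖w‖ ^ 2) * ex (inner ℝ w x)) :=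
      funext fun w => hed2_F_eq a ha s0 h0 κ t hκ G x σ hσ w
    rw [h1]
    exact (hi1.const_mul _).add (hi2.const_mul _)
  have hkey := hasDerivAt_integral_of_dominated_loc_of_deriv_le (μ := (volume : Measure (E 2)))
    (F := fun σ w => G w * amp a κ σ t (‖w‖ ^ 2) * ex (inner ℝ w x))
    (F' := hed2_F a κ t G x) (x₀ := σ) (s := Ioi (s0 / 2))
    (bound := (Metric.closedBall (0 : E 2) (√(2 / s0))).indicator (fun _ => C))
    (Ioi_mem_nhds (by linarith))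
    (Filter.Eventually.of_forall fun σ => (hed2_meas a hc κ σ t G hG x).aestronglyMeasurable)
    (hed2_int a hc s0 h0 κ σ t hκ hκ1 hσ G hG hb x)
    hFi.aestronglyMeasurable
    (Filter.Eventually.of_forall fun w σ hσ => hbd σ hσ w) hbi
    (Filter.Eventually.of_forall fun w σ hσ => by
      have h1 := hasDerivAt_amp a ha κ hκ σ t (‖w‖ ^ 2)
      exact (h1.const_mul (G w)).mul_const (ex (inner ℝ w x)))
  refine hkey.2.congr_deriv ?_
  rw [integral_congr_ae (Filter.Eventually.of_forall fun w =>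
    hed2_F_eq a ha s0 h0 κ t hκ G x σ hσ w)]
  rw [integral_add (hi1.const_mul _) (hi2.const_mul _), integral_const_mul, integral_const_mul]
  rfl

theorem op_le (a : ℝ → ℝ) (ha : Cut3 a) (s0 : ℝ) (h0 : 0 < s0) (κ t : ℝ) (hκ : 0 < κ)
    (hκ1 : κ ≤ 1) (G : E 2 → ℂ) (hG : Measurable G) (hb : ∀ w, ‖G w‖ ≤ 1) (α β : ℝ) (hα : s0 ≤ α)
    (u s : ℝ) (hu : u ∈ Icc α β) (hs : s ∈ Icc α β) (x : E 2) :
    ‖op a κ s t G x‖ₑ ≤ ‖op a κ u t G x‖ₑ + ∫⁻ σ in Icc α β,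
      (ENNReal.ofReal (s0 * κ ^ 2)⁻¹ * ‖op (deriv a) κ σ t (rg s0 G) x‖ₑ +
        ENNReal.ofReal (π * |t| / (s0 * κ)) * ‖op (divs a) κ σ t (rg s0 G) x‖ₑ) := by
  have hc := cut3_cut a ha
  have hc1 := cut_deriv a ha
  have hc2 := cut_divs a hc
  have hpi := Real.pi_pos
  have hrm := measurable_rg s0 G hG
  have hrb := norm_rg_le s0 h0 G hb
  obtain ⟨C1, hC1, hb1⟩ := strip_sup _ hc1 s0 h0
  obtain ⟨C2, hC2, hb2⟩ := strip_sup _ hc2 s0 h0
  set D : ℝ → ℂ := fun σ => (-((s0 * κ ^ 2)⁻¹ : ℝ) : ℂ) * op (deriv a) κ σ t (rg s0 G) x +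
        ((π * t / (s0 * κ) : ℝ) : ℂ) * Complex.I * op (divs a) κ σ t (rg s0 G) x with hD
  have hDm : Measurable D := by
    have h1 : Measurable fun σ : ℝ => op (deriv a) κ σ t (rg s0 G) x :=
      (measurable_op _ hc1 κ _ hrm).comp (f := fun σ : ℝ => (σ, t, x)) (by fun_prop)
    have h2 : Measurable fun σ : ℝ => op (divs a) κ σ t (rg s0 G) x :=
      (measurable_op _ hc2 κ _ hrm).comp (f := fun σ : ℝ => (σ, t, x)) (by fun_prop)
    exact (measurable_const.mul h1).add (measurable_const.mul h2)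
  have hsub : uIcc u s ⊆ Icc α β := uIcc_subset_Icc hu hs
  have hsub' : uIoc u s ⊆ Icc α β := uIoc_subset_uIcc.trans hsub
  have hn1 : ‖(-((s0 * κ ^ 2)⁻¹ : ℝ) : ℂ)‖ = (s0 * κ ^ 2)⁻¹ := by
    rw [norm_neg, Complex.norm_real, Real.norm_eq_abs, abs_of_pos (by positivity)]
  have hn2 : ‖((π * t / (s0 * κ) : ℝ) : ℂ) * Complex.I‖ = π * |t| / (s0 * κ) := by
    rw [norm_mul, Complex.norm_I, mul_one, Complex.norm_real, Real.norm_eq_abs, abs_div, abs_mul,
      abs_of_pos hpi, abs_of_pos (by positivity : 0 < s0 * κ)]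
  have hDb : ∀ σ ∈ Icc α β, ‖D σ‖ ≤ (s0 * κ ^ 2)⁻¹ * (C1 * κ ^ 2) +
      π * |t| / (s0 * κ) * (C2 * κ ^ 2) := by
    intro σ hσ
    have hσ0 : s0 ≤ σ := hα.trans hσ.1
    rw [hD]
    refine (norm_add_le _ _).trans (add_le_add ?_ ?_)
    · rw [norm_mul, hn1]
      exact mul_le_mul_of_nonneg_left (hb1 κ σ t hκ hκ1 hσ0 _ hrm hrb x) (by positivity)
    · rw [norm_mul, hn2]
      exact mul_le_mul_of_nonneg_left (hb2 κ σ t hκ hκ1 hσ0 _ hrm hrb x) (by positivity)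
  have hDi : IntervalIntegrable D volume u s := by
    rw [intervalIntegrable_iff]
    refine Measure.integrableOn_of_bounded (M := (s0 * κ ^ 2)⁻¹ * (C1 * κ ^ 2) +
      π * |t| / (s0 * κ) * (C2 * κ ^ 2)) ?_ hDm.aestronglyMeasurable ?_
    · exact ne_top_of_le_ne_top isCompact_uIcc.measure_lt_top.ne (measure_mono uIoc_subset_uIcc)
    · refine (ae_restrict_iff' measurableSet_uIoc).2 (Filter.Eventually.of_forall fun σ hσ => ?_)
      exact hDb σ (hsub' hσ)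
  have hFTC := intervalIntegral.integral_eq_sub_of_hasDerivAt
    (f := fun σ => op a κ σ t G x) (f' := D) (a := u) (b := s)
    (fun σ hσ => hed2_hasDeriv a ha s0 h0 κ t hκ hκ1 G hG hb σ (hα.trans (hsub hσ).1) x) hDi
  have he : op a κ s t G x = op a κ u t G x + ∫ σ in u..s, D σ := by
    rw [hFTC]
    ring
  have hDe : ∀ σ, ‖D σ‖ₑ ≤ ENNReal.ofReal (s0 * κ ^ 2)⁻¹ * ‖op (deriv a) κ σ t (rg s0 G) x‖ₑ +
        ENNReal.ofReal (π * |t| / (s0 * κ)) * ‖op (divs a) κ σ t (rg s0 G) x‖ₑ := by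
    intro σ
    rw [hD]
    refine (enorm_add_le _ _).trans (add_le_add ?_ ?_)
    · rw [enorm_mul, ← ofReal_norm (-((s0 * κ ^ 2)⁻¹ : ℝ) : ℂ), hn1]
    · rw [enorm_mul, ← ofReal_norm (((π * t / (s0 * κ) : ℝ) : ℂ) * Complex.I), hn2]
  rw [he]
  refine (enorm_add_le _ _).trans (add_le_add le_rfl ?_)
  have h1 : ‖∫ σ in u..s, D σ‖ₑ = ‖∫ σ in uIoc u s, D σ‖ₑ := by
    rw [intervalIntegral.intervalIntegral_eq_integral_uIoc]
    split_ifs
    · rw [one_smul]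
    · rw [neg_smul, one_smul, enorm_neg]
  rw [h1]
  refine (enorm_integral_le_lintegral_enorm _).trans ?_
  refine (lintegral_mono_set hsub').trans ?_
  exact lintegral_mono hDe

end Pool.Agent.MST
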