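import Pool.Agent.MST.ED2

namespace Pool.Agent.MST

open MeasureTheory Set Pool.Agent.MP_6cbfb8_an
open scoped ENNReal Real

/-- The sum of three `L⁴` norms (to the fourth power) on the time shell of size `T`. -/
noncomputable def psi (a : ℝ → ℝ) (s0 κ T : ℝ) (G : E 2 → ℂ) (u : ℝ) : ℝ≥0∞ :=
  (∫⁻ t in {t : ℝ | T ≤ |t| ∧ |t| ≤ 2 * T}, ∫⁻ x : E 2, ‖op a κ u t G x‖ₑ ^ (4:ℝ)) +
  (∫⁻ t in {t : ℝ | T ≤ |t| ∧ |t| ≤ 2 * T}, ∫⁻ x : E 2,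
    ‖op (deriv a) κ u t (rg s0 G) x‖ₑ ^ (4:ℝ)) +
  ∫⁻ t in {t : ℝ | T ≤ |t| ∧ |t| ≤ 2 * T}, ∫⁻ x : E 2,
    ‖op (divs a) κ u t (rg s0 G) x‖ₑ ^ (4:ℝ)

/-
ROW ED3 (1.2 h). Supremum over a short interval of dilation parameters.
measurable_psi: measurable_op (OB.lean) and Measurable.lintegral_prod_right' twice (as hco_meas2 in CO.lean).
sup_four: l = β - α, L = s1 - s0. Average `op_le` over u ∈ [α, β] (setLIntegral, divide by l): for |t| ≤ 2T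
 ‖op a s‖ ≤ l⁻¹ ∫_{[α,β]} ‖op a u‖ du + ∫_{[α,β]} (A ‖op a' σ‖ + B ‖op ã σ‖) dσ, A = (s0 κ²)⁻¹, B = 2πT/(s0 κ), and
 l A ≤ L/(s0 T) ≤ L/s0, l B ≤ 2π L κ/s0 ≤ 2π L/s0 (l ≤ L κ²/T). With c = max 1 (2πL/s0):
 ‖op a s‖ ≤ c l⁻¹ ∫_{[α,β]} (f1 + f2 + f3), f1 = ‖op a u t G x‖ₑ, f2 = ‖op (deriv a) u t (rg s0 G) x‖ₑ, f3 = ‖op (divs a) ...‖ₑ.
 Jensen (l⁻¹ ∫ f)^4 ≤ l⁻¹ ∫ f^4 (Hölder: ENNReal.lintegral_mul_le_Lp_mul_Lq with the constant 1, or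
 a lemma of Tools.lean), (f1+f2+f3)^4 ≤ 3^4 (f1^4+f2^4+f3^4) (add_rpow_le_three). Integrate over t in the shell and x, Tonelli
 (lintegral_lintegral_swap twice). C = ofReal (c^4 3^4).
-/

/-- measurability of the shell -/
theorem hed3_shell (T : ℝ) : MeasurableSet {t : ℝ | T ≤ |t| ∧ |t| ≤ 2 * T} :=
  (measurableSet_le measurable_const measurable_id.abs).inter
    (measurableSet_le measurable_id.abs measurable_const)

/-- measurability in the first variable -/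
theorem hed3_meas (S : Set ℝ) (Φ : ℝ × ℝ × E 2 → ℝ≥0∞) (hΦ : Measurable Φ) :
    Measurable fun s : ℝ => ∫⁻ t in S, ∫⁻ x : E 2, Φ (s, t, x) := by
  have h4 : Measurable fun q : (ℝ × ℝ) × E 2 => (q.1.1, q.1.2, q.2) := by fun_prop
  have h3 : Measurable fun q : (ℝ × ℝ) × E 2 => Φ (q.1.1, q.1.2, q.2) := hΦ.comp h4
  have h5 : Measurable fun q : ℝ × ℝ => ∫⁻ x : E 2, Φ (q.1, q.2, x) := h3.lintegral_prod_right'
  exact h5.lintegral_prod_right'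

theorem hed3_opm (a : ℝ → ℝ) (ha : Cut a) (κ : ℝ) (G : E 2 → ℂ) (hG : Measurable G) :
    Measurable fun q : ℝ × ℝ × E 2 => ‖op a κ q.1 q.2.1 G q.2.2‖ₑ :=
  (measurable_op a ha κ G hG).enorm

theorem measurable_psi (a : ℝ → ℝ) (ha : Cut3 a) (s0 κ T : ℝ) (G : E 2 → ℂ) (hG : Measurable G) :
    Measurable (psi a s0 κ T G) := by
  have h1 := hed3_meas {t : ℝ | T ≤ |t| ∧ |t| ≤ 2 * T}
    (fun q => ‖op a κ q.1 q.2.1 G q.2.2‖ₑ ^ (4:ℝ))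
    ((hed3_opm a (cut3_cut a ha) κ G hG).pow_const _)
  have h2 := hed3_meas {t : ℝ | T ≤ |t| ∧ |t| ≤ 2 * T}
    (fun q => ‖op (deriv a) κ q.1 q.2.1 (rg s0 G) q.2.2‖ₑ ^ (4:ℝ))
    ((hed3_opm (deriv a) (cut_deriv a ha) κ (rg s0 G) (measurable_rg s0 G hG)).pow_const _)
  have h3 := hed3_meas {t : ℝ | T ≤ |t| ∧ |t| ≤ 2 * T}
    (fun q => ‖op (divs a) κ q.1 q.2.1 (rg s0 G) q.2.2‖ₑ ^ (4:ℝ))
    ((hed3_opm (divs a) (cut_divs a (cut3_cut a ha)) κ (rg s0 G)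
      (measurable_rg s0 G hG)).pow_const _)
  exact (h1.add h2).add h3

/-- Jensen for the average over an interval. -/
theorem hed3_jensen (f : ℝ → ℝ≥0∞) (hf : Measurable f) (α β : ℝ) (hl : α < β) :
    (ENNReal.ofReal (β - α)⁻¹ * ∫⁻ u in Icc α β, f u) ^ (4:ℝ) ≤
      ENNReal.ofReal (β - α)⁻¹ * ∫⁻ u in Icc α β, f u ^ (4:ℝ) := by
  have hl0 : 0 < β - α := sub_pos.2 hl
  have h := ENNReal.lintegral_mul_norm_pow_le (μ := (volume : Measure ℝ).restrict (Icc α β))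
    (f := fun u => f u ^ (4:ℝ)) (g := fun _ => (1 : ℝ≥0∞)) (hf.pow_const _).aemeasurable
    aemeasurable_const (p := 1 / 4) (q := 3 / 4) (by norm_num) (by norm_num) (by norm_num)
  have e1 : ∫⁻ u in Icc α β, (f u ^ (4:ℝ)) ^ (1 / 4 : ℝ) * (1 : ℝ≥0∞) ^ (3 / 4 : ℝ) =
      ∫⁻ u in Icc α β, f u := by
    refine lintegral_congr fun u => ?_
    rw [← ENNReal.rpow_mul, ENNReal.one_rpow, mul_one]
    norm_num
  have e2 : ∫⁻ _u in Icc α β, (1 : ℝ≥0∞) = ENNReal.ofReal (β - α) := by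
    rw [lintegral_one, Measure.restrict_apply_univ, Real.volume_Icc]
  rw [e1, e2] at h
  have h4 : (∫⁻ u in Icc α β, f u) ^ (4:ℝ) ≤
      (∫⁻ u in Icc α β, f u ^ (4:ℝ)) * ENNReal.ofReal (β - α) ^ (3:ℝ) := by
    refine (ENNReal.rpow_le_rpow h (by norm_num)).trans (le_of_eq ?_)
    rw [ENNReal.mul_rpow_of_nonneg _ _ (by norm_num : (0:ℝ) ≤ 4), ← ENNReal.rpow_mul,
      ← ENNReal.rpow_mul]
    norm_num
  have e3 : ENNReal.ofReal (β - α)⁻¹ ^ (4:ℝ) * ENNReal.ofReal (β - α) ^ (3:ℝ) =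
      ENNReal.ofReal (β - α)⁻¹ := by
    rw [ENNReal.ofReal_rpow_of_pos (by positivity), ENNReal.ofReal_rpow_of_pos hl0,
      ← ENNReal.ofReal_mul (by positivity)]
    congr 1
    rw [Real.inv_rpow hl0.le, show (4:ℝ) = 3 + 1 by norm_num, Real.rpow_add hl0, Real.rpow_one]
    have : (0:ℝ) < (β - α) ^ (3:ℝ) := by positivity
    field_simp
  calc (ENNReal.ofReal (β - α)⁻¹ * ∫⁻ u in Icc α β, f u) ^ (4:ℝ)
      = ENNReal.ofReal (β - α)⁻¹ ^ (4:ℝ) * (∫⁻ u in Icc α β, f u) ^ (4:ℝ) :=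
        ENNReal.mul_rpow_of_nonneg _ _ (by norm_num)
    _ ≤ ENNReal.ofReal (β - α)⁻¹ ^ (4:ℝ) *
        ((∫⁻ u in Icc α β, f u ^ (4:ℝ)) * ENNReal.ofReal (β - α) ^ (3:ℝ)) := by gcongr
    _ = (ENNReal.ofReal (β - α)⁻¹ ^ (4:ℝ) * ENNReal.ofReal (β - α) ^ (3:ℝ)) *
        ∫⁻ u in Icc α β, f u ^ (4:ℝ) := by ring
    _ = _ := by rw [e3]

/-- The averaging step. -/
theorem hed3_avg (g : ℝ≥0∞) (f1 f2 f3 : ℝ → ℝ≥0∞) (h1 : Measurable f1) (h2 : Measurable f2)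
    (h3 : Measurable f3) (α β : ℝ) (hl : α < β) (A B c : ℝ≥0∞) (hc : 1 ≤ c)
    (hA : ENNReal.ofReal (β - α) * A ≤ c) (hB : ENNReal.ofReal (β - α) * B ≤ c)
    (h : ∀ u ∈ Icc α β, g ≤ f1 u + ∫⁻ σ in Icc α β, (A * f2 σ + B * f3 σ)) :
    g ≤ c * (ENNReal.ofReal (β - α)⁻¹ * ∫⁻ u in Icc α β, (f1 u + f2 u + f3 u)) := by
  have hl0 : 0 < β - α := sub_pos.2 hl
  have e0 : ENNReal.ofReal (β - α)⁻¹ * ENNReal.ofReal (β - α) = 1 := by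
    rw [← ENNReal.ofReal_mul (by positivity), inv_mul_cancel₀ hl0.ne', ENNReal.ofReal_one]
  have k1 : ∫⁻ _u in Icc α β, g ≤
      ∫⁻ u in Icc α β, (f1 u + ∫⁻ σ in Icc α β, (A * f2 σ + B * f3 σ)) :=
    setLIntegral_mono' measurableSet_Icc h
  rw [setLIntegral_const, Real.volume_Icc, lintegral_add_left h1, setLIntegral_const,
    Real.volume_Icc] at k1
  have m2 : Measurable fun σ => A * f2 σ + B * f3 σ := (h2.const_mul _).add (h3.const_mul _)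
  have k2 : (∫⁻ σ in Icc α β, (A * f2 σ + B * f3 σ)) * ENNReal.ofReal (β - α) ≤
      ∫⁻ σ in Icc α β, (c * f2 σ + c * f3 σ) := by
    rw [mul_comm, ← lintegral_const_mul _ m2]
    refine lintegral_mono fun σ => ?_
    calc ENNReal.ofReal (β - α) * (A * f2 σ + B * f3 σ)
        = (ENNReal.ofReal (β - α) * A) * f2 σ + (ENNReal.ofReal (β - α) * B) * f3 σ := by ring
      _ ≤ c * f2 σ + c * f3 σ := by gcongr
  calc g = ENNReal.ofReal (β - α)⁻¹ * (g * ENNReal.ofReal (β - α)) := by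
        rw [mul_comm g, ← mul_assoc, e0, one_mul]
    _ ≤ ENNReal.ofReal (β - α)⁻¹ * ((∫⁻ u in Icc α β, f1 u) +
          ∫⁻ σ in Icc α β, (c * f2 σ + c * f3 σ)) := by
        gcongr
        exact k1.trans (add_le_add le_rfl k2)
    _ = ENNReal.ofReal (β - α)⁻¹ * ∫⁻ u in Icc α β, (f1 u + (c * f2 u + c * f3 u)) := by
        rw [lintegral_add_left h1]
    _ ≤ ENNReal.ofReal (β - α)⁻¹ * ∫⁻ u in Icc α β, c * (f1 u + f2 u + f3 u) := by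
        gcongr with u
        calc f1 u + (c * f2 u + c * f3 u) = 1 * f1 u + (c * f2 u + c * f3 u) := by rw [one_mul]
          _ ≤ c * f1 u + (c * f2 u + c * f3 u) := by gcongr
          _ = c * (f1 u + f2 u + f3 u) := by ring
    _ = _ := by
        have m3 : Measurable fun u => f1 u + f2 u + f3 u := (h1.add h2).add h3
        rw [lintegral_const_mul _ m3]
        ring

/-- Tonelli in three variables. -/
theorem hed3_swap (S : Set ℝ) (Φ : ℝ × ℝ × E 2 → ℝ≥0∞) (hΦ : Measurable Φ) (α β : ℝ) :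
    ∫⁻ t in S, ∫⁻ x : E 2, ∫⁻ u in Icc α β, Φ (u, t, x) =
      ∫⁻ u in Icc α β, ∫⁻ t in S, ∫⁻ x : E 2, Φ (u, t, x) := by
  have h1 : ∀ t : ℝ, ∫⁻ x : E 2, ∫⁻ u in Icc α β, Φ (u, t, x) =
      ∫⁻ u in Icc α β, ∫⁻ x : E 2, Φ (u, t, x) := by
    intro t
    refine lintegral_lintegral_swap ?_
    have : Measurable fun q : E 2 × ℝ => (q.2, t, q.1) := by fun_prop
    exact (hΦ.comp this).aemeasurable
  simp_rw [h1]
  refine lintegral_lintegral_swap ?_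
  have h4 : Measurable fun q : (ℝ × ℝ) × E 2 => (q.1.2, q.1.1, q.2) := by fun_prop
  have h3 : Measurable fun q : (ℝ × ℝ) × E 2 => Φ (q.1.2, q.1.1, q.2) := hΦ.comp h4
  have h5 : Measurable fun q : ℝ × ℝ => ∫⁻ x : E 2, Φ (q.2, q.1, x) := h3.lintegral_prod_right'
  exact h5.aemeasurable

theorem hed3_add (S : Set ℝ) (Φ1 Φ2 Φ3 : ℝ × E 2 → ℝ≥0∞) (h1 : Measurable Φ1)
    (h2 : Measurable Φ2) :
    ∫⁻ t in S, ∫⁻ x : E 2, (Φ1 (t, x) + Φ2 (t, x) + Φ3 (t, x)) =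
      (∫⁻ t in S, ∫⁻ x : E 2, Φ1 (t, x)) + (∫⁻ t in S, ∫⁻ x : E 2, Φ2 (t, x)) +
        ∫⁻ t in S, ∫⁻ x : E 2, Φ3 (t, x) := by
  have m1 : ∀ t : ℝ, Measurable fun x : E 2 => Φ1 (t, x) := fun t => h1.comp measurable_prodMk_left
  have m2 : ∀ t : ℝ, Measurable fun x : E 2 => Φ2 (t, x) := fun t => h2.comp measurable_prodMk_left
  have e : ∀ t : ℝ, ∫⁻ x : E 2, (Φ1 (t, x) + Φ2 (t, x) + Φ3 (t, x)) =
      (∫⁻ x : E 2, Φ1 (t, x)) + (∫⁻ x : E 2, Φ2 (t, x)) + ∫⁻ x : E 2, Φ3 (t, x) := by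
    intro t
    have m12 : Measurable fun x : E 2 => Φ1 (t, x) + Φ2 (t, x) := (m1 t).add (m2 t)
    rw [lintegral_add_left m12, lintegral_add_left (m1 t)]
  simp_rw [e]
  have n1 : Measurable fun t : ℝ => ∫⁻ x : E 2, Φ1 (t, x) := h1.lintegral_prod_right'
  have n2 : Measurable fun t : ℝ => ∫⁻ x : E 2, Φ2 (t, x) := h2.lintegral_prod_right'
  have n12 : Measurable fun t : ℝ => (∫⁻ x : E 2, Φ1 (t, x)) + ∫⁻ x : E 2, Φ2 (t, x) := n1.add n2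
  rw [lintegral_add_left n12, lintegral_add_left n1]

/-- The abstract form of the estimate. -/
theorem hed3_main (S : Set ℝ) (hS : MeasurableSet S) (g : ℝ → E 2 → ℝ≥0∞)
    (f1 f2 f3 : ℝ × ℝ × E 2 → ℝ≥0∞) (h1 : Measurable f1) (h2 : Measurable f2)
    (h3 : Measurable f3) (α β : ℝ) (hl : α < β) (A B c : ℝ≥0∞) (hc : 1 ≤ c)
    (hA : ENNReal.ofReal (β - α) * A ≤ c) (hB : ENNReal.ofReal (β - α) * B ≤ c)
    (h : ∀ t ∈ S, ∀ x, ∀ u ∈ Icc α β, g t x ≤ f1 (u, t, x) +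
      ∫⁻ σ in Icc α β, (A * f2 (σ, t, x) + B * f3 (σ, t, x))) :
    ∫⁻ t in S, ∫⁻ x : E 2, g t x ^ (4:ℝ) ≤ c ^ (4:ℝ) * 3 ^ (4:ℝ) *
      (ENNReal.ofReal (β - α)⁻¹ * ∫⁻ u in Icc α β,
        ((∫⁻ t in S, ∫⁻ x : E 2, f1 (u, t, x) ^ (4:ℝ)) +
          (∫⁻ t in S, ∫⁻ x : E 2, f2 (u, t, x) ^ (4:ℝ)) +
            ∫⁻ t in S, ∫⁻ x : E 2, f3 (u, t, x) ^ (4:ℝ))) := by
  have mt : ∀ (f : ℝ × ℝ × E 2 → ℝ≥0∞), Measurable f → ∀ (t : ℝ) (x : E 2),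
      Measurable fun u : ℝ => f (u, t, x) := fun f hf t x => hf.comp measurable_prodMk_right
  have mu : ∀ (f : ℝ × ℝ × E 2 → ℝ≥0∞), Measurable f → ∀ (u : ℝ),
      Measurable fun q : ℝ × E 2 => f (u, q) := fun f hf u => hf.comp measurable_prodMk_left
  have p1 : Measurable fun q => f1 q ^ (4:ℝ) := h1.pow_const _
  have p2 : Measurable fun q => f2 q ^ (4:ℝ) := h2.pow_const _
  have p3 : Measurable fun q => f3 q ^ (4:ℝ) := h3.pow_const _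
  have pp : Measurable fun q => f1 q ^ (4:ℝ) + f2 q ^ (4:ℝ) + f3 q ^ (4:ℝ) := (p1.add p2).add p3
  have key : ∀ t ∈ S, ∀ x, g t x ^ (4:ℝ) ≤ (c ^ (4:ℝ) * 3 ^ (4:ℝ) * ENNReal.ofReal (β - α)⁻¹) *
      ∫⁻ u in Icc α β, (f1 (u, t, x) ^ (4:ℝ) + f2 (u, t, x) ^ (4:ℝ) + f3 (u, t, x) ^ (4:ℝ)) := by
    intro t ht x
    have k1 := hed3_avg (g t x) (fun u => f1 (u, t, x)) (fun u => f2 (u, t, x))
      (fun u => f3 (u, t, x)) (mt f1 h1 t x) (mt f2 h2 t x) (mt f3 h3 t x) α β hl A B c hc hA hB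
      (h t ht x)
    have k2 := hed3_jensen (fun u => f1 (u, t, x) + f2 (u, t, x) + f3 (u, t, x))
      (((mt f1 h1 t x).add (mt f2 h2 t x)).add (mt f3 h3 t x)) α β hl
    calc g t x ^ (4:ℝ) ≤ (c * (ENNReal.ofReal (β - α)⁻¹ *
          ∫⁻ u in Icc α β, (f1 (u, t, x) + f2 (u, t, x) + f3 (u, t, x)))) ^ (4:ℝ) :=
          ENNReal.rpow_le_rpow k1 (by norm_num)
      _ = c ^ (4:ℝ) * (ENNReal.ofReal (β - α)⁻¹ *
          ∫⁻ u in Icc α β, (f1 (u, t, x) + f2 (u, t, x) + f3 (u, t, x))) ^ (4:ℝ) :=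
          ENNReal.mul_rpow_of_nonneg _ _ (by norm_num)
      _ ≤ c ^ (4:ℝ) * (ENNReal.ofReal (β - α)⁻¹ *
          ∫⁻ u in Icc α β, (f1 (u, t, x) + f2 (u, t, x) + f3 (u, t, x)) ^ (4:ℝ)) := by gcongr
      _ ≤ c ^ (4:ℝ) * (ENNReal.ofReal (β - α)⁻¹ *
          ∫⁻ u in Icc α β, 3 ^ (4:ℝ) *
            (f1 (u, t, x) ^ (4:ℝ) + f2 (u, t, x) ^ (4:ℝ) + f3 (u, t, x) ^ (4:ℝ))) := by
          gcongr with u
          exact add_rpow_le_three (by norm_num)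
      _ = _ := by
          rw [lintegral_const_mul _ (mt _ pp t x)]
          ring
  calc ∫⁻ t in S, ∫⁻ x : E 2, g t x ^ (4:ℝ)
      ≤ ∫⁻ t in S, ∫⁻ x : E 2, (c ^ (4:ℝ) * 3 ^ (4:ℝ) * ENNReal.ofReal (β - α)⁻¹) *
      ∫⁻ u in Icc α β, (f1 (u, t, x) ^ (4:ℝ) + f2 (u, t, x) ^ (4:ℝ) + f3 (u, t, x) ^ (4:ℝ)) :=
        setLIntegral_mono' hS fun t ht => lintegral_mono fun x => key t ht x
    _ = (c ^ (4:ℝ) * 3 ^ (4:ℝ) * ENNReal.ofReal (β - α)⁻¹) * ∫⁻ t in S, ∫⁻ x : E 2,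
      ∫⁻ u in Icc α β, (f1 (u, t, x) ^ (4:ℝ) + f2 (u, t, x) ^ (4:ℝ) + f3 (u, t, x) ^ (4:ℝ)) := by
        have q1 : Measurable fun q : (ℝ × E 2) × ℝ =>
            f1 (q.2, q.1) ^ (4:ℝ) + f2 (q.2, q.1) ^ (4:ℝ) + f3 (q.2, q.1) ^ (4:ℝ) :=
          pp.comp measurable_swap
        have q2 : Measurable fun q : ℝ × E 2 => ∫⁻ u in Icc α β,
            (f1 (u, q) ^ (4:ℝ) + f2 (u, q) ^ (4:ℝ) + f3 (u, q) ^ (4:ℝ)) :=
          q1.lintegral_prod_right'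
        have q3 : ∀ t : ℝ, Measurable fun x : E 2 => ∫⁻ u in Icc α β,
            (f1 (u, t, x) ^ (4:ℝ) + f2 (u, t, x) ^ (4:ℝ) + f3 (u, t, x) ^ (4:ℝ)) := fun t =>
          q2.comp measurable_prodMk_left
        have q4 : Measurable fun t : ℝ => ∫⁻ x : E 2, ∫⁻ u in Icc α β,
            (f1 (u, t, x) ^ (4:ℝ) + f2 (u, t, x) ^ (4:ℝ) + f3 (u, t, x) ^ (4:ℝ)) :=
          q2.lintegral_prod_right'
        rw [← lintegral_const_mul _ q4]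
        refine lintegral_congr fun t => ?_
        rw [lintegral_const_mul _ (q3 t)]
    _ = _ := by
        rw [hed3_swap S _ pp α β, mul_assoc]
        congr 2
        refine lintegral_congr fun u => ?_
        exact hed3_add S (fun q => f1 (u, q) ^ (4:ℝ)) (fun q => f2 (u, q) ^ (4:ℝ))
          (fun q => f3 (u, q) ^ (4:ℝ)) (mu _ p1 u) (mu _ p2 u)

theorem sup_four (a : ℝ → ℝ) (ha : Cut3 a) (s0 s1 : ℝ) (h0 : 0 < s0) (h1 : s0 < s1) :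
    ∃ C : ℝ≥0∞, C ≠ ∞ ∧ ∀ κ T : ℝ, 0 < κ → κ ≤ 1 → 1 ≤ T →
    ∀ G : E 2 → ℂ, Measurable G → (∀ w, ‖G w‖ ≤ 1) →
    ∀ α β : ℝ, s0 ≤ α → α < β → β ≤ s1 → β - α ≤ (s1 - s0) * (κ ^ 2 / T) → ∀ s ∈ Icc α β,
    ∫⁻ t in {t : ℝ | T ≤ |t| ∧ |t| ≤ 2 * T}, ∫⁻ x : E 2, ‖op a κ s t G x‖ₑ ^ (4:ℝ) ≤
      C * (ENNReal.ofReal (β - α)⁻¹ * ∫⁻ u in Icc α β, psi a s0 κ T G u) := by
  have hL : 0 < s1 - s0 := sub_pos.2 h1
  set c : ℝ := max 1 (2 * π * (s1 - s0) / s0) with hc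
  have hc1 : 1 ≤ c := le_max_left _ _
  have hc2 : 2 * π * (s1 - s0) / s0 ≤ c := le_max_right _ _
  have hpi : 1 ≤ π := by linarith [Real.pi_gt_three]
  refine ⟨ENNReal.ofReal c ^ (4:ℝ) * 3 ^ (4:ℝ), ?_, ?_⟩
  · exact ENNReal.mul_ne_top
      (ENNReal.rpow_ne_top_of_nonneg (by norm_num) ENNReal.ofReal_ne_top)
      (ENNReal.rpow_ne_top_of_nonneg (by norm_num) (by norm_num))
  intro κ T hκ hκ1 hT G hG hb α β hα hl hβ hlen s hs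
  have hT0 : 0 < T := by linarith
  have hl0 : 0 < β - α := sub_pos.2 hl
  have hκ2 : 0 < κ ^ 2 := by positivity
  have hlen' : (β - α) * T ≤ (s1 - s0) * κ ^ 2 := by
    have := mul_le_mul_of_nonneg_right hlen hT0.le
    have e : (s1 - s0) * (κ ^ 2 / T) * T = (s1 - s0) * κ ^ 2 := by field_simp
    linarith
  have hA : ENNReal.ofReal (β - α) * ENNReal.ofReal (s0 * κ ^ 2)⁻¹ ≤ ENNReal.ofReal c := by
    rw [← ENNReal.ofReal_mul hl0.le]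
    refine ENNReal.ofReal_le_ofReal (le_trans ?_ hc2)
    rw [← div_eq_mul_inv, div_le_div_iff₀ (by positivity) h0]
    have e1 : (β - α) ≤ (s1 - s0) * κ ^ 2 := by nlinarith
    have e2 : (s1 - s0) * κ ^ 2 ≤ 2 * π * ((s1 - s0) * κ ^ 2) := by
      have : 0 < (s1 - s0) * κ ^ 2 := by positivity
      nlinarith
    nlinarith [mul_le_mul_of_nonneg_right (e1.trans e2) h0.le]
  have hB : ENNReal.ofReal (β - α) * ENNReal.ofReal (π * (2 * T) / (s0 * κ)) ≤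
      ENNReal.ofReal c := by
    rw [← ENNReal.ofReal_mul hl0.le]
    refine ENNReal.ofReal_le_ofReal (le_trans ?_ hc2)
    rw [← mul_div_assoc, div_le_div_iff₀ (by positivity) h0]
    have e1 : (s1 - s0) * κ ^ 2 ≤ (s1 - s0) * κ := by
      have : κ ^ 2 ≤ κ := by nlinarith
      nlinarith
    have e2 : 0 ≤ 2 * π * s0 := by positivity
    nlinarith [mul_le_mul_of_nonneg_left (hlen'.trans e1) e2]
  have hrgm := measurable_rg s0 G hG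
  have key := hed3_main {t : ℝ | T ≤ |t| ∧ |t| ≤ 2 * T} (hed3_shell T)
    (fun t x => ‖op a κ s t G x‖ₑ)
    (fun q => ‖op a κ q.1 q.2.1 G q.2.2‖ₑ) (fun q => ‖op (deriv a) κ q.1 q.2.1 (rg s0 G) q.2.2‖ₑ)
    (fun q => ‖op (divs a) κ q.1 q.2.1 (rg s0 G) q.2.2‖ₑ)
    (hed3_opm a (cut3_cut a ha) κ G hG) (hed3_opm (deriv a) (cut_deriv a ha) κ _ hrgm)
    (hed3_opm (divs a) (cut_divs a (cut3_cut a ha)) κ _ hrgm) α β hl
    (ENNReal.ofReal (s0 * κ ^ 2)⁻¹) (ENNReal.ofReal (π * (2 * T) / (s0 * κ))) (ENNReal.ofReal c)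
    (by rw [← ENNReal.ofReal_one]; exact ENNReal.ofReal_le_ofReal hc1) hA hB ?_
  · exact key
  · intro t ht x u hu
    refine (op_le a ha s0 h0 κ t hκ hκ1 G hG hb α β hα u s hu hs x).trans ?_
    gcongr
    exact ht.2

end Pool.Agent.MST
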