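import Pool.Agent.MST.Defs
import Mathlib.Topology.MetricSpace.HausdorffDimension

namespace Pool.Agent.MST

open MeasureTheory Set
open scoped ENNReal NNReal Real

theorem hed4_telescope (s0 l : ℝ) (hl : 0 < l) (f : ℝ → ℝ≥0∞) (k : ℕ) :
    ∑ j ∈ Finset.range k, ∫⁻ u in Ico (s0 + j * l) (s0 + (j + 1) * l), f u =
      ∫⁻ u in Ico s0 (s0 + k * l), f u := by
  induction k with
  | zero => simp
  | succ k ih =>
    rw [Finset.sum_range_succ, ih, ← lintegral_union measurableSet_Ico]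
    · congr 2
      push_cast
      rw [Ico_union_Ico_eq_Ico]
      · have : 0 ≤ (k : ℝ) * l := by positivity
        linarith
      · nlinarith
    · rw [Set.disjoint_left]
      intro x hx hx'
      exact absurd hx.2 (not_lt.mpr hx'.1)

theorem hed4_count (s0 s1 : ℝ) (h : s0 < s1) (d : ℝ) (M : ℕ) (Ψ : ℝ → ℝ≥0∞) (A Λ : ℝ)
    (hΛ : 0 < Λ) (hA0 : 0 ≤ A)
    (hA : ∫⁻ u in Icc s0 s1, Ψ u ≤ ENNReal.ofReal A) (l : ℝ) (hl : l = (s1 - s0) / 2 ^ M)
    (bad : ℕ → Prop) [DecidablePred bad]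
    (hbad : ∀ j, bad j → j < 2 ^ M ∧
      ENNReal.ofReal (Λ * l) < ∫⁻ u in Icc (s0 + j * l) (s0 + (j + 1) * l), Ψ u) :
    ∑' j : ℕ, (if bad j then (ENNReal.ofReal l) ^ d else 0) ≤
      ENNReal.ofReal ((s1 - s0) ^ (d - 1) * (A / Λ * 2 ^ M * ((1 / 2 : ℝ) ^ M) ^ d)) := by
  have hL : 0 < s1 - s0 := sub_pos.mpr h
  have hl0 : 0 < l := by rw [hl]; positivity
  have hΛl : 0 < Λ * l := by positivity
  set c : ℝ≥0∞ := (ENNReal.ofReal l) ^ d with hc
  set K : ℝ≥0∞ := (ENNReal.ofReal (Λ * l))⁻¹ * c with hK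
  have h1 : ∀ j : ℕ, (if bad j then c else 0) ≤
      if j < 2 ^ M then (∫⁻ u in Ico (s0 + j * l) (s0 + (j + 1) * l), Ψ u) * K else 0 := by
    intro j
    by_cases hb : bad j
    · obtain ⟨hj, hlt⟩ := hbad j hb
      rw [if_pos hb, if_pos hj, setLIntegral_congr Ico_ae_eq_Icc, hK, ← mul_assoc]
      have h2 : 1 ≤ (∫⁻ u in Icc (s0 + j * l) (s0 + (j + 1) * l), Ψ u) *
          (ENNReal.ofReal (Λ * l))⁻¹ := by
        rw [← ENNReal.mul_inv_cancel (a := ENNReal.ofReal (Λ * l))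
          (by rw [Ne, ENNReal.ofReal_eq_zero]; linarith) ENNReal.ofReal_ne_top]
        exact mul_le_mul_left hlt.le _
      calc c = 1 * c := (one_mul c).symm
        _ ≤ _ := mul_le_mul_left h2 _
    · rw [if_neg hb]; exact zero_le
  refine (ENNReal.tsum_le_tsum h1).trans ?_
  rw [tsum_eq_sum (s := Finset.range (2 ^ M)) (by
    intro j hj
    rw [if_neg (by simpa using hj)])]
  rw [Finset.sum_congr rfl (g := fun j : ℕ =>
    (∫⁻ u in Ico (s0 + j * l) (s0 + (j + 1) * l), Ψ u) * K) (by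
      intro j hj
      rw [if_pos (by simpa using hj)]), ← Finset.sum_mul, hed4_telescope s0 l hl0]
  have h3 : s0 + ((2 ^ M : ℕ) : ℝ) * l = s1 := by
    rw [hl]; push_cast; field_simp; ring
  rw [h3]
  have h4 : ∫⁻ u in Ico s0 s1, Ψ u ≤ ENNReal.ofReal A :=
    (lintegral_mono_set Ico_subset_Icc_self).trans hA
  refine (mul_le_mul_left h4 K).trans ?_
  rw [hK, hc, ENNReal.ofReal_rpow_of_pos hl0, ← ENNReal.ofReal_inv_of_pos hΛl,
    ← ENNReal.ofReal_mul (by positivity), ← ENNReal.ofReal_mul hA0]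
  apply ENNReal.ofReal_le_ofReal
  apply le_of_eq
  have h5 : l ^ d = (s1 - s0) ^ d * ((1 / 2 : ℝ) ^ M) ^ d := by
    rw [← Real.mul_rpow hL.le (by positivity), hl]
    congr 1
    rw [one_div, inv_pow]; rfl
  have h6 : (s1 - s0) ^ d = (s1 - s0) ^ (d - 1) * (s1 - s0) := by
    rw [Real.rpow_sub_one hL.ne']
    field_simp
  rw [h5, h6]
  have h7 : Λ * l ≠ 0 := hΛl.ne'
  have h8 : l * 2 ^ M = s1 - s0 := by rw [hl]; field_simp
  rw [← h8]
  field_simp

/-
ROW ED4 (1.3 h). Abstract covering lemma (no knowledge of the project needed; all the spaces are ℝ).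
L = s1 - s0, l q = L/2^(m q), the grid intervals I q j = [s0 + j l q, s0 + (j+1) l q], j < 2^(m q), cover [s0, s1]. Call (q, j) bad if
∫⁻ u in I q j, Ψ q u > ofReal (Λ q l q). The intervals Ico (s0 + j l) (s0 + (j+1) l) are disjoint and contained in [s0, s1], and Icc, Ico
have the same integral, so (number of bad j) * Λ q * l q ≤ A q. E = the set of s ∈ [s0, s1] which lie in a bad interval I q j for infinitely many q.
For every n, E is covered by the bad intervals with q.1 + q.2 ≥ n (only finitely many q have q.1 + q.2 < n); their diameter is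
l q ≤ L 2^(-n) → 0, and Σ over ALL bad (q, j) of (l q)^d ≤ Σ_q (A q/(Λ q l q)) (l q)^d = L^(d-1) Σ_q (A q/Λ q) 2^(m q) ((1/2)^(m q))^d < ∞.
So μH[d] E ≤ this sum < ∞ (Measure.hausdorffMeasure_le_liminf_tsum with ι n = subtype of ℕ × ℕ × ℕ), hence dimH E ≤ d
(dimH_le_of_hausdorffMeasure_ne_top). [d = 0 is allowed: ediam ^ 0 = 1 and (l q)^0 = 1, no problem, use ediam ≤ ofReal (l q) and
ENNReal.rpow_le_rpow.] If s ∉ E: F = the finite set of q with s in a bad interval; for q ∉ F take the j with s ∈ I q j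
(for s = s1 take j = 2^m - 1): not bad, and ofReal (β-α)⁻¹ * ∫⁻ ≤ ofReal (Λ q).
-/
theorem exc_cover (s0 s1 : ℝ) (h : s0 < s1) (d : ℝ≥0) (m : ℕ × ℕ → ℕ)
    (hm : ∀ q, q.1 + q.2 ≤ m q) (Ψ : ℕ × ℕ → ℝ → ℝ≥0∞) (hΨ : ∀ q, Measurable (Ψ q))
    (A Λ : ℕ × ℕ → ℝ) (hΛ : ∀ q, 0 < Λ q) (hA0 : ∀ q, 0 ≤ A q)
    (hA : ∀ q, ∫⁻ u in Icc s0 s1, Ψ q u ≤ ENNReal.ofReal (A q))
    (hsum : Summable fun q => A q / Λ q * 2 ^ m q * ((1 / 2 : ℝ) ^ m q) ^ (d : ℝ)) :
    ∃ E : Set ℝ, dimH E ≤ d ∧ ∀ s ∈ Icc s0 s1, s ∉ E → ∃ F : Set (ℕ × ℕ), F.Finite ∧ ∀ q ∉ F,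
      ∃ α β : ℝ, s0 ≤ α ∧ α < β ∧ β ≤ s1 ∧ s ∈ Icc α β ∧ β - α = (s1 - s0) / 2 ^ m q ∧
        ENNReal.ofReal (β - α)⁻¹ * ∫⁻ u in Icc α β, Ψ q u ≤ ENNReal.ofReal (Λ q) := by
  classical
  have hL : 0 < s1 - s0 := sub_pos.mpr h
  set l : ℕ × ℕ → ℝ := fun q => (s1 - s0) / 2 ^ m q with hldef
  have hl0 : ∀ q, 0 < l q := fun q => by simp only [hldef]; positivity
  set bad : (ℕ × ℕ) × ℕ → Prop := fun x => x.2 < 2 ^ m x.1 ∧
    ENNReal.ofReal (Λ x.1 * l x.1) <
      ∫⁻ u in Icc (s0 + x.2 * l x.1) (s0 + (x.2 + 1) * l x.1), Ψ x.1 u with hbad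
  set E : Set ℝ := {s | {q : ℕ × ℕ | ∃ j, bad (q, j) ∧
    s ∈ Icc (s0 + j * l q) (s0 + (j + 1) * l q)}.Infinite} with hE
  -- the total sum
  set f : (ℕ × ℕ) × ℕ → ℝ≥0∞ := fun x => if bad x then (ENNReal.ofReal (l x.1)) ^ (d : ℝ) else 0
    with hf
  have hfsum : ∑' x, f x ≠ ∞ := by
    rw [ENNReal.tsum_prod (f := fun q j => f (q, j))] 
    have h1 : ∀ q : ℕ × ℕ, ∑' j, f (q, j) ≤ ENNReal.ofReal ((s1 - s0) ^ ((d : ℝ) - 1) *
        (A q / Λ q * 2 ^ m q * ((1 / 2 : ℝ) ^ m q) ^ (d : ℝ))) := by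
      intro q
      exact hed4_count s0 s1 h d (m q) (Ψ q) (A q) (Λ q) (hΛ q) (hA0 q) (hA q) (l q) rfl
        (fun j => bad (q, j)) (fun j hj => hj)
    refine ne_top_of_le_ne_top ?_ (ENNReal.tsum_le_tsum h1)
    have h2 : ∀ q : ℕ × ℕ, 0 ≤ (s1 - s0) ^ ((d : ℝ) - 1) *
        (A q / Λ q * 2 ^ m q * ((1 / 2 : ℝ) ^ m q) ^ (d : ℝ)) := by
      intro q
      have := hΛ q
      have := hA0 q
      positivity
    rw [← ENNReal.ofReal_tsum_of_nonneg h2 (hsum.mul_left _)]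
    exact ENNReal.ofReal_ne_top
  refine ⟨E, ?_, ?_⟩
  · apply dimH_le_of_hausdorffMeasure_ne_top
    refine ne_top_of_le_ne_top hfsum ?_
    refine (Measure.hausdorffMeasure_le_liminf_tsum (ι := fun n : ℕ =>
      {x : (ℕ × ℕ) × ℕ // bad x ∧ n ≤ x.1.1 + x.1.2}) (d : ℝ) E (l := Filter.atTop)
      (fun n : ℕ => ENNReal.ofReal ((s1 - s0) * (1 / 2) ^ n)) ?_
      (fun n i => Icc (s0 + i.1.2 * l i.1.1) (s0 + (i.1.2 + 1) * l i.1.1)) ?_ ?_).trans ?_
    · rw [← ENNReal.ofReal_zero]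
      apply ENNReal.tendsto_ofReal
      have := (tendsto_pow_atTop_nhds_zero_of_lt_one (r := (1 / 2 : ℝ)) (by norm_num)
        (by norm_num)).const_mul (s1 - s0)
      simpa using this
    · refine Filter.Eventually.of_forall fun n i => ?_
      rw [Real.ediam_Icc]
      apply ENNReal.ofReal_le_ofReal
      have h1 : s0 + ((i.1.2 : ℝ) + 1) * l i.1.1 - (s0 + (i.1.2 : ℝ) * l i.1.1) = l i.1.1 := by
        ring
      rw [h1]
      simp only [hldef, div_eq_mul_inv]
      apply mul_le_mul_of_nonneg_left _ hL.le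
      rw [← one_div, ← one_div_pow]
      have h2 : n ≤ m i.1.1 := i.2.2.trans (hm _)
      norm_num only
      exact pow_le_pow_of_le_one (by norm_num) (by norm_num) h2
    · refine Filter.Eventually.of_forall fun n s hs => ?_
      have h1 : {q : ℕ × ℕ | q.1 + q.2 < n}.Finite := by
        apply Set.Finite.subset ((Finset.range n ×ˢ Finset.range n).finite_toSet)
        intro q hq
        simp only [mem_setOf_eq] at hq
        simp only [Finset.coe_product, Finset.coe_range, mem_prod, mem_Iio]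
        omega
      obtain ⟨q, hq1, hq2⟩ := hs.exists_notMem_finite h1
      obtain ⟨j, hj, hsj⟩ := hq1
      rw [mem_iUnion]
      exact ⟨⟨(q, j), hj, not_lt.mp hq2⟩, hsj⟩
    · apply Filter.liminf_le_of_frequently_le'
      apply Filter.Eventually.frequently
      refine Filter.Eventually.of_forall fun n => ?_
      have h1 : ∀ i : {x : (ℕ × ℕ) × ℕ // bad x ∧ n ≤ x.1.1 + x.1.2},
          Metric.ediam (Icc (s0 + i.1.2 * l i.1.1) (s0 + (i.1.2 + 1) * l i.1.1)) ^ (d : ℝ) =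
            f i.1 := by
        intro i
        rw [Real.ediam_Icc]
        have h1 : s0 + ((i.1.2 : ℝ) + 1) * l i.1.1 - (s0 + (i.1.2 : ℝ) * l i.1.1) = l i.1.1 := by
          ring
        rw [h1]
        simp only [hf]
        rw [if_pos i.2.1]
      simp only [h1]
      exact ENNReal.tsum_comp_le_tsum_of_injective Subtype.val_injective f
  · intro s hs hsE
    refine ⟨{q : ℕ × ℕ | ∃ j, bad (q, j) ∧ s ∈ Icc (s0 + j * l q) (s0 + (j + 1) * l q)},
      ?_, ?_⟩
    · rw [← Set.not_infinite]; exact hsE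
    · intro q hq
      have hlq := hl0 q
      have hlL : (2 : ℝ) ^ m q * l q = s1 - s0 := by
        simp only [hldef]; field_simp
      -- the grid interval
      obtain ⟨j, hj, hsj⟩ : ∃ j : ℕ, j < 2 ^ m q ∧
          s ∈ Icc (s0 + j * l q) (s0 + (j + 1) * l q) := by
        by_cases hsl : s < s1
        · refine ⟨⌊(s - s0) / l q⌋₊, ?_, ?_, ?_⟩
          · rw [Nat.floor_lt (div_nonneg (sub_nonneg.mpr hs.1) hlq.le), div_lt_iff₀ hlq]
            push_cast
            rw [hlL]; linarith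
          · have := Nat.floor_le (div_nonneg (sub_nonneg.mpr hs.1) hlq.le)
            rw [le_div_iff₀ hlq] at this
            linarith
          · have := (Nat.lt_floor_add_one ((s - s0) / l q)).le
            rw [div_le_iff₀ hlq] at this
            linarith
        · have hs1 : s = s1 := le_antisymm hs.2 (not_lt.mp hsl)
          refine ⟨2 ^ m q - 1, ?_, ?_⟩
          · have := Nat.one_le_two_pow (n := m q)
            omega
          · have h1 : ((2 ^ m q - 1 : ℕ) : ℝ) = 2 ^ m q - 1 := by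
              rw [Nat.cast_sub Nat.one_le_two_pow]; push_cast; ring
            rw [h1, hs1]
            constructor
            · nlinarith
            · nlinarith
      have hnb : ¬ bad (q, j) := fun hb => hq ⟨j, hb, hsj⟩
      have hle : ∫⁻ u in Icc (s0 + j * l q) (s0 + (j + 1) * l q), Ψ q u ≤
          ENNReal.ofReal (Λ q * l q) := by
        by_contra hcon
        exact hnb ⟨hj, not_le.mp hcon⟩
      have hdiff : s0 + ((j : ℝ) + 1) * l q - (s0 + (j : ℝ) * l q) = l q := by ring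
      refine ⟨s0 + j * l q, s0 + (j + 1) * l q, ?_, ?_, ?_, hsj, ?_, ?_⟩
      · have : 0 ≤ (j : ℝ) * l q := by positivity
        linarith
      · linarith
      · have h1 : ((j : ℝ) + 1) ≤ 2 ^ m q := by exact_mod_cast hj
        have := mul_le_mul_of_nonneg_right h1 hlq.le
        linarith
      · rw [hdiff]
      · rw [hdiff]
        refine (mul_le_mul_right hle _).trans ?_
        rw [← ENNReal.ofReal_mul (by positivity)]
        apply ENNReal.ofReal_le_ofReal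
        apply le_of_eq
        field_simp

end Pool.Agent.MST
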