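import Pool.Agent.MST.J1

namespace Pool.Agent.MST

open MeasureTheory Set Pool.Agent.MP_6cbfb8_an
open scoped ENNReal Real

theorem hj3_anti {δ : ℝ} (hδ1 : δ ≤ 1) {a b : ℝ} (h : a ≤ b) :
    ENNReal.ofReal b ^ (δ - 1) ≤ ENNReal.ofReal a ^ (δ - 1) := by
  have e : δ - 1 = -(1 - δ) := by ring
  rw [e, ENNReal.rpow_neg, ENNReal.rpow_neg, ENNReal.inv_le_inv]
  exact ENNReal.rpow_le_rpow (ENNReal.ofReal_le_ofReal h) (by linarith)

theorem hj3_inner (δ R : ℝ) (hδ1 : δ ≤ 1) (C : ℝ≥0∞)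
    (hC : ∀ c d : ℝ, c ≠ 0 → ∫⁻ β in Icc (-R) R, ENNReal.ofReal |c * β + d| ^ (δ - 1) ≤
      C * ENNReal.ofReal |c| ^ (δ - 1)) (y : E 2) (hy : y ≠ 0) :
    ∫⁻ z in Metric.closedBall (0 : E 2) R,
      ENNReal.ofReal |(inner ℝ y z : ℝ)| ^ (δ - 1) *
        (ENNReal.ofReal ‖y‖ ^ (δ - 1) * ENNReal.ofReal ‖z‖ ^ (δ - 1)) ≤
      (C * C) * ENNReal.ofReal ‖y‖ ^ (2 * δ - 2) := by
  have hy0 : 0 < ‖y‖ := norm_pos_iff.2 hy
  set e : E 2 := ‖y‖⁻¹ • y with he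
  have hen : ‖e‖ = 1 := by
    rw [he, norm_smul, norm_inv, norm_norm, inv_mul_cancel₀ hy0.ne']
  have hye : y = ‖y‖ • e := by
    rw [he, smul_smul, mul_inv_cancel₀ hy0.ne', one_smul]
  obtain ⟨e', he'n, -, -, hint⟩ := frame e hen
  set g1 : ℝ → ℝ≥0∞ := (Icc (-R) R).indicator fun α => ENNReal.ofReal |‖y‖ * α + 0| ^ (δ - 1)
    with hg1
  set g2 : ℝ → ℝ≥0∞ := (Icc (-R) R).indicator fun β => ENNReal.ofReal |1 * β + 0| ^ (δ - 1)
    with hg2
  have hm1 : Measurable g1 := by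
    refine Measurable.indicator ?_ measurableSet_Icc
    exact ((measurable_const.mul measurable_id).add measurable_const).abs.ennreal_ofReal.pow_const _
  have hm2 : Measurable g2 := by
    refine Measurable.indicator ?_ measurableSet_Icc
    exact ((measurable_const.mul measurable_id).add measurable_const).abs.ennreal_ofReal.pow_const _
  set k : ℝ≥0∞ := ENNReal.ofReal ‖y‖ ^ (δ - 1) with hk
  have hI1 : ∫⁻ α, g1 α ≤ C * k := by
    rw [hg1, lintegral_indicator measurableSet_Icc]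
    have := hC ‖y‖ 0 hy0.ne'
    rwa [abs_of_pos hy0] at this
  have hI2 : ∫⁻ β, g2 β ≤ C := by
    rw [hg2, lintegral_indicator measurableSet_Icc]
    have := hC 1 0 one_ne_zero
    rwa [abs_one, ENNReal.ofReal_one, ENNReal.one_rpow, mul_one] at this
  have hφ : Measurable (Function.uncurry fun α β : ℝ => g1 α * (k * g2 β)) :=
    (hm1.comp measurable_fst).mul (measurable_const.mul (hm2.comp measurable_snd))
  have hpt : ∀ z ∈ Metric.closedBall (0 : E 2) R,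
      ENNReal.ofReal |(inner ℝ y z : ℝ)| ^ (δ - 1) *
        (ENNReal.ofReal ‖y‖ ^ (δ - 1) * ENNReal.ofReal ‖z‖ ^ (δ - 1)) ≤
      g1 (inner ℝ e z) * (k * g2 (inner ℝ e' z)) := by
    intro z hz
    have hzR : ‖z‖ ≤ R := by simpa using hz
    have h1 : |(inner ℝ e z : ℝ)| ≤ R := by
      have := abs_real_inner_le_norm e z
      rw [hen, one_mul] at this
      exact this.trans hzR
    have h2 : |(inner ℝ e' z : ℝ)| ≤ ‖z‖ := by
      have := abs_real_inner_le_norm e' z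
      rwa [he'n, one_mul] at this
    have h3 : (inner ℝ y z : ℝ) = ‖y‖ * inner ℝ e z + 0 := by
      conv_lhs => rw [hye]
      rw [real_inner_smul_left, add_zero]
    have h4 : g1 (inner ℝ e z) = ENNReal.ofReal |(inner ℝ y z : ℝ)| ^ (δ - 1) := by
      rw [hg1, indicator_of_mem (mem_Icc.2 (abs_le.1 h1)), h3]
    have h5 : g2 (inner ℝ e' z) = ENNReal.ofReal |(inner ℝ e' z : ℝ)| ^ (δ - 1) := by
      rw [hg2, indicator_of_mem (mem_Icc.2 (abs_le.1 (h2.trans hzR))), one_mul, add_zero]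
    rw [h4, h5]
    exact mul_le_mul_right (mul_le_mul_right (hj3_anti hδ1 h2) _) _
  calc ∫⁻ z in Metric.closedBall (0 : E 2) R,
      ENNReal.ofReal |(inner ℝ y z : ℝ)| ^ (δ - 1) *
        (ENNReal.ofReal ‖y‖ ^ (δ - 1) * ENNReal.ofReal ‖z‖ ^ (δ - 1))
      ≤ ∫⁻ z in Metric.closedBall (0 : E 2) R, g1 (inner ℝ e z) * (k * g2 (inner ℝ e' z)) :=
        setLIntegral_mono' Metric.isClosed_closedBall.measurableSet hpt
    _ ≤ ∫⁻ z : E 2, g1 (inner ℝ e z) * (k * g2 (inner ℝ e' z)) :=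
        lintegral_mono' Measure.restrict_le_self le_rfl
    _ = ∫⁻ α : ℝ, ∫⁻ β : ℝ, g1 α * (k * g2 β) := hint _ hφ
    _ = ∫⁻ α : ℝ, g1 α * (k * ∫⁻ β : ℝ, g2 β) := by
        refine lintegral_congr fun α => ?_
        have hm3 : Measurable fun β : ℝ => k * g2 β := measurable_const.mul hm2
        rw [lintegral_const_mul _ hm3, lintegral_const_mul _ hm2]
    _ = (∫⁻ α : ℝ, g1 α) * (k * ∫⁻ β : ℝ, g2 β) := lintegral_mul_const _ hm1
    _ ≤ (C * k) * (k * C) := by gcongr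
    _ = (C * C) * ENNReal.ofReal ‖y‖ ^ (2 * δ - 2) := by
        have h1 : k * k = ENNReal.ofReal ‖y‖ ^ (2 * δ - 2) := by
          rw [hk, ← ENNReal.rpow_add _ _ (by simpa using hy) ENNReal.ofReal_ne_top]
          congr 1
          ring
        rw [← h1]
        ring

/-
ROW J3 (0.8 h). For y ≠ 0 put e = y/‖y‖ and e' from `frame`: |inner y z| = ‖y‖|α|, α = inner e z, ‖z‖ ≥ |β|, β = inner e' z,
so ∫⁻ z in ball, |inner y z|^(δ-1) ‖z‖^(δ-1) ≤ ‖y‖^(δ-1) ∫⁻ α in Icc (-R) R, |α|^(δ-1) ∫⁻ β in Icc (-R) R, |β|^(δ-1)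
≤ C ‖y‖^(δ-1) (`one_dim` with c = 1, d = 0). Then ∫⁻ y in ball, ‖y‖^(2(δ-1)) < ∞ by `radial_two` with η = 2δ.
The set {y = 0} has measure zero.
-/
theorem yz_integral (δ R : ℝ) (hδ : 0 < δ) (hδ1 : δ ≤ 1) (hR : 0 < R) :
    ∫⁻ y in Metric.closedBall (0 : E 2) R, ∫⁻ z in Metric.closedBall (0 : E 2) R,
      ENNReal.ofReal |(inner ℝ y z : ℝ)| ^ (δ - 1) *
        (ENNReal.ofReal ‖y‖ ^ (δ - 1) * ENNReal.ofReal ‖z‖ ^ (δ - 1)) < ∞ := by
  obtain ⟨C, hC0, hC⟩ := one_dim δ R hδ hδ1 hR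
  have hrad := radial_two (2 * δ) R (by linarith)
  have hae : ∀ᵐ y : E 2 ∂(volume.restrict (Metric.closedBall (0 : E 2) R)), y ≠ 0 :=
    ae_restrict_of_ae (by
      have h : volume ({(0 : E 2)} : Set (E 2)) = 0 := measure_singleton (0 : E 2)
      rw [ae_iff]
      simp)
  calc ∫⁻ y in Metric.closedBall (0 : E 2) R, ∫⁻ z in Metric.closedBall (0 : E 2) R,
      ENNReal.ofReal |(inner ℝ y z : ℝ)| ^ (δ - 1) *
        (ENNReal.ofReal ‖y‖ ^ (δ - 1) * ENNReal.ofReal ‖z‖ ^ (δ - 1))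
      ≤ ∫⁻ y in Metric.closedBall (0 : E 2) R, (C * C) * ENNReal.ofReal ‖y‖ ^ (2 * δ - 2) := by
        refine lintegral_mono_ae ?_
        filter_upwards [hae] with y hy
        exact hj3_inner δ R hδ1 C hC y hy
    _ = (C * C) * ∫⁻ y in Metric.closedBall (0 : E 2) R, ENNReal.ofReal ‖y‖ ^ (2 * δ - 2) :=
        lintegral_const_mul _ (by fun_prop)
    _ < ∞ := ENNReal.mul_lt_top (ENNReal.mul_lt_top hC0.lt_top hC0.lt_top) hrad

end Pool.Agent.MST
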