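import Pool.Agent.MST.J2
import Pool.Agent.MST.J3

namespace Pool.Agent.MST

open MeasureTheory Set Pool.Agent.MP_6cbfb8_an
open scoped ENNReal Real

theorem hjb_antitone {a b : ℝ≥0∞} (h : a ≤ b) {p : ℝ} (hp : p ≤ 0) : b ^ p ≤ a ^ p := by
  have h1 : a ^ (-p) ≤ b ^ (-p) := ENNReal.rpow_le_rpow h (by linarith)
  have h2 : b ^ p = (b ^ (-p))⁻¹ := by rw [← ENNReal.rpow_neg, neg_neg]
  have h3 : a ^ p = (a ^ (-p))⁻¹ := by rw [← ENNReal.rpow_neg, neg_neg]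
  rw [h2, h3]
  exact ENNReal.inv_le_inv.2 h1

/-- Region N. -/
theorem hjb_N (δ R κ X Z1 Z2 Y : ℝ) (hδ : 0 < δ) (hδ1 : δ ≤ 2 / 5) (hR : 0 < R) (hκ : 0 < κ)
    (h1 : 0 < Z1) (h2 : 0 < Z2) (hX : Z1 * Z2 ≤ X) (hXR : X ≤ R * κ ^ 2) (hY : 0 ≤ Y) :
    ENNReal.ofReal (X / κ ^ 2 + Y / κ ^ 4) ^ (-(2 - 2 * δ)) ≤
      ENNReal.ofReal (R ^ (3 * δ / 2)) * ENNReal.ofReal (κ ^ (4 - δ)) *
        (ENNReal.ofReal Z1 ^ (δ / 2 - 2) * ENNReal.ofReal Z2 ^ (δ / 2 - 2)) := by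
  have hZ : 0 < Z1 * Z2 := mul_pos h1 h2
  have hXp : 0 < X := lt_of_lt_of_le hZ hX
  have hκ2 : 0 < κ ^ 2 := by positivity
  have hu : 0 < X / κ ^ 2 := by positivity
  have huR : X / κ ^ 2 ≤ R := by rw [div_le_iff₀ hκ2]; exact hXR
  have hY4 : 0 ≤ Y / κ ^ 4 := by positivity
  have hD : ENNReal.ofReal (X / κ ^ 2) ≤ ENNReal.ofReal (X / κ ^ 2 + Y / κ ^ 4) :=
    ENNReal.ofReal_le_ofReal (by linarith)
  refine (hjb_antitone hD (by linarith)).trans ?_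
  rw [ENNReal.ofReal_rpow_of_pos hu, ENNReal.ofReal_rpow_of_pos h1, ENNReal.ofReal_rpow_of_pos h2,
    ← ENNReal.ofReal_mul (by positivity), ← ENNReal.ofReal_mul (by positivity),
    ← ENNReal.ofReal_mul (by positivity)]
  apply ENNReal.ofReal_le_ofReal
  have e1 : (X / κ ^ 2) ^ (-(2 - 2 * δ)) =
      (X / κ ^ 2) ^ (δ / 2 - 2) * (X / κ ^ 2) ^ (3 * δ / 2) := by
    rw [← Real.rpow_add hu]
    congr 1
    ring
  have e2 : (X / κ ^ 2) ^ (3 * δ / 2) ≤ R ^ (3 * δ / 2) :=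
    Real.rpow_le_rpow hu.le huR (by positivity)
  have e3 : (X / κ ^ 2) ^ (δ / 2 - 2) = X ^ (δ / 2 - 2) * κ ^ (4 - δ) := by
    rw [Real.div_rpow hXp.le hκ2.le, div_eq_mul_inv, ← Real.rpow_neg hκ2.le,
      ← Real.rpow_natCast κ 2, ← Real.rpow_mul hκ.le]
    congr 2
    push_cast
    ring
  have e4 : X ^ (δ / 2 - 2) ≤ (Z1 * Z2) ^ (δ / 2 - 2) :=
    Real.rpow_le_rpow_of_nonpos hZ hX (by linarith)
  rw [Real.mul_rpow h1.le h2.le] at e4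
  have hk : 0 < κ ^ (4 - δ) := by positivity
  rw [e1, e3]
  calc X ^ (δ / 2 - 2) * κ ^ (4 - δ) * (X / κ ^ 2) ^ (3 * δ / 2)
      ≤ (Z1 ^ (δ / 2 - 2) * Z2 ^ (δ / 2 - 2)) * κ ^ (4 - δ) * R ^ (3 * δ / 2) := by
        apply mul_le_mul _ e2 (by positivity) (by positivity)
        exact mul_le_mul_of_nonneg_right e4 hk.le
    _ = R ^ (3 * δ / 2) * κ ^ (4 - δ) * (Z1 ^ (δ / 2 - 2) * Z2 ^ (δ / 2 - 2)) := by ring

/-- Region P. -/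
theorem hjb_P (δ κ x Y1 Y2 : ℝ) (hδ : 0 < δ) (hδ1 : δ ≤ 2 / 5) (hκ : 0 < κ) (hκ1 : κ ≤ 1)
    (hx : 0 ≤ x) (h1 : 0 ≤ Y1) (h2 : 0 ≤ Y2) :
    ENNReal.ofReal ((2 * x) / κ ^ 2 + Y1 * Y2 / κ ^ 4) ^ (-(2 - 2 * δ)) ≤
      ENNReal.ofReal (κ ^ (4 - δ)) * ENNReal.ofReal x ^ (δ - 1) *
        (ENNReal.ofReal Y1 ^ (δ - 1) * ENNReal.ofReal Y2 ^ (δ - 1)) := by
  have hκ2 : 0 < κ ^ 2 := by positivity
  have hκ4 : 0 < κ ^ 4 := by positivity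
  set D := ENNReal.ofReal ((2 * x) / κ ^ 2 + Y1 * Y2 / κ ^ 4) with hD
  have hsq : D ^ (-(2 - 2 * δ)) = D ^ (δ - 1) * D ^ (δ - 1) := by
    have : -(2 - 2 * δ) = (δ - 1) * 2 := by ring
    rw [this, ENNReal.rpow_mul, ENNReal.rpow_two, sq]
  have a1 : D ^ (δ - 1) ≤ ENNReal.ofReal x ^ (δ - 1) * ENNReal.ofReal ((1 / κ ^ 2) ^ (δ - 1)) := by
    have : ENNReal.ofReal (x * (1 / κ ^ 2)) ≤ D := by
      apply ENNReal.ofReal_le_ofReal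
      have e1 : 0 ≤ x / κ ^ 2 := by positivity
      have e2 : 0 ≤ Y1 * Y2 / κ ^ 4 := by positivity
      have e3 : 2 * x / κ ^ 2 = 2 * (x / κ ^ 2) := by ring
      rw [e3, mul_one_div]
      linarith
    refine (hjb_antitone this (by linarith)).trans ?_
    rw [ENNReal.ofReal_mul hx, ENNReal.mul_rpow_of_ne_top ENNReal.ofReal_ne_top
      ENNReal.ofReal_ne_top, ENNReal.ofReal_rpow_of_pos (by positivity : 0 < 1 / κ ^ 2)]
  have a2 : D ^ (δ - 1) ≤ ENNReal.ofReal Y1 ^ (δ - 1) * ENNReal.ofReal Y2 ^ (δ - 1) *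
      ENNReal.ofReal ((1 / κ ^ 4) ^ (δ - 1)) := by
    have : ENNReal.ofReal (Y1 * Y2 * (1 / κ ^ 4)) ≤ D := by
      apply ENNReal.ofReal_le_ofReal
      have e1 : 0 ≤ 2 * x / κ ^ 2 := by positivity
      rw [mul_one_div]
      linarith
    refine (hjb_antitone this (by linarith)).trans ?_
    rw [ENNReal.ofReal_mul (by positivity : 0 ≤ Y1 * Y2), ENNReal.ofReal_mul h1,
      ENNReal.mul_rpow_of_ne_top (ENNReal.mul_ne_top ENNReal.ofReal_ne_top ENNReal.ofReal_ne_top)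
      ENNReal.ofReal_ne_top, ENNReal.mul_rpow_of_ne_top ENNReal.ofReal_ne_top
      ENNReal.ofReal_ne_top, ENNReal.ofReal_rpow_of_pos (by positivity : 0 < 1 / κ ^ 4)]
  have a3 : ENNReal.ofReal ((1 / κ ^ 2) ^ (δ - 1)) * ENNReal.ofReal ((1 / κ ^ 4) ^ (δ - 1)) ≤
      ENNReal.ofReal (κ ^ (4 - δ)) := by
    rw [← ENNReal.ofReal_mul (by positivity)]
    apply ENNReal.ofReal_le_ofReal
    rw [one_div, one_div, Real.inv_rpow hκ2.le, Real.inv_rpow hκ4.le, ← Real.rpow_neg hκ2.le,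
      ← Real.rpow_neg hκ4.le, ← Real.rpow_natCast κ 2, ← Real.rpow_natCast κ 4,
      ← Real.rpow_mul hκ.le, ← Real.rpow_mul hκ.le, ← Real.rpow_add hκ]
    apply Real.rpow_le_rpow_of_exponent_ge hκ hκ1
    push_cast
    linarith
  rw [hsq]
  calc D ^ (δ - 1) * D ^ (δ - 1)
      ≤ (ENNReal.ofReal x ^ (δ - 1) * ENNReal.ofReal ((1 / κ ^ 2) ^ (δ - 1))) *
        (ENNReal.ofReal Y1 ^ (δ - 1) * ENNReal.ofReal Y2 ^ (δ - 1) *
          ENNReal.ofReal ((1 / κ ^ 4) ^ (δ - 1))) := mul_le_mul' a1 a2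
    _ = (ENNReal.ofReal ((1 / κ ^ 2) ^ (δ - 1)) * ENNReal.ofReal ((1 / κ ^ 4) ^ (δ - 1))) *
        (ENNReal.ofReal x ^ (δ - 1) *
        (ENNReal.ofReal Y1 ^ (δ - 1) * ENNReal.ofReal Y2 ^ (δ - 1))) := by ring
    _ ≤ ENNReal.ofReal (κ ^ (4 - δ)) * (ENNReal.ofReal x ^ (δ - 1) *
        (ENNReal.ofReal Y1 ^ (δ - 1) * ENNReal.ofReal Y2 ^ (δ - 1))) := mul_le_mul' a3 le_rfl
    _ = _ := by ring

theorem J_bound (δ R : ℝ) (hδ : 0 < δ) (hδ1 : δ ≤ 2 / 5) (hR : 0 < R) : ∃ C : ℝ≥0∞, C ≠ ∞ ∧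
    ∀ κ : ℝ, 0 < κ → κ ≤ 1 →
    ∫⁻ q in {q : E 2 × E 2 × E 2 | ‖q.1‖ ≤ R ∧ ‖q.2.1‖ ≤ R ∧ ‖q.2.2‖ ≤ R ∧
        |2 * (inner ℝ q.2.1 q.2.2 : ℝ)| ≤ R * κ ^ 2},
      ENNReal.ofReal (|2 * (inner ℝ q.2.1 q.2.2 : ℝ)| / κ ^ 2 +
        |(inner ℝ q.2.1 ((2:ℝ) • q.1 - q.2.1) : ℝ)| *
          |(inner ℝ q.2.2 ((2:ℝ) • q.1 - q.2.2) : ℝ)| / κ ^ 4) ^ (-(2 - 2 * δ)) ≤
      C * ENNReal.ofReal (κ ^ (4 - δ)) := by
  obtain ⟨C1, hC1, hw⟩ := w_integral δ R hδ (by linarith) hR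
  have hyz := yz_integral δ R hδ (by linarith) hR
  have hr := radial_two (δ / 2) R (by linarith)
  set B : Set (E 2) := Metric.closedBall (0 : E 2) R with hB
  have hBm : MeasurableSet B := measurableSet_closedBall
  set I2 : ℝ≥0∞ := ∫⁻ y in B, ∫⁻ z in B,
      ENNReal.ofReal |(inner ℝ y z : ℝ)| ^ (δ - 1) *
        (ENNReal.ofReal ‖y‖ ^ (δ - 1) * ENNReal.ofReal ‖z‖ ^ (δ - 1)) with hI2
  set I1 : ℝ≥0∞ := ∫⁻ y in B, ENNReal.ofReal ‖y‖ ^ (δ / 2 - 2) with hI1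
  have hvB : volume B ≠ ∞ := measure_closedBall_lt_top.ne
  refine ⟨ENNReal.ofReal (R ^ (3 * δ / 2)) * (volume B * (I1 * I1)) + C1 * I2, ?_, ?_⟩
  · exact ENNReal.add_ne_top.2 ⟨ENNReal.mul_ne_top ENNReal.ofReal_ne_top
      (ENNReal.mul_ne_top hvB (ENNReal.mul_ne_top hr.ne hr.ne)), ENNReal.mul_ne_top hC1 hyz.ne⟩
  intro κ hκ hκ1
  set S : Set (E 2 × E 2) := {p | p.1 ≠ 0 ∧ p.2 ≠ 0 ∧
    |(inner ℝ p.1 p.2 : ℝ)| ≤ ‖p.1‖ * ‖p.2‖ / 2} with hS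
  have hSm : MeasurableSet S := by
    have m1 : MeasurableSet {p : E 2 × E 2 | p.1 ≠ 0} :=
      (measurable_fst (measurableSet_singleton (0 : E 2))).compl
    have m2 : MeasurableSet {p : E 2 × E 2 | p.2 ≠ 0} :=
      (measurable_snd (measurableSet_singleton (0 : E 2))).compl
    have m3 : MeasurableSet {p : E 2 × E 2 | |(inner ℝ p.1 p.2 : ℝ)| ≤ ‖p.1‖ * ‖p.2‖ / 2} :=
      measurableSet_le (by fun_prop) (by fun_prop)
    exact m1.inter (m2.inter m3)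
  set cP : ℝ≥0∞ := ENNReal.ofReal (κ ^ (4 - δ)) with hcP
  set cN : ℝ≥0∞ := ENNReal.ofReal (R ^ (3 * δ / 2)) * cP with hcN
  set h : E 2 × E 2 → ℝ≥0∞ := fun p =>
    ENNReal.ofReal ‖p.1‖ ^ (δ / 2 - 2) * ENNReal.ofReal ‖p.2‖ ^ (δ / 2 - 2) with hh
  set k : E 2 × E 2 → ℝ≥0∞ := S.indicator fun p =>
    cP * ENNReal.ofReal |(inner ℝ p.1 p.2 : ℝ)| ^ (δ - 1) with hk
  set W : E 2 × E 2 × E 2 → ℝ≥0∞ := fun q =>
    ENNReal.ofReal |(inner ℝ q.2.1 ((2:ℝ) • q.1 - q.2.1) : ℝ)| ^ (δ - 1) *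
      ENNReal.ofReal |(inner ℝ q.2.2 ((2:ℝ) • q.1 - q.2.2) : ℝ)| ^ (δ - 1) with hW
  have mh : Measurable h := by
    rw [hh]; fun_prop
  have mk : Measurable k := by
    rw [hk]
    apply Measurable.indicator _ hSm
    fun_prop
  have mW : Measurable W := by
    rw [hW]; fun_prop
  have mkW : Measurable fun q : E 2 × E 2 × E 2 => k q.2 * W q :=
    (mk.comp measurable_snd).mul mW
  have mN : Measurable fun q : E 2 × E 2 × E 2 => cN * h q.2 :=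
    measurable_const.mul (mh.comp measurable_snd)
  have hcP0 : cP ≠ 0 := by
    rw [hcP]
    simp only [ne_eq, ENNReal.ofReal_eq_zero, not_le]
    positivity
  have hcN0 : cN ≠ 0 := by
    refine mul_ne_zero ?_ hcP0
    simp only [ne_eq, ENNReal.ofReal_eq_zero, not_le]
    positivity
  have key : ∀ q : E 2 × E 2 × E 2, |2 * (inner ℝ q.2.1 q.2.2 : ℝ)| ≤ R * κ ^ 2 →
      ENNReal.ofReal (|2 * (inner ℝ q.2.1 q.2.2 : ℝ)| / κ ^ 2 +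
        |(inner ℝ q.2.1 ((2:ℝ) • q.1 - q.2.1) : ℝ)| *
          |(inner ℝ q.2.2 ((2:ℝ) • q.1 - q.2.2) : ℝ)| / κ ^ 4) ^ (-(2 - 2 * δ)) ≤
      cN * h q.2 + k q.2 * W q := by
    intro q hq
    have hp0 : ∀ z : E 2, ENNReal.ofReal ‖z‖ ^ (δ / 2 - 2) ≠ 0 := by
      intro z h0
      rw [ENNReal.rpow_eq_zero_iff] at h0
      rcases h0 with ⟨_, h0⟩ | ⟨h0, _⟩
      · linarith
      · exact ENNReal.ofReal_ne_top h0
    have hz0 : ENNReal.ofReal ‖(0 : E 2)‖ ^ (δ / 2 - 2) = ∞ := by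
      rw [norm_zero, ENNReal.ofReal_zero]
      exact ENNReal.zero_rpow_of_neg (by linarith)
    by_cases hy : q.2.1 = 0
    · have : h q.2 = ∞ := by
        simp only [hh]
        rw [hy, hz0]
        exact ENNReal.top_mul (hp0 _)
      rw [this, ENNReal.mul_top hcN0]
      simp
    by_cases hz : q.2.2 = 0
    · have : h q.2 = ∞ := by
        simp only [hh]
        rw [hz, hz0]
        exact ENNReal.mul_top (hp0 _)
      rw [this, ENNReal.mul_top hcN0]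
      simp
    by_cases hP : |(inner ℝ q.2.1 q.2.2 : ℝ)| ≤ ‖q.2.1‖ * ‖q.2.2‖ / 2
    · refine le_trans ?_ le_add_self
      have hk' : k q.2 = cP * ENNReal.ofReal |(inner ℝ q.2.1 q.2.2 : ℝ)| ^ (δ - 1) := by
        rw [hk, indicator_of_mem]
        exact ⟨hy, hz, hP⟩
      rw [hk', abs_mul, abs_of_pos (by norm_num : (0:ℝ) < 2)]
      exact hjb_P δ κ _ _ _ hδ hδ1 hκ hκ1 (abs_nonneg _) (abs_nonneg _) (abs_nonneg _)
    · refine le_trans ?_ le_self_add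
      push Not at hP
      refine hjb_N δ R κ _ _ _ _ hδ hδ1 hR hκ (norm_pos_iff.2 hy) (norm_pos_iff.2 hz) ?_ hq
        (by positivity)
      rw [abs_mul, abs_of_pos (by norm_num : (0:ℝ) < 2)]
      linarith
  set μ : Measure (E 2) := volume.restrict B with hμ
  have hprod : (volume : Measure (E 2 × E 2 × E 2)).restrict (B ×ˢ (B ×ˢ B)) =
      μ.prod (μ.prod μ) := by
    rw [hμ, Measure.prod_restrict, Measure.prod_restrict]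
    rfl
  have s1 : ∫⁻ q in {q : E 2 × E 2 × E 2 | ‖q.1‖ ≤ R ∧ ‖q.2.1‖ ≤ R ∧ ‖q.2.2‖ ≤ R ∧
        |2 * (inner ℝ q.2.1 q.2.2 : ℝ)| ≤ R * κ ^ 2},
      ENNReal.ofReal (|2 * (inner ℝ q.2.1 q.2.2 : ℝ)| / κ ^ 2 +
        |(inner ℝ q.2.1 ((2:ℝ) • q.1 - q.2.1) : ℝ)| *
          |(inner ℝ q.2.2 ((2:ℝ) • q.1 - q.2.2) : ℝ)| / κ ^ 4) ^ (-(2 - 2 * δ)) ≤
      ∫⁻ q in {q : E 2 × E 2 × E 2 | ‖q.1‖ ≤ R ∧ ‖q.2.1‖ ≤ R ∧ ‖q.2.2‖ ≤ R ∧
        |2 * (inner ℝ q.2.1 q.2.2 : ℝ)| ≤ R * κ ^ 2}, (cN * h q.2 + k q.2 * W q) := by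
    refine setLIntegral_mono (mN.add mkW) fun q hq => key q hq.2.2.2
  have s2 : ∫⁻ q in {q : E 2 × E 2 × E 2 | ‖q.1‖ ≤ R ∧ ‖q.2.1‖ ≤ R ∧ ‖q.2.2‖ ≤ R ∧
        |2 * (inner ℝ q.2.1 q.2.2 : ℝ)| ≤ R * κ ^ 2}, (cN * h q.2 + k q.2 * W q) ≤
      ∫⁻ q in B ×ˢ (B ×ˢ B), (cN * h q.2 + k q.2 * W q) := by
    refine lintegral_mono_set ?_
    intro q hq
    obtain ⟨h1, h2, h3, _⟩ := hq
    refine ⟨?_, ?_, ?_⟩
    · rw [hB, mem_closedBall_zero_iff]; exact h1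
    · rw [hB, mem_closedBall_zero_iff]; exact h2
    · rw [hB, mem_closedBall_zero_iff]; exact h3
  refine (s1.trans s2).trans ?_
  rw [hprod, lintegral_add_left mN]
  have t1 : ∫⁻ q : E 2 × E 2 × E 2, cN * h q.2 ∂(μ.prod (μ.prod μ)) =
      cN * (volume B * (I1 * I1)) := by
    have m1 : Measurable fun y : E 2 => ENNReal.ofReal ‖y‖ ^ (δ / 2 - 2) := by fun_prop
    have u1 : ∫⁻ p : E 2 × E 2, h p ∂(μ.prod μ) = I1 * I1 := by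
      rw [hh]
      exact lintegral_prod_mul (f := fun y : E 2 => ENNReal.ofReal ‖y‖ ^ (δ / 2 - 2))
        (g := fun y : E 2 => ENNReal.ofReal ‖y‖ ^ (δ / 2 - 2)) m1.aemeasurable m1.aemeasurable
    have mh2 : Measurable fun q : E 2 × E 2 × E 2 => h q.2 := mh.comp measurable_snd
    rw [lintegral_const_mul _ mh2]
    congr 1
    rw [lintegral_prod _ mh2.aemeasurable]
    simp only [u1, lintegral_const]
    rw [hμ, Measure.restrict_apply_univ, mul_comm]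
  have t2 : ∫⁻ q : E 2 × E 2 × E 2, k q.2 * W q ∂(μ.prod (μ.prod μ)) ≤ cP * (C1 * I2) := by
    rw [lintegral_prod_symm _ mkW.aemeasurable]
    have m2 : Measurable fun p : E 2 × E 2 => ENNReal.ofReal |(inner ℝ p.1 p.2 : ℝ)| ^ (δ - 1) *
        (ENNReal.ofReal ‖p.1‖ ^ (δ - 1) * ENNReal.ofReal ‖p.2‖ ^ (δ - 1)) := by fun_prop
    have v1 : ∀ p : E 2 × E 2, ∫⁻ w, k (w, p).2 * W (w, p) ∂μ ≤
        cP * C1 * (ENNReal.ofReal |(inner ℝ p.1 p.2 : ℝ)| ^ (δ - 1) *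
          (ENNReal.ofReal ‖p.1‖ ^ (δ - 1) * ENNReal.ofReal ‖p.2‖ ^ (δ - 1))) := by
      intro p
      have mWp : Measurable fun w : E 2 => W (w, p) := mW.comp (by fun_prop)
      have hc : ∫⁻ w, k (w, p).2 * W (w, p) ∂μ = k p * ∫⁻ w, W (w, p) ∂μ :=
        lintegral_const_mul (k p) mWp
      rw [hc]
      by_cases hp : p ∈ S
      · have hk' : k p = cP * ENNReal.ofReal |(inner ℝ p.1 p.2 : ℝ)| ^ (δ - 1) := by
          rw [hk, indicator_of_mem hp]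
        have := hw p.1 p.2 hp.1 hp.2.1 hp.2.2
        simp only [hk']
        calc cP * ENNReal.ofReal |(inner ℝ p.1 p.2 : ℝ)| ^ (δ - 1) * ∫⁻ w, W (w, p) ∂μ
            ≤ cP * ENNReal.ofReal |(inner ℝ p.1 p.2 : ℝ)| ^ (δ - 1) *
              (C1 * (ENNReal.ofReal ‖p.1‖ ^ (δ - 1) * ENNReal.ofReal ‖p.2‖ ^ (δ - 1))) :=
              mul_le_mul' le_rfl this
          _ = _ := by ring
      · have hk' : k p = 0 := by
          rw [hk, indicator_of_notMem hp]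
        simp only [hk', zero_mul]
        exact zero_le
    refine (lintegral_mono v1).trans ?_
    rw [lintegral_const_mul _ m2, lintegral_prod _ m2.aemeasurable, mul_assoc]
  rw [t1]
  calc cN * (volume B * (I1 * I1)) + ∫⁻ q : E 2 × E 2 × E 2, k q.2 * W q ∂(μ.prod (μ.prod μ))
      ≤ cN * (volume B * (I1 * I1)) + cP * (C1 * I2) := by gcongr
    _ = _ := by rw [hcN]; ring

theorem dd_eq (κ : ℝ) (w y z : E 2) :
    DD κ (‖w‖ ^ 2) (‖w - y - z‖ ^ 2) (‖w - y‖ ^ 2) (‖w - z‖ ^ 2) =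
      |2 * (inner ℝ y z : ℝ)| / κ ^ 2 + |(inner ℝ y ((2:ℝ) • w - y) : ℝ)| *
        |(inner ℝ z ((2:ℝ) • w - z) : ℝ)| / κ ^ 4 := by
  unfold DD
  have e1 : ‖w‖ ^ 2 + ‖w - y - z‖ ^ 2 - ‖w - y‖ ^ 2 - ‖w - z‖ ^ 2 = 2 * (inner ℝ y z : ℝ) := by
    simp only [← real_inner_self_eq_norm_sq, inner_sub_left, inner_sub_right]
    rw [real_inner_comm w y, real_inner_comm w z, real_inner_comm y z]
    ring
  have e2 : ‖w‖ ^ 2 - ‖w - y‖ ^ 2 = (inner ℝ y ((2:ℝ) • w - y) : ℝ) := by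
    simp only [← real_inner_self_eq_norm_sq, inner_sub_left, inner_sub_right, inner_smul_right]
    rw [real_inner_comm w y]
    ring
  have e3 : ‖w‖ ^ 2 - ‖w - z‖ ^ 2 = (inner ℝ z ((2:ℝ) • w - z) : ℝ) := by
    simp only [← real_inner_self_eq_norm_sq, inner_sub_left, inner_sub_right, inner_smul_right]
    rw [real_inner_comm w z]
    ring
  rw [e1, e2, e3]

end Pool.Agent.MST
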