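import Pool.Agent.MST.KL
import Pool.Agent.MST.AL

namespace Pool.Agent.MST

open MeasureTheory Set Pool.Agent.MP_6cbfb8_an
open scoped ENNReal Real

/-- two derivatives with bounds -/
def HkbQ (M : ℝ) (S : Set ℝ) (g g1 g2 : ℝ → ℝ) : Prop :=
  (∀ τ ∈ S, HasDerivAt g (g1 τ) τ ∧ HasDerivAt g1 (g2 τ) τ) ∧ ContinuousOn g2 S ∧
    ∀ τ ∈ S, |g τ| ≤ M ∧ |g1 τ| ≤ M ∧ |g2 τ| ≤ M

theorem hkb_mul {M N : ℝ} {S : Set ℝ} {g g1 g2 h h1 h2 : ℝ → ℝ} (hg : HkbQ M S g g1 g2)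
    (hh : HkbQ N S h h1 h2) :
    HkbQ (4 * M * N) S (fun τ => g τ * h τ) (fun τ => g1 τ * h τ + g τ * h1 τ)
      (fun τ => g2 τ * h τ + 2 * (g1 τ * h1 τ) + g τ * h2 τ) := by
  obtain ⟨hg1, hg2, hg3⟩ := hg
  obtain ⟨hh1, hh2, hh3⟩ := hh
  have cg : ContinuousOn g S := fun τ hτ => (hg1 τ hτ).1.continuousAt.continuousWithinAt
  have cg1 : ContinuousOn g1 S := fun τ hτ => (hg1 τ hτ).2.continuousAt.continuousWithinAt
  have ch : ContinuousOn h S := fun τ hτ => (hh1 τ hτ).1.continuousAt.continuousWithinAt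
  have ch1 : ContinuousOn h1 S := fun τ hτ => (hh1 τ hτ).2.continuousAt.continuousWithinAt
  refine ⟨fun τ hτ => ⟨(hg1 τ hτ).1.mul (hh1 τ hτ).1, ?_⟩, ?_, ?_⟩
  · have h3 := ((hg1 τ hτ).2.mul (hh1 τ hτ).1).add ((hg1 τ hτ).1.mul (hh1 τ hτ).2)
    refine h3.congr_deriv ?_
    ring
  · exact ((hg2.mul ch).add (continuousOn_const.mul (cg1.mul ch1))).add (cg.mul hh2)
  · intro τ hτ
    obtain ⟨a1, a2, a3⟩ := hg3 τ hτ
    obtain ⟨b1, b2, b3⟩ := hh3 τ hτ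
    have hM : 0 ≤ M := (abs_nonneg _).trans a1
    have hN : 0 ≤ N := (abs_nonneg _).trans b1
    have hMN : 0 ≤ M * N := mul_nonneg hM hN
    have hm : ∀ x y : ℝ, |x| ≤ M → |y| ≤ N → |x * y| ≤ M * N := by
      intro x y hx hy
      rw [abs_mul]
      exact mul_le_mul hx hy (abs_nonneg _) hM
    have e1 := hm _ _ a1 b1
    have e2 := hm _ _ a2 b1
    have e3 := hm _ _ a1 b2
    have e4 := hm _ _ a3 b1
    have e5 := hm _ _ a2 b2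
    have e6 := hm _ _ a1 b3
    rw [abs_le] at e1 e2 e3 e4 e5 e6
    refine ⟨?_, ?_, ?_⟩
    · rw [abs_le]; constructor <;> nlinarith
    · rw [abs_le]; constructor <;> nlinarith
    · rw [abs_le]; constructor <;> nlinarith

theorem hkb_cd {a : ℝ → ℝ} (ha : Cut a) : (∀ v, HasDerivAt a (deriv a v) v) ∧
    (∀ v, HasDerivAt (deriv a) (deriv (deriv a) v) v) ∧ Continuous (deriv (deriv a)) := by
  have h2 : ContDiff ℝ (1 + 1) a := by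
    have := ha.1
    norm_num
    exact this
  have h3 := contDiff_succ_iff_deriv.1 h2
  have h4 : ContDiff ℝ (0 + 1) (deriv a) := by
    simpa using h3.2.2
  have h5 := contDiff_succ_iff_deriv.1 h4
  exact ⟨fun v => (h3.1 v).hasDerivAt, fun v => (h5.1 v).hasDerivAt, h5.2.2.continuous⟩

theorem hkb_edge {a : ℝ → ℝ} (ha : Cut a) {v : ℝ} (hv : v = 1 / 4 ∨ v = 4) : a v = 0 ∧ deriv a v = 0 := by
  have h1 := (hkb_cd ha).1 v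
  rcases hv with hv | hv
  · have h0 : a v = 0 := ha.2 v (Or.inl hv.le)
    refine ⟨h0, ?_⟩
    have h2 : HasDerivWithinAt a 0 (Iic v) v :=
      (hasDerivWithinAt_const v (Iic v) (0 : ℝ)).congr (fun x hx => ha.2 x (Or.inl (hx.trans hv.le))) h0
    exact (uniqueDiffOn_Iic v v (mem_Iic.2 le_rfl)).eq_deriv _ h1.hasDerivWithinAt h2
  · have h0 : a v = 0 := ha.2 v (Or.inr hv.ge)
    refine ⟨h0, ?_⟩
    have h2 : HasDerivWithinAt a 0 (Ici v) v :=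
      (hasDerivWithinAt_const v (Ici v) (0 : ℝ)).congr (fun x hx => ha.2 x (Or.inr (hv.ge.trans hx))) h0
    exact (uniqueDiffOn_Ici v v (mem_Ici.2 le_rfl)).eq_deriv _ h1.hasDerivWithinAt h2

theorem hkb_abound {a : ℝ → ℝ} (ha : Cut a) : ∃ Ma : ℝ, 0 ≤ Ma ∧ ∀ v ∈ Icc (1 / 4 : ℝ) 4,
    |a v| ≤ Ma ∧ |deriv a v| ≤ Ma ∧ |deriv (deriv a) v| ≤ Ma := by
  obtain ⟨h1, h2, h3⟩ := hkb_cd ha
  have c0 : Continuous a := continuous_iff_continuousAt.2 fun v => (h1 v).continuousAt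
  have c1 : Continuous (deriv a) := continuous_iff_continuousAt.2 fun v => (h2 v).continuousAt
  obtain ⟨M0, hM0⟩ := (isCompact_Icc (a := (1 / 4 : ℝ)) (b := 4)).exists_bound_of_continuousOn c0.continuousOn
  obtain ⟨M1, hM1⟩ := (isCompact_Icc (a := (1 / 4 : ℝ)) (b := 4)).exists_bound_of_continuousOn c1.continuousOn
  obtain ⟨M2, hM2⟩ := (isCompact_Icc (a := (1 / 4 : ℝ)) (b := 4)).exists_bound_of_continuousOn h3.continuousOn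
  refine ⟨|M0| + |M1| + |M2|, by positivity, fun v hv => ⟨?_, ?_, ?_⟩⟩
  · have := hM0 v hv
    rw [Real.norm_eq_abs] at this
    have := le_abs_self M0
    have := abs_nonneg M1
    have := abs_nonneg M2
    linarith
  · have := hM1 v hv
    rw [Real.norm_eq_abs] at this
    have := le_abs_self M1
    have := abs_nonneg M0
    have := abs_nonneg M2
    linarith
  · have := hM2 v hv
    rw [Real.norm_eq_abs] at this
    have := le_abs_self M2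
    have := abs_nonneg M1
    have := abs_nonneg M0
    linarith

theorem hkb_A {a : ℝ → ℝ} (ha : Cut a) {Ma : ℝ} (hM0 : 0 ≤ Ma) (hMa : ∀ v ∈ Icc (1 / 4 : ℝ) 4,
    |a v| ≤ Ma ∧ |deriv a v| ≤ Ma ∧ |deriv (deriv a) v| ≤ Ma) {R c r : ℝ} (hR : 1 ≤ R)
    (hr : 0 ≤ r) (hrR : r ≤ R) {S : Set ℝ} (hS : ∀ τ ∈ S, c - r * τ ∈ Icc (1 / 4 : ℝ) 4) :
    HkbQ (R ^ 2 * Ma) S (fun τ => a (c - r * τ)) (fun τ => deriv a (c - r * τ) * -r)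
      (fun τ => deriv (deriv a) (c - r * τ) * r ^ 2) := by
  obtain ⟨h1, h2, h3⟩ := hkb_cd ha
  have hlin : ∀ τ, HasDerivAt (fun τ => c - r * τ) (-r) τ := by
    intro τ
    have := ((hasDerivAt_id τ).const_mul r).const_sub c
    refine this.congr_deriv ?_
    simp
  refine ⟨fun τ hτ => ⟨?_, ?_⟩, ?_, fun τ hτ => ?_⟩
  · exact (h1 (c - r * τ)).comp τ (hlin τ)
  · have := ((h2 (c - r * τ)).comp τ (hlin τ)).mul_const (-r)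
    refine this.congr_deriv ?_
    ring
  · apply Continuous.continuousOn
    fun_prop
  · obtain ⟨e1, e2, e3⟩ := hMa _ (hS τ hτ)
    have hR2 : 1 ≤ R ^ 2 := one_le_pow₀ hR
    have hRR : R ≤ R ^ 2 := by nlinarith
    refine ⟨?_, ?_, ?_⟩
    · exact e1.trans (by nlinarith)
    · change |deriv a (c - r * τ) * -r| ≤ R ^ 2 * Ma
      rw [abs_mul, abs_neg, abs_of_nonneg hr, mul_comm]
      exact mul_le_mul (hrR.trans hRR) e2 (abs_nonneg _) (by positivity)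
    · change |deriv (deriv a) (c - r * τ) * r ^ 2| ≤ R ^ 2 * Ma
      rw [abs_mul, abs_of_nonneg (sq_nonneg r), mul_comm]
      exact mul_le_mul (pow_le_pow_left₀ hr hrR 2) e3 (abs_nonneg _) (by positivity)

/-- first derivative of `bmp` -/
noncomputable def hkbB1 (s0 s1 s : ℝ) : ℝ := 3 * ((s - s0) * (s1 - s)) ^ 2 * (s0 + s1 - 2 * s)

/-- second derivative of `bmp` -/
noncomputable def hkbB2 (s0 s1 s : ℝ) : ℝ :=
  6 * ((s - s0) * (s1 - s)) * (s0 + s1 - 2 * s) ^ 2 - 6 * ((s - s0) * (s1 - s)) ^ 2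

theorem hkb_bmp (s0 s1 s : ℝ) : HasDerivAt (bmp s0 s1) (hkbB1 s0 s1 s) s ∧
    HasDerivAt (hkbB1 s0 s1) (hkbB2 s0 s1 s) s := by
  have h1 : HasDerivAt (fun s => (s - s0) * (s1 - s)) (s0 + s1 - 2 * s) s := by
    have := ((hasDerivAt_id s).sub_const s0).mul ((hasDerivAt_id s).const_sub s1)
    refine this.congr_deriv ?_
    simp
    ring
  have h2 : HasDerivAt (fun s : ℝ => s0 + s1 - 2 * s) (-2) s := by
    have := ((hasDerivAt_id s).const_mul 2).const_sub (s0 + s1)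
    refine this.congr_deriv ?_
    simp
  constructor
  · have := h1.pow 3
    unfold bmp hkbB1
    refine this.congr_deriv ?_
    simp
  · have := ((h1.pow 2).const_mul 3).mul h2
    unfold hkbB1 hkbB2
    refine this.congr_deriv ?_
    simp
    ring

theorem hkb_P (s0 s1 : ℝ) : ∃ Mp : ℝ, 0 ≤ Mp ∧ ∀ κ : ℝ, 0 < κ → κ ≤ 1 → ∀ S : Set ℝ,
    (∀ τ ∈ S, s0 + κ ^ 2 * τ ∈ Icc s0 s1) →
    HkbQ Mp S (fun τ => bmp s0 s1 (s0 + κ ^ 2 * τ)) (fun τ => hkbB1 s0 s1 (s0 + κ ^ 2 * τ) * κ ^ 2)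
      (fun τ => hkbB2 s0 s1 (s0 + κ ^ 2 * τ) * κ ^ 4) := by
  have c0 : Continuous (bmp s0 s1) := by unfold bmp; fun_prop
  have c1 : Continuous (hkbB1 s0 s1) := by unfold hkbB1; fun_prop
  have c2 : Continuous (hkbB2 s0 s1) := by unfold hkbB2; fun_prop
  obtain ⟨M0, hM0⟩ := (isCompact_Icc (a := s0) (b := s1)).exists_bound_of_continuousOn c0.continuousOn
  obtain ⟨M1, hM1⟩ := (isCompact_Icc (a := s0) (b := s1)).exists_bound_of_continuousOn c1.continuousOn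
  obtain ⟨M2, hM2⟩ := (isCompact_Icc (a := s0) (b := s1)).exists_bound_of_continuousOn c2.continuousOn
  refine ⟨|M0| + |M1| + |M2|, by positivity, fun κ hκ hκ1 S hS => ⟨fun τ hτ => ⟨?_, ?_⟩, ?_, fun τ hτ => ?_⟩⟩
  · have hlin : HasDerivAt (fun τ => s0 + κ ^ 2 * τ) (κ ^ 2) τ := by
      have := ((hasDerivAt_id τ).const_mul (κ ^ 2)).const_add s0
      refine this.congr_deriv ?_
      simp
    exact (hkb_bmp s0 s1 (s0 + κ ^ 2 * τ)).1.comp τ hlin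
  · have hlin : HasDerivAt (fun τ => s0 + κ ^ 2 * τ) (κ ^ 2) τ := by
      have := ((hasDerivAt_id τ).const_mul (κ ^ 2)).const_add s0
      refine this.congr_deriv ?_
      simp
    have := ((hkb_bmp s0 s1 (s0 + κ ^ 2 * τ)).2.comp τ hlin).mul_const (κ ^ 2)
    refine this.congr_deriv ?_
    ring
  · apply Continuous.continuousOn
    fun_prop
  · have e0 := hM0 _ (hS τ hτ)
    have e1 := hM1 _ (hS τ hτ)
    have e2 := hM2 _ (hS τ hτ)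
    rw [Real.norm_eq_abs] at e0 e1 e2
    have a0 := le_abs_self M0
    have a1 := le_abs_self M1
    have a2 := le_abs_self M2
    have b0 := abs_nonneg M0
    have b1 := abs_nonneg M1
    have b2 := abs_nonneg M2
    have k2 : κ ^ 2 ≤ 1 := pow_le_one₀ hκ.le hκ1
    have k4 : κ ^ 4 ≤ 1 := pow_le_one₀ hκ.le hκ1
    refine ⟨by linarith, ?_, ?_⟩
    · change |hkbB1 s0 s1 (s0 + κ ^ 2 * τ) * κ ^ 2| ≤ _
      rw [abs_mul, abs_of_nonneg (sq_nonneg κ)]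
      have := mul_le_mul e1 k2 (sq_nonneg κ) ((abs_nonneg _).trans e1)
      linarith
    · change |hkbB2 s0 s1 (s0 + κ ^ 2 * τ) * κ ^ 4| ≤ _
      rw [abs_mul, abs_of_nonneg (by positivity : (0 : ℝ) ≤ κ ^ 4)]
      have := mul_le_mul e2 k4 (by positivity) ((abs_nonneg _).trans e2)
      linarith

/-- the square root and its derivatives -/
theorem hkb_sqrt {c r τ : ℝ} (h : 0 < c - r * τ) :
    HasDerivAt (fun τ => √(c - r * τ)) (-(1 / 2) * (r / √(c - r * τ))) τ ∧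
    HasDerivAt (fun τ => -(1 / 2) * (r / √(c - r * τ))) (-(1 / 4) * (r ^ 2 / √(c - r * τ) ^ 3)) τ ∧
    HasDerivAt (fun τ => -(1 / 4) * (r ^ 2 / √(c - r * τ) ^ 3)) (-(3 / 8) * (r ^ 3 / √(c - r * τ) ^ 5)) τ := by
  have hlin : HasDerivAt (fun τ => c - r * τ) (-r) τ := by
    have := ((hasDerivAt_id τ).const_mul r).const_sub c
    refine this.congr_deriv ?_
    simp
  have hp : 0 < √(c - r * τ) := Real.sqrt_pos.2 h
  have hp0 := hp.ne'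
  have h1 : HasDerivAt (fun τ => √(c - r * τ)) (-(1 / 2) * (r / √(c - r * τ))) τ := by
    have := hlin.sqrt h.ne'
    refine this.congr_deriv ?_
    field_simp
  refine ⟨h1, ?_, ?_⟩
  · have := ((h1.inv hp0).const_mul r).const_mul (-(1 / 2))
    refine (this.congr_deriv ?_)
    field_simp
    try ring
  · have := (((h1.pow 3).inv (pow_ne_zero 3 hp0)).const_mul (r ^ 2)).const_mul (-(1 / 4))
    refine (this.congr_deriv ?_)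
    simp only [Pi.pow_apply]
    field_simp
    try ring

theorem hkb_HH (y : ℝ) : |HH y| ≤ 2 := by
  have hpi : 3 < π := Real.pi_gt_three
  have hy := sq_nonneg y
  have h0 : 0 < Real.exp (-(π * y ^ 2)) := Real.exp_pos _
  have h1 : Real.exp (-(π * y ^ 2)) ≤ 1 := Real.exp_le_one_iff.2 (by nlinarith)
  have h2 : y ^ 2 * Real.exp (-(π * y ^ 2)) ≤ 1 := by
    have h := Real.add_one_le_exp (π * y ^ 2)
    rw [Real.exp_neg, ← div_eq_mul_inv, div_le_one (Real.exp_pos _)]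
    nlinarith
  have h3 : 0 ≤ y ^ 2 * Real.exp (-(π * y ^ 2)) := by positivity
  have h4 : 1 / (2 * π) ≤ 1 := by
    rw [div_le_one (by positivity)]
    linarith
  have h5 : 0 ≤ 1 / (2 * π) := by positivity
  have h6 : 1 / (2 * π) * Real.exp (-(π * y ^ 2)) ≤ 1 * 1 := mul_le_mul h4 h1 h0.le zero_le_one
  have h7 : 0 ≤ 1 / (2 * π) * Real.exp (-(π * y ^ 2)) := by positivity
  unfold HH
  rw [sub_mul, abs_le]
  constructor <;> linarith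

theorem hkb_HHc : Continuous HH := by
  unfold HH
  fun_prop

theorem hkb_Z (c r : Fin 4 → ℝ) (hr : ∀ i, 0 ≤ r i) (T : ℝ) :
    (∀ τ ∈ Icc 0 T, ∃ i, c i - r i * τ ∉ Icc (1 / 4 : ℝ) 4) ∨
    ∃ α β, 0 ≤ α ∧ α ≤ β ∧ β ≤ T ∧
      (∀ τ ∈ Icc 0 T, τ ∉ Icc α β → ∃ i, c i - r i * τ ∉ Icc (1 / 4 : ℝ) 4) ∧
      (∀ τ ∈ Icc α β, ∀ i, c i - r i * τ ∈ Icc (1 / 4 : ℝ) 4) ∧
      (α = 0 ∨ ∃ i, c i - r i * α = 1 / 4 ∨ c i - r i * α = 4) ∧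
      (β = T ∨ ∃ i, c i - r i * β = 1 / 4 ∨ c i - r i * β = 4) := by
  set Z : Set ℝ := Icc 0 T ∩ ⋂ i, {τ | c i - r i * τ ∈ Icc (1 / 4 : ℝ) 4} with hZ
  have hmem : ∀ τ, τ ∈ Z ↔ (0 ≤ τ ∧ τ ≤ T) ∧ ∀ i, c i - r i * τ ∈ Icc (1 / 4 : ℝ) 4 := by
    intro τ
    rw [hZ]
    simp only [mem_inter_iff, mem_iInter, Set.mem_ofPred_eq, mem_Icc]
  rcases Z.eq_empty_or_nonempty with he | hne
  · left
    intro τ hτ
    by_contra hcon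
    push Not at hcon
    have : τ ∈ Z := (hmem τ).2 ⟨⟨hτ.1, hτ.2⟩, hcon⟩
    rw [he] at this
    exact this
  · right
    have hcomp : IsCompact Z := by
      apply isCompact_Icc.inter_right
      apply isClosed_iInter
      intro i
      exact isClosed_Icc.preimage (by fun_prop : Continuous fun τ => c i - r i * τ)
    have hα := hcomp.sInf_mem hne
    have hβ := hcomp.sSup_mem hne
    have hle : ∀ τ ∈ Z, sInf Z ≤ τ := fun τ hτ => csInf_le hcomp.bddBelow hτ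
    have hge : ∀ τ ∈ Z, τ ≤ sSup Z := fun τ hτ => le_csSup hcomp.bddAbove hτ
    have hα' := (hmem _).1 hα
    have hβ' := (hmem _).1 hβ
    have hstrict : ∀ τ : ℝ, (∀ i, c i - r i * τ ∈ Icc (1 / 4 : ℝ) 4) →
        (¬ ∃ i, c i - r i * τ = 1 / 4 ∨ c i - r i * τ = 4) →
        ∀ᶠ x in nhds τ, ∀ i, c i - r i * x ∈ Icc (1 / 4 : ℝ) 4 := by
      intro τ h1 h2
      rw [Filter.eventually_all]
      intro i
      have h3 : c i - r i * τ ∈ Ioo (1 / 4 : ℝ) 4 := by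
        refine ⟨lt_of_le_of_ne (h1 i).1 ?_, lt_of_le_of_ne (h1 i).2 ?_⟩
        · intro h
          exact h2 ⟨i, Or.inl h.symm⟩
        · intro h
          exact h2 ⟨i, Or.inr h⟩
      have hc : ContinuousAt (fun τ => c i - r i * τ) τ := by fun_prop
      filter_upwards [hc.preimage_mem_nhds (Ioo_mem_nhds h3.1 h3.2)] with x hx
      exact Ioo_subset_Icc_self hx
    refine ⟨sInf Z, sSup Z, hα'.1.1, hle _ hβ, hβ'.1.2, ?_, ?_, ?_, ?_⟩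
    · intro τ hτ hn
      by_contra hcon
      push Not at hcon
      have : τ ∈ Z := (hmem τ).2 ⟨⟨hτ.1, hτ.2⟩, hcon⟩
      exact hn ⟨hle _ this, hge _ this⟩
    · intro τ hτ i
      have h1 := (hα'.2 i).2
      have h2 := (hβ'.2 i).1
      have h3 := mul_le_mul_of_nonneg_left hτ.1 (hr i)
      have h4 := mul_le_mul_of_nonneg_left hτ.2 (hr i)
      constructor <;> linarith
    · by_contra hcon
      push Not at hcon
      obtain ⟨h0, h1⟩ := hcon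
      have hpos : 0 < sInf Z := lt_of_le_of_ne hα'.1.1 (Ne.symm h0)
      have hev := hstrict _ hα'.2 (by push Not; exact h1)
      have hev2 : ∀ᶠ x in nhds (sInf Z), 0 < x := lt_mem_nhds hpos
      have hev3 : ∀ᶠ x in nhdsWithin (sInf Z) (Iio (sInf Z)), x < sInf Z := self_mem_nhdsWithin
      obtain ⟨x, ⟨hx1, hx2⟩, hx3⟩ :=
        (((hev.and hev2).filter_mono nhdsWithin_le_nhds).and hev3).exists
      have hxZ : x ∈ Z := (hmem x).2 ⟨⟨hx2.le, (le_of_lt hx3).trans hα'.1.2⟩, hx1⟩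
      exact absurd (hle x hxZ) (not_le.2 hx3)
    · by_contra hcon
      push Not at hcon
      obtain ⟨h0, h1⟩ := hcon
      have hpos : sSup Z < T := lt_of_le_of_ne hβ'.1.2 h0
      have hev := hstrict _ hβ'.2 (by push Not; exact h1)
      have hev2 : ∀ᶠ x in nhds (sSup Z), x < T := gt_mem_nhds hpos
      have hev3 : ∀ᶠ x in nhdsWithin (sSup Z) (Ioi (sSup Z)), sSup Z < x := self_mem_nhdsWithin
      obtain ⟨x, ⟨hx1, hx2⟩, hx3⟩ :=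
        (((hev.and hev2).filter_mono nhdsWithin_le_nhds).and hev3).exists
      have hxZ : x ∈ Z := (hmem x).2 ⟨⟨hβ'.1.1.trans (le_of_lt hx3), hx2.le⟩, hx1⟩
      exact absurd (hge x hxZ) (not_le.2 hx3)

theorem hkb_restrict (F : ℝ → ℝ) {α β T : ℝ} (h0 : 0 ≤ α) (h1 : α ≤ β) (h2 : β ≤ T)
    (hF : ∀ τ ∈ Icc 0 T, τ ∉ Icc α β → F τ = 0) : ∫ τ in 0..T, F τ = ∫ τ in α..β, F τ := by
  rw [intervalIntegral.integral_of_le (h0.trans (h1.trans h2)), intervalIntegral.integral_of_le h1,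
    ← integral_Icc_eq_integral_Ioc, ← integral_Icc_eq_integral_Ioc]
  exact setIntegral_eq_of_subset_of_forall_sdiff_eq_zero measurableSet_Icc (Icc_subset_Icc h0 h2)
    (fun x hx => hF x hx.1 hx.2)

/-- the symmetric size of the phase -/
noncomputable def hkbDr (κ r1 r2 r3 r4 : ℝ) : ℝ :=
  |r1 + r2 - r3 - r4| / κ ^ 2 + (|r1 - r3| * |r1 - r4| + |r2 - r3| * |r2 - r4|) / κ ^ 4

theorem hkb_D {κ s v1 v2 v3 v4 r1 r2 r3 r4 : ℝ} (hκ : 0 < κ) (hs : 0 < s)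
    (h1 : κ ^ 2 * v1 = 1 - s * r1) (h2 : κ ^ 2 * v2 = 1 - s * r2) (h3 : κ ^ 2 * v3 = 1 - s * r3)
    (h4 : κ ^ 2 * v4 = 1 - s * r4) :
    |v1 + v2 - v3 - v4| + |v1 - v3| * |v1 - v4| + |v2 - v3| * |v2 - v4| =
      s * (|r1 + r2 - r3 - r4| / κ ^ 2) +
      s ^ 2 * ((|r1 - r3| * |r1 - r4| + |r2 - r3| * |r2 - r4|) / κ ^ 4) := by
  have hk : 0 < κ ^ 2 := by positivity
  have key : ∀ v v' r r' : ℝ, κ ^ 2 * v = 1 - s * r → κ ^ 2 * v' = 1 - s * r' →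
      |v - v'| = s * |r - r'| / κ ^ 2 := by
    intro v v' r r' e e'
    have : v - v' = -(s * (r - r') / κ ^ 2) := by
      field_simp
      linarith
    rw [this, abs_neg, abs_div, abs_mul, abs_of_pos hs, abs_of_pos hk]
  have k0 : |v1 + v2 - v3 - v4| = s * |r1 + r2 - r3 - r4| / κ ^ 2 := by
    have : v1 + v2 - v3 - v4 = -(s * (r1 + r2 - r3 - r4) / κ ^ 2) := by
      field_simp
      linarith
    rw [this, abs_neg, abs_div, abs_mul, abs_of_pos hs, abs_of_pos hk]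
  rw [k0, key _ _ _ _ h1 h3, key _ _ _ _ h1 h4, key _ _ _ _ h2 h3, key _ _ _ _ h2 h4]
  field_simp
  ring

theorem hkb_D_le {κ s s0 s1 r1 r2 r3 r4 : ℝ} (hκ : 0 < κ) (h0 : 0 < s0) (hs0 : s0 ≤ s) (hs1 : s ≤ s1) :
    min s0 (s0 ^ 2) * hkbDr κ r1 r2 r3 r4 ≤ s * (|r1 + r2 - r3 - r4| / κ ^ 2) +
      s ^ 2 * ((|r1 - r3| * |r1 - r4| + |r2 - r3| * |r2 - r4|) / κ ^ 4) ∧
    s * (|r1 + r2 - r3 - r4| / κ ^ 2) +
      s ^ 2 * ((|r1 - r3| * |r1 - r4| + |r2 - r3| * |r2 - r4|) / κ ^ 4) ≤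
    (s1 + s1 ^ 2) * hkbDr κ r1 r2 r3 r4 := by
  have hX : 0 ≤ |r1 + r2 - r3 - r4| / κ ^ 2 := by positivity
  have hY : 0 ≤ (|r1 - r3| * |r1 - r4| + |r2 - r3| * |r2 - r4|) / κ ^ 4 := by positivity
  unfold hkbDr
  set X := |r1 + r2 - r3 - r4| / κ ^ 2
  set Y := (|r1 - r3| * |r1 - r4| + |r2 - r3| * |r2 - r4|) / κ ^ 4
  have hs : 0 < s := h0.trans_le hs0
  have e1 : min s0 (s0 ^ 2) * X ≤ s * X := mul_le_mul_of_nonneg_right ((min_le_left _ _).trans hs0) hX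
  have e2 : min s0 (s0 ^ 2) * Y ≤ s ^ 2 * Y :=
    mul_le_mul_of_nonneg_right ((min_le_right _ _).trans (pow_le_pow_left₀ h0.le hs0 2)) hY
  have e3 : s * X ≤ s1 * X := mul_le_mul_of_nonneg_right hs1 hX
  have e4 : s ^ 2 * Y ≤ s1 ^ 2 * Y := mul_le_mul_of_nonneg_right (pow_le_pow_left₀ hs.le hs1 2) hY
  have e5 : 0 ≤ s1 ^ 2 * X := by positivity
  have e6 : 0 ≤ s1 * Y := mul_nonneg (hs.le.trans hs1) hY
  constructor <;> nlinarith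

theorem hkb_DD_le (κ r1 r2 r3 r4 : ℝ) (hκ : 0 < κ) :
    0 ≤ DD κ r1 r2 r3 r4 ∧ DD κ r1 r2 r3 r4 ≤ hkbDr κ r1 r2 r3 r4 := by
  unfold DD hkbDr
  refine ⟨by positivity, ?_⟩
  have : 0 ≤ |r2 - r3| * |r2 - r4| / κ ^ 4 := by positivity
  rw [add_div]
  linarith

/-- the phase and its derivatives -/
theorem hkb_phase {c1 c2 c3 c4 r1 r2 r3 r4 τ Q : ℝ} (h1 : 0 < c1 - r1 * τ) (h2 : 0 < c2 - r2 * τ)
    (h3 : 0 < c3 - r3 * τ) (h4 : 0 < c4 - r4 * τ) :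
    HasDerivAt (fun τ => (√(c1 - r1 * τ) + √(c2 - r2 * τ) - √(c3 - r3 * τ) - √(c4 - r4 * τ)) / Q)
      ((-(1 / 2) * (r1 / √(c1 - r1 * τ)) + -(1 / 2) * (r2 / √(c2 - r2 * τ)) -
        -(1 / 2) * (r3 / √(c3 - r3 * τ)) - -(1 / 2) * (r4 / √(c4 - r4 * τ))) / Q) τ ∧
    HasDerivAt (fun τ => (-(1 / 2) * (r1 / √(c1 - r1 * τ)) + -(1 / 2) * (r2 / √(c2 - r2 * τ)) -
        -(1 / 2) * (r3 / √(c3 - r3 * τ)) - -(1 / 2) * (r4 / √(c4 - r4 * τ))) / Q)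
      ((-(1 / 4) * (r1 ^ 2 / √(c1 - r1 * τ) ^ 3) + -(1 / 4) * (r2 ^ 2 / √(c2 - r2 * τ) ^ 3) -
        -(1 / 4) * (r3 ^ 2 / √(c3 - r3 * τ) ^ 3) - -(1 / 4) * (r4 ^ 2 / √(c4 - r4 * τ) ^ 3)) / Q) τ ∧
    HasDerivAt (fun τ => (-(1 / 4) * (r1 ^ 2 / √(c1 - r1 * τ) ^ 3) + -(1 / 4) * (r2 ^ 2 / √(c2 - r2 * τ) ^ 3) -
        -(1 / 4) * (r3 ^ 2 / √(c3 - r3 * τ) ^ 3) - -(1 / 4) * (r4 ^ 2 / √(c4 - r4 * τ) ^ 3)) / Q)
      ((-(3 / 8) * (r1 ^ 3 / √(c1 - r1 * τ) ^ 5) + -(3 / 8) * (r2 ^ 3 / √(c2 - r2 * τ) ^ 5) -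
        -(3 / 8) * (r3 ^ 3 / √(c3 - r3 * τ) ^ 5) - -(3 / 8) * (r4 ^ 3 / √(c4 - r4 * τ) ^ 5)) / Q) τ := by
  obtain ⟨a1, b1, d1⟩ := hkb_sqrt h1
  obtain ⟨a2, b2, d2⟩ := hkb_sqrt h2
  obtain ⟨a3, b3, d3⟩ := hkb_sqrt h3
  obtain ⟨a4, b4, d4⟩ := hkb_sqrt h4
  exact ⟨(((a1.add a2).sub a3).sub a4).div_const Q, (((b1.add b2).sub b3).sub b4).div_const Q,
    (((d1.add d2).sub d3).sub d4).div_const Q⟩

/-- bounds of the phase -/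
theorem hkb_bounds (s0 s1 : ℝ) (h0 : 0 < s0) (h1 : s0 < s1) : ∃ Cf c0 : ℝ, 0 < c0 ∧
    ∀ κ s r1 r2 r3 r4 v1 v2 v3 v4 : ℝ, 0 < κ → κ ≤ 1 → s0 ≤ s → s ≤ s1 →
    v1 ∈ Icc (1 / 4 : ℝ) 4 → v2 ∈ Icc (1 / 4 : ℝ) 4 → v3 ∈ Icc (1 / 4 : ℝ) 4 → v4 ∈ Icc (1 / 4 : ℝ) 4 →
    κ ^ 2 * v1 = 1 - s * r1 → κ ^ 2 * v2 = 1 - s * r2 → κ ^ 2 * v3 = 1 - s * r3 →
    κ ^ 2 * v4 = 1 - s * r4 → ∀ Q : ℝ, Q = hkbDr κ r1 r2 r3 r4 → 0 < Q →
    (|(√v1 + √v2 - √v3 - √v4) / Q| ≤ Cf ∧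
    |(-(1 / 2) * (r1 / √v1) + -(1 / 2) * (r2 / √v2) - -(1 / 2) * (r3 / √v3) - -(1 / 2) * (r4 / √v4)) / Q| ≤ Cf ∧
    |(-(1 / 4) * (r1 ^ 2 / √v1 ^ 3) + -(1 / 4) * (r2 ^ 2 / √v2 ^ 3) - -(1 / 4) * (r3 ^ 2 / √v3 ^ 3) -
      -(1 / 4) * (r4 ^ 2 / √v4 ^ 3)) / Q| ≤ Cf ∧
    |(-(3 / 8) * (r1 ^ 3 / √v1 ^ 5) + -(3 / 8) * (r2 ^ 3 / √v2 ^ 5) - -(3 / 8) * (r3 ^ 3 / √v3 ^ 5) -
      -(3 / 8) * (r4 ^ 3 / √v4 ^ 5)) / Q| ≤ Cf) ∧
    c0 ≤ ((√v1 + √v2 - √v3 - √v4) / Q) ^ 2 +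
      ((-(1 / 2) * (r1 / √v1) + -(1 / 2) * (r2 / √v2) - -(1 / 2) * (r3 / √v3) - -(1 / 2) * (r4 / √v4)) / Q) ^ 2 := by
  obtain ⟨CL, hCL, hlow⟩ := alg_lower s0 s1 h0 h1.le
  obtain ⟨CU, hCU, hup⟩ := alg_upper s0 s1 h0 h1.le
  have hm : 0 < min s0 (s0 ^ 2) := lt_min h0 (by positivity)
  refine ⟨CU * (s1 + s1 ^ 2), (min s0 (s0 ^ 2) / CL) ^ 2 / 5, by positivity, ?_⟩
  intro κ s r1 r2 r3 r4 v1 v2 v3 v4 hκ hκ1 hs0 hs1 hv1 hv2 hv3 hv4 e1 e2 e3 e4 Q hQ hQpos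
  have hs : 0 < s := h0.trans_le hs0
  have hsq : ∀ v ∈ Icc (1 / 4 : ℝ) 4, 1 / 2 ≤ √v ∧ √v ≤ 2 ∧ √v ^ 2 = v := by
    intro v hv
    refine ⟨?_, ?_, Real.sq_sqrt (by linarith [hv.1])⟩
    · apply Real.le_sqrt_of_sq_le
      linarith [hv.1]
    · apply Real.sqrt_le_iff.2
      exact ⟨by norm_num, by linarith [hv.2]⟩
  obtain ⟨p1, q1, t1⟩ := hsq v1 hv1
  obtain ⟨p2, q2, t2⟩ := hsq v2 hv2
  obtain ⟨p3, q3, t3⟩ := hsq v3 hv3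
  obtain ⟨p4, q4, t4⟩ := hsq v4 hv4
  have hr : ∀ v r : ℝ, κ ^ 2 * v = 1 - s * r → (1 - κ ^ 2 * v) / s = r := by
    intro v r e
    rw [e]
    field_simp
    ring
  have hD := hkb_D hκ hs e1 e2 e3 e4
  obtain ⟨hDl, hDu⟩ := hkb_D_le (r1 := r1) (r2 := r2) (r3 := r3) (r4 := r4) hκ h0 hs0 hs1
  rw [← hD, ← hQ] at hDl hDu
  have hl := hlow κ s (√v1) (√v2) (√v3) (√v4) hκ hκ1 hs0 hs1 p1 q1 p2 q2 p3 q3 p4 q4
  have hu := hup κ s (√v1) (√v2) (√v3) (√v4) hκ hκ1 hs0 hs1 p1 q1 p2 q2 p3 q3 p4 q4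
  rw [t1, t2, t3, t4, hr _ _ e1, hr _ _ e2, hr _ _ e3, hr _ _ e4] at hl hu
  have hpow : ∀ (l : ℕ) (r p : ℝ), 0 < p → r ^ (l + 1) * p / p ^ (2 * (l + 1)) = r ^ (l + 1) / p ^ (2 * l + 1) := by
    intro l r p hp
    rw [div_eq_div_iff (by positivity) (by positivity)]
    ring
  have hp1 : 0 < √v1 := by linarith
  have hp2 : 0 < √v2 := by linarith
  have hp3 : 0 < √v3 := by linarith
  have hp4 : 0 < √v4 := by linarith
  have u0 := hu 0 (by norm_num)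
  have u1 := hu 1 (by norm_num)
  have u2 := hu 2 (by norm_num)
  have u3 := hu 3 (by norm_num)
  have hbd : CU * (|v1 + v2 - v3 - v4| + |v1 - v3| * |v1 - v4| + |v2 - v3| * |v2 - v4|) ≤
      CU * (s1 + s1 ^ 2) * Q := by
    rw [mul_assoc]
    exact mul_le_mul_of_nonneg_left hDu hCU.le
  have n0 : |√v1 + √v2 - √v3 - √v4| ≤ CU * (s1 + s1 ^ 2) * Q := by
    refine le_trans (le_of_eq ?_) (u0.trans hbd)
    simp
  have n1 : |r1 / √v1 + r2 / √v2 - r3 / √v3 - r4 / √v4| ≤ CU * (s1 + s1 ^ 2) * Q := by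
    refine le_trans (le_of_eq ?_) (u1.trans hbd)
    rw [hpow 0 r1 _ hp1, hpow 0 r2 _ hp2, hpow 0 r3 _ hp3, hpow 0 r4 _ hp4]
    simp
  have n2 : |r1 ^ 2 / √v1 ^ 3 + r2 ^ 2 / √v2 ^ 3 - r3 ^ 2 / √v3 ^ 3 - r4 ^ 2 / √v4 ^ 3| ≤
      CU * (s1 + s1 ^ 2) * Q := by
    refine le_trans (le_of_eq ?_) (u2.trans hbd)
    rw [hpow 1 r1 _ hp1, hpow 1 r2 _ hp2, hpow 1 r3 _ hp3, hpow 1 r4 _ hp4]
  have n3 : |r1 ^ 3 / √v1 ^ 5 + r2 ^ 3 / √v2 ^ 5 - r3 ^ 3 / √v3 ^ 5 - r4 ^ 3 / √v4 ^ 5| ≤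
      CU * (s1 + s1 ^ 2) * Q := by
    refine le_trans (le_of_eq ?_) (u3.trans hbd)
    rw [hpow 2 r1 _ hp1, hpow 2 r2 _ hp2, hpow 2 r3 _ hp3, hpow 2 r4 _ hp4]
  have hsc : ∀ (x y t : ℝ), |x| ≤ CU * (s1 + s1 ^ 2) * Q → 0 ≤ t → t ≤ 1 → y = -t * x →
      |y / Q| ≤ CU * (s1 + s1 ^ 2) := by
    intro x y t hx ht0 ht1 hy
    rw [abs_div, abs_of_pos hQpos, div_le_iff₀ hQpos, hy, abs_mul, abs_neg, abs_of_nonneg ht0]
    calc t * |x| ≤ 1 * |x| := mul_le_mul_of_nonneg_right ht1 (abs_nonneg _)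
      _ = |x| := one_mul _
      _ ≤ _ := hx
  refine ⟨⟨?_, ?_, ?_, ?_⟩, ?_⟩
  · rw [abs_div, abs_of_pos hQpos, div_le_iff₀ hQpos]
    exact n0
  · exact hsc _ _ (1 / 2) n1 (by norm_num) (by norm_num) (by ring)
  · exact hsc _ _ (1 / 4) n2 (by norm_num) (by norm_num) (by ring)
  · exact hsc _ _ (3 / 8) n3 (by norm_num) (by norm_num) (by ring)
  · have hlQ : min s0 (s0 ^ 2) * Q ≤ CL * (|√v1 + √v2 - √v3 - √v4| + |r1 / √v1 + r2 / √v2 - r3 / √v3 - r4 / √v4|) :=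
      hDl.trans hl
    set F := √v1 + √v2 - √v3 - √v4
    set G := r1 / √v1 + r2 / √v2 - r3 / √v3 - r4 / √v4 with hG
    have hG' : -(1 / 2) * (r1 / √v1) + -(1 / 2) * (r2 / √v2) - -(1 / 2) * (r3 / √v3) - -(1 / 2) * (r4 / √v4) =
        -(1 / 2) * G := by rw [hG]; ring
    rw [hG']
    have h5 : min s0 (s0 ^ 2) / CL ≤ |F| / Q + |G| / Q := by
      rw [← add_div, div_le_div_iff₀ hCL hQpos]
      linarith
    have h6 : (F / Q) ^ 2 = (|F| / Q) ^ 2 := by rw [div_pow, div_pow, sq_abs]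
    have h7 : (-(1 / 2) * G / Q) ^ 2 = (1 / 4) * (|G| / Q) ^ 2 := by
      rw [div_pow, div_pow, sq_abs]; ring
    rw [h6, h7]
    have h8 : 0 ≤ min s0 (s0 ^ 2) / CL := by positivity
    set x := |F| / Q
    set y := |G| / Q
    have h9 : (min s0 (s0 ^ 2) / CL) ^ 2 ≤ (x + y) ^ 2 := pow_le_pow_left₀ h8 h5 2
    nlinarith [sq_nonneg (4 * x - y)]

/-- the core estimate on an interval where all heights are in `[1/4, 4]` -/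
theorem hkb_core (a : ℝ → ℝ) (ha : Cut a) (s0 s1 : ℝ) (h0 : 0 < s0) (h1 : s0 < s1) :
    ∃ C : ℝ, 0 < C ∧ ∀ κ lam r1 r2 r3 r4 c1 c2 c3 c4 α β : ℝ, 0 < κ → κ ≤ 1 → 0 < lam →
    0 ≤ r1 → 0 ≤ r2 → 0 ≤ r3 → 0 ≤ r4 →
    κ ^ 2 * c1 = 1 - s0 * r1 → κ ^ 2 * c2 = 1 - s0 * r2 → κ ^ 2 * c3 = 1 - s0 * r3 →
    κ ^ 2 * c4 = 1 - s0 * r4 → 0 ≤ α → α ≤ β → κ ^ 2 * β ≤ s1 - s0 →
    (∀ τ ∈ Icc α β, c1 - r1 * τ ∈ Icc (1 / 4 : ℝ) 4 ∧ c2 - r2 * τ ∈ Icc (1 / 4 : ℝ) 4 ∧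
      c3 - r3 * τ ∈ Icc (1 / 4 : ℝ) 4 ∧ c4 - r4 * τ ∈ Icc (1 / 4 : ℝ) 4) →
    (∀ τ, τ = α ∨ τ = β → κ ^ 2 * τ = 0 ∨ κ ^ 2 * τ = s1 - s0 ∨
      (c1 - r1 * τ = 1 / 4 ∨ c1 - r1 * τ = 4) ∨ (c2 - r2 * τ = 1 / 4 ∨ c2 - r2 * τ = 4) ∨
      (c3 - r3 * τ = 1 / 4 ∨ c3 - r3 * τ = 4) ∨ (c4 - r4 * τ = 1 / 4 ∨ c4 - r4 * τ = 4)) →
    |∫ τ in α..β, bmp s0 s1 (s0 + κ ^ 2 * τ) * a (c1 - r1 * τ) * a (c2 - r2 * τ) * a (c3 - r3 * τ) *
      a (c4 - r4 * τ) * HH (lam * (√(c1 - r1 * τ) + √(c2 - r2 * τ) - √(c3 - r3 * τ) - √(c4 - r4 * τ)))| ≤ C ∧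
    (lam * hkbDr κ r1 r2 r3 r4) ^ 2 *
    |∫ τ in α..β, bmp s0 s1 (s0 + κ ^ 2 * τ) * a (c1 - r1 * τ) * a (c2 - r2 * τ) * a (c3 - r3 * τ) *
      a (c4 - r4 * τ) * HH (lam * (√(c1 - r1 * τ) + √(c2 - r2 * τ) - √(c3 - r3 * τ) - √(c4 - r4 * τ)))| ≤ C := by
  obtain ⟨Mp, hMp, hP⟩ := hkb_P s0 s1
  obtain ⟨Ma, hMa, hA⟩ := hkb_abound ha
  obtain ⟨Cf, c0, hc0, hbd⟩ := hkb_bounds s0 s1 h0 h1
  have hR1 : (1 : ℝ) ≤ 1 + 1 / s0 := by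
    have : 0 < 1 / s0 := by positivity
    linarith
  obtain ⟨CN, hCN, hN⟩ := nonstationary (8 * s1)
    (4 * (4 * (4 * (4 * Mp * ((1 + 1 / s0) ^ 2 * Ma)) * ((1 + 1 / s0) ^ 2 * Ma)) * ((1 + 1 / s0) ^ 2 * Ma)) *
      ((1 + 1 / s0) ^ 2 * Ma)) Cf c0 hc0
  set Cb := (4 * (4 * (4 * (4 * Mp * ((1 + 1 / s0) ^ 2 * Ma)) * ((1 + 1 / s0) ^ 2 * Ma)) * ((1 + 1 / s0) ^ 2 * Ma)) *
      ((1 + 1 / s0) ^ 2 * Ma)) with hCb
  have hCb0 : 0 ≤ Cb := by positivity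
  have hs1pos : 0 < s1 := h0.trans h1
  refine ⟨Cb * 2 * (8 * s1) + CN + 1, by positivity, ?_⟩
  intro κ lam r1 r2 r3 r4 c1 c2 c3 c4 α β hκ hκ1 hlam hr1 hr2 hr3 hr4 e1 e2 e3 e4 hα hαβ hβ hin hend
  have hk2 : 0 < κ ^ 2 := by positivity
  have hS : ∀ τ ∈ Icc α β, s0 + κ ^ 2 * τ ∈ Icc s0 s1 := by
    intro τ hτ
    have h3 : 0 ≤ κ ^ 2 * τ := mul_nonneg hk2.le (hα.trans hτ.1)
    have h4 : κ ^ 2 * τ ≤ κ ^ 2 * β := mul_le_mul_of_nonneg_left hτ.2 hk2.le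
    exact ⟨by linarith, by linarith⟩
  -- relation between heights and radii
  have hrel : ∀ c r τ : ℝ, κ ^ 2 * c = 1 - s0 * r → κ ^ 2 * (c - r * τ) = 1 - (s0 + κ ^ 2 * τ) * r := by
    intro c r τ e
    rw [mul_sub, e]
    ring
  have hrR : ∀ c r : ℝ, 0 ≤ r → κ ^ 2 * c = 1 - s0 * r → c - r * α ∈ Icc (1 / 4 : ℝ) 4 → r ≤ 1 + 1 / s0 := by
    intro c r hr e hv
    have h3 := hrel c r α e
    have h4 : 0 ≤ κ ^ 2 * (c - r * α) := mul_nonneg hk2.le (by linarith [hv.1])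
    have h5 : 0 ≤ κ ^ 2 * α * r := by positivity
    have h6 : s0 * r ≤ 1 := by nlinarith
    have h7 : r ≤ 1 / s0 := by
      rw [le_div_iff₀ h0]
      linarith
    linarith
  have hαm : α ∈ Icc α β := left_mem_Icc.2 hαβ
  have hβm : β ∈ Icc α β := right_mem_Icc.2 hαβ
  obtain ⟨m1, m2, m3, m4⟩ := hin α hαm
  have q0 := hP κ hκ hκ1 (Icc α β) hS
  have q1 := hkb_mul q0 (hkb_A ha hMa hA hR1 hr1 (hrR c1 r1 hr1 e1 m1) (fun τ hτ => (hin τ hτ).1))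
  have q2 := hkb_mul q1 (hkb_A ha hMa hA hR1 hr2 (hrR c2 r2 hr2 e2 m2) (fun τ hτ => (hin τ hτ).2.1))
  have q3 := hkb_mul q2 (hkb_A ha hMa hA hR1 hr3 (hrR c3 r3 hr3 e3 m3) (fun τ hτ => (hin τ hτ).2.2.1))
  have q4 := hkb_mul q3 (hkb_A ha hMa hA hR1 hr4 (hrR c4 r4 hr4 e4 m4) (fun τ hτ => (hin τ hτ).2.2.2))
  rw [← hCb] at q4
  -- the length of the interval
  have hlen : β - α ≤ 8 * s1 := by
    rcases le_or_gt (κ ^ 2) (1 / 8) with hk | hk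
    · have h3 := hrel c1 r1 α e1
      have h4 : κ ^ 2 * (c1 - r1 * α) ≤ 1 / 8 * 4 :=
        mul_le_mul hk m1.2 (by linarith [m1.1]) (by norm_num)
      have h5 : s0 + κ ^ 2 * α ≤ s1 := (hS α hαm).2
      have h6 : 1 / 2 ≤ (s0 + κ ^ 2 * α) * r1 := by linarith
      have h7 : (s0 + κ ^ 2 * α) * r1 ≤ s1 * r1 := mul_le_mul_of_nonneg_right h5 hr1
      have h8 := (hin β hβm).1.1
      have h9 : r1 * (β - α) ≤ 15 / 4 := by linarith [m1.2]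
      have h10 : 0 ≤ β - α := by linarith
      have h11 : s1 * (r1 * (β - α)) ≤ s1 * (15 / 4) := mul_le_mul_of_nonneg_left h9 hs1pos.le
      have h12 : 1 / 2 * (β - α) ≤ s1 * r1 * (β - α) := mul_le_mul_of_nonneg_right (h6.trans h7) h10
      nlinarith
    · have h3 : 1 / 8 * β ≤ κ ^ 2 * β := mul_le_mul_of_nonneg_right hk.le (hα.trans hαβ)
      linarith
  -- the amplitude vanishes to second order at the end points
  have hzero : ∀ τ, τ = α ∨ τ = β →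
      bmp s0 s1 (s0 + κ ^ 2 * τ) * a (c1 - r1 * τ) * a (c2 - r2 * τ) * a (c3 - r3 * τ) * a (c4 - r4 * τ) = 0 ∧
      (((hkbB1 s0 s1 (s0 + κ ^ 2 * τ) * κ ^ 2 * a (c1 - r1 * τ) +
        bmp s0 s1 (s0 + κ ^ 2 * τ) * (deriv a (c1 - r1 * τ) * -r1)) * a (c2 - r2 * τ) +
        bmp s0 s1 (s0 + κ ^ 2 * τ) * a (c1 - r1 * τ) * (deriv a (c2 - r2 * τ) * -r2)) * a (c3 - r3 * τ) +
        bmp s0 s1 (s0 + κ ^ 2 * τ) * a (c1 - r1 * τ) * a (c2 - r2 * τ) * (deriv a (c3 - r3 * τ) * -r3)) *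
          a (c4 - r4 * τ) +
        bmp s0 s1 (s0 + κ ^ 2 * τ) * a (c1 - r1 * τ) * a (c2 - r2 * τ) * a (c3 - r3 * τ) *
          (deriv a (c4 - r4 * τ) * -r4) = 0 := by
    intro τ hτ
    rcases hend τ hτ with h | h | h | h | h | h
    · have hb : bmp s0 s1 (s0 + κ ^ 2 * τ) = 0 := by rw [h, bmp]; ring
      have hb1 : hkbB1 s0 s1 (s0 + κ ^ 2 * τ) = 0 := by rw [h, hkbB1]; ring
      rw [hb, hb1]
      constructor <;> ring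
    · have hb : bmp s0 s1 (s0 + κ ^ 2 * τ) = 0 := by rw [h, bmp]; ring
      have hb1 : hkbB1 s0 s1 (s0 + κ ^ 2 * τ) = 0 := by rw [h, hkbB1]; ring
      rw [hb, hb1]
      constructor <;> ring
    · obtain ⟨z1, z2⟩ := hkb_edge ha h
      rw [z1, z2]
      constructor <;> ring
    · obtain ⟨z1, z2⟩ := hkb_edge ha h
      rw [z1, z2]
      constructor <;> ring
    · obtain ⟨z1, z2⟩ := hkb_edge ha h
      rw [z1, z2]
      constructor <;> ring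
    · obtain ⟨z1, z2⟩ := hkb_edge ha h
      rw [z1, z2]
      constructor <;> ring
  have hfirst : |∫ τ in α..β, bmp s0 s1 (s0 + κ ^ 2 * τ) * a (c1 - r1 * τ) * a (c2 - r2 * τ) * a (c3 - r3 * τ) *
      a (c4 - r4 * τ) * HH (lam * (√(c1 - r1 * τ) + √(c2 - r2 * τ) - √(c3 - r3 * τ) - √(c4 - r4 * τ)))| ≤
      Cb * 2 * (8 * s1) := by
    have h3 : ∀ τ ∈ Set.uIoc α β, ‖bmp s0 s1 (s0 + κ ^ 2 * τ) * a (c1 - r1 * τ) * a (c2 - r2 * τ) *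
        a (c3 - r3 * τ) * a (c4 - r4 * τ) *
        HH (lam * (√(c1 - r1 * τ) + √(c2 - r2 * τ) - √(c3 - r3 * τ) - √(c4 - r4 * τ)))‖ ≤ Cb * 2 := by
      intro τ hτ
      rw [uIoc_of_le hαβ] at hτ
      rw [norm_mul, Real.norm_eq_abs, Real.norm_eq_abs]
      exact mul_le_mul (q4.2.2 τ ⟨hτ.1.le, hτ.2⟩).1 (hkb_HH _) (abs_nonneg _) hCb0
    have h4 := intervalIntegral.norm_integral_le_of_norm_le_const h3
    rw [Real.norm_eq_abs, abs_of_nonneg (sub_nonneg.2 hαβ)] at h4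
    exact h4.trans (mul_le_mul_of_nonneg_left hlen (by positivity))
  refine ⟨by linarith, ?_⟩
  rcases (hkb_DD_le κ r1 r2 r3 r4 hκ).1.trans (hkb_DD_le κ r1 r2 r3 r4 hκ).2 |>.eq_or_lt with hQ | hQ
  · rw [← hQ]
    simp only [mul_zero, ne_eq, OfNat.ofNat_ne_zero, not_false_eq_true, zero_pow, zero_mul]
    positivity
  · set Q := hkbDr κ r1 r2 r3 r4 with hQdef
    have hpos : ∀ τ ∈ Icc α β, 0 < c1 - r1 * τ ∧ 0 < c2 - r2 * τ ∧ 0 < c3 - r3 * τ ∧ 0 < c4 - r4 * τ := by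
      intro τ hτ
      obtain ⟨x1, x2, x3, x4⟩ := hin τ hτ
      exact ⟨by linarith [x1.1], by linarith [x2.1], by linarith [x3.1], by linarith [x4.1]⟩
    have hall := fun τ (hτ : τ ∈ Icc α β) => hbd κ (s0 + κ ^ 2 * τ) r1 r2 r3 r4 (c1 - r1 * τ) (c2 - r2 * τ)
      (c3 - r3 * τ) (c4 - r4 * τ) hκ hκ1 (hS τ hτ).1 (hS τ hτ).2 (hin τ hτ).1 (hin τ hτ).2.1 (hin τ hτ).2.2.1
      (hin τ hτ).2.2.2 (hrel _ _ _ e1) (hrel _ _ _ e2) (hrel _ _ _ e3) (hrel _ _ _ e4) Q hQdef hQ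
    have hn := hN α β hαβ hlen _ _ _
      (fun τ => (√(c1 - r1 * τ) + √(c2 - r2 * τ) - √(c3 - r3 * τ) - √(c4 - r4 * τ)) / Q)
      (fun τ => (-(1 / 2) * (r1 / √(c1 - r1 * τ)) + -(1 / 2) * (r2 / √(c2 - r2 * τ)) -
        -(1 / 2) * (r3 / √(c3 - r3 * τ)) - -(1 / 2) * (r4 / √(c4 - r4 * τ))) / Q)
      (fun τ => (-(1 / 4) * (r1 ^ 2 / √(c1 - r1 * τ) ^ 3) + -(1 / 4) * (r2 ^ 2 / √(c2 - r2 * τ) ^ 3) -
        -(1 / 4) * (r3 ^ 2 / √(c3 - r3 * τ) ^ 3) - -(1 / 4) * (r4 ^ 2 / √(c4 - r4 * τ) ^ 3)) / Q)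
      (fun τ => (-(3 / 8) * (r1 ^ 3 / √(c1 - r1 * τ) ^ 5) + -(3 / 8) * (r2 ^ 3 / √(c2 - r2 * τ) ^ 5) -
        -(3 / 8) * (r3 ^ 3 / √(c3 - r3 * τ) ^ 5) - -(3 / 8) * (r4 ^ 3 / √(c4 - r4 * τ) ^ 5)) / Q)
      q4.1 (fun τ hτ => hkb_phase (hpos τ hτ).1 (hpos τ hτ).2.1 (hpos τ hτ).2.2.1 (hpos τ hτ).2.2.2)
      q4.2.1 ?_ q4.2.2 (fun τ hτ => (hall τ hτ).1) (fun τ hτ => (hall τ hτ).2)
      (hzero α (Or.inl rfl)).1 (hzero β (Or.inr rfl)).1 (hzero α (Or.inl rfl)).2 (hzero β (Or.inr rfl)).2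
      (lam * Q) (by positivity)
    · have h5 : ∀ τ : ℝ, lam * Q * ((√(c1 - r1 * τ) + √(c2 - r2 * τ) - √(c3 - r3 * τ) - √(c4 - r4 * τ)) / Q) =
          lam * (√(c1 - r1 * τ) + √(c2 - r2 * τ) - √(c3 - r3 * τ) - √(c4 - r4 * τ)) := by
        intro τ
        field_simp
      simp only [h5] at hn
      have h6 : 0 < (lam * Q) ^ 2 := by positivity
      rw [le_div_iff₀ h6, mul_comm] at hn
      have h7 : 0 ≤ Cb * 2 * (8 * s1) := by positivity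
      exact hn.trans (by linarith)
    · intro τ hτ
      obtain ⟨y1, y2, y3, y4⟩ := hpos τ hτ
      apply ContinuousAt.continuousWithinAt
      have hc : ∀ c r : ℝ, 0 < c - r * τ → ContinuousAt (fun τ => r ^ 3 / √(c - r * τ) ^ 5) τ := by
        intro c r h
        apply ContinuousAt.div continuousAt_const (by fun_prop)
        exact pow_ne_zero 5 (Real.sqrt_pos.2 h).ne'
      exact ((((hc c1 r1 y1).const_mul _).add ((hc c2 r2 y2).const_mul _)).sub ((hc c3 r3 y3).const_mul _)).sub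
        ((hc c4 r4 y4).const_mul _) |>.div_const Q

theorem hkb_cov (κ s0 s1 : ℝ) (hκ : 0 < κ) (g : ℝ → ℝ) :
    ∫ s in s0..s1, g s = κ ^ 2 * ∫ τ in 0..((s1 - s0) / κ ^ 2), g (s0 + κ ^ 2 * τ) := by
  have hk : κ ^ 2 ≠ 0 := by positivity
  rw [intervalIntegral.integral_comp_add_mul g hk s0, smul_eq_mul, mul_inv_cancel_left₀ hk, mul_zero, add_zero,
    mul_div_cancel₀ _ hk]
  congr 1
  ring

theorem hkb_vv (κ s0 τ r : ℝ) (hκ : 0 < κ) : vv κ (s0 + κ ^ 2 * τ) r = (1 - s0 * r) / κ ^ 2 - r * τ := by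
  have hk : κ ^ 2 ≠ 0 := by positivity
  unfold vv
  field_simp
  ring

/-
ROW KB (2 h). Bound of the oscillatory integral KI (assembly of KL and AL).
Fix κ ∈ (0,1], lam > 0, r_i ≥ 0. Put s = s0 + κ² τ, τ ∈ [0, τ1], τ1 = (s1-s0)/κ², v_i(τ) = vv κ s r_i =
v_i(0) - r_i τ. KI = κ² ∫ τ in 0..τ1, B τ * HH (lam f τ), B τ = bmp (s τ) ∏ a(v_i τ), f = √v1+√v2-√v3-√v4.
Z = {τ ∈ [0,τ1] : ∀ i, 1/4 ≤ v_i τ ≤ 4} is a closed interval (v_i affine) or empty; B = 0 outside Z. If Z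
is empty, KI = 0. Otherwise Z = [α, β] and KI = κ² ∫_α^β. On [α,β]: s r_i = 1 - κ² v_i ≤ 1, so r_i ≤ 1/s0;
κ² v_i ≤ 1. LENGTH: if κ² ≤ 1/8 then r_i = (1-κ²v_i)/s ≥ 1/(2 s1) and r_i (β-α) ≤ 15/4 (at α and β the value
v_1 lies in [1/4,4]), so β-α ≤ 8 s1; if κ² > 1/8 then β-α ≤ 8 (s1-s0). ENDPOINTS: B = B' = 0 at α: either
α = 0 where bmp has a triple zero, or v_i(α) ∈ {1/4, 4} for some i, where a = a' = 0 (a is C¹ and
zero on both v ≤ 1/4 and v ≥ 4, so a' = 0 at these points). Same at β. B is C² with |B|,|B'|,|B''| ≤ Cb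
(a, a', a'' bounded on [1/4,4]; |r_i| ≤ 1/s0; κ ≤ 1).
f1 = Σ± (-1/2) r_i/p_i, f2 = Σ± (-1/4) r_i²/p_i³, f3 = Σ± (-3/8) r_i³/p_i⁵ (first three derivatives of f) with p_i = √v_i ∈ [1/2, 2],
r_i = (1-κ²p_i²)/s: note r^l p/p^(2l) = r^l p^(1-2l). Put
 Dr = |r1+r2-r3-r4|/κ² + (|r1-r3||r1-r4| + |r2-r3||r2-r4|)/κ⁴ ≥ DD κ r1 r2 r3 r4.
Since p_i²-p_j² = v_i-v_j = -s (r_i-r_j)/κ², the expression D(τ) of alg_lower satisfies
min(s0,s0²) Dr ≤ D(τ) ≤ max(s1,s1²) Dr. If Dr = 0 then DD = 0 and the second claim is trivial; otherwise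
apply `nonstationary` to f/Dr, f1/Dr, f2/Dr, f3/Dr and lam * Dr: alg_lower gives (f/Dr)² + (f1/Dr)² ≥ c0 (x²+y² ≥ (|x|+|y|)²/2),
alg_upper gives the bounds Cf. Result: |∫_α^β| ≤ C/(lam Dr)². The first claim: |B HH| bounded and
β-α bounded. Third claim: KI ≠ 0 → Z nonempty → r_i ≤ 1/s0 and |r1+r2-r3-r4| = κ²|Σ± v_i|/s ≤ 8κ²/s0.
-/
theorem kernel_bound (a : ℝ → ℝ) (ha : Cut a) (s0 s1 : ℝ) (h0 : 0 < s0) (h1 : s0 < s1) :
    ∃ C : ℝ, 0 < C ∧ ∀ κ lam r1 r2 r3 r4 : ℝ, 0 < κ → κ ≤ 1 → 0 < lam →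
    0 ≤ r1 → 0 ≤ r2 → 0 ≤ r3 → 0 ≤ r4 →
      |KI a κ s0 s1 lam r1 r2 r3 r4| ≤ C * κ ^ 2 ∧
      (lam * DD κ r1 r2 r3 r4) ^ 2 * |KI a κ s0 s1 lam r1 r2 r3 r4| ≤ C * κ ^ 2 ∧
      (KI a κ s0 s1 lam r1 r2 r3 r4 ≠ 0 →
        r1 ≤ C ∧ r2 ≤ C ∧ r3 ≤ C ∧ r4 ≤ C ∧ |r1 + r2 - r3 - r4| ≤ C * κ ^ 2) := by
  obtain ⟨C, hC, hcore⟩ := hkb_core a ha s0 s1 h0 h1
  refine ⟨C + 8 / s0 + 1, by positivity, ?_⟩
  intro κ lam r1 r2 r3 r4 hκ hκ1 hlam hr1 hr2 hr3 hr4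
  have hk2 : 0 < κ ^ 2 := by positivity
  have hs8 : 0 < 8 / s0 := by positivity
  set c1 := (1 - s0 * r1) / κ ^ 2 with hc1
  set c2 := (1 - s0 * r2) / κ ^ 2 with hc2
  set c3 := (1 - s0 * r3) / κ ^ 2 with hc3
  set c4 := (1 - s0 * r4) / κ ^ 2 with hc4
  have e1 : κ ^ 2 * c1 = 1 - s0 * r1 := by rw [hc1]; field_simp
  have e2 : κ ^ 2 * c2 = 1 - s0 * r2 := by rw [hc2]; field_simp
  have e3 : κ ^ 2 * c3 = 1 - s0 * r3 := by rw [hc3]; field_simp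
  have e4 : κ ^ 2 * c4 = 1 - s0 * r4 := by rw [hc4]; field_simp
  set F : ℝ → ℝ := fun τ => bmp s0 s1 (s0 + κ ^ 2 * τ) * a (c1 - r1 * τ) * a (c2 - r2 * τ) * a (c3 - r3 * τ) *
      a (c4 - r4 * τ) * HH (lam * (√(c1 - r1 * τ) + √(c2 - r2 * τ) - √(c3 - r3 * τ) - √(c4 - r4 * τ))) with hF
  have hKI : KI a κ s0 s1 lam r1 r2 r3 r4 = κ ^ 2 * ∫ τ in 0..((s1 - s0) / κ ^ 2), F τ := by
    unfold KI
    rw [hkb_cov κ s0 s1 hκ]
    congr 1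
    apply intervalIntegral.integral_congr
    intro τ _
    simp only [hkb_vv κ s0 τ _ hκ, hF, hc1, hc2, hc3, hc4]
    ring
  have hz : ∀ v : ℝ, v ∉ Icc (1 / 4 : ℝ) 4 → a v = 0 := by
    intro v hv
    apply ha.2
    by_contra hcon
    push Not at hcon
    exact hv ⟨hcon.1.le, hcon.2.le⟩
  have hFz : ∀ τ, (∃ i, (![c1, c2, c3, c4] : Fin 4 → ℝ) i - (![r1, r2, r3, r4] : Fin 4 → ℝ) i * τ ∉ Icc (1 / 4 : ℝ) 4) →
      F τ = 0 := by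
    rintro τ ⟨i, hi⟩
    rw [hF]
    fin_cases i
    · have : a (c1 - r1 * τ) = 0 := hz _ hi
      simp only [this]; ring
    · have : a (c2 - r2 * τ) = 0 := hz _ hi
      simp only [this]; ring
    · have : a (c3 - r3 * τ) = 0 := hz _ hi
      simp only [this]; ring
    · have : a (c4 - r4 * τ) = 0 := hz _ hi
      simp only [this]; ring
  have hr : ∀ i, 0 ≤ (![r1, r2, r3, r4] : Fin 4 → ℝ) i := by
    intro i
    fin_cases i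
    · exact hr1
    · exact hr2
    · exact hr3
    · exact hr4
  rcases hkb_Z ![c1, c2, c3, c4] ![r1, r2, r3, r4] hr ((s1 - s0) / κ ^ 2) with hZ | ⟨α, β, hα, hαβ, hβ, hout, hin, hea, heb⟩
  · have hT : 0 ≤ (s1 - s0) / κ ^ 2 := div_nonneg (by linarith) hk2.le
    have hK0 : KI a κ s0 s1 lam r1 r2 r3 r4 = 0 := by
      rw [hKI]
      have : ∫ τ in 0..((s1 - s0) / κ ^ 2), F τ = ∫ τ in 0..((s1 - s0) / κ ^ 2), (0 : ℝ) := by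
        apply intervalIntegral.integral_congr
        intro τ hτ
        rw [uIcc_of_le hT] at hτ
        exact hFz τ (hZ τ hτ)
      rw [this, intervalIntegral.integral_zero, mul_zero]
    rw [hK0, abs_zero]
    refine ⟨by positivity, by rw [mul_zero]; positivity, fun h => absurd rfl h⟩
  · have hrestr := hkb_restrict F hα hαβ hβ (fun τ hτ hn => hFz τ (hout τ hτ hn))
    have hkT : κ ^ 2 * ((s1 - s0) / κ ^ 2) = s1 - s0 := by field_simp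
    have hkβ : κ ^ 2 * β ≤ s1 - s0 := by
      rw [← hkT]
      exact mul_le_mul_of_nonneg_left hβ hk2.le
    have hin' : ∀ τ ∈ Icc α β, c1 - r1 * τ ∈ Icc (1 / 4 : ℝ) 4 ∧ c2 - r2 * τ ∈ Icc (1 / 4 : ℝ) 4 ∧
        c3 - r3 * τ ∈ Icc (1 / 4 : ℝ) 4 ∧ c4 - r4 * τ ∈ Icc (1 / 4 : ℝ) 4 := by
      intro τ hτ
      exact ⟨hin τ hτ 0, hin τ hτ 1, hin τ hτ 2, hin τ hτ 3⟩
    have hex : ∀ τ, (∃ i, (![c1, c2, c3, c4] : Fin 4 → ℝ) i - (![r1, r2, r3, r4] : Fin 4 → ℝ) i * τ = 1 / 4 ∨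
        (![c1, c2, c3, c4] : Fin 4 → ℝ) i - (![r1, r2, r3, r4] : Fin 4 → ℝ) i * τ = 4) →
        (c1 - r1 * τ = 1 / 4 ∨ c1 - r1 * τ = 4) ∨ (c2 - r2 * τ = 1 / 4 ∨ c2 - r2 * τ = 4) ∨
        (c3 - r3 * τ = 1 / 4 ∨ c3 - r3 * τ = 4) ∨ (c4 - r4 * τ = 1 / 4 ∨ c4 - r4 * τ = 4) := by
      rintro τ ⟨i, hi⟩
      fin_cases i
      · exact Or.inl hi
      · exact Or.inr (Or.inl hi)
      · exact Or.inr (Or.inr (Or.inl hi))
      · exact Or.inr (Or.inr (Or.inr hi))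
    have hend : ∀ τ, τ = α ∨ τ = β → κ ^ 2 * τ = 0 ∨ κ ^ 2 * τ = s1 - s0 ∨
        (c1 - r1 * τ = 1 / 4 ∨ c1 - r1 * τ = 4) ∨ (c2 - r2 * τ = 1 / 4 ∨ c2 - r2 * τ = 4) ∨
        (c3 - r3 * τ = 1 / 4 ∨ c3 - r3 * τ = 4) ∨ (c4 - r4 * τ = 1 / 4 ∨ c4 - r4 * τ = 4) := by
      rintro τ (h | h)
      · rcases hea with h2 | h2
        · left
          rw [h, h2, mul_zero]
        · right; right
          rw [h]
          exact hex α h2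
      · rcases heb with h2 | h2
        · right; left
          rw [h, h2, hkT]
        · right; right
          rw [h]
          exact hex β h2
    obtain ⟨b1, b2⟩ := hcore κ lam r1 r2 r3 r4 c1 c2 c3 c4 α β hκ hκ1 hlam hr1 hr2 hr3 hr4 e1 e2 e3 e4 hα hαβ
      hkβ hin' hend
    have hKI' : |KI a κ s0 s1 lam r1 r2 r3 r4| = κ ^ 2 * |∫ τ in α..β, F τ| := by
      rw [hKI, hrestr, abs_mul, abs_of_pos hk2]
    obtain ⟨d1, d2⟩ := hkb_DD_le κ r1 r2 r3 r4 hκ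
    refine ⟨?_, ?_, fun _ => ?_⟩
    · rw [hKI', mul_comm (C + 8 / s0 + 1)]
      exact mul_le_mul_of_nonneg_left (by linarith) hk2.le
    · rw [hKI']
      have h3 : (lam * DD κ r1 r2 r3 r4) ^ 2 ≤ (lam * hkbDr κ r1 r2 r3 r4) ^ 2 :=
        pow_le_pow_left₀ (mul_nonneg hlam.le d1) (mul_le_mul_of_nonneg_left d2 hlam.le) 2
      have h4 : (lam * DD κ r1 r2 r3 r4) ^ 2 * |∫ τ in α..β, F τ| ≤ C + 8 / s0 + 1 := by
        refine (mul_le_mul_of_nonneg_right h3 (abs_nonneg _)).trans (b2.trans (by linarith))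
      calc (lam * DD κ r1 r2 r3 r4) ^ 2 * (κ ^ 2 * |∫ τ in α..β, F τ|)
          = κ ^ 2 * ((lam * DD κ r1 r2 r3 r4) ^ 2 * |∫ τ in α..β, F τ|) := by ring
        _ ≤ κ ^ 2 * (C + 8 / s0 + 1) := mul_le_mul_of_nonneg_left h4 hk2.le
        _ = _ := mul_comm _ _
    · obtain ⟨m1, m2, m3, m4⟩ := hin' α (left_mem_Icc.2 hαβ)
      have hσ : s0 ≤ s0 + κ ^ 2 * α := by
        have := mul_nonneg hk2.le hα
        linarith
      have hσ0 : 0 < s0 + κ ^ 2 * α := h0.trans_le hσ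
      have hrel : ∀ c r : ℝ, κ ^ 2 * c = 1 - s0 * r →
          κ ^ 2 * (c - r * α) = 1 - (s0 + κ ^ 2 * α) * r := by
        intro c r e
        rw [mul_sub, e]
        ring
      have g1 := hrel _ _ e1
      have g2 := hrel _ _ e2
      have g3 := hrel _ _ e3
      have g4 := hrel _ _ e4
      have hbound : ∀ c r : ℝ, 0 ≤ r → c - r * α ∈ Icc (1 / 4 : ℝ) 4 →
          κ ^ 2 * (c - r * α) = 1 - (s0 + κ ^ 2 * α) * r → r ≤ C + 8 / s0 + 1 := by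
        intro c r hr hv g
        have h4 : 0 ≤ κ ^ 2 * (c - r * α) := mul_nonneg hk2.le (by linarith [hv.1])
        have h5 : s0 * r ≤ (s0 + κ ^ 2 * α) * r := mul_le_mul_of_nonneg_right hσ hr
        have h6 : r ≤ 8 / s0 := by
          rw [le_div_iff₀ h0]
          linarith
        linarith
      refine ⟨hbound _ _ hr1 m1 g1, hbound _ _ hr2 m2 g2, hbound _ _ hr3 m3 g3, hbound _ _ hr4 m4 g4, ?_⟩
      have h5 : (s0 + κ ^ 2 * α) * (r1 + r2 - r3 - r4) =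
          -(κ ^ 2 * ((c1 - r1 * α) + (c2 - r2 * α) - (c3 - r3 * α) - (c4 - r4 * α))) := by
        linear_combination g1 + g2 - g3 - g4
      have h6 : |(c1 - r1 * α) + (c2 - r2 * α) - (c3 - r3 * α) - (c4 - r4 * α)| ≤ 8 := by
        rw [abs_le]
        constructor <;> linarith [m1.1, m1.2, m2.1, m2.2, m3.1, m3.2, m4.1, m4.2]
      have h7 : (s0 + κ ^ 2 * α) * |r1 + r2 - r3 - r4| ≤ κ ^ 2 * 8 := by
        rw [← abs_of_pos hσ0, ← abs_mul, h5, abs_neg, abs_mul, abs_of_pos hk2]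
        exact mul_le_mul_of_nonneg_left h6 hk2.le
      have h8 : s0 * |r1 + r2 - r3 - r4| ≤ κ ^ 2 * 8 :=
        (mul_le_mul_of_nonneg_right hσ (abs_nonneg _)).trans h7
      have h9 : |r1 + r2 - r3 - r4| ≤ 8 / s0 * κ ^ 2 := by
        rw [div_mul_eq_mul_div, le_div_iff₀ h0]
        linarith
      refine h9.trans (mul_le_mul_of_nonneg_right (by linarith) hk2.le)

end Pool.Agent.MST
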