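import Pool.Agent.MST.J2
import Pool.Agent.MST.J3
import Pool.Agent.MST.JB
import Pool.Agent.MST.KB

namespace Pool.Agent.MST

open MeasureTheory Set Pool.Agent.MP_6cbfb8_an
open scoped ENNReal Real

/-- affine substitution on the line -/
theorem hj6_affine (T : ℝ → ℝ≥0∞) (hT : Measurable T) (c d : ℝ) (hc : c ≠ 0) :
    ∫⁻ β : ℝ, T (c * β + d) = (ENNReal.ofReal |c|)⁻¹ * ∫⁻ s : ℝ, T s := by
  have h1 : ∫⁻ β : ℝ, T (c * β + d) = ∫⁻ s : ℝ, T (s + d) ∂(Measure.map (c * ·) volume) := by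
    rw [lintegral_map (f := fun s => T (s + d)) (hT.comp (measurable_id.add_const d)) (measurable_const_mul c)]
  rw [h1, Real.map_volume_mul_left hc, lintegral_smul_measure, lintegral_add_right_eq_self, smul_eq_mul, abs_inv,
    ENNReal.ofReal_inv_of_pos (abs_pos.2 hc)]

/-- the truncated power -/
noncomputable def hj6_T (p ρ : ℝ) (s : ℝ) : ℝ≥0∞ :=
  (Icc (-ρ) ρ).indicator (fun s => ENNReal.ofReal |s| ^ p) s

theorem hj6_T_meas (p ρ : ℝ) : Measurable (hj6_T p ρ) := by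
  unfold hj6_T
  apply Measurable.indicator _ measurableSet_Icc
  fun_prop

theorem hj6_T_fin (p ρ : ℝ) (hp : -1 < p) (hρ : 0 < ρ) : ∫⁻ s, hj6_T p ρ s ≠ ∞ := by
  unfold hj6_T
  rw [lintegral_indicator measurableSet_Icc]
  have := hj1_fin (p + 1) ρ (by linarith) hρ
  rw [add_sub_cancel_right] at this
  exact this.ne

theorem hj6_T_scale (p ρ lam : ℝ) (hl : 0 < lam) (s : ℝ) :
    hj6_T p (lam * ρ) (lam * s) = ENNReal.ofReal lam ^ p * hj6_T p ρ s := by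
  unfold hj6_T
  by_cases h : s ∈ Icc (-ρ) ρ
  · have h' : lam * s ∈ Icc (-(lam * ρ)) (lam * ρ) := by
      constructor
      · rw [← mul_neg]; exact mul_le_mul_of_nonneg_left h.1 hl.le
      · exact mul_le_mul_of_nonneg_left h.2 hl.le
    rw [indicator_of_mem h, indicator_of_mem h', abs_mul, abs_of_pos hl, ENNReal.ofReal_mul hl.le,
      ENNReal.mul_rpow_of_ne_top ENNReal.ofReal_ne_top ENNReal.ofReal_ne_top]
  · have h' : lam * s ∉ Icc (-(lam * ρ)) (lam * ρ) := by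
      intro h'
      apply h
      constructor
      · have := h'.1
        rw [← mul_neg] at this
        exact le_of_mul_le_mul_left this hl
      · exact le_of_mul_le_mul_left h'.2 hl
    rw [indicator_of_notMem h, indicator_of_notMem h', mul_zero]

theorem hj6_T_int (p ρ lam : ℝ) (hl : 0 < lam) :
    ∫⁻ s, hj6_T p (lam * ρ) s = ENNReal.ofReal lam ^ (p + 1) * ∫⁻ s, hj6_T p ρ s := by
  have h1 := hj6_affine (hj6_T p (lam * ρ)) (hj6_T_meas _ _) lam 0 hl.ne'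
  simp only [add_zero, hj6_T_scale p ρ lam hl] at h1
  rw [lintegral_const_mul _ (hj6_T_meas _ _), abs_of_pos hl] at h1
  have h0 : ENNReal.ofReal lam ≠ 0 := by simpa using hl
  have h3 : ENNReal.ofReal lam * (ENNReal.ofReal lam ^ p * ∫⁻ s, hj6_T p ρ s) =
      ENNReal.ofReal lam * ((ENNReal.ofReal lam)⁻¹ * ∫⁻ s, hj6_T p (lam * ρ) s) :=
    congrArg (fun x => ENNReal.ofReal lam * x) h1
  rw [← mul_assoc (ENNReal.ofReal lam) (ENNReal.ofReal lam)⁻¹, ENNReal.mul_inv_cancel h0 ENNReal.ofReal_ne_top,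
    one_mul, ← mul_assoc] at h3
  rw [← h3, ENNReal.rpow_add _ _ h0 ENNReal.ofReal_ne_top, ENNReal.rpow_one, mul_comm (ENNReal.ofReal lam)]

theorem KI_near (a : ℝ → ℝ) (ha : Cut a) (s0 s1 : ℝ) (h0 : 0 < s0) (h1 : s0 < s1)
    (κ lam r1 r2 r3 r4 : ℝ) (hκ : 0 < κ) (h : KI a κ s0 s1 lam r1 r2 r3 r4 ≠ 0) :
    |r1 - r3| ≤ 4 / s0 * κ ^ 2 ∧ |r1 - r4| ≤ 4 / s0 * κ ^ 2 := by
  have hex : ∃ s ∈ Icc s0 s1, a (vv κ s r1) * a (vv κ s r2) * a (vv κ s r3) * a (vv κ s r4) ≠ 0 := by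
    by_contra hcon
    push Not at hcon
    apply h
    unfold KI
    rw [intervalIntegral.integral_congr (g := fun _ => (0 : ℝ))]
    · simp
    · intro s hs
      rw [uIcc_of_le h1.le] at hs
      simp only
      rw [hcon s hs]
      ring
  obtain ⟨s, hs, hne⟩ := hex
  have hκ2 : 0 < κ ^ 2 := by positivity
  have hs0 : 0 < s := lt_of_lt_of_le h0 hs.1
  have hv : ∀ r, a (vv κ s r) ≠ 0 → κ ^ 2 / 4 < 1 - s * r ∧ 1 - s * r < 4 * κ ^ 2 := by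
    intro r hr
    have h2 : ¬ (vv κ s r ≤ 1 / 4 ∨ 4 ≤ vv κ s r) := fun h3 => hr (ha.2 _ h3)
    push Not at h2
    unfold vv at h2
    rw [lt_div_iff₀ hκ2, div_lt_iff₀ hκ2] at h2
    constructor <;> linarith [h2.1, h2.2]
  have n1 : a (vv κ s r1) ≠ 0 := fun h => hne (by rw [h]; ring)
  have n3 : a (vv κ s r3) ≠ 0 := fun h => hne (by rw [h]; ring)
  have n4 : a (vv κ s r4) ≠ 0 := fun h => hne (by rw [h]; ring)
  have key : ∀ r r', a (vv κ s r) ≠ 0 → a (vv κ s r') ≠ 0 → |r - r'| ≤ 4 / s0 * κ ^ 2 := by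
    intro r r' hr hr'
    have e1 := hv r hr
    have e2 := hv r' hr'
    have e3 : s * |r - r'| ≤ 4 * κ ^ 2 := by
      have e0 : s * |r - r'| = |s * (r - r')| := by rw [abs_mul, abs_of_pos hs0]
      rw [e0, abs_le]
      constructor <;> nlinarith [e1.1, e1.2, e2.1, e2.2]
    have e4 : s0 * |r - r'| ≤ 4 * κ ^ 2 := le_trans (mul_le_mul_of_nonneg_right hs.1 (abs_nonneg _)) e3
    rw [div_mul_eq_mul_div, le_div_iff₀ h0]
    linarith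
  exact ⟨key _ _ n1 n3, key _ _ n1 n4⟩

/-- splitting of the power -/
theorem hj6_pw (δ κ c Y1 Y2 : ℝ) (hδ1 : δ ≤ 1) (hκ : 0 < κ) (hc : 0 ≤ c) (h1 : 0 ≤ Y1) (h2 : 0 ≤ Y2) :
    ENNReal.ofReal (c + Y1 * Y2 / κ ^ 4) ^ (-(2 - 2 * δ)) ≤
      ENNReal.ofReal c ^ (δ - 1) * (ENNReal.ofReal κ ^ (4 - 4 * δ) *
        (ENNReal.ofReal Y1 ^ (δ - 1) * ENNReal.ofReal Y2 ^ (δ - 1))) := by
  have hκ4 : 0 < κ ^ 4 := by positivity
  have hk0 : ENNReal.ofReal κ ≠ 0 := by simpa using hκ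
  set D := ENNReal.ofReal (c + Y1 * Y2 / κ ^ 4) with hD
  have hsq : D ^ (-(2 - 2 * δ)) = D ^ (δ - 1) * D ^ (δ - 1) := by
    have : -(2 - 2 * δ) = (δ - 1) * 2 := by ring
    rw [this, ENNReal.rpow_mul, ENNReal.rpow_two, sq]
  have e2 : 0 ≤ Y1 * Y2 / κ ^ 4 := by positivity
  have a1 : D ^ (δ - 1) ≤ ENNReal.ofReal c ^ (δ - 1) := by
    apply hjb_antitone _ (by linarith)
    apply ENNReal.ofReal_le_ofReal
    linarith
  have a2 : D ^ (δ - 1) ≤ ENNReal.ofReal κ ^ (4 - 4 * δ) *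
      (ENNReal.ofReal Y1 ^ (δ - 1) * ENNReal.ofReal Y2 ^ (δ - 1)) := by
    have : ENNReal.ofReal (Y1 * Y2 * (κ ^ 4)⁻¹) ≤ D := by
      apply ENNReal.ofReal_le_ofReal
      rw [← div_eq_mul_inv]
      linarith
    refine (hjb_antitone this (by linarith)).trans ?_
    rw [ENNReal.ofReal_mul (by positivity : 0 ≤ Y1 * Y2), ENNReal.ofReal_mul h1,
      ENNReal.mul_rpow_of_ne_top (ENNReal.mul_ne_top ENNReal.ofReal_ne_top ENNReal.ofReal_ne_top)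
      ENNReal.ofReal_ne_top, ENNReal.mul_rpow_of_ne_top ENNReal.ofReal_ne_top
      ENNReal.ofReal_ne_top, mul_comm]
    refine mul_le_mul' (le_of_eq ?_) le_rfl
    rw [ENNReal.ofReal_rpow_of_pos (by positivity), ENNReal.ofReal_rpow_of_pos hκ, Real.inv_rpow hκ4.le,
      ← Real.rpow_neg hκ4.le, ← Real.rpow_natCast κ 4, ← Real.rpow_mul hκ.le]
    congr 2
    push_cast
    ring
  rw [hsq]
  exact mul_le_mul' a1 a2

/-- the integral in `w` of the truncated product -/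
theorem hj6_A (δ R κ : ℝ) (hκ : 0 < κ) (y z e' : E 2) (hy : y ≠ 0)
    (he3 : ∀ z : E 2, z = (inner ℝ ((‖y‖)⁻¹ • y) z : ℝ) • ((‖y‖)⁻¹ • y) + (inner ℝ e' z : ℝ) • e')
    (he4 : ∀ φ : ℝ → ℝ → ℝ≥0∞, Measurable (Function.uncurry φ) →
      ∫⁻ w : E 2, φ (inner ℝ ((‖y‖)⁻¹ • y) w) (inner ℝ e' w) = ∫⁻ α : ℝ, ∫⁻ β : ℝ, φ α β)
    (hz : (inner ℝ e' z : ℝ) ≠ 0) :
    ∫⁻ w : E 2, hj6_T (δ - 1) (κ ^ 2 * R) (inner ℝ y ((2:ℝ) • w - y)) *
        hj6_T (δ - 1) (κ ^ 2 * R) (inner ℝ z ((2:ℝ) • w - z)) ≤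
      (ENNReal.ofReal (κ ^ 2) ^ δ * ∫⁻ s, hj6_T (δ - 1) R s) ^ 2 *
        ((ENNReal.ofReal ‖y‖)⁻¹ * (ENNReal.ofReal |(inner ℝ e' z : ℝ)|)⁻¹) := by
  have hyn : 0 < ‖y‖ := norm_pos_iff.2 hy
  set e : E 2 := (‖y‖)⁻¹ • y with he
  set T := hj6_T (δ - 1) (κ ^ 2 * R) with hT
  have mT : Measurable T := hj6_T_meas _ _
  set z1 : ℝ := inner ℝ e z with hz1
  set z2 : ℝ := inner ℝ e' z with hz2
  have e1 : ∀ w : E 2, (inner ℝ y ((2:ℝ) • w - y) : ℝ) = 2 * ‖y‖ * (inner ℝ e w : ℝ) + (-(‖y‖ ^ 2)) := by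
    intro w
    rw [inner_sub_right, inner_smul_right, real_inner_self_eq_norm_sq, he, real_inner_smul_left]
    field_simp
    ring
  clear_value e
  have mT1 : ∀ c d : ℝ, Measurable fun β : ℝ => T (c * β + d) := fun c d => mT.comp (by fun_prop)
  have e2 : ∀ w : E 2, (inner ℝ z ((2:ℝ) • w - z) : ℝ) =
      2 * z2 * (inner ℝ e' w : ℝ) + (2 * z1 * (inner ℝ e w : ℝ) - ‖z‖ ^ 2) := by
    intro w
    rw [inner_sub_right, inner_smul_right, real_inner_self_eq_norm_sq]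
    have : (inner ℝ z w : ℝ) = z1 * (inner ℝ e w : ℝ) + z2 * (inner ℝ e' w : ℝ) := by
      conv_lhs => rw [he3 z]
      rw [inner_add_left, real_inner_smul_left, real_inner_smul_left]
    rw [this]
    ring
  have hint : ∫⁻ s, T s = ENNReal.ofReal (κ ^ 2) ^ δ * ∫⁻ s, hj6_T (δ - 1) R s := by
    have := hj6_T_int (δ - 1) R (κ ^ 2) (by positivity)
    rw [sub_add_cancel] at this
    exact this
  have mφ : Measurable (Function.uncurry fun α β : ℝ => T (2 * ‖y‖ * α + (-(‖y‖ ^ 2))) *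
      T (2 * z2 * β + (2 * z1 * α - ‖z‖ ^ 2))) := by
    apply Measurable.mul
    · exact mT.comp (by fun_prop)
    · exact mT.comp (by fun_prop)
  have h1 : ∫⁻ w : E 2, T (inner ℝ y ((2:ℝ) • w - y)) * T (inner ℝ z ((2:ℝ) • w - z)) =
      ∫⁻ α : ℝ, ∫⁻ β : ℝ, T (2 * ‖y‖ * α + (-(‖y‖ ^ 2))) * T (2 * z2 * β + (2 * z1 * α - ‖z‖ ^ 2)) := by
    rw [← he4 _ mφ]
    refine lintegral_congr fun w => ?_
    rw [e1, e2]
  rw [h1]
  have h2 : ∀ α : ℝ, ∫⁻ β : ℝ, T (2 * ‖y‖ * α + (-(‖y‖ ^ 2))) * T (2 * z2 * β + (2 * z1 * α - ‖z‖ ^ 2)) =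
      T (2 * ‖y‖ * α + (-(‖y‖ ^ 2))) * ((ENNReal.ofReal |2 * z2|)⁻¹ * ∫⁻ s, T s) := by
    intro α
    rw [lintegral_const_mul _ (mT1 _ _), hj6_affine T mT (2 * z2) _ (mul_ne_zero two_ne_zero hz)]
  simp only [h2]
  rw [lintegral_mul_const _ (mT1 _ _), hj6_affine T mT (2 * ‖y‖) _ (by positivity)]
  have i1 : (ENNReal.ofReal |2 * z2|)⁻¹ ≤ (ENNReal.ofReal |z2|)⁻¹ := by
    apply ENNReal.inv_le_inv.2
    apply ENNReal.ofReal_le_ofReal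
    rw [abs_mul, abs_of_pos (by norm_num : (0:ℝ) < 2)]
    linarith [abs_nonneg z2]
  have i2 : (ENNReal.ofReal |2 * ‖y‖|)⁻¹ ≤ (ENNReal.ofReal ‖y‖)⁻¹ := by
    apply ENNReal.inv_le_inv.2
    apply ENNReal.ofReal_le_ofReal
    rw [abs_of_pos (by positivity)]
    linarith
  rw [hint]
  calc _ ≤ ((ENNReal.ofReal ‖y‖)⁻¹ * (ENNReal.ofReal (κ ^ 2) ^ δ * ∫⁻ s, hj6_T (δ - 1) R s)) *
        ((ENNReal.ofReal |z2|)⁻¹ * (ENNReal.ofReal (κ ^ 2) ^ δ * ∫⁻ s, hj6_T (δ - 1) R s)) := by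
        gcongr
    _ = _ := by ring

/-- interpolation of the two bounds -/
theorem hj6_interp (δ κ : ℝ) (hδ : 0 < δ) (hδ1 : δ ≤ 1 / 2) (hκ : 0 < κ) (G K V X P : ℝ≥0∞)
    (hX0 : X ≠ 0) (hX1 : X ≠ ∞)
    (hA : G ≤ X ^ (δ - 1) * (ENNReal.ofReal κ ^ (4 - 4 * δ) * ((ENNReal.ofReal (κ ^ 2) ^ δ * K) ^ 2 * P⁻¹)))
    (hB : G ≤ V * X ^ (-(2 - 2 * δ))) :
    G ≤ (K ^ 2) ^ (1 - δ / 4) * V ^ (δ / 4) * ENNReal.ofReal κ ^ (4 - δ) *
      (X ^ (-((1 - δ) * (1 + δ / 4))) * P ^ (δ / 4 - 1)) := by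
  have hk0 : ENNReal.ofReal κ ≠ 0 := by simpa using hκ
  have hk1 : ENNReal.ofReal κ ≠ ∞ := ENNReal.ofReal_ne_top
  have hA' : G ≤ K ^ 2 * ENNReal.ofReal κ ^ (4 : ℝ) * X ^ (δ - 1) * P⁻¹ := by
    refine hA.trans (le_of_eq ?_)
    have e1 : ENNReal.ofReal (κ ^ 2) ^ δ = ENNReal.ofReal κ ^ (2 * δ) := by
      rw [ENNReal.ofReal_pow hκ.le, ← ENNReal.rpow_natCast, ← ENNReal.rpow_mul]
      norm_num
    rw [e1, mul_pow, ← ENNReal.rpow_natCast (ENNReal.ofReal κ ^ (2 * δ)) 2, ← ENNReal.rpow_mul]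
    have e2 : ENNReal.ofReal κ ^ (4 : ℝ) = ENNReal.ofReal κ ^ (4 - 4 * δ) * ENNReal.ofReal κ ^ (2 * δ * ((2 : ℕ) : ℝ)) := by
      rw [← ENNReal.rpow_add _ _ hk0 hk1]
      congr 1
      push_cast
      ring
    rw [e2]
    ring
  have h1 : (0:ℝ) ≤ 1 - δ / 4 := by linarith
  have h2 : (0:ℝ) ≤ δ / 4 := by linarith
  have hG : G = G ^ (1 - δ / 4) * G ^ (δ / 4) := by
    rw [← ENNReal.rpow_add_of_nonneg _ _ h1 h2]
    norm_num
  have e3 : X ^ (-((1 - δ) * (1 + δ / 4))) = X ^ ((δ - 1) * (1 - δ / 4)) * X ^ (-(2 - 2 * δ) * (δ / 4)) := by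
    rw [← ENNReal.rpow_add _ _ hX0 hX1]
    congr 1
    ring
  have e4 : ENNReal.ofReal κ ^ (4 - δ) = ENNReal.ofReal κ ^ ((4:ℝ) * (1 - δ / 4)) := by
    congr 1
    ring
  have e5 : P ^ (δ / 4 - 1) = P⁻¹ ^ (1 - δ / 4) := by
    rw [ENNReal.inv_rpow, ← ENNReal.rpow_neg]
    congr 1
    ring
  rw [e3, e4, e5]
  calc G = G ^ (1 - δ / 4) * G ^ (δ / 4) := hG
    _ ≤ (K ^ 2 * ENNReal.ofReal κ ^ (4 : ℝ) * X ^ (δ - 1) * P⁻¹) ^ (1 - δ / 4) * (V * X ^ (-(2 - 2 * δ))) ^ (δ / 4) :=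
        mul_le_mul' (ENNReal.rpow_le_rpow hA' h1) (ENNReal.rpow_le_rpow hB h2)
    _ = _ := by
        rw [ENNReal.mul_rpow_of_nonneg _ _ h1, ENNReal.mul_rpow_of_nonneg _ _ h1, ENNReal.mul_rpow_of_nonneg _ _ h1,
          ENNReal.mul_rpow_of_nonneg _ _ h2, ← ENNReal.rpow_mul, ← ENNReal.rpow_mul, ← ENNReal.rpow_mul]
        ring

/-- the domain -/
def hj6_Om (R κ : ℝ) : Set (E 2 × E 2 × E 2) :=
  {q : E 2 × E 2 × E 2 | ‖q.1‖ ≤ R ∧ ‖q.2.1‖ ≤ R ∧ ‖q.2.2‖ ≤ R ∧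
        |2 * (inner ℝ q.2.1 q.2.2 : ℝ)| ≤ R * κ ^ 2 ∧
        |(inner ℝ q.2.1 ((2:ℝ) • q.1 - q.2.1) : ℝ)| ≤ R * κ ^ 2 ∧
        |(inner ℝ q.2.2 ((2:ℝ) • q.1 - q.2.2) : ℝ)| ≤ R * κ ^ 2}

/-- the integrand -/
noncomputable def hj6_F (δ κ : ℝ) (q : E 2 × E 2 × E 2) : ℝ≥0∞ :=
  ENNReal.ofReal (|2 * (inner ℝ q.2.1 q.2.2 : ℝ)| / κ ^ 2 +
        |(inner ℝ q.2.1 ((2:ℝ) • q.1 - q.2.1) : ℝ)| *
          |(inner ℝ q.2.2 ((2:ℝ) • q.1 - q.2.2) : ℝ)| / κ ^ 4) ^ (-(2 - 2 * δ))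

theorem hj6_Om_meas (R κ : ℝ) : MeasurableSet (hj6_Om R κ) := by
  have m1 : MeasurableSet {q : E 2 × E 2 × E 2 | ‖q.1‖ ≤ R} := measurableSet_le (by fun_prop) (by fun_prop)
  have m2 : MeasurableSet {q : E 2 × E 2 × E 2 | ‖q.2.1‖ ≤ R} := measurableSet_le (by fun_prop) (by fun_prop)
  have m3 : MeasurableSet {q : E 2 × E 2 × E 2 | ‖q.2.2‖ ≤ R} := measurableSet_le (by fun_prop) (by fun_prop)
  have m4 : MeasurableSet {q : E 2 × E 2 × E 2 | |2 * (inner ℝ q.2.1 q.2.2 : ℝ)| ≤ R * κ ^ 2} :=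
    measurableSet_le (by fun_prop) (by fun_prop)
  have m5 : MeasurableSet {q : E 2 × E 2 × E 2 | |(inner ℝ q.2.1 ((2:ℝ) • q.1 - q.2.1) : ℝ)| ≤ R * κ ^ 2} :=
    measurableSet_le (by fun_prop) (by fun_prop)
  have m6 : MeasurableSet {q : E 2 × E 2 × E 2 | |(inner ℝ q.2.2 ((2:ℝ) • q.1 - q.2.2) : ℝ)| ≤ R * κ ^ 2} :=
    measurableSet_le (by fun_prop) (by fun_prop)
  exact m1.inter (m2.inter (m3.inter (m4.inter (m5.inter m6))))

theorem hj6_F_meas (δ κ : ℝ) : Measurable (hj6_F δ κ) := by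
  unfold hj6_F
  fun_prop

theorem hj6_rpow_ne_zero (x p : ℝ) (hp : p ≤ 0) : ENNReal.ofReal x ^ p ≠ 0 := by
  intro h0
  rw [ENNReal.rpow_eq_zero_iff] at h0
  rcases h0 with ⟨_, h0⟩ | ⟨h0, _⟩
  · linarith
  · exact ENNReal.ofReal_ne_top h0

theorem hj6_G (δ R κ : ℝ) (hδ : 0 < δ) (hδ1 : δ ≤ 1 / 2) (hκ : 0 < κ) (y z e' : E 2) (hy : y ≠ 0)
    (he1 : ‖e'‖ = 1)
    (he3 : ∀ z : E 2, z = (inner ℝ ((‖y‖)⁻¹ • y) z : ℝ) • ((‖y‖)⁻¹ • y) + (inner ℝ e' z : ℝ) • e')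
    (he4 : ∀ φ : ℝ → ℝ → ℝ≥0∞, Measurable (Function.uncurry φ) →
      ∫⁻ w : E 2, φ (inner ℝ ((‖y‖)⁻¹ • y) w) (inner ℝ e' w) = ∫⁻ α : ℝ, ∫⁻ β : ℝ, φ α β) :
    ∫⁻ w : E 2, (hj6_Om R κ).indicator (hj6_F δ κ) (w, y, z) ≤
      ((((∫⁻ s, hj6_T (δ - 1) R s) ^ 2) ^ (1 - δ / 4) * volume (Metric.closedBall (0 : E 2) R) ^ (δ / 4) + 1) *
        ENNReal.ofReal κ ^ (4 - δ) * ENNReal.ofReal ‖y‖ ^ (δ / 4 - 1)) *
      (hj6_T (-((1 - δ) * (1 + δ / 4))) R (2 * ‖y‖ / κ ^ 2 * (inner ℝ ((‖y‖)⁻¹ • y) z : ℝ)) *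
        hj6_T (δ / 4 - 1) R (inner ℝ e' z)) := by
  have hyn : 0 < ‖y‖ := norm_pos_iff.2 hy
  have hκ2 : 0 < κ ^ 2 := by positivity
  have hk0 : ENNReal.ofReal κ ≠ 0 := by simpa using hκ
  by_cases hzR : ‖z‖ ≤ R ∧ |2 * (inner ℝ y z : ℝ)| ≤ R * κ ^ 2
  swap
  · have : ∀ w : E 2, (hj6_Om R κ).indicator (hj6_F δ κ) (w, y, z) = 0 := by
      intro w
      apply indicator_of_notMem
      rintro ⟨_, _, h3, h4, _⟩
      exact hzR ⟨h3, h4⟩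
    simp only [this, lintegral_zero]
    exact zero_le
  obtain ⟨hzR, hyz⟩ := hzR
  set z1 : ℝ := inner ℝ ((‖y‖)⁻¹ • y) z with hz1
  set z2 : ℝ := inner ℝ e' z with hz2
  have hyz1 : (inner ℝ y z : ℝ) = ‖y‖ * z1 := by
    rw [hz1, real_inner_smul_left]
    field_simp
  set c : ℝ := |2 * (inner ℝ y z : ℝ)| / κ ^ 2 with hc
  have hc1 : |2 * ‖y‖ / κ ^ 2 * z1| = c := by
    rw [hc, hyz1, ← abs_of_pos hκ2, ← abs_div, abs_of_pos hκ2]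
    congr 1
    ring
  have hcR : c ≤ R := by
    rw [hc, div_le_iff₀ hκ2]
    exact hyz
  have hc0 : 0 ≤ c := by positivity
  have hT1 : hj6_T (-((1 - δ) * (1 + δ / 4))) R (2 * ‖y‖ / κ ^ 2 * z1) =
      ENNReal.ofReal c ^ (-((1 - δ) * (1 + δ / 4))) := by
    unfold hj6_T
    rw [indicator_of_mem, hc1]
    rw [mem_Icc, ← abs_le, hc1]
    exact hcR
  have hz2R : |z2| ≤ R := by
    calc |z2| ≤ ‖e'‖ * ‖z‖ := abs_real_inner_le_norm _ _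
      _ ≤ R := by rw [he1, one_mul]; exact hzR
  have hT2 : hj6_T (δ / 4 - 1) R z2 = ENNReal.ofReal |z2| ^ (δ / 4 - 1) := by
    unfold hj6_T
    rw [indicator_of_mem]
    rw [mem_Icc, ← abs_le]
    exact hz2R
  rw [hT1, hT2]
  have he0 : 0 < (1 - δ) * (1 + δ / 4) := by
    apply mul_pos <;> linarith
  set V : ℝ≥0∞ := volume (Metric.closedBall (0 : E 2) R) with hV
  set K : ℝ≥0∞ := ∫⁻ s, hj6_T (δ - 1) R s with hK
  have hpre0 : (((K ^ 2) ^ (1 - δ / 4) * V ^ (δ / 4) + 1) *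
        ENNReal.ofReal κ ^ (4 - δ) * ENNReal.ofReal ‖y‖ ^ (δ / 4 - 1)) ≠ 0 := by
    refine mul_ne_zero (mul_ne_zero ?_ ?_) (hj6_rpow_ne_zero _ _ (by linarith))
    · exact (lt_of_lt_of_le zero_lt_one (le_add_self : (1 : ℝ≥0∞) ≤ _ + 1)).ne'
    · rw [ENNReal.ofReal_rpow_of_pos hκ]
      simpa using Real.rpow_pos_of_pos hκ _
  by_cases h10 : c = 0
  · rw [h10, ENNReal.ofReal_zero, ENNReal.zero_rpow_of_neg (by linarith),
      ENNReal.top_mul (hj6_rpow_ne_zero _ _ (by linarith)), ENNReal.mul_top hpre0]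
    exact le_top
  by_cases h20 : z2 = 0
  · rw [h20, abs_zero, ENNReal.ofReal_zero, ENNReal.zero_rpow_of_neg (by linarith),
      ENNReal.mul_top (hj6_rpow_ne_zero _ _ (by linarith)), ENNReal.mul_top hpre0]
    exact le_top
  have hcp : 0 < c := lt_of_le_of_ne hc0 (Ne.symm h10)
  have hX0 : ENNReal.ofReal c ≠ 0 := by simpa using hcp
  have hX1 : ENNReal.ofReal c ≠ ∞ := ENNReal.ofReal_ne_top
  have hz2p : 0 < |z2| := abs_pos.2 h20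
  -- first bound
  have hA : ∫⁻ w : E 2, (hj6_Om R κ).indicator (hj6_F δ κ) (w, y, z) ≤
      ENNReal.ofReal c ^ (δ - 1) * (ENNReal.ofReal κ ^ (4 - 4 * δ) *
        ((ENNReal.ofReal (κ ^ 2) ^ δ * K) ^ 2 * (ENNReal.ofReal ‖y‖ * ENNReal.ofReal |z2|)⁻¹)) := by
    have hA1 := hj6_A δ R κ hκ y z e' hy he3 he4 h20
    have m1 : Measurable fun w : E 2 => hj6_T (δ - 1) (κ ^ 2 * R) (inner ℝ y ((2:ℝ) • w - y)) :=
      (hj6_T_meas _ _).comp (by fun_prop)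
    have m2 : Measurable fun w : E 2 => hj6_T (δ - 1) (κ ^ 2 * R) (inner ℝ z ((2:ℝ) • w - z)) :=
      (hj6_T_meas _ _).comp (by fun_prop)
    have hpt : ∀ w : E 2, (hj6_Om R κ).indicator (hj6_F δ κ) (w, y, z) ≤
        ENNReal.ofReal c ^ (δ - 1) * (ENNReal.ofReal κ ^ (4 - 4 * δ) *
          (hj6_T (δ - 1) (κ ^ 2 * R) (inner ℝ y ((2:ℝ) • w - y)) *
          hj6_T (δ - 1) (κ ^ 2 * R) (inner ℝ z ((2:ℝ) • w - z)))) := by
      intro w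
      by_cases hw : (w, y, z) ∈ hj6_Om R κ
      · rw [indicator_of_mem hw]
        obtain ⟨_, _, _, _, h5, h6⟩ := hw
        simp only at h5 h6
        have t1 : hj6_T (δ - 1) (κ ^ 2 * R) (inner ℝ y ((2:ℝ) • w - y)) =
            ENNReal.ofReal |(inner ℝ y ((2:ℝ) • w - y) : ℝ)| ^ (δ - 1) := by
          unfold hj6_T
          rw [indicator_of_mem]
          rw [mem_Icc, ← abs_le, mul_comm]
          exact h5
        have t2 : hj6_T (δ - 1) (κ ^ 2 * R) (inner ℝ z ((2:ℝ) • w - z)) =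
            ENNReal.ofReal |(inner ℝ z ((2:ℝ) • w - z) : ℝ)| ^ (δ - 1) := by
          unfold hj6_T
          rw [indicator_of_mem]
          rw [mem_Icc, ← abs_le, mul_comm]
          exact h6
        rw [t1, t2]
        exact hj6_pw δ κ c _ _ (by linarith) hκ hc0 (abs_nonneg _) (abs_nonneg _)
      · rw [indicator_of_notMem hw]
        exact zero_le
    refine (lintegral_mono hpt).trans ?_
    have m12 : Measurable fun w : E 2 => hj6_T (δ - 1) (κ ^ 2 * R) (inner ℝ y ((2:ℝ) • w - y)) *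
        hj6_T (δ - 1) (κ ^ 2 * R) (inner ℝ z ((2:ℝ) • w - z)) := m1.mul m2
    have m12' : Measurable fun w : E 2 => ENNReal.ofReal κ ^ (4 - 4 * δ) *
        (hj6_T (δ - 1) (κ ^ 2 * R) (inner ℝ y ((2:ℝ) • w - y)) *
        hj6_T (δ - 1) (κ ^ 2 * R) (inner ℝ z ((2:ℝ) • w - z))) := m12.const_mul _
    rw [lintegral_const_mul _ m12', lintegral_const_mul _ m12]
    refine mul_le_mul' le_rfl (mul_le_mul' le_rfl (hA1.trans (le_of_eq ?_)))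
    rw [ENNReal.mul_inv (Or.inr ENNReal.ofReal_ne_top) (Or.inl ENNReal.ofReal_ne_top)]
  -- second bound
  have hB : ∫⁻ w : E 2, (hj6_Om R κ).indicator (hj6_F δ κ) (w, y, z) ≤ V * ENNReal.ofReal c ^ (-(2 - 2 * δ)) := by
    have hpt : ∀ w : E 2, (hj6_Om R κ).indicator (hj6_F δ κ) (w, y, z) ≤
        (Metric.closedBall (0 : E 2) R).indicator (fun _ => ENNReal.ofReal c ^ (-(2 - 2 * δ))) w := by
      intro w
      by_cases hw : (w, y, z) ∈ hj6_Om R κ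
      · rw [indicator_of_mem hw, indicator_of_mem]
        · apply hjb_antitone _ (by linarith)
          apply ENNReal.ofReal_le_ofReal
          have : 0 ≤ |(inner ℝ y ((2:ℝ) • w - y) : ℝ)| * |(inner ℝ z ((2:ℝ) • w - z) : ℝ)| / κ ^ 4 := by positivity
          simp only
          linarith
        · rw [mem_closedBall_zero_iff]
          exact hw.1
      · rw [indicator_of_notMem hw]
        exact zero_le
    refine (lintegral_mono hpt).trans (le_of_eq ?_)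
    rw [lintegral_indicator_const measurableSet_closedBall, mul_comm]
  refine (hj6_interp δ κ hδ hδ1 hκ _ K V _ _ hX0 hX1 hA hB).trans ?_
  rw [ENNReal.mul_rpow_of_ne_top ENNReal.ofReal_ne_top ENNReal.ofReal_ne_top]
  calc (K ^ 2) ^ (1 - δ / 4) * V ^ (δ / 4) * ENNReal.ofReal κ ^ (4 - δ) *
      (ENNReal.ofReal c ^ (-((1 - δ) * (1 + δ / 4))) * (ENNReal.ofReal ‖y‖ ^ (δ / 4 - 1) * ENNReal.ofReal |z2| ^ (δ / 4 - 1)))
      = (K ^ 2) ^ (1 - δ / 4) * V ^ (δ / 4) * ENNReal.ofReal κ ^ (4 - δ) * ENNReal.ofReal ‖y‖ ^ (δ / 4 - 1) *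
        (ENNReal.ofReal c ^ (-((1 - δ) * (1 + δ / 4))) * ENNReal.ofReal |z2| ^ (δ / 4 - 1)) := by ring
    _ ≤ _ := by
        refine mul_le_mul' (mul_le_mul' (mul_le_mul' ?_ le_rfl) le_rfl) le_rfl
        exact le_self_add

theorem J_six (δ R : ℝ) (hδ : 0 < δ) (hδ1 : δ ≤ 1 / 2) (hR : 0 < R) : ∃ C : ℝ≥0∞, C ≠ ∞ ∧
    ∀ κ : ℝ, 0 < κ → κ ≤ 1 →
    ∫⁻ q in {q : E 2 × E 2 × E 2 | ‖q.1‖ ≤ R ∧ ‖q.2.1‖ ≤ R ∧ ‖q.2.2‖ ≤ R ∧
        |2 * (inner ℝ q.2.1 q.2.2 : ℝ)| ≤ R * κ ^ 2 ∧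
        |(inner ℝ q.2.1 ((2:ℝ) • q.1 - q.2.1) : ℝ)| ≤ R * κ ^ 2 ∧
        |(inner ℝ q.2.2 ((2:ℝ) • q.1 - q.2.2) : ℝ)| ≤ R * κ ^ 2},
      ENNReal.ofReal (|2 * (inner ℝ q.2.1 q.2.2 : ℝ)| / κ ^ 2 +
        |(inner ℝ q.2.1 ((2:ℝ) • q.1 - q.2.1) : ℝ)| *
          |(inner ℝ q.2.2 ((2:ℝ) • q.1 - q.2.2) : ℝ)| / κ ^ 4) ^ (-(2 - 2 * δ)) ≤
      C * ENNReal.ofReal (κ ^ (6 - δ)) := by
  have he0 : (1 - δ) * (1 + δ / 4) < 1 := by nlinarith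
  set V : ℝ≥0∞ := volume (Metric.closedBall (0 : E 2) R) with hV
  set K : ℝ≥0∞ := ∫⁻ s, hj6_T (δ - 1) R s with hK
  set K1 : ℝ≥0∞ := ∫⁻ s, hj6_T (-((1 - δ) * (1 + δ / 4))) R s with hK1
  set K2 : ℝ≥0∞ := ∫⁻ s, hj6_T (δ / 4 - 1) R s with hK2
  set K3 : ℝ≥0∞ := ∫⁻ y in Metric.closedBall (0 : E 2) R, ENNReal.ofReal ‖y‖ ^ (δ / 4 - 2) with hK3
  set C0 : ℝ≥0∞ := (K ^ 2) ^ (1 - δ / 4) * V ^ (δ / 4) + 1 with hC0
  have hVf : V ≠ ∞ := measure_closedBall_lt_top.ne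
  have hKf : K ≠ ∞ := hj6_T_fin _ _ (by linarith) hR
  have hK1f : K1 ≠ ∞ := hj6_T_fin _ _ (by linarith) hR
  have hK2f : K2 ≠ ∞ := hj6_T_fin _ _ (by linarith) hR
  have hK3f : K3 ≠ ∞ := (radial_two (δ / 4) R (by linarith)).ne
  have hC0f : C0 ≠ ∞ := by
    rw [hC0]
    refine ENNReal.add_ne_top.2 ⟨ENNReal.mul_ne_top ?_ ?_, ENNReal.one_ne_top⟩
    · exact ENNReal.rpow_ne_top_of_nonneg (by linarith) (ENNReal.pow_ne_top hKf)
    · exact ENNReal.rpow_ne_top_of_nonneg (by linarith) hVf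
  refine ⟨C0 * K1 * K2 * K3, ENNReal.mul_ne_top (ENNReal.mul_ne_top (ENNReal.mul_ne_top hC0f hK1f) hK2f) hK3f, ?_⟩
  intro κ hκ hκ1
  have hk0 : ENNReal.ofReal κ ≠ 0 := by simpa using hκ
  have hk1 : ENNReal.ofReal κ ≠ ∞ := ENNReal.ofReal_ne_top
  have hκ2 : 0 < κ ^ 2 := by positivity
  change ∫⁻ q in hj6_Om R κ, hj6_F δ κ q ≤ _
  have mF : Measurable ((hj6_Om R κ).indicator (hj6_F δ κ)) := (hj6_F_meas δ κ).indicator (hj6_Om_meas R κ)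
  rw [← lintegral_indicator (hj6_Om_meas R κ)]
  have hvol : (volume : Measure (E 2 × E 2 × E 2)) = (volume : Measure (E 2)).prod ((volume : Measure (E 2)).prod volume) := rfl
  rw [hvol, lintegral_prod_symm _ mF.aemeasurable]
  have mG : Measurable fun p : E 2 × E 2 => ∫⁻ w : E 2, (hj6_Om R κ).indicator (hj6_F δ κ) (w, p) :=
    mF.lintegral_prod_left'
  rw [lintegral_prod _ mG.aemeasurable]
  -- the integral in z
  have hz : ∀ y : E 2, y ≠ 0 → ∫⁻ z : E 2, ∫⁻ w : E 2, (hj6_Om R κ).indicator (hj6_F δ κ) (w, y, z) ≤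
      (Metric.closedBall (0 : E 2) R).indicator
        (fun y => C0 * K1 * K2 * ENNReal.ofReal κ ^ (6 - δ) * ENNReal.ofReal ‖y‖ ^ (δ / 4 - 2)) y := by
    intro y hy
    by_cases hyR : y ∈ Metric.closedBall (0 : E 2) R
    swap
    · have : ∀ z w : E 2, (hj6_Om R κ).indicator (hj6_F δ κ) (w, y, z) = 0 := by
        intro z w
        apply indicator_of_notMem
        rintro ⟨_, h2, _⟩
        exact hyR (mem_closedBall_zero_iff.2 h2)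
      simp only [this, lintegral_zero]
      exact zero_le
    rw [indicator_of_mem hyR]
    have hyn : 0 < ‖y‖ := norm_pos_iff.2 hy
    have hen : ‖(‖y‖)⁻¹ • y‖ = 1 := by
      rw [norm_smul, norm_inv, norm_norm, inv_mul_cancel₀ hyn.ne']
    obtain ⟨e', he1, he2, he3, he4⟩ := frame ((‖y‖)⁻¹ • y) hen
    refine (lintegral_mono fun z => hj6_G δ R κ hδ hδ1 hκ y z e' hy he1 he3 he4).trans ?_
    have mT1 : Measurable fun a : ℝ => hj6_T (-((1 - δ) * (1 + δ / 4))) R (2 * ‖y‖ / κ ^ 2 * a) :=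
      (hj6_T_meas _ _).comp (by fun_prop)
    have mT2 : Measurable (hj6_T (δ / 4 - 1) R) := hj6_T_meas _ _
    have mφ : Measurable (Function.uncurry fun a b : ℝ =>
        hj6_T (-((1 - δ) * (1 + δ / 4))) R (2 * ‖y‖ / κ ^ 2 * a) * hj6_T (δ / 4 - 1) R b) := by
      exact (mT1.comp measurable_fst).mul (mT2.comp measurable_snd)
    have m3 : Measurable fun z : E 2 => hj6_T (-((1 - δ) * (1 + δ / 4))) R (2 * ‖y‖ / κ ^ 2 * (inner ℝ ((‖y‖)⁻¹ • y) z : ℝ)) *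
        hj6_T (δ / 4 - 1) R (inner ℝ e' z) := by
      apply Measurable.mul
      · exact (hj6_T_meas _ _).comp (by fun_prop)
      · exact (hj6_T_meas _ _).comp (by fun_prop)
    rw [lintegral_const_mul _ m3, he4 _ mφ]
    have h2 : ∀ a : ℝ, ∫⁻ b : ℝ, hj6_T (-((1 - δ) * (1 + δ / 4))) R (2 * ‖y‖ / κ ^ 2 * a) * hj6_T (δ / 4 - 1) R b =
        hj6_T (-((1 - δ) * (1 + δ / 4))) R (2 * ‖y‖ / κ ^ 2 * a) * K2 := fun a => lintegral_const_mul _ mT2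
    simp only [h2]
    rw [lintegral_mul_const _ mT1]
    have h3 := hj6_affine (hj6_T (-((1 - δ) * (1 + δ / 4))) R) (hj6_T_meas _ _) (2 * ‖y‖ / κ ^ 2) 0 (by positivity)
    simp only [add_zero] at h3
    rw [h3]
    have h4 : (ENNReal.ofReal |2 * ‖y‖ / κ ^ 2|)⁻¹ ≤ ENNReal.ofReal κ ^ (2:ℝ) * ENNReal.ofReal ‖y‖ ^ (-1:ℝ) := by
      rw [abs_of_pos (by positivity), ← ENNReal.ofReal_inv_of_pos (by positivity), ENNReal.ofReal_rpow_of_pos hκ,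
        ENNReal.ofReal_rpow_of_pos hyn, ← ENNReal.ofReal_mul (by positivity)]
      apply ENNReal.ofReal_le_ofReal
      rw [inv_div, Real.rpow_neg_one, ← div_eq_mul_inv, Real.rpow_two]
      gcongr
      linarith
    have hy0 : ENNReal.ofReal ‖y‖ ≠ 0 := by simpa using hy
    have e1 : ENNReal.ofReal κ ^ (6 - δ) = ENNReal.ofReal κ ^ (4 - δ) * ENNReal.ofReal κ ^ (2:ℝ) := by
      rw [← ENNReal.rpow_add _ _ hk0 hk1]
      congr 1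
      ring
    have e2 : ENNReal.ofReal ‖y‖ ^ (δ / 4 - 2) = ENNReal.ofReal ‖y‖ ^ (δ / 4 - 1) * ENNReal.ofReal ‖y‖ ^ (-1:ℝ) := by
      rw [← ENNReal.rpow_add _ _ hy0 ENNReal.ofReal_ne_top]
      congr 1
      ring
    rw [e1, e2]
    calc C0 * ENNReal.ofReal κ ^ (4 - δ) * ENNReal.ofReal ‖y‖ ^ (δ / 4 - 1) *
          ((ENNReal.ofReal |2 * ‖y‖ / κ ^ 2|)⁻¹ * K1 * K2)
        ≤ C0 * ENNReal.ofReal κ ^ (4 - δ) * ENNReal.ofReal ‖y‖ ^ (δ / 4 - 1) *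
          ((ENNReal.ofReal κ ^ (2:ℝ) * ENNReal.ofReal ‖y‖ ^ (-1:ℝ)) * K1 * K2) := by gcongr
      _ = _ := by ring
  have hae : ∀ᵐ y : E 2, y ≠ 0 := by
    rw [ae_iff]
    simp
  refine (lintegral_mono_ae (hae.mono fun y hy => hz y hy)).trans ?_
  rw [lintegral_indicator measurableSet_closedBall]
  have m4 : Measurable fun y : E 2 => ENNReal.ofReal ‖y‖ ^ (δ / 4 - 2) := by fun_prop
  rw [lintegral_const_mul _ m4, ENNReal.ofReal_rpow_of_pos hκ]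
  apply le_of_eq
  ring

end Pool.Agent.MST
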