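import Pool.Agent.MST.L4
import Pool.Agent.MST.J6

namespace Pool.Agent.MST

open MeasureTheory Set Pool.Agent.MP_6cbfb8_an
open scoped ENNReal Real

/-- the weight in the dilation parameter is bounded below -/
theorem hl6_muS (s0 s1 : ℝ) (h0 : 0 < s0) (g : ℝ → ℝ≥0∞) (hg : Measurable g) :
    ENNReal.ofReal ((s0 / 2) ^ 3) * ∫⁻ s in Icc s0 s1, g s ≤ ∫⁻ s, g s ∂(muS (s0 / 2) (s1 + 1)) := by
  have hw : Measurable fun s : ℝ => ENNReal.ofReal (bmp (s0 / 2) (s1 + 1) s) := by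
    unfold bmp
    fun_prop
  rw [muS, lintegral_withDensity_eq_lintegral_mul _ hw hg, ← lintegral_const_mul _ hg]
  refine le_trans ?_ (lintegral_mono_set (s := Icc s0 s1) ?_)
  · refine setLIntegral_mono' measurableSet_Icc fun s hs => ?_
    rw [Pi.mul_apply]
    gcongr
    unfold bmp
    have h1 : s0 / 2 ≤ (s - s0 / 2) * (s1 + 1 - s) := by
      have h2 : s0 / 2 ≤ s - s0 / 2 := by linarith [hs.1]
      have h3 : 1 ≤ s1 + 1 - s := by linarith [hs.2]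
      nlinarith
    exact pow_le_pow_left₀ (by positivity) h1 3
  · exact Icc_subset_Icc (by linarith) (by linarith)

/-- the weight in time is bounded below -/
theorem hl6_muT (T : ℝ) (hT : 0 < T) (g : ℝ → ℝ≥0∞) (hg : Measurable g) :
    ENNReal.ofReal (Real.exp (-(4 * π))) * ∫⁻ t in {t : ℝ | T ≤ |t| ∧ |t| ≤ 2 * T}, g t ≤
      ∫⁻ t, g t ∂(muT T) := by
  have hw : Measurable fun t : ℝ =>
      ENNReal.ofReal ((t / T) ^ 2 * Real.exp (-(π * (t / T) ^ 2))) := by fun_prop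
  have hset : MeasurableSet {t : ℝ | T ≤ |t| ∧ |t| ≤ 2 * T} :=
    (measurableSet_le measurable_const continuous_abs.measurable).inter
      (measurableSet_le continuous_abs.measurable measurable_const)
  rw [muT, lintegral_withDensity_eq_lintegral_mul _ hw hg, ← lintegral_const_mul _ hg]
  refine le_trans ?_ (setLIntegral_le_lintegral {t : ℝ | T ≤ |t| ∧ |t| ≤ 2 * T} _)
  refine setLIntegral_mono' hset fun t ht => ?_
  rw [Pi.mul_apply]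
  gcongr
  have h1 : 1 ≤ (t / T) ^ 2 := by
    rw [← sq_abs, abs_div, abs_of_pos hT]
    have : 1 ≤ |t| / T := by rw [le_div_iff₀ hT]; linarith [ht.1]
    nlinarith
  have h2 : (t / T) ^ 2 ≤ 4 := by
    rw [← sq_abs, abs_div, abs_of_pos hT]
    have h3 : |t| / T ≤ 2 := by rw [div_le_iff₀ hT]; linarith [ht.2]
    have h4 : 0 ≤ |t| / T := by positivity
    nlinarith
  have h3 : Real.exp (-(4 * π)) ≤ Real.exp (-(π * (t / T) ^ 2)) := by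
    apply Real.exp_le_exp.2
    nlinarith [Real.pi_pos]
  nlinarith [Real.exp_pos (-(4 * π))]

theorem hl6_weight (s0 s1 T : ℝ) (h0 : 0 < s0) (hT : 0 < T) (Φ : ℝ × ℝ → ℝ≥0∞)
    (hΦ : Measurable Φ) :
    ENNReal.ofReal ((s0 / 2) ^ 3) * (ENNReal.ofReal (Real.exp (-(4 * π))) *
      ∫⁻ s in Icc s0 s1, ∫⁻ t in {t : ℝ | T ≤ |t| ∧ |t| ≤ 2 * T}, Φ (s, t)) ≤
      ∫⁻ l, Φ l ∂((muS (s0 / 2) (s1 + 1)).prod (muT T)) := by
  have : SFinite (muT T) := by unfold muT; infer_instance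
  rw [lintegral_prod _ hΦ.aemeasurable]
  have h1 : ∀ s, ENNReal.ofReal (Real.exp (-(4 * π))) *
      ∫⁻ t in {t : ℝ | T ≤ |t| ∧ |t| ≤ 2 * T}, Φ (s, t) ≤ ∫⁻ t, Φ (s, t) ∂(muT T) :=
    fun s => hl6_muT T hT _ (hΦ.comp measurable_prodMk_left)
  refine le_trans ?_ (hl6_muS s0 s1 h0 _ hΦ.lintegral_prod_right')
  gcongr
  rw [← lintegral_const_mul' _ _ ENNReal.ofReal_ne_top]
  exact lintegral_mono fun s => h1 s

theorem hl6_meas_gen {X : Type*} [MeasurableSpace X] (ν : Measure X) [SFinite ν]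
    (Φ : ℝ → ℝ → X → ℂ) (h : Measurable fun q : ℝ × ℝ × X => Φ q.1 q.2.1 q.2.2) :
    Measurable fun l : ℝ × ℝ => ∫⁻ x : X, ‖Φ l.1 l.2 x‖ₑ ^ (4:ℝ) ∂ν := by
  have h9 : Measurable fun q : (ℝ × ℝ) × X => ((q.1.1, q.1.2, q.2) : ℝ × ℝ × X) :=
    measurable_fst.fst.prodMk (measurable_fst.snd.prodMk measurable_snd)
  have h5 : Measurable fun q : (ℝ × ℝ) × X => ‖Φ q.1.1 q.1.2 q.2‖ₑ ^ (4:ℝ) :=
    (h.comp h9).enorm.pow_const _
  exact h5.lintegral_prod_right'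

theorem hl6_diff (w y : E 2) : ‖w‖ ^ 2 - ‖w - y‖ ^ 2 = (inner ℝ y ((2:ℝ) • w - y) : ℝ) := by
  simp only [← real_inner_self_eq_norm_sq, inner_sub_left, inner_sub_right, inner_smul_right]
  rw [real_inner_comm w y]
  ring

/-
ROW L6 (1 h). The sharper L^4 bound, κ^6 instead of κ^(4+δ). Exactly as strip_L4 (file L4, delivered: copy its proof), with KI_near in addition
and J_six instead of J_bound: T C κ² (Tκ)^(-(2-2δ)) κ^(6-δ) = C T^(-1+2δ) κ^(6+δ) ≤ C T^(-1+2δ) κ^6.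
shell_six: apply strip_six on the larger interval [s0/2, s1+1]: there bmp ≥ c > 0 on [s0, s1] and for T ≤ |t| ≤ 2T the weight
(t/T)² exp(-π(t/T)²) ≥ exp(-4π) (see the proof of strip_Lp, file SL, for the same step).
-/
theorem strip_six (a : ℝ → ℝ) (ha : Cut a) (s0 s1 : ℝ) (h0 : 0 < s0) (h1 : s0 < s1) (δ : ℝ)
    (hδ : 0 < δ) (hδ1 : δ ≤ 1 / 2) : ∃ C : ℝ≥0∞, C ≠ ∞ ∧ ∀ κ T : ℝ, 0 < κ → κ ≤ 1 → 0 < T →
    ∀ G : E 2 → ℂ, Measurable G → (∀ w, ‖G w‖ ≤ 1) →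
    ∫⁻ l : ℝ × ℝ, (∫⁻ x : E 2, ‖op a κ l.1 l.2 G x‖ₑ ^ (4:ℝ)) ∂((muS s0 s1).prod (muT T)) ≤
      C * ENNReal.ofReal (T ^ (-1 + 2 * δ) * κ ^ (6:ℝ)) := by
  obtain ⟨A0, hA0, hA⟩ := cut_bdd a ha
  obtain ⟨C1, hC1, hKB⟩ := kernel_bound a ha s0 s1 h0 h1
  have hR0 : 0 < 4 / s0 := by positivity
  set R : ℝ := 2 * (C1 + 1) + 4 / s0 with hRdef
  have hR1 : 2 * (C1 + 1) ≤ R := by linarith
  have hR2 : 4 / s0 ≤ R := by linarith
  obtain ⟨C2, hC2, hJB⟩ := J_six δ R hδ hδ1 (by linarith)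
  refine ⟨ENNReal.ofReal C1 * C2, ENNReal.mul_ne_top ENNReal.ofReal_ne_top hC2, ?_⟩
  intro κ T hκ hκ1 hT G hG hGb
  have := finite_muT T hT
  set A : ℝ × ℝ → E 2 → ℂ := fun l w =>
    if l.1 ∈ Icc s0 s1 then amp a κ l.1 l.2 (‖w‖ ^ 2) else 0 with hAdef
  have hAm : Measurable (Function.uncurry A) := by
    have h2 : MeasurableSet {p : (ℝ × ℝ) × E 2 | p.1.1 ∈ Icc s0 s1} :=
      measurable_fst.fst measurableSet_Icc
    exact Measurable.ite h2 (hl4_meas_amp a ha κ) measurable_const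
  have hAB : ∀ l w, ‖A l w‖ ≤ A0 := by
    intro l w
    simp only [hAdef]
    split_ifs
    · rw [hl4_norm_amp]
      exact hA _
    · rw [norm_zero]
      exact hA0.le
  have hAR : ∀ l w, 1 / s0 + 1 < ‖w‖ → A l w = 0 := by
    intro l w hw
    simp only [hAdef]
    split_ifs with h
    · have h2 : vv κ l.1 (‖w‖ ^ 2) ≤ 1 / 4 := by
        have h3 : 0 < 1 / s0 := by positivity
        have h4 : 1 / s0 ≤ ‖w‖ ^ 2 := by nlinarith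
        have h5 : 1 ≤ l.1 * ‖w‖ ^ 2 := by
          calc (1 : ℝ) = s0 * (1 / s0) := by field_simp
            _ ≤ l.1 * ‖w‖ ^ 2 := mul_le_mul h.1 h4 h3.le (h0.le.trans h.1)
        have h6 : vv κ l.1 (‖w‖ ^ 2) ≤ 0 := by
          unfold vv
          exact div_nonpos_of_nonpos_of_nonneg (by linarith) (by positivity)
        linarith
      unfold amp
      rw [ha.2 _ (Or.inl h2)]
      simp
    · rfl
  have hae := hl4_ae s0 s1 T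
  have hLHS : ∫⁻ l : ℝ × ℝ, (∫⁻ x : E 2, ‖op a κ l.1 l.2 G x‖ₑ ^ (4:ℝ)) ∂((muS s0 s1).prod (muT T)) =
      ∫⁻ l : ℝ × ℝ, (∫⁻ x : E 2, ‖∫ w : E 2, G w * A l w * ex (inner ℝ w x)‖ₑ ^ (4:ℝ))
        ∂((muS s0 s1).prod (muT T)) := by
    apply lintegral_congr_ae
    filter_upwards [hae] with l hl
    unfold op
    simp only [hAdef, if_pos hl]
  rw [hLHS]
  refine (four_linear_param ((muS s0 s1).prod (muT T)) A hAm A0 (1 / s0 + 1) hAB hAR G hG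
    hGb).trans ?_
  have hker : ∀ q : E 2 × E 2 × E 2, ∫ l, A l q.1 * A l (q.1 - q.2.1 - q.2.2) *
        (starRingEnd ℂ) (A l (q.1 - q.2.1)) * (starRingEnd ℂ) (A l (q.1 - q.2.2))
          ∂((muS s0 s1).prod (muT T)) =
      ((T * KI a κ s0 s1 (T * κ) (‖q.1‖ ^ 2) (‖q.1 - q.2.1 - q.2.2‖ ^ 2) (‖q.1 - q.2.1‖ ^ 2)
        (‖q.1 - q.2.2‖ ^ 2) : ℝ) : ℂ) := by
    intro q
    rw [← kernel_formula a ha κ hκ s0 s1 h1 T hT]
    apply integral_congr_ae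
    filter_upwards [hae] with l hl
    simp only [hAdef, if_pos hl]
  simp only [hker]
  have hTκ : 0 < T * κ := mul_pos hT hκ
  have hκ2 : 0 < C1 * κ ^ 2 := by positivity
  have hpt : ∀ q : E 2 × E 2 × E 2,
      ‖((T * KI a κ s0 s1 (T * κ) (‖q.1‖ ^ 2) (‖q.1 - q.2.1 - q.2.2‖ ^ 2) (‖q.1 - q.2.1‖ ^ 2)
        (‖q.1 - q.2.2‖ ^ 2) : ℝ) : ℂ)‖ₑ ≤
      {q : E 2 × E 2 × E 2 | ‖q.1‖ ≤ R ∧ ‖q.2.1‖ ≤ R ∧ ‖q.2.2‖ ≤ R ∧
        |2 * (inner ℝ q.2.1 q.2.2 : ℝ)| ≤ R * κ ^ 2 ∧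
        |(inner ℝ q.2.1 ((2:ℝ) • q.1 - q.2.1) : ℝ)| ≤ R * κ ^ 2 ∧
        |(inner ℝ q.2.2 ((2:ℝ) • q.1 - q.2.2) : ℝ)| ≤ R * κ ^ 2}.indicator
      (fun q => (ENNReal.ofReal T * ENNReal.ofReal (C1 * κ ^ 2) *
        ENNReal.ofReal (T * κ) ^ (-(2 - 2 * δ))) *
        ENNReal.ofReal (|2 * (inner ℝ q.2.1 q.2.2 : ℝ)| / κ ^ 2 +
        |(inner ℝ q.2.1 ((2:ℝ) • q.1 - q.2.1) : ℝ)| *
          |(inner ℝ q.2.2 ((2:ℝ) • q.1 - q.2.2) : ℝ)| / κ ^ 4) ^ (-(2 - 2 * δ))) q := by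
    intro q
    obtain ⟨b1, b2, b3⟩ := hKB κ (T * κ) (‖q.1‖ ^ 2) (‖q.1 - q.2.1 - q.2.2‖ ^ 2)
      (‖q.1 - q.2.1‖ ^ 2) (‖q.1 - q.2.2‖ ^ 2) hκ hκ1 hTκ (by positivity) (by positivity)
      (by positivity) (by positivity)
    have hin := hl4_inner q.1 q.2.1 q.2.2
    have hdd := dd_eq κ q.1 q.2.1 q.2.2
    set K := KI a κ s0 s1 (T * κ) (‖q.1‖ ^ 2) (‖q.1 - q.2.1 - q.2.2‖ ^ 2) (‖q.1 - q.2.1‖ ^ 2)
        (‖q.1 - q.2.2‖ ^ 2) with hK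
    set D := DD κ (‖q.1‖ ^ 2) (‖q.1 - q.2.1 - q.2.2‖ ^ 2) (‖q.1 - q.2.1‖ ^ 2)
        (‖q.1 - q.2.2‖ ^ 2) with hD
    by_cases hK0 : K = 0
    · rw [hK0]
      simp
    · obtain ⟨c1, -, c3, c4, c5⟩ := b3 hK0
      have hn : ∀ v : E 2, ‖v‖ ^ 2 ≤ C1 → ‖v‖ ≤ C1 + 1 := by
        intro v hv
        by_contra hc
        rw [not_le] at hc
        nlinarith [norm_nonneg v]
      have hw := hn _ c1
      have hwy := hn _ c3
      have hwz := hn _ c4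
      have hy : ‖q.2.1‖ ≤ 2 * (C1 + 1) := by
        have h2 : q.2.1 = q.1 - (q.1 - q.2.1) := by abel
        rw [h2]
        refine (norm_sub_le _ _).trans ?_
        linarith
      have hz : ‖q.2.2‖ ≤ 2 * (C1 + 1) := by
        have h2 : q.2.2 = q.1 - (q.1 - q.2.2) := by abel
        rw [h2]
        refine (norm_sub_le _ _).trans ?_
        linarith
      have hX : |2 * (inner ℝ q.2.1 q.2.2 : ℝ)| ≤ 2 * (C1 + 1) * κ ^ 2 := by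
        rw [← hin]
        refine c5.trans ?_
        exact mul_le_mul_of_nonneg_right (by linarith) (by positivity)
      obtain ⟨n1, n2⟩ := KI_near a ha s0 s1 h0 h1 κ (T * κ) _ _ _ _ hκ hK0
      have hL1 : |(inner ℝ q.2.1 ((2:ℝ) • q.1 - q.2.1) : ℝ)| ≤ R * κ ^ 2 := by
        rw [← hl6_diff]
        exact n1.trans (mul_le_mul_of_nonneg_right hR2 (by positivity))
      have hL2 : |(inner ℝ q.2.2 ((2:ℝ) • q.1 - q.2.2) : ℝ)| ≤ R * κ ^ 2 := by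
        rw [← hl6_diff]
        exact n2.trans (mul_le_mul_of_nonneg_right hR2 (by positivity))
      have hXR : |2 * (inner ℝ q.2.1 q.2.2 : ℝ)| ≤ R * κ ^ 2 :=
        hX.trans (mul_le_mul_of_nonneg_right hR1 (by positivity))
      rw [Set.indicator_of_mem (show q ∈ {q : E 2 × E 2 × E 2 | ‖q.1‖ ≤ R ∧ ‖q.2.1‖ ≤ R ∧ ‖q.2.2‖ ≤ R ∧
        |2 * (inner ℝ q.2.1 q.2.2 : ℝ)| ≤ R * κ ^ 2 ∧
        |(inner ℝ q.2.1 ((2:ℝ) • q.1 - q.2.1) : ℝ)| ≤ R * κ ^ 2 ∧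
        |(inner ℝ q.2.2 ((2:ℝ) • q.1 - q.2.2) : ℝ)| ≤ R * κ ^ 2} from
        ⟨by linarith [norm_nonneg q.1], by linarith, by linarith, hXR, hL1, hL2⟩)]
      show _ ≤ (ENNReal.ofReal T * ENNReal.ofReal (C1 * κ ^ 2) *
        ENNReal.ofReal (T * κ) ^ (-(2 - 2 * δ))) *
        ENNReal.ofReal (|2 * (inner ℝ q.2.1 q.2.2 : ℝ)| / κ ^ 2 +
        |(inner ℝ q.2.1 ((2:ℝ) • q.1 - q.2.1) : ℝ)| *
          |(inner ℝ q.2.2 ((2:ℝ) • q.1 - q.2.2) : ℝ)| / κ ^ 4) ^ (-(2 - 2 * δ))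
      rw [← hdd]
      have hD0 : 0 ≤ D := by
        rw [hD]
        unfold DD
        positivity
      have hTK : ‖((T * K : ℝ) : ℂ)‖ₑ = ENNReal.ofReal T * ENNReal.ofReal |K| := by
        rw [← ofReal_norm, Complex.norm_real, Real.norm_eq_abs, abs_mul,
          abs_of_pos hT, ENNReal.ofReal_mul hT.le]
      rw [hTK]
      have hpw := hl4_power (e := 2 - 2 * δ) (by linarith) (by linarith) hκ2
        (mul_nonneg hTκ.le hD0) b1 b2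
      rw [ENNReal.ofReal_mul hTκ.le,
        ENNReal.mul_rpow_of_ne_top ENNReal.ofReal_ne_top ENNReal.ofReal_ne_top] at hpw
      calc ENNReal.ofReal T * ENNReal.ofReal |K| ≤ ENNReal.ofReal T *
            (ENNReal.ofReal (C1 * κ ^ 2) * (ENNReal.ofReal (T * κ) ^ (-(2 - 2 * δ)) *
              ENNReal.ofReal D ^ (-(2 - 2 * δ)))) := by gcongr
        _ = _ := by ring
  refine (lintegral_mono hpt).trans ?_
  refine (lintegral_indicator_le _ _).trans ?_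
  rw [lintegral_const_mul' _ _ ?_]
  · refine (mul_le_mul_right (hJB κ hκ hκ1) _).trans ?_
    rw [ENNReal.ofReal_rpow_of_pos hTκ]
    have hreal : T * (C1 * κ ^ 2) * (T * κ) ^ (-(2 - 2 * δ)) * κ ^ (6 - δ) ≤
        C1 * (T ^ (-1 + 2 * δ) * κ ^ (6:ℝ)) := by
      have hk6 : κ ^ (6 + δ) ≤ κ ^ (6:ℝ) := Real.rpow_le_rpow_of_exponent_ge hκ hκ1 (by linarith)
      refine le_trans (le_of_eq ?_) (mul_le_mul_of_nonneg_left (mul_le_mul_of_nonneg_left hk6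
        (Real.rpow_nonneg hT.le _)) hC1.le)
      rw [Real.mul_rpow hT.le hκ.le]
      have e1 : T ^ (-1 + 2 * δ) = T * T ^ (-(2 - 2 * δ)) := by
        rw [show -1 + 2 * δ = 1 + -(2 - 2 * δ) by ring, Real.rpow_add hT, Real.rpow_one]
      have e2 : κ ^ (6 + δ) = κ ^ 2 * κ ^ (-(2 - 2 * δ)) * κ ^ (6 - δ) := by
        rw [← Real.rpow_two, ← Real.rpow_add hκ, ← Real.rpow_add hκ]
        congr 1
        ring
      rw [e1, e2]
      ring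
    calc ENNReal.ofReal T * ENNReal.ofReal (C1 * κ ^ 2) *
          ENNReal.ofReal ((T * κ) ^ (-(2 - 2 * δ))) * (C2 * ENNReal.ofReal (κ ^ (6 - δ))) =
        C2 * (ENNReal.ofReal T * ENNReal.ofReal (C1 * κ ^ 2) *
          ENNReal.ofReal ((T * κ) ^ (-(2 - 2 * δ))) * ENNReal.ofReal (κ ^ (6 - δ))) := by ring
      _ = C2 * ENNReal.ofReal (T * (C1 * κ ^ 2) * (T * κ) ^ (-(2 - 2 * δ)) * κ ^ (6 - δ)) := by
        rw [ENNReal.ofReal_mul (q := κ ^ (6 - δ)) (by positivity),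
          ENNReal.ofReal_mul (q := (T * κ) ^ (-(2 - 2 * δ))) (by positivity),
          ENNReal.ofReal_mul (q := C1 * κ ^ 2) hT.le]
      _ ≤ C2 * (ENNReal.ofReal C1 * ENNReal.ofReal (T ^ (-1 + 2 * δ) * κ ^ (6:ℝ))) := by
        rw [← ENNReal.ofReal_mul hC1.le]
        exact mul_le_mul' le_rfl (ENNReal.ofReal_le_ofReal hreal)
      _ = _ := by ring
  · rw [ENNReal.ofReal_rpow_of_pos hTκ]
    exact ENNReal.mul_ne_top (ENNReal.mul_ne_top ENNReal.ofReal_ne_top ENNReal.ofReal_ne_top)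
      ENNReal.ofReal_ne_top

theorem shell_six (a : ℝ → ℝ) (ha : Cut a) (s0 s1 : ℝ) (h0 : 0 < s0) (h1 : s0 < s1) (δ : ℝ)
    (hδ : 0 < δ) (hδ1 : δ ≤ 1 / 2) : ∃ C : ℝ≥0∞, C ≠ ∞ ∧ ∀ κ T : ℝ, 0 < κ → κ ≤ 1 → 0 < T →
    ∀ G : E 2 → ℂ, Measurable G → (∀ w, ‖G w‖ ≤ 1) →
    ∫⁻ s in Icc s0 s1, ∫⁻ t in {t : ℝ | T ≤ |t| ∧ |t| ≤ 2 * T},
      ∫⁻ x : E 2, ‖op a κ s t G x‖ₑ ^ (4:ℝ) ≤
      C * ENNReal.ofReal (T ^ (-1 + 2 * δ) * κ ^ (6:ℝ)) := by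
  obtain ⟨C4, hC4, H4⟩ := strip_six a ha (s0 / 2) (s1 + 1) (by linarith) (by linarith) δ hδ hδ1
  set K : ℝ≥0∞ := (ENNReal.ofReal ((s0 / 2) ^ 3) * ENNReal.ofReal (Real.exp (-(4 * π))))⁻¹
    with hKdef
  have hK0 : ENNReal.ofReal ((s0 / 2) ^ 3) * ENNReal.ofReal (Real.exp (-(4 * π))) ≠ 0 := by
    have h2 : ENNReal.ofReal ((s0 / 2) ^ 3) ≠ 0 := by
      rw [ENNReal.ofReal_ne_zero_iff]; positivity
    have h3 : ENNReal.ofReal (Real.exp (-(4 * π))) ≠ 0 := by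
      rw [ENNReal.ofReal_ne_zero_iff]; positivity
    exact mul_ne_zero h2 h3
  have hKt : ENNReal.ofReal ((s0 / 2) ^ 3) * ENNReal.ofReal (Real.exp (-(4 * π))) ≠ ∞ :=
    ENNReal.mul_ne_top ENNReal.ofReal_ne_top ENNReal.ofReal_ne_top
  have hK : K ≠ ∞ := ENNReal.inv_ne_top.2 hK0
  refine ⟨K * C4, ENNReal.mul_ne_top hK hC4, ?_⟩
  intro κ T hκ hκ1 hT G hG hb
  have hm := measurable_op a ha κ G hG
  have hΦ := hl6_meas_gen (volume : Measure (E 2)) (fun s t x => op a κ s t G x) hm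
  have h6 := hl6_weight s0 s1 T h0 hT _ hΦ
  have h7 := h6.trans (H4 κ T hκ hκ1 hT G hG hb)
  rw [← mul_assoc] at h7
  calc ∫⁻ s in Icc s0 s1, (∫⁻ t in {t : ℝ | T ≤ |t| ∧ |t| ≤ 2 * T},
        (∫⁻ x, ‖op a κ s t G x‖ₑ ^ (4:ℝ)))
      = K * (ENNReal.ofReal ((s0 / 2) ^ 3) * ENNReal.ofReal (Real.exp (-(4 * π))) *
            ∫⁻ s in Icc s0 s1, (∫⁻ t in {t : ℝ | T ≤ |t| ∧ |t| ≤ 2 * T},
              (∫⁻ x, ‖op a κ s t G x‖ₑ ^ (4:ℝ)))) := by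
            rw [← mul_assoc, hKdef, ENNReal.inv_mul_cancel hK0 hKt, one_mul]
    _ ≤ K * (C4 * ENNReal.ofReal (T ^ (-1 + 2 * δ) * κ ^ (6:ℝ))) := by
            gcongr
    _ = _ := by ring

end Pool.Agent.MST
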