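import Pool.Agent.MST.Defs

namespace Pool.Agent.MST

open MeasureTheory Set Pool.Agent.MP_6cbfb8_an
open scoped ENNReal Real

theorem hts_cover (g : ℝ → ℝ≥0∞) : ∫⁻ t : ℝ, g t ≤ (∫⁻ t in {t : ℝ | |t| ≤ 1}, g t) +
    ∑' i : ℕ, ∫⁻ t in {t : ℝ | (2:ℝ) ^ i ≤ |t| ∧ |t| ≤ 2 * 2 ^ i}, g t := by
  have h1 : (univ : Set ℝ) ⊆ {t : ℝ | |t| ≤ 1} ∪
      ⋃ i : ℕ, {t : ℝ | (2:ℝ) ^ i ≤ |t| ∧ |t| ≤ 2 * 2 ^ i} := by
    intro t _
    by_cases ht : |t| ≤ 1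
    · exact Or.inl ht
    · right
      rw [not_le] at ht
      rw [mem_iUnion]
      obtain ⟨n, hn1, hn2⟩ := exists_nat_pow_near ht.le (one_lt_two (α := ℝ))
      refine ⟨n, hn1, ?_⟩
      rw [pow_succ] at hn2
      linarith
  calc ∫⁻ t : ℝ, g t = ∫⁻ t in univ, g t := by rw [Measure.restrict_univ]
    _ ≤ ∫⁻ t in ({t : ℝ | |t| ≤ 1} ∪ ⋃ i : ℕ, {t : ℝ | (2:ℝ) ^ i ≤ |t| ∧ |t| ≤ 2 * 2 ^ i}), g t :=
        lintegral_mono_set h1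
    _ ≤ (∫⁻ t in {t : ℝ | |t| ≤ 1}, g t) +
        ∫⁻ t in (⋃ i : ℕ, {t : ℝ | (2:ℝ) ^ i ≤ |t| ∧ |t| ≤ 2 * 2 ^ i}), g t :=
        lintegral_union_le _ _ _
    _ ≤ _ := by
        gcongr
        exact lintegral_iUnion_le _ _

theorem hts_vol (T : ℝ) (hT : 0 ≤ T) :
    volume {t : ℝ | T ≤ |t| ∧ |t| ≤ 2 * T} ≤ ENNReal.ofReal (2 * T) := by
  have h1 : {t : ℝ | T ≤ |t| ∧ |t| ≤ 2 * T} ⊆ Icc T (2 * T) ∪ Icc (-(2 * T)) (-T) := by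
    rintro t ⟨h2, h3⟩
    rcases le_total 0 t with h4 | h4
    · rw [abs_of_nonneg h4] at h2 h3
      exact Or.inl ⟨h2, h3⟩
    · rw [abs_of_nonpos h4] at h2 h3
      exact Or.inr ⟨by linarith, by linarith⟩
  refine (measure_mono h1).trans ((measure_union_le _ _).trans ?_)
  rw [Real.volume_Icc, Real.volume_Icc, ← ENNReal.ofReal_add (by linarith) (by linarith)]
  exact ENNReal.ofReal_le_ofReal (by linarith)

theorem hts_measSet (T : ℝ) : MeasurableSet {t : ℝ | T ≤ |t| ∧ |t| ≤ 2 * T} :=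
  (measurableSet_le measurable_const measurable_abs).inter
    (measurableSet_le measurable_abs measurable_const)

/-
ROW TS (1.2 h). Summation over dyadic time shells; pure measure theory.
Split ℝ ∋ t into |t| < 1 and the shells 2^i ≤ |t| ≤ 2^(i+1), i ≥ 0 (cover, lintegral_iUnion_le).
|t| < 1: ‖F‖^p ≤ C2^(p-2) ‖F‖², so ∫⁻ l ∫⁻ |t|<1 ∫⁻ x ≤ C2^(p-2)·C1·2·π(univ).
Shell T = 2^i: Hölder on the product space P × shell × X (`lintegral_interp` of Tools.lean with q = 4,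
p = 2a + 4(1-a), a = (4-p)/2, 1-a = (p-2)/2; it is stated for one measure, use the product measure or
iterate): ≤ (π(univ)·2T·C1)^((4-p)/2) · (C3 T^(-β))^((p-2)/2) (the set {T ≤ |t| ≤ 2T} has measure 2T).
Exponent of T: (4-p)/2 - β(p-2)/2 < 0: geometric series. [`F` measurable in (l, t, x).]
-/
theorem time_sum {P X : Type*} [MeasurableSpace P] [MeasurableSpace X] (π' : Measure P)
    [IsFiniteMeasure π'] (ν : Measure X) [SFinite ν] (p β : ℝ) (hp : 2 < p) (hp4 : p < 4)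
    (hβ : 4 - p < β * (p - 2)) : ∃ C : ℝ≥0∞, C ≠ ∞ ∧ ∀ (F : P → ℝ → X → ℂ),
    (Measurable fun q : P × ℝ × X => F q.1 q.2.1 q.2.2) → ∀ C1 C2 C3 : ℝ≥0∞,
    (∀ l t, ∫⁻ x, ‖F l t x‖ₑ ^ (2:ℝ) ∂ν ≤ C1) → (∀ l t x, ‖F l t x‖ₑ ≤ C2) →
    (∀ T : ℝ, 1 ≤ T → ∫⁻ l, (∫⁻ t in {t : ℝ | T ≤ |t| ∧ |t| ≤ 2 * T},
      (∫⁻ x, ‖F l t x‖ₑ ^ (4:ℝ) ∂ν)) ∂π' ≤ C3 * ENNReal.ofReal (T ^ (-β))) →
    ∫⁻ l, (∫⁻ t : ℝ, (∫⁻ x, ‖F l t x‖ₑ ^ p ∂ν)) ∂π' ≤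
      C * (C2 ^ (p - 2) * C1 + C1 ^ ((4 - p) / 2) * C3 ^ ((p - 2) / 2)) := by
  obtain ⟨m0, hm00⟩ : ∃ m0 : ℝ≥0∞, m0 = π' univ := ⟨_, rfl⟩
  have hmf0 : m0 ≠ ∞ := by rw [hm00]; exact measure_ne_top _ _
  obtain ⟨δ, hδ⟩ : ∃ δ : ℝ, δ = (β * (p - 2) - (4 - p)) / 2 := ⟨_, rfl⟩
  have hδ0 : 0 < δ := by rw [hδ]; linarith
  obtain ⟨ρ, hρ⟩ : ∃ ρ : ℝ, ρ = (2:ℝ) ^ (-δ) := ⟨_, rfl⟩
  have hρ0 : 0 < ρ := by rw [hρ]; positivity
  have hρ1 : ρ < 1 := by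
    rw [hρ]
    exact Real.rpow_lt_one_of_one_lt_of_neg one_lt_two (by linarith)
  have hC : (2 * m0 + (2 * m0) ^ ((4 - p) / 2) * (1 - ENNReal.ofReal ρ)⁻¹ : ℝ≥0∞) ≠ ∞ := by
    refine ENNReal.add_ne_top.2 ⟨ENNReal.mul_ne_top (by norm_num) hmf0, ENNReal.mul_ne_top ?_ ?_⟩
    · exact ENNReal.rpow_ne_top_of_nonneg (by linarith) (ENNReal.mul_ne_top (by norm_num) hmf0)
    · rw [ENNReal.inv_ne_top]
      rw [Ne, tsub_eq_zero_iff_le, not_le]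
      exact ENNReal.ofReal_lt_one.2 hρ1
  refine ⟨_, hC, ?_⟩
  intro F hF C1 C2 C3 h1 h2 h3
  have hm : Measurable fun q : P × ℝ × X => ‖F q.1 q.2.1 q.2.2‖ₑ := hF.enorm
  have hmp : ∀ e : ℝ, Measurable fun q : P × ℝ × X => ‖F q.1 q.2.1 q.2.2‖ₑ ^ e :=
    fun e => hm.pow_const e
  have hmg : ∀ e : ℝ, Measurable fun q : P × ℝ => ∫⁻ x, ‖F q.1 q.2 x‖ₑ ^ e ∂ν := by
    intro e
    have h4 : Measurable fun q : (P × ℝ) × X => ‖F q.1.1 q.1.2 q.2‖ₑ ^ e :=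
      (hmp e).comp (measurable_fst.fst.prodMk (measurable_fst.snd.prodMk measurable_snd))
    exact h4.lintegral_prod_right'
  have hmS : ∀ (e : ℝ) (s : Set ℝ), Measurable fun l : P =>
      ∫⁻ t in s, (∫⁻ x, ‖F l t x‖ₑ ^ e ∂ν) := fun e s => (hmg e).lintegral_prod_right'
  -- triple integrals as integrals over the product
  have hprod : ∀ (e : ℝ) (s : Set ℝ), ∫⁻ q : P × ℝ × X, ‖F q.1 q.2.1 q.2.2‖ₑ ^ e
      ∂(π'.prod ((volume.restrict s).prod ν)) =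
      ∫⁻ l, (∫⁻ t in s, (∫⁻ x, ‖F l t x‖ₑ ^ e ∂ν)) ∂π' := by
    intro e s
    rw [lintegral_prod _ (hmp e).aemeasurable]
    refine lintegral_congr fun l => ?_
    rw [lintegral_prod]
    exact ((hmp e).comp (measurable_const.prodMk measurable_id)).aemeasurable
  -- second moments
  have hsec : ∀ s : Set ℝ, ∫⁻ l, (∫⁻ t in s, (∫⁻ x, ‖F l t x‖ₑ ^ (2:ℝ) ∂ν)) ∂π' ≤
      C1 * volume s * m0 := by
    intro s
    calc ∫⁻ l, (∫⁻ t in s, (∫⁻ x, ‖F l t x‖ₑ ^ (2:ℝ) ∂ν)) ∂π' ≤ ∫⁻ _l : P, (∫⁻ _t in s, C1) ∂π' :=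
          lintegral_mono fun l => lintegral_mono fun t => h1 l t
      _ = C1 * volume s * m0 := by
          simp only [lintegral_const, Measure.restrict_apply MeasurableSet.univ, univ_inter, hm00]
  -- small times
  have hA : ∫⁻ l, (∫⁻ t in {t : ℝ | |t| ≤ 1}, (∫⁻ x, ‖F l t x‖ₑ ^ p ∂ν)) ∂π' ≤
      2 * m0 * (C2 ^ (p - 2) * C1) := by
    calc ∫⁻ l, (∫⁻ t in {t : ℝ | |t| ≤ 1}, (∫⁻ x, ‖F l t x‖ₑ ^ p ∂ν)) ∂π'
        ≤ ∫⁻ _l : P, (∫⁻ _t in {t : ℝ | |t| ≤ 1}, C2 ^ (p - 2) * C1) ∂π' := by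
          refine lintegral_mono fun l => lintegral_mono fun t => ?_
          calc ∫⁻ x, ‖F l t x‖ₑ ^ p ∂ν ≤ C2 ^ (p - 2) * ∫⁻ x, ‖F l t x‖ₑ ^ (2:ℝ) ∂ν :=
                lintegral_rpow_le_sup _
                  (hm.comp (measurable_const.prodMk (measurable_const.prodMk measurable_id)))
                  zero_le_two hp.le C2 (fun x => h2 l t x)
            _ ≤ C2 ^ (p - 2) * C1 := by
                gcongr
                exact h1 l t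
      _ = C2 ^ (p - 2) * C1 * volume {t : ℝ | |t| ≤ 1} * m0 := by
          simp only [lintegral_const, Measure.restrict_apply MeasurableSet.univ, univ_inter, hm00]
      _ ≤ 2 * m0 * (C2 ^ (p - 2) * C1) := by
          have h4 : {t : ℝ | |t| ≤ 1} = Icc (-1) 1 := by
            ext t
            rw [mem_ofPred_eq, mem_Icc]
            exact abs_le
          rw [h4, Real.volume_Icc]
          norm_num
          exact le_of_eq (by ring)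
  -- shells
  have hB : ∀ i : ℕ, ∫⁻ l, (∫⁻ t in {t : ℝ | (2:ℝ) ^ i ≤ |t| ∧ |t| ≤ 2 * 2 ^ i},
      (∫⁻ x, ‖F l t x‖ₑ ^ p ∂ν)) ∂π' ≤
      (2 * m0) ^ ((4 - p) / 2) * (C1 ^ ((4 - p) / 2) * C3 ^ ((p - 2) / 2)) * ENNReal.ofReal ρ ^ i := by
    intro i
    have hT : (1:ℝ) ≤ 2 ^ i := one_le_pow₀ one_le_two
    have h4 := h3 _ hT
    rw [← hprod] at h4 ⊢
    have h5 := hsec {t : ℝ | (2:ℝ) ^ i ≤ |t| ∧ |t| ≤ 2 * 2 ^ i}
    rw [← hprod] at h5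
    have h6 := lintegral_interp (μ := π'.prod
      ((volume.restrict {t : ℝ | (2:ℝ) ^ i ≤ |t| ∧ |t| ≤ 2 * 2 ^ i}).prod ν)) _ hm
      (p := p) (q := 4) (a := (4 - p) / 2) (by linarith) (by linarith) (by norm_num) (by ring)
    have e1 : 1 - (4 - p) / 2 = (p - 2) / 2 := by ring
    rw [e1] at h6
    refine h6.trans ?_
    have h7 : C1 * volume {t : ℝ | (2:ℝ) ^ i ≤ |t| ∧ |t| ≤ 2 * 2 ^ i} * m0 ≤
        2 * m0 * C1 * ENNReal.ofReal (2 ^ i) := by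
      calc C1 * volume {t : ℝ | (2:ℝ) ^ i ≤ |t| ∧ |t| ≤ 2 * 2 ^ i} * m0 ≤
          C1 * ENNReal.ofReal (2 * 2 ^ i) * m0 := by
            gcongr
            exact hts_vol _ (by linarith)
        _ = 2 * m0 * C1 * ENNReal.ofReal (2 ^ i) := by
            rw [ENNReal.ofReal_mul zero_le_two, ENNReal.ofReal_ofNat]
            ring
    calc _ ≤ (2 * m0 * C1 * ENNReal.ofReal (2 ^ i)) ^ ((4 - p) / 2) *
          (C3 * ENNReal.ofReal ((2 ^ i) ^ (-β))) ^ ((p - 2) / 2) :=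
          mul_le_mul' (ENNReal.rpow_le_rpow (h5.trans h7) (by linarith))
            (ENNReal.rpow_le_rpow h4 (by linarith))
      _ = (2 * m0) ^ ((4 - p) / 2) * (C1 ^ ((4 - p) / 2) * C3 ^ ((p - 2) / 2)) *
          (ENNReal.ofReal (2 ^ i) ^ ((4 - p) / 2) *
            ENNReal.ofReal ((2 ^ i) ^ (-β)) ^ ((p - 2) / 2)) := by
          rw [ENNReal.mul_rpow_of_nonneg _ _ (by linarith : 0 ≤ (4 - p) / 2),
            ENNReal.mul_rpow_of_nonneg _ _ (by linarith : 0 ≤ (4 - p) / 2),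
            ENNReal.mul_rpow_of_nonneg _ _ (by linarith : 0 ≤ (p - 2) / 2)]
          ring
      _ = _ := by
          congr 1
          rw [ENNReal.ofReal_rpow_of_nonneg (by positivity) (by linarith),
            ENNReal.ofReal_rpow_of_nonneg (by positivity) (by linarith),
            ← ENNReal.ofReal_mul (by positivity), ← ENNReal.ofReal_pow hρ0.le]
          congr 1
          rw [hρ, ← Real.rpow_natCast 2 i, ← Real.rpow_natCast ((2:ℝ) ^ (-δ)) i,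
            ← Real.rpow_mul zero_le_two, ← Real.rpow_mul zero_le_two, ← Real.rpow_mul zero_le_two,
            ← Real.rpow_mul zero_le_two, ← Real.rpow_add two_pos]
          congr 1
          rw [hδ]
          ring
  calc ∫⁻ l, (∫⁻ t : ℝ, (∫⁻ x, ‖F l t x‖ₑ ^ p ∂ν)) ∂π'
      ≤ ∫⁻ l, ((∫⁻ t in {t : ℝ | |t| ≤ 1}, (∫⁻ x, ‖F l t x‖ₑ ^ p ∂ν)) +
        ∑' i : ℕ, ∫⁻ t in {t : ℝ | (2:ℝ) ^ i ≤ |t| ∧ |t| ≤ 2 * 2 ^ i},
          (∫⁻ x, ‖F l t x‖ₑ ^ p ∂ν)) ∂π' := lintegral_mono fun l => hts_cover _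
    _ = (∫⁻ l, (∫⁻ t in {t : ℝ | |t| ≤ 1}, (∫⁻ x, ‖F l t x‖ₑ ^ p ∂ν)) ∂π') +
        ∑' i : ℕ, ∫⁻ l, (∫⁻ t in {t : ℝ | (2:ℝ) ^ i ≤ |t| ∧ |t| ≤ 2 * 2 ^ i},
          (∫⁻ x, ‖F l t x‖ₑ ^ p ∂ν)) ∂π' := by
        rw [lintegral_add_left (hmS p _), lintegral_tsum fun i => (hmS p _).aemeasurable]
    _ ≤ 2 * m0 * (C2 ^ (p - 2) * C1) +
        ∑' i : ℕ, (2 * m0) ^ ((4 - p) / 2) * (C1 ^ ((4 - p) / 2) * C3 ^ ((p - 2) / 2)) *
          ENNReal.ofReal ρ ^ i := add_le_add hA (ENNReal.tsum_le_tsum hB)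
    _ = 2 * m0 * (C2 ^ (p - 2) * C1) +
        (2 * m0) ^ ((4 - p) / 2) * (1 - ENNReal.ofReal ρ)⁻¹ *
          (C1 ^ ((4 - p) / 2) * C3 ^ ((p - 2) / 2)) := by
        rw [ENNReal.tsum_mul_left, ENNReal.tsum_geometric]
        ring
    _ ≤ _ := by
        obtain ⟨A, hA'⟩ : ∃ A, A = 2 * m0 := ⟨_, rfl⟩
        obtain ⟨B, hB'⟩ : ∃ B, B = (2 * m0) ^ ((4 - p) / 2) * (1 - ENNReal.ofReal ρ)⁻¹ := ⟨_, rfl⟩
        obtain ⟨U, hU⟩ : ∃ U, U = C2 ^ (p - 2) * C1 := ⟨_, rfl⟩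
        obtain ⟨V, hV⟩ : ∃ V, V = C1 ^ ((4 - p) / 2) * C3 ^ ((p - 2) / 2) := ⟨_, rfl⟩
        rw [← hB', ← hU, ← hV, ← hA']
        calc A * U + B * V ≤ (A + B) * U + (A + B) * V :=
              add_le_add (mul_le_mul' le_self_add le_rfl) (mul_le_mul' le_add_self le_rfl)
          _ = (A + B) * (U + V) := by ring

end Pool.Agent.MST
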