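import Pool.Agent.MST.ED3
import Pool.Agent.MST.ED4
import Pool.Agent.MST.L6
import Pool.Agent.MST.TS

namespace Pool.Agent.MST

open MeasureTheory Set Pool.Agent.MP_6cbfb8_an
open scoped ENNReal NNReal Real

theorem hed5_meas (Φ : ℝ × ℝ × E 2 → ℝ≥0∞) (hΦ : Measurable Φ) (T : ℝ) :
    Measurable fun s : ℝ => ∫⁻ t in {t : ℝ | T ≤ |t| ∧ |t| ≤ 2 * T}, ∫⁻ x : E 2, Φ (s, t, x) := by
  have h4 : Measurable fun q : (ℝ × ℝ) × E 2 => (q.1.1, q.1.2, q.2) := by fun_prop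
  have h3 : Measurable fun q : (ℝ × ℝ) × E 2 => Φ (q.1.1, q.1.2, q.2) := hΦ.comp h4
  have h5 : Measurable fun q : ℝ × ℝ => ∫⁻ x : E 2, Φ (q.1, q.2, x) := h3.lintegral_prod_right'
  exact h5.lintegral_prod_right'

/-- the averaged bound for `psi` -/
theorem hed5_avg (a : ℝ → ℝ) (ha : Cut3 a) (s0 s1 : ℝ) (h0 : 0 < s0) (h1 : s0 < s1) (e : ℝ)
    (he : 0 < e) (he1 : e ≤ 1) : ∃ C : ℝ, 0 ≤ C ∧ ∀ κ T : ℝ, 0 < κ → κ ≤ 1 → 0 < T →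
    ∀ G : E 2 → ℂ, Measurable G → (∀ w, ‖G w‖ ≤ 1) →
    ∫⁻ u in Icc s0 s1, psi a s0 κ T G u ≤
      ENNReal.ofReal (C * (T ^ (-1 + e) * κ ^ (6:ℝ))) := by
  obtain ⟨C1, hC1, H1⟩ := shell_six a (cut3_cut a ha) s0 s1 h0 h1 (e / 2) (by linarith)
    (by linarith)
  obtain ⟨C2, hC2, H2⟩ := shell_six (deriv a) (cut_deriv a ha) s0 s1 h0 h1 (e / 2) (by linarith)
    (by linarith)
  obtain ⟨C3, hC3, H3⟩ := shell_six (divs a) (cut_divs a (cut3_cut a ha)) s0 s1 h0 h1 (e / 2)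
    (by linarith) (by linarith)
  have hC : C1 + C2 + C3 ≠ ∞ := ENNReal.add_ne_top.2 ⟨ENNReal.add_ne_top.2 ⟨hC1, hC2⟩, hC3⟩
  refine ⟨(C1 + C2 + C3).toReal, ENNReal.toReal_nonneg, fun κ T hκ hκ1 hT G hG hb => ?_⟩
  have e1 : 2 * (e / 2) = e := by ring
  have hm : ∀ b : ℝ → ℝ, Cut b → ∀ g : E 2 → ℂ, Measurable g → Measurable fun u : ℝ =>
      ∫⁻ t in {t : ℝ | T ≤ |t| ∧ |t| ≤ 2 * T}, ∫⁻ x : E 2, ‖op b κ u t g x‖ₑ ^ (4:ℝ) := by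
    intro b hb g hg
    have h2 : Measurable fun q : ℝ × ℝ × E 2 => ‖op b κ q.1 q.2.1 g q.2.2‖ₑ ^ (4:ℝ) :=
      (measurable_op b hb κ g hg).enorm.pow_const _
    exact hed5_meas _ h2 T
  have r1 := H1 κ T hκ hκ1 hT G hG hb
  have r2 := H2 κ T hκ hκ1 hT (rg s0 G) (measurable_rg s0 G hG) (norm_rg_le s0 h0 G hb)
  have r3 := H3 κ T hκ hκ1 hT (rg s0 G) (measurable_rg s0 G hG) (norm_rg_le s0 h0 G hb)
  rw [e1] at r1 r2 r3
  unfold psi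
  have m1 := hm a (cut3_cut a ha) G hG
  have m2 := hm (deriv a) (cut_deriv a ha) (rg s0 G) (measurable_rg s0 G hG)
  have m12 := m1.add m2
  have q1 : ∀ f1 f2 f3 : ℝ → ℝ≥0∞, Measurable f1 → Measurable f2 →
      ∫⁻ u in Icc s0 s1, (f1 u + f2 u + f3 u) = (∫⁻ u in Icc s0 s1, f1 u) +
        (∫⁻ u in Icc s0 s1, f2 u) + ∫⁻ u in Icc s0 s1, f3 u := by
    intro f1 f2 f3 g1 g2
    rw [lintegral_add_left (show Measurable fun u => f1 u + f2 u from g1.add g2),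
      lintegral_add_left g1]
  rw [q1 _ _ _ m1 m2]
  refine (add_le_add (add_le_add r1 r2) r3).trans (le_of_eq ?_)
  rw [ENNReal.ofReal_mul ENNReal.toReal_nonneg, ENNReal.ofReal_toReal hC]
  ring

theorem hed5_sum (x y : ℝ) (hx : 0 < x) (hy : 0 < y) :
    Summable fun q : ℕ × ℕ => (2:ℝ) ^ (-(x * q.1)) * 2 ^ (-(y * q.2)) := by
  have h : ∀ z : ℝ, 0 < z → Summable fun n : ℕ => (2:ℝ) ^ (-(z * n)) := by
    intro z hz
    have h1 : ∀ n : ℕ, (2:ℝ) ^ (-(z * n)) = ((2:ℝ) ^ (-z)) ^ n := by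
      intro n
      rw [← Real.rpow_natCast, ← Real.rpow_mul (by norm_num)]
      congr 1
      ring
    simp_rw [h1]
    exact summable_geometric_of_lt_one (by positivity)
      (Real.rpow_lt_one_of_one_lt_of_neg one_lt_two (by linarith))
  exact Summable.mul_of_nonneg (h x hx) (h y hy) (fun _ => by positivity) (fun _ => by positivity)

theorem hed5_alg (C d β e : ℝ) (k i : ℕ) :
    C * ((2:ℝ) ^ i) ^ (-1 + e) * ((1 / 2 : ℝ) ^ k) ^ (6:ℝ) /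
      (((1 / 2 : ℝ) ^ k) ^ (4 + e) * ((2:ℝ) ^ i) ^ (-(β + e))) * 2 ^ (2 * k + i) *
      ((1 / 2 : ℝ) ^ (2 * k + i)) ^ d =
    C * ((2:ℝ) ^ (-((2 * d - e) * k)) * 2 ^ (-((d - β - 2 * e) * i))) := by
  have e1 : ∀ n : ℕ, (1 / 2 : ℝ) ^ n = 2 ^ (-(n:ℝ)) := by
    intro n
    rw [Real.rpow_neg (by norm_num), Real.rpow_natCast]
    simp
  have e2 : ∀ n : ℕ, (2 : ℝ) ^ n = 2 ^ (n:ℝ) := fun n => (Real.rpow_natCast 2 n).symm
  rw [e1 k, e1 (2 * k + i), e2 i, e2 (2 * k + i)]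
  simp only [← Real.rpow_mul (by norm_num : (0:ℝ) ≤ 2)]
  have e3 : ∀ x : ℝ, (2:ℝ) ^ x ≠ 0 := fun x => (Real.rpow_pos_of_pos two_pos x).ne'
  rw [← Real.rpow_add two_pos, mul_assoc C, ← Real.rpow_add two_pos, mul_div_assoc,
    ← Real.rpow_sub two_pos, mul_assoc, mul_assoc, ← Real.rpow_add two_pos,
    ← Real.rpow_add two_pos, ← Real.rpow_add two_pos]
  congr 2
  push_cast
  ring

/-- crude bound on a shell -/
theorem hed5_crude (a : ℝ → ℝ) (ha : Cut a) (s0 : ℝ) (h0 : 0 < s0) (κ s T : ℝ) (hκ : 0 < κ)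
    (hκ1 : κ ≤ 1) (hs : s0 ≤ s) (hT : 0 ≤ T) (G : E 2 → ℂ) (hG : Measurable G)
    (hb : ∀ w, ‖G w‖ ≤ 1) :
    ∫⁻ t in {t : ℝ | T ≤ |t| ∧ |t| ≤ 2 * T}, ∫⁻ x : E 2, ‖op a κ s t G x‖ₑ ^ (4:ℝ) ≠ ∞ := by
  obtain ⟨c1, hc1, H1⟩ := strip_sup a ha s0 h0
  obtain ⟨c2, hc2, H2⟩ := strip_L2 a ha s0 h0
  have h3 : ∀ t : ℝ, ∫⁻ x : E 2, ‖op a κ s t G x‖ₑ ^ (4:ℝ) ≤
      ENNReal.ofReal (c1 * κ ^ 2) ^ (2:ℝ) * ENNReal.ofReal (c2 * κ ^ 2) := by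
    intro t
    have h4 : ∀ x : E 2, ‖op a κ s t G x‖ₑ ^ (4:ℝ) ≤
        ENNReal.ofReal (c1 * κ ^ 2) ^ (2:ℝ) * ‖op a κ s t G x‖ₑ ^ (2:ℝ) := by
      intro x
      have h5 : ‖op a κ s t G x‖ₑ ≤ ENNReal.ofReal (c1 * κ ^ 2) := by
        rw [← ofReal_norm]
        exact ENNReal.ofReal_le_ofReal (H1 κ s t hκ hκ1 hs G hG hb x)
      rw [show (4:ℝ) = 2 + 2 by norm_num, ENNReal.rpow_add_of_nonneg _ _ (by norm_num) (by norm_num)]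
      gcongr
    calc _ ≤ ∫⁻ x : E 2, ENNReal.ofReal (c1 * κ ^ 2) ^ (2:ℝ) * ‖op a κ s t G x‖ₑ ^ (2:ℝ) :=
          lintegral_mono h4
      _ = ENNReal.ofReal (c1 * κ ^ 2) ^ (2:ℝ) * ∫⁻ x : E 2, ‖op a κ s t G x‖ₑ ^ (2:ℝ) :=
          lintegral_const_mul' _ _ (ENNReal.rpow_ne_top_of_nonneg (by norm_num)
            ENNReal.ofReal_ne_top)
      _ ≤ _ := by
          gcongr
          exact H2 κ s t hκ hκ1 hs G hG hb
  refine ne_of_lt (lt_of_le_of_lt (lintegral_mono h3) ?_)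
  rw [setLIntegral_const]
  refine ENNReal.mul_lt_top (ENNReal.mul_lt_top (ENNReal.rpow_lt_top_of_nonneg (by norm_num)
    ENNReal.ofReal_ne_top) ENNReal.ofReal_lt_top) ?_
  exact (hts_vol T hT).trans_lt ENNReal.ofReal_lt_top

/-- from dyadic shells to all shells -/
theorem hed5_shell (g : ℝ → ℝ≥0∞) (M : ℝ≥0∞) (c b : ℝ) (hc : 0 ≤ c) (hb : 0 ≤ b)
    (h : ∀ i : ℕ, ∫⁻ t in {t : ℝ | (2:ℝ) ^ i ≤ |t| ∧ |t| ≤ 2 * 2 ^ i}, g t ≤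
      M * ENNReal.ofReal (c * ((2:ℝ) ^ i) ^ (-b))) (T : ℝ) (hT : 1 ≤ T) :
    ∫⁻ t in {t : ℝ | T ≤ |t| ∧ |t| ≤ 2 * T}, g t ≤
      2 * M * ENNReal.ofReal (2 ^ b) * ENNReal.ofReal c * ENNReal.ofReal (T ^ (-b)) := by
  obtain ⟨i, hi1, hi2⟩ := exists_nat_pow_near hT (one_lt_two (α := ℝ))
  have hsub : {t : ℝ | T ≤ |t| ∧ |t| ≤ 2 * T} ⊆ {t : ℝ | (2:ℝ) ^ i ≤ |t| ∧ |t| ≤ 2 * 2 ^ i} ∪
      {t : ℝ | (2:ℝ) ^ (i + 1) ≤ |t| ∧ |t| ≤ 2 * 2 ^ (i + 1)} := by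
    rintro t ⟨h1, h2⟩
    by_cases h3 : |t| ≤ 2 * 2 ^ i
    · exact Or.inl ⟨hi1.trans h1, h3⟩
    · right
      refine ⟨?_, by linarith⟩
      rw [pow_succ]
      linarith [not_le.1 h3]
  have hp : (0:ℝ) < 2 ^ i := by positivity
  have hT0 : 0 < T := by linarith
  have hle : ((2:ℝ) ^ i) ^ (-b) ≤ 2 ^ b * T ^ (-b) := by
    have h5 : T / 2 ≤ 2 ^ i := by
      rw [pow_succ] at hi2
      linarith
    calc ((2:ℝ) ^ i) ^ (-b) ≤ (T / 2) ^ (-b) :=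
          Real.rpow_le_rpow_of_nonpos (by positivity) h5 (by linarith)
      _ = 2 ^ b * T ^ (-b) := by
          rw [Real.div_rpow hT0.le (by norm_num), Real.rpow_neg (by norm_num : (0:ℝ) ≤ 2)]
          field_simp
  have hle2 : ((2:ℝ) ^ (i + 1)) ^ (-b) ≤ ((2:ℝ) ^ i) ^ (-b) :=
    Real.rpow_le_rpow_of_nonpos hp (by rw [pow_succ]; linarith) (by linarith)
  calc ∫⁻ t in {t : ℝ | T ≤ |t| ∧ |t| ≤ 2 * T}, g t
      ≤ ∫⁻ t in ({t : ℝ | (2:ℝ) ^ i ≤ |t| ∧ |t| ≤ 2 * 2 ^ i} ∪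
        {t : ℝ | (2:ℝ) ^ (i + 1) ≤ |t| ∧ |t| ≤ 2 * 2 ^ (i + 1)}), g t := lintegral_mono_set hsub
    _ ≤ (∫⁻ t in {t : ℝ | (2:ℝ) ^ i ≤ |t| ∧ |t| ≤ 2 * 2 ^ i}, g t) +
        ∫⁻ t in {t : ℝ | (2:ℝ) ^ (i + 1) ≤ |t| ∧ |t| ≤ 2 * 2 ^ (i + 1)}, g t :=
        lintegral_union_le _ _ _
    _ ≤ M * ENNReal.ofReal (c * (2 ^ b * T ^ (-b))) +
        M * ENNReal.ofReal (c * (2 ^ b * T ^ (-b))) := by
        refine add_le_add ((h i).trans ?_) ((h (i + 1)).trans ?_)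
        · gcongr
        · gcongr
          exact hle2.trans hle
    _ = _ := by
        rw [ENNReal.ofReal_mul hc, ENNReal.ofReal_mul (by positivity)]
        ring

theorem strip_exc (a : ℝ → ℝ) (ha : Cut3 a) (s0 s1 : ℝ) (h0 : 0 < s0) (h1 : s0 < s1) (p : ℝ)
    (hp : 2 < p) (hp4 : p < 4) (d : ℝ≥0) (hd : (4 - p) / (p - 2) < d) : ∃ ε : ℝ, 0 < ε ∧
    ∀ G : E 2 → ℂ, Measurable G → (∀ w, ‖G w‖ ≤ 1) →
    ∃ X : Set ℝ, dimH X ≤ d ∧ ∀ s ∈ Icc s0 s1, s ∉ X → ∃ C : ℝ≥0∞, C ≠ ∞ ∧ ∀ k : ℕ,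
      ∫⁻ t : ℝ, ∫⁻ x : E 2, ‖op a ((1 / 2) ^ k) s t G x‖ₑ ^ p ≤
        C * ENNReal.ofReal (((1 / 2 : ℝ) ^ k) ^ (p + ε)) := by
  have hcut := cut3_cut a ha
  obtain ⟨β, hβ⟩ : ∃ β : ℝ, β = (4 - p) / (p - 2) := ⟨_, rfl⟩
  have hp2 : 0 < p - 2 := by linarith
  have hβ0 : 0 < β := by rw [hβ]; exact div_pos (by linarith) hp2
  have hβp : β * (p - 2) = 4 - p := by rw [hβ]; field_simp
  rw [← hβ] at hd
  obtain ⟨e, he⟩ : ∃ e : ℝ, e = min 1 ((d - β) / 4) := ⟨_, rfl⟩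
  have he0 : 0 < e := by
    rw [he]
    exact lt_min one_pos (by linarith)
  have he1 : e ≤ 1 := by rw [he]; exact min_le_left _ _
  have he2 : 4 * e ≤ d - β := by
    have : e ≤ (d - β) / 4 := by rw [he]; exact min_le_right _ _
    linarith
  obtain ⟨ε, hε⟩ : ∃ ε : ℝ, ε = min (p - 2) (e * (p - 2) / 2) := ⟨_, rfl⟩
  have hε0 : 0 < ε := by
    rw [hε]
    exact lt_min hp2 (by positivity)
  have hε1 : ε ≤ p - 2 := by rw [hε]; exact min_le_left _ _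
  have hε2 : ε ≤ e * (p - 2) / 2 := by rw [hε]; exact min_le_right _ _
  refine ⟨ε, hε0, fun G hG hb => ?_⟩
  obtain ⟨CA, hCA, HA⟩ := hed5_avg a ha s0 s1 h0 h1 e he0 he1
  have hkpos : ∀ k : ℕ, (0:ℝ) < (1 / 2) ^ k := fun k => by positivity
  have hkle : ∀ k : ℕ, (1 / 2 : ℝ) ^ k ≤ 1 := fun k => pow_le_one₀ (by norm_num) (by norm_num)
  have hTpos : ∀ i : ℕ, (0:ℝ) < 2 ^ i := fun i => by positivity
  obtain ⟨X, hX, HX⟩ := exc_cover s0 s1 h1 d (fun q => 2 * q.1 + q.2) (fun q => by omega)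
    (fun q => psi a s0 ((1 / 2) ^ q.1) (2 ^ q.2) G) (fun q => measurable_psi a ha s0 _ _ G hG)
    (fun q => CA * ((2:ℝ) ^ q.2) ^ (-1 + e) * ((1 / 2 : ℝ) ^ q.1) ^ (6:ℝ))
    (fun q => ((1 / 2 : ℝ) ^ q.1) ^ (4 + e) * ((2:ℝ) ^ q.2) ^ (-(β + e)))
    (fun q => by positivity) (fun q => by positivity)
    (fun q => by
      refine (HA _ _ (hkpos q.1) (hkle q.1) (hTpos q.2) G hG hb).trans (le_of_eq ?_)
      rw [mul_assoc])
    (by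
      have e1 : (fun q : ℕ × ℕ => CA * ((2:ℝ) ^ q.2) ^ (-1 + e) * ((1 / 2 : ℝ) ^ q.1) ^ (6:ℝ) /
          (((1 / 2 : ℝ) ^ q.1) ^ (4 + e) * ((2:ℝ) ^ q.2) ^ (-(β + e))) * 2 ^ (2 * q.1 + q.2) *
          ((1 / 2 : ℝ) ^ (2 * q.1 + q.2)) ^ (d : ℝ)) = fun q : ℕ × ℕ =>
          CA * ((2:ℝ) ^ (-((2 * d - e) * q.1)) * 2 ^ (-((d - β - 2 * e) * q.2))) :=
        funext fun q => hed5_alg CA d β e q.1 q.2
      rw [e1]
      exact (hed5_sum (2 * d - e) (d - β - 2 * e) (by linarith) (by linarith)).mul_left CA)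
  refine ⟨X, hX, fun s hs hsX => ?_⟩
  obtain ⟨F, hF, HF⟩ := HX s hs hsX
  obtain ⟨C4, hC4, H4⟩ := sup_four a ha s0 s1 h0 h1
  obtain ⟨Φ, hΦ⟩ : ∃ Φ : ℕ × ℕ → ℝ≥0∞, Φ = fun q =>
      ∫⁻ t in {t : ℝ | (2:ℝ) ^ q.2 ≤ |t| ∧ |t| ≤ 2 * 2 ^ q.2},
        ∫⁻ x : E 2, ‖op a ((1 / 2) ^ q.1) s t G x‖ₑ ^ (4:ℝ) := ⟨_, rfl⟩
  obtain ⟨Λ, hΛ⟩ : ∃ Λ : ℕ × ℕ → ℝ, Λ = fun q =>
      ((1 / 2 : ℝ) ^ q.1) ^ (4 + e) * ((2:ℝ) ^ q.2) ^ (-(β + e)) := ⟨_, rfl⟩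
  have hΛ0 : ∀ q, 0 < Λ q := fun q => by rw [hΛ]; positivity
  have hout : ∀ q, q ∉ F → Φ q ≤ C4 * ENNReal.ofReal (Λ q) := by
    intro q hq
    obtain ⟨α, b, h2, h3, h4, h5, h6, h7⟩ := HF q hq
    have h8 : b - α ≤ (s1 - s0) * (((1 / 2 : ℝ) ^ q.1) ^ 2 / 2 ^ q.2) := by
      rw [h6]
      refine le_of_eq ?_
      rw [pow_add, pow_mul, ← pow_mul, mul_comm 2 q.1, pow_mul, one_div, inv_pow]
      field_simp
    have h9 := H4 _ _ (hkpos q.1) (hkle q.1) (one_le_pow₀ (by norm_num : (1:ℝ) ≤ 2)) G hG hb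
      α b h2 h3 h4 h8 s h5
    rw [hΦ, hΛ]
    refine h9.trans ?_
    gcongr
  have hfin : ∀ q, Φ q ≠ ∞ := by
    intro q
    rw [hΦ]
    exact hed5_crude a hcut s0 h0 _ s _ (hkpos q.1) (hkle q.1) hs.1 (hTpos q.2).le G hG hb
  have hM : ∃ M : ℝ≥0∞, M ≠ ∞ ∧ ∀ q, Φ q ≤ M * ENNReal.ofReal (Λ q) := by
    refine ⟨C4 + ∑ q ∈ hF.toFinset, Φ q / ENNReal.ofReal (Λ q), ?_, fun q => ?_⟩
    · refine ENNReal.add_ne_top.2 ⟨hC4, ?_⟩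
      refine (ENNReal.sum_lt_top.2 fun q _ => ?_).ne
      exact ENNReal.div_lt_top (hfin q) (ENNReal.ofReal_pos.2 (hΛ0 q)).ne'
    · by_cases hq : q ∈ F
      · have h2 : Φ q / ENNReal.ofReal (Λ q) ≤
            ∑ q ∈ hF.toFinset, Φ q / ENNReal.ofReal (Λ q) :=
          Finset.single_le_sum (f := fun q => Φ q / ENNReal.ofReal (Λ q))
            (fun _ _ => zero_le) (hF.mem_toFinset.2 hq)
        calc Φ q = Φ q / ENNReal.ofReal (Λ q) * ENNReal.ofReal (Λ q) :=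
              (ENNReal.div_mul_cancel (ENNReal.ofReal_pos.2 (hΛ0 q)).ne'
                ENNReal.ofReal_ne_top).symm
          _ ≤ _ := by
              gcongr
              exact h2.trans le_add_self
      · refine (hout q hq).trans ?_
        gcongr
        exact le_self_add
  obtain ⟨M, hM, HM⟩ := hM
  obtain ⟨c1, hc1, K1⟩ := strip_sup a hcut s0 h0
  obtain ⟨c2, hc2, K2⟩ := strip_L2 a hcut s0 h0
  obtain ⟨Ct, hCt, Ht⟩ := time_sum (P := Unit) (X := E 2) (Measure.dirac ()) volume p (β + e) hp hp4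
    (by rw [add_mul, hβp]; nlinarith)
  obtain ⟨M', hM'⟩ : ∃ M' : ℝ≥0∞, M' = 2 * M * ENNReal.ofReal (2 ^ (β + e)) := ⟨_, rfl⟩
  have hM't : M' ≠ ∞ := by
    rw [hM']
    exact ENNReal.mul_ne_top (ENNReal.mul_ne_top (by norm_num) hM) ENNReal.ofReal_ne_top
  have hp20 : 0 ≤ (p - 2) / 2 := by linarith
  have hp40 : 0 ≤ (4 - p) / 2 := by linarith
  refine ⟨Ct * (ENNReal.ofReal (c1 ^ (p - 2) * c2) +
    ENNReal.ofReal (c2 ^ ((4 - p) / 2)) * M' ^ ((p - 2) / 2)), ?_, fun k => ?_⟩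
  · refine ENNReal.mul_ne_top hCt (ENNReal.add_ne_top.2 ⟨ENNReal.ofReal_ne_top,
      ENNReal.mul_ne_top ENNReal.ofReal_ne_top (ENNReal.rpow_ne_top_of_nonneg hp20 hM't)⟩)
  · obtain ⟨κ, hκ⟩ : ∃ κ : ℝ, κ = (1 / 2) ^ k := ⟨_, rfl⟩
    have hκ0 : 0 < κ := by rw [hκ]; exact hkpos k
    have hκ1 : κ ≤ 1 := by rw [hκ]; exact hkle k
    rw [← hκ]
    have hmeas : Measurable fun q : Unit × ℝ × E 2 => op a κ s q.2.1 G q.2.2 :=
      (measurable_op a hcut κ G hG).comp (g := fun q : ℝ × ℝ × E 2 => op a κ q.1 q.2.1 G q.2.2)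
        (f := fun q : Unit × ℝ × E 2 => (s, q.2.1, q.2.2)) (by fun_prop)
    have key := Ht (fun _ t x => op a κ s t G x) hmeas (ENNReal.ofReal (c2 * κ ^ 2))
      (ENNReal.ofReal (c1 * κ ^ 2)) (M' * ENNReal.ofReal (κ ^ (4 + e)))
      (fun _ t => K2 κ s t hκ0 hκ1 hs.1 G hG hb)
      (fun _ t x => by
        rw [← ofReal_norm]
        exact ENNReal.ofReal_le_ofReal (K1 κ s t hκ0 hκ1 hs.1 G hG hb x))
      (fun T hT => by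
        rw [lintegral_dirac]
        have h2 := hed5_shell (fun t => ∫⁻ x : E 2, ‖op a κ s t G x‖ₑ ^ (4:ℝ)) M (κ ^ (4 + e))
          (β + e) (by positivity) (by positivity) (fun i => by
            have h3 := HM (k, i)
            rw [hΦ, hΛ] at h3
            simp only at h3
            rw [← hκ] at h3
            exact h3) T hT
        refine h2.trans (le_of_eq ?_)
        rw [hM'])
    rw [lintegral_dirac] at key
    refine key.trans ?_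
    rw [mul_assoc]
    gcongr
    rw [add_mul]
    refine add_le_add ?_ ?_
    · rw [ENNReal.ofReal_rpow_of_nonneg (by positivity) hp2.le, ← ENNReal.ofReal_mul (by positivity),
        ← ENNReal.ofReal_mul (by positivity)]
      apply ENNReal.ofReal_le_ofReal
      have e1 : (c1 * κ ^ 2) ^ (p - 2) * (c2 * κ ^ 2) = c1 ^ (p - 2) * c2 * κ ^ (2 * p - 2) := by
        rw [Real.mul_rpow hc1.le (by positivity), ← Real.rpow_natCast κ 2, ← Real.rpow_mul hκ0.le]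
        rw [show c1 ^ (p - 2) * κ ^ (((2:ℕ):ℝ) * (p - 2)) * (c2 * κ ^ (((2:ℕ):ℝ))) =
          c1 ^ (p - 2) * c2 * (κ ^ (((2:ℕ):ℝ) * (p - 2)) * κ ^ (((2:ℕ):ℝ))) by ring,
          ← Real.rpow_add hκ0]
        congr 2
        push_cast
        ring
      rw [e1]
      have : κ ^ (2 * p - 2) ≤ κ ^ (p + ε) :=
        Real.rpow_le_rpow_of_exponent_ge hκ0 hκ1 (by linarith)
      gcongr
    · rw [ENNReal.mul_rpow_of_nonneg _ _ hp20,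
        ENNReal.ofReal_rpow_of_nonneg (by positivity) hp40,
        ENNReal.ofReal_rpow_of_nonneg (by positivity) hp20]
      have e1 : (c2 * κ ^ 2) ^ ((4 - p) / 2) = c2 ^ ((4 - p) / 2) * κ ^ (4 - p) := by
        rw [Real.mul_rpow hc2.le (by positivity), ← Real.rpow_natCast κ 2, ← Real.rpow_mul hκ0.le]
        congr 2
        push_cast
        ring
      have e2 : (κ ^ (4 + e)) ^ ((p - 2) / 2) = κ ^ ((4 + e) * ((p - 2) / 2)) :=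
        (Real.rpow_mul hκ0.le _ _).symm
      rw [e1, e2, ENNReal.ofReal_mul (by positivity)]
      rw [show ENNReal.ofReal (c2 ^ ((4 - p) / 2)) * ENNReal.ofReal (κ ^ (4 - p)) *
        (M' ^ ((p - 2) / 2) * ENNReal.ofReal (κ ^ ((4 + e) * ((p - 2) / 2)))) =
        ENNReal.ofReal (c2 ^ ((4 - p) / 2)) * M' ^ ((p - 2) / 2) * (ENNReal.ofReal (κ ^ (4 - p)) *
          ENNReal.ofReal (κ ^ ((4 + e) * ((p - 2) / 2)))) by ring]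
      gcongr
      rw [← ENNReal.ofReal_mul (by positivity), ← Real.rpow_add hκ0]
      apply ENNReal.ofReal_le_ofReal
      refine Real.rpow_le_rpow_of_exponent_ge hκ0 hκ1 ?_
      linarith

end Pool.Agent.MST
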