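import Pool.Agent.MST.ED5
import Pool.Agent.MST.CO
import Pool.Agent.MST.DE
import Pool.Agent.MP_6cbfb8_an.LiftE2

namespace Pool.Agent.MST

open MeasureTheory Set Pool.Agent.MP_6cbfb8_an
open scoped ENNReal NNReal Real

/-- The geometric weights: `ρ = (1/2)^(ε/(2p))`, ratio `θ < 1`. -/
theorem hed6_weights (p ε : ℝ) (hp0 : 0 < p) (hε : 0 < ε) : ∃ w : ℕ → ℝ≥0∞, ∃ θ : ℝ≥0∞,
    (∀ k, w k ≠ 0) ∧ (∀ k, w k ≠ ∞) ∧ ∑' k, w k ≠ ∞ ∧ θ < 1 ∧
    ∀ k : ℕ, (2 ^ k : ℝ≥0∞) ^ p / w k ^ p *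
      ENNReal.ofReal (((1 / 2 : ℝ) ^ k) ^ (p + ε)) = θ ^ k := by
  set ρ : ℝ := (1 / 2) ^ (ε / (2 * p)) with hρ
  have hρ0 : 0 < ρ := by positivity
  have hρ1 : ρ < 1 := Real.rpow_lt_one (by norm_num) (by norm_num) (by positivity)
  set w : ℕ → ℝ≥0∞ := fun k => ENNReal.ofReal ρ ^ k with hw
  have hwne : ENNReal.ofReal ρ ≠ 0 := (ENNReal.ofReal_pos.2 hρ0).ne'
  have hw0 : ∀ k, w k ≠ 0 := fun k => pow_ne_zero k hwne
  have hwt : ∀ k, w k ≠ ∞ := fun k => ENNReal.pow_ne_top ENNReal.ofReal_ne_top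
  have hWt : ∑' k, w k ≠ ∞ := by
    rw [hw, ENNReal.tsum_geometric]
    refine ENNReal.inv_ne_top.2 ?_
    rw [Ne, tsub_eq_zero_iff_le, not_le, ← ENNReal.ofReal_one]
    exact (ENNReal.ofReal_lt_ofReal_iff one_pos).2 hρ1
  set θ : ℝ≥0∞ := 2 ^ p / ENNReal.ofReal ρ ^ p * ENNReal.ofReal ((1 / 2) ^ (p + ε)) with hθ
  have hθ1 : θ < 1 := by
    have e2 : (2 : ℝ≥0∞) ^ p = ENNReal.ofReal (2 ^ p) := by
      rw [← ENNReal.ofReal_rpow_of_pos (by norm_num : (0:ℝ) < 2)]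
      norm_num
    rw [hθ, e2, ENNReal.ofReal_rpow_of_pos hρ0, ← ENNReal.ofReal_div_of_pos (by positivity),
      ← ENNReal.ofReal_mul (by positivity), ← ENNReal.ofReal_one]
    refine (ENNReal.ofReal_lt_ofReal_iff one_pos).2 ?_
    have e3 : (2:ℝ) ^ p / ρ ^ p * (1 / 2) ^ (p + ε) = (1 / 2) ^ (ε / 2) := by
      have e4 : ρ ^ p = (1 / 2) ^ (ε / 2) := by
        rw [hρ, ← Real.rpow_mul (by norm_num)]
        congr 1
        field_simp
      have e5 : (2:ℝ) ^ p = ((1 / 2 : ℝ) ^ p)⁻¹ := by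
        rw [← Real.inv_rpow (by norm_num)]
        norm_num
      rw [e4, e5, Real.rpow_add (by norm_num) p ε]
      have e6 : (1 / 2 : ℝ) ^ ε = (1 / 2) ^ (ε / 2) * (1 / 2) ^ (ε / 2) := by
        rw [← Real.rpow_add (by norm_num)]
        congr 1
        ring
      rw [e6]
      have e7 : (0:ℝ) < (1 / 2) ^ p := by positivity
      have e8 : (0:ℝ) < (1 / 2) ^ (ε / 2) := by positivity
      field_simp
    rw [e3]
    exact Real.rpow_lt_one (by norm_num) (by norm_num) (by positivity)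
  refine ⟨w, θ, hw0, hwt, hWt, hθ1, fun k => ?_⟩
  have e1 : ∀ (x : ℝ≥0∞), (x ^ k) ^ p = (x ^ p) ^ k := by
    intro x
    rw [← ENNReal.rpow_natCast, ← ENNReal.rpow_mul, ← ENNReal.rpow_natCast, ← ENNReal.rpow_mul,
      mul_comm]
  have e2 : ((1 / 2 : ℝ) ^ k) ^ (p + ε) = ((1 / 2) ^ (p + ε)) ^ k := by
    rw [← Real.rpow_natCast, ← Real.rpow_mul (by norm_num), ← Real.rpow_natCast,
      ← Real.rpow_mul (by norm_num), mul_comm]
  rw [e2, ENNReal.ofReal_pow (by positivity), hw]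
  simp only
  rw [e1, e1, hθ, mul_pow, ENNReal.div_eq_inv_mul, ENNReal.div_eq_inv_mul, mul_pow,
    ENNReal.inv_pow]

/-- `s ↦ (√s)⁻¹` is Lipschitz on `[s0, s1]`. -/
theorem hed6_lip (s0 s1 : ℝ) (h0 : 0 < s0) :
    LipschitzOnWith (Real.toNNReal (s0 * √s0)⁻¹) (fun s : ℝ => (√s)⁻¹) (Icc s0 s1) := by
  refine LipschitzOnWith.of_dist_le_mul fun x hx y hy => ?_
  have hx0 : 0 < x := h0.trans_le hx.1
  have hy0 : 0 < y := h0.trans_le hy.1
  have sx : 0 < √x := Real.sqrt_pos.2 hx0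
  have sy : 0 < √y := Real.sqrt_pos.2 hy0
  have s00 : 0 < √s0 := Real.sqrt_pos.2 h0
  have hx1 : √s0 ≤ √x := Real.sqrt_le_sqrt hx.1
  have hy1 : √s0 ≤ √y := Real.sqrt_le_sqrt hy.1
  have hsq : √s0 * √s0 = s0 := Real.mul_self_sqrt h0.le
  rw [Real.coe_toNNReal _ (by positivity), Real.dist_eq, Real.dist_eq]
  have e1 : (√x)⁻¹ - (√y)⁻¹ = (y - x) / ((√x + √y) * (√x * √y)) := by
    have e2 : y - x = (√y - √x) * (√x + √y) := by
      have := Real.mul_self_sqrt hx0.le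
      have := Real.mul_self_sqrt hy0.le
      nlinarith
    rw [e2]
    field_simp
  rw [e1, abs_div, abs_of_pos (by positivity : 0 < (√x + √y) * (√x * √y)), abs_sub_comm y x,
    inv_mul_eq_div]
  refine div_le_div_of_nonneg_left (abs_nonneg _) (by positivity) ?_
  have h3 : s0 ≤ √x * √y := by
    rw [← hsq]
    exact mul_le_mul hx1 hy1 s00.le sx.le
  have h4 : √s0 ≤ √x + √y := by linarith
  rw [mul_comm s0]
  exact mul_le_mul h4 h3 h0.le (by positivity)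

/-
ROW ED6 (1.2 h). The exceptional set of dilations in dimension three.
exc_up: a from dyadic3, cut3_cut; [s0, s1] = [(rb²)⁻¹, (ra²)⁻¹]. strip_exc gives ε and the set X. For r ∈ [ra, rb] with (r²)⁻¹ ∉ X:
hco_point (CO.lean) with the weights w k = (ofReal ((1/2)^(ε/(2p))))^k and strip_exc: the sum over k is a geometric series, as at the end of `core`
(CO.lean), so ∫⁻ ‖extn (up r G)‖^p < ∞. Hence the set is contained in the image of X ∩ [s0,s1] under s ↦ s^(-1/2) (or (√s)⁻¹), Lipschitz on [s0, s1]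
(e.g. Convex.lipschitzOnWith_of_nnnorm_deriv_le, or directly |1/√s - 1/√s'| ≤ |s-s'|/s0^(3/2)): LipschitzOnWith.dimH_image_le, dimH_mono.
exc_dens: the set is the union over n of the sets for [1/(n+2), n+2] (dimH_iUnion); dens_le: ∫⁻ ‖extn (dens r G)‖^p ≤ 2^(p+1) ∫⁻ ‖extn (up r G)‖^p.
For 2 < p < 4: dimH ≤ d for every d > (4-p)/(p-2) (ENNReal.le_of_forall_pos_le_add or le_of_forall_gt; ofReal). For p ≥ 4: the set is contained in the
set of every p' < 4 (lintegral_rpow_le_sup and liftE2_enorm_extn_le, as in AE.lean), (4-p')/(p'-2) → 0, and ofReal ((4-p)/(p-2)) = 0.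
-/
theorem exc_up (ra rb : ℝ) (h0 : 0 < ra) (h1 : ra < rb) (p : ℝ) (hp : 2 < p) (hp4 : p < 4)
    (d : ℝ≥0) (hd : (4 - p) / (p - 2) < d) (G : E 2 → ℂ) (hG : Measurable G)
    (hb : ∀ w, ‖G w‖ ≤ 1) :
    dimH {r : ℝ | r ∈ Icc ra rb ∧ ∫⁻ ξ : E 3, ‖extn (up r G) ξ‖ₑ ^ p = ∞} ≤ d := by
  obtain ⟨a, ha3, hs⟩ := dyadic3
  have ha : Cut a := cut3_cut a ha3
  have hrb : 0 < rb := h0.trans h1
  have hp0 : 0 < p := by linarith
  have hs01 : (rb ^ 2)⁻¹ < (ra ^ 2)⁻¹ := by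
    apply inv_strictAnti₀ (by positivity)
    exact pow_lt_pow_left₀ h1 h0.le two_ne_zero
  obtain ⟨ε, hε, hstrip⟩ := strip_exc a ha3 (rb ^ 2)⁻¹ (ra ^ 2)⁻¹ (by positivity) hs01 p hp hp4
    d hd
  obtain ⟨X, hX, hXs⟩ := hstrip G hG hb
  obtain ⟨w, θ, hw0, hwt, hWt, hθ1, hck⟩ := hed6_weights p ε hp0 hε
  have hmem : ∀ r ∈ Icc ra rb, (r ^ 2)⁻¹ ∈ Icc (rb ^ 2)⁻¹ (ra ^ 2)⁻¹ := by
    intro r hr
    have hr0 : 0 < r := by linarith [hr.1]
    exact ⟨inv_anti₀ (by positivity) (pow_le_pow_left₀ hr0.le hr.2 2),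
      inv_anti₀ (by positivity) (pow_le_pow_left₀ h0.le hr.1 2)⟩
  have hfin : ∀ r ∈ Icc ra rb, (r ^ 2)⁻¹ ∉ X →
      ∫⁻ ξ : E 3, ‖extn (up r G) ξ‖ₑ ^ p ≠ ∞ := by
    intro r hr hrX
    have hr0 : 0 < r := by linarith [hr.1]
    obtain ⟨C, hC, hCk⟩ := hXs _ (hmem r hr) hrX
    refine ne_top_of_le_ne_top ?_ (hco_point a ha hs p hp0 w hw0 hwt r hr0 G hG hb)
    refine ENNReal.mul_ne_top (ENNReal.mul_ne_top (ENNReal.mul_ne_top ?_ ?_)
      ENNReal.ofReal_ne_top) ?_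
    · exact ENNReal.rpow_ne_top_of_nonneg hp0.le ENNReal.ofReal_ne_top
    · exact ENNReal.rpow_ne_top_of_nonneg hp0.le hWt
    · have hθt : (1 - θ)⁻¹ ≠ ∞ := by
        refine ENNReal.inv_ne_top.2 ?_
        rw [Ne, tsub_eq_zero_iff_le, not_le]
        exact hθ1
      refine ne_top_of_le_ne_top (ENNReal.mul_ne_top hC hθt) ?_
      rw [← ENNReal.tsum_geometric, ← ENNReal.tsum_mul_left]
      refine ENNReal.tsum_le_tsum fun k => ?_
      rw [← hck k]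
      calc _ ≤ (2 ^ k) ^ p / w k ^ p *
              (C * ENNReal.ofReal (((1 / 2 : ℝ) ^ k) ^ (p + ε))) := by
            gcongr
            exact hCk k
        _ = _ := by ring
  have hsub : {r : ℝ | r ∈ Icc ra rb ∧ ∫⁻ ξ : E 3, ‖extn (up r G) ξ‖ₑ ^ p = ∞} ⊆
      (fun s : ℝ => (√s)⁻¹) '' (X ∩ Icc (rb ^ 2)⁻¹ (ra ^ 2)⁻¹) := by
    rintro r ⟨hr, hr2⟩
    have hr0 : 0 < r := by linarith [hr.1]
    refine ⟨(r ^ 2)⁻¹, ⟨?_, hmem r hr⟩, ?_⟩
    · by_contra hX2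
      exact hfin r hr hX2 hr2
    · simp only
      rw [Real.sqrt_inv, Real.sqrt_sq hr0.le, inv_inv]
  calc _ ≤ dimH ((fun s : ℝ => (√s)⁻¹) '' (X ∩ Icc (rb ^ 2)⁻¹ (ra ^ 2)⁻¹)) := dimH_mono hsub
    _ ≤ dimH (X ∩ Icc (rb ^ 2)⁻¹ (ra ^ 2)⁻¹) :=
        ((hed6_lip (rb ^ 2)⁻¹ (ra ^ 2)⁻¹ (by positivity)).mono inter_subset_right).dimH_image_le
    _ ≤ dimH X := dimH_mono inter_subset_left
    _ ≤ d := hX

/-- Exponents below `4`. -/
theorem hed6_lt (p : ℝ) (hp : 2 < p) (hp4 : p < 4) (G : E 2 → ℂ) (hG : Measurable G)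
    (hb : ∀ w, ‖G w‖ ≤ 1) (d : ℝ≥0) (hd : (4 - p) / (p - 2) < d) :
    dimH {r : ℝ | 0 < r ∧ ∫⁻ ξ : E 3, ‖extn (dens r G) ξ‖ₑ ^ p = ∞} ≤ d := by
  have hsub : {r : ℝ | 0 < r ∧ ∫⁻ ξ : E 3, ‖extn (dens r G) ξ‖ₑ ^ p = ∞} ⊆
      ⋃ n : ℕ, {r : ℝ | r ∈ Icc (1 / ((n : ℝ) + 2)) ((n : ℝ) + 2) ∧
        ∫⁻ ξ : E 3, ‖extn (up r G) ξ‖ₑ ^ p = ∞} := by
    rintro r ⟨hr0, hr⟩
    obtain ⟨n, hn⟩ := exists_nat_ge (max (1 / r) r)
    rw [mem_iUnion]
    refine ⟨n, ⟨?_, ?_⟩, ?_⟩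
    · have h3 := (le_max_left (1 / r) r).trans hn
      rw [div_le_iff₀ (by positivity)]
      rw [div_le_iff₀ hr0] at h3
      nlinarith
    · have h4 := (le_max_right (1 / r) r).trans hn
      linarith
    · by_contra h
      have h5 := dens_le p (by linarith) r G hG hb
      rw [hr] at h5
      have hc : (2 : ℝ≥0∞) ^ (p + 1) ≠ ∞ :=
        ENNReal.rpow_ne_top_of_nonneg (by linarith) ENNReal.ofNat_ne_top
      exact (ENNReal.mul_ne_top hc h) (top_le_iff.1 h5)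
  refine (dimH_mono hsub).trans ?_
  rw [dimH_iUnion]
  refine iSup_le fun n => ?_
  have hn : (0 : ℝ) ≤ n := Nat.cast_nonneg n
  refine exc_up _ _ (by positivity) ?_ p hp hp4 d hd G hG hb
  rw [div_lt_iff₀ (by positivity)]
  nlinarith

theorem hed6_measurable (G : E 2 → ℂ) (hG : Measurable G) (r : ℝ) : Measurable (dens r G) := by
  have h1 : Continuous fun x : E (2 + 1) => (fstE x : E 2) := by
    unfold fstE
    refine (PiLp.continuous_toLp 2 _).comp ?_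
    fun_prop
  exact hG.comp (h1.const_smul r).measurable

theorem exc_dens (p : ℝ) (hp : 2 < p) (G : E 2 → ℂ) (hG : Measurable G) (hb : ∀ w, ‖G w‖ ≤ 1) :
    dimH {r : ℝ | 0 < r ∧ ∫⁻ ξ : E 3, ‖extn (dens r G) ξ‖ₑ ^ p = ∞} ≤
      ENNReal.ofReal ((4 - p) / (p - 2)) := by
  refine le_of_forall_gt_imp_ge_of_dense fun c hc => ?_
  rcases eq_or_ne c ∞ with rfl | hct
  · exact le_top
  lift c to ℝ≥0 using hct
  rcases lt_or_ge p 4 with hp4 | hp4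
  · refine hed6_lt p hp hp4 G hG hb c ?_
    have h2 : (4 - p) / (p - 2) < ((c : ℝ≥0∞)).toReal :=
      (ENNReal.ofReal_lt_iff_lt_toReal (div_nonneg (by linarith) (by linarith))
        ENNReal.coe_ne_top).1 hc
    simpa using h2
  · have hc0 : (0 : ℝ) < c := by
      have : (0 : ℝ≥0∞) < (c : ℝ≥0∞) := lt_of_le_of_lt bot_le hc
      exact_mod_cast this
    set m : ℝ := min 1 ((c : ℝ) / 2) with hm
    have hm0 : 0 < m := lt_min one_pos (by linarith)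
    have hm1 : m ≤ 1 := min_le_left _ _
    have hmc : m < c := lt_of_le_of_lt (min_le_right _ _) (by linarith)
    have h6 : (4 - (4 - m)) / ((4 - m) - 2) < (c : ℝ) := by
      rw [div_lt_iff₀ (by linarith)]
      nlinarith
    refine (dimH_mono ?_).trans (hed6_lt (4 - m) (by linarith) (by linarith) G hG hb c h6)
    rintro r ⟨hr0, hr⟩
    refine ⟨hr0, ?_⟩
    by_contra h
    have h7 := lintegral_rpow_le_sup (μ := (volume : Measure (E 3))) (p := p) (p' := 4 - m)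
      (fun ξ : E 3 => ‖extn (dens r G) ξ‖ₑ)
      (measurable_extn _ (hed6_measurable G hG r)).enorm (by linarith) (by linarith) (sm 3 univ)
      (fun ξ => liftE2_enorm_extn_le _ (fun x => hb _) ξ)
    rw [hr] at h7
    exact (ENNReal.mul_ne_top (ENNReal.rpow_ne_top_of_nonneg (by linarith) (sm_univ_ne_top _)) h)
      (top_le_iff.1 h7)

end Pool.Agent.MST
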