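import Pool.Agent.MST.TR

namespace Pool.Agent.MST

open MeasureTheory Set Pool.Agent.MP_6cbfb8_an
open scoped ENNReal Real

/-- one cut in dimension three -/
theorem hed7_cut (cls : (E 2 → ℂ) → Prop) (q0 : ℝ) (hq0 : 2 < q0)
    (H : ∀ p : ℝ, q0 < p → ∃ C : ℝ≥0∞, C ≠ ∞ ∧ ∀ G : E 2 → ℂ, Measurable G → (∀ w, ‖G w‖ ≤ 1) →
      cls G → ∫⁻ ξ : E 3, ‖extn (fun x : E 3 => G (fstE (k := 2) (l := 1) x)) ξ‖ₑ ^ p ≤ C)
    (q : ℝ) (hq : q0 < q) : ∃ C : ℝ≥0∞, C ≠ ∞ ∧ ∀ G : E 2 → ℂ, Measurable G →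
      (∀ w, ‖G w‖ ≤ 1) → cls G → ∀ (v : Fin 1 → E 3) (c : Fin 1 → ℝ),
      ∫⁻ ξ, ‖extn (fun x : E 3 => G (fstE (k := 2) (l := 1) x) * ∏ i, hsn (c i) (v i) x) ξ‖ₑ ^ q ≤
        C := by
  obtain ⟨C, hC, h⟩ := multicut 3 le_rfl q0 (by linarith) (fun g => ∃ G : E 2 → ℂ, Measurable G ∧
    (∀ w, ‖G w‖ ≤ 1) ∧ cls G ∧ g = fun x : E 3 => G (fstE (k := 2) (l := 1) x)) (by
    intro p' hp'
    obtain ⟨C, hC, h⟩ := H p' hp'
    refine ⟨C, hC, ?_⟩
    rintro g _ _ ⟨G, hG, hb, hc, rfl⟩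
    exact h G hG hb hc) 1 q hq
  refine ⟨C, hC, fun G hG hb hc v c => ?_⟩
  exact h (fun x : E 3 => G (fstE (k := 2) (l := 1) x)) (htr_meas (l := 1) hG) (fun x => hb _)
    ⟨G, hG, hb, hc, rfl⟩ v c

/-- the base estimate -/
theorem hed7_base (cls : (E 2 → ℂ) → Prop) (q0 : ℝ) (hq0 : 2 < q0)
    (H : ∀ p : ℝ, q0 < p → ∃ C : ℝ≥0∞, C ≠ ∞ ∧ ∀ G : E 2 → ℂ, Measurable G → (∀ w, ‖G w‖ ≤ 1) →
      cls G → ∫⁻ ξ : E 3, ‖extn (fun x : E 3 => G (fstE (k := 2) (l := 1) x)) ξ‖ₑ ^ p ≤ C)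
    (j : ℕ) (q : ℝ) (hq : q0 < q) : ∃ C : ℝ≥0∞, C ≠ ∞ ∧ ∀ G : E 2 → ℂ, Measurable G →
      (∀ w, ‖G w‖ ≤ 1) → cls G →
      ∫⁻ ξ, ‖extn (tpow j (fun x : E 3 => G (fstE (k := 2) (l := 1) x)) : E 3 → ℂ) ξ‖ₑ ^ q ≤ C := by
  obtain ⟨C, hC, H⟩ := hed7_cut cls q0 hq0 H q hq
  rcases j with _ | j
  · refine ⟨C, hC, fun G hG hb hc => ?_⟩
    refine le_trans (le_of_eq ?_) (H G hG hb hc (fun _ => eLast 2) (fun _ => 0))
    refine lintegral_congr fun ξ => ?_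
    congr 3
    funext x
    rw [Fin.prod_univ_one]
    unfold tpow hsn
    rw [inner_eLast2]
    split_ifs <;> simp
  · refine ⟨C * powν j univ ^ q, ENNReal.mul_ne_top hC
      (ENNReal.rpow_ne_top_of_nonneg (by linarith) (measure_ne_top _ _)), fun G hG hb hc => ?_⟩
    have key := lintegral_mix_le (p := q) (C := C) (by linarith)
      (fun g : E 3 → ℂ => ∃ c : ℝ, g = fun x => G (fstE (k := 2) (l := 1) x) *
        ∏ _i : Fin 1, hsn c (eLast 2) x)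
      (by
        rintro g _ _ ⟨c, rfl⟩
        exact H G hG hb hc (fun _ => eLast 2) (fun _ => c))
      (powν j) (fun _ => LinearIsometryEquiv.refl ℝ (E 3)) (fun _ => 0)
      (fun c x => G (fstE (k := 2) (l := 1) x) * ∏ _i : Fin 1, hsn c (eLast 2) x)
      measurable_snd measurable_const (by
        have h1 : Measurable fun q : ℝ × E 3 => G (fstE (k := 2) (l := 1) q.2) :=
          (htr_meas (l := 1) hG).comp measurable_snd
        refine h1.mul ?_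
        simp only [Fin.prod_univ_one]
        unfold hsn
        refine Measurable.ite ?_ measurable_const measurable_const
        exact measurableSet_lt measurable_fst (by fun_prop))
      (fun c x => by
        rw [norm_mul, Fin.prod_univ_one]
        exact mul_le_one₀ (hb _) (norm_nonneg _) (norm_hsn_le _ _ _))
      (fun c => ⟨c, rfl⟩)
    refine le_trans (le_of_eq ?_) key
    have : extn (tpow (j + 1) (fun x : E 3 => G (fstE (k := 2) (l := 1) x)) : E 3 → ℂ) =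
        extn (mix (powν j) (fun _ => LinearIsometryEquiv.refl ℝ (E 3)) (fun _ => 0)
          (fun c x => G (fstE (k := 2) (l := 1) x) * ∏ _i : Fin 1, hsn c (eLast 2) x)) := by
      refine extn_congr_sphere fun x hx => ?_
      unfold mix
      simp only [Fin.prod_univ_one, inner_zero_right, mul_zero, Complex.ofReal_zero, zero_mul,
        Complex.exp_zero, one_mul, LinearIsometryEquiv.coe_refl, id]
      rw [integral_const_mul]
      have e1 : (fun c : ℝ => hsn c (eLast 2) x) =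
          (Iio (x (Fin.last 2))).indicator fun _ => (1:ℂ) := by
        funext c
        unfold hsn
        rw [inner_eLast2]
        by_cases h : c < x (Fin.last 2)
        · rw [if_pos h, indicator_of_mem (mem_Iio.2 h)]
        · rw [if_neg h, indicator_of_notMem]
          exact h
      rw [e1, integral_indicator_const _ measurableSet_Iio]
      unfold tpow Measure.real
      split_ifs with h
      · rw [powν_Iio j h ((le_abs_self _).trans ((abs_last_le x).trans hx.le)),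
          ENNReal.toReal_ofReal (by positivity)]
        simp
      · rw [powν_Iio_neg j (not_lt.1 h)]
        simp
    rw [this]

/-- the estimate without cuts -/
theorem hed7_longi (cls : (E 2 → ℂ) → Prop) (q0 : ℝ) (hq0 : 2 < q0)
    (H : ∀ p : ℝ, q0 < p → ∃ C : ℝ≥0∞, C ≠ ∞ ∧ ∀ G : E 2 → ℂ, Measurable G → (∀ w, ‖G w‖ ≤ 1) →
      cls G → ∫⁻ ξ : E 3, ‖extn (fun x : E 3 => G (fstE (k := 2) (l := 1) x)) ξ‖ₑ ^ p ≤ C)
    (l : ℕ) (hl : 1 ≤ l) (p : ℝ) (hp : 2 < p)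
    (hpq : 1 / (p - 2) < ((l : ℝ) - 1) / 2 + 1 / (q0 - 2)) :
    ∃ C : ℝ≥0∞, C ≠ ∞ ∧ ∀ G : E 2 → ℂ, Measurable G → (∀ w, ‖G w‖ ≤ 1) → cls G →
      ∫⁻ ξ, ‖extn (fun x : E (2 + l) => G (fstE x)) ξ‖ₑ ^ p ≤ C := by
  obtain rfl | hl2 : l = 1 ∨ 2 ≤ l := by omega
  · obtain ⟨C, hC, h⟩ := H p (by
      have h1 : 1 / (p - 2) < 1 / (q0 - 2) := by
        have e : (((1 : ℕ) : ℝ) - 1) / 2 + 1 / (q0 - 2) = 1 / (q0 - 2) := by norm_num
        rw [e] at hpq
        exact hpq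
      have h2 := (one_div_lt_one_div (by linarith) (by linarith)).1 h1
      linarith)
    exact ⟨C, hC, h⟩
  · obtain ⟨i, rfl⟩ : ∃ i, l = i + 2 := ⟨l - 2, by omega⟩
    obtain ⟨C, hC, H⟩ := lifting 1 i q0 hq0 (fun g => ∃ G : E 2 → ℂ, Measurable G ∧
      (∀ w, ‖G w‖ ≤ 1) ∧ cls G ∧ g = fun x : E 3 => G (fstE (k := 2) (l := 1) x)) (by
        intro j q hq
        obtain ⟨C, hC, H⟩ := hed7_base cls q0 hq0 H j q hq
        refine ⟨C, hC, ?_⟩
        rintro g _ _ ⟨G, hG, hb, hc, rfl⟩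
        exact H G hG hb hc) p hp (by
        refine hpq.trans_le (le_of_eq ?_)
        push_cast
        ring)
    refine ⟨C, hC, fun G hG hb hc => ?_⟩
    have := H (fun x : E 3 => G (fstE (k := 2) (l := 1) x)) (htr_meas (l := 1) hG)
      (fun x => hb _) ⟨G, hG, hb, hc, rfl⟩
    refine le_trans (le_of_eq ?_) this
    refine lintegral_congr fun ξ => ?_
    congr 3
    funext x
    unfold lift
    exact congrArg G (htr_fst_join (fstE x) _).symm


/-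
ROW ED7 (0.8 h). From one range of exponents on the sphere of R^3 to all dimensions, with half-space cuts. Exactly `transfer` (TR.lean, delivered:
copy htr_cut, htr_base, htr_longi, transfer) with the exponent 3 replaced by q0: multicut with n = 3, p0 = q0; htr_base for q > q0;
lifting with κ = 1, q₁ = q0, i = l-2 for l ≥ 2 (its hypothesis 1/(p-2) < (i+1)/2 + 1/(q0-2) is hpq); for l = 1 hpq says p > q0: use H.
Final multicut for n = 2 + l with p0 := 2 + 1/((l-1)/2 + 1/(q0-2)) (p > p0 iff hpq).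
-/
theorem transfer_at (cls : (E 2 → ℂ) → Prop) (q0 : ℝ) (hq0 : 2 < q0)
    (H : ∀ p : ℝ, q0 < p → ∃ C : ℝ≥0∞, C ≠ ∞ ∧ ∀ G : E 2 → ℂ, Measurable G → (∀ w, ‖G w‖ ≤ 1) →
      cls G → ∫⁻ ξ : E 3, ‖extn (fun x : E 3 => G (fstE (k := 2) (l := 1) x)) ξ‖ₑ ^ p ≤ C)
    (l : ℕ) (hl : 1 ≤ l) (N : ℕ) (p : ℝ) (hp : 2 < p)
    (hpq : 1 / (p - 2) < ((l : ℝ) - 1) / 2 + 1 / (q0 - 2)) :
    ∃ C : ℝ≥0∞, C ≠ ∞ ∧ ∀ G : E 2 → ℂ, Measurable G → (∀ w, ‖G w‖ ≤ 1) → cls G →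
      ∀ (v : Fin N → E (2 + l)) (c : Fin N → ℝ),
      ∫⁻ ξ, ‖extn (fun x : E (2 + l) => G (fstE x) * ∏ i, hsn (c i) (v i) x) ξ‖ₑ ^ p ≤ C := by
  have hq0' : 0 < q0 - 2 := by linarith
  have hl1 : (1:ℝ) ≤ l := by exact_mod_cast hl
  have hD : 0 < ((l : ℝ) - 1) / 2 + 1 / (q0 - 2) := by
    have h1 : 0 ≤ ((l : ℝ) - 1) / 2 := by linarith
    have h2 : 0 < 1 / (q0 - 2) := by positivity
    linarith
  set D := ((l : ℝ) - 1) / 2 + 1 / (q0 - 2) with hDdef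
  have hD1 : 0 < 1 / D := by positivity
  obtain ⟨C, hC, h⟩ := multicut (2 + l) (by omega) (2 + 1 / D) (by linarith)
    (fun g => ∃ G : E 2 → ℂ, Measurable G ∧ (∀ w, ‖G w‖ ≤ 1) ∧ cls G ∧
      g = fun x : E (2 + l) => G (fstE x)) (by
    intro p' hp'
    obtain ⟨C, hC, h⟩ := hed7_longi cls q0 hq0 H l hl p' (by linarith) (by
      rw [← hDdef, one_div_lt (by linarith) hD]
      linarith)
    refine ⟨C, hC, ?_⟩
    rintro g _ _ ⟨G, hG, hb, hc, rfl⟩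
    exact h G hG hb hc) N p (by
    have h1 : 1 / D < p - 2 := by
      rw [one_div_lt hD (by linarith)]
      exact hpq
    linarith)
  refine ⟨C, hC, fun G hG hb hc v c => ?_⟩
  exact h (fun x : E (2 + l) => G (fstE x)) (htr_meas hG) (fun x => hb _)
    ⟨G, hG, hb, hc, rfl⟩ v c

end Pool.Agent.MST
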