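import Pool.Agent.MST.Defs

namespace Pool.Agent.MST

open MeasureTheory Set Pool.Agent.MP_6cbfb8_an
open scoped ENNReal Real

lemma htr_meas {G : E 2 → ℂ} (hG : Measurable G) {l : ℕ} :
    Measurable fun x : E (2 + l) => G (fstE (k := 2) (l := l) x) :=
  hG.comp continuous_fstE.measurable

/-- one cut in dimension three -/
theorem htr_cut (cls : (E 2 → ℂ) → Prop)
    (H : ∀ p : ℝ, 3 < p → ∃ C : ℝ≥0∞, C ≠ ∞ ∧ ∀ G : E 2 → ℂ, Measurable G → (∀ w, ‖G w‖ ≤ 1) →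
      cls G → ∫⁻ ξ : E 3, ‖extn (fun x : E 3 => G (fstE (k := 2) (l := 1) x)) ξ‖ₑ ^ p ≤ C)
    (q : ℝ) (hq : 3 < q) : ∃ C : ℝ≥0∞, C ≠ ∞ ∧ ∀ G : E 2 → ℂ, Measurable G →
      (∀ w, ‖G w‖ ≤ 1) → cls G → ∀ (v : Fin 1 → E 3) (c : Fin 1 → ℝ),
      ∫⁻ ξ, ‖extn (fun x : E 3 => G (fstE (k := 2) (l := 1) x) * ∏ i, hsn (c i) (v i) x) ξ‖ₑ ^ q ≤
        C := by
  obtain ⟨C, hC, h⟩ := multicut 3 le_rfl 3 (by norm_num) (fun g => ∃ G : E 2 → ℂ, Measurable G ∧
    (∀ w, ‖G w‖ ≤ 1) ∧ cls G ∧ g = fun x : E 3 => G (fstE (k := 2) (l := 1) x)) (by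
    intro p' hp'
    obtain ⟨C, hC, h⟩ := H p' hp'
    refine ⟨C, hC, ?_⟩
    rintro g _ _ ⟨G, hG, hb, hc, rfl⟩
    exact h G hG hb hc) 1 q hq
  refine ⟨C, hC, fun G hG hb hc v c => ?_⟩
  exact h (fun x : E 3 => G (fstE (k := 2) (l := 1) x)) (htr_meas (l := 1) hG) (fun x => hb _)
    ⟨G, hG, hb, hc, rfl⟩ v c

/-- the base estimate -/
theorem htr_base (cls : (E 2 → ℂ) → Prop)
    (H : ∀ p : ℝ, 3 < p → ∃ C : ℝ≥0∞, C ≠ ∞ ∧ ∀ G : E 2 → ℂ, Measurable G → (∀ w, ‖G w‖ ≤ 1) →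
      cls G → ∫⁻ ξ : E 3, ‖extn (fun x : E 3 => G (fstE (k := 2) (l := 1) x)) ξ‖ₑ ^ p ≤ C)
    (j : ℕ) (q : ℝ) (hq : 3 < q) : ∃ C : ℝ≥0∞, C ≠ ∞ ∧ ∀ G : E 2 → ℂ, Measurable G →
      (∀ w, ‖G w‖ ≤ 1) → cls G →
      ∫⁻ ξ, ‖extn (tpow j (fun x : E 3 => G (fstE (k := 2) (l := 1) x)) : E 3 → ℂ) ξ‖ₑ ^ q ≤ C := by
  obtain ⟨C, hC, H⟩ := htr_cut cls H q hq
  rcases j with _ | j
  · refine ⟨C, hC, fun G hG hb hc => ?_⟩
    refine le_trans (le_of_eq ?_) (H G hG hb hc (fun _ => eLast 2) (fun _ => 0))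
    refine lintegral_congr fun ξ => ?_
    congr 3
    funext x
    rw [Fin.prod_univ_one]
    unfold tpow hsn
    rw [inner_eLast2]
    split_ifs <;> simp
  · refine ⟨C * powν j univ ^ q, ENNReal.mul_ne_top hC
      (ENNReal.rpow_ne_top_of_nonneg (by linarith) (measure_ne_top _ _)), fun G hG hb hc => ?_⟩
    have key := lintegral_mix_le (p := q) (C := C) (by linarith)
      (fun g : E 3 → ℂ => ∃ c : ℝ, g = fun x => G (fstE (k := 2) (l := 1) x) *
        ∏ _i : Fin 1, hsn c (eLast 2) x)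
      (by
        rintro g _ _ ⟨c, rfl⟩
        exact H G hG hb hc (fun _ => eLast 2) (fun _ => c))
      (powν j) (fun _ => LinearIsometryEquiv.refl ℝ (E 3)) (fun _ => 0)
      (fun c x => G (fstE (k := 2) (l := 1) x) * ∏ _i : Fin 1, hsn c (eLast 2) x)
      measurable_snd measurable_const (by
        have h1 : Measurable fun q : ℝ × E 3 => G (fstE (k := 2) (l := 1) q.2) :=
          (htr_meas (l := 1) hG).comp measurable_snd
        refine h1.mul ?_
        simp only [Fin.prod_univ_one]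
        unfold hsn
        refine Measurable.ite ?_ measurable_const measurable_const
        exact measurableSet_lt measurable_fst (by fun_prop))
      (fun c x => by
        rw [norm_mul, Fin.prod_univ_one]
        exact mul_le_one₀ (hb _) (norm_nonneg _) (norm_hsn_le _ _ _))
      (fun c => ⟨c, rfl⟩)
    refine le_trans (le_of_eq ?_) key
    have : extn (tpow (j + 1) (fun x : E 3 => G (fstE (k := 2) (l := 1) x)) : E 3 → ℂ) =
        extn (mix (powν j) (fun _ => LinearIsometryEquiv.refl ℝ (E 3)) (fun _ => 0)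
          (fun c x => G (fstE (k := 2) (l := 1) x) * ∏ _i : Fin 1, hsn c (eLast 2) x)) := by
      refine extn_congr_sphere fun x hx => ?_
      unfold mix
      simp only [Fin.prod_univ_one, inner_zero_right, mul_zero, Complex.ofReal_zero, zero_mul,
        Complex.exp_zero, one_mul, LinearIsometryEquiv.coe_refl, id]
      rw [integral_const_mul]
      have e1 : (fun c : ℝ => hsn c (eLast 2) x) =
          (Iio (x (Fin.last 2))).indicator fun _ => (1:ℂ) := by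
        funext c
        unfold hsn
        rw [inner_eLast2]
        by_cases h : c < x (Fin.last 2)
        · rw [if_pos h, indicator_of_mem (mem_Iio.2 h)]
        · rw [if_neg h, indicator_of_notMem]
          exact h
      rw [e1, integral_indicator_const _ measurableSet_Iio]
      unfold tpow Measure.real
      split_ifs with h
      · rw [powν_Iio j h ((le_abs_self _).trans ((abs_last_le x).trans hx.le)),
          ENNReal.toReal_ofReal (by positivity)]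
        simp
      · rw [powν_Iio_neg j (not_lt.1 h)]
        simp
    rw [this]

lemma htr_fst_join (u : E 2) (t : ℝ) :
    (fstE (k := 2) (l := 1) (join u t : E 3) : E 2) = u := by
  ext i
  have hi : ¬ (1 : ℕ) < (i : ℕ) := by omega
  simp [fstE, join, Fin.snoc]
  intro h
  exact absurd h hi

/-- the estimate without cuts -/
theorem htr_longi (cls : (E 2 → ℂ) → Prop)
    (H : ∀ p : ℝ, 3 < p → ∃ C : ℝ≥0∞, C ≠ ∞ ∧ ∀ G : E 2 → ℂ, Measurable G → (∀ w, ‖G w‖ ≤ 1) →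
      cls G → ∫⁻ ξ : E 3, ‖extn (fun x : E 3 => G (fstE (k := 2) (l := 1) x)) ξ‖ₑ ^ p ≤ C)
    (l : ℕ) (hl : 1 ≤ l) (p : ℝ) (hp : 2 * ((l : ℝ) + 2) / (l + 1) < p) :
    ∃ C : ℝ≥0∞, C ≠ ∞ ∧ ∀ G : E 2 → ℂ, Measurable G → (∀ w, ‖G w‖ ≤ 1) → cls G →
      ∫⁻ ξ, ‖extn (fun x : E (2 + l) => G (fstE x)) ξ‖ₑ ^ p ≤ C := by
  obtain rfl | hl2 : l = 1 ∨ 2 ≤ l := by omega
  · obtain ⟨C, hC, h⟩ := H p (by norm_num at hp; exact hp)
    exact ⟨C, hC, h⟩
  · obtain ⟨i, rfl⟩ : ∃ i, l = i + 2 := ⟨l - 2, by omega⟩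
    have hi0 : (0:ℝ) ≤ i := Nat.cast_nonneg i
    push_cast at hp
    have hp2 : 2 < p := by
      refine lt_trans ?_ hp
      rw [lt_div_iff₀ (by positivity)]
      linarith
    obtain ⟨C, hC, H⟩ := lifting 1 i 3 (by norm_num) (fun g => ∃ G : E 2 → ℂ, Measurable G ∧
      (∀ w, ‖G w‖ ≤ 1) ∧ cls G ∧ g = fun x : E 3 => G (fstE (k := 2) (l := 1) x)) (by
        intro j q hq
        obtain ⟨C, hC, H⟩ := htr_base cls H j q hq
        refine ⟨C, hC, ?_⟩
        rintro g _ _ ⟨G, hG, hb, hc, rfl⟩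
        exact H G hG hb hc) p hp2 (by
        have h1 : 2 * ((i : ℝ) + 2 + 2) / (i + 2 + 1) = 2 + 2 / (i + 3) := by field_simp; ring
        have h2 : 2 / ((i:ℝ) + 3) < p - 2 := by linarith
        have h3 := one_div_lt_one_div_of_lt (by positivity) h2
        rw [one_div_div] at h3
        refine h3.trans_le (le_of_eq ?_)
        norm_num
        ring)
    refine ⟨C, hC, fun G hG hb hc => ?_⟩
    have := H (fun x : E 3 => G (fstE (k := 2) (l := 1) x)) (htr_meas (l := 1) hG)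
      (fun x => hb _) ⟨G, hG, hb, hc, rfl⟩
    refine le_trans (le_of_eq ?_) this
    refine lintegral_congr fun ξ => ?_
    congr 3
    funext x
    unfold lift
    exact congrArg G (htr_fst_join (fstE x) _).symm

/-
ROW TR (1.2 h). From the sphere of R^3 to all dimensions, with half-space cuts. A port of
base_lon, longi_base, longi_bound (LiftF.lean) with `lon h` replaced by `fun x : E 3 => G (fstE x)` and the class
{G : cls G} (always together with Measurable G and ‖G‖ ≤ 1).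
Step 1: `multicut` for n = 3, p0 = 3, the class {fun x => G (fstE x) | cls G}, N = 1: bound for
G (fstE x) * hsn c v x, uniform in c, v. Step 2 (base): for every j and q > 3 a bound for tpow j (fun x => G (fstE x)):
as in base_lon (j = 0: cut by x_3 > 0; j+1: superposition over c ∈ (0,1) with powν j of the cuts x_3 > c, lintegral_mix_le).
Step 3: `lifting` with κ = 1, q₁ = 3, i = l-2 for l ≥ 2, as in longi_base; lift (k := 2) (fun x => G (fstE x)) = fun x => G (fstE x)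
as fstE (join u h) = u. For l = 1 use H itself. Step 4: `multicut` for n = 2 + l, as in longi_bound.
-/
theorem transfer (cls : (E 2 → ℂ) → Prop)
    (H : ∀ p : ℝ, 3 < p → ∃ C : ℝ≥0∞, C ≠ ∞ ∧ ∀ G : E 2 → ℂ, Measurable G → (∀ w, ‖G w‖ ≤ 1) →
      cls G → ∫⁻ ξ : E 3, ‖extn (fun x : E 3 => G (fstE (k := 2) (l := 1) x)) ξ‖ₑ ^ p ≤ C)
    (l : ℕ) (hl : 1 ≤ l) (N : ℕ) (p : ℝ) (hp : 2 * ((l : ℝ) + 2) / (l + 1) < p) :
    ∃ C : ℝ≥0∞, C ≠ ∞ ∧ ∀ G : E 2 → ℂ, Measurable G → (∀ w, ‖G w‖ ≤ 1) → cls G →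
      ∀ (v : Fin N → E (2 + l)) (c : Fin N → ℝ),
      ∫⁻ ξ, ‖extn (fun x : E (2 + l) => G (fstE x) * ∏ i, hsn (c i) (v i) x) ξ‖ₑ ^ p ≤ C := by
  obtain ⟨C, hC, h⟩ := multicut (2 + l) (by omega) (2 * ((l : ℝ) + 2) / (l + 1)) (by
    rw [le_div_iff₀ (by positivity)]
    have : (0:ℝ) ≤ l := Nat.cast_nonneg l
    linarith) (fun g => ∃ G : E 2 → ℂ, Measurable G ∧ (∀ w, ‖G w‖ ≤ 1) ∧ cls G ∧
      g = fun x : E (2 + l) => G (fstE x)) (by
    intro p' hp'
    obtain ⟨C, hC, h⟩ := htr_longi cls H l hl p' hp'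
    refine ⟨C, hC, ?_⟩
    rintro g _ _ ⟨G, hG, hb, hc, rfl⟩
    exact h G hG hb hc) N p hp
  refine ⟨C, hC, fun G hG hb hc v c => ?_⟩
  exact h (fun x : E (2 + l) => G (fstE x)) (htr_meas hG) (fun x => hb _)
    ⟨G, hG, hb, hc, rfl⟩ v c

end Pool.Agent.MST
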