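import Pool.Agent.MST.AE
import Pool.Agent.MST.TR

namespace Pool.Agent.MST

open MeasureTheory Set Pool.Agent.MP_6cbfb8_an
open scoped ENNReal Real

/-
ROW FG (1.2 h). Assembly, almost every dilation.
generic: wlog ‖G‖ ≤ 1 (divide by max B 1, extn is homogeneous). ae_dens gives a.e. r > 0 with all p > 3 finite; for such r
apply `transfer` to the class cls G' := (G' = fun w => G (r • w)) (H p: C := the finite integral; dens r G = fun x => G' (fstE x)).
sphere: g : E 3 → ℂ bounded. For x ∈ S 3: g (pole r x) = Gp (r•fstE x) on x_3 > 0 and Gm (r•fstE x) on x_3 ≤ 0 with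
Gp w = g (join w √(1-‖w‖²)), Gm w = g (join w (-√(1-‖w‖²))). So g (pole r x) = Gp (r•fstE x) * hsn 0 e x + Gm (r•fstE x) -
Gm (r•fstE x) * hsn 0 e x, e = eLast 2 (inner_eLast): use generic with l = 1, N = 1 for Gp, Gm and N = 0 for Gm, and
additivity of extn (bounded measurable densities), (a+b+c)^p ≤ 3^p(...) (add_rpow_le_three).
(hsn c v x = if c < inner ℝ x v then 1 else 0, see LiftF.lean / its imports.)
-/
/-- The map of the unit sphere of `R^3` which contracts it towards the poles `(0, 0, ±1)` by the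
factor `r` in the horizontal coordinates: `(x_1, x_2, x_3) ↦ (r x_1, r x_2, ± √(1 - r² (x_1² + x_2²)))`,
with the sign of `x_3` (the sign `-` if `x_3 = 0`). -/
noncomputable def pole (r : ℝ) (x : E 3) : E 3 :=
  join (r • (fstE (k := 2) (l := 1) x : E 2))
    (if 0 < x (Fin.last 2) then √(1 - ‖r • (fstE (k := 2) (l := 1) x : E 2)‖ ^ 2)
      else -√(1 - ‖r • (fstE (k := 2) (l := 1) x : E 2)‖ ^ 2))

lemma hfg_one (G : E 2 → ℂ) (hG : Measurable G) (hb : ∀ w, ‖G w‖ ≤ 1) :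
    ∀ᵐ r ∂((volume : Measure ℝ).restrict (Ioi 0)), ∀ l : ℕ, 1 ≤ l → ∀ p : ℝ,
      2 * ((l : ℝ) + 2) / (l + 1) < p → ∀ (N : ℕ) (v : Fin N → E (2 + l)) (c : Fin N → ℝ),
      ∫⁻ ξ, ‖extn (fun x : E (2 + l) => G (r • fstE x) * ∏ i, hsn (c i) (v i) x) ξ‖ₑ ^ p < ∞ := by
  filter_upwards [ae_dens G hG hb] with r hr l hl p hp N v c
  obtain ⟨C, hC, h⟩ := transfer (fun G' => G' = fun w => G (r • w)) (fun q hq =>
    ⟨∫⁻ ξ : E 3, ‖extn (dens r G) ξ‖ₑ ^ q, (hr q hq).ne, fun G' _ _ hG' => by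
      subst hG'
      exact le_rfl⟩) l hl N p hp
  refine lt_of_le_of_lt ?_ (lt_top_iff_ne_top.2 hC)
  exact h (fun w => G (r • w)) (hG.comp (measurable_const_smul r)) (fun w => hb _) rfl v c

theorem generic (G : E 2 → ℂ) (hG : Measurable G) (hb : ∃ B : ℝ, ∀ w, ‖G w‖ ≤ B) :
    ∀ᵐ r ∂((volume : Measure ℝ).restrict (Ioi 0)), ∀ l : ℕ, 1 ≤ l → ∀ p : ℝ,
      2 * ((l : ℝ) + 2) / (l + 1) < p → ∀ (N : ℕ) (v : Fin N → E (2 + l)) (c : Fin N → ℝ),
      ∫⁻ ξ, ‖extn (fun x : E (2 + l) => G (r • fstE x) * ∏ i, hsn (c i) (v i) x) ξ‖ₑ ^ p < ∞ := by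
  obtain ⟨B, hB⟩ := hb
  set b : ℝ := max B 1 with hb
  have hb0 : 0 < b := lt_of_lt_of_le one_pos (le_max_right _ _)
  have hbc : ((b : ℝ) : ℂ) ≠ 0 := by exact_mod_cast hb0.ne'
  have h1 := hfg_one (fun w => ((b : ℝ) : ℂ)⁻¹ * G w) (measurable_const.mul hG) (fun w => by
    rw [norm_mul, norm_inv, Complex.norm_real, Real.norm_eq_abs, abs_of_pos hb0,
      inv_mul_le_iff₀ hb0, mul_one]
    exact (hB w).trans (le_max_left _ _))
  filter_upwards [h1] with r hr l hl p hp N v c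
  have h2 := hr l hl p hp N v c
  have hp0 : 0 ≤ p := by
    refine le_trans ?_ hp.le
    positivity
  have e : ∀ ξ, ‖extn (fun x : E (2 + l) => G (r • fstE x) * ∏ i, hsn (c i) (v i) x) ξ‖ₑ ^ p =
      ‖((b : ℝ) : ℂ)‖ₑ ^ p * ‖extn (fun x : E (2 + l) => ((b : ℝ) : ℂ)⁻¹ * G (r • fstE x) *
        ∏ i, hsn (c i) (v i) x) ξ‖ₑ ^ p := by
    intro ξ
    rw [← ENNReal.mul_rpow_of_nonneg _ _ hp0, ← enorm_mul, ← lonG_extn_const_mul]
    congr 3
    funext x
    field_simp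
  rw [lintegral_congr e, lintegral_const_mul']
  · exact ENNReal.mul_lt_top (ENNReal.rpow_lt_top_of_nonneg hp0 enorm_ne_top) h2
  · exact ENNReal.rpow_ne_top_of_nonneg hp0 enorm_ne_top

lemma hfg_integrable {n : ℕ} (g : E (n + 1) → ℂ) (hg : Measurable g) (B : ℝ) (hb : ∀ x, ‖g x‖ ≤ B)
    (ξ : E (n + 1)) : Integrable (fun x : S (n + 1) => g x *
      Complex.exp (((-(2 * π * inner ℝ (x : E (n + 1)) ξ) : ℝ) : ℂ) * Complex.I)) (sm (n + 1)) := by
  refine Integrable.of_bound (C := B) ?_ ?_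
  · exact (liftD_measurable_integrand g hg ξ).aestronglyMeasurable
  · refine Filter.Eventually.of_forall fun x => ?_
    rw [norm_mul, norm_phase, mul_one]
    exact hb _

lemma hfg_add {n : ℕ} (f g : E (n + 1) → ℂ) (hf : Measurable f) (hg : Measurable g) (A B : ℝ)
    (ha : ∀ x, ‖f x‖ ≤ A) (hb : ∀ x, ‖g x‖ ≤ B) (ξ : E (n + 1)) :
    extn (fun x => f x + g x) ξ = extn f ξ + extn g ξ := by
  unfold extn
  rw [← integral_add (hfg_integrable f hf A ha ξ) (hfg_integrable g hg B hb ξ)]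
  refine integral_congr_ae (Filter.Eventually.of_forall fun x => ?_)
  simp only
  ring

theorem sphere (g : E 3 → ℂ) (hg : Measurable g) (hb : ∃ B : ℝ, ∀ x, ‖g x‖ ≤ B) :
    ∀ᵐ r ∂((volume : Measure ℝ).restrict (Ioo 0 1)), ∀ p : ℝ, 3 < p →
      ∫⁻ ξ, ‖extn (fun x : E 3 => g (pole r x)) ξ‖ₑ ^ p < ∞ := by
  obtain ⟨B, hB⟩ := hb
  set Gp : E 2 → ℂ := fun w => g (join w (√(1 - ‖w‖ ^ 2))) with hGp
  set Gm : E 2 → ℂ := fun w => g (join w (-√(1 - ‖w‖ ^ 2))) with hGm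
  have mp : Measurable Gp := by
    refine hg.comp (measurable_join.comp (measurable_id.prodMk ?_))
    exact (Real.continuous_sqrt.comp (by fun_prop)).measurable
  have mm : Measurable Gm := by
    refine hg.comp (measurable_join.comp (measurable_id.prodMk ?_))
    exact ((Real.continuous_sqrt.comp (by fun_prop)).neg).measurable
  have h1 := ae_restrict_of_ae_restrict_of_subset (s := Ioo (0:ℝ) 1) (t := Ioi 0)
    (fun x hx => hx.1) (generic Gp mp ⟨B, fun w => hB _⟩)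
  have h2 := ae_restrict_of_ae_restrict_of_subset (s := Ioo (0:ℝ) 1) (t := Ioi 0)
    (fun x hx => hx.1) (generic Gm mm ⟨B, fun w => hB _⟩)
  filter_upwards [h1, h2] with r hr1 hr2 p hp
  have hp1 : 2 * (((1 : ℕ) : ℝ) + 2) / (((1 : ℕ) : ℝ) + 1) < p := by norm_num; exact hp
  have hp0 : 0 ≤ p := by linarith
  have i1 := hr1 1 le_rfl p hp1 1 (fun _ => eLast 2) (fun _ => 0)
  have i2 := hr2 1 le_rfl p hp1 0 Fin.elim0 Fin.elim0
  have i3 := hr2 1 le_rfl p hp1 1 (fun _ => eLast 2) (fun _ => 0)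
  simp only [Fin.prod_univ_one, Finset.univ_eq_empty, Finset.prod_empty, mul_one] at i1 i2 i3
  set a : E 3 → ℂ := fun x => Gp (r • fstE (k := 2) (l := 1) x) * hsn 0 (eLast 2) x with ha
  set b : E 3 → ℂ := fun x => Gm (r • fstE (k := 2) (l := 1) x) with hb
  set c : E 3 → ℂ := fun x => Gm (r • fstE (k := 2) (l := 1) x) * hsn 0 (eLast 2) x with hc
  have mf : Measurable fun x : E 3 => r • (fstE (k := 2) (l := 1) x : E 2) :=
    Continuous.measurable (show Continuous fun x : E (2 + 1) => r • (fstE x : E 2) from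
      (continuous_fstE (k := 2) (l := 1)).const_smul r)
  have ma : Measurable a := (mp.comp mf).mul (measurable_hsn _ _)
  have mb : Measurable b := mm.comp mf
  have mc : Measurable c := (mm.comp mf).mul (measurable_hsn _ _)
  have hB0 : 0 ≤ B := (norm_nonneg _).trans (hB 0)
  have ba : ∀ x, ‖a x‖ ≤ B := fun x => by
    rw [ha, norm_mul]
    calc _ ≤ B * 1 := mul_le_mul (hB _) (norm_hsn_le _ _ _) (norm_nonneg _) hB0
      _ = B := mul_one B
  have bb : ∀ x, ‖b x‖ ≤ B := fun x => hB _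
  have bc : ∀ x, ‖(-1 : ℂ) * c x‖ ≤ B := fun x => by
    rw [norm_mul, norm_neg, norm_one, one_mul, hc, norm_mul]
    calc _ ≤ B * 1 := mul_le_mul (hB _) (norm_hsn_le _ _ _) (norm_nonneg _) hB0
      _ = B := mul_one B
  have key : ∀ ξ, extn (fun x : E 3 => g (pole r x)) ξ = extn a ξ + extn b ξ + (-1) * extn c ξ := by
    intro ξ
    have e1 : (fun x : E 3 => g (pole r x)) = fun x => (a x + b x) + (-1) * c x := by
      funext x
      have hin : hsn 0 (eLast 2) x = if 0 < x (Fin.last 2) then (1:ℂ) else 0 := by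
        unfold hsn
        rw [inner_eLast2]
      change g (pole r x) = Gp (r • fstE (k := 2) (l := 1) x) * hsn 0 (eLast 2) x +
        Gm (r • fstE (k := 2) (l := 1) x) + (-1) * (Gm (r • fstE (k := 2) (l := 1) x) *
          hsn 0 (eLast 2) x)
      rw [hin]
      simp only [pole, hGp, hGm]
      split_ifs <;> ring
    rw [e1]
    have e2 := hfg_add (n := 2) (fun x => a x + b x) (fun x => (-1) * c x) (ma.add mb)
      (measurable_const.mul mc) (B + B) B (fun x => (norm_add_le _ _).trans (add_le_add (ba x) (bb x)))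
      bc ξ
    have e3 := hfg_add (n := 2) a b ma mb B B ba bb ξ
    have e4 := lonG_extn_const_mul (-1) c ξ
    rw [e2, e3, e4]
  calc ∫⁻ ξ, ‖extn (fun x : E 3 => g (pole r x)) ξ‖ₑ ^ p
      ≤ ∫⁻ ξ, 3 ^ p * (‖extn a ξ‖ₑ ^ p + ‖extn b ξ‖ₑ ^ p + ‖extn c ξ‖ₑ ^ p) := by
        refine lintegral_mono fun ξ => ?_
        rw [key]
        refine le_trans ?_ (add_rpow_le_three hp0)
        gcongr
        refine (enorm_add_le _ _).trans ?_
        gcongr
        · exact enorm_add_le _ _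
        · rw [neg_one_mul, enorm_neg]
    _ = 3 ^ p * ((∫⁻ ξ, ‖extn a ξ‖ₑ ^ p) + (∫⁻ ξ, ‖extn b ξ‖ₑ ^ p) +
          (∫⁻ ξ, ‖extn c ξ‖ₑ ^ p)) := by
        have m1 : Measurable fun ξ => ‖extn a ξ‖ₑ ^ p := (measurable_extn a ma).enorm.pow_const p
        have m2 : Measurable fun ξ => ‖extn b ξ‖ₑ ^ p := (measurable_extn b mb).enorm.pow_const p
        have m3 : Measurable fun ξ => ‖extn a ξ‖ₑ ^ p + ‖extn b ξ‖ₑ ^ p := m1.add m2
        rw [lintegral_const_mul' _ _ (ENNReal.rpow_ne_top_of_nonneg hp0 (by norm_num)),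
          lintegral_add_left m3, lintegral_add_left m1]
    _ < ∞ := by
        refine ENNReal.mul_lt_top (ENNReal.rpow_lt_top_of_nonneg hp0 (by norm_num)) ?_
        exact ENNReal.add_lt_top.2 ⟨ENNReal.add_lt_top.2 ⟨i1, i2⟩, i3⟩

end Pool.Agent.MST
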