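import Pool.Agent.MST.ED6
import Pool.Agent.MST.ED7
import Pool.Agent.MST.FG

namespace Pool.Agent.MST

open MeasureTheory Set Pool.Agent.MP_6cbfb8_an
open scoped ENNReal NNReal Real

lemma hed8_sub (G : E 2 → ℂ) (hG : Measurable G) (hb : ∀ w, ‖G w‖ ≤ 1) (l : ℕ) (hl : 1 ≤ l)
    (p : ℝ) (hp : 2 < p) (q : ℝ) (hq : 2 < q)
    (hpq : 1 / (p - 2) < ((l : ℝ) - 1) / 2 + 1 / (q - 2)) :
    {r : ℝ | 0 < r ∧ ∃ (N : ℕ) (v : Fin N → E (2 + l)) (c : Fin N → ℝ),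
      ∫⁻ ξ, ‖extn (fun x : E (2 + l) => G (r • fstE x) * ∏ i, hsn (c i) (v i) x) ξ‖ₑ ^ p = ∞} ⊆
    {r : ℝ | 0 < r ∧ ∫⁻ ξ : E 3, ‖extn (dens r G) ξ‖ₑ ^ q = ∞} := by
  rintro r ⟨hr, N, v, c, h⟩
  refine ⟨hr, ?_⟩
  by_contra hne
  have hfin : ∀ p' : ℝ, q < p' → ∫⁻ ξ : E 3, ‖extn (dens r G) ξ‖ₑ ^ p' ≠ ∞ := by
    intro p' hp'
    refine ne_of_lt (lt_of_le_of_lt (lintegral_rpow_le_sup (p := p') (p' := q)
      (fun ξ : E 3 => ‖extn (dens r G) ξ‖ₑ)
      (measurable_extn _ (hae_measurable' G hG r)).enorm (by linarith) (by linarith) (sm 3 univ)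
      (fun ξ => liftE2_enorm_extn_le _ (fun x => hb _) ξ)) ?_)
    exact ENNReal.mul_lt_top (lt_top_iff_ne_top.2
      (ENNReal.rpow_ne_top_of_nonneg (by linarith) (sm_univ_ne_top _))) (lt_top_iff_ne_top.2 hne)
  obtain ⟨C, hC, h'⟩ := transfer_at (fun G' => G' = fun w => G (r • w)) q hq (fun p' hp' =>
    ⟨∫⁻ ξ : E 3, ‖extn (dens r G) ξ‖ₑ ^ p', hfin p' hp', fun G' _ _ hG' => by
      subst hG'
      exact le_rfl⟩) l hl N p hp hpq
  have h2 := h' (fun w => G (r • w)) (hG.comp (measurable_const_smul r)) (fun w => hb _) rfl v c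
  have h3 : (∞ : ℝ≥0∞) ≤ C := by
    rw [← h]
    exact h2
  exact hC (top_le_iff.1 h3)

lemma hed8_exc (G : E 2 → ℂ) (hG : Measurable G) (hb : ∀ w, ‖G w‖ ≤ 1) (l : ℕ)
    (hl : 1 ≤ l) (p : ℝ) (hp : 2 < p) :
    dimH {r : ℝ | 0 < r ∧ ∃ (N : ℕ) (v : Fin N → E (2 + l)) (c : Fin N → ℝ),
      ∫⁻ ξ, ‖extn (fun x : E (2 + l) => G (r • fstE x) * ∏ i, hsn (c i) (v i) x) ξ‖ₑ ^ p = ∞} ≤
      ENNReal.ofReal (2 / (p - 2) - l) := by
  set θ : ℝ := 2 / (p - 2) - l with hθ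
  refine ENNReal.le_of_forall_pos_le_add fun ε hε _ => ?_
  have hε' : (0 : ℝ) < ε := hε
  have hm0 : 0 ≤ max θ 0 := le_max_right _ _
  have hmθ : θ ≤ max θ 0 := le_max_left _ _
  set y : ℝ := max θ 0 + 1 + ε with hy
  have hy0 : 0 < y := by linarith
  have hq : 2 < 2 + 2 / y := by
    have : 0 < 2 / y := by positivity
    linarith
  have e1 : 2 + 2 / y - 2 = 2 / y := by ring
  have e2 : (4 - (2 + 2 / y)) / (2 + 2 / y - 2) = max θ 0 + ε := by
    rw [e1, div_eq_iff (by positivity)]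
    field_simp
    rw [hy]
    ring
  have hpq : 1 / (p - 2) < ((l : ℝ) - 1) / 2 + 1 / (2 + 2 / y - 2) := by
    rw [e1, one_div_div]
    have h1 : 1 / (p - 2) = (θ + l) / 2 := by
      rw [hθ]
      ring
    rw [h1]
    linarith
  have h1 := dimH_mono (hed8_sub G hG hb l hl p hp (2 + 2 / y) hq hpq)
  have h2 := exc_dens (2 + 2 / y) hq G hG hb
  rw [e2] at h2
  refine (h1.trans h2).trans ?_
  refine ENNReal.ofReal_add_le.trans ?_
  have h3 : ENNReal.ofReal (max θ 0) = ENNReal.ofReal θ := by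
    rcases le_total θ 0 with h | h
    · rw [max_eq_right h, ENNReal.ofReal_zero, ENNReal.ofReal_of_nonpos h]
    · rw [max_eq_left h]
  rw [h3, ENNReal.ofReal_coe_nnreal]

/-- the integral for `g ∘ pole r` from the three integrals of `sphere` -/
lemma hed8_sphere (g : E 3 → ℂ) (hg : Measurable g) (B : ℝ) (hB : ∀ x, ‖g x‖ ≤ B)
    (p : ℝ) (hp : 2 < p) (r : ℝ)
    (i1 : ∫⁻ ξ, ‖extn (fun x : E (2 + 1) => g (join (r • (fstE x : E 2)) (√(1 - ‖r • (fstE x : E 2)‖ ^ 2))) *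
      hsn 0 (eLast 2) x) ξ‖ₑ ^ p < ∞)
    (i2 : ∫⁻ ξ, ‖extn (fun x : E (2 + 1) => g (join (r • (fstE x : E 2)) (-√(1 - ‖r • (fstE x : E 2)‖ ^ 2)))) ξ‖ₑ ^ p < ∞)
    (i3 : ∫⁻ ξ, ‖extn (fun x : E (2 + 1) => g (join (r • (fstE x : E 2)) (-√(1 - ‖r • (fstE x : E 2)‖ ^ 2))) *
      hsn 0 (eLast 2) x) ξ‖ₑ ^ p < ∞) :
    ∫⁻ ξ, ‖extn (fun x : E 3 => g (pole r x)) ξ‖ₑ ^ p < ∞ := by
  set Gp : E 2 → ℂ := fun w => g (join w (√(1 - ‖w‖ ^ 2))) with hGp
  set Gm : E 2 → ℂ := fun w => g (join w (-√(1 - ‖w‖ ^ 2))) with hGm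
  have mp : Measurable Gp := by
    refine hg.comp (measurable_join.comp (measurable_id.prodMk ?_))
    exact (Real.continuous_sqrt.comp (by fun_prop)).measurable
  have mm : Measurable Gm := by
    refine hg.comp (measurable_join.comp (measurable_id.prodMk ?_))
    exact ((Real.continuous_sqrt.comp (by fun_prop)).neg).measurable
  have hp0 : 0 ≤ p := by linarith
  set a : E 3 → ℂ := fun x => Gp (r • fstE (k := 2) (l := 1) x) * hsn 0 (eLast 2) x with ha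
  set b : E 3 → ℂ := fun x => Gm (r • fstE (k := 2) (l := 1) x) with hb
  set c : E 3 → ℂ := fun x => Gm (r • fstE (k := 2) (l := 1) x) * hsn 0 (eLast 2) x with hc
  have i1' : ∫⁻ ξ, ‖extn a ξ‖ₑ ^ p < ∞ := i1
  have i2' : ∫⁻ ξ, ‖extn b ξ‖ₑ ^ p < ∞ := i2
  have i3' : ∫⁻ ξ, ‖extn c ξ‖ₑ ^ p < ∞ := i3
  have mf : Measurable fun x : E 3 => r • (fstE (k := 2) (l := 1) x : E 2) :=
    Continuous.measurable (show Continuous fun x : E (2 + 1) => r • (fstE x : E 2) from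
      (continuous_fstE (k := 2) (l := 1)).const_smul r)
  have ma : Measurable a := (mp.comp mf).mul (measurable_hsn _ _)
  have mb : Measurable b := mm.comp mf
  have mc : Measurable c := (mm.comp mf).mul (measurable_hsn _ _)
  have hB0 : 0 ≤ B := (norm_nonneg _).trans (hB 0)
  have ba : ∀ x, ‖a x‖ ≤ B := fun x => by
    rw [ha, norm_mul]
    calc _ ≤ B * 1 := mul_le_mul (hB _) (norm_hsn_le _ _ _) (norm_nonneg _) hB0
      _ = B := mul_one B
  have bb : ∀ x, ‖b x‖ ≤ B := fun x => hB _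
  have bc : ∀ x, ‖(-1 : ℂ) * c x‖ ≤ B := fun x => by
    rw [norm_mul, norm_neg, norm_one, one_mul, hc, norm_mul]
    calc _ ≤ B * 1 := mul_le_mul (hB _) (norm_hsn_le _ _ _) (norm_nonneg _) hB0
      _ = B := mul_one B
  have key : ∀ ξ, extn (fun x : E 3 => g (pole r x)) ξ = extn a ξ + extn b ξ + (-1) * extn c ξ := by
    intro ξ
    have e1 : (fun x : E 3 => g (pole r x)) = fun x => (a x + b x) + (-1) * c x := by
      funext x
      have hin : hsn 0 (eLast 2) x = if 0 < x (Fin.last 2) then (1:ℂ) else 0 := by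
        unfold hsn
        rw [inner_eLast2]
      change g (pole r x) = Gp (r • fstE (k := 2) (l := 1) x) * hsn 0 (eLast 2) x +
        Gm (r • fstE (k := 2) (l := 1) x) + (-1) * (Gm (r • fstE (k := 2) (l := 1) x) *
          hsn 0 (eLast 2) x)
      rw [hin]
      simp only [pole, hGp, hGm]
      split_ifs <;> ring
    rw [e1]
    have e2 := hfg_add (n := 2) (fun x => a x + b x) (fun x => (-1) * c x) (ma.add mb)
      (measurable_const.mul mc) (B + B) B (fun x => (norm_add_le _ _).trans (add_le_add (ba x) (bb x)))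
      bc ξ
    have e3 := hfg_add (n := 2) a b ma mb B B ba bb ξ
    have e4 := lonG_extn_const_mul (-1) c ξ
    rw [e2, e3, e4]
  calc ∫⁻ ξ, ‖extn (fun x : E 3 => g (pole r x)) ξ‖ₑ ^ p
      ≤ ∫⁻ ξ, 3 ^ p * (‖extn a ξ‖ₑ ^ p + ‖extn b ξ‖ₑ ^ p + ‖extn c ξ‖ₑ ^ p) := by
        refine lintegral_mono fun ξ => ?_
        rw [key]
        refine le_trans ?_ (add_rpow_le_three hp0)
        gcongr
        refine (enorm_add_le _ _).trans ?_
        gcongr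
        · exact enorm_add_le _ _
        · rw [neg_one_mul, enorm_neg]
    _ = 3 ^ p * ((∫⁻ ξ, ‖extn a ξ‖ₑ ^ p) + (∫⁻ ξ, ‖extn b ξ‖ₑ ^ p) +
          (∫⁻ ξ, ‖extn c ξ‖ₑ ^ p)) := by
        have m1 : Measurable fun ξ => ‖extn a ξ‖ₑ ^ p := (measurable_extn a ma).enorm.pow_const p
        have m2 : Measurable fun ξ => ‖extn b ξ‖ₑ ^ p := (measurable_extn b mb).enorm.pow_const p
        have m3 : Measurable fun ξ => ‖extn a ξ‖ₑ ^ p + ‖extn b ξ‖ₑ ^ p := m1.add m2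
        rw [lintegral_const_mul' _ _ (ENNReal.rpow_ne_top_of_nonneg hp0 (by norm_num)),
          lintegral_add_left m3, lintegral_add_left m1]
    _ < ∞ := by
        refine ENNReal.mul_lt_top (ENNReal.rpow_lt_top_of_nonneg hp0 (by norm_num)) ?_
        exact ENNReal.add_lt_top.2 ⟨ENNReal.add_lt_top.2 ⟨i1', i2'⟩, i3'⟩

/-
ROW ED8 (1.3 h). Final assembly.
exceptional: wlog ‖G‖ ≤ 1 (divide by max B 1, as in `generic`, FG.lean). θ = 2/(p-2) - l. Let d > max θ 0, y with max θ 0 + 1 < y < d + 1,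
q = 2 + 2/y ∈ (2, 4): 2/(q-2) = y, so (4-q)/(q-2) = y - 1 < d and 1/(p-2) < (l-1)/2 + 1/(q-2) (i.e. θ + 1 < y).
If r > 0 and ∫⁻ ‖extn (dens r G)‖^q < ∞, then ∫⁻ ‖extn (dens r G)‖^q' < ∞ for all q' ≥ q (lintegral_rpow_le_sup, liftE2_enorm_extn_le, as in AE.lean)
and transfer_at (q0 = q) for the class cls G' := (G' = fun w => G (r • w)) (as in hfg_one, FG.lean) shows that r is not in the set. So the set is
contained in the exceptional set of exc_dens for q, of dimension ≤ ofReal (y - 1) ≤ d. As d > max θ 0 is arbitrary: dimH ≤ ofReal θ.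
exceptional_sphere: as `sphere` (FG.lean): the set is contained in the union of the two sets of `exceptional` (l = 1, 2/(p-2) - 1 = (4-p)/(p-2)) for
Gp and Gm (dimH_union).
-/
theorem exceptional (G : E 2 → ℂ) (hG : Measurable G) (hb : ∃ B : ℝ, ∀ w, ‖G w‖ ≤ B) (l : ℕ)
    (hl : 1 ≤ l) (p : ℝ) (hp : 2 < p) :
    dimH {r : ℝ | 0 < r ∧ ∃ (N : ℕ) (v : Fin N → E (2 + l)) (c : Fin N → ℝ),
      ∫⁻ ξ, ‖extn (fun x : E (2 + l) => G (r • fstE x) * ∏ i, hsn (c i) (v i) x) ξ‖ₑ ^ p = ∞} ≤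
      ENNReal.ofReal (2 / (p - 2) - l) := by
  obtain ⟨B, hB⟩ := hb
  set b : ℝ := max B 1 with hb
  have hb0 : 0 < b := lt_of_lt_of_le one_pos (le_max_right _ _)
  have hbc : ((b : ℝ) : ℂ) ≠ 0 := by exact_mod_cast hb0.ne'
  have h1 := hed8_exc (fun w => ((b : ℝ) : ℂ)⁻¹ * G w) (measurable_const.mul hG) (fun w => by
    rw [norm_mul, norm_inv, Complex.norm_real, Real.norm_eq_abs, abs_of_pos hb0,
      inv_mul_le_iff₀ hb0, mul_one]
    exact (hB w).trans (le_max_left _ _)) l hl p hp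
  refine le_trans (dimH_mono ?_) h1
  rintro r ⟨hr, N, v, c, h⟩
  refine ⟨hr, N, v, c, ?_⟩
  by_contra hne
  have hp0 : 0 ≤ p := by linarith
  have e : ∀ ξ, ‖extn (fun x : E (2 + l) => G (r • fstE x) * ∏ i, hsn (c i) (v i) x) ξ‖ₑ ^ p =
      ‖((b : ℝ) : ℂ)‖ₑ ^ p * ‖extn (fun x : E (2 + l) => ((b : ℝ) : ℂ)⁻¹ * G (r • fstE x) *
        ∏ i, hsn (c i) (v i) x) ξ‖ₑ ^ p := by
    intro ξ
    rw [← ENNReal.mul_rpow_of_nonneg _ _ hp0, ← enorm_mul, ← lonG_extn_const_mul]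
    congr 3
    funext x
    field_simp
  rw [lintegral_congr e, lintegral_const_mul'] at h
  · exact (ENNReal.mul_lt_top (ENNReal.rpow_lt_top_of_nonneg hp0 enorm_ne_top)
      (lt_top_iff_ne_top.2 hne)).ne h
  · exact ENNReal.rpow_ne_top_of_nonneg hp0 enorm_ne_top

theorem exceptional_sphere (g : E 3 → ℂ) (hg : Measurable g) (hb : ∃ B : ℝ, ∀ x, ‖g x‖ ≤ B)
    (p : ℝ) (hp : 2 < p) :
    dimH {r : ℝ | 0 < r ∧ r < 1 ∧ ∫⁻ ξ, ‖extn (fun x : E 3 => g (pole r x)) ξ‖ₑ ^ p = ∞} ≤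
      ENNReal.ofReal ((4 - p) / (p - 2)) := by
  obtain ⟨B, hB⟩ := hb
  have mp : Measurable (fun w : E 2 => g (join w (√(1 - ‖w‖ ^ 2)))) := by
    refine hg.comp (measurable_join.comp (measurable_id.prodMk ?_))
    exact (Real.continuous_sqrt.comp (by fun_prop)).measurable
  have mm : Measurable (fun w : E 2 => g (join w (-√(1 - ‖w‖ ^ 2)))) := by
    refine hg.comp (measurable_join.comp (measurable_id.prodMk ?_))
    exact ((Real.continuous_sqrt.comp (by fun_prop)).neg).measurable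
  have h1 := exceptional _ mp ⟨B, fun w => hB _⟩ 1 le_rfl p hp
  have h2 := exceptional _ mm ⟨B, fun w => hB _⟩ 1 le_rfl p hp
  have e1 : 2 / (p - 2) - ((1 : ℕ) : ℝ) = (4 - p) / (p - 2) := by
    have : p - 2 ≠ 0 := by linarith
    push_cast
    field_simp
    ring
  rw [e1] at h1 h2
  refine le_trans (dimH_mono ?_) ((dimH_union _ _).le.trans (max_le h1 h2))
  rintro r ⟨hr0, hr1, h⟩
  by_contra hne
  rw [mem_union, not_or] at hne
  obtain ⟨n1, n2⟩ := hne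
  simp only [mem_ofPred_eq, not_and, not_exists] at n1 n2
  have n1' := n1 hr0
  have n2' := n2 hr0
  have i1 := n1' 1 (fun _ => eLast 2) (fun _ => 0)
  have i2 := n2' 0 Fin.elim0 Fin.elim0
  have i3 := n2' 1 (fun _ => eLast 2) (fun _ => 0)
  simp only [Fin.prod_univ_one, Finset.univ_eq_empty, Finset.prod_empty, mul_one] at i1 i2 i3
  exact (hed8_sphere g hg B hB p hp r (lt_top_iff_ne_top.2 i1) (lt_top_iff_ne_top.2 i2)
    (lt_top_iff_ne_top.2 i3)).ne h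

end Pool.Agent.MST
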