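import Pool.Agent.MST.IT

namespace Pool.Agent.MST

open MeasureTheory Set Pool.Agent.MP_6cbfb8_an
open scoped ENNReal Real

lemma hfb_norm_mv {m : ℕ} (N : Mat m) (w : E m) : ‖mv N w‖ ^ 2 = ∑ i, (mv N w i) ^ 2 := by
  rw [EuclideanSpace.norm_sq_eq]
  refine Finset.sum_congr rfl fun i _ => ?_
  rw [Real.norm_eq_abs, sq_abs]

lemma hfb_mv_apply {m : ℕ} (N : Mat m) (w : E m) (i : Fin m) :
    mv N w i = ∑ j, N i j * w j := rfl

lemma hfb_mv_add {m : ℕ} (N : Mat m) (w : E m) (k l : Fin m) (τ : ℝ) (i : Fin m) :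
    mv (N + τ • em k l) w i = mv N w i + (if i = k then τ * w l else 0) := by
  rw [hfb_mv_apply, hfb_mv_apply]
  have h1 : ∀ j, (N + τ • em k l) i j * w j = N i j * w j +
      (if j = l then (if i = k then τ * w l else 0) else 0) := by
    intro j
    simp only [Pi.add_apply, Pi.smul_apply, smul_eq_mul, em]
    by_cases hj : j = l
    · subst hj
      by_cases hi : i = k
      · simp [hi]; ring
      · simp [hi]
    · simp [hj]
  rw [Finset.sum_congr rfl fun j _ => h1 j, Finset.sum_add_distrib]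
  simp

lemma hfb_vN_add {m : ℕ} (N : Mat m) (w : E m) (k l : Fin m) (τ : ℝ) :
    vN (N + τ • em k l) w = vN N w - 2 * τ * (mv N w k * w l) - τ ^ 2 * (w l) ^ 2 := by
  unfold vN
  rw [hfb_norm_mv, hfb_norm_mv]
  have h1 : ∀ i, (mv (N + τ • em k l) w i) ^ 2 = (mv N w i) ^ 2 +
      (if i = k then 2 * τ * (mv N w k * w l) + τ ^ 2 * (w l) ^ 2 else 0) := by
    intro i
    rw [hfb_mv_add]
    by_cases hi : i = k
    · subst hi
      simp
      ring
    · simp [hi]
  rw [Finset.sum_congr rfl fun j _ => h1 j, Finset.sum_add_distrib]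
  simp
  ring

/-
ROW FB (1 h). Smoothness of (N, w) ↦ S (vN N w) (polynomial composed with smooth), then iter_smooth with P = E m, Ψ (N,w) = S (vN N w):
iteratedDeriv j (fun τ => fd (fun w => S (vN (N + τ•em k l) w)) w y z) τ = fd (fun w => Φ j (N + τ•em k l, w)) w y z (iteratedDeriv_add,
iteratedDeriv_sub, smooth functions), at τ = 0 bounded by `second_diff` applied to each Φ j, j ≤ J (max over j ≤ J and over k, l).
The value at general τ: replace N by N + τ • em k l (iteratedDeriv of a translate: iteratedDeriv_comp_const_add or directly from the formula).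
deriv_phase: the first derivative of τ ↦ √(vN (N + τ•em k l) w) at 0 when vN N w > 0: vN (N+τe) w = 1 - ‖mv N w + τ w_l e_k‖² has
derivative -2 (mv N w)_k w_l, so the derivative is -(mv N w)_k w_l/√(vN N w).
lip_phase: N ↦ fd (...) and N ↦ its first partial derivatives are Lipschitz with constant C‖y‖‖z‖ on ‖N‖ ≤ R:
apply the mean value inequality along the segment and `second_diff` to the function (N, w) ↦ fderiv in the matrix variable
(or write the difference as an integral of directional derivatives; each matrix direction is a sum of the em k l).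
-/
theorem smooth_vN (m : ℕ) (S : ℝ → ℝ) (hS : ∀ n : ℕ, ContDiff ℝ n S) (n : ℕ) :
    ContDiff ℝ n fun q : Mat m × E m => S (vN q.1 q.2) := by
  refine (hS n).comp ?_
  have h1 : (fun q : Mat m × E m => vN q.1 q.2) =
      fun q : Mat m × E m => 1 - ∑ i, (∑ j, q.1 i j * q.2 j) ^ 2 := by
    funext q
    unfold vN
    rw [hfb_norm_mv]
    rfl
  rw [h1]
  refine contDiff_const.sub (ContDiff.sum fun i _ => ContDiff.pow (ContDiff.sum fun j _ => ?_) 2)
  refine ContDiff.mul ?_ ?_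
  · exact contDiff_pi.mp (contDiff_pi.mp contDiff_fst i) j
  · exact (EuclideanSpace.proj (𝕜 := ℝ) j).contDiff.comp contDiff_snd

/-- Iterated derivatives of the four-term difference. -/
lemma hfb_fd {m : ℕ} {Q : Type*} [NormedAddCommGroup Q] [NormedSpace ℝ Q] (v : Q)
    (Ψ : Q × E m → ℝ) (h : ∀ n : ℕ, ContDiff ℝ n Ψ) (N : Q) (w y z : E m) (j : ℕ) : ∀ τ : ℝ,
    iteratedDeriv j (fun τ : ℝ => fd (fun w => Ψ (N + τ • v, w)) w y z) τ =
      fd (fun w => hitD ((v, 0) : Q × E m) Ψ j (N + τ • v, w)) w y z := by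
  induction j with
  | zero => intro τ; simp [hitD]
  | succ j ih =>
    intro τ
    rw [iteratedDeriv_succ, funext ih]
    have h1 : ∀ u : E m, HasDerivAt (fun τ : ℝ => hitD ((v, 0) : Q × E m) Ψ j (N + τ • v, u))
        (hitD ((v, 0) : Q × E m) Ψ (j + 1) (N + τ • v, u)) τ := by
      intro u
      have h1 : DifferentiableAt ℝ (hitD ((v, 0) : Q × E m) Ψ j) (N + τ • v, u) :=
        ((hit_smooth _ Ψ h j 1).differentiable (by norm_num)) _
      have h2 : HasDerivAt (fun τ : ℝ => ((N + τ • v, u) : Q × E m)) ((v, 0) : Q × E m) τ := by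
        have h3 : HasDerivAt (fun τ : ℝ => τ • v) ((1 : ℝ) • v) τ :=
          (hasDerivAt_id τ).smul_const v
        rw [one_smul] at h3
        exact (h3.const_add N).prodMk (hasDerivAt_const τ u)
      exact h1.hasFDerivAt.comp_hasDerivAt τ h2
    unfold fd
    exact ((((h1 w).add (h1 (w - y - z))).sub (h1 (w - y))).sub (h1 (w - z))).deriv

theorem phase_bounds (m J : ℕ) (S : ℝ → ℝ) (hS : ∀ n : ℕ, ContDiff ℝ n S) (R : ℝ) : ∃ C : ℝ,
    0 ≤ C ∧ ∀ (k l : Fin m) (N : Mat m), ‖N‖ ≤ R → ∀ w y z : E m, ‖w‖ ≤ R → ‖y‖ ≤ R →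
      ‖z‖ ≤ R → ∀ j ≤ J,
      |iteratedDeriv j (fun τ : ℝ => fd (fun w => S (vN (N + τ • em k l) w)) w y z) 0| ≤
        C * (‖y‖ * ‖z‖) := by
  have hsm := smooth_vN m S hS
  have hb : ∀ p : (Fin m × Fin m) × ℕ, ∃ C : ℝ, 0 ≤ C ∧
    ∀ N : Mat m, ‖N‖ ≤ R → ∀ w y z : E m, ‖w‖ ≤ R → ‖y‖ ≤ R → ‖z‖ ≤ R →
      |fd (fun w => hitD ((em p.1.1 p.1.2, 0) : Mat m × E m)
        (fun q : Mat m × E m => S (vN q.1 q.2)) p.2 (N, w)) w y z| ≤ C * (‖y‖ * ‖z‖) := by
    intro p
    exact second_diff _ (hit_smooth _ _ hsm p.2 2) R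
  choose C hC0 hC using hb
  refine ⟨∑ p ∈ (Finset.univ : Finset (Fin m × Fin m)) ×ˢ Finset.range (J + 1), C p,
    Finset.sum_nonneg fun _ _ => hC0 _, ?_⟩
  intro k l N hN w y z hw hy hz j hj
  have h1 := hfb_fd (em k l) (fun q : Mat m × E m => S (vN q.1 q.2)) hsm N w y z j 0
  simp only [zero_smul, add_zero] at h1
  rw [h1]
  refine (hC ((k, l), j) N hN w y z hw hy hz).trans ?_
  refine mul_le_mul_of_nonneg_right ?_ (by positivity)
  exact Finset.single_le_sum (f := C) (fun _ _ => hC0 _)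
    (Finset.mem_product.mpr ⟨Finset.mem_univ _, Finset.mem_range.mpr (by simp; omega)⟩)

theorem deriv_phase (m : ℕ) (k l : Fin m) (N : Mat m) (w : E m) (h : 0 < vN N w) :
    HasDerivAt (fun τ : ℝ => √(vN (N + τ • em k l) w)) (-(mv N w k * w l / √(vN N w))) 0 := by
  have h1 : HasDerivAt (fun τ : ℝ => vN (N + τ • em k l) w) (-(2 * (mv N w k * w l))) 0 := by
    simp only [hfb_vN_add]
    have h2 : HasDerivAt (fun τ : ℝ => τ) 1 (0 : ℝ) := hasDerivAt_id 0
    have h3 := (((h2.const_mul 2).mul_const (mv N w k * w l)).const_sub (vN N w)).sub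
      ((h2.pow 2).mul_const ((w l) ^ 2))
    refine h3.congr_deriv ?_
    simp
  have h2 := h1.sqrt (by simpa using h.ne')
  refine h2.congr_deriv ?_
  simp only [zero_smul, add_zero]
  field_simp

/-- Lipschitz bound of the four-term difference in the parameter. -/
lemma hfb_lip {m : ℕ} {Q : Type*} [NormedAddCommGroup Q] [NormedSpace ℝ Q]
    [FiniteDimensional ℝ Q] (Φ : Q × E m → ℝ) (h : ContDiff ℝ 3 Φ) (R : ℝ) : ∃ C : ℝ, 0 ≤ C ∧
    ∀ N N' : Q, ‖N‖ ≤ R → ‖N'‖ ≤ R → ∀ w y z : E m, ‖w‖ ≤ R → ‖y‖ ≤ R → ‖z‖ ≤ R →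
      |fd (fun w => Φ (N, w)) w y z - fd (fun w => Φ (N', w)) w y z| ≤
        C * ‖N - N'‖ * (‖y‖ * ‖z‖) := by
  have hG : ContDiff ℝ 2 (fderiv ℝ Φ) := h.fderiv_right (by norm_num)
  have hΞ : ContDiff ℝ 2 (fun q : (Q × Q) × E m =>
      fderiv ℝ Φ (q.1.1, q.2) ((q.1.2, 0) : Q × E m)) := by
    refine ContDiff.clm_apply (hG.comp ?_) ?_
    · exact (contDiff_fst.comp contDiff_fst).prodMk contDiff_snd
    · exact (contDiff_snd.comp contDiff_fst).prodMk contDiff_const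
  obtain ⟨C, hC0, hC⟩ := second_diff _ hΞ (R + 1)
  refine ⟨C, hC0, ?_⟩
  intro N N' hN hN' w y z hw hy hz
  have hR : 0 ≤ R := le_trans (norm_nonneg _) hN
  have hu : ∀ M : Q, ‖M‖ ≤ R → ∀ V : Q, |fd (fun w => fderiv ℝ Φ (M, w) ((V, 0) : Q × E m)) w y z| ≤
      C * (‖y‖ * ‖z‖) * ‖V‖ := by
    intro M hM V
    by_cases hV : V = 0
    · subst hV
      have : ((0, 0) : Q × E m) = 0 := rfl
      simp [fd, this]
    · have hVn : ‖V‖ ≠ 0 := by simpa using hV
      have hV1 : ‖(‖V‖⁻¹ • V : Q)‖ = 1 := by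
        rw [norm_smul, norm_inv, norm_norm, inv_mul_cancel₀ hVn]
      have h1 := hC (M, ‖V‖⁻¹ • V) (by
        rw [Prod.norm_def]
        exact max_le (by simpa using by linarith) (by simp only [hV1]; linarith))
        w y z (by linarith) (by linarith) (by linarith)
      have h2 : ((V, 0) : Q × E m) = ‖V‖ • ((‖V‖⁻¹ • V, 0) : Q × E m) := by
        rw [Prod.smul_mk, smul_smul, mul_inv_cancel₀ hVn, one_smul, smul_zero]
      have h3 : fd (fun w => fderiv ℝ Φ (M, w) ((V, 0) : Q × E m)) w y z =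
          ‖V‖ * fd (fun w => fderiv ℝ Φ (M, w) ((‖V‖⁻¹ • V, 0) : Q × E m)) w y z := by
        rw [h2]
        simp only [fd, map_smul, smul_eq_mul]
        ring
      rw [h3, abs_mul, abs_of_nonneg (norm_nonneg V)]
      calc ‖V‖ * _ ≤ ‖V‖ * (C * (‖y‖ * ‖z‖)) := by gcongr
        _ = _ := by ring
  have hd : ∀ (u : E m) (M : Q), HasFDerivAt (fun M : Q => Φ (M, u))
      ((fderiv ℝ Φ (M, u)).comp (ContinuousLinearMap.inl ℝ Q (E m))) M := by
    intro u M
    exact (((h.differentiable (by norm_num)) (M, u)).hasFDerivAt).comp M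
      (hasFDerivAt_prodMk_left M u)
  have hmv := (convex_closedBall (0 : Q) R).norm_image_sub_le_of_norm_hasFDerivWithin_le
    (f := fun M : Q => fd (fun w => Φ (M, w)) w y z)
    (f' := fun M : Q => ((((fderiv ℝ Φ (M, w)).comp (ContinuousLinearMap.inl ℝ Q (E m))) +
      ((fderiv ℝ Φ (M, w - y - z)).comp (ContinuousLinearMap.inl ℝ Q (E m)))) -
      ((fderiv ℝ Φ (M, w - y)).comp (ContinuousLinearMap.inl ℝ Q (E m)))) -
      ((fderiv ℝ Φ (M, w - z)).comp (ContinuousLinearMap.inl ℝ Q (E m))))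
    (C := C * (‖y‖ * ‖z‖)) (x := N') (y := N)
    (fun M _ => ((((hd w M).add (hd (w - y - z) M)).sub (hd (w - y) M)).sub
      (hd (w - z) M)).hasFDerivWithinAt)
    (fun M hM => by
      refine ContinuousLinearMap.opNorm_le_bound _ (by positivity) fun V => ?_
      have h1 := hu M (by simpa using hM) V
      rw [Real.norm_eq_abs]
      exact h1)
    (by simpa using hN') (by simpa using hN)
  rw [Real.norm_eq_abs] at hmv
  refine hmv.trans (le_of_eq ?_)
  ring

theorem lip_phase (m : ℕ) (S : ℝ → ℝ) (hS : ∀ n : ℕ, ContDiff ℝ n S) (R : ℝ) : ∃ C : ℝ,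
    0 ≤ C ∧ ∀ (N N' : Mat m), ‖N‖ ≤ R → ‖N'‖ ≤ R → ∀ w y z : E m, ‖w‖ ≤ R → ‖y‖ ≤ R →
      ‖z‖ ≤ R →
      |fd (fun w => S (vN N w)) w y z - fd (fun w => S (vN N' w)) w y z| ≤
        C * ‖N - N'‖ * (‖y‖ * ‖z‖) ∧ ∀ k l : Fin m,
      |deriv (fun τ : ℝ => fd (fun w => S (vN (N + τ • em k l) w)) w y z) 0 -
        deriv (fun τ : ℝ => fd (fun w => S (vN (N' + τ • em k l) w)) w y z) 0| ≤
        C * ‖N - N'‖ * (‖y‖ * ‖z‖) := by
  have hsm := smooth_vN m S hS
  obtain ⟨C0, hC00, hC0⟩ := hfb_lip (fun q : Mat m × E m => S (vN q.1 q.2)) (hsm 3) R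
  have hb : ∀ p : Fin m × Fin m, ∃ C : ℝ, 0 ≤ C ∧
    ∀ N N' : Mat m, ‖N‖ ≤ R → ‖N'‖ ≤ R → ∀ w y z : E m, ‖w‖ ≤ R → ‖y‖ ≤ R → ‖z‖ ≤ R →
      |fd (fun w => hitD ((em p.1 p.2, 0) : Mat m × E m)
        (fun q : Mat m × E m => S (vN q.1 q.2)) 1 (N, w)) w y z -
        fd (fun w => hitD ((em p.1 p.2, 0) : Mat m × E m)
        (fun q : Mat m × E m => S (vN q.1 q.2)) 1 (N', w)) w y z| ≤
          C * ‖N - N'‖ * (‖y‖ * ‖z‖) := by
    intro p
    exact hfb_lip _ (hit_smooth _ _ hsm 1 3) R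
  choose C hCn hC using hb
  refine ⟨C0 + ∑ p, C p, add_nonneg hC00 (Finset.sum_nonneg fun _ _ => hCn _), ?_⟩
  intro N N' hN hN' w y z hw hy hz
  have hs0 : 0 ≤ ∑ p, C p := Finset.sum_nonneg fun _ _ => hCn _
  refine ⟨?_, ?_⟩
  · refine (hC0 N N' hN hN' w y z hw hy hz).trans ?_
    gcongr
    linarith
  · intro k l
    have h1 := hfb_fd (em k l) (fun q : Mat m × E m => S (vN q.1 q.2)) hsm N w y z 1 0
    have h2 := hfb_fd (em k l) (fun q : Mat m × E m => S (vN q.1 q.2)) hsm N' w y z 1 0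
    rw [iteratedDeriv_one] at h1 h2
    simp only [zero_smul, add_zero] at h1 h2
    rw [h1, h2]
    refine (hC (k, l) N N' hN hN' w y z hw hy hz).trans ?_
    have h3 : C (k, l) ≤ ∑ p, C p :=
      Finset.single_le_sum (f := C) (fun _ _ => hCn _) (Finset.mem_univ _)
    gcongr
    linarith

end Pool.Agent.MST
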