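import Pool.Agent.MST.CO
import Pool.Agent.MST.DE

namespace Pool.Agent.MST

open MeasureTheory Set Pool.Agent.MP_6cbfb8_an
open scoped ENNReal Real

/-
ROW SP (1.2 h). Functions which are constant along logarithmic spirals.
Write z(w) = w 0 + i w 1 ∈ ℂ. For r > 0: |z(r•w)| = r|z|, so for z ≠ 0
spi c τ h (r•w) = exp(iτ log r) · exp(iτ log|z|) · h (exp(-ic log r) · z · exp(-(1+ic) log|z|)) = exp(iτ log r) · spi c τ h (O w), O the
rotation of E 2 with z(O w) = exp(-ic log r) z(w) (for z = 0 both sides are the unimodular constant times h 0... the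
log of 0 is 0 in Lean and z = 0: spi = h 0 on both sides up to the factor exp(iτ log r); a single point, null set, or
treat it with extn equality a.e.). So dens r (spi c τ h) = unimodular constant × (fun x : E 3 => spi c τ h (fstE (R x))) a.e. on
the sphere, R = O ⊕ id a linear isometry equivalence of E 3, and by `extn_isometry` and invariance of Lebesgue measure
∫⁻ ‖extn (dens r G)‖^p = ∫⁻ ‖extn (dens 1 G)‖^p for all r > 0. Integrate over r ∈ [1,2] and use core and dens_le: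
∫⁻ ‖extn (dens 1 G)‖^p ≤ 2^(p+1) C. (dens 1 G x = G (fstE x).)
-/
/-- For `z = w_1 + i w_2` the value is `|z| ^ (i τ) * h (z |z| ^ (-1 - i c))`. -/
noncomputable def spi (c τ : ℝ) (h : ℂ → ℂ) (w : E 2) : ℂ :=
  Complex.exp (((τ * Real.log ‖w‖ : ℝ) : ℂ) * Complex.I) *
    h ((⟨w 0, w 1⟩ : ℂ) * Complex.exp (-(1 + (c : ℂ) * Complex.I) * ((Real.log ‖w‖ : ℝ) : ℂ)))

theorem hsp_mk (x y : ℝ) : (⟨x, y⟩ : ℂ) = (x : ℂ) + (y : ℂ) * Complex.I := by
  apply Complex.ext <;> simp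

/-- rotation of the first two coordinates -/
noncomputable def hsp_lin (a b : ℝ) : E 3 →ₗ[ℝ] E 3 where
  toFun x := WithLp.toLp 2 ![a * x 0 - b * x 1, b * x 0 + a * x 1, x 2]
  map_add' x y := by
    ext i
    fin_cases i
    · simp
      ring
    · simp
      ring
    · simp
  map_smul' r x := by
    ext i
    fin_cases i
    · simp
      ring
    · simp
      ring
    · simp

theorem hsp_norm {a b : ℝ} (hab : a ^ 2 + b ^ 2 = 1) (x : E 3) : ‖hsp_lin a b x‖ = ‖x‖ := by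
  rw [EuclideanSpace.norm_eq, EuclideanSpace.norm_eq]
  congr 1
  simp only [hsp_lin, LinearMap.coe_mk, AddHom.coe_mk, Real.norm_eq_abs, sq_abs,
    Fin.sum_univ_three]
  simp
  linear_combination (x 0 ^ 2 + x 1 ^ 2) * hab

/-- the rotation as a linear isometry equivalence -/
noncomputable def hsp_rot {a b : ℝ} (hab : a ^ 2 + b ^ 2 = 1) : E 3 ≃ₗᵢ[ℝ] E 3 :=
  LinearIsometry.toLinearIsometryEquiv ⟨hsp_lin a b, hsp_norm hab⟩ rfl

theorem hsp_rot_zero {a b : ℝ} (hab : a ^ 2 + b ^ 2 = 1) (x : E 3) :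
    hsp_rot hab x 0 = a * x 0 - b * x 1 := rfl

theorem hsp_rot_one {a b : ℝ} (hab : a ^ 2 + b ^ 2 = 1) (x : E 3) :
    hsp_rot hab x 1 = b * x 0 + a * x 1 := rfl

theorem hsp_spi (c τ : ℝ) (h : ℂ → ℂ) {r : ℝ} (hr : 0 < r) (w w' : E 2) (hw : w ≠ 0)
    (h0 : w' 0 = Real.cos (c * Real.log r) * w 0 - (-Real.sin (c * Real.log r)) * w 1)
    (h1 : w' 1 = (-Real.sin (c * Real.log r)) * w 0 + Real.cos (c * Real.log r) * w 1) :
    spi c τ h (r • w) =
      Complex.exp (((τ * Real.log r : ℝ) : ℂ) * Complex.I) * spi c τ h w' := by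
  have hnw : ‖w'‖ = ‖w‖ := by
    rw [EuclideanSpace.norm_eq, EuclideanSpace.norm_eq]
    congr 1
    simp only [Real.norm_eq_abs, sq_abs, Fin.sum_univ_two]
    rw [h0, h1]
    linear_combination (w 0 ^ 2 + w 1 ^ 2) * Real.sin_sq_add_cos_sq (c * Real.log r)
  have hw0 : ‖w‖ ≠ 0 := norm_ne_zero_iff.mpr hw
  have hlog : Real.log ‖r • w‖ = Real.log r + Real.log ‖w‖ := by
    rw [norm_smul, Real.norm_eq_abs, abs_of_pos hr, Real.log_mul hr.ne' hw0]
  unfold spi
  rw [hlog, hnw, ← mul_assoc, ← Complex.exp_add]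
  congr 1
  · congr 1
    push_cast
    ring
  · congr 1
    have e1 : Complex.exp (-(1 + (c : ℂ) * Complex.I) * ((Real.log r + Real.log ‖w‖ : ℝ) : ℂ)) =
        Complex.exp (((-Real.log r : ℝ) : ℂ)) *
        Complex.exp (((-(c * Real.log r) : ℝ) : ℂ) * Complex.I) *
        Complex.exp (-(1 + (c : ℂ) * Complex.I) * ((Real.log ‖w‖ : ℝ) : ℂ)) := by
      rw [← Complex.exp_add, ← Complex.exp_add]
      congr 1
      push_cast
      ring
    have e2 : Complex.exp (((-Real.log r : ℝ) : ℂ)) = ((r⁻¹ : ℝ) : ℂ) := by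
      rw [← Complex.ofReal_exp, Real.exp_neg, Real.exp_log hr]
    have e3 : Complex.exp (((-(c * Real.log r) : ℝ) : ℂ) * Complex.I) =
        ((Real.cos (c * Real.log r) : ℝ) : ℂ) +
          ((-Real.sin (c * Real.log r) : ℝ) : ℂ) * Complex.I := by
      rw [Complex.exp_mul_I, ← Complex.ofReal_cos, ← Complex.ofReal_sin, Real.cos_neg,
        Real.sin_neg]
    have e4 : (r • w : E 2) 0 = r * w 0 := rfl
    have e5 : (r • w : E 2) 1 = r * w 1 := rfl
    rw [e1, e2, e3, e4, e5, hsp_mk, hsp_mk, h0, h1]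
    have hI : Complex.I * Complex.I = -1 := Complex.I_mul_I
    have hr' : (r : ℂ) ≠ 0 := by exact_mod_cast hr.ne'
    push_cast
    field_simp
    ring_nf
    rw [Complex.I_sq]
    ring

open scoped Pointwise in
theorem hsp_null : ∀ᵐ x : S 3 ∂(sm 3), (fstE (k := 2) (l := 1) (x : E 3) : E 2) ≠ 0 := by
  rw [ae_iff]
  have hms : MeasurableSet {x : S 3 | ¬ ((fstE (k := 2) (l := 1) (x : E 3) : E 2) ≠ 0)} := by
    have hc : Continuous fun x : S 3 => (fstE (k := 2) (l := 1) (x : E 3) : E 2) :=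
      continuous_fstE.comp continuous_subtype_val
    have : {x : S 3 | ¬ ((fstE (k := 2) (l := 1) (x : E 3) : E 2) ≠ 0)} =
        (fun x : S 3 => (fstE (k := 2) (l := 1) (x : E 3) : E 2)) ⁻¹' {0} := by
      ext x
      simp
    rw [this]
    exact hc.measurable (measurableSet_singleton 0)
  rw [Measure.toSphere_apply' _ hms]
  have hV : (volume : Measure (E 3)) ((LinearMap.ker ((EuclideanSpace.proj (0 : Fin 3) :
      E 3 →L[ℝ] ℝ) : E 3 →ₗ[ℝ] ℝ) : Submodule ℝ (E 3)) : Set (E 3)) = 0 := by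
    apply Measure.addHaar_submodule
    intro htop
    have h1 : (EuclideanSpace.single (0 : Fin 3) (1 : ℝ) : E 3) ∈
        (LinearMap.ker ((EuclideanSpace.proj (0 : Fin 3) : E 3 →L[ℝ] ℝ) : E 3 →ₗ[ℝ] ℝ)) := by
      rw [htop]
      trivial
    rw [LinearMap.mem_ker] at h1
    have h2 : (EuclideanSpace.single (0 : Fin 3) (1 : ℝ) : E 3) 0 = 0 := h1
    simp at h2
  have hsub : (Ioo (0 : ℝ) 1 • (Subtype.val '' {x : S 3 | ¬ ((fstE (k := 2) (l := 1) (x : E 3) : E 2) ≠ 0)})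
      : Set (E 3)) ⊆ ((LinearMap.ker ((EuclideanSpace.proj (0 : Fin 3) :
      E 3 →L[ℝ] ℝ) : E 3 →ₗ[ℝ] ℝ) : Submodule ℝ (E 3)) : Set (E 3)) := by
    rintro _ ⟨r, -, _, ⟨x, hx, rfl⟩, rfl⟩
    have hx' : (fstE (k := 2) (l := 1) (x : E 3) : E 2) = 0 := not_not.mp hx
    have hx0 : (x : E 3) 0 = 0 := congrFun (congrArg WithLp.ofLp hx') 0
    change (r • (x : E 3)) 0 = 0
    change r * (x : E 3) 0 = 0
    rw [hx0, mul_zero]
  rw [measure_mono_null hsub hV, mul_zero]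

theorem measurable_spi {W : Type*} [MeasurableSpace W] (l : ℕ) (c τ : W → ℝ) (h : W → ℂ → ℂ)
    (hc : Measurable c) (hτ : Measurable τ) (hh : Measurable fun q : W × ℂ => h q.1 q.2) :
    Measurable fun q : W × E (2 + l) => spi (c q.1) (τ q.1) (h q.1) (fstE q.2) := by
  have h1 : Measurable fun q : W × E (2 + l) => (fstE q.2 : E 2) :=
    continuous_fstE.measurable.comp measurable_snd
  have h2 : Measurable fun q : W × E (2 + l) => Real.log ‖(fstE q.2 : E 2)‖ :=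
    Real.measurable_log.comp h1.norm
  have hc1 : Measurable fun q : W × E (2 + l) => c q.1 := hc.comp measurable_fst
  have ht1 : Measurable fun q : W × E (2 + l) => τ q.1 := hτ.comp measurable_fst
  have h30 : Measurable fun q : W × E (2 + l) => (fstE q.2 : E 2) 0 := by fun_prop
  have h31 : Measurable fun q : W × E (2 + l) => (fstE q.2 : E 2) 1 := by fun_prop
  have h4 : Measurable fun q : W × E (2 + l) =>
      ((⟨(fstE q.2 : E 2) 0, (fstE q.2 : E 2) 1⟩ : ℂ) *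
        Complex.exp (-(1 + (c q.1 : ℂ) * Complex.I) * ((Real.log ‖(fstE q.2 : E 2)‖ : ℝ) : ℂ))) := by
    simp_rw [hsp_mk]
    fun_prop
  unfold spi
  refine Measurable.mul (by fun_prop) ?_
  exact hh.comp (measurable_fst.prodMk h4)

theorem spiral_base (p : ℝ) (hp : 3 < p) : ∃ C : ℝ≥0∞, C ≠ ∞ ∧ ∀ (c τ : ℝ) (h : ℂ → ℂ),
    Measurable h → (∀ z, ‖h z‖ ≤ 1) →
    ∫⁻ ξ : E 3, ‖extn (fun x : E 3 => spi c τ h (fstE (k := 2) (l := 1) x)) ξ‖ₑ ^ p ≤ C := by
  obtain ⟨C, hC, hcore⟩ := core 1 2 p one_pos one_lt_two hp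
  have hp0 : 0 ≤ p := by linarith
  refine ⟨2 ^ (p + 1) * C, ENNReal.mul_ne_top (ENNReal.rpow_ne_top_of_nonneg (by linarith)
    ENNReal.ofNat_ne_top) hC, ?_⟩
  intro c τ h hh hb
  set G : E 2 → ℂ := spi c τ h with hG
  have hGm : Measurable G := by
    have h1 : Measurable fun q : Unit × E (2 + 0) => spi c τ h (fstE q.2) :=
      measurable_spi (W := Unit) 0 (fun _ => c) (fun _ => τ) (fun _ => h) measurable_const
        measurable_const (hh.comp measurable_snd)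
    have h2 : G = (fun q : Unit × E (2 + 0) => spi c τ h (fstE q.2)) ∘ (fun w : E 2 => ((), w)) := by
      funext w
      rfl
    rw [h2]
    exact h1.comp (by fun_prop)
  have hGb : ∀ w, ‖G w‖ ≤ 1 := by
    intro w
    rw [hG]
    unfold spi
    rw [norm_mul, Complex.norm_exp_ofReal_mul_I, one_mul]
    exact hb _
  set g : E 3 → ℂ := fun x => G (fstE (k := 2) (l := 1) x) with hg
  have key : ∀ r : ℝ, 0 < r → ∫⁻ ξ : E 3, ‖extn (dens r G) ξ‖ₑ ^ p = ∫⁻ ξ : E 3, ‖extn g ξ‖ₑ ^ p := by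
    intro r hr
    have hab : Real.cos (c * Real.log r) ^ 2 + (-Real.sin (c * Real.log r)) ^ 2 = 1 := by
      rw [neg_sq]
      exact Real.cos_sq_add_sin_sq _
    have h1 : ∀ ζ : E 3, ‖extn (dens r G) ζ‖ₑ = ‖extn g (hsp_rot hab ζ)‖ₑ := by
      intro ζ
      rw [← extn_isometry g (hsp_rot hab) ζ]
      have h2 : extn (dens r G) ζ = Complex.exp (((τ * Real.log r : ℝ) : ℂ) * Complex.I) *
          ∫ x : S 3, g (hsp_rot hab x) *
            Complex.exp (((-(2 * π * inner ℝ (x : E 3) ζ) : ℝ) : ℂ) * Complex.I) ∂(sm 3) := by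
        rw [← integral_const_mul]
        unfold extn
        refine integral_congr_ae ?_
        filter_upwards [hsp_null] with x hx
        have h3 : dens r G (x : E 3) = Complex.exp (((τ * Real.log r : ℝ) : ℂ) * Complex.I) *
            g (hsp_rot hab x) :=
          hsp_spi c τ h hr _ _ hx (hsp_rot_zero hab x) (hsp_rot_one hab x)
        rw [h3, mul_assoc]
      rw [h2, ← ofReal_norm, norm_mul, Complex.norm_exp_ofReal_mul_I, one_mul,
        ofReal_norm]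
    simp_rw [h1]
    exact (hsp_rot hab).measurePreserving.lintegral_comp_emb
      (hsp_rot hab).toHomeomorph.measurableEmbedding (fun ξ => ‖extn g ξ‖ₑ ^ p)
  have h5 : ∀ r ∈ Icc (1 : ℝ) 2, ∫⁻ ξ : E 3, ‖extn g ξ‖ₑ ^ p ≤
      2 ^ (p + 1) * ∫⁻ ξ : E 3, ‖extn (up r G) ξ‖ₑ ^ p := by
    intro r hr
    rw [← key r (by linarith [hr.1])]
    exact dens_le p (by linarith) r G hGm hGb
  have h6 : (∫⁻ ξ : E 3, ‖extn g ξ‖ₑ ^ p) =
      ∫⁻ _ in Icc (1 : ℝ) 2, (∫⁻ ξ : E 3, ‖extn g ξ‖ₑ ^ p) := by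
    rw [setLIntegral_const, Real.volume_Icc]
    norm_num
  change (∫⁻ ξ : E 3, ‖extn g ξ‖ₑ ^ p) ≤ _
  rw [h6]
  calc ∫⁻ _ in Icc (1 : ℝ) 2, (∫⁻ ξ : E 3, ‖extn g ξ‖ₑ ^ p)
      ≤ ∫⁻ r in Icc (1 : ℝ) 2, 2 ^ (p + 1) * ∫⁻ ξ : E 3, ‖extn (up r G) ξ‖ₑ ^ p :=
        setLIntegral_mono' measurableSet_Icc h5
    _ = 2 ^ (p + 1) * ∫⁻ r in Icc (1 : ℝ) 2, ∫⁻ ξ : E 3, ‖extn (up r G) ξ‖ₑ ^ p := by
        rw [lintegral_const_mul' _ _ (ENNReal.rpow_ne_top_of_nonneg (by linarith)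
          ENNReal.ofNat_ne_top)]
    _ ≤ 2 ^ (p + 1) * C := mul_le_mul_right (hcore G hGm hGb) _

end Pool.Agent.MST
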