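import Pool.Agent.MST.TR
import Pool.Agent.MST.SP

namespace Pool.Agent.MST

open MeasureTheory Set Pool.Agent.MP_6cbfb8_an
open scoped ENNReal Real

theorem hfs_measurable (c τ : ℝ) (h : ℂ → ℂ) (hh : Measurable h) : Measurable (spi c τ h) := by
  unfold spi
  have h0 : Measurable fun w : E 2 => ((Real.log ‖w‖ : ℝ) : ℂ) :=
    Complex.measurable_ofReal.comp (Real.measurable_log.comp measurable_norm)
  have h1 : Measurable fun w : E 2 => (⟨w 0, w 1⟩ : ℂ) := by
    have h2 : (fun w : E 2 => (⟨w 0, w 1⟩ : ℂ)) =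
        fun w : E 2 => ((w 0 : ℝ) : ℂ) + ((w 1 : ℝ) : ℂ) * Complex.I := by
      funext w
      apply Complex.ext <;> simp
    rw [h2]
    have a0 : Measurable fun w : E 2 => w 0 := by fun_prop
    have a1 : Measurable fun w : E 2 => w 1 := by fun_prop
    exact (Complex.measurable_ofReal.comp a0).add
      ((Complex.measurable_ofReal.comp a1).mul_const _)
  refine Measurable.mul ?_ ?_
  · refine Complex.measurable_exp.comp ?_
    refine Measurable.mul_const ?_ _
    exact Complex.measurable_ofReal.comp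
      ((Real.measurable_log.comp measurable_norm).const_mul τ)
  · refine hh.comp (h1.mul (Complex.measurable_exp.comp (h0.const_mul _)))

theorem hfs_norm_le (c τ : ℝ) (h : ℂ → ℂ) (hb : ∀ z, ‖h z‖ ≤ 1) (w : E 2) :
    ‖spi c τ h w‖ ≤ 1 := by
  unfold spi
  rw [norm_mul, Complex.norm_exp_ofReal_mul_I, one_mul]
  exact hb _

/-
ROW FS (0.8 h). Assembly, spirals: `transfer` with the class cls G' := ∃ c τ h, Measurable h ∧ (∀ z, ‖h z‖ ≤ 1) ∧ G' = spi c τ h
(H from spiral_base), then `lintegral_mix_le` exactly as in RoughLongitude.result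
(Pool/Agent/Results/MP_6cbfb8_an/RoughLongitude.lean); measurability by measurable_spi; ‖spi‖ ≤ 1.
-/
theorem spirals (l : ℕ) (hl : 1 ≤ l) (N : ℕ) (p : ℝ) (hp : 2 * ((l : ℝ) + 2) / (l + 1) < p) :
    ∃ C : ℝ≥0∞, C ≠ ∞ ∧ ∀ (W : Type) (_ : MeasurableSpace W) (ν : Measure W)
      (_ : IsFiniteMeasure ν) (R : W → (E (2 + l) ≃ₗᵢ[ℝ] E (2 + l))) (η : W → E (2 + l))
      (b τ : W → ℝ) (h : W → ℂ → ℂ) (v : W → Fin N → E (2 + l)) (c : W → Fin N → ℝ),
      (Measurable fun q : W × E (2 + l) => R q.1 q.2) → Measurable η → Measurable b →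
      Measurable τ → (Measurable fun q : W × ℂ => h q.1 q.2) → Measurable v → Measurable c →
      (∀ w z, ‖h w z‖ ≤ 1) →
      ∫⁻ ξ, ‖extn (mix ν R η fun w x =>
        spi (b w) (τ w) (h w) (fstE x) * ∏ i, hsn (c w i) (v w i) x) ξ‖ₑ ^ p ≤ C * ν univ ^ p := by
  obtain ⟨C, hC, H⟩ := transfer (fun G' => ∃ (c τ : ℝ) (h : ℂ → ℂ), Measurable h ∧
    (∀ z, ‖h z‖ ≤ 1) ∧ G' = spi c τ h) (fun p hp => by
      obtain ⟨C, hC, H⟩ := spiral_base p hp
      refine ⟨C, hC, ?_⟩
      rintro G - - ⟨c, τ, h, hm, hb, rfl⟩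
      exact H c τ h hm hb) l hl N p hp
  refine ⟨C, hC, ?_⟩
  intro W _ ν _ R η b τ h v c hR hη hbm hτ hh hv hc hb
  have hp1 : 1 ≤ p := by
    have hl1 : (1:ℝ) ≤ l := by exact_mod_cast hl
    refine le_trans ?_ hp.le
    rw [le_div_iff₀ (by linarith)]
    linarith
  refine lintegral_mix_le hp1 (fun g => ∃ (b' τ' : ℝ) (h' : ℂ → ℂ) (v' : Fin N → E (2 + l))
    (c' : Fin N → ℝ), Measurable h' ∧ (∀ x, ‖h' x‖ ≤ 1) ∧
    g = fun x => spi b' τ' h' (fstE x) * ∏ i, hsn (c' i) (v' i) x) ?_ ν R η _ hR hη ?_ ?_ ?_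
  · rintro g - - ⟨b', τ', h', v', c', hm', hb', rfl⟩
    exact H (spi b' τ' h') (hfs_measurable b' τ' h' hm') (hfs_norm_le b' τ' h' hb')
      ⟨b', τ', h', hm', hb', rfl⟩ v' c'
  · have h1 : Measurable fun q : W × E (2 + l) => spi (b q.1) (τ q.1) (h q.1) (fstE q.2) :=
      measurable_spi l b τ h hbm hτ hh
    have h2 : Measurable fun q : W × E (2 + l) => ∏ i, hsn (c q.1 i) (v q.1 i) q.2 := by
      refine Finset.measurable_prod _ fun i _ => ?_
      unfold hsn
      refine Measurable.ite ?_ measurable_const measurable_const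
      have h3 : Measurable fun q : W × E (2 + l) => c q.1 i :=
        (measurable_pi_iff.1 hc i).comp measurable_fst
      have h4 : Measurable fun q : W × E (2 + l) => v q.1 i :=
        (measurable_pi_iff.1 hv i).comp measurable_fst
      exact measurableSet_lt h3 (measurable_snd.inner h4)
    exact h1.mul h2
  · intro w x
    rw [norm_mul]
    exact mul_le_one₀ (hfs_norm_le _ _ _ (hb w) _) (norm_nonneg _) (norm_prod_hsn_le _ _ _)
  · intro w
    exact ⟨b w, τ w, h w, v w, c w, hh.comp (f := fun z : ℂ => (w, z)) (by fun_prop), hb w, rfl⟩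

end Pool.Agent.MST
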