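import Pool.Agent.MST.Defs2

namespace Pool.Agent.MST

open MeasureTheory Set Pool.Agent.MP_6cbfb8_an
open scoped ENNReal Real

/-
ROW IV (1 h). Null sets under matrix inversion. Mat m = Matrix (Fin m) (Fin m) ℝ. The set {det = 0} is a null set (det is a nonzero
polynomial; Mathlib may have it for matrices, otherwise: MvPolynomial zero set, or: for fixed N the polynomial s ↦ det(N + s·1) has
finitely many zeros, Fubini/translation). On the open set {det ≠ 0} the map N ↦ N⁻¹ is differentiable (adjugate/det, or the Banach algebra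
inverse), so it maps null sets to null sets (MeasureTheory.addHaar_image_eq_zero_of_differentiableOn_of_addHaar_eq_zero); if
Z = {N : ¬ good N⁻¹} is null then {M : det M ≠ 0, ¬ good M} ⊆ image of Z ∩ {det ≠ 0} under inversion.
ae_local: countable cover (TopologicalSpace.exists... Lindelöf: Mat m is second countable) of the open set {N : Injective (mv N)} by balls
closedBall N0 ρ(N0); its complement is null (det = 0).
inj_iff: mv N injective iff det N ≠ 0, and then mv N⁻¹ (mv N w) = w = mv N (mv N⁻¹ w).
-/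

theorem hiv_det_diff (m n : ℕ) (g : Mat m → Matrix (Fin n) (Fin n) ℝ)
    (hg : ∀ i j, Differentiable ℝ (fun N => g N i j)) : Differentiable ℝ (fun N => (g N).det) := by
  have h : (fun N => (g N).det) = fun N => ∑ σ : Equiv.Perm (Fin n),
      ((Equiv.Perm.sign σ : ℤ) : ℝ) * ∏ i, g N (σ i) i := by
    funext N
    rw [Matrix.det_apply']
  rw [h]
  refine Differentiable.fun_sum (fun σ _ => ?_)
  refine Differentiable.const_mul ?_ _
  intro N
  exact (HasFDerivAt.finsetProd (u := Finset.univ) (g := fun i N => g N (σ i) i)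
    (fun i _ => (hg (σ i) i N).hasFDerivAt)).differentiableAt

theorem hiv_entry_diff (m : ℕ) (i j : Fin m) : Differentiable ℝ (fun N : Mat m => N i j) := by
  fun_prop

theorem hiv_det (m : ℕ) : Differentiable ℝ (fun N : Mat m => (Matrix.of N).det) :=
  hiv_det_diff m m (fun N => Matrix.of N) (fun i j => hiv_entry_diff m i j)

theorem hiv_adj (m : ℕ) (i j : Fin m) :
    Differentiable ℝ (fun N : Mat m => (Matrix.of N).adjugate i j) := by
  have h : (fun N : Mat m => (Matrix.of N).adjugate i j) =
      fun N : Mat m => ((Matrix.of N).updateRow j (Pi.single i 1)).det := by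
    funext N
    rw [Matrix.adjugate_apply]
  rw [h]
  refine hiv_det_diff m m _ (fun a b => ?_)
  by_cases ha : a = j
  · subst ha
    have : (fun N : Mat m => (Matrix.of N).updateRow a (Pi.single i 1) a b) =
        fun _ => (Pi.single i 1 : Fin m → ℝ) b := by
      funext N
      rw [Matrix.updateRow_self]
    rw [this]
    exact differentiable_const _
  · have : (fun N : Mat m => (Matrix.of N).updateRow j (Pi.single i 1) a b) =
        fun N => N a b := by
      funext N
      rw [Matrix.updateRow_ne ha]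
      rfl
    rw [this]
    exact hiv_entry_diff m a b

/-- the inversion map -/
noncomputable def hivInv (m : ℕ) (N : Mat m) : Mat m :=
  ((Matrix.of N)⁻¹ : Matrix (Fin m) (Fin m) ℝ)

theorem hiv_inv_diff (m : ℕ) : DifferentiableOn ℝ (hivInv m) {N | (Matrix.of N).det ≠ 0} := by
  intro N hN
  apply DifferentiableAt.differentiableWithinAt
  rw [differentiableAt_pi]
  intro i
  rw [differentiableAt_pi]
  intro j
  have h : (fun N : Mat m => hivInv m N i j) =
      fun N : Mat m => ((Matrix.of N).det)⁻¹ * (Matrix.of N).adjugate i j := by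
    funext N
    unfold hivInv
    rw [Matrix.inv_def, Ring.inverse_eq_inv', Matrix.smul_apply, smul_eq_mul]
  rw [h]
  exact ((hiv_det m).differentiableAt.inv hN).mul (hiv_adj m i j).differentiableAt

theorem hiv_null (m : ℕ) : (volume : Measure (Mat m)) {N | (Matrix.of N).det = 0} = 0 := by
  set Z : Set (Mat m) := {N | (Matrix.of N).det = 0} with hZ
  have hcont : Continuous (fun N : Mat m => (Matrix.of N).det) := (hiv_det m).continuous
  have hZm : MeasurableSet Z := (isClosed_singleton.preimage hcont).measurableSet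
  set one : Mat m := fun i j => (1 : Matrix (Fin m) (Fin m) ℝ) i j with hone
  set S : Set (ℝ × Mat m) := {p | p.2 + p.1 • one ∈ Z} with hS
  have hSm : MeasurableSet S := by
    have hc : Continuous (fun p : ℝ × Mat m => p.2 + p.1 • one) := by fun_prop
    exact hc.measurable hZm
  have h1 : ((volume : Measure ℝ).prod (volume : Measure (Mat m))) S = 0 := by
    rw [Measure.prod_apply_symm hSm]
    have : ∀ N : Mat m, (volume : Measure ℝ) ((fun s => (s, N)) ⁻¹' S) = 0 := by
      intro N
      have hfin : ((fun s : ℝ => (s, N)) ⁻¹' S).Finite := by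
        have hsub : ((fun s : ℝ => (s, N)) ⁻¹' S) ⊆
            {s : ℝ | (-(Matrix.of N)).charpoly.IsRoot s} := by
          intro s hs
          have hs' : (Matrix.of (N + s • one)).det = 0 := hs
          show Polynomial.eval s (-(Matrix.of N)).charpoly = 0
          rw [Matrix.eval_charpoly]
          rw [← hs']
          congr 1
          ext i j
          simp [hone, Matrix.scalar_apply, Matrix.diagonal_apply, Matrix.one_apply]
          ring
        refine Set.Finite.subset ?_ hsub
        exact Polynomial.finite_setOfPred_isRoot (Matrix.charpoly_monic _).ne_zero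
      exact hfin.measure_zero _
    simp [this]
  rw [Measure.prod_apply hSm] at h1
  have h2 : ∀ s : ℝ, (volume : Measure (Mat m)) (Prod.mk s ⁻¹' S) = volume Z := by
    intro s
    have : (Prod.mk s ⁻¹' S) = (fun N : Mat m => N + s • one) ⁻¹' Z := rfl
    rw [this, measure_preimage_add_right]
  simp only [h2, lintegral_const, Real.volume_univ] at h1
  rcases mul_eq_zero.1 h1 with h | h
  · exact h
  · exact absurd h (by simp)

theorem hiv_mv (m : ℕ) (N : Mat m) (w : E m) :
    mv N w = WithLp.toLp 2 ((Matrix.of N).mulVec (WithLp.ofLp w)) := rfl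

theorem hiv_inj (m : ℕ) (N : Mat m) (h : Function.Injective (mv N)) : (Matrix.of N).det ≠ 0 := by
  intro hdet
  obtain ⟨v, hv, hv0⟩ := Matrix.exists_mulVec_eq_zero_iff.2 hdet
  have h1 : mv N (WithLp.toLp 2 v) = mv N 0 := by
    rw [hiv_mv, hiv_mv]
    simp only [hv0]
    congr 1
    rw [WithLp.ofLp_zero, Matrix.mulVec_zero]
  have h2 := h h1
  apply hv
  have := congrArg WithLp.ofLp h2
  simpa using this

theorem hiv_left (m : ℕ) (N : Mat m) (h : (Matrix.of N).det ≠ 0) (w : E m) :
    mv ((Matrix.of N)⁻¹ : Matrix (Fin m) (Fin m) ℝ) (mv N w) = w := by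
  have hu : IsUnit (Matrix.of N).det := isUnit_iff_ne_zero.2 h
  show WithLp.toLp 2 (((Matrix.of N)⁻¹ : Matrix (Fin m) (Fin m) ℝ).mulVec
    ((Matrix.of N).mulVec (WithLp.ofLp w))) = w
  rw [Matrix.mulVec_mulVec, Matrix.nonsing_inv_mul _ hu, Matrix.one_mulVec]

theorem hiv_right (m : ℕ) (N : Mat m) (h : (Matrix.of N).det ≠ 0) (w : E m) :
    mv N (mv ((Matrix.of N)⁻¹ : Matrix (Fin m) (Fin m) ℝ) w) = w := by
  have hu : IsUnit (Matrix.of N).det := isUnit_iff_ne_zero.2 h
  show WithLp.toLp 2 ((Matrix.of N).mulVec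
    (((Matrix.of N)⁻¹ : Matrix (Fin m) (Fin m) ℝ).mulVec (WithLp.ofLp w))) = w
  rw [Matrix.mulVec_mulVec, Matrix.mul_nonsing_inv _ hu, Matrix.one_mulVec]

theorem ae_inv (m : ℕ) (good : Mat m → Prop)
    (h : ∀ᵐ N : Mat m, good ((Matrix.of N)⁻¹ : Matrix (Fin m) (Fin m) ℝ)) :
    ∀ᵐ M : Mat m, good M := by
  have hZ : (volume : Measure (Mat m)) {N | ¬ good (hivInv m N)} = 0 := h
  have himg : (volume : Measure (Mat m))
      (hivInv m '' ({N | ¬ good (hivInv m N)} ∩ {N | (Matrix.of N).det ≠ 0})) = 0 := by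
    apply addHaar_image_eq_zero_of_differentiableOn_of_addHaar_eq_zero
    · exact (hiv_inv_diff m).mono inter_subset_right
    · exact measure_mono_null inter_subset_left hZ
  have hsub : {M : Mat m | ¬ good M} ⊆ {N | (Matrix.of N).det = 0} ∪
      (hivInv m '' ({N | ¬ good (hivInv m N)} ∩ {N | (Matrix.of N).det ≠ 0})) := by
    intro M hM
    by_cases hd : (Matrix.of M).det = 0
    · exact Or.inl hd
    · right
      have hu : IsUnit (Matrix.of M).det := isUnit_iff_ne_zero.2 hd
      have hinv : hivInv m (hivInv m M) = M := by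
        show ((Matrix.of ((Matrix.of M)⁻¹ : Matrix (Fin m) (Fin m) ℝ))⁻¹ : Matrix (Fin m) (Fin m) ℝ) = M
        exact Matrix.nonsing_inv_nonsing_inv (Matrix.of M) hu
      refine ⟨hivInv m M, ⟨?_, ?_⟩, hinv⟩
      · show ¬ good (hivInv m (hivInv m M))
        rw [hinv]
        exact hM
      · show ((Matrix.of M)⁻¹ : Matrix (Fin m) (Fin m) ℝ).det ≠ 0
        exact (Matrix.isUnit_nonsing_inv_det _ hu).ne_zero
  exact measure_mono_null hsub (measure_union_null (hiv_null m) himg)

theorem inverse_mv (m : ℕ) (N : Mat m) (h : Function.Injective (mv N)) (w : E m) :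
    mv ((Matrix.of N)⁻¹ : Matrix (Fin m) (Fin m) ℝ) (mv N w) = w ∧
      mv N (mv ((Matrix.of N)⁻¹ : Matrix (Fin m) (Fin m) ℝ) w) = w :=
  ⟨hiv_left m N (hiv_inj m N h) w, hiv_right m N (hiv_inj m N h) w⟩

theorem ae_local (m : ℕ) (good : Mat m → Prop)
    (h : ∀ N0 : Mat m, Function.Injective (mv N0) → ∃ ρ : ℝ, 0 < ρ ∧
      ∀ᵐ N ∂((volume : Measure (Mat m)).restrict (Metric.closedBall N0 ρ)), good N) :
    ∀ᵐ N : Mat m, Function.Injective (mv N) ∧ good N := by
  choose! ρ hρ hgood using h
  set U : Set (Mat m) := {N | Function.Injective (mv N)} with hU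
  obtain ⟨T, hTU, hTc, hcov⟩ := TopologicalSpace.countable_cover_nhdsWithin
    (f := fun N : Mat m => Metric.closedBall N (ρ N)) (s := U)
    (fun N hN => mem_nhdsWithin_of_mem_nhds (Metric.closedBall_mem_nhds N (hρ N hN)))
  have h1 : ∀ᵐ N : Mat m, ∀ N0 ∈ T, N ∈ Metric.closedBall N0 (ρ N0) → good N := by
    rw [ae_ball_iff hTc]
    intro N0 hN0
    exact (ae_restrict_iff' Metric.isClosed_closedBall.measurableSet).1 (hgood N0 (hTU hN0))
  have h2 : ∀ᵐ N : Mat m, (Matrix.of N).det ≠ 0 := by
    have := hiv_null m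
    rw [ae_iff]
    simpa using this
  filter_upwards [h1, h2] with N hN1 hN2
  have hinj : Function.Injective (mv N) := by
    intro w w' hw
    rw [← hiv_left m N hN2 w, hw, hiv_left m N hN2 w']
  refine ⟨hinj, ?_⟩
  have hmem := hcov (show N ∈ U from hinj)
  obtain ⟨N0, hN0, hNN0⟩ := mem_iUnion₂.1 hmem
  exact hN1 N0 hN0 hNN0

end Pool.Agent.MST
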