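import Pool.Agent.MST.PT
import Pool.Agent.MST.CT
import Pool.Agent.MST.IV

namespace Pool.Agent.MST

open MeasureTheory Set Pool.Agent.MP_6cbfb8_an
open scoped ENNReal Real

/-- smooth cut-off function: `0` below `c / 2`, `1` above `c` -/
noncomputable def hft_b (c x : ℝ) : ℝ := Real.smoothTransition ((2 * x - c) / c)

/-- the amplitude belonging to `hft_b` -/
noncomputable def hft_a (c v : ℝ) : ℝ := hft_b c √v / √v

lemma hft_b_smooth (c : ℝ) (n : ℕ) : ContDiff ℝ n (hft_b c) := by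
  unfold hft_b
  exact Real.smoothTransition.contDiff.comp (by fun_prop)

lemma hft_b_zero {c x : ℝ} (hc : 0 < c) (hx : x ≤ c / 2) : hft_b c x = 0 := by
  unfold hft_b
  apply Real.smoothTransition.zero_of_nonpos
  exact div_nonpos_of_nonpos_of_nonneg (by linarith) hc.le

lemma hft_b_one {c x : ℝ} (hc : 0 < c) (hx : c ≤ x) : hft_b c x = 1 := by
  unfold hft_b
  apply Real.smoothTransition.one_of_one_le
  rw [le_div_iff₀ hc]
  linarith

lemma hft_b_abs (c x : ℝ) : |hft_b c x| ≤ 1 := by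
  unfold hft_b
  rw [abs_of_nonneg (Real.smoothTransition.nonneg _)]
  exact Real.smoothTransition.le_one _

lemma hft_cut {c : ℝ} (hc : 0 < c) : Cut2 (c ^ 2 / 4) (hft_a c) := by
  have h0 : ∀ v, v ≤ c ^ 2 / 4 → hft_a c v = 0 := by
    intro v hv
    unfold hft_a
    rw [hft_b_zero hc, zero_div]
    rw [Real.sqrt_le_left (by positivity)]
    linarith
  refine ⟨fun n => ?_, h0⟩
  rw [contDiff_iff_contDiffAt]
  intro v
  rcases lt_or_ge v (c ^ 2 / 4) with h | h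
  · have h1 : hft_a c =ᶠ[nhds v] fun _ => 0 := by
      filter_upwards [Iio_mem_nhds h] with w hw
      exact h0 w (le_of_lt hw)
    exact contDiffAt_const.congr_of_eventuallyEq h1
  · have hv : 0 < v := lt_of_lt_of_le (by positivity) h
    have h1 : ContDiffAt ℝ n (fun v => √v) v := Real.contDiffAt_sqrt hv.ne'
    have h2 : ContDiffAt ℝ n (fun v => hft_b c √v) v := (hft_b_smooth c n).contDiffAt.comp v h1
    exact h2.div h1 (Real.sqrt_pos.2 hv).ne'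

/-- the smoothly cut density -/
noncomputable def hft_D {m : ℕ} (c : ℝ) (G : E m → ℂ) (M : Mat m) (x : E (m + 1)) : ℂ :=
  if 0 < x (Fin.last m) then
    G (mv M (fstE (k := m) (l := 1) x)) * ((hft_b c (x (Fin.last m)) : ℝ) : ℂ) else 0

lemma hft_D_meas {m : ℕ} (c : ℝ) (G : E m → ℂ) (hG : Measurable G) (M : Mat m) :
    Measurable (hft_D c G M) := by
  unfold hft_D
  refine Measurable.ite ?_ ?_ measurable_const
  · exact measurableSet_lt measurable_const (by fun_prop)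
  · refine Measurable.mul (hG.comp ?_) ?_
    · exact (continuous_mv.comp (continuous_const.prodMk
        (continuous_fstE (k := m) (l := 1)))).measurable
    · refine Complex.measurable_ofReal.comp ?_
      exact (hft_b_smooth c 0).continuous.measurable.comp (by fun_prop)

lemma hft_D_norm {m : ℕ} (c : ℝ) (G : E m → ℂ) (hb : ∀ w, ‖G w‖ ≤ 1) (M : Mat m)
    (x : E (m + 1)) : ‖hft_D c G M x‖ ≤ 1 := by
  unfold hft_D
  split_ifs
  · rw [norm_mul, Complex.norm_real, Real.norm_eq_abs]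
    exact mul_le_one₀ (hb _) (abs_nonneg _) (hft_b_abs _ _)
  · simp

lemma hft_meas {m : ℕ} (c0 : ℝ) (a : ℝ → ℝ) (ha : Cut2 c0 a) (G : E m → ℂ)
    (hG : Measurable G) (p : ℝ) :
    Measurable fun N : Mat m => ∫⁻ t : ℝ, ∫⁻ x : E m, ‖op2 a N t G x‖ₑ ^ p := by
  have h1 : Measurable fun q : Mat m × ℝ × E m => ‖op2 a q.1 q.2.1 G q.2.2‖ₑ ^ p :=
    (measurable_op2 c0 a ha G hG).enorm.pow_const p
  have h2 : Measurable fun q : (Mat m × ℝ) × E m => ‖op2 a q.1.1 q.1.2 G q.2‖ₑ ^ p :=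
    h1.comp (f := fun q : (Mat m × ℝ) × E m => (q.1.1, q.1.2, q.2)) (by fun_prop)
  exact h2.lintegral_prod_right'.lintegral_prod_right'

theorem hft_step1 (m : ℕ) (hm : 2 ≤ m) (G : E m → ℂ) (hG : Measurable G)
    (hb : ∀ w, ‖G w‖ ≤ 1) (c : ℝ) (hc : 0 < c) (p : ℝ) (hp : 2 + 2 / (m : ℝ) < p) :
    ∀ᵐ N : Mat m, Function.Injective (mv N) ∧
      ∫⁻ t : ℝ, ∫⁻ x : E m, ‖op2 (hft_a c) N t G x‖ₑ ^ p < ∞ := by
  refine ae_local m (fun N => ∫⁻ t : ℝ, ∫⁻ x : E m, ‖op2 (hft_a c) N t G x‖ₑ ^ p < ∞) ?_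
  intro N0 h0
  obtain ⟨ρ, hρ, C, hC, h⟩ := Lp_local m hm N0 h0 (c ^ 2 / 4) (by positivity) (hft_a c)
    (hft_cut hc) p hp
  refine ⟨ρ, hρ, ?_⟩
  exact ae_lt_top (hft_meas _ _ (hft_cut hc) G hG p)
    (ne_of_lt ((h G hG hb).trans_lt (lt_top_iff_ne_top.2 hC)))

theorem hft_step2 (m : ℕ) (hm : 2 ≤ m) (G : E m → ℂ) (hG : Measurable G)
    (hb : ∀ w, ‖G w‖ ≤ 1) : ∀ᵐ M : Mat m, ∀ j i : ℕ,
      ∫⁻ ξ : E (m + 1), ‖extn (hft_D (1 / ((j : ℝ) + 1)) G M) ξ‖ₑ ^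
        (2 + 2 / (m : ℝ) + 1 / ((i : ℝ) + 1)) < ∞ := by
  refine ae_inv m (fun M => ∀ j i : ℕ,
      ∫⁻ ξ : E (m + 1), ‖extn (hft_D (1 / ((j : ℝ) + 1)) G M) ξ‖ₑ ^
        (2 + 2 / (m : ℝ) + 1 / ((i : ℝ) + 1)) < ∞) ?_
  rw [ae_all_iff]
  intro j
  rw [ae_all_iff]
  intro i
  have hj : (0 : ℝ) < 1 / ((j : ℝ) + 1) := by positivity
  have hi : (0 : ℝ) < 1 / ((i : ℝ) + 1) := by positivity
  have hm0 : (0 : ℝ) ≤ 2 / (m : ℝ) := by positivity
  filter_upwards [hft_step1 m hm G hG hb _ hj (2 + 2 / (m : ℝ) + 1 / ((i : ℝ) + 1))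
    (by linarith)] with N hN
  obtain ⟨C, hC, h⟩ := chart_two m (by omega) ((Matrix.of N)⁻¹ : Matrix (Fin m) (Fin m) ℝ) N
    (fun w => (inverse_mv m N hN.1 w).1) (fun w => (inverse_mv m N hN.1 w).2)
    ((1 / ((j : ℝ) + 1)) ^ 2 / 4) (by positivity) (hft_a (1 / ((j : ℝ) + 1)))
    (hft_b (1 / ((j : ℝ) + 1))) (hft_cut hj) (hft_b_smooth _ 0).continuous.measurable
    (fun v _ _ => rfl) (2 + 2 / (m : ℝ) + 1 / ((i : ℝ) + 1)) (by linarith)
  refine (h G hG hb).trans_lt ?_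
  exact ENNReal.mul_lt_top (lt_top_iff_ne_top.2 hC) hN.2

theorem hft_one (m : ℕ) (hm : 2 ≤ m) (G : E m → ℂ) (hG : Measurable G)
    (hb : ∀ w, ‖G w‖ ≤ 1) : ∀ᵐ M : Mat m, ∀ c : ℝ, 0 < c → ∀ p : ℝ,
      2 * ((m : ℝ) + 1) / m < p → ∀ (K : ℕ) (v : Fin K → E (m + 1)) (e : Fin K → ℝ),
      ∫⁻ ξ, ‖extn (fun x : E (m + 1) => (if c < x (Fin.last m) then
        G (mv M (fstE (k := m) (l := 1) x)) else 0) * ∏ i, hsn (e i) (v i) x) ξ‖ₑ ^ p < ∞ := by
  filter_upwards [hft_step2 m hm G hG hb] with M hM c hc p hp K v e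
  have hm0 : (0 : ℝ) < m := by
    have : 0 < m := by omega
    exact_mod_cast this
  have hp0 : 2 * ((m : ℝ) + 1) / m = 2 + 2 / (m : ℝ) := by
    field_simp
  have hp1 : (0 : ℝ) < 2 / (m : ℝ) := by positivity
  obtain ⟨j, hj⟩ := exists_nat_one_div_lt hc
  have hj0 : (0 : ℝ) < 1 / ((j : ℝ) + 1) := by positivity
  obtain ⟨C, hC, h⟩ := multicut (m + 1) (by omega) (2 * ((m : ℝ) + 1) / m)
    (by rw [hp0]; linarith) (fun g => g = hft_D (1 / ((j : ℝ) + 1)) G M) (by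
      intro p' hp'
      refine ⟨∫⁻ ξ, ‖extn (hft_D (1 / ((j : ℝ) + 1)) G M) ξ‖ₑ ^ p', ?_, ?_⟩
      · obtain ⟨i, hi⟩ := exists_nat_one_div_lt (sub_pos.2 hp')
        rw [hp0] at hi
        have hi0 : (0 : ℝ) < 1 / ((i : ℝ) + 1) := by positivity
        refine ne_of_lt (lt_of_le_of_lt (lintegral_rpow_le_sup (p := p')
          (p' := 2 + 2 / (m : ℝ) + 1 / ((i : ℝ) + 1))
          (fun ξ : E (m + 1) => ‖extn (hft_D (1 / ((j : ℝ) + 1)) G M) ξ‖ₑ)
          (measurable_extn _ (hft_D_meas _ G hG M)).enorm (by linarith) (by linarith)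
          (sm (m + 1) univ)
          (fun ξ => liftE2_enorm_extn_le _ (fun x => hft_D_norm _ G hb M x) ξ)) ?_)
        exact ENNReal.mul_lt_top (lt_top_iff_ne_top.2
          (ENNReal.rpow_ne_top_of_nonneg (by linarith) (sm_univ_ne_top _))) (hM j i)
      · rintro g _ _ rfl
        exact le_rfl) (K + 1) p hp
  refine lt_of_le_of_lt (le_of_eq ?_) (lt_of_le_of_lt (h (hft_D (1 / ((j : ℝ) + 1)) G M)
    (hft_D_meas _ G hG M) (hft_D_norm _ G hb M) rfl (Fin.cons (eLast m) v) (Fin.cons c e))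
    (lt_top_iff_ne_top.2 hC))
  refine lintegral_congr fun ξ => ?_
  congr 3
  funext x
  rw [Fin.prod_univ_succ]
  simp only [Fin.cons_zero, Fin.cons_succ]
  rw [← mul_assoc]
  congr 1
  unfold hft_D hsn
  rw [inner_eLast]
  by_cases hx : c < x (Fin.last m)
  · rw [if_pos hx, if_pos hx, if_pos (hc.trans hx), hft_b_one hj0 (hj.le.trans hx.le)]
    simp
  · rw [if_neg hx, if_neg hx, mul_zero]

/-
ROW FT (1.8 h). Final assembly for linear images. Fix G, ‖G‖ ≤ 1 wlog. For j ∈ ℕ let c = 1/(j+1), β_j smooth with β_j = 1 on [c, ∞) and 0 on (-∞, c/2]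
(Real.smoothTransition), |β_j| ≤ 1; a_j v = β_j(√v)/√v for v > c²/4 (zero below): Cut2 (c²/4) a_j (smooth for v > 0, zero for v ≤ c²/4; as β_j(√v) = 0 there).
Step 1: for each j and each p = p0 + 1/(i+1), p0 = 2+2/m: Lp_local and measurability (measurable_op2) give locally a.e. N: ∫⁻ t ∫⁻ x ‖op2 a_j N t G x‖^p < ∞;
ae_local: for a.e. N all of them (countably many) hold and mv N is injective. Step 2: ae_inv with
good M := ∀ j i, ∫⁻ ξ ‖extn (D_j M) ξ‖^(p_i) < ∞, D_j M the density of chart_two (M = N⁻¹, inverse_mv). So for a.e. M, all j, and all p > p0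
(lintegral_rpow_le_sup, ‖extn‖ₑ ≤ B·sm univ): ∫⁻ ‖extn (D_j M)‖^p < ∞. Step 3: given c > 0 choose j with 1/(j+1) ≤ c. `multicut` for n = m+1, p0, and the
class {D_j M} (single element; ‖D_j M‖ ≤ 1), K+1 cuts, the first one hsn c (eLast m): G(mv M (fstE x)) * hsn c e x ∏ hsn = D_j M x * hsn c e x ∏ hsn,
because hsn c e x ≠ 0 means x_last > c ≥ 1/(j+1), where β_j = 1. p0 = 2+2/m = 2(m+1)/m.
(General bounded G: divide by a constant.)
-/
theorem linear_images (m : ℕ) (hm : 2 ≤ m) (G : E m → ℂ) (hG : Measurable G)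
    (hb : ∃ B : ℝ, ∀ w, ‖G w‖ ≤ B) : ∀ᵐ M : Mat m, ∀ c : ℝ, 0 < c → ∀ p : ℝ,
      2 * ((m : ℝ) + 1) / m < p → ∀ (K : ℕ) (v : Fin K → E (m + 1)) (e : Fin K → ℝ),
      ∫⁻ ξ, ‖extn (fun x : E (m + 1) => (if c < x (Fin.last m) then
        G (mv M (fstE (k := m) (l := 1) x)) else 0) * ∏ i, hsn (e i) (v i) x) ξ‖ₑ ^ p < ∞ := by
  obtain ⟨B, hB⟩ := hb
  set b : ℝ := max B 1 with hb
  have hb0 : 0 < b := lt_of_lt_of_le one_pos (le_max_right _ _)
  have hbc : ((b : ℝ) : ℂ) ≠ 0 := by exact_mod_cast hb0.ne'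
  have h1 := hft_one m hm (fun w => ((b : ℝ) : ℂ)⁻¹ * G w) (measurable_const.mul hG) (fun w => by
    rw [norm_mul, norm_inv, Complex.norm_real, Real.norm_eq_abs, abs_of_pos hb0,
      inv_mul_le_iff₀ hb0, mul_one]
    exact (hB w).trans (le_max_left _ _))
  filter_upwards [h1] with M hM c hc p hp K v e
  have h2 := hM c hc p hp K v e
  have hp0 : 0 ≤ p := by
    refine le_trans ?_ hp.le
    positivity
  have e1 : ∀ ξ, ‖extn (fun x : E (m + 1) => (if c < x (Fin.last m) then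
        G (mv M (fstE (k := m) (l := 1) x)) else 0) * ∏ i, hsn (e i) (v i) x) ξ‖ₑ ^ p =
      ‖((b : ℝ) : ℂ)‖ₑ ^ p * ‖extn (fun x : E (m + 1) => (if c < x (Fin.last m) then
        ((b : ℝ) : ℂ)⁻¹ * G (mv M (fstE (k := m) (l := 1) x)) else 0) *
          ∏ i, hsn (e i) (v i) x) ξ‖ₑ ^ p := by
    intro ξ
    rw [← ENNReal.mul_rpow_of_nonneg _ _ hp0, ← enorm_mul, ← lonG_extn_const_mul]
    congr 3
    funext x
    split_ifs
    · field_simp
    · simp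
  rw [lintegral_congr e1, lintegral_const_mul']
  · exact ENNReal.mul_lt_top (ENNReal.rpow_lt_top_of_nonneg hp0 enorm_ne_top) h2
  · exact ENNReal.rpow_ne_top_of_nonneg hp0 enorm_ne_top

end Pool.Agent.MST
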