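import Pool.Agent.MST.Defs2

namespace Pool.Agent.MST

open MeasureTheory Set Pool.Agent.MP_6cbfb8_an
open scoped ENNReal Real

/-
ROW GH (1 h). The Gaussian weight in time. finite_muJ: v^(2J) exp(-π v²) is integrable, t = T v.
gauss_decay: ∫ etaJ J (t/T) ex (t F) dt = T ∫ etaJ J v ex (v T F) dv and |∫ η(v) ex(v y) dv| ≤ C |y|^(-J) by J integrations by parts
(η is a Schwartz function: η^(j) integrable for all j; or Mathlib: the Fourier transform of a Schwartz map is a Schwartz map;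
or the induction ∫ v^(n) e^{-πv²} ex(vy) = polynomial(y) e^{-πy²}).
gauss_weight: ∫⁻ etaJ J (t/T) (|t| D)^(-J) dt = T (T D)^(-J) ∫ |v|^J exp(-π v²) dv.
-/

theorem hgh_int_pow (n : ℕ) : Integrable fun v : ℝ => v ^ n * Real.exp (-(π * v ^ 2)) := by
  have h := integrable_rpow_mul_exp_neg_mul_sq Real.pi_pos
    (s := (n : ℝ)) (by have : (0 : ℝ) ≤ n := Nat.cast_nonneg n; linarith)
  refine h.congr (Filter.Eventually.of_forall fun v => ?_)
  simp only [Real.rpow_natCast, neg_mul]

theorem hgh_int_abs (n : ℕ) : Integrable fun v : ℝ => |v| ^ n * Real.exp (-(π * v ^ 2)) := by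
  refine (hgh_int_pow n).norm.congr (Filter.Eventually.of_forall fun v => ?_)
  simp only [norm_mul, norm_pow, Real.norm_eq_abs, Real.abs_exp]

theorem hgh_eta_nonneg (J : ℕ) (v : ℝ) : 0 ≤ etaJ J v := by
  unfold etaJ
  have : 0 ≤ v ^ (2 * J) := by
    rw [pow_mul]; positivity
  positivity

theorem hgh_int_eta (J : ℕ) : Integrable (etaJ J) := hgh_int_pow (2 * J)

theorem hgh_int_etaT (J : ℕ) {T : ℝ} (hT : 0 < T) : Integrable fun t : ℝ => etaJ J (t / T) :=
  (hgh_int_eta J).comp_div hT.ne'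

theorem finite_muJ (J : ℕ) (T : ℝ) (hT : 0 < T) : IsFiniteMeasure (muJ J T) :=
  isFiniteMeasure_withDensity_ofReal (hgh_int_etaT J hT).hasFiniteIntegral

theorem hgh_lintegral {f : ℝ → ℝ} (hf : Integrable f) (h0 : ∀ v, 0 ≤ f v) {T : ℝ} (hT : 0 < T) :
    ∫⁻ t : ℝ, ENNReal.ofReal (f (t / T)) = ENNReal.ofReal (T * ∫ v, f v) := by
  rw [← ofReal_integral_eq_lintegral_ofReal (hf.comp_div hT.ne')
    (Filter.Eventually.of_forall fun t => h0 _)]
  rw [Measure.integral_comp_div (fun v => f v) T, abs_of_pos hT, smul_eq_mul]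

theorem muJ_univ (J : ℕ) : ∃ C : ℝ, 0 < C ∧ ∀ T : ℝ, 0 < T →
    muJ J T univ ≤ ENNReal.ofReal (C * T) := by
  have h0 : 0 ≤ ∫ v, etaJ J v := integral_nonneg fun v => hgh_eta_nonneg J v
  refine ⟨(∫ v, etaJ J v) + 1, by linarith, fun T hT => ?_⟩
  unfold muJ
  rw [withDensity_apply _ MeasurableSet.univ, Measure.restrict_univ,
    hgh_lintegral (hgh_int_eta J) (hgh_eta_nonneg J) hT]
  apply ENNReal.ofReal_le_ofReal
  nlinarith

/-- a polynomial times the Gaussian -/
noncomputable def hgh_g (P : Polynomial ℝ) (v : ℝ) : ℝ := P.eval v * Real.exp (-(π * v ^ 2))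

theorem hgh_int_g (P : Polynomial ℝ) : Integrable (hgh_g P) := by
  induction P using Polynomial.induction_on' with
  | add p q hp hq =>
    refine (hp.add hq).congr (Filter.Eventually.of_forall fun v => ?_)
    simp only [hgh_g, Pi.add_apply, Polynomial.eval_add]
    ring
  | monomial n a =>
    refine ((hgh_int_pow n).const_mul a).congr (Filter.Eventually.of_forall fun v => ?_)
    simp only [hgh_g, Polynomial.eval_monomial]
    ring

theorem hgh_deriv (P : Polynomial ℝ) (v : ℝ) :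
    HasDerivAt (hgh_g P) (hgh_g (P.derivative - Polynomial.C (2 * π) * Polynomial.X * P) v) v := by
  have h1 : HasDerivAt (fun v => P.eval v) (P.derivative.eval v) v := P.hasDerivAt v
  have h2 : HasDerivAt (fun v : ℝ => Real.exp (-(π * v ^ 2)))
      (Real.exp (-(π * v ^ 2)) * (-(π * (2 * v)))) v := by
    refine HasDerivAt.exp ?_
    have := ((hasDerivAt_pow 2 v).const_mul π).neg
    refine (this.congr_of_eventuallyEq (Filter.Eventually.of_forall fun y => ?_)).congr_deriv ?_
    · rfl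
    · norm_num
  have h3 := h1.mul h2
  refine h3.congr_deriv ?_
  simp only [hgh_g, Polynomial.eval_sub, Polynomial.eval_mul, Polynomial.eval_C, Polynomial.eval_X]
  ring

theorem hgh_decay (J : ℕ) : ∀ P : Polynomial ℝ, ∃ C : ℝ, 0 ≤ C ∧ ∀ y : ℝ,
    |y| ^ J * ‖∫ v : ℝ, ((hgh_g P v : ℝ) : ℂ) * ex (v * y)‖ ≤ C := by
  induction J with
  | zero =>
    intro P
    refine ⟨∫ v, ‖hgh_g P v‖, integral_nonneg fun v => norm_nonneg _, fun y => ?_⟩
    rw [pow_zero, one_mul]
    refine (norm_integral_le_integral_norm _).trans (le_of_eq ?_)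
    congr 1
    ext v
    rw [norm_mul, Complex.norm_real]
    have : ‖ex (v * y)‖ = 1 := by
      unfold ex
      exact Complex.norm_exp_ofReal_mul_I _
    rw [this, mul_one]
  | succ J ih =>
    intro P
    obtain ⟨C, hC0, hC⟩ := ih (P.derivative - Polynomial.C (2 * π) * Polynomial.X * P)
    refine ⟨C / (2 * π), by positivity, fun y => ?_⟩
    have key : ∫ v : ℝ, ((hgh_g (P.derivative - Polynomial.C (2 * π) * Polynomial.X * P) v : ℝ) : ℂ)
        * ex (v * y) = (2 * π * Complex.I * y) * ∫ v : ℝ, ((hgh_g P v : ℝ) : ℂ) * ex (v * y) := by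
      have hd : ∀ v : ℝ, HasDerivAt (fun v : ℝ => ((hgh_g P v : ℝ) : ℂ))
          ((hgh_g (P.derivative - Polynomial.C (2 * π) * Polynomial.X * P) v : ℝ) : ℂ) v :=
        fun v => (hgh_deriv P v).ofReal_comp
      have hde : deriv (fun v : ℝ => ((hgh_g P v : ℝ) : ℂ)) =
          fun v : ℝ => ((hgh_g (P.derivative - Polynomial.C (2 * π) * Polynomial.X * P) v : ℝ) : ℂ) :=
        funext fun v => (hd v).deriv
      have h1 := Real.fourier_deriv (f := fun v : ℝ => ((hgh_g P v : ℝ) : ℂ))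
        (hgh_int_g P).ofReal (fun v => (hd v).differentiableAt)
        (by rw [hde]; exact (hgh_int_g _).ofReal)
      have h2 := congrFun h1 y
      rw [hde] at h2
      simp only [Real.fourier_real_eq_integral_exp_smul, smul_eq_mul] at h2
      have e1 : ∀ v : ℝ, ex (v * y) = Complex.exp (((-2 * π * v * y : ℝ) : ℂ) * Complex.I) := by
        intro v
        unfold ex
        congr 3
        ring
      calc _ = ∫ v : ℝ, Complex.exp (((-2 * π * v * y : ℝ) : ℂ) * Complex.I) *
            ((hgh_g (P.derivative - Polynomial.C (2 * π) * Polynomial.X * P) v : ℝ) : ℂ) := by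
              congr 1
              ext v
              rw [e1, mul_comm]
        _ = _ := by
              rw [h2]
              congr 1
              congr 1
              ext v
              rw [e1, mul_comm]
    have h3 := hC y
    rw [key, norm_mul] at h3
    have h4 : ‖(2 * π * Complex.I * y : ℂ)‖ = 2 * π * |y| := by
      simp [abs_of_pos Real.pi_pos]
    rw [h4] at h3
    rw [le_div_iff₀ (by positivity)]
    calc _ = |y| ^ J * (2 * π * |y| * ‖∫ v : ℝ, ((hgh_g P v : ℝ) : ℂ) * ex (v * y)‖) := by ring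
      _ ≤ C := h3

theorem hgh_integral_muJ (J : ℕ) {T : ℝ} (hT : 0 < T) (F : ℝ) :
    ∫ t : ℝ, ex (t * F) ∂(muJ J T) =
      T * ∫ v : ℝ, ((hgh_g (Polynomial.X ^ (2 * J)) v : ℝ) : ℂ) * ex (v * (T * F)) := by
  have hm : Measurable fun t : ℝ => Real.toNNReal (etaJ J (t / T)) := by
    unfold etaJ
    fun_prop
  have h1 : muJ J T = (volume : Measure ℝ).withDensity
      fun t => ((Real.toNNReal (etaJ J (t / T)) : NNReal) : ℝ≥0∞) := rfl
  rw [h1, integral_withDensity_eq_integral_smul hm]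
  have h2 : (fun t : ℝ => Real.toNNReal (etaJ J (t / T)) • ex (t * F)) =
      fun t => (fun v : ℝ => ((hgh_g (Polynomial.X ^ (2 * J)) v : ℝ) : ℂ) * ex (v * (T * F)))
        (t / T) := by
    funext t
    have e : t / T * (T * F) = t * F := by field_simp
    simp only [e]
    rw [NNReal.smul_def, Real.coe_toNNReal _ (hgh_eta_nonneg J _)]
    simp [hgh_g, etaJ]
  rw [h2, Measure.integral_comp_div
    (fun v : ℝ => ((hgh_g (Polynomial.X ^ (2 * J)) v : ℝ) : ℂ) * ex (v * (T * F))) T,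
    abs_of_pos hT]
  rfl

theorem gauss_decay (J : ℕ) : ∃ C : ℝ, 0 < C ∧ ∀ T F : ℝ, 0 < T → F ≠ 0 →
    ‖∫ t : ℝ, ex (t * F) ∂(muJ J T)‖ ≤ C * T / (T * |F|) ^ J := by
  obtain ⟨C, hC0, hC⟩ := hgh_decay J (Polynomial.X ^ (2 * J))
  refine ⟨C + 1, by linarith, fun T F hT hF => ?_⟩
  rw [hgh_integral_muJ J hT F, norm_mul, Complex.norm_real, Real.norm_of_nonneg hT.le]
  have hF' : 0 < |F| := abs_pos.2 hF
  rw [le_div_iff₀ (by positivity)]
  have h := hC (T * F)
  rw [abs_mul, abs_of_pos hT] at h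
  calc _ = T * ((T * |F|) ^ J *
        ‖∫ v : ℝ, ((hgh_g (Polynomial.X ^ (2 * J)) v : ℝ) : ℂ) * ex (v * (T * F))‖) := by ring
    _ ≤ T * C := mul_le_mul_of_nonneg_left h hT.le
    _ ≤ (C + 1) * T := by nlinarith

theorem gauss_weight (J : ℕ) : ∃ C : ℝ, 0 < C ∧ ∀ T D : ℝ, 0 < T → 0 < D →
    ∫⁻ t : ℝ, ENNReal.ofReal (1 / (|t| * D) ^ J) ∂(muJ J T) ≤
      ENNReal.ofReal (C * T / (T * D) ^ J) := by
  have h0 : 0 ≤ ∫ v : ℝ, |v| ^ J * Real.exp (-(π * v ^ 2)) :=
    integral_nonneg fun v => by positivity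
  refine ⟨(∫ v : ℝ, |v| ^ J * Real.exp (-(π * v ^ 2))) + 1, by linarith, fun T D hT hD => ?_⟩
  unfold muJ
  rw [lintegral_withDensity_eq_lintegral_mul _ (by unfold etaJ; fun_prop) (by fun_prop)]
  have h1 : ∀ t : ℝ, ((fun t : ℝ => ENNReal.ofReal (etaJ J (t / T))) *
      fun t : ℝ => ENNReal.ofReal (1 / (|t| * D) ^ J)) t ≤
      ENNReal.ofReal ((fun v : ℝ => |v| ^ J * Real.exp (-(π * v ^ 2)) * (1 / (T * D) ^ J))
        (t / T)) := by
    intro t
    simp only [Pi.mul_apply]
    rw [← ENNReal.ofReal_mul (hgh_eta_nonneg J _)]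
    apply ENNReal.ofReal_le_ofReal
    rcases eq_or_ne t 0 with rfl | ht
    · rcases Nat.eq_zero_or_pos J with rfl | hJ
      · simp [etaJ]
      · simp [etaJ, hJ.ne']
    · have ht' : 0 < |t| := abs_pos.2 ht
      refine le_of_eq ?_
      unfold etaJ
      have e1 : (t / T) ^ (2 * J) = |t / T| ^ J * |t / T| ^ J := by
        rw [← mul_pow, abs_mul_abs_self, pow_mul, sq]
      have e2 : |t / T| = |t| / T := by rw [abs_div, abs_of_pos hT]
      rw [e1, e2]
      have e3 : (|t| / T) ^ J * (T * D) ^ J = (|t| * D) ^ J := by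
        rw [← mul_pow]
        congr 1
        field_simp
      rw [← e3]
      have e4 : (|t| / T) ^ J ≠ 0 := by positivity
      have e5 : (T * D) ^ J ≠ 0 := by positivity
      field_simp
  refine (lintegral_mono h1).trans ?_
  rw [hgh_lintegral ((hgh_int_abs J).mul_const _) (fun v => by positivity) hT,
    integral_mul_const]
  apply ENNReal.ofReal_le_ofReal
  rw [mul_one_div, mul_div_assoc']
  have : 0 < (T * D) ^ J := by positivity
  refine div_le_div_of_nonneg_right ?_ this.le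
  nlinarith

end Pool.Agent.MST
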