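import Pool.Agent.MST.Defs2

namespace Pool.Agent.MST

open MeasureTheory Set Pool.Agent.MP_6cbfb8_an
open scoped ENNReal Real

/-- Iterated directional derivatives. -/
noncomputable def hitD {Q : Type*} [NormedAddCommGroup Q] [NormedSpace ℝ Q] (v : Q) (Ψ : Q → ℝ) :
    ℕ → Q → ℝ
  | 0 => Ψ
  | j + 1 => fun q => fderiv ℝ (hitD v Ψ j) q v

lemma hit_smooth {Q : Type*} [NormedAddCommGroup Q] [NormedSpace ℝ Q] (v : Q) (Ψ : Q → ℝ)
    (h : ∀ n : ℕ, ContDiff ℝ n Ψ) (j : ℕ) : ∀ n : ℕ, ContDiff ℝ n (hitD v Ψ j) := by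
  induction j with
  | zero => exact h
  | succ j ih =>
    intro n
    have h1 := ih (n + 1)
    have h2 : ContDiff ℝ n (fderiv ℝ (hitD v Ψ j)) :=
      h1.fderiv_right (by push_cast; exact le_rfl)
    exact h2.clm_apply contDiff_const

lemma hit_formula {Q : Type*} [NormedAddCommGroup Q] [NormedSpace ℝ Q] (v : Q) (Ψ : Q → ℝ)
    (h : ∀ n : ℕ, ContDiff ℝ n Ψ) (j : ℕ) (q : Q) : ∀ τ : ℝ,
    iteratedDeriv j (fun τ : ℝ => Ψ (q + τ • v)) τ = hitD v Ψ j (q + τ • v) := by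
  induction j with
  | zero => intro τ; simp [hitD]
  | succ j ih =>
    intro τ
    rw [iteratedDeriv_succ, funext ih]
    have h1 : DifferentiableAt ℝ (hitD v Ψ j) (q + τ • v) :=
      ((hit_smooth v Ψ h j 1).differentiable (by norm_num)) _
    have h2 : HasDerivAt (fun τ : ℝ => q + τ • v) v τ := by
      have h3 : HasDerivAt (fun τ : ℝ => τ • v) ((1 : ℝ) • v) τ := (hasDerivAt_id τ).smul_const v
      rw [one_smul] at h3
      exact h3.const_add q
    exact (h1.hasFDerivAt.comp_hasDerivAt τ h2).deriv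

/-
ROW IT (1.2 h). Iterated derivatives in one parameter of a smooth function of several variables.
iter_smooth: Φ 0 = Ψ, Φ (j+1) q := fderiv ℝ (Φ j) q (em k l, 0) (smooth: ContDiff.fderiv_right / clm_apply); the formula by induction on j:
iteratedDeriv_succ, HasFDerivAt composed with the affine map τ ↦ (N + τ • em k l, p).
iter_bdd: same with ℝ × P and direction (1, 0): the functions (τ,p) ↦ iteratedDeriv j (fun τ => Ψ (τ,p)) τ are continuous, hence
bounded on the compact set {|τ| ≤ R, ‖p‖ ≤ R} (P finite-dimensional, isCompact_closedBall).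
second_diff: with g (s,t) = Φ (N, w - s•y - t•z) the difference is ∫_0^1∫_0^1 ∂_s∂_t g, or apply the mean value inequality twice:
D(y) := Φ(N, w-y) - Φ(N, w-y-z) as a function of y has derivative bounded by sup‖D²Φ‖ ‖z‖ (norm_image_sub_le of the
segment), the point stays in ‖·‖ ≤ 3R, where the second derivative is bounded (compactness, ContDiff 2).
-/
theorem iter_smooth {m : ℕ} {P : Type*} [NormedAddCommGroup P] [NormedSpace ℝ P] (k l : Fin m)
    (Ψ : Mat m × P → ℝ) (h : ∀ n : ℕ, ContDiff ℝ n Ψ) : ∃ Φ : ℕ → Mat m × P → ℝ,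
    Φ 0 = Ψ ∧ (∀ (j n : ℕ), ContDiff ℝ n (Φ j)) ∧ ∀ (j : ℕ) (N : Mat m) (p : P) (τ : ℝ),
      iteratedDeriv j (fun τ : ℝ => Ψ (N + τ • em k l, p)) τ = Φ j (N + τ • em k l, p) := by
  refine ⟨hitD (em k l, (0 : P)) Ψ, rfl, hit_smooth _ Ψ h, fun j N p τ => ?_⟩
  have h1 := hit_formula ((em k l, (0 : P)) : Mat m × P) Ψ h j (N, p) τ
  have h2 : ∀ τ : ℝ, ((N, p) : Mat m × P) + τ • ((em k l, (0 : P)) : Mat m × P) =
      (N + τ • em k l, p) := by
    intro τ
    ext <;> simp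
  simp only [h2] at h1
  exact h1

theorem iter_bdd {P : Type*} [NormedAddCommGroup P] [NormedSpace ℝ P] [FiniteDimensional ℝ P]
    (Ψ : ℝ × P → ℝ) (h : ∀ n : ℕ, ContDiff ℝ n Ψ) (J : ℕ) (R : ℝ) : ∃ C : ℝ, 0 ≤ C ∧
    ∀ p : P, ‖p‖ ≤ R → ∀ τ : ℝ, |τ| ≤ R → ∀ j ≤ J,
      |iteratedDeriv j (fun τ : ℝ => Ψ (τ, p)) τ| ≤ C := by
  have hb : ∀ j : ℕ, ∃ C : ℝ, ∀ q ∈ Metric.closedBall (0 : ℝ × P) R,
      ‖hitD ((1, 0) : ℝ × P) Ψ j q‖ ≤ C := by
    intro j
    have : ProperSpace (ℝ × P) := FiniteDimensional.proper_real (ℝ × P)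
    exact (isCompact_closedBall (0 : ℝ × P) R).exists_bound_of_continuousOn
      ((hit_smooth _ Ψ h j 0).continuous.continuousOn)
  choose C hC using hb
  refine ⟨∑ j ∈ Finset.range (J + 1), |C j|, Finset.sum_nonneg fun _ _ => abs_nonneg _, ?_⟩
  intro p hp τ hτ j hj
  have h1 := hit_formula ((1, (0 : P)) : ℝ × P) Ψ h j (0, p) τ
  have h2 : ∀ τ : ℝ, ((0, p) : ℝ × P) + τ • ((1, (0 : P)) : ℝ × P) = (τ, p) := by
    intro τ
    ext <;> simp
  simp only [h2] at h1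
  rw [h1]
  have h3 : ((τ, p) : ℝ × P) ∈ Metric.closedBall (0 : ℝ × P) R := by
    rw [mem_closedBall_zero_iff, Prod.norm_def]
    exact max_le (by rw [Real.norm_eq_abs]; exact hτ) hp
  have h4 := hC j _ h3
  rw [Real.norm_eq_abs] at h4
  refine (h4.trans (le_abs_self _)).trans ?_
  exact Finset.single_le_sum (f := fun j => |C j|) (fun _ _ => abs_nonneg _)
    (Finset.mem_range.mpr (by omega))

theorem second_diff {m : ℕ} {Q : Type*} [NormedAddCommGroup Q] [NormedSpace ℝ Q]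
    [FiniteDimensional ℝ Q] (Φ : Q × E m → ℝ) (h : ContDiff ℝ 2 Φ) (R : ℝ) : ∃ C : ℝ, 0 ≤ C ∧
    ∀ N : Q, ‖N‖ ≤ R → ∀ w y z : E m, ‖w‖ ≤ R → ‖y‖ ≤ R → ‖z‖ ≤ R →
      |fd (fun w => Φ (N, w)) w y z| ≤ C * (‖y‖ * ‖z‖) := by
  have : ProperSpace (Q × E m) := FiniteDimensional.proper_real (Q × E m)
  have hG : ContDiff ℝ 1 (fderiv ℝ Φ) := h.fderiv_right (by norm_num)
  obtain ⟨C0, hC0⟩ := (isCompact_closedBall (0 : Q × E m) (3 * R)).exists_bound_of_continuousOn
    (f := fderiv ℝ (fderiv ℝ Φ)) ((hG.continuous_fderiv (by norm_num)).continuousOn)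
  refine ⟨max C0 0, le_max_right _ _, ?_⟩
  intro N hN w y z hw hy hz
  have hR : 0 ≤ R := le_trans (norm_nonneg _) hN
  set v : Q × E m := (0, z) with hv
  have hvn : ‖v‖ = ‖z‖ := by rw [hv, Prod.norm_def]; simp
  -- Lipschitz bound of the first derivative
  have hL : ∀ p ∈ Metric.closedBall (0 : Q × E m) (3 * R),
      ∀ q ∈ Metric.closedBall (0 : Q × E m) (3 * R),
      ‖fderiv ℝ Φ q - fderiv ℝ Φ p‖ ≤ max C0 0 * ‖q - p‖ := by
    intro p hp q hq
    refine (convex_closedBall (0 : Q × E m) (3 * R)).norm_image_sub_le_of_norm_fderiv_le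
      (𝕜 := ℝ) (fun x _ => (hG.differentiable (by norm_num)) x) (fun x hx => ?_) hp hq
    exact (hC0 x hx).trans (le_max_left _ _)
  set s : Set (Q × E m) := Metric.closedBall (0 : Q × E m) (3 * R) ∩
    Metric.closedBall v (3 * R) with hs
  have hsc : Convex ℝ s := (convex_closedBall _ _).inter (convex_closedBall _ _)
  have hD : ∀ x ∈ s, HasFDerivWithinAt (fun q => Φ q - Φ (q - v))
      (fderiv ℝ Φ x - fderiv ℝ Φ (x - v)) s x := by
    intro x _
    have h1 : HasFDerivAt Φ (fderiv ℝ Φ x) x := ((h.differentiable (by norm_num)) x).hasFDerivAt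
    have h2 : HasFDerivAt Φ (fderiv ℝ Φ (x - v)) (x - v) :=
      ((h.differentiable (by norm_num)) (x - v)).hasFDerivAt
    have h3 : HasFDerivAt (fun q => Φ (q - v)) (fderiv ℝ Φ (x - v)) x := by
      have h4 : HasFDerivAt (fun q : Q × E m => q - v) (ContinuousLinearMap.id ℝ (Q × E m)) x :=
        (hasFDerivAt_id x).sub_const v
      have h5 := h2.comp x h4
      rw [ContinuousLinearMap.comp_id] at h5
      exact h5
    exact (h1.sub h3).hasFDerivWithinAt
  have hbd : ∀ x ∈ s, ‖fderiv ℝ Φ x - fderiv ℝ Φ (x - v)‖ ≤ max C0 0 * ‖z‖ := by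
    intro x hx
    have h1 : x - v ∈ Metric.closedBall (0 : Q × E m) (3 * R) := by
      rw [mem_closedBall_zero_iff, ← dist_eq_norm]
      exact hx.2
    have h2 := hL (x - v) h1 x hx.1
    rwa [sub_sub_cancel, hvn] at h2
  have hpair : ∀ u : E m, ‖(N, u)‖ ≤ 3 * R ↔ ‖u‖ ≤ 3 * R := by
    intro u
    rw [Prod.norm_def]
    constructor
    · intro h; exact (le_max_right _ _).trans h
    · intro h; exact max_le (by linarith) h
  have hsub : ∀ u : E m, ((N, u) : Q × E m) - v = (N, u - z) := by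
    intro u; rw [hv]; ext <;> simp
  have hmem : ∀ u : E m, ‖u‖ ≤ 3 * R → ‖u - z‖ ≤ 3 * R → ((N, u) : Q × E m) ∈ s := by
    intro u h1 h2
    refine ⟨?_, ?_⟩
    · rw [mem_closedBall_zero_iff]; exact (hpair u).mpr h1
    · rw [mem_closedBall_iff_norm, hsub]; exact (hpair _).mpr h2
  have n1 : ‖w - z‖ ≤ 2 * R := (norm_sub_le _ _).trans (by linarith)
  have n2 : ‖w - y‖ ≤ 2 * R := (norm_sub_le _ _).trans (by linarith)
  have n3 : ‖w - y - z‖ ≤ 3 * R := (norm_sub_le _ _).trans (by linarith)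
  have hfin := hsc.norm_image_sub_le_of_norm_hasFDerivWithin_le hD hbd
    (hmem (w - y) (by linarith) n3) (hmem w (by linarith) (by linarith))
  have h7 : ((N, w) : Q × E m) - (N, w - y) = (0, y) := by ext <;> simp
  have h8 : ‖((0, y) : Q × E m)‖ = ‖y‖ := by rw [Prod.norm_def]; simp
  rw [h7, h8, hsub, hsub, Real.norm_eq_abs] at hfin
  have h9 : fd (fun w => Φ (N, w)) w y z =
      Φ (N, w) - Φ (N, w - z) - (Φ (N, w - y) - Φ (N, w - y - z)) := by
    unfold fd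
    ring
  rw [h9]
  refine hfin.trans (le_of_eq ?_)
  ring

end Pool.Agent.MST
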