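import Pool.Agent.MST.Defs

namespace Pool.Agent.MST

open MeasureTheory Set Pool.Agent.MP_6cbfb8_an
open scoped ENNReal Real

/-
ROW J1 (0.8 h). One-dimensional singular integrals and coordinates in E 2.
one_dim: for c ≠ 0, |c β + d| = |c| |β + d/c|, so the integral is |c|^(δ-1) ∫⁻ β in Icc (-R) R, |β + e|^(δ-1), and for
every e this is ≤ ∫⁻ |β|^(δ-1) over |β| ≤ R plus (2R)·R^(δ-1): split the set {β : |β+e| ≤ R} (translate:
contained in {|γ| ≤ R}, γ = β+e) and its complement, where |β+e|^(δ-1) ≤ R^(δ-1). The integral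
∫_{|γ| ≤ R} |γ|^(δ-1) dγ = 2 R^δ/δ is finite (integrableOn rpow, intervalIntegral.intervalIntegrable_rpow').
radial_two: ∫⁻ y in closedBall 0 R, ofReal ‖y‖ ^ (η-2) < ∞ for η > 0: `lintegral_polar 1` (E (1+1) = E 2)
gives sm univ * ∫_0^R ρ^(η-2) ρ dρ.
frame: for a unit vector e of E 2 there is a linear isometry equivalence I of E 2 with I (basis 0) = e,
i.e. coordinates (α, β) ↦ α e + β e' (e' = (-e_1, e_0)), and Lebesgue measure is preserved:
∫⁻ w, φ (inner e w) (inner e' w) = ∫⁻ α, ∫⁻ β, φ α β. (measurePreserving of a linear isometry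
equivalence, EuclideanSpace.volume_preserving_measurableEquiv for E 2 ≃ Fin 2 → ℝ, and
MeasureTheory.volume_preserving_finTwoArrow.)
-/

/-- `∫_{-R}^R |γ|^(δ-1) dγ` is finite. -/
theorem hj1_fin (δ R : ℝ) (hδ : 0 < δ) (hR : 0 < R) :
    ∫⁻ γ in Icc (-R) R, ENNReal.ofReal |γ| ^ (δ - 1) < ∞ := by
  have h1 : IntervalIntegrable (fun x : ℝ => x ^ (δ - 1)) volume 0 R :=
    intervalIntegral.intervalIntegrable_rpow' (by linarith)
  have h2 : IntervalIntegrable (fun x : ℝ => |x| ^ (δ - 1)) volume 0 R := by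
    refine h1.congr ?_
    intro x hx
    rw [uIoc_of_le hR.le] at hx
    show x ^ (δ - 1) = |x| ^ (δ - 1)
    rw [abs_of_pos hx.1]
  have h3 : IntervalIntegrable (fun x : ℝ => |x| ^ (δ - 1)) volume (-R) 0 := by
    have := (IntervalIntegrable.iff_comp_neg (by simp)).mp h2
    simp only [abs_neg, neg_zero] at this
    exact this.symm
  have h4 : IntegrableOn (fun x : ℝ => |x| ^ (δ - 1)) (Icc (-R) R) := by
    have := (intervalIntegrable_iff_integrableOn_Icc_of_le (by linarith : -R ≤ R)).mp (h3.trans h2)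
    exact this
  have h5 := h4.hasFiniteIntegral
  unfold HasFiniteIntegral at h5
  refine lt_of_le_of_lt (le_of_eq ?_) h5
  refine lintegral_congr_ae (ae_restrict_of_ae ?_)
  have h6 : ∀ᵐ x : ℝ, x ≠ 0 := by
    rw [ae_iff]
    simp
  filter_upwards [h6] with x hx
  have hx' : 0 < |x| := abs_pos.mpr hx
  rw [ENNReal.ofReal_rpow_of_pos hx', Real.enorm_eq_ofReal (Real.rpow_nonneg hx'.le _)]

theorem one_dim (δ R : ℝ) (hδ : 0 < δ) (hδ1 : δ ≤ 1) (hR : 0 < R) : ∃ C : ℝ≥0∞, C ≠ ∞ ∧
    ∀ c d : ℝ, c ≠ 0 →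
    ∫⁻ β in Icc (-R) R, ENNReal.ofReal |c * β + d| ^ (δ - 1) ≤
      C * ENNReal.ofReal |c| ^ (δ - 1) := by
  refine ⟨(∫⁻ γ in Icc (-R) R, ENNReal.ofReal |γ| ^ (δ - 1)) +
    ENNReal.ofReal R ^ (δ - 1) * ENNReal.ofReal (2 * R), ?_, ?_⟩
  · refine ENNReal.add_ne_top.mpr ⟨(hj1_fin δ R hδ hR).ne, ENNReal.mul_ne_top ?_ ENNReal.ofReal_ne_top⟩
    rw [ENNReal.ofReal_rpow_of_pos hR]
    exact ENNReal.ofReal_ne_top
  · intro c d hc
    have hc' : 0 < |c| := abs_pos.mpr hc
    have hK : ENNReal.ofReal |c| ^ (δ - 1) ≠ ∞ := by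
      rw [ENNReal.ofReal_rpow_of_pos hc']
      exact ENNReal.ofReal_ne_top
    have e1 : ∀ β : ℝ, ENNReal.ofReal |c * β + d| ^ (δ - 1) =
        ENNReal.ofReal |c| ^ (δ - 1) * ENNReal.ofReal |β + d / c| ^ (δ - 1) := by
      intro β
      have : c * β + d = c * (β + d / c) := by field_simp
      rw [this, abs_mul, ENNReal.ofReal_mul (abs_nonneg c),
        ENNReal.mul_rpow_of_ne_top ENNReal.ofReal_ne_top ENNReal.ofReal_ne_top]
    simp_rw [e1]
    rw [lintegral_const_mul' _ _ hK, mul_comm]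
    refine mul_le_mul_left ?_ _
    -- the pointwise bound
    set e := d / c with he
    have hpt : ∀ β : ℝ, ENNReal.ofReal |β + e| ^ (δ - 1) ≤
        (Icc (-R) R).indicator (fun γ : ℝ => ENNReal.ofReal |γ| ^ (δ - 1)) (β + e) +
          ENNReal.ofReal R ^ (δ - 1) := by
      intro β
      by_cases hβ : β + e ∈ Icc (-R) R
      · rw [indicator_of_mem hβ]
        exact le_self_add
      · rw [indicator_of_notMem hβ, zero_add]
        have hRβ : R ≤ |β + e| := by
          by_contra hcon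
          rw [not_le] at hcon
          exact hβ (abs_le.mp hcon.le)
        have hneg : δ - 1 = -(1 - δ) := by ring
        rw [hneg, ENNReal.rpow_neg, ENNReal.rpow_neg]
        exact ENNReal.inv_le_inv.mpr
          (ENNReal.rpow_le_rpow (ENNReal.ofReal_le_ofReal hRβ) (by linarith))
    calc ∫⁻ β in Icc (-R) R, ENNReal.ofReal |β + e| ^ (δ - 1)
        ≤ ∫⁻ β in Icc (-R) R,
          ((Icc (-R) R).indicator (fun γ : ℝ => ENNReal.ofReal |γ| ^ (δ - 1)) (β + e) +
          ENNReal.ofReal R ^ (δ - 1)) := lintegral_mono (fun β => hpt β)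
      _ = (∫⁻ β in Icc (-R) R,
          (Icc (-R) R).indicator (fun γ : ℝ => ENNReal.ofReal |γ| ^ (δ - 1)) (β + e)) +
          ∫⁻ _β in Icc (-R) R, ENNReal.ofReal R ^ (δ - 1) := by
          rw [lintegral_add_right _ measurable_const]
      _ ≤ (∫⁻ γ in Icc (-R) R, ENNReal.ofReal |γ| ^ (δ - 1)) +
          ENNReal.ofReal R ^ (δ - 1) * ENNReal.ofReal (2 * R) := by
          refine add_le_add ?_ ?_
          · calc (∫⁻ β in Icc (-R) R,
                (Icc (-R) R).indicator (fun γ : ℝ => ENNReal.ofReal |γ| ^ (δ - 1)) (β + e))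
                ≤ ∫⁻ β, (Icc (-R) R).indicator (fun γ : ℝ => ENNReal.ofReal |γ| ^ (δ - 1)) (β + e) :=
                  setLIntegral_le_lintegral _ _
              _ = ∫⁻ β, (Icc (-R) R).indicator (fun γ : ℝ => ENNReal.ofReal |γ| ^ (δ - 1)) β :=
                  lintegral_add_right_eq_self _ e
              _ = ∫⁻ γ in Icc (-R) R, ENNReal.ofReal |γ| ^ (δ - 1) :=
                  lintegral_indicator measurableSet_Icc _
          · rw [setLIntegral_const, Real.volume_Icc]
            have : R - -R = 2 * R := by ring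
            rw [this]

theorem radial_two (η R : ℝ) (hη : 0 < η) :
    ∫⁻ y in Metric.closedBall (0 : E 2) R, ENNReal.ofReal ‖y‖ ^ (η - 2) < ∞ := by
  rcases le_or_gt R 0 with hR | hR
  · -- the ball is at most a point
    have : volume (Metric.closedBall (0 : E 2) R) = 0 := by
      refine le_antisymm ?_ zero_le
      calc volume (Metric.closedBall (0 : E 2) R) ≤ volume ({0} : Set (E 2)) := by
            apply measure_mono
            intro x hx
            have := mem_closedBall_zero_iff.mp hx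
            have h0 : ‖x‖ = 0 := le_antisymm (this.trans hR) (norm_nonneg x)
            exact norm_eq_zero.mp h0
        _ = 0 := by simp
    rw [Measure.restrict_eq_zero.mpr this]
    simp
  · have hm : Measurable (fun y : E 2 => (Metric.closedBall (0 : E 2) R).indicator
        (fun y => ENNReal.ofReal ‖y‖ ^ (η - 2)) y) := by
      refine Measurable.indicator ?_ Metric.isClosed_closedBall.measurableSet
      fun_prop
    rw [← lintegral_indicator Metric.isClosed_closedBall.measurableSet,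
      lintegral_polar 1 _ hm]
    have h1 : ∀ ω : S (1 + 1), (∫⁻ ρ in Ioi (0:ℝ),
        (Metric.closedBall (0 : E 2) R).indicator
        (fun y => ENNReal.ofReal ‖y‖ ^ (η - 2)) (ρ • (ω : E (1 + 1))) * ENNReal.ofReal (ρ ^ 1)) ≤
        ∫⁻ γ in Icc (-R) R, ENNReal.ofReal |γ| ^ (η - 1) := by
      intro ω
      have hω : ‖(ω : E (1 + 1))‖ = 1 := by
        simp
      have h2 : (∫⁻ ρ in Ioi (0:ℝ),
        (Metric.closedBall (0 : E 2) R).indicator
        (fun y => ENNReal.ofReal ‖y‖ ^ (η - 2)) (ρ • (ω : E (1 + 1))) * ENNReal.ofReal (ρ ^ 1)) ≤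
        ∫⁻ ρ in Ioi (0:ℝ), (Icc (-R) R).indicator (fun γ => ENNReal.ofReal |γ| ^ (η - 1)) ρ := by
        refine setLIntegral_mono' measurableSet_Ioi ?_
        intro ρ hρ
        have hρ0 : (0:ℝ) < ρ := hρ
        have hn : ‖ρ • (ω : E (1 + 1))‖ = ρ := by
          rw [norm_smul, hω, mul_one, Real.norm_eq_abs, abs_of_pos hρ0]
        by_cases hρR : ρ ≤ R
        · have m1 : ρ • (ω : E (1 + 1)) ∈ Metric.closedBall (0 : E 2) R := by
            rw [mem_closedBall_zero_iff]
            exact hn.le.trans hρR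
          have m2 : ρ ∈ Icc (-R) R := ⟨by linarith, hρR⟩
          rw [indicator_of_mem m1, indicator_of_mem m2, hn, pow_one, abs_of_pos hρ0]
          have : η - 1 = (η - 2) + 1 := by ring
          rw [this, ENNReal.rpow_add _ _ (by simpa using hρ0) ENNReal.ofReal_ne_top,
            ENNReal.rpow_one]
        · have m1 : ρ • (ω : E (1 + 1)) ∉ Metric.closedBall (0 : E 2) R := by
            rw [mem_closedBall_zero_iff, hn]
            exact hρR
          rw [indicator_of_notMem m1, zero_mul]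
          exact zero_le
      refine h2.trans ((setLIntegral_le_lintegral _ _).trans ?_)
      rw [lintegral_indicator measurableSet_Icc]
    calc _ ≤ ∫⁻ _ω : S (1 + 1), (∫⁻ γ in Icc (-R) R, ENNReal.ofReal |γ| ^ (η - 1)) ∂(sm (1 + 1)) :=
          lintegral_mono h1
      _ = (∫⁻ γ in Icc (-R) R, ENNReal.ofReal |γ| ^ (η - 1)) * sm (1 + 1) univ := by
          rw [lintegral_const]
      _ < ∞ := ENNReal.mul_lt_top (hj1_fin η R hη hR) (measure_lt_top _ _)

/-- the orthogonal unit vector -/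
noncomputable def hj1_perp (e : E 2) : E 2 := !₂[-(e 1), e 0]

theorem hj1_inner (x y : E 2) : inner ℝ x y = x 0 * y 0 + x 1 * y 1 := by
  rw [PiLp.inner_apply, Fin.sum_univ_two]
  simp [mul_comm]

theorem frame (e : E 2) (he : ‖e‖ = 1) : ∃ e' : E 2, ‖e'‖ = 1 ∧ inner ℝ e e' = (0:ℝ) ∧
    (∀ z : E 2, z = (inner ℝ e z : ℝ) • e + (inner ℝ e' z : ℝ) • e') ∧
    ∀ φ : ℝ → ℝ → ℝ≥0∞, Measurable (Function.uncurry φ) →
      ∫⁻ w : E 2, φ (inner ℝ e w) (inner ℝ e' w) = ∫⁻ α : ℝ, ∫⁻ β : ℝ, φ α β := by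
  have hsq : e 0 ^ 2 + e 1 ^ 2 = 1 := by
    have h1 := EuclideanSpace.norm_sq_eq e
    rw [he, Fin.sum_univ_two] at h1
    simp only [Real.norm_eq_abs, sq_abs] at h1
    linarith
  have p0 : hj1_perp e 0 = -(e 1) := by simp [hj1_perp]
  have p1 : hj1_perp e 1 = e 0 := by simp [hj1_perp]
  have hn : ‖hj1_perp e‖ = 1 := by
    have h1 := EuclideanSpace.norm_sq_eq (hj1_perp e)
    rw [Fin.sum_univ_two, p0, p1] at h1
    simp only [Real.norm_eq_abs, sq_abs] at h1
    have h2 : ‖hj1_perp e‖ ^ 2 = 1 := by rw [h1]; linarith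
    have h3 := norm_nonneg (hj1_perp e)
    nlinarith
  have hin : inner ℝ e (hj1_perp e) = (0:ℝ) := by
    rw [hj1_inner, p0, p1]; ring
  have hdec : ∀ z : E 2, z = (inner ℝ e z : ℝ) • e + (inner ℝ (hj1_perp e) z : ℝ) • hj1_perp e := by
    intro z
    rw [hj1_inner, hj1_inner, p0, p1]
    ext i
    fin_cases i
    · simp only [Fin.zero_eta, PiLp.add_apply, PiLp.smul_apply, smul_eq_mul, p0]
      have : (e 0 * z 0 + e 1 * z 1) * e 0 + (-(e 1) * z 0 + e 0 * z 1) * -(e 1) =
        (e 0 ^ 2 + e 1 ^ 2) * z 0 := by ring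
      rw [this, hsq, one_mul]
    · simp only [Fin.mk_one, PiLp.add_apply, PiLp.smul_apply, smul_eq_mul, p1]
      have : (e 0 * z 0 + e 1 * z 1) * e 1 + (-(e 1) * z 0 + e 0 * z 1) * (e 0) =
        (e 0 ^ 2 + e 1 ^ 2) * z 1 := by ring
      rw [this, hsq, one_mul]
  refine ⟨hj1_perp e, hn, hin, hdec, ?_⟩
  intro φ hφ
  have hon : Orthonormal ℝ ![e, hj1_perp e] := by
    rw [orthonormal_iff_ite]
    intro i j
    fin_cases i <;> fin_cases j
    · simp [he]
    · simp [hin]
    · simp [real_inner_comm, hin]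
    · simp [hn]
  have hsp : ⊤ ≤ Submodule.span ℝ (Set.range ![e, hj1_perp e]) := by
    intro z _
    rw [hdec z]
    refine Submodule.add_mem _ (Submodule.smul_mem _ _ ?_) (Submodule.smul_mem _ _ ?_)
    · exact Submodule.subset_span ⟨0, rfl⟩
    · exact Submodule.subset_span ⟨1, rfl⟩
  let b : OrthonormalBasis (Fin 2) ℝ (E 2) := OrthonormalBasis.mk hon hsp
  have hb0 : b 0 = e := by simp [b]
  have hb1 : b 1 = hj1_perp e := by simp [b]
  have hM1 : MeasurePreserving b.repr volume volume := b.measurePreserving_repr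
  have hM2 : MeasurePreserving (WithLp.ofLp : E 2 → (Fin 2 → ℝ)) volume volume :=
    PiLp.volume_preserving_ofLp (Fin 2)
  have hM3 : MeasurePreserving (MeasurableEquiv.finTwoArrow (α := ℝ)) volume volume :=
    volume_preserving_finTwoArrow ℝ
  have hM := hM3.comp (hM2.comp hM1)
  have hcomp := hM.lintegral_comp hφ
  have hL : (∫⁻ w : E 2, Function.uncurry φ
      ((MeasurableEquiv.finTwoArrow ∘ (WithLp.ofLp : E 2 → (Fin 2 → ℝ)) ∘ b.repr) w)) =
      ∫⁻ w : E 2, φ (inner ℝ e w) (inner ℝ (hj1_perp e) w) := by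
    refine lintegral_congr (fun w => ?_)
    have r0 : (b.repr w) 0 = inner ℝ e w := by rw [b.repr_apply_apply, hb0]
    have r1 : (b.repr w) 1 = inner ℝ (hj1_perp e) w := by rw [b.repr_apply_apply, hb1]
    show φ ((b.repr w) 0) ((b.repr w) 1) = _
    rw [r0, r1]
  rw [hL] at hcomp
  rw [hcomp, Measure.volume_eq_prod, lintegral_prod _ hφ.aemeasurable]
  rfl

end Pool.Agent.MST
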