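import Pool.Agent.MST.J1

namespace Pool.Agent.MST

open MeasureTheory Set Pool.Agent.MP_6cbfb8_an
open scoped ENNReal Real

/-
ROW J2 (1 h). For y, z not nearly parallel to ... : |inner y z| ≤ ½‖y‖‖z‖.
Put e = y/‖y‖ and take e' from `frame`. z = z₁ e + z₂ e', |z₁| = |inner y z|/‖y‖ ≤ ‖z‖/2, so z₂² ≥ (3/4)‖z‖².
With α = inner e w, β = inner e' w (both in [-R, R] on the ball):
inner y (2w - y) = 2‖y‖ α - ‖y‖², inner z (2 w - z) = 2 z₂ β + (2 z₁ α - ‖z‖²).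
So the integral is ≤ ∫⁻ α in Icc (-R) R, |2‖y‖α - ‖y‖²|^(δ-1) ∫⁻ β in Icc (-R) R, |2 z₂ β + d(α)|^(δ-1)
≤ C |2 z₂|^(δ-1) · C |2‖y‖|^(δ-1) by `one_dim`, and |2 z₂|^(δ-1) ≤ ‖z‖^(δ-1) (2|z₂| ≥ ‖z‖, δ ≤ 1, antitone).
-/
theorem hj2_anti {a b : ℝ≥0∞} {s : ℝ} (hs : s ≤ 0) (h : a ≤ b) : b ^ s ≤ a ^ s := by
  have h1 : a ^ (-s) ≤ b ^ (-s) := ENNReal.rpow_le_rpow h (by linarith)
  have h2 := ENNReal.inv_le_inv.2 h1
  rwa [← ENNReal.rpow_neg, ← ENNReal.rpow_neg, neg_neg] at h2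

theorem w_integral (δ R : ℝ) (hδ : 0 < δ) (hδ1 : δ ≤ 1) (hR : 0 < R) : ∃ C : ℝ≥0∞, C ≠ ∞ ∧
    ∀ y z : E 2, y ≠ 0 → z ≠ 0 → |(inner ℝ y z : ℝ)| ≤ ‖y‖ * ‖z‖ / 2 →
    ∫⁻ w in Metric.closedBall (0 : E 2) R,
      ENNReal.ofReal |(inner ℝ y ((2:ℝ) • w - y) : ℝ)| ^ (δ - 1) *
        ENNReal.ofReal |(inner ℝ z ((2:ℝ) • w - z) : ℝ)| ^ (δ - 1) ≤
      C * (ENNReal.ofReal ‖y‖ ^ (δ - 1) * ENNReal.ofReal ‖z‖ ^ (δ - 1)) := by
  obtain ⟨C, hC, hone⟩ := one_dim δ R hδ hδ1 hR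
  refine ⟨C * C, ENNReal.mul_ne_top hC hC, ?_⟩
  intro y z hy hz hyz
  have hy0 : 0 < ‖y‖ := norm_pos_iff.2 hy
  have hz0 : 0 < ‖z‖ := norm_pos_iff.2 hz
  have hen : ‖(‖y‖⁻¹ • y : E 2)‖ = 1 := by
    rw [norm_smul, norm_inv, norm_norm, inv_mul_cancel₀ hy0.ne']
  obtain ⟨e', he', hee', hdec, hint⟩ := frame (‖y‖⁻¹ • y : E 2) hen
  generalize heq : (‖y‖⁻¹ • y : E 2) = e at hen hee' hdec hint
  have hez : ‖y‖ * (inner ℝ e z : ℝ) = inner ℝ y z := by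
    rw [← heq, real_inner_smul_left, ← mul_assoc, mul_inv_cancel₀ hy0.ne', one_mul]
  have hew : ∀ w : E 2, (inner ℝ y w : ℝ) = ‖y‖ * inner ℝ e w := by
    intro w
    rw [← heq, real_inner_smul_left, ← mul_assoc, mul_inv_cancel₀ hy0.ne', one_mul]
  have hzw : ∀ w : E 2, (inner ℝ z w : ℝ) =
      (inner ℝ e z : ℝ) * inner ℝ e w + (inner ℝ e' z : ℝ) * inner ℝ e' w := by
    intro w
    have h := congrArg (fun v : E 2 => (inner ℝ v w : ℝ)) (hdec z)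
    simp only [inner_add_left, real_inner_smul_left] at h
    exact h
  set z1 : ℝ := inner ℝ e z with hz1
  set z2 : ℝ := inner ℝ e' z with hz2
  have hz1b : |z1| ≤ ‖z‖ / 2 := by
    rw [← hez, abs_mul, abs_of_pos hy0] at hyz
    have : ‖y‖ * |z1| ≤ ‖y‖ * (‖z‖ / 2) := by linarith
    exact le_of_mul_le_mul_left this hy0
  have hnz : ‖z‖ ^ 2 = z1 ^ 2 + z2 ^ 2 := by
    rw [← real_inner_self_eq_norm_sq, hzw z, ← hz1, ← hz2]
    ring
  have hz2b : ‖z‖ ≤ |2 * z2| := by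
    have h1 : z1 ^ 2 ≤ (‖z‖ / 2) ^ 2 := by
      rw [← sq_abs z1]
      exact pow_le_pow_left₀ (abs_nonneg _) hz1b 2
    have h2 : ‖z‖ ^ 2 ≤ |2 * z2| ^ 2 := by
      rw [sq_abs]
      nlinarith
    exact le_of_sq_le_sq h2 (abs_nonneg _)
  have hz2n : 2 * z2 ≠ 0 := by
    intro h
    rw [h, abs_zero] at hz2b
    linarith
  set A : ℝ → ℝ≥0∞ := fun α => ENNReal.ofReal |(2 * ‖y‖) * α + (-(‖y‖ ^ 2))| ^ (δ - 1) with hA
  set B : ℝ → ℝ → ℝ≥0∞ := fun α β =>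
    ENNReal.ofReal |(2 * z2) * β + (2 * z1 * α - ‖z‖ ^ 2)| ^ (δ - 1) with hB
  have hAm : Measurable A := by
    rw [hA]
    fun_prop
  have hBm : Measurable (Function.uncurry B) := by
    rw [hB]
    unfold Function.uncurry
    fun_prop
  set φ : ℝ → ℝ → ℝ≥0∞ := fun α β =>
    if α ∈ Icc (-R) R ∧ β ∈ Icc (-R) R then A α * B α β else 0 with hφ
  have hφm : Measurable (Function.uncurry φ) := by
    have hset : MeasurableSet {p : ℝ × ℝ | p.1 ∈ Icc (-R) R ∧ p.2 ∈ Icc (-R) R} :=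
      (measurable_fst measurableSet_Icc).inter (measurable_snd measurableSet_Icc)
    exact Measurable.ite hset ((hAm.comp measurable_fst).mul hBm) measurable_const
  have hcoord : ∀ (u w : E 2), ‖u‖ = 1 → w ∈ Metric.closedBall (0 : E 2) R →
      (inner ℝ u w : ℝ) ∈ Icc (-R) R := by
    intro u w hu hw
    rw [mem_closedBall_zero_iff] at hw
    have h1 := abs_real_inner_le_norm u w
    rw [hu, one_mul] at h1
    exact abs_le.1 (h1.trans hw)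
  have step1 : ∫⁻ w in Metric.closedBall (0 : E 2) R,
      ENNReal.ofReal |(inner ℝ y ((2:ℝ) • w - y) : ℝ)| ^ (δ - 1) *
        ENNReal.ofReal |(inner ℝ z ((2:ℝ) • w - z) : ℝ)| ^ (δ - 1) ≤
      ∫⁻ w : E 2, φ (inner ℝ e w) (inner ℝ e' w) := by
    rw [← lintegral_indicator measurableSet_closedBall]
    refine lintegral_mono fun w => ?_
    by_cases hw : w ∈ Metric.closedBall (0 : E 2) R
    · rw [indicator_of_mem hw, hφ]
      simp only
      rw [if_pos ⟨hcoord e w hen hw, hcoord e' w he' hw⟩, hA, hB]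
      simp only
      refine le_of_eq ?_
      congr 4
      · rw [inner_sub_right, real_inner_smul_right, hew w, real_inner_self_eq_norm_sq]
        ring
      · rw [inner_sub_right, real_inner_smul_right, hzw w, real_inner_self_eq_norm_sq]
        ring
    · rw [indicator_of_notMem hw]
      exact zero_le
  have step2 : ∫⁻ α : ℝ, ∫⁻ β : ℝ, φ α β ≤
      ∫⁻ α in Icc (-R) R, A α * (C * ENNReal.ofReal |2 * z2| ^ (δ - 1)) := by
    rw [← lintegral_indicator measurableSet_Icc]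
    refine lintegral_mono fun α => ?_
    by_cases hα : α ∈ Icc (-R) R
    · rw [indicator_of_mem hα]
      have h1 : ∀ β, φ α β = (Icc (-R) R).indicator (fun β => A α * B α β) β := by
        intro β
        rw [hφ]
        simp only
        by_cases hβ : β ∈ Icc (-R) R
        · rw [if_pos ⟨hα, hβ⟩, indicator_of_mem hβ]
        · rw [if_neg (fun h => hβ h.2), indicator_of_notMem hβ]
      calc ∫⁻ β : ℝ, φ α β = ∫⁻ β : ℝ, (Icc (-R) R).indicator (fun β => A α * B α β) β :=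
            lintegral_congr h1
        _ = ∫⁻ β in Icc (-R) R, A α * B α β := lintegral_indicator measurableSet_Icc _
        _ = A α * ∫⁻ β in Icc (-R) R, B α β :=
            lintegral_const_mul _ (hBm.comp (measurable_const.prodMk measurable_id))
        _ ≤ A α * (C * ENNReal.ofReal |2 * z2| ^ (δ - 1)) :=
            mul_le_mul_right (hone _ _ hz2n) _
    · have h1 : ∀ β, φ α β = 0 := by
        intro β
        rw [hφ]
        simp only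
        rw [if_neg (fun h => hα h.1)]
      rw [lintegral_congr h1, lintegral_zero]
      exact zero_le
  have hy2 : (2 * ‖y‖ : ℝ) ≠ 0 := by positivity
  have step3 : ∫⁻ α in Icc (-R) R, A α * (C * ENNReal.ofReal |2 * z2| ^ (δ - 1)) ≤
      (C * ENNReal.ofReal |2 * ‖y‖| ^ (δ - 1)) * (C * ENNReal.ofReal |2 * z2| ^ (δ - 1)) := by
    rw [lintegral_mul_const _ hAm]
    exact mul_le_mul_left (hone _ _ hy2) _
  have hδ0 : δ - 1 ≤ 0 := by linarith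
  have h4 : ENNReal.ofReal |2 * ‖y‖| ^ (δ - 1) ≤ ENNReal.ofReal ‖y‖ ^ (δ - 1) := by
    refine hj2_anti hδ0 (ENNReal.ofReal_le_ofReal ?_)
    rw [abs_of_pos (by positivity)]
    linarith
  have h5 : ENNReal.ofReal |2 * z2| ^ (δ - 1) ≤ ENNReal.ofReal ‖z‖ ^ (δ - 1) :=
    hj2_anti hδ0 (ENNReal.ofReal_le_ofReal hz2b)
  calc _ ≤ ∫⁻ w : E 2, φ (inner ℝ e w) (inner ℝ e' w) := step1
    _ = ∫⁻ α : ℝ, ∫⁻ β : ℝ, φ α β := hint φ hφm
    _ ≤ _ := step2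
    _ ≤ _ := step3
    _ ≤ (C * ENNReal.ofReal ‖y‖ ^ (δ - 1)) * (C * ENNReal.ofReal ‖z‖ ^ (δ - 1)) := by
        gcongr
    _ = C * C * (ENNReal.ofReal ‖y‖ ^ (δ - 1) * ENNReal.ofReal ‖z‖ ^ (δ - 1)) := by ring

end Pool.Agent.MST
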