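import Pool.Agent.MST.Defs2

namespace Pool.Agent.MST

open MeasureTheory Set Pool.Agent.MP_6cbfb8_an
open scoped ENNReal Real

/-
ROW SQ (0.4 h). θ v := Real.smoothTransition ((2 v - c1)/c1): 0 for v ≤ c1/2, 1 for v ≥ c1. S v := √v * θ v is C^n: near v ≤ ... on
{v < c1/2} it is 0, on {v > 0} a product of smooth functions (Real.contDiffAt_sqrt).
-/
theorem smooth_sqrt (c1 : ℝ) (h : 0 < c1) : ∃ S : ℝ → ℝ, (∀ n : ℕ, ContDiff ℝ n S) ∧
    ∀ v, c1 ≤ v → S v = √v := by
  refine ⟨fun v => √v * Real.smoothTransition ((2 * v - c1) / c1), ?_, ?_⟩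
  · intro n
    rw [contDiff_iff_contDiffAt]
    intro v
    rcases lt_or_ge v (c1 / 2) with hv | hv
    · have hev : (fun v => √v * Real.smoothTransition ((2 * v - c1) / c1)) =ᶠ[nhds v]
          fun _ => (0 : ℝ) := by
        filter_upwards [Iio_mem_nhds hv] with w hw
        rw [mem_Iio] at hw
        rw [Real.smoothTransition.zero_of_nonpos, mul_zero]
        exact div_nonpos_of_nonpos_of_nonneg (by linarith) h.le
      exact contDiffAt_const.congr_of_eventuallyEq hev
    · have hv0 : v ≠ 0 := by
        have : 0 < v := by linarith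
        exact this.ne'
      refine (Real.contDiffAt_sqrt hv0).mul ?_
      have h1 : ContDiff ℝ n fun v : ℝ => Real.smoothTransition ((2 * v - c1) / c1) := by
        refine Real.smoothTransition.contDiff.comp ?_
        fun_prop
      exact h1.contDiffAt
  · intro v hv
    have h1 : 1 ≤ (2 * v - c1) / c1 := by
      rw [one_le_div h]
      linarith
    change √v * Real.smoothTransition ((2 * v - c1) / c1) = √v
    rw [Real.smoothTransition.one_of_one_le h1, mul_one]

end Pool.Agent.MST
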