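import Pool.Agent.MST.Defs2

namespace Pool.Agent.MST

open MeasureTheory Set Pool.Agent.MP_6cbfb8_an
open scoped ENNReal Real

lemma hta_inner {m : ℕ} (x y : E m) : inner ℝ x y = ∑ i, x i * y i := by
  rw [PiLp.inner_apply]
  refine Finset.sum_congr rfl fun i _ => ?_
  simp [mul_comm]

lemma hta_norm {m : ℕ} (x : E m) : ‖x‖ ^ 2 = ∑ i, x i * x i := by
  rw [← hta_inner, real_inner_self_eq_norm_sq]

lemma hta_prod {m : ℕ} (x y u v : E m) :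
    ∑ p : Fin m × Fin m, (x p.1 * y p.2) * (u p.1 * v p.2) = inner ℝ x u * inner ℝ y v := by
  rw [hta_inner, hta_inner, Finset.sum_mul_sum, Fintype.sum_prod_type]
  refine Finset.sum_congr rfl fun i _ => Finset.sum_congr rfl fun j _ => ?_
  ring

/-- The double sum of the form `hhᵀ - kkᵀ` against `xyᵀ`. -/
lemma hta_B {m : ℕ} (h k x y : E m) :
    ∑ p : Fin m × Fin m, (x p.1 * y p.2) * (h p.1 * h p.2 - k p.1 * k p.2) =
      inner ℝ x h * inner ℝ y h - inner ℝ x k * inner ℝ y k := by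
  rw [← hta_prod x y h h, ← hta_prod x y k k, ← Finset.sum_sub_distrib]
  refine Finset.sum_congr rfl fun i _ => ?_
  ring

lemma hta_BB {m : ℕ} (h k : E m) :
    ∑ p : Fin m × Fin m, (h p.1 * h p.2 - k p.1 * k p.2) ^ 2 =
      (‖h‖ ^ 2) ^ 2 + (‖k‖ ^ 2) ^ 2 - 2 * (inner ℝ h k) ^ 2 := by
  have h1 := hta_B h k h h
  have h2 := hta_B h k k k
  have h3 : ∑ p : Fin m × Fin m, (h p.1 * h p.2 - k p.1 * k p.2) ^ 2 =
      ∑ p : Fin m × Fin m, (h p.1 * h p.2) * (h p.1 * h p.2 - k p.1 * k p.2) -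
      ∑ p : Fin m × Fin m, (k p.1 * k p.2) * (h p.1 * h p.2 - k p.1 * k p.2) := by
    rw [← Finset.sum_sub_distrib]
    refine Finset.sum_congr rfl fun i _ => ?_
    ring
  rw [h3, h1, h2, real_inner_self_eq_norm_sq, real_inner_self_eq_norm_sq, real_inner_comm h k]
  ring

lemma hta_CS {m : ℕ} (h k : E m) (f : Fin m × Fin m → ℝ) (b : ℝ) (hb : 0 ≤ b)
    (hb2 : b ^ 2 = (‖h‖ ^ 2) ^ 2 + (‖k‖ ^ 2) ^ 2 - 2 * (inner ℝ h k) ^ 2) (M : ℝ) (hM : 0 ≤ M)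
    (hf : ∑ p, f p ^ 2 ≤ M ^ 2) :
    |∑ p : Fin m × Fin m, f p * (h p.1 * h p.2 - k p.1 * k p.2)| ≤ M * b := by
  have h1 := Finset.sum_mul_sq_le_sq_mul_sq Finset.univ f
    (fun p : Fin m × Fin m => h p.1 * h p.2 - k p.1 * k p.2)
  rw [hta_BB, ← hb2] at h1
  apply abs_le_of_sq_le_sq _ (by positivity)
  refine h1.trans ?_
  rw [mul_pow]
  exact mul_le_mul_of_nonneg_right hf (by positivity)

lemma hta_Q {m : ℕ} (h k x y : E m) (b : ℝ) (hb : 0 ≤ b)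
    (hb2 : b ^ 2 = (‖h‖ ^ 2) ^ 2 + (‖k‖ ^ 2) ^ 2 - 2 * (inner ℝ h k) ^ 2)
    (hx : ‖x‖ ≤ 1) (hy : ‖y‖ ≤ 1) :
    |inner ℝ x h * inner ℝ y h - inner ℝ x k * inner ℝ y k| ≤ b := by
  rw [← hta_B]
  have h1 := hta_CS h k (fun p => x p.1 * y p.2) b hb hb2 1 zero_le_one (by
    have h2 := hta_prod x y x y
    rw [real_inner_self_eq_norm_sq, real_inner_self_eq_norm_sq] at h2
    have h3 : ∑ p : Fin m × Fin m, (x p.1 * y p.2) ^ 2 = ‖x‖ ^ 2 * ‖y‖ ^ 2 := by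
      rw [← h2]
      refine Finset.sum_congr rfl fun i _ => ?_
      ring
    rw [h3]
    have h4 : ‖x‖ ^ 2 ≤ 1 := pow_le_one₀ (norm_nonneg _) hx
    have h5 : ‖y‖ ^ 2 ≤ 1 := pow_le_one₀ (norm_nonneg _) hy
    have h6 : 0 ≤ ‖y‖ ^ 2 := by positivity
    nlinarith)
  simpa using h1

lemma hta_fin (H K γ : ℝ) (h : 0 ≤ H ^ 2 + K ^ 2 - 2 * γ ^ 2) :
    (H - 2 * γ + K) * (H + 2 * γ + K) ≤ 2 ^ 2 * (H ^ 2 + K ^ 2 - 2 * γ ^ 2) := by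
  nlinarith [sq_nonneg (H - K)]

/-- The scalar part. -/
lemma hta_scalar (c0 : ℝ) (hc : 0 < c0) (m ε α β γ H K A q1 q2 q3 q4 T b : ℝ) (hm : 0 ≤ m)
    (hq1 : c0 ≤ q1) (hq2 : c0 ≤ q2) (hq3 : c0 ≤ q3) (hq4 : c0 ≤ q4)
    (h11 : q1 ≤ 1) (h21 : q2 ≤ 1) (h31 : q3 ≤ 1) (h41 : q4 ≤ 1)
    (hb : 0 ≤ b) (hb2 : b ^ 2 = H ^ 2 + K ^ 2 - 2 * γ ^ 2)
    (hn1 : q1 ^ 2 = 1 - (A + 2 * α + H)) (hn2 : q2 ^ 2 = 1 - (A - 2 * α + H))
    (hn3 : q3 ^ 2 = 1 - (A + 2 * β + K)) (hn4 : q4 ^ 2 = 1 - (A - 2 * β + K))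
    (hF : |q1 + q2 - q3 - q4| ≤ ε)
    (htr : |(A + 2 * α + H) / q1 + (A - 2 * α + H) / q2 - (A + 2 * β + K) / q3 -
      (A - 2 * β + K) / q4| ≤ m * ε)
    (hT : |T| ≤ m * ε * b)
    (hTe : T = (1 / q1) * ((α + H) ^ 2 - (β + γ) ^ 2) + (1 / q2) * ((α - H) ^ 2 - (β - γ) ^ 2) -
      (1 / q3) * ((α + γ) ^ 2 - (β + K) ^ 2) - (1 / q4) * ((α - γ) ^ 2 - (β - K) ^ 2))
    (hpos : 0 ≤ α ^ 2 * H - 2 * α * β * γ + β ^ 2 * K)
    (hQa : |α ^ 2 - β ^ 2| ≤ b) (hQk : |γ ^ 2 - K ^ 2| ≤ b) (hQak : |α * γ - β * K| ≤ b)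
    (hβ : |β| ≤ 1) :
    b ≤ ((m + 2 * (m + 1) + 8 * ((m + 3) / (4 * c0 ^ 6)))) * ε := by
  have p1 : 0 < q1 := by linarith
  have p2 : 0 < q2 := by linarith
  have p3 : 0 < q3 := by linarith
  have p4 : 0 < q4 := by linarith
  have hε : 0 ≤ ε := le_trans (abs_nonneg _) hF
  -- e0
  set F := q1 + q2 - q3 - q4 with hFdef
  set e0 := 1 / q1 + 1 / q2 - (1 / q3 + 1 / q4) with he0
  have he0' : |e0| ≤ (m + 1) * ε := by
    have h1 : e0 = ((A + 2 * α + H) / q1 + (A - 2 * α + H) / q2 - (A + 2 * β + K) / q3 -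
      (A - 2 * β + K) / q4) + F := by
      have a1 : A + 2 * α + H = 1 - q1 ^ 2 := by linarith
      have a2 : A - 2 * α + H = 1 - q2 ^ 2 := by linarith
      have a3 : A + 2 * β + K = 1 - q3 ^ 2 := by linarith
      have a4 : A - 2 * β + K = 1 - q4 ^ 2 := by linarith
      rw [a1, a2, a3, a4, he0, hFdef]
      field_simp
      ring
    rw [h1]
    refine (abs_add_le _ _).trans ?_
    linarith
  set u := 1 / (q1 * q2 * (q1 + q2)) with hu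
  set u' := 1 / (q3 * q4 * (q3 + q4)) with hu'
  have hδ : 1 / q1 - 1 / q2 = 4 * α * u := by
    have : 4 * α = q2 ^ 2 - q1 ^ 2 := by linarith
    rw [this, hu]
    field_simp
    ring
  have hδ' : 1 / q3 - 1 / q4 = 4 * β * u' := by
    have : 4 * β = q4 ^ 2 - q3 ^ 2 := by linarith
    rw [this, hu']
    field_simp
    ring
  have huu : |u' - u| ≤ (m + 3) / (4 * c0 ^ 6) * ε := by
    have h1 : u' - u = -(e0 * (q1 * q2) * (q3 * q4) - F * (q1 * q2 + q3 * q4)) /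
        ((q1 * q2 * (q1 + q2)) * (q3 * q4 * (q3 + q4))) := by
      rw [hu, hu', he0, hFdef]
      field_simp
      ring
    have e2 : 0 ≤ q1 * q2 := by positivity
    have e2' : 0 ≤ q3 * q4 := by positivity
    have e21 : q1 * q2 ≤ 1 := mul_le_one₀ h11 p2.le h21
    have e21' : q3 * q4 ≤ 1 := mul_le_one₀ h31 p4.le h41
    have hnum : |-(e0 * (q1 * q2) * (q3 * q4) - F * (q1 * q2 + q3 * q4))| ≤ (m + 3) * ε := by
      rw [abs_neg]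
      refine (abs_sub _ _).trans ?_
      rw [abs_mul (e0 * (q1 * q2)) (q3 * q4), abs_mul e0 (q1 * q2), abs_mul F,
        abs_of_nonneg e2, abs_of_nonneg e2',
        abs_of_nonneg (by positivity : 0 ≤ q1 * q2 + q3 * q4)]
      have h2 : |e0| * (q1 * q2) * (q3 * q4) ≤ (m + 1) * ε := by
        calc |e0| * (q1 * q2) * (q3 * q4) ≤ |e0| * 1 * 1 := by gcongr
          _ ≤ _ := by linarith
      have h3 : |F| * (q1 * q2 + q3 * q4) ≤ ε * 2 := by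
        have : q1 * q2 + q3 * q4 ≤ 2 := by linarith
        gcongr
      linarith
    have hden : 4 * c0 ^ 6 ≤ (q1 * q2 * (q1 + q2)) * (q3 * q4 * (q3 + q4)) := by
      calc 4 * c0 ^ 6 = (c0 * c0 * (c0 + c0)) * (c0 * c0 * (c0 + c0)) := by ring
        _ ≤ _ := by gcongr
    rw [h1, abs_div, abs_of_nonneg (by positivity :
      0 ≤ (q1 * q2 * (q1 + q2)) * (q3 * q4 * (q3 + q4)))]
    calc _ ≤ ((m + 3) * ε) / (4 * c0 ^ 6) := by gcongr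
      _ = _ := by ring
  -- identity
  have hid : (1 / q1 + 1 / q2) * b ^ 2 + 8 * u * (α ^ 2 * H - 2 * α * β * γ + β ^ 2 * K) =
      T - e0 * ((α ^ 2 - β ^ 2) + (γ ^ 2 - K ^ 2)) + 8 * (u' - u) * β * (α * γ - β * K) := by
    rw [hTe, hb2, he0]
    linear_combination (-2 * (α * H - β * γ)) * hδ + (2 * (α * γ - β * K)) * hδ'
  have hR : 2 ≤ 1 / q1 + 1 / q2 := by
    have h1 : 1 ≤ 1 / q1 := by rw [le_div_iff₀ p1]; linarith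
    have h2 : 1 ≤ 1 / q2 := by rw [le_div_iff₀ p2]; linarith
    linarith
  have hupos : 0 ≤ u := by positivity
  have hineq : 2 * b ^ 2 ≤
      (m * ε + 2 * ((m + 1) * ε) + 8 * ((m + 3) / (4 * c0 ^ 6) * ε)) * b := by
    have h1 : (1 / q1 + 1 / q2) * b ^ 2 ≤
        T - e0 * ((α ^ 2 - β ^ 2) + (γ ^ 2 - K ^ 2)) + 8 * (u' - u) * β * (α * γ - β * K) := by
      rw [← hid]
      have : 0 ≤ 8 * u * (α ^ 2 * H - 2 * α * β * γ + β ^ 2 * K) := by positivity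
      linarith
    have h2 : T ≤ m * ε * b := (le_abs_self _).trans hT
    have h3 : -(e0 * ((α ^ 2 - β ^ 2) + (γ ^ 2 - K ^ 2))) ≤ 2 * ((m + 1) * ε) * b := by
      refine (neg_le_abs _).trans ?_
      rw [abs_mul]
      have : |(α ^ 2 - β ^ 2) + (γ ^ 2 - K ^ 2)| ≤ 2 * b := (abs_add_le _ _).trans (by linarith)
      calc |e0| * |(α ^ 2 - β ^ 2) + (γ ^ 2 - K ^ 2)| ≤ ((m + 1) * ε) * (2 * b) := by gcongr
        _ = _ := by ring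
    have h4 : 8 * (u' - u) * β * (α * γ - β * K) ≤ 8 * ((m + 3) / (4 * c0 ^ 6) * ε) * b := by
      refine (le_abs_self _).trans ?_
      rw [abs_mul, abs_mul, abs_mul, abs_of_pos (by norm_num : (0:ℝ) < 8)]
      calc 8 * |u' - u| * |β| * |α * γ - β * K| ≤
          8 * ((m + 3) / (4 * c0 ^ 6) * ε) * 1 * b := by gcongr
        _ = _ := by ring
    have h5 : 2 * b ^ 2 ≤ (1 / q1 + 1 / q2) * b ^ 2 := by gcongr
    linarith
  rcases eq_or_lt_of_le hb with hb0 | hb0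
  · rw [← hb0]; positivity
  · have h6 : 2 * b ≤ m * ε + 2 * ((m + 1) * ε) + 8 * ((m + 3) / (4 * c0 ^ 6) * ε) := by
      have h7 : (2 * b) * b ≤
          (m * ε + 2 * ((m + 1) * ε) + 8 * ((m + 3) / (4 * c0 ^ 6) * ε)) * b := by
        calc (2 * b) * b = 2 * b ^ 2 := by ring
          _ ≤ _ := hineq
      exact le_of_mul_le_mul_right h7 hb0
    have h8 : (m + 2 * (m + 1) + 8 * ((m + 3) / (4 * c0 ^ 6))) * ε =
      m * ε + 2 * ((m + 1) * ε) + 8 * ((m + 3) / (4 * c0 ^ 6) * ε) := by ring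
    rw [h8]
    linarith

/-
ROW TA (1.5 h). The algebraic heart: lower bound for the gradient of the phase.
Put a = (x1+x2)/2, h = (x1-x2)/2, k = (x3-x4)/2, so x1 = a+h, x2 = a-h, x3 = a+k, x4 = a-k (x1+x2 = x3+x4), ‖x_i‖ ≤ 1, ‖a‖,‖h‖,‖k‖ ≤ 1.
r_i = 1/q_i ∈ [1, 1/c0] (q_i ≤ 1). R = r1+r2, R' = r3+r4, F = q1+q2-q3-q4, e0 = R-R', δ = r1-r2, δ' = r3-r4,
μ = q1 q2 (q1+q2), μ' = q3 q4 (q3+q4). Q(x) := (x·h)² - (x·k)², with bilinear form Q(x,y) = (x·h)(y·h) - (x·k)(y·k).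
With α = a·h, β = a·k, H = ‖h‖², K = ‖k‖², γ = h·k, put b2 := H² + K² - 2γ² = Q(h) - Q(k) ≥ 0 (Cauchy-Schwarz); it is the
square of the Frobenius norm of hhᵀ-kkᵀ, and |Q(x,y)| ≤ √b2 ‖x‖‖y‖ (Q(x,y) = Σ_kl x_k y_l B_kl, Cauchy-Schwarz for the double sum).
(1) ‖x1-x3‖²‖x1-x4‖² = ‖h-k‖²‖h+k‖² = (H+K)² - 4γ² ≤ 2 b2 (difference (H-K)²).
(2) trace: Σ_k S_kk = Σ± r_i‖x_i‖² = Σ± (1-q_i²)/q_i = e0 - F, so |e0| ≤ (m+1) ε.
(3) 4α = ‖x1‖²-‖x2‖² = q2²-q1² gives δ = 4α/μ, similarly δ' = 4β/μ'.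
(4) |1/μ - 1/μ'| ≤ C(|F| + |e0|): with e1 = q1+q2, e2 = q1q2 etc.: e0 = e1/e2 - e1'/e2' gives e2-e2' = (F e2' - e0 e2 e2')/e1', all bounded.
(5) Σ_kl S_kl B_kl = Σ± r_i Q(x_i) where B_kl = h_k h_l - k_k k_l; and
Σ± r_i Q(x_i) = e0 (Q(a)+Q(k)) + R (Q(h)-Q(k)) + 2(δ Q(a,h) - δ' Q(a,k)),
δ Q(a,h) - δ' Q(a,k) = (4/μ)(α Q(a,h) - β Q(a,k)) - 4 (1/μ'-1/μ) β Q(a,k),  α Q(a,h) - β Q(a,k) = α²H - 2αβγ + β²K = ‖αh-βk‖² ≥ 0.
Hence R b2 ≤ |Σ_kl S_kl B_kl| + |e0| (|Q(a)|+|Q(k)|) + 8|1/μ'-1/μ||β||Q(a,k)| ≤ C ε √b2 (|Σ_kl S_kl B_kl| ≤ ε m √b2 by Cauchy-Schwarz),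
R ≥ 2, so √b2 ≤ C ε and (1) finishes. (ε ≥ 0 automatically.)
-/
theorem tensor_lower (m : ℕ) (c0 : ℝ) (hc : 0 < c0) : ∃ C : ℝ, 0 < C ∧
    ∀ (x1 x2 x3 x4 : E m) (q1 q2 q3 q4 ε : ℝ), x1 + x2 = x3 + x4 →
    c0 ≤ q1 → c0 ≤ q2 → c0 ≤ q3 → c0 ≤ q4 →
    q1 ^ 2 = 1 - ‖x1‖ ^ 2 → q2 ^ 2 = 1 - ‖x2‖ ^ 2 → q3 ^ 2 = 1 - ‖x3‖ ^ 2 →
    q4 ^ 2 = 1 - ‖x4‖ ^ 2 → |q1 + q2 - q3 - q4| ≤ ε →
    (∀ k l : Fin m, |x1 k * x1 l / q1 + x2 k * x2 l / q2 - x3 k * x3 l / q3 -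
      x4 k * x4 l / q4| ≤ ε) →
    ‖x1 - x3‖ * ‖x1 - x4‖ ≤ C * ε := by
  refine ⟨2 * ((m:ℝ) + 2 * (m + 1) + 8 * ((m + 3) / (4 * c0 ^ 6))), by positivity, ?_⟩
  intro x1 x2 x3 x4 q1 q2 q3 q4 ε hx hq1 hq2 hq3 hq4 hn1 hn2 hn3 hn4 hF hS
  have hε : 0 ≤ ε := le_trans (abs_nonneg _) hF
  set a : E m := (1 / 2 : ℝ) • (x1 + x2) with ha
  set h : E m := (1 / 2 : ℝ) • (x1 - x2) with hh
  set k : E m := (1 / 2 : ℝ) • (x3 - x4) with hk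
  have e1 : x1 = a + h := by rw [ha, hh]; module
  have e2 : x2 = a - h := by rw [ha, hh]; module
  have e3 : x3 = a + k := by rw [ha, hk, hx]; module
  have e4 : x4 = a - k := by rw [ha, hk, hx]; module
  clear_value a h k
  have p1 : 0 < q1 := by linarith
  have p2 : 0 < q2 := by linarith
  have p3 : 0 < q3 := by linarith
  have p4 : 0 < q4 := by linarith
  have nle : ∀ (x : E m) (q : ℝ), q ^ 2 = 1 - ‖x‖ ^ 2 → ‖x‖ ≤ 1 := by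
    intro x q hq
    nlinarith [sq_nonneg q, norm_nonneg x]
  have n1 := nle x1 q1 hn1
  have n2 := nle x2 q2 hn2
  have n3 := nle x3 q3 hn3
  have n4 := nle x4 q4 hn4
  have qle : ∀ (x : E m) (q : ℝ), 0 < q → q ^ 2 = 1 - ‖x‖ ^ 2 → q ≤ 1 := by
    intro x q hq0 hq
    nlinarith [sq_nonneg ‖x‖]
  have ea : a = (1 / 2 : ℝ) • (x1 + x2) := by rw [e1, e2]; module
  have eh : h = (1 / 2 : ℝ) • (x1 - x2) := by rw [e1, e2]; module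
  have ek : k = (1 / 2 : ℝ) • (x3 - x4) := by rw [e3, e4]; module
  have na : ‖a‖ ≤ 1 := by
    rw [ea, norm_smul]
    have := norm_add_le x1 x2
    norm_num
    linarith
  have nk : ‖k‖ ≤ 1 := by
    rw [ek, norm_smul]
    have := norm_sub_le x3 x4
    norm_num
    linarith
  set b2 := (‖h‖ ^ 2) ^ 2 + (‖k‖ ^ 2) ^ 2 - 2 * (inner ℝ h k) ^ 2 with hb2
  have hb2n : 0 ≤ b2 := by
    rw [hb2, ← hta_BB]
    positivity
  set b := √b2 with hbdef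
  have hb : 0 ≤ b := Real.sqrt_nonneg _
  have hbb : b ^ 2 = b2 := Real.sq_sqrt hb2n
  -- the sum
  set T := ∑ p : Fin m × Fin m, (x1 p.1 * x1 p.2 / q1 + x2 p.1 * x2 p.2 / q2 -
    x3 p.1 * x3 p.2 / q3 - x4 p.1 * x4 p.2 / q4) * (h p.1 * h p.2 - k p.1 * k p.2) with hT
  have hTb : |T| ≤ m * ε * b := by
    refine hta_CS h k _ b hb hbb (m * ε) (by positivity) ?_
    calc _ ≤ ∑ p : Fin m × Fin m, ε ^ 2 := by
          refine Finset.sum_le_sum fun p _ => ?_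
          exact sq_le_sq.mpr (by rw [abs_of_nonneg hε]; exact hS p.1 p.2)
      _ = (m * ε) ^ 2 := by
          simp
          ring
  have hTe : T = (1 / q1) * ((inner ℝ x1 h) ^ 2 - (inner ℝ x1 k) ^ 2) +
      (1 / q2) * ((inner ℝ x2 h) ^ 2 - (inner ℝ x2 k) ^ 2) -
      (1 / q3) * ((inner ℝ x3 h) ^ 2 - (inner ℝ x3 k) ^ 2) -
      (1 / q4) * ((inner ℝ x4 h) ^ 2 - (inner ℝ x4 k) ^ 2) := by
    have f1 := hta_B h k x1 x1
    have f2 := hta_B h k x2 x2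
    have f3 := hta_B h k x3 x3
    have f4 := hta_B h k x4 x4
    rw [pow_two, pow_two, pow_two, pow_two, pow_two, pow_two, pow_two, pow_two, ← f1, ← f2,
      ← f3, ← f4, Finset.mul_sum, Finset.mul_sum, Finset.mul_sum, Finset.mul_sum,
      ← Finset.sum_add_distrib, ← Finset.sum_sub_distrib, ← Finset.sum_sub_distrib, hT]
    refine Finset.sum_congr rfl fun p _ => ?_
    ring
  have htr : |‖x1‖ ^ 2 / q1 + ‖x2‖ ^ 2 / q2 - ‖x3‖ ^ 2 / q3 - ‖x4‖ ^ 2 / q4| ≤ m * ε := by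
    rw [hta_norm x1, hta_norm x2, hta_norm x3, hta_norm x4, Finset.sum_div, Finset.sum_div,
      Finset.sum_div, Finset.sum_div, ← Finset.sum_add_distrib, ← Finset.sum_sub_distrib,
      ← Finset.sum_sub_distrib]
    refine (Finset.abs_sum_le_sum_abs _ _).trans ?_
    calc _ ≤ ∑ i : Fin m, ε := Finset.sum_le_sum fun i _ => hS i i
      _ = m * ε := by simp
  -- norms of the points
  have g1 : ‖x1‖ ^ 2 = ‖a‖ ^ 2 + 2 * inner ℝ a h + ‖h‖ ^ 2 := by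
    rw [e1, norm_add_sq_real]
  have g2 : ‖x2‖ ^ 2 = ‖a‖ ^ 2 - 2 * inner ℝ a h + ‖h‖ ^ 2 := by
    rw [e2, norm_sub_sq_real]
  have g3 : ‖x3‖ ^ 2 = ‖a‖ ^ 2 + 2 * inner ℝ a k + ‖k‖ ^ 2 := by
    rw [e3, norm_add_sq_real]
  have g4 : ‖x4‖ ^ 2 = ‖a‖ ^ 2 - 2 * inner ℝ a k + ‖k‖ ^ 2 := by
    rw [e4, norm_sub_sq_real]
  have hkh : inner ℝ k h = inner ℝ h k := real_inner_comm h k
  have hQa := hta_Q h k a a b hb hbb na na
  have hQk := hta_Q h k k k b hb hbb nk nk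
  have hQak := hta_Q h k a k b hb hbb na nk
  rw [real_inner_self_eq_norm_sq, hkh] at hQk hQak
  have hβ : |inner ℝ a k| ≤ 1 := by
    refine (abs_real_inner_le_norm a k).trans ?_
    exact mul_le_one₀ na (norm_nonneg _) nk
  have hpos : 0 ≤ (inner ℝ a h) ^ 2 * ‖h‖ ^ 2 - 2 * (inner ℝ a h) * (inner ℝ a k) * (inner ℝ h k) +
      (inner ℝ a k) ^ 2 * ‖k‖ ^ 2 := by
    have h1 : ‖(inner ℝ a h : ℝ) • h - (inner ℝ a k : ℝ) • k‖ ^ 2 =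
      (inner ℝ a h) ^ 2 * ‖h‖ ^ 2 - 2 * (inner ℝ a h) * (inner ℝ a k) * (inner ℝ h k) +
      (inner ℝ a k) ^ 2 * ‖k‖ ^ 2 := by
      rw [norm_sub_sq_real, norm_smul, norm_smul, mul_pow, mul_pow, Real.norm_eq_abs,
        Real.norm_eq_abs, sq_abs, sq_abs, real_inner_smul_left, real_inner_smul_right]
      ring
    rw [← h1]
    positivity
  have key := hta_scalar c0 hc m ε (inner ℝ a h) (inner ℝ a k) (inner ℝ h k) (‖h‖ ^ 2) (‖k‖ ^ 2)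
    (‖a‖ ^ 2) q1 q2 q3 q4 T b (Nat.cast_nonneg m) hq1 hq2 hq3 hq4 (qle x1 q1 p1 hn1)
    (qle x2 q2 p2 hn2) (qle x3 q3 p3 hn3) (qle x4 q4 p4 hn4) hb hbb
    (by rw [hn1, g1]) (by rw [hn2, g2]) (by rw [hn3, g3]) (by rw [hn4, g4]) hF
    (by rw [← g1, ← g2, ← g3, ← g4]; exact htr) hTb
    (by
      rw [hTe, e1, e2, e3, e4]
      simp only [inner_add_left, inner_sub_left, real_inner_self_eq_norm_sq, hkh])
    hpos (by simpa [pow_two] using hQa) (by simpa [pow_two] using hQk) hQak hβ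
  -- conclusion
  have hfin : (‖x1 - x3‖ * ‖x1 - x4‖) ^ 2 ≤ (2 * b) ^ 2 := by
    have h1 : x1 - x3 = h - k := by rw [e1, e3]; module
    have h2 : x1 - x4 = h + k := by rw [e1, e4]; module
    rw [mul_pow, h1, h2, norm_sub_sq_real, norm_add_sq_real, mul_pow, hbb, hb2]
    exact hta_fin _ _ _ (by rw [← hb2]; exact hb2n)
  have h3 : ‖x1 - x3‖ * ‖x1 - x4‖ ≤ 2 * b :=
    (abs_le_of_sq_le_sq' hfin (by positivity)).2
  calc _ ≤ 2 * b := h3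
    _ ≤ 2 * (((m:ℝ) + 2 * (m + 1) + 8 * ((m + 3) / (4 * c0 ^ 6))) * ε) := by linarith
    _ = _ := by ring

end Pool.Agent.MST
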