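import Pool.Agent.MST.NS
import Pool.Agent.MST.TA
import Pool.Agent.MST.SQ
import Pool.Agent.MST.FB
import Pool.Agent.MST.GH

namespace Pool.Agent.MST

open MeasureTheory Set Pool.Agent.MP_6cbfb8_an
open scoped ENNReal Real


theorem hkb2_mv_apply {m : ℕ} (N : Mat m) (w : E m) (i : Fin m) :
    mv N w i = ∑ j, N i j * w j := rfl

theorem hkb2_mv_sub_left {m : ℕ} (N N' : Mat m) (w : E m) :
    mv (N - N') w = mv N w - mv N' w := by
  ext i
  simp only [hkb2_mv_apply, PiLp.sub_apply, Pi.sub_apply, sub_mul, Finset.sum_sub_distrib]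

theorem hkb2_mv_sub_right {m : ℕ} (N : Mat m) (w y : E m) :
    mv N (w - y) = mv N w - mv N y := by
  ext i
  simp only [hkb2_mv_apply, PiLp.sub_apply, mul_sub, Finset.sum_sub_distrib]

theorem hkb2_norm_le {m : ℕ} (x : E m) (B : ℝ) (hB : 0 ≤ B) (h : ∀ i, |x i| ≤ B) :
    ‖x‖ ≤ m * B := by
  rw [EuclideanSpace.norm_eq]
  refine Real.sqrt_le_iff.2 ⟨by positivity, ?_⟩
  calc ∑ i, ‖x i‖ ^ 2 ≤ ∑ _i : Fin m, B ^ 2 := by
        refine Finset.sum_le_sum fun i _ => ?_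
        exact pow_le_pow_left₀ (norm_nonneg _) (h i) 2
    _ = m * B ^ 2 := by simp
    _ ≤ (m * B) ^ 2 := by
        rw [mul_pow]
        refine mul_le_mul_of_nonneg_right ?_ (by positivity)
        have : (m : ℝ) ≤ (m : ℝ) * m := by
          rcases Nat.eq_zero_or_pos m with h0 | h0
          · simp [h0]
          · have : (1 : ℝ) ≤ m := by exact_mod_cast h0
            nlinarith
        nlinarith

theorem hkb2_coord {m : ℕ} (w : E m) (i : Fin m) : |w i| ≤ ‖w‖ := by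
  have := PiLp.norm_apply_le w i
  simpa using this

theorem hkb2_entry {m : ℕ} (N : Mat m) (i j : Fin m) : |N i j| ≤ ‖N‖ := by
  have h1 := norm_le_pi_norm N i
  have h2 := norm_le_pi_norm (N i) j
  exact h2.trans h1

theorem hkb2_mv_norm {m : ℕ} (N : Mat m) (w : E m) : ‖mv N w‖ ≤ (m : ℝ) ^ 2 * ‖N‖ * ‖w‖ := by
  have h1 : ‖mv N w‖ ≤ m * (m * (‖N‖ * ‖w‖)) := by
    refine hkb2_norm_le _ _ (by positivity) fun i => ?_
    rw [hkb2_mv_apply]
    refine (Finset.abs_sum_le_sum_abs _ _).trans ?_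
    calc ∑ j, |N i j * w j| ≤ ∑ _j : Fin m, ‖N‖ * ‖w‖ := by
          refine Finset.sum_le_sum fun j _ => ?_
          rw [abs_mul]
          exact mul_le_mul (hkb2_entry N i j) (hkb2_coord w j) (abs_nonneg _) (norm_nonneg _)
      _ = m * (‖N‖ * ‖w‖) := by simp
  refine h1.trans (le_of_eq (by ring))

theorem hkb2_lower {m : ℕ} (N0 : Mat m) (h0 : Function.Injective (mv N0)) :
    ∃ c : ℝ, 0 < c ∧ ∃ ρ : ℝ, 0 < ρ ∧ ∀ N ∈ Metric.closedBall N0 ρ, ∀ w : E m,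
      c * ‖w‖ ≤ ‖mv N w‖ := by
  let L : E m →ₗ[ℝ] E m :=
    { toFun := mv N0
      map_add' := by
        intro x y
        ext i
        simp only [hkb2_mv_apply, PiLp.add_apply, mul_add, Finset.sum_add_distrib]
      map_smul' := by
        intro s x
        ext i
        simp only [hkb2_mv_apply, PiLp.smul_apply, smul_eq_mul, RingHom.id_apply, Finset.mul_sum]
        refine Finset.sum_congr rfl fun j _ => by ring }
  obtain ⟨K, hK, hA⟩ := LinearMap.exists_antilipschitzWith L (LinearMap.ker_eq_bot.2 h0)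
  have hK' : (0 : ℝ) < K := hK
  have hA' : ∀ w : E m, ‖w‖ ≤ K * ‖mv N0 w‖ := fun w => by
    have := hA.le_mul_dist w 0
    simp only [dist_eq_norm, map_zero, sub_zero] at this
    exact this
  refine ⟨1 / (2 * K), by positivity, 1 / (2 * K * ((m : ℝ) ^ 2 + 1)), by positivity,
    fun N hN w => ?_⟩
  have h1 : ‖N - N0‖ ≤ 1 / (2 * K * ((m : ℝ) ^ 2 + 1)) := by
    have := Metric.mem_closedBall.1 hN
    rwa [dist_eq_norm] at this
  have h2 : ‖mv (N - N0) w‖ ≤ 1 / (2 * K) * ‖w‖ := by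
    refine (hkb2_mv_norm _ _).trans (mul_le_mul_of_nonneg_right ?_ (norm_nonneg _))
    calc (m : ℝ) ^ 2 * ‖N - N0‖ ≤ ((m : ℝ) ^ 2 + 1) * (1 / (2 * K * ((m : ℝ) ^ 2 + 1))) :=
          mul_le_mul (by linarith) h1 (norm_nonneg _) (by positivity)
      _ = 1 / (2 * K) := by
          field_simp
  have h3 : ‖mv N0 w‖ ≤ ‖mv N w‖ + ‖mv (N - N0) w‖ := by
    have : mv N0 w = mv N w - mv (N - N0) w := by
      rw [hkb2_mv_sub_left]
      abel
    rw [this]
    exact norm_sub_le _ _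
  have h4 : 1 / K * ‖w‖ ≤ ‖mv N0 w‖ := by
    rw [one_div, inv_mul_le_iff₀ hK']
    exact hA' w
  have h5 : 1 / (K : ℝ) * ‖w‖ = 1 / (2 * K) * ‖w‖ + 1 / (2 * K) * ‖w‖ := by
    field_simp
    ring
  linarith

theorem hkb2_bdd (c0 : ℝ) (a : ℝ → ℝ) (ha : Cut2 c0 a) : ∃ B : ℝ, 0 ≤ B ∧
    ∀ v ≤ 1, |a v| ≤ B := by
  have hc : ContinuousOn a (Icc c0 1) := ((ha.1 0).continuous).continuousOn
  obtain ⟨B, hB⟩ := isCompact_Icc.exists_bound_of_continuousOn hc
  refine ⟨max B 0, le_max_right _ _, fun v hv => ?_⟩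
  rcases le_total v c0 with h | h
  · rw [ha.2 v h, abs_zero]
    exact le_max_right _ _
  · exact (hB v ⟨h, hv⟩).trans (le_max_left _ _)

theorem hkb2_v_le {m : ℕ} (N : Mat m) (w : E m) : vN N w ≤ 1 := by
  unfold vN
  nlinarith [sq_nonneg ‖mv N w‖]

theorem hkb2_v_lip {m : ℕ} (N N' : Mat m) (w : E m) (Q r : ℝ) (h1 : ‖N‖ ≤ Q) (h2 : ‖N'‖ ≤ Q)
    (hw : ‖w‖ ≤ r) :
    |vN N w - vN N' w| ≤ 2 * (m : ℝ) ^ 4 * Q * r ^ 2 * ‖N - N'‖ := by
  have hQ : 0 ≤ Q := (norm_nonneg _).trans h1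
  have hr : 0 ≤ r := (norm_nonneg _).trans hw
  have h3 : vN N w - vN N' w = (‖mv N' w‖ - ‖mv N w‖) * (‖mv N' w‖ + ‖mv N w‖) := by
    unfold vN
    ring
  rw [h3, abs_mul]
  have h4 : |‖mv N' w‖ - ‖mv N w‖| ≤ (m : ℝ) ^ 2 * ‖N - N'‖ * r := by
    refine (abs_norm_sub_norm_le _ _).trans ?_
    rw [← hkb2_mv_sub_left, ← norm_neg (N - N'), neg_sub]
    refine (hkb2_mv_norm _ _).trans ?_
    exact mul_le_mul_of_nonneg_left hw (by positivity)
  have h5 : ∀ M : Mat m, ‖M‖ ≤ Q → ‖mv M w‖ ≤ (m : ℝ) ^ 2 * Q * r := by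
    intro M hM
    refine (hkb2_mv_norm _ _).trans ?_
    exact mul_le_mul (mul_le_mul_of_nonneg_left hM (by positivity)) hw (norm_nonneg _)
      (by positivity)
  have h6 : |‖mv N' w‖ + ‖mv N w‖| ≤ 2 * ((m : ℝ) ^ 2 * Q * r) := by
    rw [abs_of_nonneg (by positivity)]
    linarith [h5 N h1, h5 N' h2]
  calc |‖mv N' w‖ - ‖mv N w‖| * |‖mv N' w‖ + ‖mv N w‖|
      ≤ ((m : ℝ) ^ 2 * ‖N - N'‖ * r) * (2 * ((m : ℝ) ^ 2 * Q * r)) :=
        mul_le_mul h4 h6 (abs_nonneg _) (by positivity)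
    _ = 2 * (m : ℝ) ^ 4 * Q * r ^ 2 * ‖N - N'‖ := by ring


theorem hkb2_mv_line {m : ℕ} (N e : Mat m) (τ : ℝ) (w : E m) :
    mv (N + τ • e) w = mv N w + τ • mv e w := by
  ext i
  simp only [hkb2_mv_apply, PiLp.add_apply, PiLp.smul_apply, Pi.add_apply, Pi.smul_apply,
    smul_eq_mul, add_mul, Finset.sum_add_distrib, Finset.mul_sum]
  congr 1
  exact Finset.sum_congr rfl fun j _ => by ring

/-- lines in the space of matrices -/
theorem hkb2_line_cont {m : ℕ} (N : Mat m) (k l : Fin m) (w : E m) :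
    Continuous fun τ : ℝ => vN (N + τ • em k l) w := by
  simp only [vN, hkb2_mv_line]
  fun_prop

theorem hkb2_eventually {m : ℕ} (c1 : ℝ) (S : ℝ → ℝ) (hS : ∀ v, c1 ≤ v → S v = √v) (N : Mat m)
    (k l : Fin m) (w : E m) (h : c1 < vN N w) :
    (fun τ : ℝ => S (vN (N + τ • em k l) w)) =ᶠ[nhds 0] fun τ => √(vN (N + τ • em k l) w) := by
  have h1 : ∀ᶠ τ : ℝ in nhds 0, c1 < vN (N + τ • em k l) w := by
    have := (hkb2_line_cont N k l w).continuousAt (x := 0)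
    refine this.eventually (lt_mem_nhds ?_)
    simpa using h
  filter_upwards [h1] with τ hτ
  exact hS _ hτ.le

theorem hkb2_deriv {m : ℕ} (c1 : ℝ) (hc1 : 0 < c1) (S : ℝ → ℝ) (hS : ∀ v, c1 ≤ v → S v = √v)
    (N : Mat m) (k l : Fin m) (w y z : E m) (h1 : c1 < vN N w) (h2 : c1 < vN N (w - y - z))
    (h3 : c1 < vN N (w - y)) (h4 : c1 < vN N (w - z)) :
    deriv (fun τ : ℝ => fd (fun w => S (vN (N + τ • em k l) w)) w y z) 0 =
      -(mv N w k * w l / √(vN N w)) - (mv N (w - y - z) k * (w - y - z) l / √(vN N (w - y - z)))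
      + (mv N (w - y) k * (w - y) l / √(vN N (w - y)))
      + (mv N (w - z) k * (w - z) l / √(vN N (w - z))) := by
  have key : ∀ u : E m, c1 < vN N u → HasDerivAt (fun τ : ℝ => S (vN (N + τ • em k l) u))
      (-(mv N u k * u l / √(vN N u))) 0 := fun u hu =>
    (deriv_phase m k l N u (hc1.trans hu)).congr_of_eventuallyEq
      (hkb2_eventually c1 S hS N k l u hu)
  have h5 := (((key _ h1).add (key _ h2)).sub (key _ h3)).sub (key _ h4)
  have h6 : HasDerivAt (fun τ : ℝ => fd (fun w => S (vN (N + τ • em k l) w)) w y z)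
      (-(mv N w k * w l / √(vN N w)) + -(mv N (w - y - z) k * (w - y - z) l / √(vN N (w - y - z)))
      - -(mv N (w - y) k * (w - y) l / √(vN N (w - y)))
      - -(mv N (w - z) k * (w - z) l / √(vN N (w - z)))) 0 := h5
  rw [h6.deriv]
  ring

/-- The lower bound for the gradient of the phase. -/
theorem hkb2_grad (m : ℕ) (c1 c Q : ℝ) (hc1 : 0 < c1) (hc : 0 < c) (hQ : 0 ≤ Q) :
    ∃ c' : ℝ, 0 < c' ∧ ∀ (S : ℝ → ℝ), (∀ v, c1 ≤ v → S v = √v) →
    ∀ N : Mat m, ‖N‖ ≤ Q → (∀ u : E m, c * ‖u‖ ≤ ‖mv N u‖) → ∀ w y z : E m,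
      2 * c1 ≤ vN N w → 2 * c1 ≤ vN N (w - y - z) → 2 * c1 ≤ vN N (w - y) →
      2 * c1 ≤ vN N (w - z) → y ≠ 0 → z ≠ 0 →
      c' * (‖y‖ * ‖z‖) ≤ |fd (fun w => S (vN N w)) w y z| ∨ ∃ k l : Fin m,
        c' * (‖y‖ * ‖z‖) ≤
          |deriv (fun τ : ℝ => fd (fun w => S (vN (N + τ • em k l) w)) w y z) 0| := by
  obtain ⟨C, hC, hT⟩ := tensor_lower m (√(2 * c1)) (by positivity)
  refine ⟨c ^ 2 / (2 * C * (1 + m * Q)), by positivity,
    fun S hS N hN hcN w y z h1 h2 h3 h4 hy hz => ?_⟩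
  set c' : ℝ := c ^ 2 / (2 * C * (1 + m * Q)) with hc'
  by_contra hcon
  push Not at hcon
  obtain ⟨hA, hB⟩ := hcon
  have hP : 0 < ‖y‖ * ‖z‖ := mul_pos (norm_pos_iff.2 hy) (norm_pos_iff.2 hz)
  have hc'0 : 0 < c' := by positivity
  set P : ℝ := ‖y‖ * ‖z‖ with hPdef
  have hS1 : ∀ u : E m, 2 * c1 ≤ vN N u → S (vN N u) = √(vN N u) := fun u hu =>
    hS _ (by linarith)
  have hsq : ∀ u : E m, 2 * c1 ≤ vN N u → √(vN N u) ^ 2 = 1 - ‖mv N u‖ ^ 2 := by
    intro u hu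
    rw [Real.sq_sqrt (by linarith)]
    rfl
  have hcq : ∀ u : E m, 2 * c1 ≤ vN N u → √(2 * c1) ≤ √(vN N u) := fun u hu =>
    Real.sqrt_le_sqrt hu
  have hm : 1 ≤ 1 + (m : ℝ) * Q := by
    have : 0 ≤ (m : ℝ) * Q := by positivity
    linarith
  have hmain := hT (mv N w) (mv N (w - y - z)) (mv N (w - y)) (mv N (w - z))
    (√(vN N w)) (√(vN N (w - y - z))) (√(vN N (w - y))) (√(vN N (w - z)))
    ((1 + m * Q) * (c' * P)) (by
      simp only [hkb2_mv_sub_right]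
      abel) (hcq _ h1) (hcq _ h2) (hcq _ h3) (hcq _ h4) (hsq _ h1) (hsq _ h2) (hsq _ h3) (hsq _ h4)
    (by
      have h5 : fd (fun w => S (vN N w)) w y z =
          √(vN N w) + √(vN N (w - y - z)) - √(vN N (w - y)) - √(vN N (w - z)) := by
        simp only [fd, hS1 _ h1, hS1 _ h2, hS1 _ h3, hS1 _ h4]
      rw [← h5]
      refine hA.le.trans ?_
      have : 0 ≤ c' * P := by positivity
      nlinarith) (by
      intro k j
      have h5 : mv N w k * mv N w j / √(vN N w) +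
          mv N (w - y - z) k * mv N (w - y - z) j / √(vN N (w - y - z)) -
          mv N (w - y) k * mv N (w - y) j / √(vN N (w - y)) -
          mv N (w - z) k * mv N (w - z) j / √(vN N (w - z)) =
          -∑ l, N j l * deriv (fun τ : ℝ => fd (fun w => S (vN (N + τ • em k l) w)) w y z) 0 := by
        have h6 : ∀ l, N j l *
            deriv (fun τ : ℝ => fd (fun w => S (vN (N + τ • em k l) w)) w y z) 0 =
            -(mv N w k / √(vN N w) * (N j l * w l)) -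
            (mv N (w - y - z) k / √(vN N (w - y - z)) * (N j l * (w - y - z) l))
            + (mv N (w - y) k / √(vN N (w - y)) * (N j l * (w - y) l))
            + (mv N (w - z) k / √(vN N (w - z)) * (N j l * (w - z) l)) := by
          intro l
          rw [hkb2_deriv c1 hc1 S hS N k l w y z (by linarith) (by linarith) (by linarith)
            (by linarith)]
          ring
        simp only [h6, Finset.sum_add_distrib, Finset.sum_sub_distrib, Finset.sum_neg_distrib,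
          ← Finset.mul_sum, ← hkb2_mv_apply]
        ring
      rw [h5, abs_neg]
      refine (Finset.abs_sum_le_sum_abs _ _).trans ?_
      calc ∑ l, |N j l * deriv (fun τ : ℝ => fd (fun w => S (vN (N + τ • em k l) w)) w y z) 0|
          ≤ ∑ _l : Fin m, Q * (c' * P) := by
            refine Finset.sum_le_sum fun l _ => ?_
            rw [abs_mul]
            exact mul_le_mul ((hkb2_entry N j l).trans hN) (hB k l).le (abs_nonneg _) hQ
        _ = m * Q * (c' * P) := by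
            simp
            ring
        _ ≤ (1 + m * Q) * (c' * P) := by
            have : 0 ≤ c' * P := by positivity
            nlinarith)
  have h5 : mv N w - mv N (w - y) = mv N y := by
    rw [hkb2_mv_sub_right]
    abel
  have h6 : mv N w - mv N (w - z) = mv N z := by
    rw [hkb2_mv_sub_right]
    abel
  rw [h5, h6] at hmain
  have h7 : c ^ 2 * P ≤ ‖mv N y‖ * ‖mv N z‖ := by
    calc c ^ 2 * P = (c * ‖y‖) * (c * ‖z‖) := by rw [hPdef]; ring
      _ ≤ ‖mv N y‖ * ‖mv N z‖ := mul_le_mul (hcN y) (hcN z) (by positivity) (norm_nonneg _)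
  have h8 : C * ((1 + m * Q) * (c' * P)) = c ^ 2 * P / 2 := by
    rw [hc']
    field_simp
  rw [h8] at hmain
  have h9 : 0 < c ^ 2 * P := by positivity
  linarith


/-- The choice of the radius. -/
theorem hkb2_choice (m : ℕ) (N0 : Mat m) (h0 : Function.Injective (mv N0)) (c0 : ℝ)
    (hc : 0 < c0) : ∃ (c ρ c' Q R : ℝ) (S : ℝ → ℝ), 0 < c ∧ 0 < ρ ∧ ρ ≤ 1 / 2 ∧ 0 < c' ∧ 0 < R ∧
    (∀ n : ℕ, ContDiff ℝ n S) ∧
    (∀ N ∈ Metric.closedBall N0 (2 * ρ), ‖N‖ ≤ Q ∧ ∀ u : E m, c * ‖u‖ ≤ ‖mv N u‖) ∧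
    (∀ N ∈ Metric.closedBall N0 (2 * ρ), ∀ u : E m, c0 < vN N u → ‖u‖ ≤ R) ∧
    ∀ w y z : E m, y ≠ 0 → z ≠ 0 →
    (∃ N ∈ Metric.closedBall N0 (2 * ρ), c0 < vN N w ∧ c0 < vN N (w - y - z) ∧
      c0 < vN N (w - y) ∧ c0 < vN N (w - z)) →
    ‖w‖ ≤ R ∧ ‖y‖ ≤ R ∧ ‖z‖ ≤ R ∧
    (∀ N ∈ Metric.closedBall N0 (2 * ρ), S (vN N w) = √(vN N w) ∧
      S (vN N (w - y - z)) = √(vN N (w - y - z)) ∧ S (vN N (w - y)) = √(vN N (w - y)) ∧
      S (vN N (w - z)) = √(vN N (w - z))) ∧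
    ((∀ N ∈ Metric.closedBall N0 (2 * ρ), c' * (‖y‖ * ‖z‖) ≤ |fd (fun w => S (vN N w)) w y z|) ∨
      ∃ k l : Fin m, ∀ N ∈ Metric.closedBall N0 (2 * ρ), c' * (‖y‖ * ‖z‖) ≤
        |deriv (fun τ : ℝ => fd (fun w => S (vN (N + τ • em k l) w)) w y z) 0|) := by
  obtain ⟨c, hc', ρ1, hρ1, hlow⟩ := hkb2_lower N0 h0
  set Q : ℝ := ‖N0‖ + 1 with hQ
  have hQ0 : 0 ≤ Q := by positivity
  set R : ℝ := 2 / c with hR
  have hR0 : 0 < R := by positivity
  have hc1 : 0 < c0 / 4 := by positivity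
  obtain ⟨S, hS, hS'⟩ := smooth_sqrt (c0 / 4) hc1
  obtain ⟨d, hd, hgrad⟩ := hkb2_grad m (c0 / 4) c Q hc1 hc' hQ0
  obtain ⟨K, hK, hlip⟩ := lip_phase m S hS (max R Q)
  set V : ℝ := 2 * (m : ℝ) ^ 4 * Q * R ^ 2 with hV
  have hV0 : 0 ≤ V := by positivity
  set ρ : ℝ := min (min (ρ1 / 2) (1 / 2)) (min (d / (4 * (K + 1))) (c0 / (8 * (V + 1)))) with hρ
  have hρ0 : 0 < ρ := by
    refine lt_min (lt_min (by positivity) (by norm_num)) (lt_min ?_ ?_)
    · positivity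
    · positivity
  have hρ1' : ρ ≤ ρ1 / 2 := (min_le_left _ _).trans (min_le_left _ _)
  have hρ2 : ρ ≤ 1 / 2 := (min_le_left _ _).trans (min_le_right _ _)
  have hρ3 : K * (2 * ρ) ≤ d / 2 := by
    have h1 : ρ ≤ d / (4 * (K + 1)) := (min_le_right _ _).trans (min_le_left _ _)
    have h2 : (K + 1) * (2 * ρ) ≤ d / 2 := by
      calc (K + 1) * (2 * ρ) ≤ (K + 1) * (2 * (d / (4 * (K + 1)))) :=
            mul_le_mul_of_nonneg_left (by linarith) (by linarith)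
        _ = d / 2 := by
            field_simp
            ring
    have h3 : K * (2 * ρ) ≤ (K + 1) * (2 * ρ) := by nlinarith
    linarith
  have hρ4 : V * (4 * ρ) ≤ c0 / 2 := by
    have h1 : ρ ≤ c0 / (8 * (V + 1)) := (min_le_right _ _).trans (min_le_right _ _)
    have h2 : (V + 1) * (4 * ρ) ≤ c0 / 2 := by
      calc (V + 1) * (4 * ρ) ≤ (V + 1) * (4 * (c0 / (8 * (V + 1)))) :=
            mul_le_mul_of_nonneg_left (by linarith) (by linarith)
        _ = c0 / 2 := by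
            field_simp
            ring
    have h3 : V * (4 * ρ) ≤ (V + 1) * (4 * ρ) := by nlinarith
    linarith
  have hball : ∀ N ∈ Metric.closedBall N0 (2 * ρ), ‖N‖ ≤ Q ∧ ∀ u : E m, c * ‖u‖ ≤ ‖mv N u‖ := by
    intro N hN
    have h1 : ‖N - N0‖ ≤ 2 * ρ := by
      have := Metric.mem_closedBall.1 hN
      rwa [dist_eq_norm] at this
    refine ⟨?_, hlow N (Metric.closedBall_subset_closedBall (by linarith) hN)⟩
    have h2 : N = (N - N0) + N0 := by abel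
    rw [h2]
    refine (norm_add_le _ _).trans ?_
    rw [hQ]
    linarith
  have hbdd : ∀ N ∈ Metric.closedBall N0 (2 * ρ), ∀ u : E m, c0 < vN N u → ‖u‖ ≤ 1 / c := by
    intro N hN u hu
    have h1 : ‖mv N u‖ ^ 2 < 1 := by
      have h2 : vN N u = 1 - ‖mv N u‖ ^ 2 := rfl
      rw [h2] at hu
      linarith
    have h2 : ‖mv N u‖ < 1 := by
      by_contra h3
      push Not at h3
      nlinarith
    have h3 := (hball N hN).2 u
    rw [le_div_iff₀ hc']
    linarith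
  have hRc : 1 / c ≤ R := by
    rw [hR]
    exact div_le_div_of_nonneg_right (by norm_num) hc'.le
  have hR2 : R = 1 / c + 1 / c := by
    rw [hR]
    ring
  refine ⟨c, ρ, d / 2, Q, R, S, hc', hρ0, hρ2, by positivity, hR0, hS, hball,
    fun N hN u hu => (hbdd N hN u hu).trans hRc, ?_⟩
  rintro w y z hy hz ⟨N', hN', h1, h2, h3, h4⟩
  have hw1 := hbdd N' hN' w h1
  have hw2 := hbdd N' hN' _ h2
  have hw3 := hbdd N' hN' _ h3
  have hw4 := hbdd N' hN' _ h4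
  have hyR : ‖y‖ ≤ R := by
    have : y = w - (w - y) := by abel
    rw [this, hR2]
    exact (norm_sub_le _ _).trans (add_le_add hw1 hw3)
  have hzR : ‖z‖ ≤ R := by
    have : z = w - (w - z) := by abel
    rw [this, hR2]
    exact (norm_sub_le _ _).trans (add_le_add hw1 hw4)
  have hwR : ‖w‖ ≤ R := hw1.trans hRc
  have hv : ∀ N ∈ Metric.closedBall N0 (2 * ρ), ∀ u : E m, ‖u‖ ≤ 1 / c → c0 < vN N' u →
      c0 / 2 ≤ vN N u := by
    intro N hN u hu hu'
    have h5 := hkb2_v_lip N N' u Q R (hball N hN).1 (hball N' hN').1 (hu.trans hRc)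
    have h6 : ‖N - N'‖ ≤ 4 * ρ := by
      have h7 : N - N' = (N - N0) - (N' - N0) := by abel
      rw [h7]
      refine (norm_sub_le _ _).trans ?_
      have h8 := Metric.mem_closedBall.1 hN
      have h9 := Metric.mem_closedBall.1 hN'
      rw [dist_eq_norm] at h8 h9
      linarith
    have h7 : |vN N u - vN N' u| ≤ c0 / 2 :=
      h5.trans ((mul_le_mul_of_nonneg_left h6 hV0).trans hρ4)
    have := (abs_le.1 h7).1
    linarith
  refine ⟨hwR, hyR, hzR, fun N hN => ⟨hS' _ ?_, hS' _ ?_, hS' _ ?_, hS' _ ?_⟩, ?_⟩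
  · linarith [hv N hN _ hw1 h1]
  · linarith [hv N hN _ hw2 h2]
  · linarith [hv N hN _ hw3 h3]
  · linarith [hv N hN _ hw4 h4]
  have hN0 : N0 ∈ Metric.closedBall N0 (2 * ρ) := Metric.mem_closedBall_self (by positivity)
  have hP : 0 ≤ ‖y‖ * ‖z‖ := by positivity
  have hcase := hgrad S hS' N0 (hball N0 hN0).1 (hball N0 hN0).2 w y z
    (by linarith [hv N0 hN0 _ hw1 h1]) (by linarith [hv N0 hN0 _ hw2 h2])
    (by linarith [hv N0 hN0 _ hw3 h3]) (by linarith [hv N0 hN0 _ hw4 h4]) hy hz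
  have hl : ∀ N ∈ Metric.closedBall N0 (2 * ρ), K * ‖N - N0‖ * (‖y‖ * ‖z‖) ≤
      d / 2 * (‖y‖ * ‖z‖) := by
    intro N hN
    refine mul_le_mul_of_nonneg_right ?_ hP
    have h8 := Metric.mem_closedBall.1 hN
    rw [dist_eq_norm] at h8
    exact (mul_le_mul_of_nonneg_left h8 hK).trans hρ3
  have hL : ∀ N ∈ Metric.closedBall N0 (2 * ρ), _ := fun N hN =>
    hlip N N0 ((hball N hN).1.trans (le_max_right _ _)) ((hball N0 hN0).1.trans (le_max_right _ _))
      w y z (hwR.trans (le_max_left _ _)) (hyR.trans (le_max_left _ _))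
      (hzR.trans (le_max_left _ _))
  rcases hcase with hA | ⟨k, l, hB⟩
  · left
    intro N hN
    have h5 := (hL N hN).1.trans (hl N hN)
    have h6 := abs_sub_abs_le_abs_sub (fd (fun w => S (vN N0 w)) w y z)
      (fd (fun w => S (vN N w)) w y z)
    rw [abs_sub_comm] at h6
    have h7 : d * (‖y‖ * ‖z‖) = d / 2 * (‖y‖ * ‖z‖) + d / 2 * (‖y‖ * ‖z‖) := by ring
    linarith
  · right
    refine ⟨k, l, fun N hN => ?_⟩
    have h5 := ((hL N hN).2 k l).trans (hl N hN)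
    have h6 := abs_sub_abs_le_abs_sub
      (deriv (fun τ : ℝ => fd (fun w => S (vN (N0 + τ • em k l) w)) w y z) 0)
      (deriv (fun τ : ℝ => fd (fun w => S (vN (N + τ • em k l) w)) w y z) 0)
    rw [abs_sub_comm] at h6
    have h7 : d * (‖y‖ * ‖z‖) = d / 2 * (‖y‖ * ‖z‖) + d / 2 * (‖y‖ * ‖z‖) := by ring
    linarith


/-- The product of the four amplitudes. -/
noncomputable def hkb2A {m : ℕ} (a : ℝ → ℝ) (N : Mat m) (w y z : E m) : ℝ :=
  a (vN N w) * a (vN N (w - y - z)) * a (vN N (w - y)) * a (vN N (w - z))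

theorem hkb2_ex_add (a b : ℝ) : ex (a + b) = ex a * ex b := by
  unfold ex
  rw [← Complex.exp_add]
  congr 1
  push_cast
  ring

theorem hkb2_conj_ex (a : ℝ) : (starRingEnd ℂ) (ex a) = ex (-a) := by
  unfold ex
  rw [← Complex.exp_conj, map_mul, Complex.conj_ofReal, Complex.conj_I]
  congr 1
  push_cast
  ring

theorem hkb2_prod {m : ℕ} (a : ℝ → ℝ) (N : Mat m) (t : ℝ) (w y z : E m) :
    amp2 a N t w * amp2 a N t (w - y - z) * (starRingEnd ℂ) (amp2 a N t (w - y)) *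
      (starRingEnd ℂ) (amp2 a N t (w - z)) =
    ((hkb2A a N w y z : ℝ) : ℂ) * ex (t * fd (fun w => √(vN N w)) w y z) := by
  have h1 : t * fd (fun w => √(vN N w)) w y z = t * √(vN N w) + t * √(vN N (w - y - z)) +
      -(t * √(vN N (w - y))) + -(t * √(vN N (w - z))) := by
    simp only [fd]
    ring
  rw [h1, hkb2_ex_add, hkb2_ex_add, hkb2_ex_add, ← hkb2_conj_ex, ← hkb2_conj_ex]
  simp only [amp2, map_mul, Complex.conj_ofReal, hkb2A]
  push_cast
  ring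

theorem hkb2_A_bdd {m : ℕ} (a : ℝ → ℝ) (B : ℝ) (hB : 0 ≤ B) (h : ∀ v ≤ 1, |a v| ≤ B) (N : Mat m)
    (w y z : E m) : |hkb2A a N w y z| ≤ B ^ 4 := by
  unfold hkb2A
  rw [abs_mul, abs_mul, abs_mul]
  have h1 := h _ (hkb2_v_le N w)
  have h2 := h _ (hkb2_v_le N (w - y - z))
  have h3 := h _ (hkb2_v_le N (w - y))
  have h4 := h _ (hkb2_v_le N (w - z))
  calc |a (vN N w)| * |a (vN N (w - y - z))| * |a (vN N (w - y))| * |a (vN N (w - z))|
      ≤ B * B * B * B := by gcongr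
    _ = B ^ 4 := by ring

theorem hkb2_A_ne {m : ℕ} (c0 : ℝ) (a : ℝ → ℝ) (ha : Cut2 c0 a) (N : Mat m) (w y z : E m)
    (h : hkb2A a N w y z ≠ 0) : c0 < vN N w ∧ c0 < vN N (w - y - z) ∧
      c0 < vN N (w - y) ∧ c0 < vN N (w - z) := by
  unfold hkb2A at h
  have key : ∀ u : E m, a (vN N u) ≠ 0 → c0 < vN N u := by
    intro u hu
    by_contra h1
    exact hu (ha.2 _ (not_lt.1 h1))
  refine ⟨key _ ?_, key _ ?_, key _ ?_, key _ ?_⟩ <;>
  · intro h1
    apply h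
    rw [h1]
    ring

theorem hkb2_vN_cont {m : ℕ} (w : E m) : Continuous fun N : Mat m => vN N w := by
  have h1 : Continuous fun N : Mat m => mv N w := by
    unfold mv
    fun_prop
  unfold vN
  fun_prop

theorem hkb2_A_cont {m : ℕ} (a : ℝ → ℝ) (ha : Continuous a) (w y z : E m) :
    Continuous fun N : Mat m => hkb2A a N w y z := by
  unfold hkb2A
  exact (((ha.comp (hkb2_vN_cont _)).mul (ha.comp (hkb2_vN_cont _))).mul
    (ha.comp (hkb2_vN_cont _))).mul (ha.comp (hkb2_vN_cont _))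

theorem hkb2_F_cont {m : ℕ} (g : ℝ → ℝ) (hg : Continuous g) (w y z : E m) :
    Continuous fun N : Mat m => fd (fun w => g (vN N w)) w y z := by
  unfold fd
  exact (((hg.comp (hkb2_vN_cont _)).add (hg.comp (hkb2_vN_cont _))).sub
    (hg.comp (hkb2_vN_cont _))).sub (hg.comp (hkb2_vN_cont _))

theorem hkb2_int_cont {m : ℕ} (a : ℝ → ℝ) (ha : Continuous a) (w y z : E m) :
    Continuous fun l : Mat m × ℝ => ((hkb2A a l.1 w y z : ℝ) : ℂ) *
      ex (l.2 * fd (fun w => √(vN l.1 w)) w y z) := by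
  have h1 := (hkb2_A_cont a ha w y z).comp (continuous_fst (X := Mat m) (Y := ℝ))
  have h2 := (hkb2_F_cont (fun v => √v) Real.continuous_sqrt w y z).comp
    (continuous_fst (X := Mat m) (Y := ℝ))
  refine (Complex.continuous_ofReal.comp h1).mul ?_
  unfold ex
  have h3 : Continuous fun l : Mat m × ℝ => l.2 * fd (fun w => √(vN l.1 w)) w y z :=
    continuous_snd.mul h2
  fun_prop

theorem hkb2_int_norm {m : ℕ} (a : ℝ → ℝ) (B : ℝ) (hB : 0 ≤ B) (h : ∀ v ≤ 1, |a v| ≤ B)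
    (N : Mat m) (w y z : E m) (s : ℝ) : ‖((hkb2A a N w y z : ℝ) : ℂ) * ex s‖ ≤ B ^ 4 := by
  rw [norm_mul, hns_norm_ex, mul_one, Complex.norm_real, Real.norm_eq_abs]
  exact hkb2_A_bdd a B hB h N w y z

/-- The measure in the matrix variable. -/
theorem hkb2_fin {m : ℕ} (φ : Mat m → ℝ) (hφ : Continuous φ) (N0 : Mat m) (r : ℝ)
    (h0 : ∀ N, N ∉ Metric.closedBall N0 r → φ N = 0) :
    IsFiniteMeasure ((volume : Measure (Mat m)).withDensity fun N => ENNReal.ofReal (φ N)) := by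
  have h1 : Integrable φ := hφ.integrable_of_hasCompactSupport
    (HasCompactSupport.intro (isCompact_closedBall N0 r) h0)
  exact isFiniteMeasure_withDensity_ofReal h1.2

theorem hkb2_mass {m : ℕ} (φ : Mat m → ℝ) (N0 : Mat m) (r : ℝ) (h1 : ∀ N, φ N ≤ 1)
    (h0 : ∀ N, N ∉ Metric.closedBall N0 r → φ N = 0) :
    ((volume : Measure (Mat m)).withDensity fun N => ENNReal.ofReal (φ N)) univ ≤
      volume (Metric.closedBall N0 r) := by
  rw [withDensity_apply _ MeasurableSet.univ, setLIntegral_univ,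
    ← lintegral_indicator_one Metric.isClosed_closedBall.measurableSet]
  refine lintegral_mono fun N => ?_
  by_cases hN : N ∈ Metric.closedBall N0 r
  · rw [indicator_of_mem hN]
    simp only [Pi.one_apply]
    exact ENNReal.ofReal_le_one.2 (h1 N)
  · simp only [h0 N hN, ENNReal.ofReal_zero]
    exact zero_le

theorem hkb2_ae {m : ℕ} (φ : Mat m → ℝ) (hφ : Continuous φ) (N0 : Mat m) (r : ℝ)
    (h0 : ∀ N, N ∉ Metric.closedBall N0 r → φ N = 0) (p : Mat m → Prop)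
    (hp : ∀ N ∈ Metric.closedBall N0 r, p N) :
    ∀ᵐ N ∂((volume : Measure (Mat m)).withDensity fun N => ENNReal.ofReal (φ N)), p N := by
  rw [ae_withDensity_iff (by fun_prop)]
  refine Filter.Eventually.of_forall fun N hN => hp N ?_
  by_contra h
  apply hN
  rw [h0 N h, ENNReal.ofReal_zero]


theorem hkb2_K2 {m : ℕ} (a : ℝ → ℝ) (φ : Mat m → ℝ) (T : ℝ) (w y z : E m) :
    K2 a φ T w y z = ∫ l : Mat m × ℝ, ((hkb2A a l.1 w y z : ℝ) : ℂ) *
      ex (l.2 * fd (fun w => √(vN l.1 w)) w y z)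
      ∂(((volume : Measure (Mat m)).withDensity fun N => ENNReal.ofReal (φ N)).prod (muJ m T)) := by
  unfold K2
  simp only [hkb2_prod]

theorem hkb2_muJ_real (m : ℕ) : ∃ C : ℝ, 0 < C ∧ ∀ T : ℝ, 0 < T →
    (muJ m T).real univ ≤ C * T := by
  obtain ⟨C, hC, h⟩ := muJ_univ m
  refine ⟨C, hC, fun T hT => ?_⟩
  exact ENNReal.toReal_le_of_le_ofReal (by positivity) (h T hT)

theorem hkb2_mass_real {m : ℕ} (φ : Mat m → ℝ) (N0 : Mat m) (r : ℝ) (h1 : ∀ N, φ N ≤ 1)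
    (h0 : ∀ N, N ∉ Metric.closedBall N0 r → φ N = 0) :
    ((volume : Measure (Mat m)).withDensity fun N => ENNReal.ofReal (φ N)).real univ ≤
      (volume : Measure (Mat m)).real (Metric.closedBall N0 r) :=
  ENNReal.toReal_mono (isCompact_closedBall N0 r).measure_lt_top.ne (hkb2_mass φ N0 r h1 h0)

theorem hkb2_trivial {m : ℕ} (N0 : Mat m) (r : ℝ) (a : ℝ → ℝ)
    (B : ℝ) (hB : 0 ≤ B) (hab : ∀ v ≤ 1, |a v| ≤ B) (φ : Mat m → ℝ) (hφ : Continuous φ)
    (h1 : ∀ N, φ N ≤ 1) (h0 : ∀ N, N ∉ Metric.closedBall N0 r → φ N = 0)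
    (C : ℝ) (hC : ∀ T : ℝ, 0 < T → (muJ m T).real univ ≤ C * T) (w y z : E m) (T : ℝ)
    (hT : 0 < T) :
    ‖K2 a φ T w y z‖ ≤
      B ^ 4 * ((volume : Measure (Mat m)).real (Metric.closedBall N0 r) * (C * T)) := by
  have := hkb2_fin φ hφ N0 r h0
  have := finite_muJ m T hT
  rw [hkb2_K2]
  have h2 : ∀ᵐ l : Mat m × ℝ ∂(((volume : Measure (Mat m)).withDensity
      fun N => ENNReal.ofReal (φ N)).prod (muJ m T)), ‖((hkb2A a l.1 w y z : ℝ) : ℂ) *
      ex (l.2 * fd (fun w => √(vN l.1 w)) w y z)‖ ≤ B ^ 4 :=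
    Filter.Eventually.of_forall fun l => hkb2_int_norm a B hB hab l.1 w y z _
  refine (norm_integral_le_of_norm_le_const h2).trans ?_
  refine mul_le_mul_of_nonneg_left ?_ (by positivity)
  rw [← univ_prod_univ, measureReal_prod_prod]
  exact mul_le_mul (hkb2_mass_real φ N0 r h1 h0) (hC T hT) measureReal_nonneg measureReal_nonneg

theorem hkb2_integrable {m : ℕ} (N0 : Mat m) (r : ℝ) (a : ℝ → ℝ) (ha : Continuous a)
    (B : ℝ) (hB : 0 ≤ B) (hab : ∀ v ≤ 1, |a v| ≤ B) (φ : Mat m → ℝ) (hφ : Continuous φ)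
    (h0 : ∀ N, N ∉ Metric.closedBall N0 r → φ N = 0) (w y z : E m) (T : ℝ)
    (hT : 0 < T) : Integrable (fun l : Mat m × ℝ => ((hkb2A a l.1 w y z : ℝ) : ℂ) *
      ex (l.2 * fd (fun w => √(vN l.1 w)) w y z))
      (((volume : Measure (Mat m)).withDensity fun N => ENNReal.ofReal (φ N)).prod (muJ m T)) := by
  have := hkb2_fin φ hφ N0 r h0
  have := finite_muJ m T hT
  exact Integrable.of_bound (hkb2_int_cont a ha w y z).aestronglyMeasurable (B ^ 4)
    (Filter.Eventually.of_forall fun l => hkb2_int_norm a B hB hab l.1 w y z _)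

theorem hkb2_caseA {m : ℕ} (N0 : Mat m) (r : ℝ) (a : ℝ → ℝ) (ha : Continuous a)
    (B : ℝ) (hB : 0 ≤ B) (hab : ∀ v ≤ 1, |a v| ≤ B) (φ : Mat m → ℝ) (hφ : Continuous φ)
    (h1 : ∀ N, φ N ≤ 1) (h0 : ∀ N, N ∉ Metric.closedBall N0 r → φ N = 0)
    (C : ℝ) (hC0 : 0 < C) (hC : ∀ T F : ℝ, 0 < T → F ≠ 0 →
    ‖∫ t : ℝ, ex (t * F) ∂(muJ m T)‖ ≤ C * T / (T * |F|) ^ m) (w y z : E m) (T : ℝ)
    (hT : 0 < T) (δ : ℝ) (hδ : 0 < δ)
    (hA : ∀ N ∈ Metric.closedBall N0 r, δ ≤ |fd (fun w => √(vN N w)) w y z|) :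
    ‖K2 a φ T w y z‖ ≤
      (B ^ 4 * C * (volume : Measure (Mat m)).real (Metric.closedBall N0 r)) * T /
        (T * δ) ^ m := by
  have := hkb2_fin φ hφ N0 r h0
  have := finite_muJ m T hT
  rw [hkb2_K2, integral_prod _ (hkb2_integrable N0 r a ha B hB hab φ hφ h0 w y z T hT)]
  have h2 : ∀ᵐ N ∂((volume : Measure (Mat m)).withDensity fun N => ENNReal.ofReal (φ N)),
      ‖∫ t : ℝ, ((hkb2A a N w y z : ℝ) : ℂ) * ex (t * fd (fun w => √(vN N w)) w y z)
        ∂(muJ m T)‖ ≤ B ^ 4 * (C * T / (T * δ) ^ m) := by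
    refine hkb2_ae φ hφ N0 r h0 _ fun N hN => ?_
    have h3 := hA N hN
    rw [integral_const_mul, norm_mul, Complex.norm_real, Real.norm_eq_abs]
    refine mul_le_mul (hkb2_A_bdd a B hB hab N w y z) ?_ (norm_nonneg _) (by positivity)
    refine (hC T _ hT (abs_pos.1 (hδ.trans_le h3))).trans ?_
    refine div_le_div_of_nonneg_left (by positivity) (by positivity) ?_
    exact pow_le_pow_left₀ (by positivity) (mul_le_mul_of_nonneg_left h3 hT.le) m
  refine (norm_integral_le_of_norm_le_const h2).trans ?_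
  calc B ^ 4 * (C * T / (T * δ) ^ m) *
        ((volume : Measure (Mat m)).withDensity fun N => ENNReal.ofReal (φ N)).real univ
      ≤ B ^ 4 * (C * T / (T * δ) ^ m) *
        (volume : Measure (Mat m)).real (Metric.closedBall N0 r) :=
        mul_le_mul_of_nonneg_left (hkb2_mass_real φ N0 r h1 h0) (by positivity)
    _ = _ := by ring


theorem hkb2_em_norm {m : ℕ} (k l : Fin m) : ‖(em k l : Mat m)‖ ≤ 1 := by
  refine (pi_norm_le_iff_of_nonneg zero_le_one).2 fun i =>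
    (pi_norm_le_iff_of_nonneg zero_le_one).2 fun j => ?_
  unfold em
  split_ifs <;> simp

theorem hkb2_shift {m : ℕ} (N0 N e : Mat m) (he : ‖e‖ ≤ 1) (r τ : ℝ) (hτ : τ ∈ Icc (-1 : ℝ) 1)
    (h : N + τ • e ∈ Metric.closedBall N0 r) : N ∈ Metric.closedBall N0 (r + 1) := by
  rw [Metric.mem_closedBall, dist_eq_norm] at h ⊢
  have h1 : N - N0 = (N + τ • e - N0) - τ • e := by abel
  rw [h1]
  refine (norm_sub_le _ _).trans (add_le_add h ?_)
  rw [norm_smul, Real.norm_eq_abs]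
  have : |τ| ≤ 1 := abs_le.2 hτ
  calc |τ| * ‖e‖ ≤ 1 * 1 := mul_le_mul this he (norm_nonneg _) zero_le_one
    _ = 1 := one_mul 1

theorem hkb2_avg {m : ℕ} (N0 : Mat m) (r : ℝ) (Φ : Mat m → ℂ) (hΦ : Continuous Φ)
    (h0 : ∀ N, N ∉ Metric.closedBall N0 r → Φ N = 0) (e : Mat m) (he : ‖e‖ ≤ 1) (h : ℝ → ℝ)
    (hh : Continuous h) (hs : ∀ τ, τ ∉ Icc (-1 : ℝ) 1 → h τ = 0) (hi : ∫ τ, h τ = 1) :
    ∫ N, Φ N = ∫ N, ∫ τ, ((h τ : ℝ) : ℂ) * Φ (N + τ • e) := by
  have hint : Integrable (Function.uncurry fun (N : Mat m) (τ : ℝ) =>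
      ((h τ : ℝ) : ℂ) * Φ (N + τ • e)) ((volume : Measure (Mat m)).prod (volume : Measure ℝ)) := by
    refine Continuous.integrable_of_hasCompactSupport ?_ ?_
    · unfold Function.uncurry
      have h1 : Continuous fun p : Mat m × ℝ => Φ (p.1 + p.2 • e) :=
        hΦ.comp (by fun_prop)
      have h2 : Continuous fun p : Mat m × ℝ => ((h p.2 : ℝ) : ℂ) :=
        Complex.continuous_ofReal.comp (hh.comp continuous_snd)
      exact h2.mul h1
    · refine HasCompactSupport.intro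
        ((isCompact_closedBall N0 (r + 1)).prod (isCompact_Icc (a := (-1 : ℝ)) (b := 1))) ?_
      rintro ⟨N, τ⟩ hp
      simp only [Function.uncurry]
      by_cases hτ : τ ∈ Icc (-1 : ℝ) 1
      · have hN : N + τ • e ∉ Metric.closedBall N0 r := by
          intro hc
          exact hp ⟨hkb2_shift N0 N e he r τ hτ hc, hτ⟩
        rw [h0 _ hN, mul_zero]
      · rw [hs τ hτ]
        simp
  rw [integral_integral_swap hint]
  have h3 : ∀ τ : ℝ, ∫ N, ((h τ : ℝ) : ℂ) * Φ (N + τ • e) = ((h τ : ℝ) : ℂ) * ∫ N, Φ N := by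
    intro τ
    rw [integral_const_mul]
    congr 1
    exact integral_add_right_eq_self Φ (τ • e)
  simp only [h3]
  rw [integral_mul_const, integral_complex_ofReal, hi]
  simp

theorem hkb2_outer {m : ℕ} (N0 : Mat m) (r K : ℝ) (g : Mat m → ℂ)
    (h0 : ∀ N, N ∉ Metric.closedBall N0 r → g N = 0) (hK : ∀ N, ‖g N‖ ≤ K) :
    ‖∫ N, g N‖ ≤ K * (volume : Measure (Mat m)).real (Metric.closedBall N0 r) := by
  rw [← setIntegral_eq_integral_of_forall_compl_eq_zero (s := Metric.closedBall N0 r) h0]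
  exact norm_setIntegral_le_of_norm_le_const (isCompact_closedBall N0 r).measure_lt_top
    fun N _ => hK N

theorem hkb2_lineSmooth {m : ℕ} (S : ℝ → ℝ) (hS : ∀ n : ℕ, ContDiff ℝ n S) (N e : Mat m)
    (u : E m) (n : ℕ) : ContDiff ℝ n fun τ : ℝ => S (vN (N + τ • e) u) := by
  have h1 : ContDiff ℝ n fun τ : ℝ => ((N + τ • e, u) : Mat m × E m) := by fun_prop
  have h2 := (smooth_vN m S hS n).comp h1
  exact h2

theorem hkb2_bbd (m J : ℕ) (k l : Fin m) (a h : ℝ → ℝ) (φ : Mat m → ℝ)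
    (ha : ∀ n : ℕ, ContDiff ℝ n a) (hh : ∀ n : ℕ, ContDiff ℝ n h) (hφ : ∀ n : ℕ, ContDiff ℝ n φ)
    (R : ℝ) : ∃ C : ℝ, 0 ≤ C ∧ ∀ (N : Mat m) (w y z : E m), ‖N‖ ≤ R → ‖w‖ ≤ R → ‖y‖ ≤ R →
      ‖z‖ ≤ R → ∀ τ : ℝ, |τ| ≤ R → ∀ j ≤ J,
      |iteratedDeriv j (fun τ : ℝ => h τ * φ (N + τ • em k l) *
        hkb2A a (N + τ • em k l) w y z) τ| ≤ C := by
  set Ψ : ℝ × (Mat m × E m × E m × E m) → ℝ := fun q => h q.1 * φ (q.2.1 + q.1 • em k l) *
    (a (vN (q.2.1 + q.1 • em k l) q.2.2.1) *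
      a (vN (q.2.1 + q.1 • em k l) (q.2.2.1 - q.2.2.2.1 - q.2.2.2.2)) *
      a (vN (q.2.1 + q.1 • em k l) (q.2.2.1 - q.2.2.2.1)) *
      a (vN (q.2.1 + q.1 • em k l) (q.2.2.1 - q.2.2.2.2))) with hΨ
  have hs : ∀ n : ℕ, ContDiff ℝ n Ψ := by
    intro n
    have h1 : ContDiff ℝ n fun q : ℝ × (Mat m × E m × E m × E m) => q.2.1 + q.1 • em k l := by
      fun_prop
    have h2 : ∀ u : ℝ × (Mat m × E m × E m × E m) → E m, ContDiff ℝ n u →
        ContDiff ℝ n fun q : ℝ × (Mat m × E m × E m × E m) =>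
          a (vN (q.2.1 + q.1 • em k l) (u q)) := by
      intro u hu
      have h3 := (smooth_vN m a ha n).comp (h1.prodMk hu)
      exact h3
    have h4 : ContDiff ℝ n fun q : ℝ × (Mat m × E m × E m × E m) => h q.1 := by
      have h3 := (hh n).comp (contDiff_fst (𝕜 := ℝ) (E := ℝ) (F := Mat m × E m × E m × E m)
        (n := (n : WithTop ℕ∞)))
      exact h3
    have h5 : ContDiff ℝ n fun q : ℝ × (Mat m × E m × E m × E m) =>
        φ (q.2.1 + q.1 • em k l) := by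
      have h3 := (hφ n).comp h1
      exact h3
    have u1 : ContDiff ℝ n fun q : ℝ × (Mat m × E m × E m × E m) => q.2.2.1 := by fun_prop
    have u2 : ContDiff ℝ n fun q : ℝ × (Mat m × E m × E m × E m) =>
        q.2.2.1 - q.2.2.2.1 - q.2.2.2.2 := by fun_prop
    have u3 : ContDiff ℝ n fun q : ℝ × (Mat m × E m × E m × E m) =>
        q.2.2.1 - q.2.2.2.1 := by fun_prop
    have u4 : ContDiff ℝ n fun q : ℝ × (Mat m × E m × E m × E m) =>
        q.2.2.1 - q.2.2.2.2 := by fun_prop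
    have h6 := ((((h2 _ u1).mul (h2 _ u2)).mul (h2 _ u3)).mul (h2 _ u4))
    exact (h4.mul h5).mul h6
  obtain ⟨C, hC, hb⟩ := iter_bdd Ψ hs J R
  refine ⟨C, hC, fun N w y z hN hw hy hz τ hτ j hj => ?_⟩
  exact hb (N, w, y, z) (by
    rw [Prod.norm_def, Prod.norm_def, Prod.norm_def]
    exact max_le hN (max_le hw (max_le hy hz))) τ hτ j hj


theorem hkb2_inner (m : ℕ) (k l : Fin m) (N0 : Mat m) (ρ : ℝ) (hρ : 0 < ρ) (hρ2 : ρ ≤ 1 / 2)
    (S a h : ℝ → ℝ) (φ : Mat m → ℝ) (hS : ∀ n : ℕ, ContDiff ℝ n S)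
    (ha : ∀ n : ℕ, ContDiff ℝ n a) (hh : ∀ n : ℕ, ContDiff ℝ n h) (hφ : ∀ n : ℕ, ContDiff ℝ n φ)
    (hs : ∀ τ, τ ∉ Icc (-1 : ℝ) 1 → h τ = 0)
    (h0 : ∀ N, N ∉ Metric.closedBall N0 (2 * ρ) → φ N = 0) (R c' : ℝ) (hc' : 0 < c') :
    ∃ C : ℝ, 0 ≤ C ∧ ∀ w y z : E m, ‖w‖ ≤ R → ‖y‖ ≤ R → ‖z‖ ≤ R → y ≠ 0 → z ≠ 0 →
    (∀ N ∈ Metric.closedBall N0 (2 * ρ), c' * (‖y‖ * ‖z‖) ≤
        |deriv (fun τ : ℝ => fd (fun w => S (vN (N + τ • em k l) w)) w y z) 0|) →
    ∀ (N : Mat m) (t : ℝ), t ≠ 0 →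
    ‖∫ τ : ℝ, ((h τ * φ (N + τ • em k l) * hkb2A a (N + τ • em k l) w y z : ℝ) : ℂ) *
      ex (t * fd (fun w => S (vN (N + τ • em k l) w)) w y z)‖ ≤
      C / (|t| * (‖y‖ * ‖z‖)) ^ m := by
  set R' : ℝ := max (‖N0‖ + 2) R with hR'
  obtain ⟨C1, hC1, hb1⟩ := hkb2_bbd m m k l a h φ ha hh hφ R'
  obtain ⟨C2, hC2, hb2⟩ := phase_bounds m (m + 1) S hS R'
  obtain ⟨C3, hC3, hns⟩ := nonstat m 2 (max C1 C2) c' hc'
  refine ⟨C3, hC3, fun w y z hw hy hz hy0 hz0 hgr N t ht => ?_⟩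
  have hP : 0 < ‖y‖ * ‖z‖ := mul_pos (norm_pos_iff.2 hy0) (norm_pos_iff.2 hz0)
  set P : ℝ := ‖y‖ * ‖z‖ with hPdef
  set e : Mat m := em k l with he
  have he1 : ‖e‖ ≤ 1 := hkb2_em_norm k l
  have hR1 : ‖N0‖ + 2 ≤ R' := le_max_left _ _
  have hwR : ‖w‖ ≤ R' := hw.trans (le_max_right _ _)
  have hyR : ‖y‖ ≤ R' := hy.trans (le_max_right _ _)
  have hzR : ‖z‖ ≤ R' := hz.trans (le_max_right _ _)
  have hN00 : 0 ≤ ‖N0‖ := norm_nonneg _
  set s : Set ℝ := {τ | τ ∈ Icc (-1 : ℝ) 1 ∧ N + τ • e ∈ Metric.closedBall N0 (2 * ρ)} with hsdef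
  have hcontl : Continuous fun τ : ℝ => N + τ • e := by fun_prop
  have hsclosed : IsClosed s := isClosed_Icc.inter (Metric.isClosed_closedBall.preimage hcontl)
  have hscomp : IsCompact s :=
    isCompact_Icc.inter_right (Metric.isClosed_closedBall.preimage hcontl)
  have hsconv : Convex ℝ s := by
    intro x hx x' hx' p q hp hq hpq
    refine ⟨convex_Icc (-1 : ℝ) 1 hx.1 hx'.1 hp hq hpq, ?_⟩
    have h1 := convex_closedBall N0 (2 * ρ) hx.2 hx'.2 hp hq hpq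
    have h2 : N + (p • x + q • x') • e = p • (N + x • e) + q • (N + x' • e) := by
      have h3 : N = p • N + q • N := by rw [← add_smul, hpq, one_smul]
      conv_lhs => rw [h3]
      simp only [smul_add, add_smul, smul_eq_mul, mul_smul]
      abel
    rw [h2]
    exact h1
  by_cases hne : s.Nonempty
  swap
  · -- the integrand vanishes
    have h1 : ∀ τ : ℝ, ((h τ * φ (N + τ • e) * hkb2A a (N + τ • e) w y z : ℝ) : ℂ) *
        ex (t * fd (fun w => S (vN (N + τ • e) w)) w y z) = 0 := by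
      intro τ
      by_cases h2 : τ ∈ Icc (-1 : ℝ) 1
      · have h3 : N + τ • e ∉ Metric.closedBall N0 (2 * ρ) := fun h4 => hne ⟨τ, h2, h4⟩
        rw [h0 _ h3]
        simp
      · rw [hs τ h2]
        simp
    simp only [h1, integral_zero, norm_zero]
    positivity
  have hsI : s = Icc (sInf s) (sSup s) :=
    eq_Icc_of_connected_compact ⟨hne, hsconv.isPreconnected⟩ hscomp
  set α : ℝ := sInf s with hα
  set β : ℝ := sSup s with hβ
  have hαs : α ∈ s := hscomp.sInf_mem hne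
  have hβs : β ∈ s := hscomp.sSup_mem hne
  have hαβ : α ≤ β := by
    rw [hsI] at hαs
    exact hαs.2
  have hlen : β - α ≤ 2 := by
    have h1 := hαs.1.1
    have h2 := hβs.1.2
    linarith
  have hNR : ‖N‖ ≤ R' := by
    obtain ⟨τ, h1, h2⟩ := hne
    have h3 := hkb2_shift N0 N e he1 _ τ h1 h2
    rw [Metric.mem_closedBall, dist_eq_norm] at h3
    have h4 : N = (N - N0) + N0 := by abel
    rw [h4]
    refine (norm_add_le _ _).trans ?_
    linarith
  -- the function f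
  set G : ℝ → ℝ := fun τ => fd (fun w => S (vN (N + τ • e) w)) w y z with hG
  have hGs : ∀ n : ℕ, ContDiff ℝ n G := fun n =>
    (((hkb2_lineSmooth S hS N e w n).add (hkb2_lineSmooth S hS N e (w - y - z) n)).sub
      (hkb2_lineSmooth S hS N e (w - y) n)).sub (hkb2_lineSmooth S hS N e (w - z) n)
  have hGshift : ∀ (j : ℕ) (τ : ℝ), iteratedDeriv j G τ =
      iteratedDeriv j (fun σ : ℝ => fd (fun w => S (vN ((N + τ • e) + σ • e) w)) w y z) 0 := by
    intro j τ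
    have h1 : (fun σ : ℝ => fd (fun w => S (vN ((N + τ • e) + σ • e) w)) w y z) =
        fun σ => G (τ + σ) := by
      funext σ
      have h2 : (N + τ • e) + σ • e = N + (τ + σ) • e := by
        rw [add_smul]
        abel
      rw [hG]
      simp only [h2]
    rw [h1, iteratedDeriv_comp_const_add]
    simp
  have hin : ∀ τ ∈ Icc α β, N + τ • e ∈ Metric.closedBall N0 (2 * ρ) := by
    intro τ hτ
    rw [← hsI] at hτ
    exact hτ.2
  have hmain := hns (fun τ => h τ * φ (N + τ • e) * hkb2A a (N + τ • e) w y z)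
    (fun τ => P⁻¹ * G τ) (by
      intro n
      have u1 : ContDiff ℝ n fun τ : ℝ => φ (N + τ • e) := by
        have u2 := (hφ n).comp (by fun_prop : ContDiff ℝ n fun τ : ℝ => N + τ • e)
        exact u2
      have u3 : ContDiff ℝ n fun τ : ℝ => hkb2A a (N + τ • e) w y z :=
        ((((hkb2_lineSmooth a ha N e w n).mul (hkb2_lineSmooth a ha N e (w - y - z) n)).mul
          (hkb2_lineSmooth a ha N e (w - y) n)).mul (hkb2_lineSmooth a ha N e (w - z) n))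
      exact ((hh n).mul u1).mul u3) (fun n => contDiff_const.mul (hGs n)) α β hαβ hlen (by
      intro τ hτ
      rw [← hsI] at hτ
      by_cases h2 : τ ∈ Icc (-1 : ℝ) 1
      · have h3 : N + τ • e ∉ Metric.closedBall N0 (2 * ρ) := fun h4 => hτ ⟨h2, h4⟩
        simp only [h0 _ h3]
        ring
      · simp only [hs τ h2]
        ring) (by
      intro j hj τ
      by_cases h2 : τ ∈ Icc (-1 : ℝ) 1
      · refine (hb1 N w y z hNR hwR hyR hzR τ ?_ j hj).trans (le_max_left _ _)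
        exact (abs_le.2 h2).trans (by linarith)
      · rw [hns_zero _ (-1) 1 (fun τ hτ => by simp only [hs τ hτ]; ring) j τ h2, abs_zero]
        exact hC1.trans (le_max_left _ _)) (by
      intro j hj1 hj τ hτ
      rw [iteratedDeriv_const_mul_field, hGshift, abs_mul, abs_inv, abs_of_pos hP,
        inv_mul_le_iff₀ hP]
      refine (hb2 k l (N + τ • e) ?_ w y z hwR hyR hzR j hj).trans ?_
      · have h3 := hin τ hτ
        rw [Metric.mem_closedBall, dist_eq_norm] at h3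
        have h4 : N + τ • e = (N + τ • e - N0) + N0 := by abel
        rw [h4]
        refine (norm_add_le _ _).trans ?_
        linarith
      · rw [mul_comm]
        exact mul_le_mul_of_nonneg_left (le_max_right _ _) hP.le) (by
      intro τ hτ
      have h3 := hgr _ (hin τ hτ)
      have h4 := hGshift 1 τ
      rw [iteratedDeriv_one, iteratedDeriv_one] at h4
      rw [← h4] at h3
      have h5 : deriv (fun τ => P⁻¹ * G τ) τ = P⁻¹ * deriv G τ :=
        deriv_const_mul _ ((hGs 1).differentiable (by norm_num) τ)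
      rw [h5, abs_mul, abs_inv, abs_of_pos hP, inv_mul_eq_div, le_div_iff₀ hP]
      exact h3) (t * P) (mul_ne_zero ht hP.ne')
  have h6 : ∀ τ, t * P * (P⁻¹ * G τ) = t * G τ := by
    intro τ
    field_simp
  simp only [h6] at hmain
  rw [abs_mul, abs_of_pos hP] at hmain
  exact hmain


/-- The integral over the matrices for a fixed time. -/
theorem hkb2_matInt {m : ℕ} (k l : Fin m) (N0 : Mat m) (ρ : ℝ)
    (S a h : ℝ → ℝ) (φ : Mat m → ℝ) (hS : Continuous S)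
    (ha : Continuous a) (hh : Continuous h) (hφ : Continuous φ)
    (hs : ∀ τ, τ ∉ Icc (-1 : ℝ) 1 → h τ = 0) (hi : ∫ τ, h τ = 1) (hpos : ∀ N, 0 ≤ φ N)
    (h0 : ∀ N, N ∉ Metric.closedBall N0 (2 * ρ) → φ N = 0) (w y z : E m)
    (hSS : ∀ N ∈ Metric.closedBall N0 (2 * ρ), S (vN N w) = √(vN N w) ∧
      S (vN N (w - y - z)) = √(vN N (w - y - z)) ∧ S (vN N (w - y)) = √(vN N (w - y)) ∧
      S (vN N (w - z)) = √(vN N (w - z))) (K t : ℝ)
    (hK : ∀ N : Mat m,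
    ‖∫ τ : ℝ, ((h τ * φ (N + τ • em k l) * hkb2A a (N + τ • em k l) w y z : ℝ) : ℂ) *
      ex (t * fd (fun w => S (vN (N + τ • em k l) w)) w y z)‖ ≤ K) :
    ‖∫ N : Mat m, ((hkb2A a N w y z : ℝ) : ℂ) * ex (t * fd (fun w => √(vN N w)) w y z)
      ∂((volume : Measure (Mat m)).withDensity fun N => ENNReal.ofReal (φ N))‖ ≤
      K * (volume : Measure (Mat m)).real (Metric.closedBall N0 (2 * ρ + 1)) := by
  rw [integral_withDensity_eq_integral_toReal_smul (by fun_prop)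
    (Filter.Eventually.of_forall fun _ => ENNReal.ofReal_lt_top)]
  set Φ : Mat m → ℂ := fun N => ((φ N * hkb2A a N w y z : ℝ) : ℂ) *
    ex (t * fd (fun w => S (vN N w)) w y z) with hΦ
  have h1 : ∀ N : Mat m, (ENNReal.ofReal (φ N)).toReal • (((hkb2A a N w y z : ℝ) : ℂ) *
      ex (t * fd (fun w => √(vN N w)) w y z)) = Φ N := by
    intro N
    rw [ENNReal.toReal_ofReal (hpos N), hΦ]
    by_cases hN : N ∈ Metric.closedBall N0 (2 * ρ)
    · obtain ⟨e1, e2, e3, e4⟩ := hSS N hN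
      have h2 : fd (fun w => S (vN N w)) w y z = fd (fun w => √(vN N w)) w y z := by
        simp only [fd, e1, e2, e3, e4]
      simp only [h2, Complex.real_smul]
      push_cast
      ring
    · simp only [h0 N hN]
      simp
  simp only [h1]
  have hΦc : Continuous Φ := by
    refine (Complex.continuous_ofReal.comp (hφ.mul (hkb2_A_cont a ha w y z))).mul ?_
    have h3 := hkb2_F_cont (m := m) S hS w y z
    unfold ex
    fun_prop
  have hΦ0 : ∀ N, N ∉ Metric.closedBall N0 (2 * ρ) → Φ N = 0 := by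
    intro N hN
    simp only [hΦ, h0 N hN]
    simp
  rw [hkb2_avg N0 (2 * ρ) Φ hΦc hΦ0 (em k l) (hkb2_em_norm k l) h hh hs hi]
  refine hkb2_outer N0 (2 * ρ + 1) K _ (fun N hN => ?_) (fun N => ?_)
  · have h3 : ∀ τ : ℝ, ((h τ : ℝ) : ℂ) * Φ (N + τ • em k l) = 0 := by
      intro τ
      by_cases hτ : τ ∈ Icc (-1 : ℝ) 1
      · have h4 : N + τ • em k l ∉ Metric.closedBall N0 (2 * ρ) := fun h5 =>
          hN (hkb2_shift N0 N _ (hkb2_em_norm k l) _ τ hτ h5)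
        rw [hΦ0 _ h4, mul_zero]
      · rw [hs τ hτ]
        simp
    simp only [h3, integral_zero]
  · have h3 : ∀ τ : ℝ, ((h τ : ℝ) : ℂ) * Φ (N + τ • em k l) =
        ((h τ * φ (N + τ • em k l) * hkb2A a (N + τ • em k l) w y z : ℝ) : ℂ) *
        ex (t * fd (fun w => S (vN (N + τ • em k l) w)) w y z) := by
      intro τ
      simp only [hΦ]
      push_cast
      ring
    simp only [h3]
    exact hK N

theorem hkb2_t0 (m : ℕ) (T : ℝ) : ∀ᵐ t ∂(muJ m T), t ≠ 0 := by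
  have h1 : ∀ᵐ t : ℝ, t ≠ 0 := by
    rw [ae_iff]
    simp
  exact (withDensity_absolutelyContinuous _ _).ae_le h1

theorem hkb2_caseB {m : ℕ} (N0 : Mat m) (r : ℝ) (a : ℝ → ℝ) (ha : Continuous a)
    (B : ℝ) (hB : 0 ≤ B) (hab : ∀ v ≤ 1, |a v| ≤ B) (φ : Mat m → ℝ) (hφ : Continuous φ)
    (h0 : ∀ N, N ∉ Metric.closedBall N0 r → φ N = 0) (C : ℝ) (hC0 : 0 < C)
    (hC : ∀ T D : ℝ, 0 < T → 0 < D → ∫⁻ t : ℝ, ENNReal.ofReal (1 / (|t| * D) ^ m) ∂(muJ m T) ≤
      ENNReal.ofReal (C * T / (T * D) ^ m)) (w y z : E m) (T : ℝ)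
    (hT : 0 < T) (P : ℝ) (hP : 0 < P) (K : ℝ) (hK0 : 0 ≤ K)
    (hK : ∀ t : ℝ, t ≠ 0 →
      ‖∫ N : Mat m, ((hkb2A a N w y z : ℝ) : ℂ) * ex (t * fd (fun w => √(vN N w)) w y z)
      ∂((volume : Measure (Mat m)).withDensity fun N => ENNReal.ofReal (φ N))‖ ≤
        K / (|t| * P) ^ m) :
    ‖K2 a φ T w y z‖ ≤ (K * C) * T / (T * P) ^ m := by
  have := hkb2_fin φ hφ N0 r h0
  have := finite_muJ m T hT
  rw [hkb2_K2, integral_prod_symm _ (hkb2_integrable N0 r a ha B hB hab φ hφ h0 w y z T hT)]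
  refine (norm_integral_le_lintegral_norm _).trans ?_
  refine ENNReal.toReal_le_of_le_ofReal (by positivity) ?_
  calc _ ≤ ∫⁻ t : ℝ, ENNReal.ofReal K * ENNReal.ofReal (1 / (|t| * P) ^ m) ∂(muJ m T) := by
        refine lintegral_mono_ae ?_
        filter_upwards [hkb2_t0 m T] with t ht
        rw [← ENNReal.ofReal_mul hK0]
        refine ENNReal.ofReal_le_ofReal ?_
        rw [mul_one_div]
        exact hK t ht
    _ = ENNReal.ofReal K * ∫⁻ t : ℝ, ENNReal.ofReal (1 / (|t| * P) ^ m) ∂(muJ m T) :=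
        lintegral_const_mul' _ _ ENNReal.ofReal_ne_top
    _ ≤ ENNReal.ofReal K * ENNReal.ofReal (C * T / (T * P) ^ m) :=
        mul_le_mul_right (hC T P hT hP) _
    _ = ENNReal.ofReal ((K * C) * T / (T * P) ^ m) := by
        rw [← ENNReal.ofReal_mul hK0]
        congr 1
        ring

theorem hkb2_zero {m : ℕ} (N0 : Mat m) (r : ℝ) (a : ℝ → ℝ) (ha : Continuous a)
    (B : ℝ) (hB : 0 ≤ B) (hab : ∀ v ≤ 1, |a v| ≤ B) (φ : Mat m → ℝ) (hφ : Continuous φ)
    (h0 : ∀ N, N ∉ Metric.closedBall N0 r → φ N = 0) (w y z : E m) (T : ℝ)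
    (hT : 0 < T) (hz : ∀ N ∈ Metric.closedBall N0 r, hkb2A a N w y z = 0) :
    K2 a φ T w y z = 0 := by
  have := hkb2_fin φ hφ N0 r h0
  have := finite_muJ m T hT
  rw [hkb2_K2, integral_prod _ (hkb2_integrable N0 r a ha B hB hab φ hφ h0 w y z T hT)]
  refine integral_eq_zero_of_ae ?_
  refine hkb2_ae φ hφ N0 r h0 _ fun N hN => ?_
  simp [hz N hN]

/-- The bump function in one variable. -/
theorem hkb2_bump : ∃ h : ℝ → ℝ, (∀ n : ℕ, ContDiff ℝ n h) ∧
    (∀ τ, τ ∉ Icc (-1 : ℝ) 1 → h τ = 0) ∧ ∫ τ, h τ = 1 := by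
  let f : ContDiffBump (0 : ℝ) := ⟨1 / 2, 1, by norm_num, by norm_num⟩
  refine ⟨f.normed volume, fun n => f.contDiff_normed, fun τ hτ => ?_, f.integral_normed⟩
  by_contra h1
  have h2 : τ ∈ Function.support (f.normed volume) := h1
  rw [f.support_normed_eq, Metric.mem_ball, dist_zero_right, Real.norm_eq_abs] at h2
  exact hτ (abs_le.1 h2.le)

/-
ROW KB2 (2.5 h). Kernel bound (assembly). N0 injective (mv N0 injective).
CHOICE OF ρ. (i) ‖mv N w‖ ≥ c‖w‖ for all N in closedBall N0 (2ρ), c > 0 (open condition; linear injective). So a (vN N w) ≠ 0 gives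
vN N w > c0 > 0, ‖mv N w‖ < 1, ‖w‖ ≤ R := 1/c; enlarge R so that R ≥ ‖N0‖ + 3, R ≥ 2/c... (‖y‖, ‖z‖ ≤ 2/c ≤ R). (ii) |vN N w - vN N' w| ≤ c0/2 for
N, N' in the ball and ‖w‖ ≤ R (uniform continuity): so if one amplitude product a(v1)a(v2)a(v3)a(v4) is nonzero at some N' in the ball
then all v_i(N) ≥ c0/2 on the whole ball. Let S = smooth_sqrt (c0/2), F(N) := fd (S ∘ vN N) w y z = √v1+√v2-√v3-√v4 on the ball.
(iii) LOWER BOUND: for N in the ball, x_i = mv N w_i (w1 = w, w2 = w-y-z, w3 = w-y, w4 = w-z), q_i = √v_i ≥ √(c0/2):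
tensor_lower gives c²‖y‖‖z‖ ≤ ‖mv N y‖‖mv N z‖ = ‖x1-x3‖‖x1-x4‖ ≤ C ε, ε = max(|F|, max_kj |S_kj|), and
S_kj = Σ_l N_jl Σ± x_ik w_il/q_i = -Σ_l N_jl ∂_kl F (deriv_phase), so |S_kj| ≤ C max_kl |∂_kl F|. Hence
|F(N)| ≥ 4c'‖y‖‖z‖ or |∂_kl F(N)| ≥ 4c'‖y‖‖z‖ for some k, l. (iv) ρ so small that by lip_phase F and ∂_kl F vary by at most
c'‖y‖‖z‖ on closedBall N0 (2ρ) (radius: C·4ρ ≤ c'). So (evaluate at N0): CASE A |F| ≥ c'‖y‖‖z‖ on the whole ball, or CASE B there are k,l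
with |∂_kl F| ≥ c'‖y‖‖z‖ on the whole ball.
φ: a smooth bump function (ContDiffBump at N0 with rIn = ρ, rOut = 2ρ in the finite-dimensional space Mat m).
If y or z = 0 nothing to prove for the first bound. TRIVIAL BOUND: |K2| ≤ sup|a|^4 · vol(ball) · muJ(univ) ≤ C T.
(a is bounded on v ≤ 1, a(v) for v > 1 does not occur: vN ≤ 1.)
CASE A: integrate in t first: |∫ ex(tF) dmuJ| ≤ C T/(T|F|)^m (gauss_decay, J = m). CASE B: for fixed t ≠ 0 insert 1 = ∫ h(τ) dτ, h a smooth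
bump with support in [-1,1] (or |τ| ≤ 1): ∫_N Φ(N) dN = ∫_N ∫_τ h(τ) Φ(N + τ e) dτ dN (translation invariance, Fubini), e = em k l, and
for each N (only ‖N - N0‖ ≤ 2ρ+1 matter) the inner integral is ∫ b(τ) ex (t f(τ)) dτ, b(τ) = h(τ) φ(N+τe) ∏ a(v_i(N+τe)), f(τ) = F(N+τe) :
b vanishes outside the interval {τ : |τ| ≤ 1, N+τe ∈ closedBall N0 (2ρ)} = Icc α β (convex, closed), there |f'| ≥ c'‖y‖‖z‖ and
|f^(j)| ≤ C‖y‖‖z‖ (phase_bounds at the matrix N+τe), |b^(j)| ≤ C (iter_bdd with P = Mat m × E m × E m × E m). Apply nonstat (J = m) to f/(‖y‖‖z‖)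
and lam = t‖y‖‖z‖: ≤ C/(|t|‖y‖‖z‖)^m; integrate over N (bounded set) and over t (gauss_weight).
-/
theorem kernel_bound2 (m : ℕ) (hm : 1 ≤ m) (N0 : Mat m) (h0 : Function.Injective (mv N0))
    (c0 : ℝ) (hc : 0 < c0) (a : ℝ → ℝ) (ha : Cut2 c0 a) : ∃ ρ : ℝ, 0 < ρ ∧ ∃ φ : Mat m → ℝ,
    (∀ n : ℕ, ContDiff ℝ n φ) ∧ (∀ N, 0 ≤ φ N) ∧ (∀ N, φ N ≤ 1) ∧
    (∀ N ∈ Metric.closedBall N0 ρ, φ N = 1) ∧ (∀ N, N ∉ Metric.closedBall N0 (2 * ρ) → φ N = 0) ∧
    (∀ N ∈ Metric.closedBall N0 (2 * ρ), Function.Injective (mv N)) ∧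
    ∃ C R : ℝ, 0 < C ∧ 0 < R ∧
      (∀ N ∈ Metric.closedBall N0 (2 * ρ), ∀ w : E m, a (vN N w) ≠ 0 → ‖w‖ ≤ R) ∧
      ∀ (w y z : E m) (T : ℝ), 0 < T → ‖K2 a φ T w y z‖ ≤ C * T ∧
        (y ≠ 0 → z ≠ 0 → ‖K2 a φ T w y z‖ ≤ C * T / (T * (‖y‖ * ‖z‖)) ^ m) := by
  obtain ⟨c, ρ, c', Q, R, S, hc1, hρ, hρ2, hc', hR, hS, hball, hbd, hch⟩ :=
    hkb2_choice m N0 h0 c0 hc
  obtain ⟨B, hB, hab⟩ := hkb2_bdd c0 a ha
  obtain ⟨h, hh, hs, hi⟩ := hkb2_bump
  have hac : Continuous a := (ha.1 0).continuous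
  have hSc : Continuous S := (hS 0).continuous
  have hhc : Continuous h := (hh 0).continuous
  let f : ContDiffBump N0 := ⟨ρ, 2 * ρ, hρ, by linarith⟩
  set φ : Mat m → ℝ := fun N => f N with hφdef
  have hφs : ∀ n : ℕ, ContDiff ℝ n φ := fun n => f.contDiff
  have hφc : Continuous φ := (hφs 0).continuous
  have hφ0 : ∀ N, 0 ≤ φ N := fun N => f.nonneg
  have hφ1 : ∀ N, φ N ≤ 1 := fun N => f.le_one
  have hφin : ∀ N ∈ Metric.closedBall N0 ρ, φ N = 1 := fun N hN => f.one_of_mem_closedBall hN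
  have hφout : ∀ N, N ∉ Metric.closedBall N0 (2 * ρ) → φ N = 0 := by
    intro N hN
    refine f.zero_of_le_dist ?_
    rw [Metric.mem_closedBall, not_le] at hN
    exact hN.le
  obtain ⟨CT, hCT, hCTb⟩ := hkb2_muJ_real m
  obtain ⟨CA, hCA, hCAb⟩ := gauss_decay m
  obtain ⟨CW, hCW, hCWb⟩ := gauss_weight m
  have hin := fun k l : Fin m => hkb2_inner m k l N0 ρ hρ hρ2 S a h φ hS ha.1 hh hφs hs hφout R c' hc'
  choose CB hCB hCBb using hin
  set V : ℝ := (volume : Measure (Mat m)).real (Metric.closedBall N0 (2 * ρ)) with hV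
  set V' : ℝ := (volume : Measure (Mat m)).real (Metric.closedBall N0 (2 * ρ + 1)) with hV'
  have hV0 : 0 ≤ V := measureReal_nonneg
  have hV'0 : 0 ≤ V' := measureReal_nonneg
  set C : ℝ := B ^ 4 * (V * CT) + B ^ 4 * CA * V / c' ^ m +
    (∑ k, ∑ l, CB k l) * V' * CW + 1 with hC
  have hS0 : 0 ≤ ∑ k, ∑ l, CB k l :=
    Finset.sum_nonneg fun k _ => Finset.sum_nonneg fun l _ => hCB k l
  have t1 : 0 ≤ B ^ 4 * (V * CT) := by positivity
  have t2 : 0 ≤ B ^ 4 * CA * V / c' ^ m := by positivity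
  have t3 : 0 ≤ (∑ k, ∑ l, CB k l) * V' * CW := by positivity
  have hCpos : 0 < C := by
    rw [hC]
    linarith
  refine ⟨ρ, hρ, φ, hφs, hφ0, hφ1, hφin, hφout, fun N hN => ?_, C, R, hCpos, hR,
    fun N hN w hw => hbd N hN w ?_, fun w y z T hT => ⟨?_, fun hy hz => ?_⟩⟩
  · intro u u' huu
    have h1 := (hball N hN).2 (u - u')
    rw [hkb2_mv_sub_right, huu, sub_self, norm_zero] at h1
    have h2 : ‖u - u'‖ ≤ 0 := by
      by_contra h3
      push Not at h3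
      nlinarith
    exact sub_eq_zero.1 (norm_le_zero_iff.1 h2)
  · by_contra h1
    exact hw (ha.2 _ (not_lt.1 h1))
  · refine (hkb2_trivial N0 (2 * ρ) a B hB hab φ hφc hφ1 hφout CT hCTb w y z T hT).trans ?_
    calc B ^ 4 * (V * (CT * T)) = B ^ 4 * (V * CT) * T := by ring
      _ ≤ C * T := by
          refine mul_le_mul_of_nonneg_right ?_ hT.le
          rw [hC]
          linarith
  · have hP : 0 < ‖y‖ * ‖z‖ := mul_pos (norm_pos_iff.2 hy) (norm_pos_iff.2 hz)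
    have hden : 0 < (T * (‖y‖ * ‖z‖)) ^ m := by positivity
    by_cases hex : ∃ N ∈ Metric.closedBall N0 (2 * ρ), hkb2A a N w y z ≠ 0
    swap
    · push Not at hex
      rw [hkb2_zero N0 (2 * ρ) a hac B hB hab φ hφc hφout w y z T hT hex, norm_zero]
      positivity
    obtain ⟨N', hN', hne⟩ := hex
    obtain ⟨hwR, hyR, hzR, hSS, hcase⟩ := hch w y z hy hz
      ⟨N', hN', hkb2_A_ne c0 a ha N' w y z hne⟩
    rcases hcase with hA | ⟨k, l, hB'⟩
    · have h1 : ∀ N ∈ Metric.closedBall N0 (2 * ρ), c' * (‖y‖ * ‖z‖) ≤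
          |fd (fun w => √(vN N w)) w y z| := by
        intro N hN
        have h2 := hA N hN
        obtain ⟨e1, e2, e3, e4⟩ := hSS N hN
        have h3 : fd (fun w => S (vN N w)) w y z = fd (fun w => √(vN N w)) w y z := by
          simp only [fd, e1, e2, e3, e4]
        rwa [h3] at h2
      refine (hkb2_caseA N0 (2 * ρ) a hac B hB hab φ hφc hφ1 hφout CA hCA hCAb w y z T hT
        (c' * (‖y‖ * ‖z‖)) (by positivity) h1).trans ?_
      have h2 : (T * (c' * (‖y‖ * ‖z‖))) ^ m = c' ^ m * (T * (‖y‖ * ‖z‖)) ^ m := by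
        rw [← mul_pow]
        ring
      rw [h2]
      calc B ^ 4 * CA * V * T / (c' ^ m * (T * (‖y‖ * ‖z‖)) ^ m)
          = (B ^ 4 * CA * V / c' ^ m) * T / (T * (‖y‖ * ‖z‖)) ^ m := by
            rw [div_mul_eq_mul_div, div_div]
        _ ≤ C * T / (T * (‖y‖ * ‖z‖)) ^ m := by
            refine div_le_div_of_nonneg_right (mul_le_mul_of_nonneg_right ?_ hT.le) hden.le
            rw [hC]
            linarith
    · have h1 := hCBb k l w y z hwR hyR hzR hy hz hB'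
      have h2 : ∀ t : ℝ, t ≠ 0 →
          ‖∫ N : Mat m, ((hkb2A a N w y z : ℝ) : ℂ) * ex (t * fd (fun w => √(vN N w)) w y z)
          ∂((volume : Measure (Mat m)).withDensity fun N => ENNReal.ofReal (φ N))‖ ≤
            (CB k l * V') / (|t| * (‖y‖ * ‖z‖)) ^ m := by
        intro t ht
        refine (hkb2_matInt k l N0 ρ S a h φ hSc hac hhc hφc hs hi hφ0 hφout w y z hSS _ t
          (fun N => h1 N t ht)).trans ?_
        rw [div_mul_eq_mul_div]
      refine (hkb2_caseB N0 (2 * ρ) a hac B hB hab φ hφc hφout CW hCW hCWb w y z T hT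
        (‖y‖ * ‖z‖) hP (CB k l * V') (mul_nonneg (hCB k l) hV'0) h2).trans ?_
      refine div_le_div_of_nonneg_right (mul_le_mul_of_nonneg_right ?_ hT.le) hden.le
      have h3 : CB k l ≤ ∑ k, ∑ l, CB k l := by
        refine (Finset.single_le_sum (f := fun l => CB k l) (fun l _ => hCB k l)
          (Finset.mem_univ l)).trans ?_
        exact Finset.single_le_sum (f := fun k => ∑ l, CB k l)
          (fun k _ => Finset.sum_nonneg fun l _ => hCB k l) (Finset.mem_univ k)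
      have h4 : CB k l * V' * CW ≤ (∑ k, ∑ l, CB k l) * V' * CW :=
        mul_le_mul_of_nonneg_right (mul_le_mul_of_nonneg_right h3 hV'0) hCW.le
      rw [hC]
      linarith

end Pool.Agent.MST
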