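import Pool.Agent.MST.Defs

namespace Pool.Agent.MST

open MeasureTheory Set Pool.Agent.MP_6cbfb8_an
open scoped ENNReal Real

theorem hkl_mul {x y A B : ℝ} (hx : |x| ≤ A) (hy : |y| ≤ B) : |x * y| ≤ A * B := by
  rw [abs_mul]
  exact mul_le_mul hx hy (abs_nonneg _) ((abs_nonneg _).trans hx)

theorem hkl_add {x y A B : ℝ} (hx : |x| ≤ A) (hy : |y| ≤ B) : |x + y| ≤ A + B :=
  (abs_add_le x y).trans (add_le_add hx hy)

theorem hkl_sub {x y A B : ℝ} (hx : |x| ≤ A) (hy : |y| ≤ B) : |x - y| ≤ A + B :=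
  (abs_sub x y).trans (add_le_add hx hy)

theorem hkl_neg {x A : ℝ} (hx : |x| ≤ A) : |-x| ≤ A := by
  rw [abs_neg]
  exact hx

theorem hkl_two {x A : ℝ} (hx : |x| ≤ A) : |2 * x| ≤ 2 * A :=
  hkl_mul (by rw [abs_of_pos (by norm_num : (0 : ℝ) < 2)]) hx

/-- the antiderivative of `HH` -/
noncomputable def hkl_P1 (y : ℝ) : ℝ := y * Real.exp (-(π * y ^ 2)) / (2 * π)

/-- the second antiderivative of `HH` -/
noncomputable def hkl_P0 (y : ℝ) : ℝ := -(Real.exp (-(π * y ^ 2)) / (4 * π ^ 2))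

theorem hkl_exp_deriv (y : ℝ) :
    HasDerivAt (fun y : ℝ => Real.exp (-(π * y ^ 2))) (Real.exp (-(π * y ^ 2)) * (-(π * (2 * y)))) y := by
  have h1 : HasDerivAt (fun y : ℝ => -(π * y ^ 2)) (-(π * (2 * y))) y := by
    have h0 := ((hasDerivAt_pow 2 y).const_mul π).fun_neg
    refine h0.congr_deriv ?_
    norm_num
  exact h1.exp

theorem hkl_P1_deriv (y : ℝ) : HasDerivAt hkl_P1 (HH y) y := by
  have h1 := ((hasDerivAt_id y).mul (hkl_exp_deriv y)).div_const (2 * π)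
  refine (h1.congr_deriv ?_)
  unfold HH
  have hpi : π ≠ 0 := Real.pi_ne_zero
  simp only [id]
  field_simp
  ring

theorem hkl_P0_deriv (y : ℝ) : HasDerivAt hkl_P0 (hkl_P1 y) y := by
  have h1 := ((hkl_exp_deriv y).div_const (4 * π ^ 2)).neg
  refine (h1.congr_deriv ?_)
  unfold hkl_P1
  have hpi : π ≠ 0 := Real.pi_ne_zero
  field_simp
  ring

theorem hkl_HH_cont : Continuous HH := by
  unfold HH
  fun_prop

theorem hkl_P1_cont : Continuous hkl_P1 := by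
  unfold hkl_P1
  fun_prop

theorem hkl_P0_cont : Continuous hkl_P0 := by
  unfold hkl_P0
  fun_prop

theorem hkl_e1 (x : ℝ) : x * Real.exp (-x) ≤ 1 := by
  rw [Real.exp_neg, ← div_eq_mul_inv, div_le_one (Real.exp_pos x)]
  linarith [Real.add_one_le_exp x]

theorem hkl_e2 {x : ℝ} (hx : 0 ≤ x) : x ^ 2 * Real.exp (-x) ≤ 2 := by
  rw [Real.exp_neg, ← div_eq_mul_inv, div_le_iff₀ (Real.exp_pos x)]
  linarith [Real.quadratic_le_exp_of_nonneg hx]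

theorem hkl_y2 (y : ℝ) : y ^ 2 * Real.exp (-(π * y ^ 2)) ≤ 1 / 3 := by
  have h1 := hkl_e1 (π * y ^ 2)
  have h2 : 3 * (y ^ 2 * Real.exp (-(π * y ^ 2))) ≤ π * y ^ 2 * Real.exp (-(π * y ^ 2)) := by
    rw [mul_assoc π]
    exact mul_le_mul_of_nonneg_right Real.pi_gt_three.le (by positivity)
  linarith

theorem hkl_y4 (y : ℝ) : y ^ 4 * Real.exp (-(π * y ^ 2)) ≤ 2 / 9 := by
  have h1 := hkl_e2 (x := π * y ^ 2) (by positivity)
  have h3 : (9 : ℝ) ≤ π ^ 2 := by nlinarith [Real.pi_gt_three]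
  have h2 : 9 * (y ^ 4 * Real.exp (-(π * y ^ 2))) ≤
      (π * y ^ 2) ^ 2 * Real.exp (-(π * y ^ 2)) := by
    have h4 : (π * y ^ 2) ^ 2 * Real.exp (-(π * y ^ 2)) =
        π ^ 2 * (y ^ 4 * Real.exp (-(π * y ^ 2))) := by ring
    rw [h4]
    exact mul_le_mul_of_nonneg_right h3 (by positivity)
  linarith

theorem hkl_HH_bd (y : ℝ) : |y ^ 2 * HH y| ≤ 1 := by
  have h1 := hkl_y2 y
  have h2 := hkl_y4 y
  have h3 : y ^ 2 * HH y = 1 / (2 * π) * (y ^ 2 * Real.exp (-(π * y ^ 2))) -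
      y ^ 4 * Real.exp (-(π * y ^ 2)) := by
    unfold HH
    ring
  have h4 : 0 ≤ y ^ 2 * Real.exp (-(π * y ^ 2)) := by positivity
  have h5 : 0 ≤ y ^ 4 * Real.exp (-(π * y ^ 2)) := by positivity
  have h6 : 0 < 1 / (2 * π) := by positivity
  have h7 : 1 / (2 * π) ≤ 1 := by
    rw [div_le_one (by positivity)]
    linarith [Real.pi_gt_three]
  have h8 : 1 / (2 * π) * (y ^ 2 * Real.exp (-(π * y ^ 2))) ≤
      1 * (y ^ 2 * Real.exp (-(π * y ^ 2))) := mul_le_mul_of_nonneg_right h7 h4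
  have h9 : 0 ≤ 1 / (2 * π) * (y ^ 2 * Real.exp (-(π * y ^ 2))) := mul_nonneg h6.le h4
  rw [h3, abs_le]
  constructor
  · linarith
  · linarith

theorem hkl_P1_bd (y : ℝ) : |y * hkl_P1 y| ≤ 1 := by
  have h1 := hkl_y2 y
  have h3 : y * hkl_P1 y = 1 / (2 * π) * (y ^ 2 * Real.exp (-(π * y ^ 2))) := by
    unfold hkl_P1
    ring
  have h4 : 0 ≤ y ^ 2 * Real.exp (-(π * y ^ 2)) := by positivity
  have h6 : 0 < 1 / (2 * π) := by positivity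
  have h7 : 1 / (2 * π) ≤ 1 := by
    rw [div_le_one (by positivity)]
    linarith [Real.pi_gt_three]
  have h8 : 1 / (2 * π) * (y ^ 2 * Real.exp (-(π * y ^ 2))) ≤
      1 * (y ^ 2 * Real.exp (-(π * y ^ 2))) := mul_le_mul_of_nonneg_right h7 h4
  have h9 : 0 ≤ 1 / (2 * π) * (y ^ 2 * Real.exp (-(π * y ^ 2))) := mul_nonneg h6.le h4
  rw [h3, abs_of_nonneg h9]
  linarith

theorem hkl_P0_bd (y : ℝ) : |hkl_P0 y| ≤ 1 := by
  unfold hkl_P0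
  rw [abs_neg, abs_of_nonneg (by positivity), div_le_one (by positivity)]
  have h1 : Real.exp (-(π * y ^ 2)) ≤ 1 := by
    rw [Real.exp_le_one_iff]
    have : 0 ≤ π * y ^ 2 := by positivity
    linarith
  nlinarith [Real.pi_gt_three]

theorem hkl_step {α β : ℝ} (hαβ : α ≤ β) {γ γ' f f1 Φ φ : ℝ → ℝ}
    (hγ : ∀ τ ∈ Icc α β, HasDerivAt γ (γ' τ) τ) (hγ' : ContinuousOn γ' (Icc α β))
    (hf : ∀ τ ∈ Icc α β, HasDerivAt f (f1 τ) τ) (hf1 : ContinuousOn f1 (Icc α β))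
    (hΦ : ∀ y, HasDerivAt Φ (φ y) y) (hφ : Continuous φ) (hα : γ α = 0) (hβ : γ β = 0)
    {lam : ℝ} (hlam : 0 < lam) :
    ∫ τ in α..β, γ τ * (f1 τ * φ (lam * f τ)) =
      -(lam⁻¹ * ∫ τ in α..β, γ' τ * Φ (lam * f τ)) := by
  have hfc : ContinuousOn f (Icc α β) := fun τ hτ => (hf τ hτ).continuousAt.continuousWithinAt
  have hv : ∀ τ ∈ uIcc α β, HasDerivAt (fun τ => lam⁻¹ * Φ (lam * f τ))
      (f1 τ * φ (lam * f τ)) τ := by
    intro τ hτ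
    rw [uIcc_of_le hαβ] at hτ
    have h1 : HasDerivAt (fun τ => lam * f τ) (lam * f1 τ) τ := (hf τ hτ).const_mul lam
    have h2 := ((hΦ (lam * f τ)).comp τ h1).const_mul lam⁻¹
    refine h2.congr_deriv ?_
    field_simp
  have hvi : IntervalIntegrable (fun τ => f1 τ * φ (lam * f τ)) volume α β := by
    refine ContinuousOn.intervalIntegrable_of_Icc hαβ ?_
    exact hf1.mul (hφ.comp_continuousOn (hfc.const_mul lam |> fun h => by simpa using h))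
  have hui : IntervalIntegrable γ' volume α β := ContinuousOn.intervalIntegrable_of_Icc hαβ hγ'
  have h3 := intervalIntegral.integral_mul_deriv_eq_deriv_mul (u := γ) (u' := γ')
    (v := fun τ => lam⁻¹ * Φ (lam * f τ)) (v' := fun τ => f1 τ * φ (lam * f τ))
    (a := α) (b := β) (by
      intro τ hτ
      rw [uIcc_of_le hαβ] at hτ
      exact hγ τ hτ) hv hui hvi
  rw [h3, hα, hβ, zero_mul, zero_mul, sub_zero, zero_sub]
  congr 1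
  rw [← intervalIntegral.integral_const_mul]
  congr 1
  funext τ
  ring

/-
ROW KL (1.5 h). Non-stationary phase in one variable, with the function HH.
Let Θ0 y = exp(-π y²), Θ1 y = -2π y exp(-π y²) = Θ0', Θ2 y = (4π² y² - 2π) exp(-π y²) = Θ1'; HH = -Θ2/(4π²).
There is a constant K0 with |Θ0|, |y Θ1(y)|, |y² Θ2(y)|, |y Θ... | ≤ K0 (x^n exp(-π x²) is bounded).
Put u = f² + f1² ≥ c0 on [α, β]; u' = 2 f f1 + 2 f1 f2. Write
 ∫ b Θ2(λ f) = ∫ (b/u) f² Θ2(λ f) + ∫ (b f1/u) · f1 Θ2(λ f).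
First: |f² Θ2(λ f)| = λ⁻² |(λf)² Θ2(λf)| ≤ K0 λ⁻². Second: f1 Θ2(λ f) = λ⁻¹ (Θ1(λ f))', γ := b f1/u
vanishes at α, β; integration by parts: = -λ⁻¹ ∫ γ' Θ1(λ f). Here
γ' = b1 f1/u + b f2/u - b f1 u'/u² is bounded and vanishes at α, β (b = b1 = 0 there). Again
 γ' = γ' (f² + f1²)/u:  ∫ (γ'/u) f² Θ1(λ f) is ≤ λ⁻¹ sup|γ'/u| |f| K0 L, and
 ∫ (γ' f1/u) f1 Θ1(λ f) = λ⁻¹ ∫ (γ' f1/u) (Θ0(λ f))' = -λ⁻¹ ∫ (γ' f1/u)' Θ0(λ f), where (γ' f1/u)' involves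
b2, f3, all bounded in terms of Cb, Cf, c0. In total ≤ C λ⁻². (intervalIntegral integration by parts:
intervalIntegral.integral_mul_deriv_eq_deriv_mul; the continuity hypotheses on b2, f3 give the
interval integrability.) It may be convenient to prove first the one-step lemma: if γ has derivative
γ' (continuous) on [α,β], γ α = γ β = 0, then ∫ γ f1 Θ_{k+1}(λ f) = -λ⁻¹ ∫ γ' Θ_k(λ f).
-/
theorem nonstationary (L Cb Cf c0 : ℝ) (hc : 0 < c0) : ∃ C : ℝ, 0 ≤ C ∧ ∀ (α β : ℝ), α ≤ β →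
    β - α ≤ L → ∀ (b b1 b2 f f1 f2 f3 : ℝ → ℝ),
    (∀ τ ∈ Icc α β, HasDerivAt b (b1 τ) τ ∧ HasDerivAt b1 (b2 τ) τ) →
    (∀ τ ∈ Icc α β, HasDerivAt f (f1 τ) τ ∧ HasDerivAt f1 (f2 τ) τ ∧ HasDerivAt f2 (f3 τ) τ) →
    ContinuousOn b2 (Icc α β) → ContinuousOn f3 (Icc α β) →
    (∀ τ ∈ Icc α β, |b τ| ≤ Cb ∧ |b1 τ| ≤ Cb ∧ |b2 τ| ≤ Cb) →
    (∀ τ ∈ Icc α β, |f τ| ≤ Cf ∧ |f1 τ| ≤ Cf ∧ |f2 τ| ≤ Cf ∧ |f3 τ| ≤ Cf) →
    (∀ τ ∈ Icc α β, c0 ≤ f τ ^ 2 + f1 τ ^ 2) →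
    b α = 0 → b β = 0 → b1 α = 0 → b1 β = 0 → ∀ lam : ℝ, 0 < lam →
    |∫ τ in α..β, b τ * HH (lam * f τ)| ≤ C / lam ^ 2 := by
  obtain ⟨K, hK⟩ : ∃ K : ℝ, K = |Cb| + |Cf| + c0⁻¹ := ⟨_, rfl⟩
  have hc0' : 0 < c0⁻¹ := inv_pos.2 hc
  have hK0 : 0 ≤ K := by
    rw [hK]
    positivity
  obtain ⟨U1, hU1⟩ : ∃ U1 : ℝ, U1 = 2 * (K * K) + 2 * (K * K) := ⟨_, rfl⟩
  obtain ⟨U2, hU2⟩ : ∃ U2 : ℝ, U2 = 2 * (K * K + K * K) + 2 * (K * K + K * K) := ⟨_, rfl⟩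
  obtain ⟨G1, hG1⟩ : ∃ G1 : ℝ, G1 = (K * K + K * K) * K + K * K * (U1 * (K * K)) := ⟨_, rfl⟩
  obtain ⟨W1, hW1⟩ : ∃ W1 : ℝ, W1 = U1 * (K * K) := ⟨_, rfl⟩
  obtain ⟨G11, hG11⟩ : ∃ G11 : ℝ, G11 = ((K * K + K * K + (K * K + K * K)) * K +
      (K * K + K * K) * W1) + ((K * K + K * K) * (U1 * (K * K)) +
      K * K * (U2 * (K * K) + U1 * (W1 * K + K * W1))) := ⟨_, rfl⟩
  obtain ⟨G2, hG2⟩ : ∃ G2 : ℝ, G2 = G11 * (K * K) + G1 * (K * K + K * W1) := ⟨_, rfl⟩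
  have hU1n : 0 ≤ U1 := by rw [hU1]; positivity
  have hU2n : 0 ≤ U2 := by rw [hU2]; positivity
  have hG1n : 0 ≤ G1 := by rw [hG1]; positivity
  have hW1n : 0 ≤ W1 := by rw [hW1]; positivity
  have hG11n : 0 ≤ G11 := by rw [hG11]; positivity
  have hG2n : 0 ≤ G2 := by rw [hG2]; positivity
  refine ⟨|L| * (K * K + G1 * K * K + G2), by positivity, ?_⟩
  intro α β hαβ hL b b1 b2 f f1 f2 f3 hb hf hb2c hf3c hbB hfB hu hbα hbβ hb1α hb1β lam hlam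
  -- bounds
  have kb : ∀ τ ∈ Icc α β, |b τ| ≤ K ∧ |b1 τ| ≤ K ∧ |b2 τ| ≤ K := by
    intro τ hτ
    obtain ⟨h1, h2, h3⟩ := hbB τ hτ
    have h4 : Cb ≤ K := by
      rw [hK]
      have := le_abs_self Cb
      have := abs_nonneg Cf
      linarith
    exact ⟨h1.trans h4, h2.trans h4, h3.trans h4⟩
  have kf : ∀ τ ∈ Icc α β, |f τ| ≤ K ∧ |f1 τ| ≤ K ∧ |f2 τ| ≤ K ∧ |f3 τ| ≤ K := by
    intro τ hτ
    obtain ⟨h1, h2, h3, h5⟩ := hfB τ hτ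
    have h4 : Cf ≤ K := by
      rw [hK]
      have := le_abs_self Cf
      have := abs_nonneg Cb
      linarith
    exact ⟨h1.trans h4, h2.trans h4, h3.trans h4, h5.trans h4⟩
  obtain ⟨u, hudef⟩ : ∃ u : ℝ → ℝ, u = fun τ => f τ * f τ + f1 τ * f1 τ := ⟨_, rfl⟩
  obtain ⟨w, hwdef⟩ : ∃ w : ℝ → ℝ, w = fun τ => (u τ)⁻¹ := ⟨_, rfl⟩
  obtain ⟨u1, hu1def⟩ : ∃ u1 : ℝ → ℝ, u1 = fun τ => 2 * (f τ * f1 τ) + 2 * (f1 τ * f2 τ) :=
    ⟨_, rfl⟩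
  obtain ⟨u2, hu2def⟩ : ∃ u2 : ℝ → ℝ, u2 = fun τ => 2 * (f1 τ * f1 τ + f τ * f2 τ) +
    2 * (f2 τ * f2 τ + f1 τ * f3 τ) := ⟨_, rfl⟩
  obtain ⟨w1, hw1def⟩ : ∃ w1 : ℝ → ℝ, w1 = fun τ => -(u1 τ * (w τ * w τ)) := ⟨_, rfl⟩
  obtain ⟨g1, hg1def⟩ : ∃ g1 : ℝ → ℝ, g1 = fun τ => (b1 τ * f1 τ + b τ * f2 τ) * w τ -
    (b τ * f1 τ) * (u1 τ * (w τ * w τ)) := ⟨_, rfl⟩
  obtain ⟨g11, hg11def⟩ : ∃ g11 : ℝ → ℝ, g11 = fun τ =>
    ((b2 τ * f1 τ + b1 τ * f2 τ + (b1 τ * f2 τ + b τ * f3 τ)) * w τ +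
      (b1 τ * f1 τ + b τ * f2 τ) * w1 τ) -
    ((b1 τ * f1 τ + b τ * f2 τ) * (u1 τ * (w τ * w τ)) +
      (b τ * f1 τ) * (u2 τ * (w τ * w τ) + u1 τ * (w1 τ * w τ + w τ * w1 τ))) := ⟨_, rfl⟩
  obtain ⟨g2, hg2def⟩ : ∃ g2 : ℝ → ℝ, g2 = fun τ => g11 τ * (f1 τ * w τ) +
    g1 τ * (f2 τ * w τ + f1 τ * w1 τ) := ⟨_, rfl⟩
  have hupos : ∀ τ ∈ Icc α β, c0 ≤ u τ := by
    intro τ hτ
    have := hu τ hτ
    rw [hudef]
    show c0 ≤ f τ * f τ + f1 τ * f1 τ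
    nlinarith
  have hune : ∀ τ ∈ Icc α β, u τ ≠ 0 := fun τ hτ => (hc.trans_le (hupos τ hτ)).ne'
  have kw : ∀ τ ∈ Icc α β, |w τ| ≤ K := by
    intro τ hτ
    rw [hwdef]
    show |(u τ)⁻¹| ≤ K
    have h1 := hupos τ hτ
    rw [abs_of_pos (inv_pos.2 (hc.trans_le h1))]
    have h2 : (u τ)⁻¹ ≤ c0⁻¹ := inv_anti₀ hc h1
    rw [hK]
    have := abs_nonneg Cf
    have := abs_nonneg Cb
    linarith
  have ku1 : ∀ τ ∈ Icc α β, |u1 τ| ≤ U1 := by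
    intro τ hτ
    obtain ⟨h1, h2, h3, h5⟩ := kf τ hτ
    rw [hu1def, hU1]
    exact hkl_add (hkl_two (hkl_mul h1 h2)) (hkl_two (hkl_mul h2 h3))
  have ku2 : ∀ τ ∈ Icc α β, |u2 τ| ≤ U2 := by
    intro τ hτ
    obtain ⟨h1, h2, h3, h5⟩ := kf τ hτ
    rw [hu2def, hU2]
    exact hkl_add (hkl_two (hkl_add (hkl_mul h2 h2) (hkl_mul h1 h3)))
      (hkl_two (hkl_add (hkl_mul h3 h3) (hkl_mul h2 h5)))
  have kw1 : ∀ τ ∈ Icc α β, |w1 τ| ≤ W1 := by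
    intro τ hτ
    rw [hw1def, hW1]
    exact hkl_neg (hkl_mul (ku1 τ hτ) (hkl_mul (kw τ hτ) (kw τ hτ)))
  have kg1 : ∀ τ ∈ Icc α β, |g1 τ| ≤ G1 := by
    intro τ hτ
    obtain ⟨h1, h2, h3, h5⟩ := kf τ hτ
    obtain ⟨e1, e2, e3⟩ := kb τ hτ
    rw [hg1def, hG1]
    exact hkl_sub (hkl_mul (hkl_add (hkl_mul e2 h2) (hkl_mul e1 h3)) (kw τ hτ))
      (hkl_mul (hkl_mul e1 h2) (hkl_mul (ku1 τ hτ) (hkl_mul (kw τ hτ) (kw τ hτ))))
  have kg11 : ∀ τ ∈ Icc α β, |g11 τ| ≤ G11 := by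
    intro τ hτ
    obtain ⟨h1, h2, h3, h5⟩ := kf τ hτ
    obtain ⟨e1, e2, e3⟩ := kb τ hτ
    rw [hg11def, hG11]
    exact hkl_sub (hkl_add (hkl_mul (hkl_add (hkl_add (hkl_mul e3 h2) (hkl_mul e2 h3))
        (hkl_add (hkl_mul e2 h3) (hkl_mul e1 h5))) (kw τ hτ))
        (hkl_mul (hkl_add (hkl_mul e2 h2) (hkl_mul e1 h3)) (kw1 τ hτ)))
      (hkl_add (hkl_mul (hkl_add (hkl_mul e2 h2) (hkl_mul e1 h3))
        (hkl_mul (ku1 τ hτ) (hkl_mul (kw τ hτ) (kw τ hτ))))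
        (hkl_mul (hkl_mul e1 h2) (hkl_add (hkl_mul (ku2 τ hτ) (hkl_mul (kw τ hτ) (kw τ hτ)))
          (hkl_mul (ku1 τ hτ) (hkl_add (hkl_mul (kw1 τ hτ) (kw τ hτ))
            (hkl_mul (kw τ hτ) (kw1 τ hτ)))))))
  have kg2 : ∀ τ ∈ Icc α β, |g2 τ| ≤ G2 := by
    intro τ hτ
    obtain ⟨h1, h2, h3, h5⟩ := kf τ hτ
    rw [hg2def, hG2]
    exact hkl_add (hkl_mul (kg11 τ hτ) (hkl_mul h2 (kw τ hτ)))
      (hkl_mul (kg1 τ hτ) (hkl_add (hkl_mul h3 (kw τ hτ)) (hkl_mul h2 (kw1 τ hτ))))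
  -- derivatives
  have du : ∀ τ ∈ Icc α β, HasDerivAt u (u1 τ) τ := by
    intro τ hτ
    obtain ⟨h1, h2, h3⟩ := hf τ hτ
    rw [hudef, hu1def]
    exact ((h1.fun_mul h1).fun_add (h2.fun_mul h2)).congr_deriv (by ring)
  have dw : ∀ τ ∈ Icc α β, HasDerivAt w (w1 τ) τ := by
    intro τ hτ
    have h1 := (du τ hτ).fun_inv (hune τ hτ)
    rw [hw1def, hwdef]
    refine h1.congr_deriv ?_
    show -u1 τ / u τ ^ 2 = -(u1 τ * ((u τ)⁻¹ * (u τ)⁻¹))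
    have := hune τ hτ
    field_simp
  have du1 : ∀ τ ∈ Icc α β, HasDerivAt u1 (u2 τ) τ := by
    intro τ hτ
    obtain ⟨h1, h2, h3⟩ := hf τ hτ
    rw [hu1def, hu2def]
    exact (((h1.fun_mul h2).const_mul 2).fun_add ((h2.fun_mul h3).const_mul 2)).congr_deriv (by ring)
  have dg0 : ∀ τ ∈ Icc α β, HasDerivAt (fun τ => b τ * f1 τ * w τ) (g1 τ) τ := by
    intro τ hτ
    obtain ⟨h1, h2, h3⟩ := hf τ hτ
    obtain ⟨e1, e2⟩ := hb τ hτ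
    refine ((e1.fun_mul h2).fun_mul (dw τ hτ)).congr_deriv ?_
    rw [hg1def, hw1def]
    ring
  have dg1 : ∀ τ ∈ Icc α β, HasDerivAt g1 (g11 τ) τ := by
    intro τ hτ
    obtain ⟨h1, h2, h3⟩ := hf τ hτ
    obtain ⟨e1, e2⟩ := hb τ hτ
    have hw := dw τ hτ
    have hu1 := du1 τ hτ
    rw [hg1def, hg11def]
    exact ((((e2.fun_mul h2).fun_add (e1.fun_mul h3)).fun_mul hw).fun_sub
      ((e1.fun_mul h2).fun_mul (hu1.fun_mul (hw.fun_mul hw)))).congr_deriv (by ring)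
  have dg2 : ∀ τ ∈ Icc α β, HasDerivAt (fun τ => g1 τ * (f1 τ * w τ)) (g2 τ) τ := by
    intro τ hτ
    obtain ⟨h1, h2, h3⟩ := hf τ hτ
    rw [hg2def]
    exact (dg1 τ hτ).fun_mul (h2.fun_mul (dw τ hτ))
  -- continuity
  have cb : ContinuousOn b (Icc α β) :=
    fun τ hτ => (hb τ hτ).1.continuousAt.continuousWithinAt
  have cb1 : ContinuousOn b1 (Icc α β) :=
    fun τ hτ => (hb τ hτ).2.continuousAt.continuousWithinAt
  have cf : ContinuousOn f (Icc α β) :=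
    fun τ hτ => (hf τ hτ).1.continuousAt.continuousWithinAt
  have cf1 : ContinuousOn f1 (Icc α β) :=
    fun τ hτ => (hf τ hτ).2.1.continuousAt.continuousWithinAt
  have cf2 : ContinuousOn f2 (Icc α β) :=
    fun τ hτ => (hf τ hτ).2.2.continuousAt.continuousWithinAt
  have cw : ContinuousOn w (Icc α β) :=
    fun τ hτ => (dw τ hτ).continuousAt.continuousWithinAt
  have cu1 : ContinuousOn u1 (Icc α β) :=
    fun τ hτ => (du1 τ hτ).continuousAt.continuousWithinAt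
  have cu2 : ContinuousOn u2 (Icc α β) := by
    rw [hu2def]
    fun_prop
  have cw1 : ContinuousOn w1 (Icc α β) := by
    rw [hw1def]
    fun_prop
  have cg1 : ContinuousOn g1 (Icc α β) :=
    fun τ hτ => (dg1 τ hτ).continuousAt.continuousWithinAt
  have cg11 : ContinuousOn g11 (Icc α β) := by
    rw [hg11def]
    fun_prop
  have cg2 : ContinuousOn g2 (Icc α β) := by
    rw [hg2def]
    fun_prop
  have cHH : ContinuousOn (fun τ => HH (lam * f τ)) (Icc α β) :=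
    hkl_HH_cont.comp_continuousOn (by fun_prop)
  have cP1 : ContinuousOn (fun τ => hkl_P1 (lam * f τ)) (Icc α β) :=
    hkl_P1_cont.comp_continuousOn (by fun_prop)
  have cP0 : ContinuousOn (fun τ => hkl_P0 (lam * f τ)) (Icc α β) :=
    hkl_P0_cont.comp_continuousOn (by fun_prop)
  -- first step
  have hwu : ∀ τ ∈ Icc α β, w τ * (f τ * f τ + f1 τ * f1 τ) = 1 := by
    intro τ hτ
    have h1 := hune τ hτ
    rw [hwdef]
    rw [hudef] at h1 ⊢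
    exact inv_mul_cancel₀ h1
  have e1 : ∫ τ in α..β, b τ * HH (lam * f τ) =
      (∫ τ in α..β, b τ * w τ * (f τ ^ 2 * HH (lam * f τ))) +
      ∫ τ in α..β, (b τ * f1 τ * w τ) * (f1 τ * HH (lam * f τ)) := by
    rw [← intervalIntegral.integral_add]
    · apply intervalIntegral.integral_congr
      intro τ hτ
      rw [uIcc_of_le hαβ] at hτ
      have h1 := hwu τ hτ
      show b τ * HH (lam * f τ) = b τ * w τ * (f τ ^ 2 * HH (lam * f τ)) +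
        (b τ * f1 τ * w τ) * (f1 τ * HH (lam * f τ))
      calc b τ * HH (lam * f τ) = b τ * HH (lam * f τ) * (w τ * (f τ * f τ + f1 τ * f1 τ)) := by
            rw [h1, mul_one]
        _ = _ := by ring
    · refine ContinuousOn.intervalIntegrable_of_Icc hαβ ?_
      fun_prop
    · refine ContinuousOn.intervalIntegrable_of_Icc hαβ ?_
      fun_prop
  have e2 := hkl_step hαβ dg0 cg1 (fun τ hτ => (hf τ hτ).1) cf1 hkl_P1_deriv hkl_HH_cont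
    (by rw [hbα, zero_mul, zero_mul]) (by rw [hbβ, zero_mul, zero_mul]) hlam
  have e3 : ∫ τ in α..β, g1 τ * hkl_P1 (lam * f τ) =
      (∫ τ in α..β, g1 τ * w τ * (f τ ^ 2 * hkl_P1 (lam * f τ))) +
      ∫ τ in α..β, (g1 τ * (f1 τ * w τ)) * (f1 τ * hkl_P1 (lam * f τ)) := by
    rw [← intervalIntegral.integral_add]
    · apply intervalIntegral.integral_congr
      intro τ hτ
      rw [uIcc_of_le hαβ] at hτ
      have h1 := hwu τ hτ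
      show g1 τ * hkl_P1 (lam * f τ) = g1 τ * w τ * (f τ ^ 2 * hkl_P1 (lam * f τ)) +
        (g1 τ * (f1 τ * w τ)) * (f1 τ * hkl_P1 (lam * f τ))
      calc g1 τ * hkl_P1 (lam * f τ) =
            g1 τ * hkl_P1 (lam * f τ) * (w τ * (f τ * f τ + f1 τ * f1 τ)) := by
            rw [h1, mul_one]
        _ = _ := by ring
    · refine ContinuousOn.intervalIntegrable_of_Icc hαβ ?_
      fun_prop
    · refine ContinuousOn.intervalIntegrable_of_Icc hαβ ?_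
      fun_prop
  have hg1α : g1 α = 0 := by
    rw [hg1def]
    show (b1 α * f1 α + b α * f2 α) * w α - (b α * f1 α) * (u1 α * (w α * w α)) = 0
    rw [hbα, hb1α]
    ring
  have hg1β : g1 β = 0 := by
    rw [hg1def]
    show (b1 β * f1 β + b β * f2 β) * w β - (b β * f1 β) * (u1 β * (w β * w β)) = 0
    rw [hbβ, hb1β]
    ring
  have e4 := hkl_step hαβ dg2 cg2 (fun τ hτ => (hf τ hτ).1) cf1 hkl_P0_deriv hkl_P1_cont
    (by rw [hg1α, zero_mul]) (by rw [hg1β, zero_mul]) hlam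
  -- bounds of the integrals
  have hlen : |β - α| ≤ |L| := by
    rw [abs_of_nonneg (by linarith)]
    exact hL.trans (le_abs_self L)
  have b1' : |∫ τ in α..β, b τ * w τ * (f τ ^ 2 * HH (lam * f τ))| ≤
      K * K * (lam⁻¹ ^ 2) * |β - α| := by
    rw [← Real.norm_eq_abs]
    apply intervalIntegral.norm_integral_le_of_norm_le_const
    intro τ hτ
    rw [uIoc_of_le hαβ] at hτ
    have hτ' : τ ∈ Icc α β := ⟨hτ.1.le, hτ.2⟩
    have h1 : f τ ^ 2 * HH (lam * f τ) =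
        lam⁻¹ ^ 2 * ((lam * f τ) ^ 2 * HH (lam * f τ)) := by
      have := hlam.ne'
      field_simp
    rw [Real.norm_eq_abs, h1]
    have h2 : |lam⁻¹ ^ 2 * ((lam * f τ) ^ 2 * HH (lam * f τ))| ≤ lam⁻¹ ^ 2 * 1 :=
      hkl_mul (by rw [abs_of_nonneg (by positivity)]) (hkl_HH_bd _)
    have h3 := hkl_mul (hkl_mul (kb τ hτ').1 (kw τ hτ')) h2
    rw [mul_one] at h3
    exact h3
  have b2' : |∫ τ in α..β, g1 τ * w τ * (f τ ^ 2 * hkl_P1 (lam * f τ))| ≤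
      G1 * K * (K * lam⁻¹) * |β - α| := by
    rw [← Real.norm_eq_abs]
    apply intervalIntegral.norm_integral_le_of_norm_le_const
    intro τ hτ
    rw [uIoc_of_le hαβ] at hτ
    have hτ' : τ ∈ Icc α β := ⟨hτ.1.le, hτ.2⟩
    have h1 : f τ ^ 2 * hkl_P1 (lam * f τ) =
        f τ * (lam⁻¹ * ((lam * f τ) * hkl_P1 (lam * f τ))) := by
      have := hlam.ne'
      field_simp
    rw [Real.norm_eq_abs, h1]
    have h2 : |f τ * (lam⁻¹ * ((lam * f τ) * hkl_P1 (lam * f τ)))| ≤ K * (lam⁻¹ * 1) :=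
      hkl_mul (kf τ hτ').1 (hkl_mul (by rw [abs_of_nonneg (by positivity)]) (hkl_P1_bd _))
    have h3 := hkl_mul (hkl_mul (kg1 τ hτ') (kw τ hτ')) h2
    rw [mul_one] at h3
    exact h3
  have b3' : |∫ τ in α..β, g2 τ * hkl_P0 (lam * f τ)| ≤ G2 * 1 * |β - α| := by
    rw [← Real.norm_eq_abs]
    apply intervalIntegral.norm_integral_le_of_norm_le_const
    intro τ hτ
    rw [uIoc_of_le hαβ] at hτ
    have hτ' : τ ∈ Icc α β := ⟨hτ.1.le, hτ.2⟩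
    rw [Real.norm_eq_abs]
    exact hkl_mul (kg2 τ hτ') (hkl_P0_bd _)
  rw [e1, e2, e3, e4]
  have hli : |lam⁻¹| ≤ lam⁻¹ := by rw [abs_of_pos (inv_pos.2 hlam)]
  have hfin := hkl_add b1' (hkl_neg (hkl_mul hli (hkl_add b2' (hkl_neg (hkl_mul hli b3')))))
  refine hfin.trans ?_
  have h5 : K * K * lam⁻¹ ^ 2 * |β - α| +
      lam⁻¹ * (G1 * K * (K * lam⁻¹) * |β - α| + lam⁻¹ * (G2 * 1 * |β - α|)) =
      |β - α| * ((K * K + G1 * K * K + G2) * lam⁻¹ ^ 2) := by ring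
  rw [h5, div_eq_mul_inv, mul_assoc |L|, ← inv_pow]
  exact mul_le_mul_of_nonneg_right hlen (by positivity)

end Pool.Agent.MST
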