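import Pool.Agent.MST.LP
import Pool.Agent.MST.KF
import Pool.Agent.MST.KB
import Pool.Agent.MST.JB
import Pool.Agent.MST.OB

namespace Pool.Agent.MST

open MeasureTheory Set Pool.Agent.MP_6cbfb8_an
open scoped ENNReal Real

theorem hl4_norm_ex (x : ℝ) : ‖ex x‖ = 1 := by
  unfold ex
  exact Complex.norm_exp_ofReal_mul_I _

theorem hl4_norm_amp (a : ℝ → ℝ) (κ s t ρ : ℝ) : ‖amp a κ s t ρ‖ = |a (vv κ s ρ)| := by
  unfold amp
  rw [norm_mul, hl4_norm_ex, mul_one, Complex.norm_real, Real.norm_eq_abs]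

theorem hl4_meas_amp (a : ℝ → ℝ) (ha : Cut a) (κ : ℝ) :
    Measurable fun p : (ℝ × ℝ) × E 2 => amp a κ p.1.1 p.1.2 (‖p.2‖ ^ 2) := by
  have hc : Continuous a := ha.1.continuous
  have hv : Measurable fun p : (ℝ × ℝ) × E 2 => vv κ p.1.1 (‖p.2‖ ^ 2) := by
    unfold vv
    fun_prop
  have hex : Continuous ex := by
    unfold ex
    fun_prop
  unfold amp
  refine Measurable.mul ?_ ?_
  · exact Complex.measurable_ofReal.comp (hc.measurable.comp hv)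
  · apply hex.measurable.comp
    exact (measurable_fst.snd).mul (measurable_const.mul
      (Real.continuous_sqrt.measurable.comp hv))

theorem hl4_inner (w y z : E 2) :
    ‖w‖ ^ 2 + ‖w - y - z‖ ^ 2 - ‖w - y‖ ^ 2 - ‖w - z‖ ^ 2 = 2 * (inner ℝ y z : ℝ) := by
  rw [norm_sub_sq_real (w - y) z, norm_sub_sq_real w z, inner_sub_left]
  ring

theorem hl4_power {C0 K x e : ℝ} (he : 0 < e) (he2 : e ≤ 2) (hC : 0 < C0) (hx : 0 ≤ x)
    (h1 : |K| ≤ C0) (h2 : x ^ 2 * |K| ≤ C0) :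
    ENNReal.ofReal |K| ≤ ENNReal.ofReal C0 * ENNReal.ofReal x ^ (-e) := by
  rcases eq_or_lt_of_le hx with h0 | h0
  · rw [← h0, ENNReal.ofReal_zero, ENNReal.zero_rpow_of_neg (by linarith),
      ENNReal.mul_top (by rw [Ne, ENNReal.ofReal_eq_zero, not_le]; exact hC)]
    exact le_top
  · rw [ENNReal.ofReal_rpow_of_pos h0, ← ENNReal.ofReal_mul hC.le]
    apply ENNReal.ofReal_le_ofReal
    rcases le_total x 1 with hx1 | hx1
    · have h3 : 1 ≤ x ^ (-e) := Real.one_le_rpow_of_pos_of_le_one_of_nonpos h0 hx1 (by linarith)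
      nlinarith
    · have h3 : x ^ (-(2 : ℝ)) ≤ x ^ (-e) := Real.rpow_le_rpow_of_exponent_le hx1 (by linarith)
      have h4 : x ^ (-(2 : ℝ)) = (x ^ 2)⁻¹ := by
        rw [Real.rpow_neg hx, Real.rpow_two]
      have h5 : |K| ≤ C0 * (x ^ 2)⁻¹ := by
        rw [← div_eq_mul_inv, le_div_iff₀ (by positivity), mul_comm]
        exact h2
      calc |K| ≤ C0 * (x ^ 2)⁻¹ := h5
        _ ≤ C0 * x ^ (-e) := by
          rw [← h4]
          exact mul_le_mul_of_nonneg_left h3 hC.le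

theorem hl4_ae (s0 s1 T : ℝ) :
    ∀ᵐ l : ℝ × ℝ ∂((muS s0 s1).prod (muT T)), l.1 ∈ Icc s0 s1 := by
  have h1 : ∀ᵐ s ∂(muS s0 s1), s ∈ Icc s0 s1 := by
    unfold muS
    exact (withDensity_absolutelyContinuous _ _).ae_le
      (ae_restrict_mem measurableSet_Icc)
  exact Measure.quasiMeasurePreserving_fst.ae h1

/-
ROW L4 (1.5 h). The L^4 bound, assembly of LP, KF, KB, JB.
μ = (muS s0 s1).prod (muT T) (finite). Take A l w = if l.1 ∈ Icc s0 s1 then amp a κ l.1 l.2 (‖w‖²) else 0: measurable,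
bounded by sup|a| (‖ex‖ = 1), zero for ‖w‖² > 1/s0 (then s‖w‖² > 1 so vv ≤ 0 and a = 0). For μ-a.e. l
(l.1 ∈ Icc s0 s1) A l w = amp..., so four_linear_param gives
 LHS ≤ ∫⁻ q, ‖∫ l, (four amplitudes at ‖w‖², ‖w-y-z‖², ‖w-y‖², ‖w-z‖²) ∂μ‖ₑ = ∫⁻ q, ‖T * KI a κ s0 s1 (Tκ) r1 r2 r3 r4‖ₑ
(kernel_formula). By kernel_bound with lam = Tκ: KI ≠ 0 forces ‖w‖², ‖w-y‖², ‖w-z‖² ≤ C, hence ‖w‖,‖y‖,‖z‖ ≤ 2√C,
and |2 inner y z| ≤ Cκ² (r1+r2-r3-r4 = 2 inner y z): q lies in the domain of J_bound with R = max(C, 2√C).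
There |KI| ≤ C κ² min(1, (lam DD)^(-2)) ≤ C κ² (lam DD)^(-(2-2δ)) (as ENNReal: for x = lam·DD > 0,
min(1, x^(-2)) ≤ x^(-(2-2δ)); for DD = 0 the right side is ∞). So
LHS ≤ T C κ² (Tκ)^(-(2-2δ)) ∫⁻_{domain} D^(-(2-2δ)) ≤ C T^(1-2+2δ) κ^(2-2+2δ) κ^(4-δ) = C T^(-1+2δ) κ^(4+δ) (dd_eq, J_bound).
-/
theorem strip_L4 (a : ℝ → ℝ) (ha : Cut a) (s0 s1 : ℝ) (h0 : 0 < s0) (h1 : s0 < s1) (δ : ℝ)
    (hδ : 0 < δ) (hδ1 : δ ≤ 2 / 5) : ∃ C : ℝ≥0∞, C ≠ ∞ ∧ ∀ κ T : ℝ, 0 < κ → κ ≤ 1 → 0 < T →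
    ∀ G : E 2 → ℂ, Measurable G → (∀ w, ‖G w‖ ≤ 1) →
    ∫⁻ l : ℝ × ℝ, (∫⁻ x : E 2, ‖op a κ l.1 l.2 G x‖ₑ ^ (4:ℝ)) ∂((muS s0 s1).prod (muT T)) ≤
      C * ENNReal.ofReal (T ^ (-1 + 2 * δ) * κ ^ (4 + δ)) := by
  obtain ⟨A0, hA0, hA⟩ := cut_bdd a ha
  obtain ⟨C1, hC1, hKB⟩ := kernel_bound a ha s0 s1 h0 h1
  obtain ⟨C2, hC2, hJB⟩ := J_bound δ (2 * (C1 + 1)) hδ hδ1 (by linarith)
  refine ⟨ENNReal.ofReal C1 * C2, ENNReal.mul_ne_top ENNReal.ofReal_ne_top hC2, ?_⟩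
  intro κ T hκ hκ1 hT G hG hGb
  have := finite_muT T hT
  set A : ℝ × ℝ → E 2 → ℂ := fun l w =>
    if l.1 ∈ Icc s0 s1 then amp a κ l.1 l.2 (‖w‖ ^ 2) else 0 with hAdef
  have hAm : Measurable (Function.uncurry A) := by
    have h2 : MeasurableSet {p : (ℝ × ℝ) × E 2 | p.1.1 ∈ Icc s0 s1} :=
      measurable_fst.fst measurableSet_Icc
    exact Measurable.ite h2 (hl4_meas_amp a ha κ) measurable_const
  have hAB : ∀ l w, ‖A l w‖ ≤ A0 := by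
    intro l w
    simp only [hAdef]
    split_ifs
    · rw [hl4_norm_amp]
      exact hA _
    · rw [norm_zero]
      exact hA0.le
  have hAR : ∀ l w, 1 / s0 + 1 < ‖w‖ → A l w = 0 := by
    intro l w hw
    simp only [hAdef]
    split_ifs with h
    · have h2 : vv κ l.1 (‖w‖ ^ 2) ≤ 1 / 4 := by
        have h3 : 0 < 1 / s0 := by positivity
        have h4 : 1 / s0 ≤ ‖w‖ ^ 2 := by nlinarith
        have h5 : 1 ≤ l.1 * ‖w‖ ^ 2 := by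
          calc (1 : ℝ) = s0 * (1 / s0) := by field_simp
            _ ≤ l.1 * ‖w‖ ^ 2 := mul_le_mul h.1 h4 h3.le (h0.le.trans h.1)
        have h6 : vv κ l.1 (‖w‖ ^ 2) ≤ 0 := by
          unfold vv
          exact div_nonpos_of_nonpos_of_nonneg (by linarith) (by positivity)
        linarith
      unfold amp
      rw [ha.2 _ (Or.inl h2)]
      simp
    · rfl
  have hae := hl4_ae s0 s1 T
  have hLHS : ∫⁻ l : ℝ × ℝ, (∫⁻ x : E 2, ‖op a κ l.1 l.2 G x‖ₑ ^ (4:ℝ)) ∂((muS s0 s1).prod (muT T)) =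
      ∫⁻ l : ℝ × ℝ, (∫⁻ x : E 2, ‖∫ w : E 2, G w * A l w * ex (inner ℝ w x)‖ₑ ^ (4:ℝ))
        ∂((muS s0 s1).prod (muT T)) := by
    apply lintegral_congr_ae
    filter_upwards [hae] with l hl
    unfold op
    simp only [hAdef, if_pos hl]
  rw [hLHS]
  refine (four_linear_param ((muS s0 s1).prod (muT T)) A hAm A0 (1 / s0 + 1) hAB hAR G hG
    hGb).trans ?_
  have hker : ∀ q : E 2 × E 2 × E 2, ∫ l, A l q.1 * A l (q.1 - q.2.1 - q.2.2) *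
        (starRingEnd ℂ) (A l (q.1 - q.2.1)) * (starRingEnd ℂ) (A l (q.1 - q.2.2))
          ∂((muS s0 s1).prod (muT T)) =
      ((T * KI a κ s0 s1 (T * κ) (‖q.1‖ ^ 2) (‖q.1 - q.2.1 - q.2.2‖ ^ 2) (‖q.1 - q.2.1‖ ^ 2)
        (‖q.1 - q.2.2‖ ^ 2) : ℝ) : ℂ) := by
    intro q
    rw [← kernel_formula a ha κ hκ s0 s1 h1 T hT]
    apply integral_congr_ae
    filter_upwards [hae] with l hl
    simp only [hAdef, if_pos hl]
  simp only [hker]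
  have hTκ : 0 < T * κ := mul_pos hT hκ
  have hκ2 : 0 < C1 * κ ^ 2 := by positivity
  have hpt : ∀ q : E 2 × E 2 × E 2,
      ‖((T * KI a κ s0 s1 (T * κ) (‖q.1‖ ^ 2) (‖q.1 - q.2.1 - q.2.2‖ ^ 2) (‖q.1 - q.2.1‖ ^ 2)
        (‖q.1 - q.2.2‖ ^ 2) : ℝ) : ℂ)‖ₑ ≤
      {q : E 2 × E 2 × E 2 | ‖q.1‖ ≤ 2 * (C1 + 1) ∧ ‖q.2.1‖ ≤ 2 * (C1 + 1) ∧
        ‖q.2.2‖ ≤ 2 * (C1 + 1) ∧ |2 * (inner ℝ q.2.1 q.2.2 : ℝ)| ≤ 2 * (C1 + 1) * κ ^ 2}.indicator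
      (fun q => (ENNReal.ofReal T * ENNReal.ofReal (C1 * κ ^ 2) *
        ENNReal.ofReal (T * κ) ^ (-(2 - 2 * δ))) *
        ENNReal.ofReal (|2 * (inner ℝ q.2.1 q.2.2 : ℝ)| / κ ^ 2 +
        |(inner ℝ q.2.1 ((2:ℝ) • q.1 - q.2.1) : ℝ)| *
          |(inner ℝ q.2.2 ((2:ℝ) • q.1 - q.2.2) : ℝ)| / κ ^ 4) ^ (-(2 - 2 * δ))) q := by
    intro q
    obtain ⟨b1, b2, b3⟩ := hKB κ (T * κ) (‖q.1‖ ^ 2) (‖q.1 - q.2.1 - q.2.2‖ ^ 2)
      (‖q.1 - q.2.1‖ ^ 2) (‖q.1 - q.2.2‖ ^ 2) hκ hκ1 hTκ (by positivity) (by positivity)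
      (by positivity) (by positivity)
    have hin := hl4_inner q.1 q.2.1 q.2.2
    have hdd := dd_eq κ q.1 q.2.1 q.2.2
    set K := KI a κ s0 s1 (T * κ) (‖q.1‖ ^ 2) (‖q.1 - q.2.1 - q.2.2‖ ^ 2) (‖q.1 - q.2.1‖ ^ 2)
        (‖q.1 - q.2.2‖ ^ 2) with hK
    set D := DD κ (‖q.1‖ ^ 2) (‖q.1 - q.2.1 - q.2.2‖ ^ 2) (‖q.1 - q.2.1‖ ^ 2)
        (‖q.1 - q.2.2‖ ^ 2) with hD
    by_cases hK0 : K = 0
    · rw [hK0]
      simp
    · obtain ⟨c1, -, c3, c4, c5⟩ := b3 hK0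
      have hn : ∀ v : E 2, ‖v‖ ^ 2 ≤ C1 → ‖v‖ ≤ C1 + 1 := by
        intro v hv
        by_contra hc
        rw [not_le] at hc
        nlinarith [norm_nonneg v]
      have hw := hn _ c1
      have hwy := hn _ c3
      have hwz := hn _ c4
      have hy : ‖q.2.1‖ ≤ 2 * (C1 + 1) := by
        have h2 : q.2.1 = q.1 - (q.1 - q.2.1) := by abel
        rw [h2]
        refine (norm_sub_le _ _).trans ?_
        linarith
      have hz : ‖q.2.2‖ ≤ 2 * (C1 + 1) := by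
        have h2 : q.2.2 = q.1 - (q.1 - q.2.2) := by abel
        rw [h2]
        refine (norm_sub_le _ _).trans ?_
        linarith
      have hX : |2 * (inner ℝ q.2.1 q.2.2 : ℝ)| ≤ 2 * (C1 + 1) * κ ^ 2 := by
        rw [← hin]
        refine c5.trans ?_
        exact mul_le_mul_of_nonneg_right (by linarith) (by positivity)
      rw [Set.indicator_of_mem (show q ∈ {q : E 2 × E 2 × E 2 | ‖q.1‖ ≤ 2 * (C1 + 1) ∧
        ‖q.2.1‖ ≤ 2 * (C1 + 1) ∧ ‖q.2.2‖ ≤ 2 * (C1 + 1) ∧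
        |2 * (inner ℝ q.2.1 q.2.2 : ℝ)| ≤ 2 * (C1 + 1) * κ ^ 2} from
        ⟨by linarith [norm_nonneg q.1], hy, hz, hX⟩)]
      show _ ≤ (ENNReal.ofReal T * ENNReal.ofReal (C1 * κ ^ 2) *
        ENNReal.ofReal (T * κ) ^ (-(2 - 2 * δ))) *
        ENNReal.ofReal (|2 * (inner ℝ q.2.1 q.2.2 : ℝ)| / κ ^ 2 +
        |(inner ℝ q.2.1 ((2:ℝ) • q.1 - q.2.1) : ℝ)| *
          |(inner ℝ q.2.2 ((2:ℝ) • q.1 - q.2.2) : ℝ)| / κ ^ 4) ^ (-(2 - 2 * δ))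
      rw [← hdd]
      have hD0 : 0 ≤ D := by
        rw [hD]
        unfold DD
        positivity
      have hTK : ‖((T * K : ℝ) : ℂ)‖ₑ = ENNReal.ofReal T * ENNReal.ofReal |K| := by
        rw [← ofReal_norm, Complex.norm_real, Real.norm_eq_abs, abs_mul,
          abs_of_pos hT, ENNReal.ofReal_mul hT.le]
      rw [hTK]
      have hpw := hl4_power (e := 2 - 2 * δ) (by linarith) (by linarith) hκ2
        (mul_nonneg hTκ.le hD0) b1 b2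
      rw [ENNReal.ofReal_mul hTκ.le,
        ENNReal.mul_rpow_of_ne_top ENNReal.ofReal_ne_top ENNReal.ofReal_ne_top] at hpw
      calc ENNReal.ofReal T * ENNReal.ofReal |K| ≤ ENNReal.ofReal T *
            (ENNReal.ofReal (C1 * κ ^ 2) * (ENNReal.ofReal (T * κ) ^ (-(2 - 2 * δ)) *
              ENNReal.ofReal D ^ (-(2 - 2 * δ)))) := by gcongr
        _ = _ := by ring
  refine (lintegral_mono hpt).trans ?_
  refine (lintegral_indicator_le _ _).trans ?_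
  rw [lintegral_const_mul' _ _ ?_]
  · refine (mul_le_mul_right (hJB κ hκ hκ1) _).trans (le_of_eq ?_)
    rw [ENNReal.ofReal_rpow_of_pos hTκ]
    have hreal : T * (C1 * κ ^ 2) * (T * κ) ^ (-(2 - 2 * δ)) * κ ^ (4 - δ) =
        C1 * (T ^ (-1 + 2 * δ) * κ ^ (4 + δ)) := by
      rw [Real.mul_rpow hT.le hκ.le]
      have e1 : T ^ (-1 + 2 * δ) = T * T ^ (-(2 - 2 * δ)) := by
        rw [show -1 + 2 * δ = 1 + -(2 - 2 * δ) by ring, Real.rpow_add hT, Real.rpow_one]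
      have e2 : κ ^ (4 + δ) = κ ^ 2 * κ ^ (-(2 - 2 * δ)) * κ ^ (4 - δ) := by
        rw [← Real.rpow_two, ← Real.rpow_add hκ, ← Real.rpow_add hκ]
        congr 1
        ring
      rw [e1, e2]
      ring
    calc ENNReal.ofReal T * ENNReal.ofReal (C1 * κ ^ 2) *
          ENNReal.ofReal ((T * κ) ^ (-(2 - 2 * δ))) * (C2 * ENNReal.ofReal (κ ^ (4 - δ))) =
        C2 * (ENNReal.ofReal T * ENNReal.ofReal (C1 * κ ^ 2) *
          ENNReal.ofReal ((T * κ) ^ (-(2 - 2 * δ))) * ENNReal.ofReal (κ ^ (4 - δ))) := by ring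
      _ = C2 * ENNReal.ofReal (T * (C1 * κ ^ 2) * (T * κ) ^ (-(2 - 2 * δ)) * κ ^ (4 - δ)) := by
        rw [ENNReal.ofReal_mul (q := κ ^ (4 - δ)) (by positivity),
          ENNReal.ofReal_mul (q := (T * κ) ^ (-(2 - 2 * δ))) (by positivity),
          ENNReal.ofReal_mul (q := C1 * κ ^ 2) hT.le]
      _ = C2 * (ENNReal.ofReal C1 * ENNReal.ofReal (T ^ (-1 + 2 * δ) * κ ^ (4 + δ))) := by
        rw [hreal, ENNReal.ofReal_mul hC1.le]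
      _ = _ := by ring
  · rw [ENNReal.ofReal_rpow_of_pos hTκ]
    exact ENNReal.mul_ne_top (ENNReal.mul_ne_top ENNReal.ofReal_ne_top ENNReal.ofReal_ne_top)
      ENNReal.ofReal_ne_top

end Pool.Agent.MST
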