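import Pool.Agent.MST.Defs

namespace Pool.Agent.MST

open MeasureTheory Set Pool.Agent.MP_6cbfb8_an
open scoped ENNReal Real

lemma hlf_norm_ex (a : ℝ) : ‖ex a‖ = 1 := by
  unfold ex
  rw [Complex.norm_exp_ofReal_mul_I]

lemma hlf_ex_add (a b : ℝ) : ex (a + b) = ex a * ex b := by
  unfold ex
  rw [← Complex.exp_add]
  congr 1
  push_cast
  ring

lemma hlf_measurable_ex : Measurable ex := by
  unfold ex
  fun_prop

/-- bounded with bounded support is integrable -/
lemma hlf_integrable {m : ℕ} {f : E m → ℂ} (hf : Measurable f) {B R : ℝ}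
    (hB : ∀ w, ‖f w‖ ≤ B) (hR : ∀ w, R < ‖w‖ → f w = 0) : Integrable f := by
  have h1 : IntegrableOn f (Metric.closedBall 0 R) :=
    Measure.integrableOn_of_bounded (M := B) measure_closedBall_lt_top.ne hf.aestronglyMeasurable
      (ae_of_all _ hB)
  rw [integrableOn_iff_integrable_of_support_subset] at h1
  · exact h1
  · intro w hw
    rw [mem_closedBall_zero_iff]
    by_contra hcon
    exact hw (hR w (not_le.mp hcon))

/-- the integrand of the convolution -/
lemma hlf_conv_integrable {m : ℕ} {f g : E m → ℂ} (hf : Integrable f) (hg : Integrable g) :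
    Integrable (fun p : E m × E m => f p.2 * g (p.1 - p.2)) (volume.prod volume) :=
  hf.convolution_integrand (ContinuousLinearMap.mul ℝ ℂ) hg

/-- squaring a Fourier integral -/
lemma hlf_sq {m : ℕ} {f : E m → ℂ} (hf : Integrable f) (x : E m) :
    (∫ w : E m, f w * ex (inner ℝ w x)) ^ 2 =
      ∫ u : E m, (∫ w : E m, f w * f (u - w)) * ex (inner ℝ u x) := by
  have hexm : Measurable fun w : E m => ex (inner ℝ w x) :=
    hlf_measurable_ex.comp (by fun_prop)
  have hfe : Integrable fun w : E m => f w * ex (inner ℝ w x) :=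
    hf.mul_bdd (c := 1) hexm.aestronglyMeasurable (ae_of_all _ fun w => (hlf_norm_ex _).le)
  rw [sq, ← integral_mul_const]
  have h1 : ∀ w : E m, f w * ex (inner ℝ w x) * ∫ w' : E m, f w' * ex (inner ℝ w' x) =
      ∫ u : E m, (f w * f (u - w)) * ex (inner ℝ u x) := by
    intro w
    rw [← integral_sub_right_eq_self (fun w' : E m => f w' * ex (inner ℝ w' x)) w,
      ← integral_const_mul]
    refine integral_congr_ae (ae_of_all _ fun u => ?_)
    have h2 : ex (inner ℝ u x) = ex (inner ℝ w x) * ex (inner ℝ (u - w) x) := by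
      rw [← hlf_ex_add, ← inner_add_left, add_sub_cancel]
    simp only
    rw [h2]
    ring
  simp_rw [h1]
  rw [integral_integral_swap]
  · refine integral_congr_ae (ae_of_all _ fun u => ?_)
    simp only
    rw [integral_mul_const]
  · have h3 := (hlf_conv_integrable hf hf).swap
    have h4 : Integrable (fun p : E m × E m => (f p.1 * f (p.2 - p.1)) * ex (inner ℝ p.2 x))
        (volume.prod volume) := by
      refine Integrable.mul_bdd (c := 1) h3 ?_ (ae_of_all _ fun p => (hlf_norm_ex _).le)
      exact (hlf_measurable_ex.comp (by fun_prop)).aestronglyMeasurable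
    exact h4

theorem hlf_h_int {m : ℕ} {f : E m → ℂ} (hf : Integrable f) :
    Integrable fun u : E m => ∫ w : E m, f w * f (u - w) :=
  (hlf_conv_integrable hf hf).integral_prod_left

/-- the four-linear form -/
theorem hlf_form {m : ℕ} {f : E m → ℂ} (hf : Measurable f) {B R : ℝ}
    (hB : ∀ w, ‖f w‖ ≤ B) (hR : ∀ w, R < ‖w‖ → f w = 0) :
    ∫ q : E m × E m × E m, f q.1 * f (q.1 - q.2.1 - q.2.2) *
        (starRingEnd ℂ) (f (q.1 - q.2.1)) * (starRingEnd ℂ) (f (q.1 - q.2.2)) =
      ∫ u : E m, (∫ w : E m, f w * f (u - w)) * (starRingEnd ℂ) (∫ w : E m, f w * f (u - w)) := by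
  have hfi := hlf_integrable hf hB hR
  have hfc : Integrable fun w => (starRingEnd ℂ) (f w) := by
    refine hlf_integrable (B := B) (R := R) (Complex.continuous_conj.measurable.comp hf) ?_ ?_
    · intro w; rw [RCLike.norm_conj]; exact hB w
    · intro w hw; rw [hR w hw, map_zero]
  have hcm : Measurable fun w => (starRingEnd ℂ) (f w) := Complex.continuous_conj.measurable.comp hf
  have hB0 : 0 ≤ B := (norm_nonneg _).trans (hB 0)
  set Φ : E m × E m × E m → ℂ := fun q => f q.1 * f (q.1 - q.2.1 - q.2.2) *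
        (starRingEnd ℂ) (f (q.1 - q.2.1)) * (starRingEnd ℂ) (f (q.1 - q.2.2)) with hΦ
  have hΦm : Measurable Φ := by
    have m1 : Measurable fun q : E m × E m × E m => q.1 := by fun_prop
    have m2 : Measurable fun q : E m × E m × E m => q.1 - q.2.1 - q.2.2 := by fun_prop
    have m3 : Measurable fun q : E m × E m × E m => q.1 - q.2.1 := by fun_prop
    have m4 : Measurable fun q : E m × E m × E m => q.1 - q.2.2 := by fun_prop
    exact (((hf.comp m1).mul (hf.comp m2)).mul (hcm.comp m3)).mul (hcm.comp m4)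
  have hΦb : ∀ q, ‖Φ q‖ ≤ B * B * B * B := by
    intro q
    simp only [hΦ, norm_mul, RCLike.norm_conj]
    have h1 := hB q.1
    have h2 := hB (q.1 - q.2.1 - q.2.2)
    have h3 := hB (q.1 - q.2.1)
    have h4 := hB (q.1 - q.2.2)
    gcongr
  have hΦi : Integrable Φ (volume.prod (volume.prod volume)) := by
    have h1 : IntegrableOn Φ (Metric.closedBall 0 R ×ˢ (Metric.closedBall 0 (2 * R) ×ˢ
        Metric.closedBall 0 (2 * R))) (volume.prod (volume.prod volume)) := by
      refine Measure.integrableOn_of_bounded (M := B * B * B * B) ?_ hΦm.aestronglyMeasurable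
        (ae_of_all _ hΦb)
      rw [Measure.prod_prod, Measure.prod_prod]
      exact (ENNReal.mul_lt_top measure_closedBall_lt_top
        (ENNReal.mul_lt_top measure_closedBall_lt_top measure_closedBall_lt_top)).ne
    rw [integrableOn_iff_integrable_of_support_subset] at h1
    · exact h1
    · intro q hq
      have hz : ∀ v : E m, f v ≠ 0 → ‖v‖ ≤ R := fun v hv => by
        by_contra hcon
        exact hv (hR v (not_le.mp hcon))
      have hq' : Φ q ≠ 0 := hq
      have a1 : ‖q.1‖ ≤ R := hz _ fun h => hq' (by simp [hΦ, h])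
      have a3 : ‖q.1 - q.2.1‖ ≤ R := hz _ fun h => hq' (by simp [hΦ, h])
      have a4 : ‖q.1 - q.2.2‖ ≤ R := hz _ fun h => hq' (by simp [hΦ, h])
      refine ⟨?_, ?_, ?_⟩
      · rw [mem_closedBall_zero_iff]; exact a1
      · rw [mem_closedBall_zero_iff]
        calc ‖q.2.1‖ = ‖q.1 - (q.1 - q.2.1)‖ := by rw [sub_sub_cancel]
          _ ≤ ‖q.1‖ + ‖q.1 - q.2.1‖ := norm_sub_le _ _
          _ ≤ 2 * R := by linarith
      · rw [mem_closedBall_zero_iff]
        calc ‖q.2.2‖ = ‖q.1 - (q.1 - q.2.2)‖ := by rw [sub_sub_cancel]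
          _ ≤ ‖q.1‖ + ‖q.1 - q.2.2‖ := norm_sub_le _ _
          _ ≤ 2 * R := by linarith
  -- sections
  have hsec : ∀ w : E m, Integrable (fun p : E m × E m => Φ (w, p)) (volume.prod volume) := by
    intro w
    have h1 : IntegrableOn (fun p : E m × E m => Φ (w, p)) (Metric.closedBall w R ×ˢ
        Metric.closedBall w R) (volume.prod volume) := by
      refine Measure.integrableOn_of_bounded (M := B * B * B * B) ?_
        (hΦm.comp measurable_prodMk_left).aestronglyMeasurable (ae_of_all _ fun p => hΦb _)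
      rw [Measure.prod_prod]
      exact (ENNReal.mul_lt_top measure_closedBall_lt_top measure_closedBall_lt_top).ne
    rw [integrableOn_iff_integrable_of_support_subset] at h1
    · exact h1
    · intro p hp
      have hz : ∀ v : E m, f v ≠ 0 → ‖v‖ ≤ R := fun v hv => by
        by_contra hcon
        exact hv (hR v (not_le.mp hcon))
      have hq' : Φ (w, p) ≠ 0 := hp
      have a3 : ‖w - p.1‖ ≤ R := hz _ fun h => hq' (by simp [hΦ, h])
      have a4 : ‖w - p.2‖ ≤ R := hz _ fun h => hq' (by simp [hΦ, h])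
      refine ⟨?_, ?_⟩
      · rw [Metric.mem_closedBall, dist_comm, dist_eq_norm]; exact a3
      · rw [Metric.mem_closedBall, dist_comm, dist_eq_norm]; exact a4
  have e1 : ∫ q : E m × E m × E m, Φ q = ∫ w : E m, ∫ y : E m, ∫ z : E m, Φ (w, y, z) := by
    have h1 : ∫ q : E m × E m × E m, Φ q = ∫ w : E m, ∫ p : E m × E m, Φ (w, p) := by
      exact integral_prod Φ hΦi
    rw [h1]
    refine integral_congr_ae (ae_of_all _ fun w => ?_)
    exact integral_prod (fun p : E m × E m => Φ (w, p)) (hsec w)
  -- the inner integral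
  set h : E m → ℂ := fun u => ∫ w : E m, f w * f (u - w) with hh
  have hconj : ∀ u, (starRingEnd ℂ) (h u) =
      ∫ w' : E m, (starRingEnd ℂ) (f w') * (starRingEnd ℂ) (f (u - w')) := by
    intro u
    simp only [hh]
    rw [← integral_conj]
    refine integral_congr_ae (ae_of_all _ fun w => ?_)
    simp only [map_mul]
  have e2 : ∀ w : E m, ∫ y : E m, ∫ z : E m, Φ (w, y, z) =
      f w * ∫ u : E m, f (u - w) * (starRingEnd ℂ) (h u) := by
    intro w
    have i1 : ∀ y : E m, ∫ z : E m, Φ (w, y, z) = f w * ((starRingEnd ℂ) (f (w - y)) *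
        ∫ u : E m, f (u - w) * (starRingEnd ℂ) (f (u - (w - y)))) := by
      intro y
      rw [← integral_sub_left_eq_self (fun u : E m => f (u - w) *
        (starRingEnd ℂ) (f (u - (w - y)))) volume (w + w - y), ← integral_const_mul,
        ← integral_const_mul]
      refine integral_congr_ae (ae_of_all _ fun z => ?_)
      simp only [hΦ]
      have b1 : w + w - y - z - w = w - y - z := by abel
      have b2 : w + w - y - z - (w - y) = w - z := by abel
      rw [b1, b2]
      ring
    simp_rw [i1]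
    rw [integral_const_mul]
    congr 1
    rw [integral_sub_left_eq_self (fun w' : E m => (starRingEnd ℂ) (f w') *
        ∫ u : E m, f (u - w) * (starRingEnd ℂ) (f (u - w'))) volume w]
    have i2 : ∀ w' : E m, (starRingEnd ℂ) (f w') *
        ∫ u : E m, f (u - w) * (starRingEnd ℂ) (f (u - w')) =
        ∫ u : E m, f (u - w) * ((starRingEnd ℂ) (f w') * (starRingEnd ℂ) (f (u - w'))) := by
      intro w'
      rw [← integral_const_mul]
      refine integral_congr_ae (ae_of_all _ fun u => ?_)
      simp only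
      ring
    simp_rw [i2]
    rw [integral_integral_swap]
    · refine integral_congr_ae (ae_of_all _ fun u => ?_)
      simp only
      rw [integral_const_mul, hconj]
    · have h3 := (hlf_conv_integrable hfc hfc).swap
      have h4 : Integrable (fun p : E m × E m => f (p.2 - w) * ((starRingEnd ℂ) (f p.1) *
          (starRingEnd ℂ) (f (p.2 - p.1)))) (volume.prod volume) := by
        refine Integrable.bdd_mul (c := B) h3 ?_ (ae_of_all _ fun p => hB _)
        exact (hf.comp (by fun_prop)).aestronglyMeasurable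
      exact h4
  rw [e1]
  simp_rw [e2]
  -- last swap
  have e3 : ∀ w : E m, f w * ∫ u : E m, f (u - w) * (starRingEnd ℂ) (h u) =
      ∫ u : E m, (f w * f (u - w)) * (starRingEnd ℂ) (h u) := by
    intro w
    rw [← integral_const_mul]
    refine integral_congr_ae (ae_of_all _ fun u => ?_)
    simp only
    ring
  simp_rw [e3]
  rw [integral_integral_swap]
  · refine integral_congr_ae (ae_of_all _ fun u => ?_)
    simp only
    rw [integral_mul_const]
  · have h3 := (hlf_conv_integrable hfi hfi).swap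
    have hhb : ∀ u, ‖h u‖ ≤ B * ∫ w : E m, ‖f w‖ := by
      intro u
      simp only [hh]
      refine (norm_integral_le_integral_norm _).trans ?_
      rw [← integral_const_mul]
      refine integral_mono_of_nonneg (ae_of_all _ fun w => norm_nonneg _)
        (hfi.norm.const_mul _) (ae_of_all _ fun w => ?_)
      simp only [norm_mul]
      rw [mul_comm]
      exact mul_le_mul_of_nonneg_right (hB _) (norm_nonneg _)
    have hhm : AEStronglyMeasurable h volume := (hlf_h_int hfi).aestronglyMeasurable
    have h4 : Integrable (fun p : E m × E m => (f p.1 * f (p.2 - p.1)) *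
        (starRingEnd ℂ) (h p.2)) (volume.prod volume) := by
      refine Integrable.mul_bdd (c := B * ∫ w : E m, ‖f w‖) h3 ?_ (ae_of_all _ fun p => ?_)
      · exact (Complex.continuous_conj.comp_aestronglyMeasurable hhm).comp_snd
      · rw [RCLike.norm_conj]; exact hhb _
    exact h4

/-
ROW LF (1.5 h). The L^4 norm of a Fourier transform as a four-linear form (Plancherel).
Let f be measurable, bounded by B, zero for ‖w‖ > R. Put h u = ∫ w, f w * f (u - w); h is bounded
and zero for ‖u‖ > 2R, so integrable and in L². By Fubini (integral_prod, change of variables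
u = w + w', Haar invariance) (∫ w, f w * ex (inner w x)) ^ 2 = ∫ u, h u * ex (inner u x).
`bessel` (Bessel.lean) with Ω = E m, Ψ = id, A = 1 gives
∫⁻ x ‖∫ u, h u * ex (inner u x)‖ₑ ^ 2 ≤ ∫⁻ u, ‖h u‖ₑ ^ 2 (this is ≤ in Plancherel, all we need),
‖z‖ₑ ^ 4 = ‖z ^ 2‖ₑ ^ 2. Finally ‖h u‖² = ∫∫ f w f (u-w) conj f w' conj f (u-w') dw dw', integrate over u
and substitute w' = w - y, u = 2w - y - z (for fixed w the map (y,z) ↦ (w', u) preserves the
measure: w' = w - y is a reflection/translation, then u = 2w - y - z in z): the integrand becomes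
f w * f (w - y - z) * conj f (w - y) * conj f (w - z).
-/
theorem four_linear {m : ℕ} (f : E m → ℂ) (hf : Measurable f) (B R : ℝ)
    (hB : ∀ w, ‖f w‖ ≤ B) (hR : ∀ w, R < ‖w‖ → f w = 0) :
    ∫⁻ x : E m, ‖∫ w : E m, f w * ex (inner ℝ w x)‖ₑ ^ (4:ℝ) ≤
      ENNReal.ofReal (∫ q : E m × E m × E m, f q.1 * f (q.1 - q.2.1 - q.2.2) *
        (starRingEnd ℂ) (f (q.1 - q.2.1)) * (starRingEnd ℂ) (f (q.1 - q.2.2))).re := by
  have hfi := hlf_integrable hf hB hR
  rw [hlf_form hf hB hR]
  set h : E m → ℂ := fun u => ∫ w : E m, f w * f (u - w) with hh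
  have hhi : Integrable h := hlf_h_int hfi
  have hhb : ∀ u, ‖h u‖ ≤ B * ∫ w : E m, ‖f w‖ := by
    intro u
    simp only [hh]
    refine (norm_integral_le_integral_norm _).trans ?_
    rw [← integral_const_mul]
    refine integral_mono_of_nonneg (ae_of_all _ fun w => norm_nonneg _)
      (hfi.norm.const_mul _) (ae_of_all _ fun w => ?_)
    simp only [norm_mul]
    rw [mul_comm]
    exact mul_le_mul_of_nonneg_right (hB _) (norm_nonneg _)
  have hb := bessel (volume : Measure (E m)) (Ψ := (id : E m → E m)) measurable_id 1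
    ENNReal.one_ne_top (fun φ _ => by simp) h hhi
  have h1 : ∫⁻ x : E m, ‖∫ w : E m, f w * ex (inner ℝ w x)‖ₑ ^ (4:ℝ) =
      ∫⁻ ξ : E m, ‖∫ w, h w * Complex.exp (((-(2 * π * inner ℝ (id w) ξ) : ℝ) : ℂ) *
        Complex.I)‖ₑ ^ (2:ℝ) := by
    refine lintegral_congr fun x => ?_
    have h2 := hlf_sq hfi x
    have h3 : ‖∫ w : E m, f w * ex (inner ℝ w x)‖ₑ ^ (4:ℝ) =
        ‖(∫ w : E m, f w * ex (inner ℝ w x)) ^ 2‖ₑ ^ (2:ℝ) := by
      rw [enorm_pow, ← ENNReal.rpow_natCast, ← ENNReal.rpow_mul]
      norm_num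
    rw [h3, h2]
    rfl
  rw [h1]
  refine hb.trans ?_
  rw [one_mul]
  have h4 : ∀ u : E m, h u * (starRingEnd ℂ) (h u) = ((‖h u‖ ^ 2 : ℝ) : ℂ) := by
    intro u
    rw [Complex.mul_conj, Complex.normSq_eq_norm_sq]
  have h5 : ∫ u : E m, (∫ w : E m, f w * f (u - w)) *
      (starRingEnd ℂ) (∫ w : E m, f w * f (u - w)) = ∫ u : E m, ((‖h u‖ ^ 2 : ℝ) : ℂ) :=
    integral_congr_ae (ae_of_all _ h4)
  rw [h5, integral_complex_ofReal, Complex.ofReal_re]
  have hsq : Integrable fun u : E m => ‖h u‖ ^ 2 := by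
    have : Integrable fun u : E m => ‖h u‖ * ‖h u‖ :=
      Integrable.bdd_mul (c := B * ∫ w : E m, ‖f w‖) hhi.norm hhi.norm.aestronglyMeasurable
        (ae_of_all _ fun u => by rw [norm_norm]; exact hhb u)
    refine this.congr (ae_of_all _ fun u => ?_)
    simp only
    ring
  rw [ofReal_integral_eq_lintegral_ofReal hsq (ae_of_all _ fun u => sq_nonneg _)]
  refine le_of_eq (lintegral_congr fun u => ?_)
  rw [ENNReal.ofReal_pow (norm_nonneg _), ofReal_norm, ← ENNReal.rpow_natCast]
  norm_num

end Pool.Agent.MST
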