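import Pool.Agent.MST.KB2
import Pool.Agent.MST.RM
import Pool.Agent.MST.O2
import Pool.Agent.MST.LP

namespace Pool.Agent.MST

open MeasureTheory Set Pool.Agent.MP_6cbfb8_an
open scoped ENNReal Real

theorem hlt_norm_ex (x : ℝ) : ‖ex x‖ = 1 := by
  unfold ex
  exact Complex.norm_exp_ofReal_mul_I _

theorem hlt_norm_amp {m : ℕ} (a : ℝ → ℝ) (N : Mat m) (t : ℝ) (w : E m) :
    ‖amp2 a N t w‖ = |a (vN N w)| := by
  unfold amp2
  rw [norm_mul, hlt_norm_ex, mul_one, Complex.norm_real, Real.norm_eq_abs]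

theorem hlt_meas_amp {m : ℕ} (c0 : ℝ) (a : ℝ → ℝ) (ha : Cut2 c0 a) :
    Measurable fun p : (Mat m × ℝ) × E m => amp2 a p.1.1 p.1.2 p.2 := by
  have hc : Continuous a := (ha.1 0).continuous
  have hmv : Continuous fun p : (Mat m × ℝ) × E m => mv p.1.1 p.2 :=
    continuous_mv.comp ((continuous_fst.comp continuous_fst).prodMk continuous_snd)
  have hv : Continuous fun p : (Mat m × ℝ) × E m => vN p.1.1 p.2 := by
    unfold vN
    exact continuous_const.sub (hmv.norm.pow 2)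
  have hex : Continuous ex := by
    unfold ex
    fun_prop
  unfold amp2
  refine Continuous.measurable ?_
  refine Continuous.mul ?_ ?_
  · exact Complex.continuous_ofReal.comp (hc.comp hv)
  · apply hex.comp
    exact (continuous_snd.comp continuous_fst).mul (Real.continuous_sqrt.comp hv)

theorem hlt_power {C0 K x e M : ℝ} (he : 0 ≤ e) (heM : e ≤ M) (hC : 0 < C0) (hx : 0 ≤ x)
    (h1 : K ≤ C0) (h2 : 0 < x → K ≤ C0 * x ^ (-M)) (he0 : x = 0 → 0 < e) :
    ENNReal.ofReal K ≤ ENNReal.ofReal C0 * ENNReal.ofReal x ^ (-e) := by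
  rcases eq_or_lt_of_le hx with h0 | h0
  · have he' := he0 h0.symm
    rw [← h0, ENNReal.ofReal_zero, ENNReal.zero_rpow_of_neg (by linarith),
      ENNReal.mul_top (by rw [Ne, ENNReal.ofReal_eq_zero, not_le]; exact hC)]
    exact le_top
  · rw [ENNReal.ofReal_rpow_of_pos h0, ← ENNReal.ofReal_mul hC.le]
    apply ENNReal.ofReal_le_ofReal
    rcases le_total x 1 with hx1 | hx1
    · have h3 : 1 ≤ x ^ (-e) := Real.one_le_rpow_of_pos_of_le_one_of_nonpos h0 hx1 (by linarith)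
      nlinarith
    · have h3 : x ^ (-M) ≤ x ^ (-e) := Real.rpow_le_rpow_of_exponent_le hx1 (by linarith)
      exact (h2 h0).trans (mul_le_mul_of_nonneg_left h3 hC.le)

theorem hlt_muJ (m : ℕ) (T : ℝ) (hT : 0 < T) :
    (volume : Measure ℝ).restrict {t : ℝ | T ≤ |t| ∧ |t| ≤ 2 * T} ≤
      ENNReal.ofReal (Real.exp (4 * π)) • muJ m T := by
  have hS : MeasurableSet {t : ℝ | T ≤ |t| ∧ |t| ≤ 2 * T} :=
    (measurableSet_le measurable_const measurable_norm).inter
      (measurableSet_le measurable_norm measurable_const)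
  have hm : Measurable fun t : ℝ => ENNReal.ofReal (etaJ m (t / T)) := by
    unfold etaJ
    fun_prop
  rw [muJ, ← withDensity_smul _ hm, ← withDensity_indicator_one hS]
  apply withDensity_mono
  refine Filter.Eventually.of_forall fun t => ?_
  by_cases ht : t ∈ {t : ℝ | T ≤ |t| ∧ |t| ≤ 2 * T}
  · rw [Set.indicator_of_mem ht]
    simp only [Pi.one_apply, Pi.smul_apply, smul_eq_mul]
    rw [← ENNReal.ofReal_mul (Real.exp_pos _).le, ← ENNReal.ofReal_one]
    apply ENNReal.ofReal_le_ofReal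
    unfold etaJ
    have h1 : (1 : ℝ) ≤ |t / T| := by
      rw [abs_div, abs_of_pos hT, le_div_iff₀ hT, one_mul]
      exact ht.1
    have h2 : |t / T| ≤ 2 := by
      rw [abs_div, abs_of_pos hT, div_le_iff₀ hT]
      exact ht.2
    have h3 : (1 : ℝ) ≤ (t / T) ^ 2 := by
      rw [← sq_abs]
      nlinarith
    have h4 : (t / T) ^ 2 ≤ 4 := by
      rw [← sq_abs]
      nlinarith [abs_nonneg (t / T)]
    have h5 : (1 : ℝ) ≤ (t / T) ^ (2 * m) := by
      rw [pow_mul]
      exact one_le_pow₀ h3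
    have h6 : Real.exp (4 * π) * Real.exp (-(π * (t / T) ^ 2)) ≥ 1 := by
      rw [← Real.exp_add]
      apply Real.one_le_exp
      nlinarith [Real.pi_pos]
    calc (1 : ℝ) ≤ Real.exp (4 * π) * Real.exp (-(π * (t / T) ^ 2)) := h6
      _ ≤ (t / T) ^ (2 * m) * (Real.exp (4 * π) * Real.exp (-(π * (t / T) ^ 2))) :=
        le_mul_of_one_le_left (by positivity) h5
      _ = _ := by ring
  · rw [Set.indicator_of_notMem ht]
    exact zero_le

/-
ROW LT (1.5 h). L^4 bound near N0. Take ρ, φ, C, R from kernel_bound2. four_linear_param with Λ = Mat m × ℝ,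
μ = (volume.withDensity (ofReal φ)).prod (muJ m T) (finite: φ ≤ 1 with support in a ball; finite_muJ), A l w = if l.1 ∈ closedBall N0 (2ρ) then
amp2 a l.1 l.2 w else 0 (bounded, zero for ‖w‖ > R, equal to amp2 for μ-a.e. l since φ = 0 outside the ball): the right side is
∫⁻ q ‖K2 a φ T q.1 q.2.1 q.2.2‖ₑ; K2 ≠ 0 forces ‖w‖,‖w-y‖,‖w-z‖ ≤ R for some l, so ‖w‖,‖y‖,‖z‖ ≤ 2R. There
|K2| ≤ C T min(1, (T‖y‖‖z‖)^(-m)) ≤ C T (T‖y‖‖z‖)^(-(m-δ)) (0 < δ < 1 ≤ m), integrate with triple_m (η = δ): ≤ C T^(1-m+δ).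
Lower bound for the weights: φ = 1 on closedBall N0 ρ, etaJ m (t/T) ≥ exp(-4π) for T ≤ |t| ≤ 2T.
-/
theorem L4_local (m : ℕ) (hm : 1 ≤ m) (N0 : Mat m) (h0 : Function.Injective (mv N0))
    (c0 : ℝ) (hc : 0 < c0) (a : ℝ → ℝ) (ha : Cut2 c0 a) : ∃ ρ : ℝ, 0 < ρ ∧
    (∀ N ∈ Metric.closedBall N0 ρ, Function.Injective (mv N)) ∧
    (∃ R : ℝ, 0 < R ∧ ∀ N ∈ Metric.closedBall N0 ρ, ∀ w : E m, a (vN N w) ≠ 0 → ‖w‖ ≤ R) ∧
    ∀ δ : ℝ, 0 < δ → δ < 1 → ∃ C : ℝ≥0∞, C ≠ ∞ ∧ ∀ T : ℝ, 0 < T →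
    ∀ G : E m → ℂ, Measurable G → (∀ w, ‖G w‖ ≤ 1) →
    ∫⁻ N in Metric.closedBall N0 ρ, ∫⁻ t in {t : ℝ | T ≤ |t| ∧ |t| ≤ 2 * T},
      ∫⁻ x : E m, ‖op2 a N t G x‖ₑ ^ (4:ℝ) ≤ C * ENNReal.ofReal (T ^ (1 - (m : ℝ) + δ)) := by
  classical
  obtain ⟨ρ, hρ, φ, hφs, hφ0, hφ1, hφin, hφout, hinj, C, R, hC, hR, hRs, hK⟩ :=
    kernel_bound2 m hm N0 h0 c0 hc a ha
  have hsub : Metric.closedBall N0 ρ ⊆ Metric.closedBall N0 (2 * ρ) :=
    Metric.closedBall_subset_closedBall (by linarith)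
  refine ⟨ρ, hρ, fun N hN => hinj N (hsub hN), ⟨R, hR, fun N hN => hRs N (hsub hN)⟩, ?_⟩
  intro δ hδ hδ1
  have htri := triple_m m hm δ (2 * R) hδ
  set I3 := ∫⁻ q in {q : E m × E m × E m | ‖q.1‖ ≤ 2 * R ∧ ‖q.2.1‖ ≤ 2 * R ∧ ‖q.2.2‖ ≤ 2 * R},
      ENNReal.ofReal (‖q.2.1‖ * ‖q.2.2‖) ^ (δ - m) with hI3
  have hmr : (1 : ℝ) ≤ m := by exact_mod_cast hm
  -- bound of the amplitude
  have hac : Continuous a := (ha.1 0).continuous
  obtain ⟨B0, hB0⟩ := isCompact_Icc.exists_bound_of_continuousOn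
    (hac.continuousOn (s := Icc c0 1))
  set B : ℝ := max B0 0 with hBdef
  have hvN : ∀ (N : Mat m) (w : E m), vN N w ≤ 1 := by
    intro N w
    unfold vN
    have := sq_nonneg ‖mv N w‖
    linarith
  have hB : ∀ (N : Mat m) (w : E m), |a (vN N w)| ≤ B := by
    intro N w
    by_cases h : vN N w ≤ c0
    · rw [ha.2 _ h, abs_zero]
      exact le_max_right _ _
    · have := hB0 (vN N w) ⟨(not_le.1 h).le, hvN N w⟩
      rw [Real.norm_eq_abs] at this
      exact this.trans (le_max_left _ _)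
  have hφc : Continuous φ := (hφs 0).continuous
  have hφm : Measurable fun N => ENNReal.ofReal (φ N) :=
    ENNReal.measurable_ofReal.comp hφc.measurable
  refine ⟨ENNReal.ofReal (Real.exp (4 * π)) * (ENNReal.ofReal C * I3),
    ENNReal.mul_ne_top ENNReal.ofReal_ne_top (ENNReal.mul_ne_top ENNReal.ofReal_ne_top htri.ne),
    ?_⟩
  intro T hT G hG hGb
  -- the measure
  set ν : Measure (Mat m) := (volume : Measure (Mat m)).withDensity
    (fun N => ENNReal.ofReal (φ N)) with hν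
  have hfinν : IsFiniteMeasure ν := by
    refine ⟨?_⟩
    rw [hν, withDensity_apply _ MeasurableSet.univ, Measure.restrict_univ]
    have h1 : ∀ N, ENNReal.ofReal (φ N) ≤
        (Metric.closedBall N0 (2 * ρ)).indicator (fun _ => (1 : ℝ≥0∞)) N := by
      intro N
      by_cases hN : N ∈ Metric.closedBall N0 (2 * ρ)
      · rw [Set.indicator_of_mem hN]
        exact ENNReal.ofReal_le_one.2 (hφ1 N)
      · rw [Set.indicator_of_notMem hN, hφout N hN, ENNReal.ofReal_zero]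
    refine (lintegral_mono h1).trans_lt ?_
    rw [lintegral_indicator Metric.isClosed_closedBall.measurableSet, setLIntegral_const,
      one_mul]
    exact (isCompact_closedBall _ _).measure_lt_top
  have hfinJ : IsFiniteMeasure (muJ m T) := finite_muJ m T hT
  set μ : Measure (Mat m × ℝ) := ν.prod (muJ m T) with hμ
  have hae1 : ∀ᵐ N ∂ν, N ∈ Metric.closedBall N0 (2 * ρ) := by
    rw [hν, ae_withDensity_iff hφm]
    refine Filter.Eventually.of_forall fun N hN => ?_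
    by_contra hcon
    apply hN
    rw [hφout N hcon, ENNReal.ofReal_zero]
  have hae : ∀ᵐ l ∂μ, l.1 ∈ Metric.closedBall N0 (2 * ρ) :=
    Measure.quasiMeasurePreserving_fst.ae hae1
  set A : Mat m × ℝ → E m → ℂ := fun l w =>
    if l.1 ∈ Metric.closedBall N0 (2 * ρ) then amp2 a l.1 l.2 w else 0 with hAdef
  have hAm : Measurable (Function.uncurry A) := by
    have h2 : MeasurableSet {p : (Mat m × ℝ) × E m | p.1.1 ∈ Metric.closedBall N0 (2 * ρ)} :=
      measurable_fst.fst Metric.isClosed_closedBall.measurableSet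
    exact Measurable.ite h2 (hlt_meas_amp c0 a ha) measurable_const
  have hAB : ∀ l w, ‖A l w‖ ≤ B := by
    intro l w
    simp only [hAdef]
    split_ifs
    · rw [hlt_norm_amp]
      exact hB _ _
    · rw [norm_zero]
      exact le_max_right _ _
  have hAR : ∀ l w, R < ‖w‖ → A l w = 0 := by
    intro l w hw
    simp only [hAdef]
    split_ifs with h
    · have h1 : a (vN l.1 w) = 0 := by
        by_contra hne
        exact absurd (hRs l.1 h w hne) (not_le.2 hw)
      unfold amp2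
      rw [h1]
      simp
    · rfl
  -- the weights
  set g : Mat m × ℝ → ℝ≥0∞ := fun l => ∫⁻ x : E m, ‖op2 a l.1 l.2 G x‖ₑ ^ (4:ℝ) with hg
  have hgm : Measurable g := by
    have h1 : Measurable fun p : (Mat m × ℝ) × E m => ‖op2 a p.1.1 p.1.2 G p.2‖ₑ ^ (4:ℝ) :=
      (((measurable_op2 c0 a ha G hG).comp (measurable_fst.fst.prodMk
        (measurable_fst.snd.prodMk measurable_snd))).enorm).pow_const _
    exact h1.lintegral_prod_right'
  have hrestr : (volume : Measure (Mat m)).restrict (Metric.closedBall N0 ρ) ≤ ν := by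
    rw [hν, ← withDensity_indicator_one Metric.isClosed_closedBall.measurableSet]
    apply withDensity_mono
    refine Filter.Eventually.of_forall fun N => ?_
    by_cases hN : N ∈ Metric.closedBall N0 ρ
    · rw [Set.indicator_of_mem hN]
      change (1 : ℝ≥0∞) ≤ ENNReal.ofReal (φ N)
      rw [hφin N hN, ENNReal.ofReal_one]
    · rw [Set.indicator_of_notMem hN]
      exact zero_le
  have hstep1 : ∫⁻ N in Metric.closedBall N0 ρ, ∫⁻ t in {t : ℝ | T ≤ |t| ∧ |t| ≤ 2 * T},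
      ∫⁻ x : E m, ‖op2 a N t G x‖ₑ ^ (4:ℝ) ≤
      ENNReal.ofReal (Real.exp (4 * π)) * ∫⁻ l, g l ∂μ := by
    calc ∫⁻ N in Metric.closedBall N0 ρ, ∫⁻ t in {t : ℝ | T ≤ |t| ∧ |t| ≤ 2 * T},
        ∫⁻ x : E m, ‖op2 a N t G x‖ₑ ^ (4:ℝ)
        ≤ ∫⁻ N, ∫⁻ t, g (N, t) ∂(ENNReal.ofReal (Real.exp (4 * π)) • muJ m T) ∂ν :=
          lintegral_mono' hrestr (fun N => lintegral_mono' (hlt_muJ m T hT) le_rfl)
      _ = ∫⁻ N, ENNReal.ofReal (Real.exp (4 * π)) * ∫⁻ t, g (N, t) ∂(muJ m T) ∂ν := by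
          refine lintegral_congr fun N => ?_
          rw [lintegral_smul_measure, smul_eq_mul]
      _ = ENNReal.ofReal (Real.exp (4 * π)) * ∫⁻ N, ∫⁻ t, g (N, t) ∂(muJ m T) ∂ν :=
          lintegral_const_mul' _ _ ENNReal.ofReal_ne_top
      _ = ENNReal.ofReal (Real.exp (4 * π)) * ∫⁻ l, g l ∂μ := by
          rw [hμ, lintegral_prod _ hgm.aemeasurable]
  have hLHS : ∫⁻ l, g l ∂μ =
      ∫⁻ l, (∫⁻ x : E m, ‖∫ w : E m, G w * A l w * ex (inner ℝ w x)‖ₑ ^ (4:ℝ)) ∂μ := by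
    apply lintegral_congr_ae
    filter_upwards [hae] with l hl
    simp only [hg, hAdef, if_pos hl]
    rfl
  have hstep2 := four_linear_param μ A hAm B R hAB hAR G hG hGb
  rw [← hLHS] at hstep2
  have hker : ∀ q : E m × E m × E m, ∫ l, A l q.1 * A l (q.1 - q.2.1 - q.2.2) *
        (starRingEnd ℂ) (A l (q.1 - q.2.1)) * (starRingEnd ℂ) (A l (q.1 - q.2.2)) ∂μ =
      K2 a φ T q.1 q.2.1 q.2.2 := by
    intro q
    unfold K2
    apply integral_congr_ae
    filter_upwards [hae] with l hl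
    simp only [hAdef, if_pos hl]
  have hpt : ∀ q : E m × E m × E m,
      ‖∫ l, A l q.1 * A l (q.1 - q.2.1 - q.2.2) *
        (starRingEnd ℂ) (A l (q.1 - q.2.1)) * (starRingEnd ℂ) (A l (q.1 - q.2.2)) ∂μ‖ₑ ≤
      {q : E m × E m × E m | ‖q.1‖ ≤ 2 * R ∧ ‖q.2.1‖ ≤ 2 * R ∧ ‖q.2.2‖ ≤ 2 * R}.indicator
      (fun q => (ENNReal.ofReal (C * T) * ENNReal.ofReal (T ^ (-((m : ℝ) - δ)))) *
        ENNReal.ofReal (‖q.2.1‖ * ‖q.2.2‖) ^ (δ - m)) q := by
    intro q
    by_cases hK0 : (∫ l, A l q.1 * A l (q.1 - q.2.1 - q.2.2) *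
        (starRingEnd ℂ) (A l (q.1 - q.2.1)) * (starRingEnd ℂ) (A l (q.1 - q.2.2)) ∂μ) = 0
    · rw [hK0, enorm_zero]
      exact zero_le
    · have hzero : ∀ v : E m, v = q.1 ∨ v = q.1 - q.2.1 ∨ v = q.1 - q.2.2 → ‖v‖ ≤ R := by
        intro v hv
        by_contra hcon
        rw [not_le] at hcon
        apply hK0
        have h1 : ∀ l, A l q.1 * A l (q.1 - q.2.1 - q.2.2) *
          (starRingEnd ℂ) (A l (q.1 - q.2.1)) * (starRingEnd ℂ) (A l (q.1 - q.2.2)) = 0 := by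
          intro l
          have h2 := hAR l v hcon
          rcases hv with rfl | rfl | rfl
          · rw [h2]
            simp
          · rw [h2]
            simp
          · rw [h2]
            simp
        simp only [h1, integral_zero]
      have hw := hzero _ (Or.inl rfl)
      have hwy := hzero _ (Or.inr (Or.inl rfl))
      have hwz := hzero _ (Or.inr (Or.inr rfl))
      have hy : ‖q.2.1‖ ≤ 2 * R := by
        have h2 : q.2.1 = q.1 - (q.1 - q.2.1) := by abel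
        rw [h2]
        refine (norm_sub_le _ _).trans ?_
        linarith
      have hz : ‖q.2.2‖ ≤ 2 * R := by
        have h2 : q.2.2 = q.1 - (q.1 - q.2.2) := by abel
        rw [h2]
        refine (norm_sub_le _ _).trans ?_
        linarith
      rw [Set.indicator_of_mem (show q ∈ {q : E m × E m × E m | ‖q.1‖ ≤ 2 * R ∧
        ‖q.2.1‖ ≤ 2 * R ∧ ‖q.2.2‖ ≤ 2 * R} from ⟨by linarith, hy, hz⟩)]
      rw [hker q, ← ofReal_norm]
      obtain ⟨k1, k2⟩ := hK q.1 q.2.1 q.2.2 T hT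
      have hyz0 : 0 ≤ ‖q.2.1‖ * ‖q.2.2‖ := by positivity
      have hpw := hlt_power (C0 := C * T) (K := ‖K2 a φ T q.1 q.2.1 q.2.2‖)
        (x := T * (‖q.2.1‖ * ‖q.2.2‖)) (e := (m : ℝ) - δ) (M := m) (by linarith) (by linarith)
        (by positivity) (by positivity) k1 (by
          intro hx
          have hyz : 0 < ‖q.2.1‖ * ‖q.2.2‖ := by
            rcases hyz0.lt_or_eq with h | h
            · exact h
            · rw [← h, mul_zero] at hx
              exact absurd hx (lt_irrefl _)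
          have hyne : q.2.1 ≠ 0 := by
            intro h
            rw [h, norm_zero, zero_mul] at hyz
            exact lt_irrefl _ hyz
          have hzne : q.2.2 ≠ 0 := by
            intro h
            rw [h, norm_zero, mul_zero] at hyz
            exact lt_irrefl _ hyz
          have h3 := k2 hyne hzne
          rw [Real.rpow_neg hx.le, Real.rpow_natCast, ← div_eq_mul_inv]
          exact h3) (fun _ => by linarith)
      refine hpw.trans (le_of_eq ?_)
      rw [ENNReal.ofReal_mul hT.le,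
        ENNReal.mul_rpow_of_ne_top ENNReal.ofReal_ne_top ENNReal.ofReal_ne_top,
        ENNReal.ofReal_rpow_of_pos hT]
      rw [show -((m : ℝ) - δ) = δ - m by ring]
      ring
  have hstep3 : ∫⁻ q : E m × E m × E m, ‖∫ l, A l q.1 * A l (q.1 - q.2.1 - q.2.2) *
        (starRingEnd ℂ) (A l (q.1 - q.2.1)) * (starRingEnd ℂ) (A l (q.1 - q.2.2)) ∂μ‖ₑ ≤
      (ENNReal.ofReal (C * T) * ENNReal.ofReal (T ^ (-((m : ℝ) - δ)))) * I3 := by
    refine (lintegral_mono hpt).trans ?_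
    refine (lintegral_indicator_le _ _).trans ?_
    rw [lintegral_const_mul' _ _ (ENNReal.mul_ne_top ENNReal.ofReal_ne_top
      ENNReal.ofReal_ne_top)]
  refine hstep1.trans ?_
  refine (mul_le_mul_right (hstep2.trans hstep3) _).trans (le_of_eq ?_)
  have hreal : T * T ^ (-((m : ℝ) - δ)) = T ^ (1 - (m : ℝ) + δ) := by
    rw [show 1 - (m : ℝ) + δ = 1 + -((m : ℝ) - δ) by ring, Real.rpow_add hT, Real.rpow_one]
  rw [← hreal, ENNReal.ofReal_mul hC.le, ENNReal.ofReal_mul hT.le]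
  ring

end Pool.Agent.MST
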