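import Pool.Agent.MST.FT

/-!
Stein's restriction conjecture for the sphere of `R^n`, `n ≥ 3`, in the full conjectured range
`p > 2n/(n-1)`, for every bounded measurable density in `m = n - 1` variables and almost every
linear change of variables.
-/

namespace Pool.Agent.MST.LinearImageVariant

open MeasureTheory Set Pool.Agent.MP_6cbfb8_an Pool.Agent.MST
open scoped ENNReal Real

/-- Let `m ≥ 2`, `n = m + 1`, and let `G : R^m → ℂ` be bounded and measurable. For almost every
real `m × m` matrix `M` the following holds for all `c > 0`, all `p > 2n/(n-1)` and all finite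
families of half spaces: the Fourier transform of the measure with density `G (M x')` on the part
`x_n > c` of the unit sphere of `R^n`, where `x' = (x_1, …, x_m)`, restricted to the intersection
of the half spaces, belongs to `L^p`. -/
theorem result (m : ℕ) (hm : 2 ≤ m) (G : E m → ℂ) (hG : Measurable G)
    (hb : ∃ B : ℝ, ∀ w, ‖G w‖ ≤ B) : ∀ᵐ M : Mat m, ∀ c : ℝ, 0 < c → ∀ p : ℝ,
      2 * ((m : ℝ) + 1) / m < p → ∀ (K : ℕ) (v : Fin K → E (m + 1)) (e : Fin K → ℝ),
      ∫⁻ ξ, ‖extn (fun x : E (m + 1) => (if c < x (Fin.last m) then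
        G (mv M (fstE (k := m) (l := 1) x)) else 0) * ∏ i, hsn (e i) (v i) x) ξ‖ₑ ^ p < ∞ :=
  linear_images m hm G hG hb

end Pool.Agent.MST.LinearImageVariant
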