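import Pool.Agent.MST.Defs2

namespace Pool.Agent.MST

open MeasureTheory Set Pool.Agent.MP_6cbfb8_an
open scoped ENNReal Real

/-- Bounds for the derivatives of a factor of a product. -/
theorem hns_quot (n : ℕ) (C0 c0 : ℝ) (hc : 0 < c0) : ∃ M : ℝ, 0 ≤ M ∧ ∀ (g h : ℝ → ℝ) (τ : ℝ),
    (∀ k : ℕ, ContDiff ℝ k g) → (∀ k : ℕ, ContDiff ℝ k h) →
    (∀ j ≤ n, |iteratedDeriv j (g * h) τ| ≤ C0) → (∀ j ≤ n, |iteratedDeriv j h τ| ≤ C0) →
    c0 ≤ |h τ| → ∀ j ≤ n, |iteratedDeriv j g τ| ≤ M := by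
  induction n with
  | zero =>
    refine ⟨|C0| / c0, by positivity, fun g h τ _ _ h3 _ h5 j hj => ?_⟩
    obtain rfl : j = 0 := by omega
    have h6 := h3 0 le_rfl
    rw [iteratedDeriv_zero] at h6 ⊢
    rw [le_div_iff₀ hc]
    calc |g τ| * c0 ≤ |g τ| * |h τ| := mul_le_mul_of_nonneg_left h5 (abs_nonneg _)
      _ = |(g * h) τ| := by rw [Pi.mul_apply, abs_mul]
      _ ≤ |C0| := h6.trans (le_abs_self _)
  | succ n ih =>
    obtain ⟨M, hM, hb⟩ := ih
    refine ⟨max M ((|C0| + ∑ i ∈ Finset.range (n + 1), ((n + 1).choose i : ℝ) * M * |C0|) / c0),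
      le_max_of_le_left hM, fun g h τ h1 h2 h3 h4 h5 j hj => ?_⟩
    have hb' := hb g h τ h1 h2 (fun j hj => h3 j (by omega)) (fun j hj => h4 j (by omega)) h5
    rcases Nat.lt_or_ge j (n + 1) with h6 | h6
    · exact (hb' j (by omega)).trans (le_max_left _ _)
    · obtain rfl : j = n + 1 := by omega
      refine le_trans ?_ (le_max_right _ _)
      rw [le_div_iff₀ hc]
      have h7 := iteratedDeriv_mul (n := n + 1) (x := τ) (f := g) (g := h)
        ((h1 (n + 1)).contDiffAt) ((h2 (n + 1)).contDiffAt)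
      rw [Finset.sum_range_succ] at h7
      simp only [Nat.choose_self, Nat.cast_one, one_mul, Nat.sub_self, iteratedDeriv_zero] at h7
      have h8 : iteratedDeriv (n + 1) g τ * h τ = iteratedDeriv (n + 1) (g * h) τ -
          ∑ i ∈ Finset.range (n + 1), ((n + 1).choose i : ℝ) * iteratedDeriv i g τ *
            iteratedDeriv (n + 1 - i) h τ := by
        rw [h7]
        ring
      calc |iteratedDeriv (n + 1) g τ| * c0 ≤ |iteratedDeriv (n + 1) g τ| * |h τ| :=
            mul_le_mul_of_nonneg_left h5 (abs_nonneg _)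
        _ = |iteratedDeriv (n + 1) g τ * h τ| := (abs_mul _ _).symm
        _ ≤ |iteratedDeriv (n + 1) (g * h) τ| +
            |∑ i ∈ Finset.range (n + 1), ((n + 1).choose i : ℝ) * iteratedDeriv i g τ *
            iteratedDeriv (n + 1 - i) h τ| := by
          rw [h8]
          exact abs_sub _ _
        _ ≤ |C0| + ∑ i ∈ Finset.range (n + 1), ((n + 1).choose i : ℝ) * M * |C0| := by
          refine add_le_add ((h3 _ le_rfl).trans (le_abs_self _)) ?_
          refine (Finset.abs_sum_le_sum_abs _ _).trans (Finset.sum_le_sum fun i hi => ?_)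
          have hi' : i ≤ n := by
            have := Finset.mem_range.1 hi
            omega
          rw [abs_mul, abs_mul, Nat.abs_cast]
          refine mul_le_mul (mul_le_mul_of_nonneg_left (hb' i hi') (Nat.cast_nonneg _))
            ((h4 _ (by omega)).trans (le_abs_self _)) (abs_nonneg _) (by positivity)

theorem hns_hasDeriv_ex (f : ℝ → ℝ) (hf : ContDiff ℝ 1 f) (lam τ : ℝ) :
    HasDerivAt (fun s => ex (lam * f s))
      (ex (lam * f τ) * (((-(2 * π * (lam * deriv f τ)) : ℝ) : ℂ) * Complex.I)) τ := by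
  have h1 : HasDerivAt f (deriv f τ) τ :=
    (hf.differentiable (by norm_num) τ).hasDerivAt
  have h2 : HasDerivAt (fun s => -(2 * π * (lam * f s))) (-(2 * π * (lam * deriv f τ))) τ :=
    ((h1.const_mul lam).const_mul (2 * π)).neg
  have h3 := (h2.ofReal_comp).mul_const Complex.I
  exact h3.cexp

theorem hns_norm_ex (a : ℝ) : ‖ex a‖ = 1 := by
  unfold ex
  rw [Complex.norm_exp_ofReal_mul_I]

theorem hns_cont_ex (f : ℝ → ℝ) (hf : Continuous f) (lam : ℝ) :
    Continuous fun s => ex (lam * f s) := by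
  unfold ex
  fun_prop

/-- The quotient of `b` by `f'` is smooth. -/
theorem hns_smooth (b h : ℝ → ℝ) (hb : ∀ n : ℕ, ContDiff ℝ n b) (hh : ∀ n : ℕ, ContDiff ℝ n h)
    (α β : ℝ) (h0 : ∀ τ, τ ∉ Icc α β → b τ = 0) (h1 : ∀ τ ∈ Icc α β, h τ ≠ 0) (n : ℕ) :
    ContDiff ℝ n fun τ => b τ / h τ := by
  rw [contDiff_iff_contDiffAt]
  intro τ
  by_cases hτ : τ ∈ Icc α β
  · exact (hb n).contDiffAt.div (hh n).contDiffAt (h1 τ hτ)
  · have h2 : (fun τ => b τ / h τ) =ᶠ[nhds τ] fun _ => (0 : ℝ) := by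
      filter_upwards [isClosed_Icc.isOpen_compl.mem_nhds hτ] with s hs
      rw [h0 s hs, zero_div]
    exact contDiffAt_const.congr_of_eventuallyEq h2

theorem hns_zero (g : ℝ → ℝ) (α β : ℝ) (h0 : ∀ τ, τ ∉ Icc α β → g τ = 0) (j : ℕ) (τ : ℝ)
    (hτ : τ ∉ Icc α β) : iteratedDeriv j g τ = 0 := by
  have h2 : g =ᶠ[nhds τ] fun _ => (0 : ℝ) := by
    filter_upwards [isClosed_Icc.isOpen_compl.mem_nhds hτ] with s hs
    exact h0 s hs
  rw [(h2.iteratedDeriv j).eq_of_nhds]
  simp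

theorem hns_int (b : ℝ → ℂ) (hb : Continuous b) (α β : ℝ) (h0 : ∀ τ, τ ∉ Icc α β → b τ = 0) :
    Integrable b := by
  refine hb.integrable_of_hasCompactSupport ?_
  exact HasCompactSupport.intro isCompact_Icc h0

/-
ROW NS (2 h). Non-stationary phase of order J in one variable.
Induction on J, for all L C0 c0 at once. J = 0: ‖∫‖ ≤ ∫ |b| ≤ L C0 (b = 0 outside Icc α β, ‖ex‖ = 1).
Step J → J+1: f' ≠ 0 on Icc α β, hence on an open neighbourhood U of it (continuity, compactness). Let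
b̃ := deriv (fun τ => b τ / f' τ) on U and 0 outside Icc α β. b and all its derivatives vanish outside the open interval and at
α, β, so b/f' (set to 0 outside Icc α β; note b/f' already vanishes there because b does: b τ / f' τ = 0 when b τ = 0,
also when f' τ = 0 in Lean) is C^n for all n: near a point of Icc α β it is a quotient with f' ≠ 0, near a point outside it is 0.
Integration by parts on ℝ (compact support; integral_mul_deriv_eq_deriv_mul_of_integrable or on an interval):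
∫ b ex(λ f) = ∫ (b/f') f' ex(λ f) = -(1/(-2π i λ)) ∫ (b/f')' ex(λ f), since d/dτ ex(λ f) = -2π i λ f' ex(λ f).
So ‖∫ b ex(λf)‖ ≤ (1/(2π|λ|)) ‖∫ b̃ ex(λ f)‖ and the induction hypothesis (J, new constant C0') applies to b̃ = (b/f')'.
Bounds: |iteratedDeriv j b̃| = |iteratedDeriv (j+1) (b/f')| ≤ C(J, C0, c0) for j ≤ J on Icc α β, by the Leibniz rule and the bounds
for the derivatives of 1/f' (induction: (1/g)' = -g' (1/g)²), from |f^(i)| ≤ C0 for 1 ≤ i ≤ J+2, |f'| ≥ c0, |b^(i)| ≤ C0, i ≤ J+1.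
(norm_iteratedFDeriv_mul_le, or iteratedDeriv versions; it may be convenient to prove a lemma: for smooth g with |g| ≥ c0 at τ and
|iteratedDeriv i g τ| ≤ C0 for i ≤ J one has |iteratedDeriv i (1/g) τ| ≤ C(J,C0,c0).)
-/
theorem nonstat (J : ℕ) (L C0 c0 : ℝ) (hc : 0 < c0) : ∃ C : ℝ, 0 ≤ C ∧ ∀ (b f : ℝ → ℝ),
    (∀ n : ℕ, ContDiff ℝ n b) → (∀ n : ℕ, ContDiff ℝ n f) → ∀ α β : ℝ, α ≤ β → β - α ≤ L →
    (∀ τ, τ ∉ Icc α β → b τ = 0) → (∀ j ≤ J, ∀ τ, |iteratedDeriv j b τ| ≤ C0) →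
    (∀ j, 1 ≤ j → j ≤ J + 1 → ∀ τ ∈ Icc α β, |iteratedDeriv j f τ| ≤ C0) →
    (∀ τ ∈ Icc α β, c0 ≤ |deriv f τ|) → ∀ lam : ℝ, lam ≠ 0 →
    ‖∫ τ : ℝ, ((b τ : ℝ) : ℂ) * ex (lam * f τ)‖ ≤ C / |lam| ^ J := by
  induction J generalizing C0 with
  | zero =>
    refine ⟨|C0| * |L|, by positivity, fun b f hb hf α β hαβ hL h0 h1 _ _ lam _ => ?_⟩
    rw [pow_zero, div_one]
    have h2 : ∫ τ : ℝ, ((b τ : ℝ) : ℂ) * ex (lam * f τ) =
        ∫ τ in Icc α β, ((b τ : ℝ) : ℂ) * ex (lam * f τ) := by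
      symm
      refine setIntegral_eq_integral_of_forall_compl_eq_zero fun τ hτ => ?_
      rw [h0 τ hτ]
      simp
    rw [h2]
    have h3 : ∀ τ ∈ Icc α β, ‖((b τ : ℝ) : ℂ) * ex (lam * f τ)‖ ≤ |C0| := by
      intro τ _
      rw [norm_mul, hns_norm_ex, mul_one, Complex.norm_real, Real.norm_eq_abs]
      have := h1 0 le_rfl τ
      rw [iteratedDeriv_zero] at this
      exact this.trans (le_abs_self _)
    refine (norm_setIntegral_le_of_norm_le_const (by simp) h3).trans ?_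
    refine mul_le_mul_of_nonneg_left ?_ (abs_nonneg _)
    rw [Measure.real, Real.volume_Icc, ENNReal.toReal_ofReal (by linarith)]
    exact hL.trans (le_abs_self _)
  | succ J ih =>
    obtain ⟨M, hM, hq⟩ := hns_quot (J + 1) C0 c0 hc
    obtain ⟨C, hC, hI⟩ := ih (max C0 M)
    refine ⟨C, hC, fun b f hb hf α β hαβ hL h0 h1 h2 h3 lam hlam => ?_⟩
    have hf' : ∀ n : ℕ, ContDiff ℝ n (deriv f) := by
      intro n
      have h4 : ContDiff ℝ ((n : WithTop ℕ∞) + 1) f := by exact_mod_cast hf (n + 1)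
      exact ((contDiff_succ_iff_deriv.1 h4).2.2)
    have hne : ∀ τ ∈ Icc α β, deriv f τ ≠ 0 := by
      intro τ hτ h4
      have h5 := h3 τ hτ
      rw [h4, abs_zero] at h5
      linarith
    set g : ℝ → ℝ := fun τ => b τ / deriv f τ with hg
    have hgs : ∀ n : ℕ, ContDiff ℝ n g := hns_smooth b (deriv f) hb hf' α β h0 hne
    have hg' : ∀ n : ℕ, ContDiff ℝ n (deriv g) := by
      intro n
      have h4 : ContDiff ℝ ((n : WithTop ℕ∞) + 1) g := by exact_mod_cast hgs (n + 1)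
      exact ((contDiff_succ_iff_deriv.1 h4).2.2)
    have hg0 : ∀ τ, τ ∉ Icc α β → g τ = 0 := by
      intro τ hτ
      rw [hg]
      simp only
      rw [h0 τ hτ, zero_div]
    have hgh : g * deriv f = b := by
      funext τ
      rw [Pi.mul_apply]
      by_cases hτ : τ ∈ Icc α β
      · exact div_mul_cancel₀ _ (hne τ hτ)
      · rw [hg0 τ hτ, h0 τ hτ, zero_mul]
    have hgb : ∀ j ≤ J + 1, ∀ τ, |iteratedDeriv j g τ| ≤ M := by
      intro j hj τ
      by_cases hτ : τ ∈ Icc α β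
      · refine hq g (deriv f) τ hgs hf' (fun i hi => ?_) (fun i hi => ?_) (h3 τ hτ) j hj
        · rw [hgh]
          exact h1 i hi τ
        · rw [← iteratedDeriv_succ']
          exact h2 (i + 1) (by omega) (by omega) τ hτ
      · rw [hns_zero g α β hg0 j τ hτ, abs_zero]
        exact hM
    have h5 := hI (deriv g) f hg' hf α β hαβ hL (fun τ hτ => by
      have := hns_zero g α β hg0 1 τ hτ
      rwa [iteratedDeriv_one] at this) (fun j hj τ => by
      rw [← iteratedDeriv_succ']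
      exact (hgb (j + 1) (by omega) τ).trans (le_max_right _ _)) (fun j hj1 hj τ hτ =>
      (h2 j hj1 (by omega) τ hτ).trans (le_max_left _ _)) h3 lam hlam
    -- integration by parts
    have hd : ∀ τ, HasDerivAt (fun s => ((g s : ℝ) : ℂ) * ex (lam * f s))
        (((deriv g τ : ℝ) : ℂ) * ex (lam * f τ) -
          (2 * π * lam * Complex.I) * (((b τ : ℝ) : ℂ) * ex (lam * f τ))) τ := by
      intro τ
      have h6 : HasDerivAt g (deriv g τ) τ :=
        ((hgs 1).differentiable (by norm_num) τ).hasDerivAt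
      have h7 := (h6.ofReal_comp).mul (hns_hasDeriv_ex f (hf 1) lam τ)
      refine HasDerivAt.congr_deriv h7 ?_
      have h8 : ((b τ : ℝ) : ℂ) = ((g τ : ℝ) : ℂ) * ((deriv f τ : ℝ) : ℂ) := by
        rw [← hgh, Pi.mul_apply]
        push_cast
        ring
      rw [h8]
      push_cast
      ring
    have hcf : Continuous f := (hf 0).continuous
    have hi1 : Integrable (fun s => ((g s : ℝ) : ℂ) * ex (lam * f s)) :=
      hns_int _ ((Complex.continuous_ofReal.comp (hgs 0).continuous).mul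
        (hns_cont_ex f hcf lam)) α β (fun τ hτ => by rw [hg0 τ hτ]; simp)
    have hi2 : Integrable (fun s => ((deriv g s : ℝ) : ℂ) * ex (lam * f s)) :=
      hns_int _ ((Complex.continuous_ofReal.comp (hg' 0).continuous).mul
        (hns_cont_ex f hcf lam)) α β (fun τ hτ => by
          have := hns_zero g α β hg0 1 τ hτ
          rw [iteratedDeriv_one] at this
          rw [this]
          simp)
    have hi3 : Integrable (fun s => ((b s : ℝ) : ℂ) * ex (lam * f s)) :=
      hns_int _ ((Complex.continuous_ofReal.comp (hb 0).continuous).mul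
        (hns_cont_ex f hcf lam)) α β (fun τ hτ => by rw [h0 τ hτ]; simp)
    have h6 := integral_eq_zero_of_hasDerivAt_of_integrable hd
      (hi2.sub (hi3.const_mul _)) hi1
    rw [integral_sub hi2 (hi3.const_mul _), integral_const_mul, sub_eq_zero] at h6
    have h7 : ‖∫ τ : ℝ, ((deriv g τ : ℝ) : ℂ) * ex (lam * f τ)‖ =
        2 * π * |lam| * ‖∫ τ : ℝ, ((b τ : ℝ) : ℂ) * ex (lam * f τ)‖ := by
      rw [h6, norm_mul]
      congr 1
      simp [abs_of_pos Real.pi_pos]
    rw [h7] at h5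
    have hl : 0 < |lam| := abs_pos.2 hlam
    have h8 : (1 : ℝ) ≤ 2 * π := by
      have := Real.pi_gt_three
      linarith
    rw [le_div_iff₀ (by positivity)] at h5 ⊢
    calc ‖∫ τ : ℝ, ((b τ : ℝ) : ℂ) * ex (lam * f τ)‖ * |lam| ^ (J + 1)
        = 1 * (|lam| * ‖∫ τ : ℝ, ((b τ : ℝ) : ℂ) * ex (lam * f τ)‖ * |lam| ^ J) := by ring
      _ ≤ (2 * π) * (|lam| * ‖∫ τ : ℝ, ((b τ : ℝ) : ℂ) * ex (lam * f τ)‖ * |lam| ^ J) :=
          mul_le_mul_of_nonneg_right h8 (by positivity)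
      _ = 2 * π * |lam| * ‖∫ τ : ℝ, ((b τ : ℝ) : ℂ) * ex (lam * f τ)‖ * |lam| ^ J := by ring
      _ ≤ C := h5

end Pool.Agent.MST
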