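import Pool.Agent.MST.LT
import Pool.Agent.MST.TS

namespace Pool.Agent.MST

open MeasureTheory Set Pool.Agent.MP_6cbfb8_an
open scoped ENNReal Real

theorem hpt_range (m : ℕ) (hm : 2 ≤ m) : (2 : ℝ) / (m : ℝ) ≤ 1 := by
  have h : (2 : ℝ) ≤ (m : ℝ) := by exact_mod_cast hm
  rw [div_le_one (by linarith)]
  exact h

theorem hpt_main (m : ℕ) (hm : 2 ≤ m) (N0 : Mat m)
    (c0 : ℝ) (a : ℝ → ℝ) (ha : Cut2 c0 a) (ρ : ℝ) (C0 : ℝ)
    (hb : ∀ N ∈ Metric.closedBall N0 ρ, ∀ (t : ℝ) (G : E m → ℂ), Measurable G →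
      (∀ w, ‖G w‖ ≤ 1) → (∀ x, ‖op2 a N t G x‖ ≤ C0) ∧
      ∫⁻ x, ‖op2 a N t G x‖ₑ ^ (2:ℝ) ≤ ENNReal.ofReal C0)
    (h4 : ∀ δ : ℝ, 0 < δ → δ < 1 → ∃ C : ℝ≥0∞, C ≠ ∞ ∧ ∀ T : ℝ, 0 < T →
      ∀ G : E m → ℂ, Measurable G → (∀ w, ‖G w‖ ≤ 1) →
      ∫⁻ N in Metric.closedBall N0 ρ, ∫⁻ t in {t : ℝ | T ≤ |t| ∧ |t| ≤ 2 * T},
        ∫⁻ x : E m, ‖op2 a N t G x‖ₑ ^ (4:ℝ) ≤ C * ENNReal.ofReal (T ^ (1 - (m : ℝ) + δ)))
    (p : ℝ) (hp : 2 + 2 / (m : ℝ) < p) (hp4 : p < 4) :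
    ∃ C : ℝ≥0∞, C ≠ ∞ ∧ ∀ G : E m → ℂ, Measurable G → (∀ w, ‖G w‖ ≤ 1) →
    ∫⁻ N in Metric.closedBall N0 ρ, ∫⁻ t : ℝ, ∫⁻ x : E m, ‖op2 a N t G x‖ₑ ^ p ≤ C := by
  classical
  have hm0 : (0 : ℝ) < (m : ℝ) := by
    have : 0 < m := by omega
    exact_mod_cast this
  have hp2 : 2 < p := by
    have : 0 < 2 / (m : ℝ) := by positivity
    linarith
  have hp2' : 0 < p - 2 := by linarith
  have hkey : 0 < (m : ℝ) * (p - 2) - 2 := by
    have h1 : 2 / (m : ℝ) < p - 2 := by linarith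
    rw [div_lt_iff₀ hm0] at h1
    linarith
  -- choice of δ
  obtain ⟨δ, hδ0, hδ1, hδ⟩ : ∃ δ : ℝ, 0 < δ ∧ δ < 1 ∧ 4 - p < ((m : ℝ) - 1 - δ) * (p - 2) := by
    refine ⟨min (1 / 2) (((m : ℝ) * (p - 2) - 2) / (2 * (p - 2))), lt_min (by norm_num)
      (div_pos hkey (by positivity)), lt_of_le_of_lt (min_le_left _ _) (by norm_num), ?_⟩
    have h1 : min (1 / 2) (((m : ℝ) * (p - 2) - 2) / (2 * (p - 2))) * (p - 2) ≤
        ((m : ℝ) * (p - 2) - 2) / 2 := by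
      calc min (1 / 2) (((m : ℝ) * (p - 2) - 2) / (2 * (p - 2))) * (p - 2)
          ≤ (((m : ℝ) * (p - 2) - 2) / (2 * (p - 2))) * (p - 2) :=
            mul_le_mul_of_nonneg_right (min_le_right _ _) hp2'.le
        _ = ((m : ℝ) * (p - 2) - 2) / 2 := by
            field_simp
    nlinarith
  obtain ⟨C3, hC3, hL⟩ := h4 δ hδ0 hδ1
  have hfinb : volume (Metric.closedBall N0 ρ) < ∞ := measure_closedBall_lt_top
  have : IsFiniteMeasure (volume.restrict (Metric.closedBall N0 ρ)) :=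
    ⟨by rw [Measure.restrict_apply_univ]; exact hfinb⟩
  obtain ⟨C, hC, hT⟩ := time_sum (volume.restrict (Metric.closedBall N0 ρ))
    (volume : Measure (E m)) p ((m : ℝ) - 1 - δ) hp2 hp4 hδ
  refine ⟨C * (ENNReal.ofReal C0 ^ (p - 2) * ENNReal.ofReal C0 +
    ENNReal.ofReal C0 ^ ((4 - p) / 2) * C3 ^ ((p - 2) / 2)), ?_, ?_⟩
  · refine ENNReal.mul_ne_top hC (ENNReal.add_ne_top.2 ⟨ENNReal.mul_ne_top ?_ ENNReal.ofReal_ne_top,
      ENNReal.mul_ne_top ?_ ?_⟩)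
    · exact ENNReal.rpow_ne_top_of_nonneg hp2'.le ENNReal.ofReal_ne_top
    · exact ENNReal.rpow_ne_top_of_nonneg (by linarith) ENNReal.ofReal_ne_top
    · exact ENNReal.rpow_ne_top_of_nonneg (by linarith) hC3
  · intro G hGm hG
    have hBm : MeasurableSet (Metric.closedBall N0 ρ) := measurableSet_closedBall
    obtain ⟨F, hF⟩ : ∃ F : Mat m → ℝ → E m → ℂ, F = fun N t x =>
      if N ∈ Metric.closedBall N0 ρ then op2 a N t G x else 0 := ⟨_, rfl⟩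
    have hFin : ∀ N ∈ Metric.closedBall N0 ρ, ∀ t x, F N t x = op2 a N t G x := by
      intro N hN t x
      rw [hF]
      exact if_pos hN
    have hFout : ∀ N, N ∉ Metric.closedBall N0 ρ → ∀ t x, F N t x = 0 := by
      intro N hN t x
      rw [hF]
      exact if_neg hN
    have hFm : Measurable fun q : Mat m × ℝ × E m => F q.1 q.2.1 q.2.2 := by
      rw [hF]
      exact Measurable.ite (measurable_fst hBm) (measurable_op2 c0 a ha G hGm) measurable_const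
    have h1 := hT F hFm (ENNReal.ofReal C0) (ENNReal.ofReal C0) C3 ?_ ?_ ?_
    · refine le_trans (le_of_eq ?_) h1
      refine setLIntegral_congr_fun hBm fun N hN => ?_
      simp only [hFin N hN]
    · intro N t
      by_cases hN : N ∈ Metric.closedBall N0 ρ
      · simp only [hFin N hN]
        exact (hb N hN t G hGm hG).2
      · simp only [hFout N hN]
        simp
    · intro N t x
      by_cases hN : N ∈ Metric.closedBall N0 ρ
      · rw [hFin N hN, ← ofReal_norm]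
        exact ENNReal.ofReal_le_ofReal ((hb N hN t G hGm hG).1 x)
      · rw [hFout N hN]
        simp
    · intro T hT1
      refine le_trans (le_of_eq ?_) ((hL T (by linarith) G hGm hG).trans (le_of_eq ?_))
      · refine setLIntegral_congr_fun hBm fun N hN => ?_
        simp only [hFin N hN]
      · congr 3
        ring

/-
ROW PT (1 h). L^p bound near N0. Let p > 2 + 2/m, m ≥ 2. If p < 4: choose δ ∈ (0,1) with 4-p < (m-1-δ)(p-2) (possible since m(p-2) > 2), apply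
time_sum with P = Mat m, π' = volume.restrict (closedBall N0 ρ) (finite), F N t x = if N ∈ closedBall N0 ρ then op2 a N t G x else 0,
C1, C2 from op2_bounds, C3 from L4_local, β = m-1-δ. If p ≥ 4: ‖op2‖ ≤ C so ‖op2‖^p ≤ C^(p-p') ‖op2‖^p' with p' = 3 + ... any p' ∈ (2+2/m, 4)
(note 2+2/m ≤ 3).
-/
theorem Lp_local (m : ℕ) (hm : 2 ≤ m) (N0 : Mat m) (h0 : Function.Injective (mv N0))
    (c0 : ℝ) (hc : 0 < c0) (a : ℝ → ℝ) (ha : Cut2 c0 a) (p : ℝ) (hp : 2 + 2 / (m : ℝ) < p) :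
    ∃ ρ : ℝ, 0 < ρ ∧ ∃ C : ℝ≥0∞, C ≠ ∞ ∧ ∀ G : E m → ℂ, Measurable G → (∀ w, ‖G w‖ ≤ 1) →
    ∫⁻ N in Metric.closedBall N0 ρ, ∫⁻ t : ℝ, ∫⁻ x : E m, ‖op2 a N t G x‖ₑ ^ p ≤ C := by
  obtain ⟨ρ, hρ, -, ⟨R, -, hR⟩, h4⟩ := L4_local m (by omega) N0 h0 c0 hc a ha
  obtain ⟨C0, hC0, hb0⟩ := op2_bounds m c0 hc a ha R
  have hb : ∀ N ∈ Metric.closedBall N0 ρ, ∀ (t : ℝ) (G : E m → ℂ), Measurable G →
      (∀ w, ‖G w‖ ≤ 1) → (∀ x, ‖op2 a N t G x‖ ≤ C0) ∧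
      ∫⁻ x, ‖op2 a N t G x‖ₑ ^ (2:ℝ) ≤ ENNReal.ofReal C0 :=
    fun N hN t G hGm hG => hb0 N (hR N hN) t G hGm hG
  refine ⟨ρ, hρ, ?_⟩
  rcases lt_or_ge p 4 with hp4 | hp4
  · exact hpt_main m hm N0 c0 a ha ρ C0 hb h4 p hp hp4
  · obtain ⟨C, hC, hCG⟩ := hpt_main m hm N0 c0 a ha ρ C0 hb h4 (7 / 2)
      (by have := hpt_range m hm; linarith) (by norm_num)
    refine ⟨ENNReal.ofReal C0 ^ (p - 7 / 2) * C, ENNReal.mul_ne_top
      (ENNReal.rpow_ne_top_of_nonneg (by linarith) ENNReal.ofReal_ne_top) hC, ?_⟩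
    intro G hGm hG
    have hK : ENNReal.ofReal C0 ^ (p - 7 / 2) ≠ ∞ :=
      ENNReal.rpow_ne_top_of_nonneg (by linarith) ENNReal.ofReal_ne_top
    calc ∫⁻ N in Metric.closedBall N0 ρ, ∫⁻ t : ℝ, ∫⁻ x : E m, ‖op2 a N t G x‖ₑ ^ p
        ≤ ∫⁻ N in Metric.closedBall N0 ρ, ENNReal.ofReal C0 ^ (p - 7 / 2) *
            ∫⁻ t : ℝ, ∫⁻ x : E m, ‖op2 a N t G x‖ₑ ^ (7 / 2 : ℝ) := by
          refine setLIntegral_mono' measurableSet_closedBall fun N hN => ?_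
          rw [← lintegral_const_mul' _ _ hK]
          refine lintegral_mono fun t => ?_
          rw [← lintegral_const_mul' _ _ hK]
          refine lintegral_mono fun x => ?_
          have h1 : ‖op2 a N t G x‖ₑ ≤ ENNReal.ofReal C0 := by
            rw [← ofReal_norm]
            exact ENNReal.ofReal_le_ofReal ((hb N hN t G hGm hG).1 x)
          have h2 : p = (p - 7 / 2) + 7 / 2 := by ring
          calc ‖op2 a N t G x‖ₑ ^ p
              = ‖op2 a N t G x‖ₑ ^ (p - 7 / 2) * ‖op2 a N t G x‖ₑ ^ (7 / 2 : ℝ) := by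
                conv_lhs => rw [h2]
                rw [ENNReal.rpow_add_of_nonneg _ _ (by linarith) (by norm_num)]
            _ ≤ ENNReal.ofReal C0 ^ (p - 7 / 2) * ‖op2 a N t G x‖ₑ ^ (7 / 2 : ℝ) :=
                mul_le_mul_left (ENNReal.rpow_le_rpow h1 (by linarith)) _
      _ = ENNReal.ofReal C0 ^ (p - 7 / 2) * ∫⁻ N in Metric.closedBall N0 ρ,
            ∫⁻ t : ℝ, ∫⁻ x : E m, ‖op2 a N t G x‖ₑ ^ (7 / 2 : ℝ) := lintegral_const_mul' _ _ hK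
      _ ≤ ENNReal.ofReal C0 ^ (p - 7 / 2) * C := mul_le_mul_right (hCG G hGm hG) _

end Pool.Agent.MST
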