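import Pool.Agent.MST.L4
import Pool.Agent.MST.TS

namespace Pool.Agent.MST

open MeasureTheory Set Pool.Agent.MP_6cbfb8_an
open scoped ENNReal Real

/-- the weight in the dilation parameter is bounded below -/
lemma hsl_muS (s0 s1 : ℝ) (h0 : 0 < s0) (g : ℝ → ℝ≥0∞) (hg : Measurable g) :
    ENNReal.ofReal ((s0 / 2) ^ 3) * ∫⁻ s in Icc s0 s1, g s ≤ ∫⁻ s, g s ∂(muS (s0 / 2) (s1 + 1)) := by
  have hw : Measurable fun s : ℝ => ENNReal.ofReal (bmp (s0 / 2) (s1 + 1) s) := by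
    unfold bmp
    fun_prop
  rw [muS, lintegral_withDensity_eq_lintegral_mul _ hw hg, ← lintegral_const_mul _ hg]
  refine le_trans ?_ (lintegral_mono_set (s := Icc s0 s1) ?_)
  · refine setLIntegral_mono' measurableSet_Icc fun s hs => ?_
    rw [Pi.mul_apply]
    gcongr
    unfold bmp
    have h1 : s0 / 2 ≤ (s - s0 / 2) * (s1 + 1 - s) := by
      have h2 : s0 / 2 ≤ s - s0 / 2 := by linarith [hs.1]
      have h3 : 1 ≤ s1 + 1 - s := by linarith [hs.2]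
      nlinarith
    exact pow_le_pow_left₀ (by positivity) h1 3
  · exact Icc_subset_Icc (by linarith) (by linarith)

/-- the weight in time is bounded below -/
lemma hsl_muT (T : ℝ) (hT : 0 < T) (g : ℝ → ℝ≥0∞) (hg : Measurable g) :
    ENNReal.ofReal (Real.exp (-(4 * π))) * ∫⁻ t in {t : ℝ | T ≤ |t| ∧ |t| ≤ 2 * T}, g t ≤
      ∫⁻ t, g t ∂(muT T) := by
  have hw : Measurable fun t : ℝ =>
      ENNReal.ofReal ((t / T) ^ 2 * Real.exp (-(π * (t / T) ^ 2))) := by fun_prop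
  have hset : MeasurableSet {t : ℝ | T ≤ |t| ∧ |t| ≤ 2 * T} :=
    (measurableSet_le measurable_const continuous_abs.measurable).inter
      (measurableSet_le continuous_abs.measurable measurable_const)
  rw [muT, lintegral_withDensity_eq_lintegral_mul _ hw hg, ← lintegral_const_mul _ hg]
  refine le_trans ?_ (setLIntegral_le_lintegral {t : ℝ | T ≤ |t| ∧ |t| ≤ 2 * T} _)
  refine setLIntegral_mono' hset fun t ht => ?_
  rw [Pi.mul_apply]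
  gcongr
  have h1 : 1 ≤ (t / T) ^ 2 := by
    rw [← sq_abs, abs_div, abs_of_pos hT]
    have : 1 ≤ |t| / T := by rw [le_div_iff₀ hT]; linarith [ht.1]
    nlinarith
  have h2 : (t / T) ^ 2 ≤ 4 := by
    rw [← sq_abs, abs_div, abs_of_pos hT]
    have h3 : |t| / T ≤ 2 := by rw [div_le_iff₀ hT]; linarith [ht.2]
    have h4 : 0 ≤ |t| / T := by positivity
    nlinarith
  have h3 : Real.exp (-(4 * π)) ≤ Real.exp (-(π * (t / T) ^ 2)) := by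
    apply Real.exp_le_exp.2
    nlinarith [Real.pi_pos]
  nlinarith [Real.exp_pos (-(4 * π))]

lemma hsl_weight (s0 s1 T : ℝ) (h0 : 0 < s0) (hT : 0 < T) (Φ : ℝ × ℝ → ℝ≥0∞)
    (hΦ : Measurable Φ) :
    ENNReal.ofReal ((s0 / 2) ^ 3) * (ENNReal.ofReal (Real.exp (-(4 * π))) *
      ∫⁻ s in Icc s0 s1, ∫⁻ t in {t : ℝ | T ≤ |t| ∧ |t| ≤ 2 * T}, Φ (s, t)) ≤
      ∫⁻ l, Φ l ∂((muS (s0 / 2) (s1 + 1)).prod (muT T)) := by
  have : SFinite (muT T) := by unfold muT; infer_instance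
  rw [lintegral_prod _ hΦ.aemeasurable]
  have h1 : ∀ s, ENNReal.ofReal (Real.exp (-(4 * π))) *
      ∫⁻ t in {t : ℝ | T ≤ |t| ∧ |t| ≤ 2 * T}, Φ (s, t) ≤ ∫⁻ t, Φ (s, t) ∂(muT T) :=
    fun s => hsl_muT T hT _ (hΦ.comp measurable_prodMk_left)
  refine le_trans ?_ (hsl_muS s0 s1 h0 _ hΦ.lintegral_prod_right')
  gcongr
  rw [← lintegral_const_mul' _ _ ENNReal.ofReal_ne_top]
  exact lintegral_mono fun s => h1 s

lemma hsl_pow (κ x y : ℝ) (hκ : 0 < κ) (hκ1 : κ ≤ 1) (h : y ≤ x) :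
    ENNReal.ofReal (κ ^ x) ≤ ENNReal.ofReal (κ ^ y) :=
  ENNReal.ofReal_le_ofReal (Real.rpow_le_rpow_of_exponent_ge hκ hκ1 h)

/-- powers of `ofReal (C κ^2)` -/
lemma hsl_rpow (C κ q : ℝ) (hC : 0 < C) (hκ : 0 < κ) :
    ENNReal.ofReal (C * κ ^ 2) ^ q = ENNReal.ofReal (C ^ q) * ENNReal.ofReal (κ ^ (2 * q)) := by
  rw [ENNReal.ofReal_rpow_of_pos (by positivity), Real.mul_rpow hC.le (by positivity),
    ← Real.rpow_natCast κ 2, ← Real.rpow_mul hκ.le, ENNReal.ofReal_mul (by positivity)]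
  norm_num

lemma hsl_meas_gen {X : Type*} [MeasurableSpace X] (ν : Measure X) [SFinite ν]
    (Φ : ℝ → ℝ → X → ℂ) (h : Measurable fun q : ℝ × ℝ × X => Φ q.1 q.2.1 q.2.2) :
    Measurable fun l : ℝ × ℝ => ∫⁻ x : X, ‖Φ l.1 l.2 x‖ₑ ^ (4:ℝ) ∂ν := by
  have h9 : Measurable fun q : (ℝ × ℝ) × X => ((q.1.1, q.1.2, q.2) : ℝ × ℝ × X) :=
    measurable_fst.fst.prodMk (measurable_fst.snd.prodMk measurable_snd)
  have h5 : Measurable fun q : (ℝ × ℝ) × X => ‖Φ q.1.1 q.1.2 q.2‖ₑ ^ (4:ℝ) :=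
    (h.comp h9).enorm.pow_const _
  exact h5.lintegral_prod_right'

lemma hsl_meas_gen2 {X : Type*} [MeasurableSpace X] (Φ : ℝ → ℝ → X → ℂ)
    (h : Measurable fun q : ℝ × ℝ × X => Φ q.1 q.2.1 q.2.2) (s t : ℝ) :
    Measurable fun x : X => ‖Φ s t x‖ₑ :=
  (h.comp (measurable_const.prodMk (measurable_const.prodMk measurable_id))).enorm

/-- the case `3 < p < 4` -/
theorem hsl_main (a : ℝ → ℝ) (ha : Cut a) (s0 s1 : ℝ) (h0 : 0 < s0) (h1 : s0 < s1) (p : ℝ)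
    (hp : 3 < p) (hp4 : p < 4) : ∃ C : ℝ≥0∞, C ≠ ∞ ∧ ∃ ε : ℝ, 0 < ε ∧ ∀ κ : ℝ, 0 < κ → κ ≤ 1 →
    ∀ G : E 2 → ℂ, Measurable G → (∀ w, ‖G w‖ ≤ 1) →
    ∫⁻ s in Icc s0 s1, ∫⁻ t : ℝ, ∫⁻ x : E 2, ‖op a κ s t G x‖ₑ ^ p ≤
      C * ENNReal.ofReal (κ ^ (p + ε)) := by
  classical
  set δ : ℝ := (p - 3) / 4 with hδdef
  have hδ : 0 < δ := by rw [hδdef]; linarith
  have hδ1 : δ ≤ 2 / 5 := by rw [hδdef]; linarith
  obtain ⟨C4, hC4, H4⟩ := strip_L4 a ha (s0 / 2) (s1 + 1) (by linarith) (by linarith) δ hδ hδ1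
  obtain ⟨Cs, hCs, Hs⟩ := strip_sup a ha s0 h0
  obtain ⟨Cl, hCl, Hl⟩ := strip_L2 a ha s0 h0
  obtain ⟨Ct, hCt, Ht⟩ := time_sum (volume.restrict (Icc s0 s1)) (volume : Measure (E 2)) p
    (1 - 2 * δ) (by linarith) hp4 (by rw [hδdef]; nlinarith)
  set K : ℝ≥0∞ := (ENNReal.ofReal ((s0 / 2) ^ 3) * ENNReal.ofReal (Real.exp (-(4 * π))))⁻¹
    with hKdef
  have hK0 : ENNReal.ofReal ((s0 / 2) ^ 3) * ENNReal.ofReal (Real.exp (-(4 * π))) ≠ 0 := by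
    have h2 : ENNReal.ofReal ((s0 / 2) ^ 3) ≠ 0 := by
      rw [ENNReal.ofReal_ne_zero_iff]; positivity
    have h3 : ENNReal.ofReal (Real.exp (-(4 * π))) ≠ 0 := by
      rw [ENNReal.ofReal_ne_zero_iff]; positivity
    exact mul_ne_zero h2 h3
  have hKt : ENNReal.ofReal ((s0 / 2) ^ 3) * ENNReal.ofReal (Real.exp (-(4 * π))) ≠ ∞ :=
    ENNReal.mul_ne_top ENNReal.ofReal_ne_top ENNReal.ofReal_ne_top
  have hK : K ≠ ∞ := ENNReal.inv_ne_top.2 hK0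
  set D : ℝ≥0∞ := ENNReal.ofReal (Cs ^ (p - 2)) * ENNReal.ofReal Cl +
    ENNReal.ofReal (Cl ^ ((4 - p) / 2)) * (K * C4) ^ ((p - 2) / 2) with hD
  refine ⟨Ct * D, ENNReal.mul_ne_top hCt ?_, δ * (p - 2) / 2, by
    have : 0 < p - 2 := by linarith
    positivity, ?_⟩
  · refine ENNReal.add_ne_top.2 ⟨ENNReal.mul_ne_top ENNReal.ofReal_ne_top ENNReal.ofReal_ne_top,
      ENNReal.mul_ne_top ENNReal.ofReal_ne_top (ENNReal.rpow_ne_top_of_nonneg (by linarith)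
        (ENNReal.mul_ne_top hK hC4))⟩
  intro κ hκ hκ1 G hG hb
  have hm := measurable_op a ha κ G hG
  set F : ℝ → ℝ → E 2 → ℂ := fun s t x => if s ∈ Icc s0 s1 then op a κ s t G x else 0 with hF
  have hFm : Measurable fun q : ℝ × ℝ × E 2 => F q.1 q.2.1 q.2.2 := by
    refine Measurable.ite ?_ hm measurable_const
    exact measurable_fst measurableSet_Icc
  have key := Ht F hFm (ENNReal.ofReal (Cl * κ ^ 2)) (ENNReal.ofReal (Cs * κ ^ 2))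
    (K * C4 * ENNReal.ofReal (κ ^ (4 + δ))) ?_ ?_ ?_
  · have e1 : ∫⁻ s in Icc s0 s1, ∫⁻ t : ℝ, ∫⁻ x : E 2, ‖op a κ s t G x‖ₑ ^ p =
        ∫⁻ s in Icc s0 s1, ∫⁻ t : ℝ, ∫⁻ x : E 2, ‖F s t x‖ₑ ^ p := by
      refine setLIntegral_congr_fun measurableSet_Icc fun s hs => ?_
      simp only [hF, if_pos hs]
    rw [e1]
    refine key.trans ?_
    rw [mul_assoc Ct D]
    refine mul_le_mul_right ?_ Ct
    rw [hD, add_mul]
    refine add_le_add ?_ ?_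
    · rw [hsl_rpow Cs κ (p - 2) hCs hκ, ENNReal.ofReal_mul hCl.le]
      calc ENNReal.ofReal (Cs ^ (p - 2)) * ENNReal.ofReal (κ ^ (2 * (p - 2))) *
            (ENNReal.ofReal Cl * ENNReal.ofReal (κ ^ 2))
          = ENNReal.ofReal (Cs ^ (p - 2)) * ENNReal.ofReal Cl *
            (ENNReal.ofReal (κ ^ (2 * (p - 2))) * ENNReal.ofReal (κ ^ 2)) := by ring
        _ ≤ _ := by
            gcongr
            rw [← ENNReal.ofReal_mul (by positivity), ← Real.rpow_natCast κ 2,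
              ← Real.rpow_add hκ]
            apply hsl_pow κ _ _ hκ hκ1
            push_cast
            rw [hδdef]
            nlinarith
    · rw [hsl_rpow Cl κ ((4 - p) / 2) hCl hκ, ENNReal.mul_rpow_of_nonneg (K * C4) _ (by linarith),
        ENNReal.ofReal_rpow_of_pos (by positivity), ← Real.rpow_mul hκ.le]
      calc ENNReal.ofReal (Cl ^ ((4 - p) / 2)) * ENNReal.ofReal (κ ^ (2 * ((4 - p) / 2))) *
            ((K * C4) ^ ((p - 2) / 2) * ENNReal.ofReal (κ ^ ((4 + δ) * ((p - 2) / 2))))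
          = ENNReal.ofReal (Cl ^ ((4 - p) / 2)) * (K * C4) ^ ((p - 2) / 2) *
            (ENNReal.ofReal (κ ^ (2 * ((4 - p) / 2))) *
              ENNReal.ofReal (κ ^ ((4 + δ) * ((p - 2) / 2)))) := by ring
        _ ≤ _ := by
            gcongr
            rw [← ENNReal.ofReal_mul (by positivity), ← Real.rpow_add hκ]
            apply hsl_pow κ _ _ hκ hκ1
            apply le_of_eq
            ring
  · intro s t
    by_cases hs : s ∈ Icc s0 s1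
    · simp only [hF, if_pos hs]
      exact Hl κ s t hκ hκ1 hs.1 G hG hb
    · simp only [hF, if_neg hs]
      simp
  · intro s t x
    by_cases hs : s ∈ Icc s0 s1
    · simp only [hF, if_pos hs]
      rw [← ofReal_norm]
      exact ENNReal.ofReal_le_ofReal (Hs κ s t hκ hκ1 hs.1 G hG hb x)
    · simp only [hF, if_neg hs]
      simp
  · intro T hT
    have hT0 : 0 < T := by linarith
    have e1 : ∫⁻ s in Icc s0 s1, (∫⁻ t in {t : ℝ | T ≤ |t| ∧ |t| ≤ 2 * T},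
        (∫⁻ x, ‖F s t x‖ₑ ^ (4:ℝ))) = ∫⁻ s in Icc s0 s1,
        (∫⁻ t in {t : ℝ | T ≤ |t| ∧ |t| ≤ 2 * T}, (∫⁻ x, ‖op a κ s t G x‖ₑ ^ (4:ℝ))) := by
      refine setLIntegral_congr_fun measurableSet_Icc fun s hs => ?_
      simp only [hF, if_pos hs]
    rw [e1]
    have hΦ := hsl_meas_gen (volume : Measure (E 2)) (fun s t x => op a κ s t G x) hm
    have h6 := hsl_weight s0 s1 T h0 hT0 _ hΦ
    have h7 := h6.trans (H4 κ T hκ hκ1 hT0 G hG hb)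
    rw [← mul_assoc] at h7
    have h8 : ∫⁻ s in Icc s0 s1, (∫⁻ t in {t : ℝ | T ≤ |t| ∧ |t| ≤ 2 * T},
        (∫⁻ x, ‖op a κ s t G x‖ₑ ^ (4:ℝ))) ≤
        K * (C4 * ENNReal.ofReal (T ^ (-1 + 2 * δ) * κ ^ (4 + δ))) := by
      calc _ = K * (ENNReal.ofReal ((s0 / 2) ^ 3) * ENNReal.ofReal (Real.exp (-(4 * π))) *
            ∫⁻ s in Icc s0 s1, (∫⁻ t in {t : ℝ | T ≤ |t| ∧ |t| ≤ 2 * T},
              (∫⁻ x, ‖op a κ s t G x‖ₑ ^ (4:ℝ)))) := by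
            rw [← mul_assoc, hKdef, ENNReal.inv_mul_cancel hK0 hKt, one_mul]
        _ ≤ _ := by
            gcongr
    refine h8.trans (le_of_eq ?_)
    rw [ENNReal.ofReal_mul (by positivity), show -(1 - 2 * δ) = -1 + 2 * δ by ring]
    ring

/-
ROW SL (1.2 h). The L^p bound for one strip (assembly of L4, OB, TS).
Case 3 < p < 4. Choose δ ∈ (0, 2/5] with (1-2δ)(p-2) > 4-p (possible as p > 3), β = 1-2δ. Apply strip_L4 on the larger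
interval [s0/2, s1+1]: there bmp ≥ c > 0 on [s0, s1] and for T ≤ |t| ≤ 2T the weight (t/T)² exp(-π(t/T)²) ≥ exp(-4π).
So ∫⁻ s in Icc s0 s1, ∫⁻ t in {T ≤ |t| ≤ 2T}, ∫⁻ x ‖op‖^4 ≤ C T^(-β) κ^(4+δ). Use time_sum with
P = ℝ, π' = volume.restrict (Icc s0 s1), F s t x = if s ∈ Icc s0 s1 then op a κ s t G x else 0,
C1 = C κ² (strip_L2), C2 = C κ² (strip_sup), C3 = C κ^(4+δ):
 C2^(p-2) C1 = C κ^(2p-2), C1^((4-p)/2) C3^((p-2)/2) = C κ^(p + δ(p-2)/2); both ≤ C κ^(p+ε), ε = min (p-2) (δ(p-2)/2).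
Case p ≥ 4: ‖op‖^p ≤ (Cκ²)^(p-7/2) ‖op‖^(7/2) and the first case for 7/2:
κ^(2p-7) κ^(7/2+ε) ≤ κ^(p+ε) since 2p-7+7/2 ≥ p, κ ≤ 1.
-/
theorem strip_Lp (a : ℝ → ℝ) (ha : Cut a) (s0 s1 : ℝ) (h0 : 0 < s0) (h1 : s0 < s1) (p : ℝ)
    (hp : 3 < p) : ∃ C : ℝ≥0∞, C ≠ ∞ ∧ ∃ ε : ℝ, 0 < ε ∧ ∀ κ : ℝ, 0 < κ → κ ≤ 1 →
    ∀ G : E 2 → ℂ, Measurable G → (∀ w, ‖G w‖ ≤ 1) →
    ∫⁻ s in Icc s0 s1, ∫⁻ t : ℝ, ∫⁻ x : E 2, ‖op a κ s t G x‖ₑ ^ p ≤
      C * ENNReal.ofReal (κ ^ (p + ε)) := by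
  by_cases hp4 : p < 4
  · exact hsl_main a ha s0 s1 h0 h1 p hp hp4
  push Not at hp4
  obtain ⟨C, hC, ε, hε, H⟩ := hsl_main a ha s0 s1 h0 h1 (7 / 2) (by norm_num) (by norm_num)
  obtain ⟨Cs, hCs, Hs⟩ := strip_sup a ha s0 h0
  refine ⟨ENNReal.ofReal (Cs ^ (p - 7 / 2)) * C, ENNReal.mul_ne_top ENNReal.ofReal_ne_top hC, ε, hε,
    ?_⟩
  intro κ hκ hκ1 G hG hb
  have hm := measurable_op a ha κ G hG
  set M : ℝ≥0∞ := ENNReal.ofReal (Cs * κ ^ 2) with hM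
  have hMt : M ^ (p - 7 / 2) ≠ ∞ :=
    ENNReal.rpow_ne_top_of_nonneg (by linarith) ENNReal.ofReal_ne_top
  have h2 : ∫⁻ s in Icc s0 s1, ∫⁻ t : ℝ, ∫⁻ x : E 2, ‖op a κ s t G x‖ₑ ^ p ≤
      M ^ (p - 7 / 2) * ∫⁻ s in Icc s0 s1, ∫⁻ t : ℝ, ∫⁻ x : E 2,
        ‖op a κ s t G x‖ₑ ^ (7 / 2 : ℝ) := by
    rw [← lintegral_const_mul' _ _ hMt]
    refine setLIntegral_mono' measurableSet_Icc fun s hs => ?_
    rw [← lintegral_const_mul' _ _ hMt]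
    refine lintegral_mono fun t => ?_
    refine lintegral_rpow_le_sup _ ?_ (by norm_num) (by linarith) M fun x => ?_
    · exact hsl_meas_gen2 (fun s t x => op a κ s t G x) hm s t
    · rw [← ofReal_norm]
      exact ENNReal.ofReal_le_ofReal (Hs κ s t hκ hκ1 hs.1 G hG hb x)
  refine (h2.trans (mul_le_mul_right (H κ hκ hκ1 G hG hb) _)).trans ?_
  rw [hM, hsl_rpow Cs κ (p - 7 / 2) hCs hκ]
  calc ENNReal.ofReal (Cs ^ (p - 7 / 2)) * ENNReal.ofReal (κ ^ (2 * (p - 7 / 2))) *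
        (C * ENNReal.ofReal (κ ^ (7 / 2 + ε)))
      = ENNReal.ofReal (Cs ^ (p - 7 / 2)) * C * (ENNReal.ofReal (κ ^ (2 * (p - 7 / 2))) *
        ENNReal.ofReal (κ ^ (7 / 2 + ε))) := by ring
    _ ≤ _ := by
        gcongr
        rw [← ENNReal.ofReal_mul (by positivity), ← Real.rpow_add hκ]
        apply hsl_pow κ _ _ hκ hκ1
        linarith

end Pool.Agent.MST
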